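import Pool.Agent.H963.CJ.ChDef

/-!
# Cutting a chain (`S_CUT`)
-/

set_option autoImplicit false
set_option linter.unusedSectionVars false

open MeasureTheory Set Filter Topology Metric

namespace Pool.Agent.H963.CJ

namespace CCUT

variable {E : Type*} [NormedAddCommGroup E] [NormedSpace ℝ E]

theorem Box_eq (N : ℕ) (D : ℕ → Set E) :
    Box N D = Set.pi univ (fun i : Fin (N + 1) => D i) := by
  ext y; simp [Box]

theorem closure_Box (N : ℕ) (D : ℕ → Set E) :
    closure (Box N D) = {y | ∀ i : Fin (N + 1), y i ∈ closure (D i)} := by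
  rw [Box_eq, closure_pi_set]
  ext y; simp

theorem isOpen_Box (N : ℕ) (D : ℕ → Set E) (h : ∀ i ≤ N, IsOpen (D i)) : IsOpen (Box N D) := by
  rw [Box_eq]
  exact isOpen_set_pi finite_univ (fun i _ => h i (by omega))

theorem bounded_Box (N : ℕ) (D : ℕ → Set E) (h : ∀ i ≤ N, Bornology.IsBounded (D i)) :
    Bornology.IsBounded (Box N D) := by
  rw [Box_eq]
  exact Bornology.IsBounded.pi (fun i => h i (by omega))

theorem nonempty_Box (N : ℕ) (D : ℕ → Set E) (h : ∀ i ≤ N, (D i).Nonempty) :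
    (Box N D).Nonempty := by
  choose f hf using fun i : Fin (N + 1) => h i (by omega)
  exact ⟨f, hf⟩

/-- extension of a finite sequence -/
noncomputable def xt {N : ℕ} (y : Fin (N + 1) → E) : ℕ → E :=
  fun i => if h : i < N + 1 then y ⟨i, h⟩ else 0

theorem xt_of_lt {N : ℕ} (y : Fin (N + 1) → E) {i : ℕ} (h : i < N + 1) : xt y i = y ⟨i, h⟩ := by
  unfold xt; rw [dif_pos h]

/-- the `m`-th component of the homotopy -/
noncomputable def KK (P : E →L[ℝ] E) (c : E) (t : ℝ) (z f : E) : E :=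
  P (z - c) - (1 - t) • P (f - c) + (1 - t) • ((z - c) - P (z - c)) - ((f - c) - P (f - c))

theorem KK_zero (P : E →L[ℝ] E) (c z f : E) : KK P c 0 z f = z - f := by
  unfold KK
  rw [sub_zero, one_smul, one_smul]
  abel

theorem KK_eq_zero (P : E →L[ℝ] E) (hP : P * P = P) (c z f : E) (t : ℝ) (h : KK P c t z f = 0) :
    P (z - c) = (1 - t) • P (f - c) ∧ (f - c) - P (f - c) = (1 - t) • ((z - c) - P (z - c)) := by
  have hPP : ∀ v, P (P v) = P v := fun v => by
    have := congrArg (fun L : E →L[ℝ] E => L v) hP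
    exact this
  have h1 : P (z - c) - (1 - t) • P (f - c) = 0 := by
    have h2 := congrArg P h
    unfold KK at h2
    simp only [map_sub, map_add, map_smul, hPP, map_zero] at h2
    simp only [map_sub]
    have h3 : (1 - t) • (P z - P c - (P z - P c)) = 0 := by simp
    rw [h3] at h2
    have h4 : P f - P c - (P f - P c) = 0 := by simp
    rw [h4] at h2
    simpa using h2
  refine ⟨sub_eq_zero.1 h1, ?_⟩
  unfold KK at h
  rw [h1, zero_add, sub_eq_zero] at h
  exact h.symm

/-- the homotopy -/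
noncomputable def HH {s w : ℕ} (N m : ℕ) (F : ℕ → E → E) (bm : E → (Fin s → ℝ))
    (bp : E → (Fin w → ℝ)) (P : E →L[ℝ] E) (c : E) (t : ℝ)
    (y : Fin (N + 1) → E) : (Fin N → E) × (Fin s → ℝ) × (Fin w → ℝ) :=
  (fun i => if (i : ℕ) = m then KK P c t (y i.succ) (F i (y i.castSucc))
    else y i.succ - F i (y i.castSucc), bm (y 0), bp (y (Fin.last N)))

theorem HH_zero {s w : ℕ} (N m : ℕ) (F : ℕ → E → E) (bm : E → (Fin s → ℝ))
    (bp : E → (Fin w → ℝ)) (P : E →L[ℝ] E) (c : E) : HH N m F bm bp P c 0 = Bvp N F bm bp := by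
  funext y
  unfold HH Bvp
  simp only [KK_zero, ite_self]

theorem HH_cont {s w : ℕ} (N m : ℕ) (F : ℕ → E → E) (D : ℕ → Set E) (bm : E → (Fin s → ℝ))
    (bp : E → (Fin w → ℝ)) (P : E →L[ℝ] E) (c : E)
    (hF : ∀ i < N, ContinuousOn (F i) (closure (D i))) (hbm : ContinuousOn bm (closure (D 0)))
    (hbp : ContinuousOn bp (closure (D N))) :
    ContinuousOn (fun p : ℝ × (Fin (N + 1) → E) => HH N m F bm bp P c p.1 p.2)
      (Icc (0 : ℝ) 1 ×ˢ closure (Box N D)) := by
  have hmem : ∀ p ∈ Icc (0 : ℝ) 1 ×ˢ closure (Box N D), ∀ i : Fin (N + 1),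
      p.2 i ∈ closure (D i) := by
    intro p hp i
    have h2 := hp.2
    rw [closure_Box] at h2
    exact h2 i
  have hc : ∀ i : Fin (N + 1), Continuous (fun p : ℝ × (Fin (N + 1) → E) => p.2 i) :=
    fun i => (continuous_apply i).comp continuous_snd
  unfold HH
  refine ContinuousOn.prodMk ?_ (ContinuousOn.prodMk ?_ ?_)
  · rw [continuousOn_pi]
    intro i
    have h1 : ContinuousOn (fun p : ℝ × (Fin (N + 1) → E) => F i (p.2 i.castSucc))
        (Icc (0 : ℝ) 1 ×ˢ closure (Box N D)) :=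
      (hF i i.2).comp (hc i.castSucc).continuousOn (fun p hp => hmem p hp i.castSucc)
    have h2 : ContinuousOn (fun p : ℝ × (Fin (N + 1) → E) => p.2 i.succ)
        (Icc (0 : ℝ) 1 ×ˢ closure (Box N D)) := (hc i.succ).continuousOn
    by_cases hi : (i : ℕ) = m
    · simp only [hi, if_true]
      rw [hi] at h1
      unfold KK
      have h3 : ContinuousOn (fun p : ℝ × (Fin (N + 1) → E) => (1 - p.1))
          (Icc (0 : ℝ) 1 ×ˢ closure (Box N D)) := (by fun_prop : Continuous _).continuousOn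
      have h4 := h2.sub (continuousOn_const (c := c))
      have h5 := h1.sub (continuousOn_const (c := c))
      have h6 := P.continuous.comp_continuousOn h4
      have h7 := P.continuous.comp_continuousOn h5
      exact ((h6.sub (h3.smul h7)).add (h3.smul (h4.sub h6))).sub (h5.sub h7)
    · simp only [hi, if_false]
      exact h2.sub h1
  · exact hbm.comp (hc 0).continuousOn (fun p hp => hmem p hp 0)
  · exact hbp.comp (hc (Fin.last N)).continuousOn (fun p hp => by
      have := hmem p hp (Fin.last N)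
      simpa using this)

theorem Bvp_cont {s w : ℕ} (N : ℕ) (F : ℕ → E → E) (D : ℕ → Set E) (bm : E → (Fin s → ℝ))
    (bp : E → (Fin w → ℝ))
    (hF : ∀ i < N, ContinuousOn (F i) (closure (D i))) (hbm : ContinuousOn bm (closure (D 0)))
    (hbp : ContinuousOn bp (closure (D N))) :
    ContinuousOn (Bvp N F bm bp) (closure (Box N D)) := by
  have h := HH_cont N 0 F D bm bp 0 0 hF hbm hbp
  have h0 : (0 : ℝ) ∈ Icc (0 : ℝ) 1 := ⟨le_rfl, zero_le_one⟩
  have h1 := h.comp (f := fun y : Fin (N + 1) → E => ((0 : ℝ), y)) (s := closure (Box N D))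
    (by fun_prop) (fun y hy => ⟨h0, hy⟩)
  have h2 := HH_zero N 0 F bm bp (0 : E →L[ℝ] E) 0
  rw [← h2]
  exact h1

/-- joining two sequences -/
def LX (E : Type*) [NormedAddCommGroup E] [NormedSpace ℝ E] (m m' : ℕ) :
    ((Fin (m + 1) → E) × (Fin (m' + 1) → E)) ≃ₗ[ℝ] (Fin (m + 1 + m' + 1) → E) where
  toFun p i := if h : (i : ℕ) ≤ m then p.1 ⟨i, by omega⟩ else p.2 ⟨i - (m + 1), by omega⟩
  map_add' p q := by
    funext i
    by_cases h : (i : ℕ) ≤ m
    · simp [h]
    · simp [h]
  map_smul' a p := by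
    funext i
    by_cases h : (i : ℕ) ≤ m
    · simp [h]
    · simp [h]
  invFun y := (fun i => y ⟨i, by omega⟩, fun i => y ⟨m + 1 + i, by omega⟩)
  left_inv p := by
    refine Prod.ext ?_ ?_
    · funext i
      have h : (i : ℕ) ≤ m := by omega
      simp [h]
    · funext i
      have h : ¬ (m + 1 + (i : ℕ) ≤ m) := by omega
      simp [h]
  right_inv y := by
    funext i
    by_cases h : (i : ℕ) ≤ m
    · simp [h]
    · have : m + 1 + ((i : ℕ) - (m + 1)) = i := by omega
      simp [h, this]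

theorem LX_left (m m' : ℕ) (p : (Fin (m + 1) → E) × (Fin (m' + 1) → E)) (i : ℕ)
    (h : i < m + 1) (h' : i < m + 1 + m' + 1) : LX E m m' p ⟨i, h'⟩ = p.1 ⟨i, h⟩ := by
  have h2 : i ≤ m := by omega
  unfold LX
  simp [h2]

theorem LX_right (m m' : ℕ) (p : (Fin (m + 1) → E) × (Fin (m' + 1) → E)) (i : ℕ)
    (h : i < m' + 1) (h' : m + 1 + i < m + 1 + m' + 1) :
    LX E m m' p ⟨m + 1 + i, h'⟩ = p.2 ⟨i, h⟩ := by
  have h2 : ¬ (m + 1 + i ≤ m) := by omega
  unfold LX
  simp [h2]

theorem forall_LX (m m' : ℕ) (S : ℕ → Set E) (p : (Fin (m + 1) → E) × (Fin (m' + 1) → E)) :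
    (∀ i : Fin (m + 1 + m' + 1), LX E m m' p i ∈ S i) ↔
      (∀ i : Fin (m + 1), p.1 i ∈ S i) ∧ (∀ i : Fin (m' + 1), p.2 i ∈ S (m + 1 + i)) := by
  constructor
  · intro h
    refine ⟨fun i => ?_, fun i => ?_⟩
    · have := h ⟨i, by omega⟩
      rw [LX_left m m' p i i.2] at this
      exact this
    · have := h ⟨m + 1 + i, by omega⟩
      rw [LX_right m m' p i i.2] at this
      exact this
  · rintro ⟨ha, hb⟩ ⟨i, hi⟩
    by_cases h : i < m + 1
    · rw [LX_left m m' p i h]
      exact ha ⟨i, h⟩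
    · obtain ⟨j, rfl⟩ : ∃ j, i = m + 1 + j := ⟨i - (m + 1), by omega⟩
      rw [LX_right m m' p j (by omega)]
      exact hb ⟨j, by omega⟩

/-- splitting of the values -/
def LY0 {s w s' w' : ℕ} (m m' : ℕ) (βs : E →L[ℝ] (Fin s' → ℝ)) (βu : E →L[ℝ] (Fin w' → ℝ)) :
    ((Fin (m + 1 + m') → E) × (Fin s → ℝ) × (Fin w → ℝ)) →ₗ[ℝ]
      (((Fin m → E) × (Fin s → ℝ) × (Fin w' → ℝ)) ×
        ((Fin m' → E) × (Fin s' → ℝ) × (Fin w → ℝ))) where
  toFun g := ((fun i => g.1 ⟨i, by omega⟩, g.2.1, -βu (g.1 ⟨m, by omega⟩)),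
    (fun i => g.1 ⟨m + 1 + i, by omega⟩, βs (g.1 ⟨m, by omega⟩), g.2.2))
  map_add' p q := by
    ext <;> simp
    ring
  map_smul' a p := by
    ext <;> simp

theorem LY0_bij {s w s' w' : ℕ} (m m' : ℕ) (P : E →L[ℝ] E) (hP : P * P = P)
    (βs : E →L[ℝ] (Fin s' → ℝ)) (βu : E →L[ℝ] (Fin w' → ℝ))
    (hs : ∀ v, βs v = 0 ↔ P v = 0) (hs' : Function.Surjective βs)
    (hu : ∀ v, βu v = 0 ↔ P v = v) (hu' : Function.Surjective βu) :
    Function.Bijective (LY0 (s := s) (w := w) m m' βs βu) := by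
  have hPP : ∀ v, P (P v) = P v := fun v => by
    have := congrArg (fun L : E →L[ℝ] E => L v) hP
    exact this
  constructor
  · rw [injective_iff_map_eq_zero]
    intro g hg
    have h1 : (fun i : Fin m => g.1 ⟨i, by omega⟩) = 0 := congrArg (fun z => z.1.1) hg
    have h2 : g.2.1 = 0 := congrArg (fun z => z.1.2.1) hg
    have h3 : -βu (g.1 ⟨m, by omega⟩) = 0 := congrArg (fun z => z.1.2.2) hg
    have h4 : (fun i : Fin m' => g.1 ⟨m + 1 + i, by omega⟩) = 0 := congrArg (fun z => z.2.1) hg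
    have h5 : βs (g.1 ⟨m, by omega⟩) = 0 := congrArg (fun z => z.2.2.1) hg
    have h6 : g.2.2 = 0 := congrArg (fun z => z.2.2.2) hg
    have h7 : g.1 ⟨m, by omega⟩ = 0 := by
      rw [← (hu _).1 (neg_eq_zero.1 h3)]
      exact (hs _).1 h5
    refine Prod.ext ?_ (Prod.ext h2 h6)
    funext i
    rcases lt_trichotomy (i : ℕ) m with h | h | h
    · have := congrFun h1 ⟨i, h⟩
      exact this
    · have : i = ⟨m, by omega⟩ := Fin.ext h
      rw [this, h7]; rfl
    · have := congrFun h4 ⟨i - (m + 1), by omega⟩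
      have h8 : i = ⟨m + 1 + (i - (m + 1)), by omega⟩ := Fin.ext (by simp; omega)
      rw [h8]
      exact this
  · rintro ⟨⟨a, b, d⟩, ⟨a', b', d'⟩⟩
    obtain ⟨v, hv⟩ := hs' b'
    obtain ⟨u, hu2⟩ := hu' (-d)
    have e1 : ∀ z, βs (z - P z) = 0 := fun z => by
      rw [hs, map_sub, hPP, sub_self]
    have e2 : ∀ z, βu (P z) = 0 := fun z => by
      rw [hu, hPP]
    refine ⟨(fun i => if h : (i : ℕ) < m then a ⟨i, h⟩ else
      if h' : (i : ℕ) = m then P v + (u - P u) else a' ⟨i - (m + 1), by omega⟩, b, d'), ?_⟩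
    unfold LY0
    refine Prod.ext (Prod.ext ?_ (Prod.ext ?_ ?_)) (Prod.ext ?_ (Prod.ext ?_ ?_))
    · funext i
      simp
    · rfl
    · have h1 : βu (P v + (u - P u)) = -d := by
        rw [map_add, e2, zero_add, map_sub, e2, sub_zero, hu2]
      simp [h1]
    · funext i
      have h1 : ¬ (m + 1 + (i : ℕ) < m) := by omega
      have h2 : ¬ (m + 1 + (i : ℕ) = m) := by omega
      simp [h1, h2]
    · have h1 : βs (P v + (u - P u)) = b' := by
        rw [map_add, e1, add_zero]
        have := e1 v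
        rw [map_sub, sub_eq_zero] at this
        rw [← this, hv]
      simp [h1]
    · rfl

end CCUT

universe u

open CCUT in
theorem t_CUT (h0 : S_A0.{u}) (h1 : S_A1.{u}) (h3 : S_A3.{u}) (h4 : S_A4.{u}) : S_CUT.{u} := by
  have _h0 := h0
  intro E _ _ _ s w s' w' m m' F D bm bp P βs βu c hD hF hbm hbp hP hs hs' hu hu' hadm
  have hPP : ∀ v, P (P v) = P v := fun v => by
    have := congrArg (fun L : E →L[ℝ] E => L v) hP
    exact this
  set N : ℕ := m + 1 + m' with hN
  have hop : IsOpen (Box N D) := isOpen_Box N D (fun i hi => (hD i hi).1)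
  have hbd : Bornology.IsBounded (Box N D) := bounded_Box N D (fun i hi => (hD i hi).2.1)
  -- admissibility
  have hzero : ∀ t ∈ Icc (0 : ℝ) 1, ∀ y ∈ closure (Box N D), HH N m F bm bp P c t y = 0 →
      y ∈ Box N D := by
    intro t ht y hy hz
    rw [closure_Box] at hy
    have hz1 : ∀ i : Fin N, (if (i : ℕ) = m then KK P c t (y i.succ) (F i (y i.castSucc))
        else y i.succ - F i (y i.castSucc)) = 0 := fun i => congrFun (congrArg (fun z => z.1) hz) i
    have hz2 : bm (y 0) = 0 := congrArg (fun z => z.2.1) hz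
    have hz3 : bp (y (Fin.last N)) = 0 := congrArg (fun z => z.2.2) hz
    have hm : m < N := by omega
    have hK := hz1 ⟨m, hm⟩
    rw [if_pos rfl] at hK
    obtain ⟨hK1, hK2⟩ := KK_eq_zero P hP c _ _ t hK
    have hx : ∀ i (hi : i < N + 1), xt y i = y ⟨i, hi⟩ := fun i hi => xt_of_lt y hi
    have hxm : xt y m = y ((⟨m, hm⟩ : Fin N).castSucc) := hx m (by omega)
    have hxm1 : xt y (m + 1) = y ((⟨m, hm⟩ : Fin N).succ) := hx (m + 1) (by omega)
    have key := hadm t ht (xt y) (fun i hi => by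
        rw [hx i (by omega)]; exact hy ⟨i, by omega⟩)
      (fun i hi him => by
        have h5 := hz1 ⟨i, hi⟩
        rw [if_neg him] at h5
        rw [hx i (by omega), hx (i + 1) (by omega)]
        exact sub_eq_zero.1 h5)
      (by rw [hx 0 (by omega)]; exact hz2)
      (by rw [hx (m + 1 + m') (by omega)]; exact hz3)
      (by rw [hxm, hxm1]; exact hK1)
      (by rw [hxm, hxm1]; exact hK2)
    intro i
    have := key i (by omega)
    rw [hx i (by omega)] at this
    exact this
  have hfront : ∀ t ∈ Icc (0 : ℝ) 1, ∀ y ∈ frontier (Box N D), HH N m F bm bp P c t y ≠ 0 := by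
    intro t ht y hy hz
    rw [hop.frontier_eq] at hy
    exact hy.2 (hzero t ht y hy.1 hz)
  have hcont := HH_cont N m F D bm bp P c hF hbm hbp
  have hA1 := h1 (Fin (N + 1) → E) ((Fin N → E) × (Fin s → ℝ) × (Fin w → ℝ))
    (HH N m F bm bp P c) (Box N D) hop hbd hcont hfront
  rw [HH_zero] at hA1
  rw [hA1]
  have h1mem : (1 : ℝ) ∈ Icc (0 : ℝ) 1 := ⟨zero_le_one, le_rfl⟩
  have hcont1 : ContinuousOn (HH N m F bm bp P c 1) (closure (Box N D)) := by
    have := hcont.comp (f := fun y : Fin (N + 1) → E => ((1 : ℝ), y)) (s := closure (Box N D))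
      (by fun_prop) (fun y hy => ⟨h1mem, hy⟩)
    exact this
  have hAdm1 : Adm (HH N m F bm bp P c 1) (Box N D) := ⟨hop, hbd, hcont1, hfront 1 h1mem⟩
  -- linear identifications
  set LY := (LinearEquiv.ofBijective (LY0 (s := s) (w := w) m m' βs βu)
    (LY0_bij m m' P hP βs βu hs hs' hu hu')).toContinuousLinearEquiv with hLY
  set LXc := (LX E m m').toContinuousLinearEquiv with hLX
  have hLYapp : ∀ g, LY g = LY0 (s := s) (w := w) m m' βs βu g := fun g => rfl
  have hLXapp : ∀ p, LXc p = LX E m m' p := fun p => rfl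
  have hAdm2 : Adm (fun y => LY (HH N m F bm bp P c 1 y)) (Box N D) := by
    refine ⟨hop, hbd, LY.continuous.comp_continuousOn hcont1, ?_⟩
    intro y hy hz
    apply hfront 1 h1mem y hy
    exact (LY.map_eq_zero_iff).1 hz
  have hB1 := h4.1 (Fin (N + 1) → E) ((Fin N → E) × (Fin s → ℝ) × (Fin w → ℝ)) _
    (HH N m F bm bp P c 1) (Box N D) LY hAdm1
  have hB2 := h4.2 (Fin (N + 1) → E) _ _ (fun y => LY (HH N m F bm bp P c 1 y)) (Box N D) LXc hAdm2
  rw [← hB1, ← hB2]
  -- the product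
  have hfun : (fun x => LY (HH N m F bm bp P c 1 (LXc x))) =
      fun p : (Fin (m + 1) → E) × (Fin (m' + 1) → E) =>
        (Bvp m F bm (fun y => βu (F m y - c)) p.1,
          Bvp m' (fun i => F (m + 1 + i)) (fun y => βs (y - c)) bp p.2) := by
    funext p
    rw [hLYapp, hLXapp]
    have hmid : (HH N m F bm bp P c 1 (LX E m m' p)).1 ⟨m, by omega⟩ =
        P (p.2 0 - c) - ((F m (p.1 (Fin.last m)) - c) - P (F m (p.1 (Fin.last m)) - c)) := by
      unfold HH
      simp only [if_true]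
      have e1 : LX E m m' p ((⟨m, by omega⟩ : Fin N).succ) = p.2 0 :=
        LX_right m m' p 0 (by omega) (by omega)
      have e2 : LX E m m' p ((⟨m, by omega⟩ : Fin N).castSucc) = p.1 (Fin.last m) :=
        LX_left m m' p m (by omega) (by omega)
      rw [e1, e2]
      unfold KK
      rw [sub_self, zero_smul, zero_smul, sub_zero, add_zero]
    refine Prod.ext (Prod.ext ?_ (Prod.ext ?_ ?_)) (Prod.ext ?_ (Prod.ext ?_ ?_))
    · funext i
      change (HH N m F bm bp P c 1 (LX E m m' p)).1 ⟨i, by omega⟩ = _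
      unfold HH Bvp
      simp only
      rw [if_neg (by omega)]
      have e1 : LX E m m' p ((⟨i, by omega⟩ : Fin N).succ) = p.1 i.succ :=
        LX_left m m' p (i + 1) (by omega) (by omega)
      have e2 : LX E m m' p ((⟨i, by omega⟩ : Fin N).castSucc) = p.1 i.castSucc :=
        LX_left m m' p i (by omega) (by omega)
      rw [e1, e2]
    · change bm (LX E m m' p 0) = bm (p.1 0)
      have e1 : LX E m m' p 0 = p.1 0 := LX_left m m' p 0 (by omega) (by omega)
      rw [e1]
    · change -βu ((HH N m F bm bp P c 1 (LX E m m' p)).1 ⟨m, by omega⟩) =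
        βu (F m (p.1 (Fin.last m)) - c)
      rw [hmid, map_sub, map_sub (f := βu) (F m (p.1 (Fin.last m)) - c),
        (hu _).2 (hPP _), (hu _).2 (hPP _)]
      simp
    · funext i
      change (HH N m F bm bp P c 1 (LX E m m' p)).1 ⟨m + 1 + i, by omega⟩ = _
      unfold HH Bvp
      simp only
      rw [if_neg (by omega)]
      have e1 : LX E m m' p ((⟨m + 1 + i, by omega⟩ : Fin N).succ) = p.2 i.succ :=
        LX_right m m' p (i + 1) (by omega) (by omega)
      have e2 : LX E m m' p ((⟨m + 1 + i, by omega⟩ : Fin N).castSucc) = p.2 i.castSucc :=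
        LX_right m m' p i (by omega) (by omega)
      rw [e1, e2]
    · change βs ((HH N m F bm bp P c 1 (LX E m m' p)).1 ⟨m, by omega⟩) = βs (p.2 0 - c)
      have e1 : ∀ z, βs (z - P z) = 0 := fun z => by
        rw [hs, map_sub, hPP, sub_self]
      rw [hmid, map_sub, e1, sub_zero]
      have := e1 (p.2 0 - c)
      rw [map_sub, sub_eq_zero] at this
      exact this.symm
    · change bp (LX E m m' p (Fin.last N)) = bp (p.2 (Fin.last m'))
      have e1 : LX E m m' p (Fin.last N) = p.2 (Fin.last m') :=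
        LX_right m m' p m' (by omega) (by omega)
      rw [e1]
  have hset : LXc ⁻¹' (Box N D) = (Box m D) ×ˢ (Box m' (fun i => D (m + 1 + i))) := by
    ext p
    exact forall_LX m m' D p
  rw [hfun, hset]
  apply h3
  · exact isOpen_Box m D (fun i hi => (hD i (by omega)).1)
  · exact bounded_Box m D (fun i hi => (hD i (by omega)).2.1)
  · apply Bvp_cont
    · intro i hi
      exact hF i (by omega)
    · exact hbm
    · exact βu.continuous.comp_continuousOn ((hF m (by omega)).sub continuousOn_const)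
  · exact isOpen_Box m' _ (fun i hi => (hD (m + 1 + i) (by omega)).1)
  · exact bounded_Box m' _ (fun i hi => (hD (m + 1 + i) (by omega)).2.1)
  · apply Bvp_cont
    · intro i hi
      exact hF (m + 1 + i) (by omega)
    · exact (by fun_prop : Continuous (fun y => βs (y - c))).continuousOn
    · exact hbp
  · intro x₁ hx₁ x₂ hx₂ hz₁ hz₂
    have hcl : LX E m m' (x₁, x₂) ∈ closure (Box N D) := by
      rw [closure_Box] at hx₁ hx₂ ⊢
      exact (forall_LX m m' (fun i => closure (D i)) (x₁, x₂)).2 ⟨hx₁, hx₂⟩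
    have hz : HH N m F bm bp P c 1 (LX E m m' (x₁, x₂)) = 0 := by
      apply (LY.map_eq_zero_iff).1
      have := congrFun hfun (x₁, x₂)
      simp only at this
      rw [hz₁, hz₂] at this
      exact this
    have hb := hzero 1 h1mem _ hcl hz
    exact (forall_LX m m' D (x₁, x₂)).1 hb
  · exact nonempty_Box m D (fun i hi => (hD i (by omega)).2.2)
  · exact nonempty_Box m' _ (fun i hi => (hD (m + 1 + i) (by omega)).2.2)

end Pool.Agent.H963.CJ
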