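import Pool.Agent.H963.CJ.ChDef

set_option autoImplicit false

open MeasureTheory Set Filter Topology Metric
open scoped ContDiff

namespace Pool.Agent.H963.CJ

universe u

theorem t_CUT1 (h : S_CUT.{u}) : S_CUT1.{u} := by
  intro K l Cs hG E _ _ _ A P hGC m m' s w s' w' c F D r ε1 ε2 bm bp βs βu hCH hbm hbp
    hβs hβs' hβu hβu' hL hR
  have hcl : ∀ i ≤ m + 1 + m', closure (D i) ⊆ closedBall (c i) r := fun i hi =>
    closure_minimal (hCH.sub i hi) isClosed_closedBall
  refine h E s w s' w' m m' F D bm bp (P (m + 1)) βs βu (c (m + 1)) ?_ ?_ hbm hbp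
    (hGC.proj (m + 1)) hβs hβs' hβu hβu' ?_
  · intro i hi
    exact ⟨hCH.op i hi, isBounded_closedBall.subset (hCH.sub i hi), hCH.ne i hi⟩
  · intro i hi
    exact (hCH.cont i hi).mono (hcl i hi.le)
  · intro t ht y hy hF h0 hN hP hQ
    have key := hG E A P hGC (m + 1 + m') c y (fun i => F i (y i))
      (fun i => if i = m then t else 0) ε1 ε2 hCH.e1 hCH.e2
      (fun i _ => by
        show (if i = m then t else 0) ∈ Icc (0 : ℝ) 1
        split_ifs
        · exact ht
        · exact ⟨le_rfl, zero_le_one⟩)
      (fun i hi => hCH.lin i hi (y i) (hcl i hi.le (hy i hi.le)))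
      (fun i hi => by
        show P (i + 1) (y (i + 1) - c (i + 1)) =
          (1 - (if i = m then t else 0)) • P (i + 1) (F i (y i) - c (i + 1))
        by_cases him : i = m
        · subst him
          rw [if_pos rfl]
          exact hP
        · rw [if_neg him, sub_zero, one_smul, hF i hi him])
      (fun i hi => by
        show (F i (y i) - c (i + 1)) - P (i + 1) (F i (y i) - c (i + 1)) =
          (1 - (if i = m then t else 0)) •
            ((y (i + 1) - c (i + 1)) - P (i + 1) (y (i + 1) - c (i + 1)))
        by_cases him : i = m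
        · subst him
          rw [if_pos rfl]
          exact hQ
        · rw [if_neg him, sub_zero, one_smul, hF i hi him])
      (hCH.d0 (y 0) (hy 0 (Nat.zero_le _)))
      (hCH.dN (y (m + 1 + m')) (hy _ le_rfl))
    intro i hi
    rcases Nat.eq_zero_or_pos i with h1 | h1
    · subst h1
      exact hL y (fun j hj => hy j (by omega)) (fun j hj => hF j (by omega) (by omega)) h0
    · rcases Nat.lt_or_ge i (m + 1 + m') with h2 | h2
      · rw [hCH.mid i h1 h2, mem_ball, dist_eq_norm]
        exact lt_of_le_of_lt (key i hi) hCH.small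
      · have h3 : i = m + 1 + m' := le_antisymm hi h2
        subst h3
        exact hR (fun j => y (m + 1 + j)) (fun j hj => hy (m + 1 + j) (by omega))
          (fun j hj => hF (m + 1 + j) (by omega) (by omega)) hN

end Pool.Agent.H963.CJ
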