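import Pool.Agent.H963.CJ.ChDef

/-!
# CUT3 (helper721): two cuts and a middle part
-/

set_option autoImplicit false
set_option linter.unusedSectionVars false

open MeasureTheory Set Filter Topology Metric

namespace Pool.Agent.H963.CJ.CCUT3

open Pool.Agent.H963.CJ

universe u

section gen

variable {E : Type*} [NormedAddCommGroup E] [NormedSpace ℝ E]

theorem Pr_shift (A : ℕ → E →L[ℝ] E) (p i k : ℕ) :
    Pr (fun j => A (p + j)) i k = Pr A (p + i) k := by
  induction k with
  | zero => rfl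
  | succ k ih =>
    change A (p + (i + k)) * Pr (fun j => A (p + j)) i k = A (p + i + k) * Pr A (p + i) k
    rw [ih, Nat.add_assoc]

theorem GC_shift {A P : ℕ → E →L[ℝ] E} {K l : ℝ} (h : GC A P K l) (p : ℕ) :
    GC (fun i => A (p + i)) (fun i => P (p + i)) K l where
  K_ge := h.K_ge
  l_pos := h.l_pos
  l_lt := h.l_lt
  inj i := h.inj (p + i)
  proj i := h.proj (p + i)
  bd i := h.bd (p + i)
  comm i := h.comm (p + i)
  s i k v hv := by
    rw [Pr_shift]
    exact h.s (p + i) k v hv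
  u i k v hv := by
    rw [Pr_shift]
    exact h.u (p + i) k v hv

theorem Pr_smul (l : ℝ) (i k : ℕ) :
    Pr (fun _ => l • (1 : E →L[ℝ] E)) i k = l ^ k • (1 : E →L[ℝ] E) := by
  induction k with
  | zero => rw [pow_zero, one_smul]; rfl
  | succ k ih =>
    change (l • (1 : E →L[ℝ] E)) * Pr (fun _ => l • (1 : E →L[ℝ] E)) i k = _
    rw [ih, smul_mul_smul_comm, one_mul, pow_succ']

theorem GC_const {K l : ℝ} (hK : 1 ≤ K) (hl : 0 < l) (hl1 : l < 1) :
    GC (fun _ => l • (1 : E →L[ℝ] E)) (fun _ => (1 : E →L[ℝ] E)) K l where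
  K_ge := hK
  l_pos := hl
  l_lt := hl1
  inj _ := by
    intro v w h
    exact smul_right_injective E hl.ne' h
  proj _ := one_mul _
  bd _ := ContinuousLinearMap.norm_id_le.trans hK
  comm _ := by rw [mul_one, one_mul]
  s i k v _ := by
    rw [Pr_smul]
    change ‖l ^ k • v‖ ≤ _
    rw [norm_smul, Real.norm_of_nonneg (pow_nonneg hl.le k)]
    have : 0 ≤ l ^ k * ‖v‖ := by positivity
    nlinarith
  u i k v hv := by
    have h0 : v = 0 := hv
    rw [h0, norm_zero]
    positivity

end gen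

/-- the constant is positive -/
theorem cs_pos {K l Cs : ℝ} (hG2 : G2P.{u} K l Cs) (hK : 1 ≤ K) (hl : 0 < l) (hl1 : l < 1) :
    0 < Cs := by
  have : FiniteDimensional ℝ (ULift.{u} ℝ) :=
    LinearEquiv.finiteDimensional (ULift.moduleEquiv (R := ℝ) (M := ℝ)).symm
  have h := hG2 (ULift.{u} ℝ) _ _ (GC_const (E := ULift.{u} ℝ) hK hl hl1) 0 (fun _ => 0)
    (fun _ => ULift.up 1) (fun _ => 0) (fun _ => 0) 0 1 le_rfl zero_le_one
    (fun i hi => absurd hi (Nat.not_lt_zero i)) (fun i hi => absurd hi (Nat.not_lt_zero i))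
    (fun i hi => absurd hi (Nat.not_lt_zero i)) (fun i hi => absurd hi (Nat.not_lt_zero i))
    ?_ ?_ 0 le_rfl
  · have h1 : ‖(ULift.up 1 : ULift.{u} ℝ) - 0‖ = 1 := by
      rw [sub_zero]
      exact norm_one
    rw [h1] at h
    linarith
  · change ‖(ULift.up 1 : ULift.{u} ℝ) - 0‖ ≤ 1
    rw [sub_zero]
    exact norm_one.le
  · change ‖((ULift.up 1 : ULift.{u} ℝ) - 0) - ((ULift.up 1 : ULift.{u} ℝ) - 0)‖ ≤ 1
    rw [sub_self, norm_zero]
    exact zero_le_one

section ch

variable {E : Type u} [NormedAddCommGroup E] [NormedSpace ℝ E] [FiniteDimensional ℝ E]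
  {A P : ℕ → E →L[ℝ] E} {K l Cs : ℝ} {N : ℕ} {c : ℕ → E} {F : ℕ → E → E} {D : ℕ → Set E}
  {r ε1 ε2 : ℝ}

theorem clos (h : CH A P Cs N c F D r ε1 ε2) {i : ℕ} (hi : i ≤ N) :
    closure (D i) ⊆ closedBall (c i) r := closure_minimal (h.sub i hi) isClosed_closedBall

theorem dom (h : CH A P Cs N c F D r ε1 ε2) {i : ℕ} (hi : i ≤ N) :
    IsOpen (D i) ∧ Bornology.IsBounded (D i) ∧ (D i).Nonempty :=
  ⟨h.op i hi, isBounded_closedBall.subset (h.sub i hi), h.ne i hi⟩

theorem cont' (h : CH A P Cs N c F D r ε1 ε2) {i : ℕ} (hi : i < N) :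
    ContinuousOn (F i) (closure (D i)) := (h.cont i hi).mono (clos h hi.le)

/-- the a-priori estimate for a chain which starts at the time `p` and is cut at the time `p + q` -/
theorem apri (hG2 : G2P.{u} K l Cs) (hG : GC A P K l) (p M q : ℕ)
    (h : CH A P Cs (p + M) c F D r ε1 ε2) {t : ℝ} (ht : t ∈ Icc (0 : ℝ) 1) (y : ℕ → E)
    (hy : ∀ i ≤ M, y i ∈ closure (D (p + i)))
    (ho : ∀ i < M, i ≠ q → y (i + 1) = F (p + i) (y i))
    (h0 : ‖P p (y 0 - c p)‖ ≤ ε2)
    (h1 : P (p + (q + 1)) (y (q + 1) - c (p + (q + 1))) =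
      (1 - t) • P (p + (q + 1)) (F (p + q) (y q) - c (p + (q + 1))))
    (h2 : (F (p + q) (y q) - c (p + (q + 1))) -
      P (p + (q + 1)) (F (p + q) (y q) - c (p + (q + 1))) =
      (1 - t) • ((y (q + 1) - c (p + (q + 1))) -
        P (p + (q + 1)) (y (q + 1) - c (p + (q + 1))))) :
    ∀ i ≤ M, ‖y i - c (p + i)‖ < r / 2 := by
  intro i hi
  refine lt_of_le_of_lt ?_ h.small
  refine hG2 E (fun i => A (p + i)) (fun i => P (p + i)) (GC_shift hG p) M (fun i => c (p + i)) y
    (fun i => F (p + i) (y i)) (fun i => if i = q then t else 0) ε1 ε2 h.e1 h.e2 ?_ ?_ ?_ ?_ ?_ ?_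
    i hi
  · intro j _
    split_ifs
    · exact ht
    · exact ⟨le_rfl, zero_le_one⟩
  · intro j hj
    exact h.lin (p + j) (by omega) (y j) (clos h (by omega) (hy j hj.le))
  · intro j hj
    by_cases hjq : j = q
    · rw [if_pos hjq]
      subst hjq
      exact h1
    · rw [if_neg hjq, sub_zero, one_smul, ho j hj hjq]
  · intro j hj
    by_cases hjq : j = q
    · rw [if_pos hjq]
      subst hjq
      exact h2
    · rw [if_neg hjq, sub_zero, one_smul, ho j hj hjq]
  · exact h0
  · exact h.dN (y M) (hy M le_rfl)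

end ch

end Pool.Agent.H963.CJ.CCUT3

namespace Pool.Agent.H963.CJ

open CCUT3

universe u

theorem t_CUT3 (h : S_CUT.{u}) (hM : S_MID.{u}) : S_CUT3.{u} := by
  intro K l Cs hG2 E _ _ _ A P hG m n m' s w s' w' c F D r ε1 ε2 bm bp βs βs' βu βu' hCH hbm hbp
    hs1 hs2 hu1 hu2 hs1' hs2' hu1' hu2' hleft hright
  have hCs : 0 < Cs := cs_pos hG2 hG.K_ge hG.l_pos hG.l_lt
  have hball : ∀ i, 0 < i → i < m + 1 + (n + 1 + m') → ∀ y : E, ‖y - c i‖ < r / 2 → y ∈ D i := by
    intro i hi hi' y hy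
    rw [hCH.mid i hi hi', mem_ball, dist_eq_norm]
    exact hy
  -- the first cut
  have e1 := h E s w s' w' m (n + 1 + m') F D bm bp (P (m + 1)) βs βu (c (m + 1))
    (fun i hi => dom hCH hi) (fun i hi => cont' hCH hi) hbm hbp (hG.proj (m + 1)) hs1 hs2 hu1 hu2
    (by
      intro t ht y hy ho hb0 hbN hc1 hc2
      have hest := apri (p := 0) (M := m + 1 + (n + 1 + m')) (q := m) hG2 hG
        (by rw [Nat.zero_add]; exact hCH) ht y
        (by intro i hi; rw [Nat.zero_add]; exact hy i hi)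
        (by intro i hi hq; rw [Nat.zero_add]; exact ho i hi hq)
        (hCH.d0 (y 0) (hy 0 (Nat.zero_le _)))
        (by rw [Nat.zero_add, Nat.zero_add]; exact hc1)
        (by rw [Nat.zero_add, Nat.zero_add]; exact hc2)
      intro i hi
      rcases Nat.eq_zero_or_pos i with hi0 | hi0
      · rw [hi0]
        exact hleft y (fun j hj => hy j (by omega)) (fun j hj => ho j (by omega) (by omega)) hb0
      · rcases Nat.lt_or_ge i (m + 1 + (n + 1 + m')) with hiN | hiN
        · have h3 := hest i hi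
          rw [Nat.zero_add] at h3
          exact hball i hi0 hiN _ h3
        · have hiN' : i = m + 1 + (n + 1 + m') := le_antisymm hi hiN
          rw [hiN']
          exact hright (fun j => y (m + 1 + (n + 1 + j))) (fun j hj => hy _ (by omega))
            (fun j hj => ho (m + 1 + (n + 1 + j)) (by omega) (by omega)) hbN)
  -- the second cut
  have e2 := h E s' w s' w' n m' (fun i => F (m + 1 + i)) (fun i => D (m + 1 + i))
    (fun y => βs (y - c (m + 1))) bp (P (m + 1 + (n + 1))) βs' βu' (c (m + 1 + (n + 1)))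
    (fun i hi => dom hCH (by omega)) (fun i hi => cont' hCH (by omega))
    (βs.continuous.comp (continuous_id.sub continuous_const)).continuousOn hbp
    (hG.proj (m + 1 + (n + 1))) hs1' hs2' hu1' hu2'
    (by
      intro t ht y hy ho hb0 hbN hc1 hc2
      have hest := apri (p := m + 1) (M := n + 1 + m') (q := n) hG2 hG hCH ht y hy ho
        (by
          rw [(hs1 _).1 hb0, norm_zero]
          exact hCH.e2) hc1 hc2
      intro i hi
      rcases Nat.lt_or_ge i (n + 1 + m') with hiN | hiN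
      · exact hball (m + 1 + i) (by omega) (by omega) _ (hest i hi)
      · have hiN' : i = n + 1 + m' := le_antisymm hi hiN
        rw [hiN']
        exact hright (fun j => y (n + 1 + j)) (fun j hj => hy _ (by omega))
          (fun j hj => ho (n + 1 + j) (by omega) (by omega)) hbN)
  -- the middle part
  have hbox : Box n (fun i => D (m + 1 + i)) = Box n (fun i => ball (c (m + 1 + i)) (r / 2)) := by
    ext y
    refine forall_congr' fun i => ?_
    change y i ∈ D (m + 1 + i) ↔ y i ∈ ball (c (m + 1 + i)) (r / 2)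
    rw [hCH.mid (m + 1 + i) (by omega) (by omega)]
  have e3 := hM K l Cs hG2 E (fun i => A (m + 1 + i)) (fun i => P (m + 1 + i))
    (GC_shift hG (m + 1)) n s' w' (fun i => c (m + 1 + i)) (fun i => F (m + 1 + i)) r ε1 βs βu'
    hCH.r_pos hCH.e1
    (by
      have h1 := hCH.small
      have h2 : 0 ≤ Cs * ε2 := mul_nonneg hCs.le hCH.e2
      rw [mul_add] at h1
      linarith)
    (fun i hi => (hCH.cont (m + 1 + i) (by omega)).mono
      (closedBall_subset_closedBall (by linarith [hCH.r_pos])))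
    (fun i hi y hy => hCH.lin (m + 1 + i) (by omega) y
      (closedBall_subset_closedBall (by linarith [hCH.r_pos]) hy))
    hs1 hs2 hu1' hu2'
  rw [e1, e2, hbox]
  have e4 : adeg (Bvp n (fun i => F (m + 1 + i)) (fun y => βs (y - c (m + 1)))
      (fun y => βu' (F (m + 1 + n) y - c (m + 1 + (n + 1)))))
      (Box n (fun i => ball (c (m + 1 + i)) (r / 2))) = 1 := e3
  rw [e4, one_mul]

end Pool.Agent.H963.CJ
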