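import Pool.Agent.H963.CJ.ChDef

/-! CJ-DER (by helper734): the derivative of the boundary problem. -/

set_option autoImplicit false

open MeasureTheory Set Filter Topology Metric
open scoped ContDiff

namespace Pool.Agent.H963.CJ

universe u

theorem t_DER : S_DER.{u} := by
  intro E _ _ _ s w N F bm bp y Bm Bp hF hm hp
  have hproj : ∀ j : Fin (N + 1), HasFDerivAt (fun z : Fin (N + 1) → E => z j)
      (ContinuousLinearMap.proj (R := ℝ) (φ := fun _ : Fin (N + 1) => E) j)
      (fun i : Fin (N + 1) => y i) := fun j =>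
    (ContinuousLinearMap.proj (R := ℝ) (φ := fun _ : Fin (N + 1) => E) j).hasFDerivAt
  have h1 : HasFDerivAt (fun (z : Fin (N + 1) → E) (i : Fin N) => z i.succ - F i (z i.castSucc))
      (ContinuousLinearMap.pi fun i : Fin N =>
        ContinuousLinearMap.proj (R := ℝ) (φ := fun _ : Fin (N + 1) => E) i.succ -
          (fderiv ℝ (F i) (y i)).comp
            (ContinuousLinearMap.proj (R := ℝ) (φ := fun _ : Fin (N + 1) => E) i.castSucc))
      (fun i : Fin (N + 1) => y i) := by
    rw [hasFDerivAt_pi]
    intro i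
    have h2 : HasFDerivAt (F i) (fderiv ℝ (F i) (y i)) (y i) := (hF i i.2).hasFDerivAt
    exact (hproj i.succ).sub (HasFDerivAt.comp (g := F i)
      (f := fun z : Fin (N + 1) → E => z i.castSucc) (fun i : Fin (N + 1) => y i) h2
      (hproj i.castSucc))
  have h3 : HasFDerivAt (fun z : Fin (N + 1) → E => bm (z 0))
      (Bm.comp (ContinuousLinearMap.proj (R := ℝ) (φ := fun _ : Fin (N + 1) => E) 0))
      (fun i : Fin (N + 1) => y i) := by
    exact HasFDerivAt.comp (g := bm) (f := fun z : Fin (N + 1) → E => z 0)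
      (fun i : Fin (N + 1) => y i) hm (hproj 0)
  have h5 : HasFDerivAt (fun z : Fin (N + 1) → E => bp (z (Fin.last N)))
      (Bp.comp (ContinuousLinearMap.proj (R := ℝ) (φ := fun _ : Fin (N + 1) => E) (Fin.last N)))
      (fun i : Fin (N + 1) => y i) := by
    exact HasFDerivAt.comp (g := bp) (f := fun z : Fin (N + 1) → E => z (Fin.last N))
      (fun i : Fin (N + 1) => y i) hp (hproj (Fin.last N))
  exact h1.prodMk (h3.prodMk h5)

end Pool.Agent.H963.CJ
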