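import Pool.Agent.H963.CJ.ChDef

/-! # MID: a chain with adapted linear boundary conditions has degree one -/

set_option autoImplicit false
set_option linter.all false

open MeasureTheory Set Filter Topology Metric
open scoped ContDiff

namespace Pool.Agent.H963.CJ

universe u

namespace CMID

variable {E : Type u} [NormedAddCommGroup E] [NormedSpace ℝ E] [FiniteDimensional ℝ E]

/-- the a-priori estimate for the zeros of a boundary problem -/
theorem zero_est {K l Cs : ℝ} (hG : G2P.{u} K l Cs) {A P : ℕ → E →L[ℝ] E} (hGC : GC A P K l)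
    {n : ℕ} {c : ℕ → E} {G : ℕ → E → E} {ε : ℝ} (hε : 0 ≤ ε) {y : Fin (n + 1) → E}
    (h1 : ∀ i : Fin (n + 1), ‖G i (y i) - c (i + 1) - A i (y i - c i)‖ ≤ ε)
    (h2 : ∀ i : Fin n, y i.succ = G i (y i.castSucc))
    (h3 : P 0 (y 0 - c 0) = 0)
    (h4 : P (n + 1) (G n (y (Fin.last n)) - c (n + 1)) = G n (y (Fin.last n)) - c (n + 1)) :
    ∀ i : Fin (n + 1), ‖y i - c i‖ ≤ Cs * ε := by
  set x : ℕ → E := fun i => if h : i < n + 1 then y ⟨i, h⟩ else G n (y (Fin.last n)) with hx
  have x1 : ∀ (i : ℕ) (h : i < n + 1), x i = y ⟨i, h⟩ := by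
    intro i h
    rw [hx]
    exact dif_pos h
  have x2 : x (n + 1) = G n (y (Fin.last n)) := by
    rw [hx]
    exact dif_neg (lt_irrefl _)
  have key : ∀ i < n + 1, x (i + 1) = G i (x i) := by
    intro i hi
    by_cases h : i < n
    · rw [x1 i hi, x1 (i + 1) (by omega)]
      exact h2 ⟨i, h⟩
    · have e : i = n := by omega
      subst e
      rw [x2, x1 i hi]
      rfl
  have h5 := hG E A P hGC (n + 1) c x (fun i => G i (x i)) (fun _ => 0) ε 0 hε le_rfl
    (fun _ _ => ⟨le_rfl, zero_le_one⟩)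
    (fun i hi => by
      rw [x1 i hi]
      exact h1 ⟨i, hi⟩)
    (fun i hi => by
      rw [key i hi, sub_zero, one_smul])
    (fun i hi => by
      rw [key i hi, sub_zero, one_smul])
    (by
      rw [x1 0 (Nat.succ_pos n)]
      have : y ⟨0, Nat.succ_pos n⟩ = y 0 := rfl
      rw [this, h3, norm_zero])
    (by
      rw [x2, h4, sub_self, norm_zero])
  intro i
  have h6 := h5 i.1 (by omega)
  rw [x1 i.1 i.2, add_zero] at h6
  exact h6

/-- the homotopy of the maps -/
noncomputable def Ft (A : ℕ → E →L[ℝ] E) (c : ℕ → E) (F : ℕ → E → E) (t : ℝ) (i : ℕ) (y : E) : E :=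
  c (i + 1) + A i (y - c i) + (1 - t) • (F i y - c (i + 1) - A i (y - c i))

theorem Ft_zero (A : ℕ → E →L[ℝ] E) (c : ℕ → E) (F : ℕ → E → E) : Ft A c F 0 = F := by
  funext i y
  unfold Ft
  rw [sub_zero, one_smul]
  abel

theorem Ft_one (A : ℕ → E →L[ℝ] E) (c : ℕ → E) (F : ℕ → E → E) (i : ℕ) (y : E) :
    Ft A c F 1 i y = c (i + 1) + A i (y - c i) := by
  unfold Ft
  rw [sub_self, zero_smul, add_zero]

theorem Ft_est {A : ℕ → E →L[ℝ] E} {c : ℕ → E} {F : ℕ → E → E} {t : ℝ} (ht : t ∈ Icc (0 : ℝ) 1)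
    {i : ℕ} {y : E} {ε : ℝ} (h : ‖F i y - c (i + 1) - A i (y - c i)‖ ≤ ε) :
    ‖Ft A c F t i y - c (i + 1) - A i (y - c i)‖ ≤ ε := by
  have e : Ft A c F t i y - c (i + 1) - A i (y - c i) =
      (1 - t) • (F i y - c (i + 1) - A i (y - c i)) := by
    unfold Ft
    abel
  rw [e, norm_smul, Real.norm_of_nonneg (by linarith [ht.2])]
  have h1 : 0 ≤ ‖F i y - c (i + 1) - A i (y - c i)‖ := norm_nonneg _
  have h2 := ht.1
  nlinarith [ht.2]

theorem box_eq (n : ℕ) (c : ℕ → E) {r : ℝ} (hr : 0 < r) :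
    Box n (fun i => ball (c i) r) = ball (fun i : Fin (n + 1) => c i) r := by
  rw [ball_pi _ hr]
  ext y
  unfold Box
  rw [Set.mem_setOf_eq, Set.mem_univ_pi]

theorem mem_cl {n : ℕ} {c : ℕ → E} {r : ℝ} (hr : 0 < r) {y : Fin (n + 1) → E}
    (hy : y ∈ closure (Box n (fun i => ball (c i) r))) (i : Fin (n + 1)) :
    y i ∈ closedBall (c i) r := by
  rw [box_eq n c hr] at hy
  have h1 := closure_ball_subset_closedBall hy
  rw [closedBall_pi _ hr.le] at h1
  exact Set.mem_univ_pi.1 h1 i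

/-- the ranks of the projections agree -/
theorem rank_eq {K l : ℝ} {A P : ℕ → E →L[ℝ] E} (h : GC A P K l) (n : ℕ) :
    Module.finrank ℝ (LinearMap.range (P n : E →ₗ[ℝ] E)) =
      Module.finrank ℝ (LinearMap.range (P 0 : E →ₗ[ℝ] E)) := by
  induction n with
  | zero => rfl
  | succ n ih =>
    rw [← ih]
    have hinj : Function.Injective (A n : E →ₗ[ℝ] E) := h.inj n
    have hsur : Function.Surjective (A n : E →ₗ[ℝ] E) := LinearMap.injective_iff_surjective.1 hinj
    have e : LinearMap.range (P (n + 1) : E →ₗ[ℝ] E) =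
        (LinearMap.range (P n : E →ₗ[ℝ] E)).map (A n : E →ₗ[ℝ] E) := by
      ext v
      constructor
      · rintro ⟨w, rfl⟩
        obtain ⟨z, rfl⟩ := hsur w
        refine ⟨P n z, ⟨z, rfl⟩, ?_⟩
        have := DFunLike.congr_fun (h.comm n) z
        exact this
      · rintro ⟨w, ⟨z, rfl⟩, rfl⟩
        refine ⟨A n z, ?_⟩
        have := DFunLike.congr_fun (h.comm n) z
        exact this.symm
    rw [e]
    exact (Submodule.equivMapOfInjective _ hinj _).finrank_eq.symm

theorem dims {K l : ℝ} {A P : ℕ → E →L[ℝ] E} (h : GC A P K l) {n s w : ℕ}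
    {βs : E →L[ℝ] (Fin s → ℝ)} {βu : E →L[ℝ] (Fin w → ℝ)}
    (h1 : ∀ v, βs v = 0 ↔ P 0 v = 0) (hs1 : Function.Surjective βs)
    (h2 : ∀ v, βu v = 0 ↔ P n v = v) (hs2 : Function.Surjective βu) :
    s + w = Module.finrank ℝ E := by
  have a1 := LinearMap.finrank_range_add_finrank_ker (βs : E →ₗ[ℝ] (Fin s → ℝ))
  have a2 := LinearMap.finrank_range_add_finrank_ker (βu : E →ₗ[ℝ] (Fin w → ℝ))
  have a3 := LinearMap.finrank_range_add_finrank_ker (P 0 : E →ₗ[ℝ] E)
  have b1 : LinearMap.range (βs : E →ₗ[ℝ] (Fin s → ℝ)) = ⊤ := LinearMap.range_eq_top.2 hs1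
  have b2 : LinearMap.range (βu : E →ₗ[ℝ] (Fin w → ℝ)) = ⊤ := LinearMap.range_eq_top.2 hs2
  have b3 : LinearMap.ker (βs : E →ₗ[ℝ] (Fin s → ℝ)) = LinearMap.ker (P 0 : E →ₗ[ℝ] E) := by
    ext v
    rw [LinearMap.mem_ker, LinearMap.mem_ker]
    exact h1 v
  have b4 : LinearMap.ker (βu : E →ₗ[ℝ] (Fin w → ℝ)) = LinearMap.range (P n : E →ₗ[ℝ] E) := by
    ext v
    rw [LinearMap.mem_ker]
    constructor
    · intro hv
      exact ⟨v, (h2 v).1 hv⟩
    · rintro ⟨z, rfl⟩
      refine (h2 _).2 ?_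
      exact DFunLike.congr_fun (h.proj n) z
  have b5 := rank_eq h n
  rw [b1, finrank_top, Module.finrank_fintype_fun_eq_card, Fintype.card_fin, b3] at a1
  rw [b2, finrank_top, Module.finrank_fintype_fun_eq_card, Fintype.card_fin, b4, b5] at a2
  omega

end CMID

open CMID in
theorem t_MID (h1 : S_A1.{u}) (h5 : S_A5.{u}) : S_MID.{u} := by
  intro K l Cs hG E _ _ _ A P hGC n s w c F r ε1 βs βu hr hε1 hsm hFc hFe hβs hβs' hβu hβu'
  have hr2 : 0 < r / 2 := by positivity
  set Ω : Set (Fin (n + 1) → E) := Box n (fun i => ball (c i) (r / 2)) with hΩ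
  have hΩb : Ω = ball (fun i : Fin (n + 1) => c i) (r / 2) := box_eq n c hr2
  have hop : IsOpen Ω := by rw [hΩb]; exact isOpen_ball
  have hbd : Bornology.IsBounded Ω := by rw [hΩb]; exact isBounded_ball
  -- the homotopy
  set H : ℝ → (Fin (n + 1) → E) → (Fin n → E) × (Fin s → ℝ) × (Fin w → ℝ) := fun t =>
    Bvp n (Ft A c F t) (fun y => βs (y - c 0)) (fun y => βu (Ft A c F t n y - c (n + 1))) with hH
  have hH0 : H 0 = Bvp n F (fun y => βs (y - c 0)) (fun y => βu (F n y - c (n + 1))) := by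
    rw [hH]
    show Bvp n (Ft A c F 0) (fun y => βs (y - c 0)) (fun y => βu (Ft A c F 0 n y - c (n + 1))) = _
    rw [Ft_zero]
  rw [← hH0]
  -- continuity
  have hFt : ∀ i : Fin (n + 1), ContinuousOn
      (fun p : ℝ × (Fin (n + 1) → E) => Ft A c F p.1 i (p.2 i)) (Icc (0 : ℝ) 1 ×ˢ closure Ω) := by
    intro i
    have g1 : Continuous (fun p : ℝ × (Fin (n + 1) → E) => p.2 i) := by fun_prop
    have g2 : ContinuousOn (fun p : ℝ × (Fin (n + 1) → E) => F i (p.2 i))
        (Icc (0 : ℝ) 1 ×ˢ closure Ω) := by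
      refine (hFc i (Nat.le_of_lt_succ i.2)).comp g1.continuousOn ?_
      rintro ⟨t, y⟩ ⟨-, hy⟩
      exact mem_cl hr2 hy i
    have g3 : Continuous (fun p : ℝ × (Fin (n + 1) → E) => A i (p.2 i - c i)) :=
      (A i).continuous.comp (g1.sub continuous_const)
    unfold Ft
    exact (continuousOn_const.add g3.continuousOn).add
      ((continuousOn_const.sub continuous_fst.continuousOn).smul
        ((g2.sub continuousOn_const).sub g3.continuousOn))
  have hcont : ContinuousOn (fun p : ℝ × (Fin (n + 1) → E) => H p.1 p.2)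
      (Icc (0 : ℝ) 1 ×ˢ closure Ω) := by
    refine ContinuousOn.prodMk ?_ (ContinuousOn.prodMk ?_ ?_)
    · refine continuousOn_pi.2 fun i => ?_
      have g1 : Continuous (fun p : ℝ × (Fin (n + 1) → E) => p.2 i.succ) := by fun_prop
      exact g1.continuousOn.sub (hFt i.castSucc)
    · have g1 : Continuous (fun p : ℝ × (Fin (n + 1) → E) => p.2 0 - c 0) := by fun_prop
      exact (βs.continuous.comp g1).continuousOn
    · have g1 := (hFt (Fin.last n)).sub (continuousOn_const (c := c (n + 1)))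
      exact βu.continuous.comp_continuousOn g1
  -- the zeros
  have hzero : ∀ t ∈ Icc (0 : ℝ) 1, ∀ y ∈ closure Ω, H t y = 0 → y ∈ Ω := by
    intro t ht y hy h0
    have e1 := congrArg Prod.fst h0
    have e2 := congrArg (fun q => q.2.1) h0
    have e3 := congrArg (fun q => q.2.2) h0
    have k1 : ∀ i : Fin n, y i.succ = Ft A c F t i (y i.castSucc) := by
      intro i
      have := congrFun e1 i
      exact sub_eq_zero.1 this
    have k2 : P 0 (y 0 - c 0) = 0 := (hβs _).1 e2
    have k3 : P (n + 1) (Ft A c F t n (y (Fin.last n)) - c (n + 1)) =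
        Ft A c F t n (y (Fin.last n)) - c (n + 1) := (hβu _).1 e3
    have k4 := zero_est hG hGC hε1 (G := Ft A c F t) (y := y)
      (fun i => Ft_est ht (hFe i (Nat.le_of_lt_succ i.2) _ (mem_cl hr2 hy i))) k1 k2 k3
    intro i
    rw [mem_ball, dist_eq_norm]
    exact (k4 i).trans_lt hsm
  have hne : ∀ t ∈ Icc (0 : ℝ) 1, ∀ x ∈ frontier Ω, H t x ≠ 0 := by
    intro t ht x hx h0
    rw [frontier, hop.interior_eq] at hx
    exact hx.2 (hzero t ht x hx.1 h0)
  rw [h1 _ _ H Ω hop hbd hcont hne]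
  -- the affine problem
  set L : (Fin (n + 1) → E) →L[ℝ] ((Fin n → E) × (Fin s → ℝ) × (Fin w → ℝ)) :=
    BvpD n A βs (βu.comp (A n)) with hL
  set a : Fin (n + 1) → E := fun i => c i with ha
  have hL1 : ∀ v, L v = (fun i : Fin n => v i.succ - A i (v i.castSucc), βs (v 0),
      βu (A n (v (Fin.last n)))) := by
    intro v
    rfl
  have hH1 : H 1 = fun y => L (y - a) := by
    funext y
    rw [hL1]
    show Bvp n (Ft A c F 1) (fun y => βs (y - c 0)) (fun y => βu (Ft A c F 1 n y - c (n + 1))) y = _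
    unfold Bvp
    refine Prod.ext ?_ (Prod.ext ?_ ?_)
    · funext i
      show y i.succ - Ft A c F 1 i (y i.castSucc) = (y - a) i.succ - A i ((y - a) i.castSucc)
      rw [Ft_one]
      show y i.succ - (c (i + 1) + A i (y i.castSucc - c i)) =
        (y i.succ - c (i + 1)) - A i (y i.castSucc - c i)
      abel
    · rfl
    · show βu (Ft A c F 1 n (y (Fin.last n)) - c (n + 1)) = βu (A n ((y - a) (Fin.last n)))
      rw [Ft_one, add_sub_cancel_left]
      rfl
  have hinj : Function.Injective L := by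
    rw [injective_iff_map_eq_zero]
    intro v hv
    rw [hL1] at hv
    have e1 := congrArg Prod.fst hv
    have e2 := congrArg (fun q => q.2.1) hv
    have e3 := congrArg (fun q => q.2.2) hv
    have k1 : ∀ i : Fin n, v i.succ = A i (v i.castSucc) := by
      intro i
      have := congrFun e1 i
      exact sub_eq_zero.1 this
    have k2 : P 0 (v 0) = 0 := (hβs _).1 e2
    have k3 : P (n + 1) (A n (v (Fin.last n))) = A n (v (Fin.last n)) := (hβu _).1 e3
    have k4 := zero_est hG hGC le_rfl (c := fun _ => 0) (G := fun i x => A i x) (y := v)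
      (fun i => by
        rw [sub_zero, sub_zero, sub_self, norm_zero]) k1
      (by rw [sub_zero]; exact k2) (by rw [sub_zero]; exact k3)
    funext i
    have := k4 i
    rw [mul_zero, sub_zero] at this
    exact norm_le_zero_iff.1 this
  have hdim := dims hGC hβs hβs' hβu hβu'
  have hbij : Function.Bijective L := by
    refine ⟨hinj, ?_⟩
    have e : Module.finrank ℝ (Fin (n + 1) → E) =
        Module.finrank ℝ ((Fin n → E) × (Fin s → ℝ) × (Fin w → ℝ)) := by
      rw [Module.finrank_prod, Module.finrank_prod, Module.finrank_fintype_fun_eq_card,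
        Module.finrank_fintype_fun_eq_card, Fintype.card_fin, Fintype.card_fin,
        Module.finrank_pi_fintype, Module.finrank_pi_fintype, Finset.sum_const, Finset.sum_const,
        Finset.card_univ, Finset.card_univ, Fintype.card_fin, Fintype.card_fin, ← hdim]
      simp only [smul_eq_mul]
      ring
    exact (LinearMap.injective_iff_surjective_of_finrank_eq_finrank
      (f := (L : (Fin (n + 1) → E) →ₗ[ℝ] ((Fin n → E) × (Fin s → ℝ) × (Fin w → ℝ)))) e).1 hinj
  have haΩ : a ∈ Ω := by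
    rw [hΩb]
    exact mem_ball_self hr2
  refine h5 _ _ (H 1) Ω a L hop hbd ?_ haΩ ?_ ?_ ?_ hbij
  · rw [hH1]
    exact (L.continuous.comp (continuous_id.sub continuous_const)).continuousOn
  · rw [hH1]
    dsimp only
    rw [sub_self, map_zero]
  · intro x _ hx
    rw [hH1] at hx
    dsimp only at hx
    exact sub_eq_zero.1 (hinj (by rw [hx, map_zero]))
  · rw [hH1]
    have g1 : HasFDerivAt (fun y : Fin (n + 1) → E => y - a) (ContinuousLinearMap.id ℝ _) a :=
      (hasFDerivAt_id a).sub_const a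
    have g2 := HasFDerivAt.comp (g := L) (f := fun y : Fin (n + 1) → E => y - a) a
      L.hasFDerivAt g1
    exact g2

end Pool.Agent.H963.CJ
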