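import Pool.Agent.H963.CJ.ChDef
import Pool.Agent.H244.Sign

/-!
# SIGN: the sign of the determinant is constant over all orbits in a tube
-/

set_option autoImplicit false
set_option linter.unusedSectionVars false

open Set Filter Topology Metric
open scoped ContDiff

namespace Pool.Agent.H963.CJ

universe u

namespace CSIGN

open Pool.Agent.H244.Tube (isUnit_inj ss_trans ss_symm seg_mem triv)
open Pool.Agent.H244.Deg (sign_path det_ne_zero_of_ker)

variable {E : Type*} [NormedAddCommGroup E] [NormedSpace ℝ E]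

/-- the general operator -/
noncomputable def OP (N : ℕ) {s w : ℕ} (A B : ℕ → E →L[ℝ] E) (a : E →L[ℝ] (Fin s → ℝ))
    (b : E →L[ℝ] (Fin w → ℝ)) :
    (Fin (N + 1) → E) →L[ℝ] ((Fin N → E) × (Fin s → ℝ) × (Fin w → ℝ)) :=
  (ContinuousLinearMap.pi fun i : Fin N =>
    (A i).comp (ContinuousLinearMap.proj (R := ℝ) (φ := fun _ : Fin (N + 1) => E) i.succ) -
      (B i).comp (ContinuousLinearMap.proj (R := ℝ) (φ := fun _ : Fin (N + 1) => E) i.castSucc)).prod
    ((a.comp (ContinuousLinearMap.proj (R := ℝ) (φ := fun _ : Fin (N + 1) => E) 0)).prod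
      (b.comp (ContinuousLinearMap.proj (R := ℝ) (φ := fun _ : Fin (N + 1) => E) (Fin.last N))))

theorem OP_apply {N s w : ℕ} (A B : ℕ → E →L[ℝ] E) (a : E →L[ℝ] (Fin s → ℝ))
    (b : E →L[ℝ] (Fin w → ℝ)) (v : Fin (N + 1) → E) :
    OP N A B a b v = (fun i : Fin N => A i (v i.succ) - B i (v i.castSucc), a (v 0),
      b (v (Fin.last N))) := rfl

theorem OP_congr {N s w : ℕ} {A A' B B' : ℕ → E →L[ℝ] E} {a a' : E →L[ℝ] (Fin s → ℝ)}
    {b b' : E →L[ℝ] (Fin w → ℝ)} (hA : ∀ i < N, A i = A' i) (hB : ∀ i < N, B i = B' i)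
    (ha : a = a') (hb : b = b') : OP N A B a b = OP N A' B' a' b' := by
  subst ha hb
  refine ContinuousLinearMap.ext fun v => ?_
  rw [OP_apply, OP_apply]
  refine Prod.ext (funext fun i => ?_) rfl
  show A i (v i.succ) - B i (v i.castSucc) = A' i (v i.succ) - B' i (v i.castSucc)
  rw [hA i i.2, hB i i.2]

theorem BvpD_eq {N s w : ℕ} (A : ℕ → E →L[ℝ] E) (a : E →L[ℝ] (Fin s → ℝ))
    (b : E →L[ℝ] (Fin w → ℝ)) : BvpD N A a b = OP N (fun _ => 1) A a b :=
  ContinuousLinearMap.ext fun _ => rfl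

/-- the determinant after composition with `e.symm` -/
noncomputable def dt {V W : Type*} [NormedAddCommGroup V] [NormedSpace ℝ V]
    [NormedAddCommGroup W] [NormedSpace ℝ W] (e : V ≃L[ℝ] W) (L : V →L[ℝ] W) : ℝ :=
  ((e.symm : W →L[ℝ] V).comp L).det

theorem lin1 {V : Type*} [NormedAddCommGroup V] [NormedSpace ℝ V] (a b : V) (s : Set ℝ) :
    ContinuousOn (fun t : ℝ => a + t • b) s := by fun_prop

theorem lin2 {V : Type*} [NormedAddCommGroup V] [NormedSpace ℝ V] (a b : V) (s : Set ℝ) :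
    ContinuousOn (fun t : ℝ => t • a + b) s := by fun_prop

theorem mul_path {V : Type*} [NormedAddCommGroup V] [NormedSpace ℝ V] (A : V →L[ℝ] V)
    {f : ℝ → V →L[ℝ] V} {s : Set ℝ} (hf : ContinuousOn f s) :
    ContinuousOn (fun t => A * f t) s :=
  continuousOn_const.mul hf

/-- continuity of the determinant along a path of operators -/
theorem det_path {V : Type*} [NormedAddCommGroup V] [NormedSpace ℝ V] [FiniteDimensional ℝ V]
    {f : ℝ → V →L[ℝ] V} {s : Set ℝ} (hf : ContinuousOn f s) :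
    ContinuousOn (fun t => (f t).det) s :=
  ContinuousLinearMap.continuous_det.comp_continuousOn hf

theorem dt_path {V W : Type*} [NormedAddCommGroup V] [NormedSpace ℝ V] [FiniteDimensional ℝ V]
    [NormedAddCommGroup W] [NormedSpace ℝ W] (e : V ≃L[ℝ] W) {L : ℝ → V →L[ℝ] W} {s : Set ℝ}
    (hL : ∀ v : V, ContinuousOn (fun t => L t v) s) :
    ContinuousOn (fun t => dt e (L t)) s := by
  refine det_path ?_
  rw [continuousOn_clm_apply]
  intro v
  exact e.symm.continuous.comp_continuousOn (hL v)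

/-- a path of injective operators -/
theorem path_OP [FiniteDimensional ℝ E] {N s w : ℕ}
    (e : (Fin (N + 1) → E) ≃L[ℝ] ((Fin N → E) × (Fin s → ℝ) × (Fin w → ℝ)))
    (A B : ℝ → ℕ → E →L[ℝ] E) (a : ℝ → E →L[ℝ] (Fin s → ℝ)) (b : ℝ → E →L[ℝ] (Fin w → ℝ))
    (hA : ∀ i < N, ContinuousOn (fun t => A t i) (Icc 0 1))
    (hB : ∀ i < N, ContinuousOn (fun t => B t i) (Icc 0 1))
    (ha : ContinuousOn a (Icc 0 1)) (hb : ContinuousOn b (Icc 0 1))
    (hi : ∀ t ∈ Icc (0 : ℝ) 1, ∀ u : ℕ → E, (∀ i < N, A t i (u (i + 1)) = B t i (u i)) →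
      a t (u 0) = 0 → b t (u N) = 0 → ∀ i ≤ N, u i = 0) :
    0 < dt e (OP N (A 0) (B 0) (a 0) (b 0)) * dt e (OP N (A 1) (B 1) (a 1) (b 1)) := by
  refine sign_path (f := fun t => dt e (OP N (A t) (B t) (a t) (b t))) ?_ ?_
  · refine dt_path e fun v => ?_
    simp only [OP_apply]
    refine ContinuousOn.prodMk ?_ (ContinuousOn.prodMk ?_ ?_)
    · rw [continuousOn_pi]
      intro i
      exact ((hA i i.2).clm_apply continuousOn_const).sub ((hB i i.2).clm_apply continuousOn_const)
    · exact ha.clm_apply continuousOn_const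
    · exact hb.clm_apply continuousOn_const
  · intro t ht
    apply det_ne_zero_of_ker
    intro v hv
    have h1 : OP N (A t) (B t) (a t) (b t) v = 0 := by
      have h2 : e.symm (OP N (A t) (B t) (a t) (b t) v) = 0 := hv
      exact (ContinuousLinearEquiv.map_eq_zero_iff e.symm).1 h2
    rw [OP_apply, Prod.mk_eq_zero, Prod.mk_eq_zero] at h1
    obtain ⟨h2, h3, h4⟩ := h1
    obtain ⟨u, hu⟩ : ∃ u : ℕ → E, u = fun i => if h : i < N + 1 then v ⟨i, h⟩ else 0 := ⟨_, rfl⟩
    have hui : ∀ i (h : i < N + 1), u i = v ⟨i, h⟩ := by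
      intro i h
      rw [hu]
      simp only [h, dif_pos]
    have h5 := hi t ht u (fun i hi' => by
      rw [hui (i + 1) (Nat.succ_lt_succ hi'), hui i (Nat.lt_succ_of_lt hi')]
      exact sub_eq_zero.1 (congrFun h2 ⟨i, hi'⟩))
      (by rw [hui 0 (Nat.succ_pos N)]; exact h3)
      (by rw [hui N (Nat.lt_succ_self N)]; exact h4)
    funext i
    rw [← hui i i.2]
    exact h5 i (Nat.lt_succ_iff.1 i.2)

end CSIGN

open CSIGN Pool.Agent.H244.Tube in
set_option maxHeartbeats 4000000 in
theorem t_SIGN : S_SIGN.{u} := by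
  intro E _ _ _ N s w F P c R D Bm Bp hR hD hPc hPP hF hBm hBp _ hH y y' hy hyo hy' hyo' e
  have hDs : ∀ i ≤ N, ∀ x ∈ D i, x ∈ closedBall (c i) R := fun i hi x hx => (hD i hi).2 hx
  -- the trivialisations
  have hTex : ∀ i, ∃ T : E → E →L[ℝ] E, i ≤ N → ContinuousOn T (closedBall (c i) R) ∧
      (∀ x ∈ closedBall (c i) R, IsUnit (T x)) ∧
      (∀ x ∈ closedBall (c i) R, P i x * T x = T x * P i (c i)) ∧ T (c i) = 1 := by
    intro i
    by_cases hi : i ≤ N
    · obtain ⟨T, hT⟩ := triv (c i) hR (P i) (hPc i hi) (hPP i hi)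
      exact ⟨T, fun _ => hT⟩
    · exact ⟨fun _ => 1, fun h => absurd h hi⟩
  choose T hT using hTex
  have hTc : ∀ i ≤ N, ContinuousOn (T i) (closedBall (c i) R) := fun i hi => (hT i hi).1
  have hTu : ∀ i ≤ N, ∀ x ∈ closedBall (c i) R, IsUnit (T i x) := fun i hi => (hT i hi).2.1
  have hTP : ∀ i ≤ N, ∀ x ∈ closedBall (c i) R, P i x * T i x = T i x * P i (c i) :=
    fun i hi => (hT i hi).2.2.1
  have hT1 : ∀ i ≤ N, T i (c i) = 1 := fun i hi => (hT i hi).2.2.2
  obtain ⟨p, hp⟩ : ∃ p : ℕ → E →L[ℝ] E, p = fun i => P i (c i) := ⟨_, rfl⟩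
  have hTp : ∀ i ≤ N, ∀ x ∈ closedBall (c i) R, ∀ v, P i x (T i x v) = T i x (p i v) := by
    intro i hi x hx v
    have := congrArg (fun A : E →L[ℝ] E => A v) (hTP i hi x hx)
    rw [hp]
    exact this
  have hpp : ∀ i ≤ N, ∀ v, p i (p i v) = p i v := by
    intro i hi v
    have := congrArg (fun A : E →L[ℝ] E => A v) (hPP i hi _ (mem_closedBall_self hR))
    rw [hp]
    exact this
  have hpq : ∀ i ≤ N, ∀ v, p i ((1 - p i) v) = 0 := by
    intro i hi v
    have h1 : (1 - p i) v = v - p i v := rfl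
    rw [h1, map_sub, hpp i hi, sub_self]
  -- the conjugated derivatives
  obtain ⟨C, hC⟩ : ∃ C : ℕ → E → E →L[ℝ] E, C = fun i z =>
    Ring.inverse (T (i + 1) (F i z)) * (fderiv ℝ (F i) z * T i z) := ⟨_, rfl⟩
  have hFm : ∀ i < N, ∀ x ∈ D i, F i x ∈ closedBall (c (i + 1)) R := fun i hi x hx =>
    (hF i hi x hx).2.1
  have hTC : ∀ i < N, ∀ z ∈ D i, ∀ v, T (i + 1) (F i z) (C i z v) =
      fderiv ℝ (F i) z (T i z v) := by
    intro i hi z hz v
    have h1 : T (i + 1) (F i z) * C i z = fderiv ℝ (F i) z * T i z := by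
      rw [hC]
      show T (i + 1) (F i z) * (_ * _) = _
      rw [← mul_assoc, Ring.mul_inverse_cancel _ (hTu (i + 1) hi _ (hFm i hi z hz)), one_mul]
    exact congrArg (fun A : E →L[ℝ] E => A v) h1
  have hCinj : ∀ i < N, ∀ z ∈ D i, ∀ v, C i z v = 0 → v = 0 := by
    intro i hi z hz v hv
    have h1 := hTC i hi z hz v
    rw [hv, map_zero] at h1
    have h2 : T i z v = 0 := by
      apply (hF i hi z hz).2.2.2
      rw [← h1, map_zero]
    exact isUnit_inj (hTu i hi.le z (hDs i hi.le z hz)) h2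
  have hCp : ∀ i < N, ∀ z ∈ D i, ∀ v, p (i + 1) (C i z v) = C i z (p i v) := by
    intro i hi z hz v
    have hz' := hDs i hi.le z hz
    have h0 := hFm i hi z hz
    have h1 : T (i + 1) (F i z) (p (i + 1) (C i z v)) = T (i + 1) (F i z) (C i z (p i v)) := by
      rw [← hTp (i + 1) hi _ h0, hTC i hi z hz, hTC i hi z hz, ← hTp i hi.le z hz']
      exact (congrArg (fun A : E →L[ℝ] E => A (T i z v)) (hF i hi z hz).2.2.1).symm
    have h2 : T (i + 1) (F i z) (p (i + 1) (C i z v) - C i z (p i v)) = 0 := by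
      rw [map_sub, h1, sub_self]
    exact sub_eq_zero.1 (isUnit_inj (hTu (i + 1) hi _ h0) h2)
  have hCc : ∀ i < N, ContinuousOn (C i) (D i) := by
    intro i hi
    have a0 : ContinuousOn (F i) (D i) := fun z hz =>
      (hF i hi z hz).1.continuousAt.continuousWithinAt
    have a1 : ContinuousOn (fun z => T (i + 1) (F i z)) (D i) :=
      (hTc (i + 1) hi).comp a0 (fun z hz => hFm i hi z hz)
    have a2 : ContinuousOn (fun z => Ring.inverse (T (i + 1) (F i z))) (D i) := by
      intro z hz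
      obtain ⟨u, hu⟩ := hTu (i + 1) hi _ (hFm i hi z hz)
      have : CompleteSpace E := FiniteDimensional.complete ℝ E
      have h3 := NormedRing.inverse_continuousAt u
      rw [hu] at h3
      exact ContinuousAt.comp_continuousWithinAt (g := Ring.inverse)
        (f := fun z => T (i + 1) (F i z)) h3 (a1 z hz)
    have a3 : ContinuousOn (fderiv ℝ (F i)) (D i) := fun z hz =>
      ((hF i hi z hz).1.continuousAt_fderiv (by norm_num)).continuousWithinAt
    rw [hC]
    exact a2.mul (a3.mul ((hTc i hi.le).mono (hD i hi.le).2))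
  -- the reference operator
  obtain ⟨Q, hQ⟩ : ∃ Q : (ℕ → E) → (Fin (N + 1) → E) →L[ℝ] ((Fin N → E) × (Fin s → ℝ) ×
      (Fin w → ℝ)), Q = fun y => OP N (fun i => p (i + 1)) (fun i => C i (y i) * (1 - p i))
        (Bm.comp (T 0 (y 0) * p 0)) (Bp.comp (T N (y N) * (1 - p N))) := ⟨_, rfl⟩
  -- the reference operator is injective
  have hQ0 : ∀ z : ℕ → E, (∀ i ≤ N, z i ∈ D i) → ∀ u : ℕ → E,
      (∀ i < N, p (i + 1) (u (i + 1)) = (C i (z i) * (1 - p i)) (u i)) →
      (Bm.comp (T 0 (z 0) * p 0)) (u 0) = 0 → (Bp.comp (T N (z N) * (1 - p N))) (u N) = 0 →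
      ∀ i ≤ N, u i = 0 := by
    intro z hz u h1 h2 h3
    have e1 : ∀ i < N, p (i + 1) (u (i + 1)) = 0 := by
      intro i hi
      have h4 : p (i + 1) (p (i + 1) (u (i + 1))) = p (i + 1) (C i (z i) ((1 - p i) (u i))) := by
        rw [h1 i hi]; rfl
      rw [hpp (i + 1) hi, hCp i hi (z i) (hz i hi.le), hpq i hi.le, map_zero] at h4
      exact h4
    have e2 : ∀ i < N, (1 - p i) (u i) = 0 := by
      intro i hi
      have h4 : C i (z i) ((1 - p i) (u i)) = 0 := by
        have h5 := h1 i hi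
        rw [e1 i hi] at h5
        exact h5.symm
      exact hCinj i hi (z i) (hz i hi.le) _ h4
    have e3 : p 0 (u 0) = 0 := by
      have h4 : T 0 (z 0) (p 0 (u 0)) = 0 := by
        refine hBm (z 0) (hz 0 (Nat.zero_le _)) _ ?_ h2
        rw [hTp 0 (Nat.zero_le _) _ (hDs 0 (Nat.zero_le _) _ (hz 0 (Nat.zero_le _))),
          hpp 0 (Nat.zero_le _)]
      exact isUnit_inj (hTu 0 (Nat.zero_le _) _ (hDs 0 (Nat.zero_le _) _ (hz 0 (Nat.zero_le _)))) h4
    have e4 : (1 - p N) (u N) = 0 := by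
      have h4 : T N (z N) ((1 - p N) (u N)) = 0 := by
        refine hBp (z N) (hz N le_rfl) _ ?_ h3
        rw [hTp N le_rfl _ (hDs N le_rfl _ (hz N le_rfl)), hpq N le_rfl, map_zero]
      exact isUnit_inj (hTu N le_rfl _ (hDs N le_rfl _ (hz N le_rfl))) h4
    intro i hi
    have e5 : p i (u i) = 0 := by
      rcases Nat.eq_zero_or_pos i with h | h
      · rw [h]; exact e3
      · obtain ⟨j, rfl⟩ := Nat.exists_eq_succ_of_ne_zero h.ne'
        exact e1 j hi
    have e6 : (1 - p i) (u i) = 0 := by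
      rcases Nat.lt_or_ge i N with h | h
      · exact e2 i h
      · have : i = N := le_antisymm hi h
        rw [this]; exact e4
    have e7 : u i = p i (u i) + (1 - p i) (u i) := by
      have h1 : (1 - p i) (u i) = u i - p i (u i) := rfl
      rw [h1]; abel
    rw [e7, e5, e6, add_zero]
  -- (a) the sign at an orbit is that of the reference operator
  have key : ∀ y : ℕ → E, (∀ i ≤ N, y i ∈ D i) → (∀ i < N, y (i + 1) = F i (y i)) →
      0 < dt e (BvpD N (fun i => fderiv ℝ (F i) (y i)) Bm Bp) * dt e (Q y) := by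
    intro y hy hyo
    have hyb : ∀ i ≤ N, y i ∈ closedBall (c i) R := fun i hi => hDs i hi _ (hy i hi)
    -- injectivity at an orbit
    have inj1 : ∀ u : ℕ → E, (∀ i < N, u (i + 1) = fderiv ℝ (F i) (y i) (u i)) →
        Bm (u 0) = 0 → Bp (u N) = 0 → ∀ i ≤ N, u i = 0 := by
      intro u h1 h2 h3 i hi
      have hPPv : ∀ i ≤ N, ∀ v, P i (y i) (P i (y i) v) = P i (y i) v := fun i hi v =>
        congrArg (fun A : E →L[ℝ] E => A v) (hPP i hi _ (hyb i hi))
      have hPF : ∀ i < N, ∀ v, P (i + 1) (y (i + 1)) (fderiv ℝ (F i) (y i) v) =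
          fderiv ℝ (F i) (y i) (P i (y i) v) := by
        intro i hi v
        rw [hyo i hi]
        exact (congrArg (fun A : E →L[ℝ] E => A v) (hF i hi _ (hy i hi.le)).2.2.1).symm
      have h4 := hH y hy hyo 1 (by simp) (fun i => P i (y i) (u i))
        (fun i => u i - P i (y i) (u i)) (fun i hi => hPPv i hi _)
        (fun i hi => by
          show P i (y i) (u i - P i (y i) (u i)) = 0
          rw [map_sub, hPPv i hi, sub_self])
        (fun i hi => by
          show P (i + 1) (y (i + 1)) (u (i + 1)) = (1 : ℝ) • fderiv ℝ (F i) (y i) (P i (y i) (u i))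
          rw [one_smul, h1 i hi, hPF i hi])
        (fun i hi => by
          show fderiv ℝ (F i) (y i) (u i - P i (y i) (u i)) =
            (1 : ℝ) • (u (i + 1) - P (i + 1) (y (i + 1)) (u (i + 1)))
          rw [one_smul, h1 i hi, hPF i hi, map_sub])
        (by
          show Bm (P 0 (y 0) (u 0) + (1 : ℝ) • (u 0 - P 0 (y 0) (u 0))) = 0
          rw [one_smul, add_sub_cancel]
          exact h2)
        (by
          show Bp ((1 : ℝ) • P N (y N) (u N) + (u N - P N (y N) (u N))) = 0
          rw [one_smul, add_sub_cancel]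
          exact h3) i hi
      have h5 : P i (y i) (u i) = 0 := h4.1
      have h6 : u i - P i (y i) (u i) = 0 := h4.2
      rw [h5, sub_zero] at h6
      exact h6
    have segc : ∀ i ≤ N, ∀ τ ∈ Icc (0 : ℝ) 1, c i + τ • (y i - c i) ∈ closedBall (c i) R :=
      fun i hi τ hτ => seg_mem (hyb i hi) hτ
    have segT : ∀ i ≤ N, ContinuousOn (fun τ : ℝ => T i (c i + τ • (y i - c i))) (Icc 0 1) :=
      fun i hi => (hTc i hi).comp (by fun_prop) fun τ hτ => segc i hi τ hτ
    have s0 : ∀ i ≤ N, T i (c i + (0 : ℝ) • (y i - c i)) = 1 := by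
      intro i hi
      rw [zero_smul, add_zero, hT1 i hi]
    have s1 : ∀ i, T i (c i + (1 : ℝ) • (y i - c i)) = T i (y i) := by
      intro i
      rw [one_smul, add_sub_cancel]
    -- first path
    have path1 := path_OP e
      (fun τ i => T (i + 1) (c (i + 1) + τ • (y (i + 1) - c (i + 1))))
      (fun τ i => fderiv ℝ (F i) (y i) * T i (c i + τ • (y i - c i)))
      (fun τ => Bm.comp (T 0 (c 0 + τ • (y 0 - c 0))))
      (fun τ => Bp.comp (T N (c N + τ • (y N - c N))))
      (fun i hi => segT (i + 1) hi)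
      (fun i hi => continuousOn_const.mul (segT i hi.le))
      (continuousOn_const.clm_comp (segT 0 (Nat.zero_le _)))
      (continuousOn_const.clm_comp (segT N le_rfl))
      (by
        intro τ hτ u h1 h2 h3 i hi
        have h4 := inj1 (fun i => T i (c i + τ • (y i - c i)) (u i)) (fun i hi => h1 i hi) h2 h3 i hi
        exact isUnit_inj (hTu i hi _ (segc i hi τ hτ)) h4)
    -- second path
    have path2 := path_OP e
      (fun τ i => T (i + 1) (c (i + 1) + τ • (y (i + 1) - c (i + 1))))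
      (fun τ i => T (i + 1) (c (i + 1) + τ • (y (i + 1) - c (i + 1))) * C i (y i))
      (fun _ => Bm.comp (T 0 (y 0)))
      (fun _ => Bp.comp (T N (y N)))
      (fun i hi => segT (i + 1) hi)
      (fun i hi => (segT (i + 1) hi).mul continuousOn_const)
      continuousOn_const continuousOn_const
      (by
        intro τ hτ u h1 h2 h3 i hi
        have h0 : ∀ i < N, u (i + 1) = C i (y i) (u i) := by
          intro i hi
          have h5 : T (i + 1) (c (i + 1) + τ • (y (i + 1) - c (i + 1)))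
              (u (i + 1) - C i (y i) (u i)) = 0 := by
            rw [map_sub, sub_eq_zero]
            exact h1 i hi
          exact sub_eq_zero.1 (isUnit_inj (hTu (i + 1) hi _ (segc (i + 1) hi τ hτ)) h5)
        have h4 := inj1 (fun i => T i (y i) (u i)) (fun i hi => by
          show T (i + 1) (y (i + 1)) (u (i + 1)) = fderiv ℝ (F i) (y i) (T i (y i) (u i))
          rw [h0 i hi, hyo i hi, hTC i hi _ (hy i hi.le)]) h2 h3 i hi
        exact isUnit_inj (hTu i hi _ (hyb i hi)) h4)
    -- third path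
    have path3 := path_OP e
      (fun t i => p (i + 1) + t • (1 - p (i + 1)))
      (fun t i => t • (C i (y i) * p i) + C i (y i) * (1 - p i))
      (fun t => Bm.comp (T 0 (y 0) * (p 0 + t • (1 - p 0))))
      (fun t => Bp.comp (T N (y N) * (t • p N + (1 - p N))))
      (fun i _ => lin1 (p (i + 1)) (1 - p (i + 1)) _)
      (fun i _ => lin2 (C i (y i) * p i) (C i (y i) * (1 - p i)) _)
      (continuousOn_const.clm_comp (mul_path (T 0 (y 0)) (lin1 (p 0) (1 - p 0) _)))
      (continuousOn_const.clm_comp (mul_path (T N (y N)) (lin2 (p N) (1 - p N) _)))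
      (by
        intro t ht u h1 h2 h3 i hi
        have e0 : ∀ i < N, p (i + 1) (u (i + 1)) + t • (1 - p (i + 1)) (u (i + 1)) =
          t • C i (y i) (p i (u i)) + C i (y i) ((1 - p i) (u i)) := fun i hi => h1 i hi
        have e1 : ∀ i < N, p (i + 1) (u (i + 1)) = t • C i (y i) (p i (u i)) := by
          intro i hi
          have h4 := congrArg (p (i + 1)) (e0 i hi)
          rw [map_add, map_add, map_smul, map_smul, hpp (i + 1) hi, hpq (i + 1) hi,
            hCp i hi _ (hy i hi.le), hCp i hi _ (hy i hi.le), hpp i hi.le, hpq i hi.le, map_zero,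
            smul_zero, add_zero, add_zero] at h4
          exact h4
        have e2 : ∀ i < N, C i (y i) ((1 - p i) (u i)) = t • (1 - p (i + 1)) (u (i + 1)) := by
          intro i hi
          have h4 := e0 i hi
          rw [e1 i hi] at h4
          exact (add_left_cancel h4).symm
        have h4 := hH y hy hyo t ht (fun i => T i (y i) (p i (u i)))
          (fun i => T i (y i) ((1 - p i) (u i)))
          (fun i hi => by
            show P i (y i) (T i (y i) (p i (u i))) = T i (y i) (p i (u i))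
            rw [hTp i hi _ (hyb i hi), hpp i hi])
          (fun i hi => by
            show P i (y i) (T i (y i) ((1 - p i) (u i))) = 0
            rw [hTp i hi _ (hyb i hi), hpq i hi, map_zero])
          (fun i hi => by
            show T (i + 1) (y (i + 1)) (p (i + 1) (u (i + 1))) =
              t • fderiv ℝ (F i) (y i) (T i (y i) (p i (u i)))
            rw [e1 i hi, map_smul, hyo i hi, hTC i hi _ (hy i hi.le)])
          (fun i hi => by
            show fderiv ℝ (F i) (y i) (T i (y i) ((1 - p i) (u i))) =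
              t • T (i + 1) (y (i + 1)) ((1 - p (i + 1)) (u (i + 1)))
            rw [← hTC i hi _ (hy i hi.le), e2 i hi, map_smul, hyo i hi])
          (by
            show Bm (T 0 (y 0) (p 0 (u 0)) + t • T 0 (y 0) ((1 - p 0) (u 0))) = 0
            rw [← map_smul, ← map_add]
            exact h2)
          (by
            show Bp (t • T N (y N) (p N (u N)) + T N (y N) ((1 - p N) (u N))) = 0
            rw [← map_smul, ← map_add]
            exact h3) i hi
        have z1 := isUnit_inj (hTu i hi _ (hyb i hi)) h4.1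
        have z2 := isUnit_inj (hTu i hi _ (hyb i hi)) h4.2
        have z3 : u i = p i (u i) + (1 - p i) (u i) := by
          show u i = p i (u i) + (u i - p i (u i))
          abel
        rw [z3, z1, z2, add_zero])
    -- identification of the end points
    have r1 : OP N (fun i => T (i + 1) (c (i + 1) + (0 : ℝ) • (y (i + 1) - c (i + 1))))
        (fun i => fderiv ℝ (F i) (y i) * T i (c i + (0 : ℝ) • (y i - c i)))
        (Bm.comp (T 0 (c 0 + (0 : ℝ) • (y 0 - c 0))))
        (Bp.comp (T N (c N + (0 : ℝ) • (y N - c N)))) =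
        BvpD N (fun i => fderiv ℝ (F i) (y i)) Bm Bp := by
      rw [BvpD_eq]
      refine OP_congr (fun i hi => s0 (i + 1) hi) (fun i hi => by rw [s0 i hi.le, mul_one]) ?_ ?_
      · rw [s0 0 (Nat.zero_le _)]
        exact ContinuousLinearMap.ext fun _ => rfl
      · rw [s0 N le_rfl]
        exact ContinuousLinearMap.ext fun _ => rfl
    have r2 : OP N (fun i => T (i + 1) (c (i + 1) + (1 : ℝ) • (y (i + 1) - c (i + 1))))
        (fun i => fderiv ℝ (F i) (y i) * T i (c i + (1 : ℝ) • (y i - c i)))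
        (Bm.comp (T 0 (c 0 + (1 : ℝ) • (y 0 - c 0))))
        (Bp.comp (T N (c N + (1 : ℝ) • (y N - c N)))) =
        OP N (fun i => T (i + 1) (c (i + 1) + (1 : ℝ) • (y (i + 1) - c (i + 1))))
        (fun i => T (i + 1) (c (i + 1) + (1 : ℝ) • (y (i + 1) - c (i + 1))) * C i (y i))
        (Bm.comp (T 0 (y 0))) (Bp.comp (T N (y N))) := by
      refine OP_congr (fun i hi => rfl) (fun i hi => ?_) (by rw [s1]) (by rw [s1])
      rw [s1, s1]
      refine ContinuousLinearMap.ext fun v => ?_
      show fderiv ℝ (F i) (y i) (T i (y i) v) = T (i + 1) (y (i + 1)) (C i (y i) v)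
      rw [hyo i hi, hTC i hi _ (hy i hi.le)]
    have r3 : OP N (fun i => T (i + 1) (c (i + 1) + (0 : ℝ) • (y (i + 1) - c (i + 1))))
        (fun i => T (i + 1) (c (i + 1) + (0 : ℝ) • (y (i + 1) - c (i + 1))) * C i (y i))
        (Bm.comp (T 0 (y 0))) (Bp.comp (T N (y N))) =
        OP N (fun i => p (i + 1) + (1 : ℝ) • (1 - p (i + 1)))
        (fun i => (1 : ℝ) • (C i (y i) * p i) + C i (y i) * (1 - p i))
        (Bm.comp (T 0 (y 0) * (p 0 + (1 : ℝ) • (1 - p 0))))
        (Bp.comp (T N (y N) * ((1 : ℝ) • p N + (1 - p N)))) := by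
      refine OP_congr (fun i hi => ?_) (fun i hi => ?_) ?_ ?_
      · rw [s0 (i + 1) hi, one_smul]; abel
      · rw [s0 (i + 1) hi, one_smul]; noncomm_ring
      · rw [one_smul, add_sub_cancel, mul_one]
      · rw [one_smul, add_sub_cancel, mul_one]
    have r4 : OP N (fun i => p (i + 1) + (0 : ℝ) • (1 - p (i + 1)))
        (fun i => (0 : ℝ) • (C i (y i) * p i) + C i (y i) * (1 - p i))
        (Bm.comp (T 0 (y 0) * (p 0 + (0 : ℝ) • (1 - p 0))))
        (Bp.comp (T N (y N) * ((0 : ℝ) • p N + (1 - p N)))) = Q y := by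
      rw [hQ]
      refine OP_congr (fun i hi => ?_) (fun i hi => ?_) ?_ ?_
      · rw [zero_smul, add_zero]
      · rw [zero_smul, zero_add]
      · rw [zero_smul, add_zero]
      · rw [zero_smul, zero_add]
    rw [r1, r2] at path1
    rw [r3] at path2
    rw [r4] at path3
    exact ss_trans path1 (ss_trans (ss_symm path2) (ss_symm path3))
  -- (b) the reference operator along the segment
  have hz : ∀ τ ∈ Icc (0 : ℝ) 1, ∀ i ≤ N, y i + τ • (y' i - y i) ∈ D i := fun τ hτ i hi =>
    (hD i hi).1.add_smul_sub_mem (hy i hi) (hy' i hi) hτ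
  have path4 := path_OP e
    (fun _ i => p (i + 1))
    (fun τ i => C i (y i + τ • (y' i - y i)) * (1 - p i))
    (fun τ => Bm.comp (T 0 (y 0 + τ • (y' 0 - y 0)) * p 0))
    (fun τ => Bp.comp (T N (y N + τ • (y' N - y N)) * (1 - p N)))
    (fun i _ => continuousOn_const)
    (fun i hi => ((hCc i hi).comp (f := fun τ : ℝ => y i + τ • (y' i - y i))
      (by fun_prop) (fun τ hτ => hz τ hτ i hi.le)).mul continuousOn_const)
    (continuousOn_const.clm_comp (((hTc 0 (Nat.zero_le _)).comp
      (f := fun τ : ℝ => y 0 + τ • (y' 0 - y 0)) (by fun_prop)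
      (fun τ hτ => hDs 0 (Nat.zero_le _) _ (hz τ hτ 0 (Nat.zero_le _)))).mul continuousOn_const))
    (continuousOn_const.clm_comp (((hTc N le_rfl).comp
      (f := fun τ : ℝ => y N + τ • (y' N - y N)) (by fun_prop)
      (fun τ hτ => hDs N le_rfl _ (hz τ hτ N le_rfl))).mul continuousOn_const))
    (by
      intro τ hτ u h1 h2 h3
      exact hQ0 (fun i => y i + τ • (y' i - y i)) (hz τ hτ) u h1 h2 h3)
  have r5 : OP N (fun i => p (i + 1)) (fun i => C i (y i + (0 : ℝ) • (y' i - y i)) * (1 - p i))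
      (Bm.comp (T 0 (y 0 + (0 : ℝ) • (y' 0 - y 0)) * p 0))
      (Bp.comp (T N (y N + (0 : ℝ) • (y' N - y N)) * (1 - p N))) = Q y := by
    rw [hQ]
    simp only [zero_smul, add_zero]
  have r6 : OP N (fun i => p (i + 1)) (fun i => C i (y i + (1 : ℝ) • (y' i - y i)) * (1 - p i))
      (Bm.comp (T 0 (y 0 + (1 : ℝ) • (y' 0 - y 0)) * p 0))
      (Bp.comp (T N (y N + (1 : ℝ) • (y' N - y N)) * (1 - p N))) = Q y' := by
    rw [hQ]
    simp only [one_smul, add_sub_cancel]
  rw [r5, r6] at path4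
  exact ss_trans (key y hy hyo) (ss_trans path4 (ss_symm (key y' hy' hyo')))

end Pool.Agent.H963.CJ
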