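import Pool.Agent.H963.CJ.DegDef

set_option autoImplicit false

universe u

namespace Pool.Agent.H963.CJ

theorem t_A0 : S_A0.{u} := by
  intro X Y _ _ _ _ _ _ Φ Ω h
  by_contra hne
  apply h
  unfold adeg
  rw [dif_neg]
  rintro ⟨d, e, _⟩
  exact hne e.toLinearEquiv.finrank_eq

end Pool.Agent.H963.CJ
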