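import Pool.Agent.H963.CJ.DegDef

/-! # CJ-A1: homotopy invariance of the absolute degree (helper746) -/

set_option autoImplicit false

open MeasureTheory Set Filter Topology Metric
open scoped ContDiff

namespace Pool.Agent.H963.CJ

universe u

namespace DA1

/-- one step -/
theorem step (hC : S_CNTHOM.{u}) (hD : S_DEG.{u}) {X Y : Type u} [NormedAddCommGroup X]
    [NormedSpace ℝ X] [FiniteDimensional ℝ X] [NormedAddCommGroup Y] [NormedSpace ℝ Y]
    [FiniteDimensional ℝ Y] (e : X ≃L[ℝ] Y) {Φ Φ' : X → Y} {Ω : Set X} (h : Adm Φ Ω)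
    (h' : Adm Φ' Ω) {m : ℝ} (hm : 0 < m) (hlow : ∀ x ∈ frontier Ω, m ≤ ‖Φ x‖)
    (hclose : ∀ x ∈ closure Ω, ‖Φ x - Φ' x‖ < m / 4) : adeg Φ Ω = adeg Φ' Ω := by
  obtain ⟨⟨ε, hε, hcnt⟩, hex⟩ := hD X Y Φ Ω h e
  obtain ⟨⟨ε', hε', hcnt'⟩, hex'⟩ := hD X Y Φ' Ω h' e
  obtain ⟨Ψ, hΨ, hΨc⟩ := hex (min ε (m / 8)) (lt_min hε (by linarith))
  obtain ⟨Ψ', hΨ', hΨ'c⟩ := hex' (min ε' (m / 8)) (lt_min hε' (by linarith))
  have e1 := hcnt Ψ hΨ fun x hx => (hΨc x hx).trans_le (min_le_left _ _)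
  have e2 := hcnt' Ψ' hΨ' fun x hx => (hΨ'c x hx).trans_le (min_le_left _ _)
  rw [← e1, ← e2]
  congr 1
  refine hC X Ψ Ψ' Ω h.op h.bd hΨ hΨ' fun x hx t ht h0 => ?_
  have hxc : x ∈ closure Ω := frontier_subset_closure hx
  have a1 : ‖e (Ψ x) - Φ x‖ < m / 8 := (hΨc x hxc).trans_le (min_le_right _ _)
  have a2 : ‖e (Ψ' x) - Φ' x‖ < m / 8 := (hΨ'c x hxc).trans_le (min_le_right _ _)
  have a3 := hclose x hxc
  have a4 := hlow x hx
  have h1 : e (Ψ x) + t • (e (Ψ' x) - e (Ψ x)) = 0 := by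
    rw [← map_sub, ← map_smul, ← map_add, h0, map_zero]
  have h2 : Φ x = -((1 - t) • (e (Ψ x) - Φ x) + t • ((e (Ψ' x) - Φ' x) - (Φ x - Φ' x))) := by
    have h3 : (1 - t) • (e (Ψ x) - Φ x) + t • ((e (Ψ' x) - Φ' x) - (Φ x - Φ' x)) =
        (e (Ψ x) + t • (e (Ψ' x) - e (Ψ x))) - Φ x := by
      module
    rw [h3, h1]
    abel
  have h4 : ‖Φ x‖ ≤ (1 - t) * (m / 8) + t * (m / 8 + m / 4) := by
    rw [h2, norm_neg]
    refine (norm_add_le _ _).trans (add_le_add ?_ ?_)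
    · rw [norm_smul, Real.norm_eq_abs, abs_of_nonneg (by linarith [ht.2])]
      exact mul_le_mul_of_nonneg_left a1.le (by linarith [ht.2])
    · rw [norm_smul, Real.norm_eq_abs, abs_of_nonneg ht.1]
      exact mul_le_mul_of_nonneg_left ((norm_sub_le _ _).trans (by linarith)) ht.1
  nlinarith [ht.1, ht.2]

end DA1

theorem t_A1 (hC : S_CNTHOM.{u}) (hD : S_DEG.{u}) : S_A1.{u} := by
  intro X Y _ _ _ _ _ _ H Ω hop hbd hcont hnz
  by_cases he : Nonempty (X ≃L[ℝ] Y)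
  · obtain ⟨e⟩ := he
    have : ProperSpace X := FiniteDimensional.proper ℝ X
    have hK : IsCompact (closure Ω) := hbd.isCompact_closure
    have hS : IsCompact (Icc (0 : ℝ) 1 ×ˢ closure Ω) := isCompact_Icc.prod hK
    have hF : IsCompact (Icc (0 : ℝ) 1 ×ˢ frontier Ω) :=
      isCompact_Icc.prod (hK.of_isClosed_subset isClosed_frontier frontier_subset_closure)
    have hFS : Icc (0 : ℝ) 1 ×ˢ frontier Ω ⊆ Icc (0 : ℝ) 1 ×ˢ closure Ω :=
      prod_mono subset_rfl frontier_subset_closure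
    obtain ⟨m, hm, hlow⟩ : ∃ m > (0 : ℝ), ∀ t ∈ Icc (0 : ℝ) 1, ∀ x ∈ frontier Ω, m ≤ ‖H t x‖ := by
      rcases (Icc (0 : ℝ) 1 ×ˢ frontier Ω).eq_empty_or_nonempty with h0 | h0
      · refine ⟨1, one_pos, fun t ht x hx => ?_⟩
        exact absurd (show ((t, x) : ℝ × X) ∈ (Icc (0 : ℝ) 1 ×ˢ frontier Ω) from ⟨ht, hx⟩)
          (by rw [h0]; exact notMem_empty _)
      · obtain ⟨p, hp, hmin⟩ := hF.exists_isMinOn h0 (hcont.mono hFS).norm
        refine ⟨‖H p.1 p.2‖, norm_pos_iff.2 (hnz p.1 hp.1 p.2 hp.2), fun t ht x hx => ?_⟩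
        exact hmin (show ((t, x) : ℝ × X) ∈ (Icc (0 : ℝ) 1 ×ˢ frontier Ω) from ⟨ht, hx⟩)
    have hadm : ∀ t ∈ Icc (0 : ℝ) 1, Adm (H t) Ω := by
      intro t ht
      refine ⟨hop, hbd, ?_, hnz t ht⟩
      have h1 : ContinuousOn (fun x : X => ((t, x) : ℝ × X)) (closure Ω) := by fun_prop
      exact hcont.comp h1 fun x hx => ⟨ht, hx⟩
    have huc := hS.uniformContinuousOn_of_continuous hcont
    obtain ⟨δ, hδ, hδ'⟩ := Metric.uniformContinuousOn_iff.1 huc (m / 4) (by linarith)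
    have hstep : ∀ t ∈ Icc (0 : ℝ) 1, ∀ t' ∈ Icc (0 : ℝ) 1, |t - t'| < δ →
        adeg (H t) Ω = adeg (H t') Ω := by
      intro t ht t' ht' htt
      refine DA1.step hC hD e (hadm t ht) (hadm t' ht') hm (hlow t ht) fun x hx => ?_
      have h1 := hδ' (t, x) ⟨ht, hx⟩ (t', x) ⟨ht', hx⟩ (by
        rw [Prod.dist_eq, dist_self, Real.dist_eq]
        exact max_lt htt hδ)
      rwa [dist_eq_norm] at h1
    obtain ⟨n, hn⟩ := exists_nat_one_div_lt hδ
    have hn0 : (0 : ℝ) < n + 1 := by positivity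
    have hind : ∀ k : ℕ, k ≤ n + 1 → adeg (H 0) Ω = adeg (H ((k : ℝ) / (n + 1))) Ω := by
      intro k
      induction k with
      | zero =>
        intro _
        rw [Nat.cast_zero, zero_div]
      | succ k ih =>
        intro hk
        rw [ih (by omega)]
        have hk' : ((k : ℝ)) + 1 ≤ n + 1 := by exact_mod_cast hk
        have hk0 : (0 : ℝ) ≤ k := Nat.cast_nonneg k
        refine hstep _ ⟨by positivity, ?_⟩ _ ⟨by positivity, ?_⟩ ?_
        · rw [div_le_one hn0]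
          linarith
        · rw [div_le_one hn0]
          push_cast
          exact hk'
        · have e1 : (k : ℝ) / (n + 1) - ((k + 1 : ℕ) : ℝ) / (n + 1) = -(1 / (n + 1)) := by
            push_cast
            field_simp
            ring
          rw [e1, abs_neg, abs_of_pos (by positivity)]
          exact hn
    have h1 := hind (n + 1) le_rfl
    rw [h1]
    congr 2
    push_cast
    rw [div_self hn0.ne']
  · have h0 : ∀ Φ : X → Y, adeg Φ Ω = 0 := by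
      intro Φ
      unfold adeg
      rw [dif_neg]
      rintro ⟨d, e, _⟩
      exact he ⟨e⟩
    rw [h0, h0]

end Pool.Agent.H963.CJ
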