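import Pool.Agent.H963.CJ.DegDef

/-!
# Excision for the absolute degree
-/

set_option autoImplicit false
set_option linter.unusedSectionVars false

open MeasureTheory Set Filter Topology Metric
open scoped ContDiff

namespace Pool.Agent.H963.CJ

universe u

namespace DA2

theorem adeg_of_ne {X : Type u} [NormedAddCommGroup X] [NormedSpace ℝ X]
    {Y : Type u} [NormedAddCommGroup Y] [NormedSpace ℝ Y]
    (h : Module.finrank ℝ X ≠ Module.finrank ℝ Y) (Φ : X → Y) (Ω : Set X) : adeg Φ Ω = 0 := by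
  unfold adeg
  refine dif_neg ?_
  rintro ⟨d, e, -⟩
  exact h e.toLinearEquiv.finrank_eq

theorem exists_lower {X : Type u} [NormedAddCommGroup X] {Y : Type u} [NormedAddCommGroup Y]
    {K : Set X} (hK : IsCompact K) {Φ : X → Y} (hΦ : ContinuousOn Φ K) (h : ∀ x ∈ K, Φ x ≠ 0) :
    ∃ m : ℝ, 0 < m ∧ ∀ x ∈ K, m ≤ ‖Φ x‖ := by
  rcases K.eq_empty_or_nonempty with rfl | hne
  · exact ⟨1, one_pos, fun x hx => absurd hx (notMem_empty x)⟩
  · obtain ⟨x, hx, hmin⟩ := hK.exists_isMinOn hne hΦ.norm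
    exact ⟨‖Φ x‖, norm_pos_iff.mpr (h x hx), fun y hy => isMinOn_iff.1 hmin y hy⟩

end DA2

theorem t_A2 (_hC : S_CNTHOM.{u}) (hD : S_DEG.{u}) : S_A2.{u} := by
  intro X Y _ _ _ _ _ _ Φ Ω Ω' hΩ hb hΦ hΩ' hsub hz
  by_cases hdim : Module.finrank ℝ X = Module.finrank ℝ Y
  swap
  · rw [DA2.adeg_of_ne hdim, DA2.adeg_of_ne hdim]
  have hcl : closure Ω' ⊆ closure Ω := closure_mono hsub
  let e : X ≃L[ℝ] Y := ContinuousLinearEquiv.ofFinrankEq hdim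
  have hA : Adm Φ Ω := by
    refine ⟨hΩ, hb, hΦ, fun x hx h0 => ?_⟩
    have h1 : x ∈ Ω := hsub (hz x (frontier_subset_closure hx) h0)
    exact (hΩ.inter_frontier_eq ▸ (⟨h1, hx⟩ : x ∈ Ω ∩ frontier Ω) : x ∈ (∅ : Set X))
  have hA' : Adm Φ Ω' := by
    refine ⟨hΩ', hb.subset hsub, hΦ.mono hcl, fun x hx h0 => ?_⟩
    have h1 : x ∈ Ω' := hz x (hcl (frontier_subset_closure hx)) h0
    exact (hΩ'.inter_frontier_eq ▸ (⟨h1, hx⟩ : x ∈ Ω' ∩ frontier Ω') : x ∈ (∅ : Set X))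
  have hproper : ProperSpace X := FiniteDimensional.proper ℝ X
  have hK : IsCompact (closure Ω \ Ω') := by
    refine Metric.isCompact_of_isClosed_isBounded (isClosed_closure.sdiff hΩ') ?_
    exact hb.closure.subset sdiff_subset
  obtain ⟨m, hm, hmK⟩ := DA2.exists_lower hK (hΦ.mono sdiff_subset)
    (fun x hx h0 => hx.2 (hz x hx.1 h0))
  obtain ⟨⟨ε₁, hε₁, h1⟩, h3⟩ := hD X Y Φ Ω hA e
  obtain ⟨⟨ε₂, hε₂, h2⟩, -⟩ := hD X Y Φ Ω' hA' e
  obtain ⟨Ψ, hR, hΨ⟩ := h3 (min m (min ε₁ ε₂)) (lt_min hm (lt_min hε₁ hε₂))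
  have hR' : Reg Ψ Ω' := ⟨hR.smooth, fun x hx => hR.nd x (hcl hx)⟩
  have e1 := h1 Ψ hR (fun x hx => (hΨ x hx).trans_le ((min_le_right _ _).trans (min_le_left _ _)))
  have e2 := h2 Ψ hR' (fun x hx =>
    (hΨ x (hcl hx)).trans_le ((min_le_right _ _).trans (min_le_right _ _)))
  have e3 : {x | x ∈ Ω ∧ Ψ x = 0} = {x | x ∈ Ω' ∧ Ψ x = 0} := by
    ext x
    constructor
    · rintro ⟨hx, h0⟩
      refine ⟨?_, h0⟩
      by_contra hx'
      have h4 := hmK x ⟨subset_closure hx, hx'⟩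
      have h5 := hΨ x (subset_closure hx)
      rw [h0, map_zero, zero_sub, norm_neg] at h5
      exact absurd (h5.trans_le (min_le_left _ _)) (not_lt.2 h4)
    · rintro ⟨hx, h0⟩
      exact ⟨hsub hx, h0⟩
  rw [← e1, ← e2]
  unfold cnt
  rw [e3]

end Pool.Agent.H963.CJ
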