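import Pool.Agent.H963.CJ.DegDef

/-!
# The product formula for the absolute degree
-/

set_option autoImplicit false
set_option linter.unusedSectionVars false

open MeasureTheory Set Filter Topology Metric
open scoped ContDiff

namespace Pool.Agent.H963.CJ

universe u

namespace DA3

section

variable {X : Type u} [NormedAddCommGroup X] [NormedSpace ℝ X] [FiniteDimensional ℝ X]
  {Y : Type u} [NormedAddCommGroup Y] [NormedSpace ℝ Y] [FiniteDimensional ℝ Y]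

lemma adeg_ne_dim (Φ : X → Y) (Ω : Set X) (h : Module.finrank ℝ X ≠ Module.finrank ℝ Y) :
    adeg Φ Ω = 0 := by
  unfold adeg
  rw [dif_neg]
  rintro ⟨d, e, _⟩
  exact h e.toLinearEquiv.finrank_eq

/-- equivalences exist when the dimensions are equal -/
lemma exists_equiv (h : Module.finrank ℝ X = Module.finrank ℝ Y) : Nonempty (X ≃L[ℝ] Y) :=
  ⟨ContinuousLinearEquiv.ofFinrankEq h⟩

/-- lower bound on a compact set without zeros -/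
lemma exists_lower {Φ : X → Y} {K : Set X} (hK : IsCompact K) (hc : ContinuousOn Φ K)
    (h0 : ∀ x ∈ K, Φ x ≠ 0) : ∃ m > (0 : ℝ), ∀ x ∈ K, m ≤ ‖Φ x‖ := by
  rcases K.eq_empty_or_nonempty with rfl | hne
  · exact ⟨1, one_pos, fun x hx => absurd hx (notMem_empty x)⟩
  · obtain ⟨x₀, hx₀, hmin⟩ := hK.exists_isMinOn hne hc.norm
    exact ⟨‖Φ x₀‖, norm_pos_iff.2 (h0 x₀ hx₀), fun x hx => hmin hx⟩

lemma compact_closure {Ω : Set X} (hb : Bornology.IsBounded Ω) : IsCompact (closure Ω) :=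
  isCompact_of_isClosed_isBounded isClosed_closure hb.closure

lemma cnt_no_zero {Ψ : X → X} {Ω : Set X} (h : ∀ x ∈ Ω, Ψ x ≠ 0) : cnt Ψ Ω = 0 := by
  unfold cnt
  have : {x | x ∈ Ω ∧ Ψ x = 0} = ∅ := by
    ext x
    simp only [mem_setOf_eq, mem_empty_iff_false, iff_false, not_and]
    exact h x
  rw [this, finsum_mem_empty]

/-- a map without zeros on the closure has degree zero -/
lemma adeg_no_zero (hD : S_DEG.{u}) {Φ : X → Y} {Ω : Set X} (hop : IsOpen Ω)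
    (hb : Bornology.IsBounded Ω) (hc : ContinuousOn Φ (closure Ω))
    (h0 : ∀ x ∈ closure Ω, Φ x ≠ 0) : adeg Φ Ω = 0 := by
  by_cases hdim : Module.finrank ℝ X = Module.finrank ℝ Y
  · obtain ⟨e⟩ := exists_equiv hdim
    obtain ⟨⟨ε, hε, h1⟩, h2⟩ := hD X Y Φ Ω ⟨hop, hb, hc, fun x hx =>
      h0 x (frontier_subset_closure hx)⟩ e
    obtain ⟨m, hm, hlow⟩ := exists_lower (compact_closure hb) hc h0
    obtain ⟨Ψ, hΨ, hclose⟩ := h2 (min ε m) (lt_min hε hm)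
    rw [← h1 Ψ hΨ fun x hx => lt_of_lt_of_le (hclose x hx) (min_le_left _ _)]
    rw [cnt_no_zero]
    · rfl
    · intro x hx hz
      have h3 := lt_of_lt_of_le (hclose x (subset_closure hx)) (min_le_right _ _)
      rw [hz, map_zero, zero_sub, norm_neg] at h3
      exact absurd (hlow x (subset_closure hx)) (not_le.2 h3)
  · exact adeg_ne_dim Φ Ω hdim

end

section prod

variable {X₁ : Type u} [NormedAddCommGroup X₁] [NormedSpace ℝ X₁] [FiniteDimensional ℝ X₁]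
  {Y₁ : Type u} [NormedAddCommGroup Y₁] [NormedSpace ℝ Y₁] [FiniteDimensional ℝ Y₁]
  {X₂ : Type u} [NormedAddCommGroup X₂] [NormedSpace ℝ X₂] [FiniteDimensional ℝ X₂]
  {Y₂ : Type u} [NormedAddCommGroup Y₂] [NormedSpace ℝ Y₂] [FiniteDimensional ℝ Y₂]

/-- the product map -/
def pm (Φ₁ : X₁ → Y₁) (Φ₂ : X₂ → Y₂) : X₁ × X₂ → Y₁ × Y₂ := fun p => (Φ₁ p.1, Φ₂ p.2)

lemma pm_cont {Φ₁ : X₁ → Y₁} {Φ₂ : X₂ → Y₂} {Ω₁ : Set X₁} {Ω₂ : Set X₂}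
    (h1 : ContinuousOn Φ₁ (closure Ω₁)) (h2 : ContinuousOn Φ₂ (closure Ω₂)) :
    ContinuousOn (pm Φ₁ Φ₂) (closure (Ω₁ ×ˢ Ω₂)) := by
  rw [closure_prod_eq]
  exact (h1.comp continuousOn_fst fun p hp => hp.1).prodMk
    (h2.comp continuousOn_snd fun p hp => hp.2)

/-- the case of dimensions which do not match -/
lemma mismatch (hA : S_APX.{u}) (hD : S_DEG.{u}) {Φ₁ : X₁ → Y₁} {Φ₂ : X₂ → Y₂} {Ω₁ : Set X₁}
    {Ω₂ : Set X₂} (had : Adm (pm Φ₁ Φ₂) (Ω₁ ×ˢ Ω₂)) (hb1 : Bornology.IsBounded Ω₁)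
    (hb2 : Bornology.IsBounded Ω₂)
    (h1 : ContinuousOn Φ₁ (closure Ω₁)) (h2 : ContinuousOn Φ₂ (closure Ω₂))
    (hdim : Module.finrank ℝ X₁ < Module.finrank ℝ Y₁ ∨
      Module.finrank ℝ X₂ < Module.finrank ℝ Y₂) :
    adeg (pm Φ₁ Φ₂) (Ω₁ ×ˢ Ω₂) = 0 := by
  by_cases htot : Module.finrank ℝ (X₁ × X₂) = Module.finrank ℝ (Y₁ × Y₂)
  · obtain ⟨e⟩ := exists_equiv htot
    obtain ⟨⟨ε, hε, h3⟩, -⟩ := hD (X₁ × X₂) (Y₁ × Y₂) _ _ had e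
    obtain ⟨Ψ₁, hΨ₁, hc1⟩ := hA X₁ Y₁ (closure Ω₁) Φ₁ (compact_closure hb1) h1 (ε / 2)
      (half_pos hε)
    obtain ⟨Ψ₂, hΨ₂, hc2⟩ := hA X₂ Y₂ (closure Ω₂) Φ₂ (compact_closure hb2) h2 (ε / 2)
      (half_pos hε)
    obtain ⟨y₁, y₂, hy₁, hy₂, hno⟩ : ∃ (y₁ : Y₁) (y₂ : Y₂), ‖y₁‖ < ε / 2 ∧ ‖y₂‖ < ε / 2 ∧
        ((∀ x, Ψ₁ x ≠ y₁) ∨ ∀ x, Ψ₂ x ≠ y₂) := by
      rcases hdim with h | h
      · have hd := hΨ₁.dense_compl_range_of_finrank_lt_finrank h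
        obtain ⟨y, hy, hyr⟩ := hd.exists_dist_lt (0 : Y₁) (half_pos hε)
        refine ⟨y, 0, ?_, by simpa using half_pos hε, Or.inl fun x hx => hy ⟨x, hx⟩⟩
        rwa [dist_zero_left] at hyr
      · have hd := hΨ₂.dense_compl_range_of_finrank_lt_finrank h
        obtain ⟨y, hy, hyr⟩ := hd.exists_dist_lt (0 : Y₂) (half_pos hε)
        refine ⟨0, y, by simpa using half_pos hε, ?_, Or.inr fun x hx => hy ⟨x, hx⟩⟩
        rwa [dist_zero_left] at hyr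
    set Ψ : X₁ × X₂ → X₁ × X₂ := fun p => e.symm (Ψ₁ p.1 - y₁, Ψ₂ p.2 - y₂) with hΨ
    have hnz : ∀ p, Ψ p ≠ 0 := by
      intro p hp
      have h4 : (Ψ₁ p.1 - y₁, Ψ₂ p.2 - y₂) = (0 : Y₁ × Y₂) := by
        have := congrArg e hp
        simpa [hΨ] using this
      rw [Prod.mk_eq_zero] at h4
      rcases hno with h | h
      · exact h _ (sub_eq_zero.1 h4.1)
      · exact h _ (sub_eq_zero.1 h4.2)
    have hreg : Reg Ψ (Ω₁ ×ˢ Ω₂) := by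
      refine ⟨?_, fun p _ hp => absurd hp (hnz p)⟩
      refine e.symm.contDiff.comp ?_
      exact ((hΨ₁.comp contDiff_fst).sub contDiff_const).prodMk
        ((hΨ₂.comp contDiff_snd).sub contDiff_const)
    rw [← h3 Ψ hreg, cnt_no_zero fun p _ => hnz p]
    · rfl
    · intro p hp
      rw [closure_prod_eq] at hp
      have h5 : e (Ψ p) - pm Φ₁ Φ₂ p = ((Ψ₁ p.1 - Φ₁ p.1) - y₁, (Ψ₂ p.2 - Φ₂ p.2) - y₂) := by
        simp only [hΨ, ContinuousLinearEquiv.apply_symm_apply, pm, Prod.mk_sub_mk]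
        congr 1 <;> abel
      rw [h5, Prod.norm_mk]
      have h6 := hc1 p.1 hp.1
      have h7 := hc2 p.2 hp.2
      have h8 := norm_sub_le (Ψ₁ p.1 - Φ₁ p.1) y₁
      have h9 := norm_sub_le (Ψ₂ p.2 - Φ₂ p.2) y₂
      exact max_lt (by linarith) (by linarith)
  · exact adeg_ne_dim _ _ htot

/-- the signed number of the zeros of a product -/
lemma cnt_prod {Ψ₁ : X₁ → X₁} {Ψ₂ : X₂ → X₂} {Ω₁ : Set X₁} {Ω₂ : Set X₂}
    (hd1 : ContDiff ℝ 1 Ψ₁) (hd2 : ContDiff ℝ 1 Ψ₂) (hf1 : {x | x ∈ Ω₁ ∧ Ψ₁ x = 0}.Finite)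
    (hf2 : {x | x ∈ Ω₂ ∧ Ψ₂ x = 0}.Finite) :
    cnt (pm Ψ₁ Ψ₂) (Ω₁ ×ˢ Ω₂) = cnt Ψ₁ Ω₁ * cnt Ψ₂ Ω₂ := by
  classical
  unfold cnt
  have hset : {p : X₁ × X₂ | p ∈ Ω₁ ×ˢ Ω₂ ∧ pm Ψ₁ Ψ₂ p = 0} =
      {x | x ∈ Ω₁ ∧ Ψ₁ x = 0} ×ˢ {x | x ∈ Ω₂ ∧ Ψ₂ x = 0} := by
    ext p
    simp only [mem_setOf_eq, mem_prod, pm, Prod.mk_eq_zero]
    tauto
  have hf3 := hf1.prod hf2
  rw [hset, finsum_mem_eq_finite_toFinset_sum _ hf1, finsum_mem_eq_finite_toFinset_sum _ hf2,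
    finsum_mem_eq_finite_toFinset_sum _ hf3, Finset.sum_mul_sum, ← Finset.sum_product']
  have hfs : hf3.toFinset = hf1.toFinset ×ˢ hf2.toFinset := by
    ext p
    simp only [Finite.mem_toFinset, Finset.mem_product, mem_prod]
  rw [hfs]
  refine Finset.sum_congr rfl fun p _ => ?_
  have h1 : HasFDerivAt (pm Ψ₁ Ψ₂) ((fderiv ℝ Ψ₁ p.1).prodMap (fderiv ℝ Ψ₂ p.2)) p := by
    have e1 : HasFDerivAt Ψ₁ (fderiv ℝ Ψ₁ p.1) p.1 :=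
      (hd1.differentiable one_ne_zero p.1).hasFDerivAt
    have e2 : HasFDerivAt Ψ₂ (fderiv ℝ Ψ₂ p.2) p.2 :=
      (hd2.differentiable one_ne_zero p.2).hasFDerivAt
    exact HasFDerivAt.prodMap p e1 e2
  have h2 : (fderiv ℝ (pm Ψ₁ Ψ₂) p).det = (fderiv ℝ Ψ₁ p.1).det * (fderiv ℝ Ψ₂ p.2).det := by
    rw [h1.fderiv]
    unfold ContinuousLinearMap.det
    rw [← LinearMap.det_prodMap]
    rfl
  rw [h2, sign_mul]
  push_cast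
  rfl

lemma reg_prod {Ψ₁ : X₁ → X₁} {Ψ₂ : X₂ → X₂} {Ω₁ : Set X₁} {Ω₂ : Set X₂}
    (h1 : Reg Ψ₁ Ω₁) (h2 : Reg Ψ₂ Ω₂) : Reg (pm Ψ₁ Ψ₂) (Ω₁ ×ˢ Ω₂) := by
  refine ⟨(h1.smooth.comp contDiff_fst).prodMk (h2.smooth.comp contDiff_snd), ?_⟩
  intro p hp hz
  rw [closure_prod_eq] at hp
  have hz' : Ψ₁ p.1 = 0 ∧ Ψ₂ p.2 = 0 := Prod.mk_eq_zero.1 hz
  have e0 : HasFDerivAt (pm Ψ₁ Ψ₂) ((fderiv ℝ Ψ₁ p.1).prodMap (fderiv ℝ Ψ₂ p.2)) p := by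
    have e1 : HasFDerivAt Ψ₁ (fderiv ℝ Ψ₁ p.1) p.1 :=
      (h1.smooth.differentiable one_ne_zero p.1).hasFDerivAt
    have e2 : HasFDerivAt Ψ₂ (fderiv ℝ Ψ₂ p.2) p.2 :=
      (h2.smooth.differentiable one_ne_zero p.2).hasFDerivAt
    exact HasFDerivAt.prodMap p e1 e2
  have h3 : (fderiv ℝ (pm Ψ₁ Ψ₂) p).det = (fderiv ℝ Ψ₁ p.1).det * (fderiv ℝ Ψ₂ p.2).det := by
    rw [e0.fderiv]
    unfold ContinuousLinearMap.det
    rw [← LinearMap.det_prodMap]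
    rfl
  rw [h3]
  exact mul_ne_zero (h1.nd _ hp.1 hz'.1) (h2.nd _ hp.2 hz'.2)

end prod

/-- a good approximation -/
lemma approx (hI : S_CNTINT.{u}) (hD : S_DEG.{u}) {X Y : Type u} [NormedAddCommGroup X]
    [NormedSpace ℝ X] [FiniteDimensional ℝ X] [NormedAddCommGroup Y] [NormedSpace ℝ Y]
    [FiniteDimensional ℝ Y] {Φ : X → Y} {Ω : Set X} (h : Adm Φ Ω) (e : X ≃L[ℝ] Y) (ε : ℝ)
    (hε : 0 < ε) : ∃ Ψ : X → X, Reg Ψ Ω ∧ (∀ x ∈ closure Ω, ‖e (Ψ x) - Φ x‖ < ε) ∧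
      {x | x ∈ Ω ∧ Ψ x = 0}.Finite ∧ (cnt Ψ Ω).natAbs = adeg Φ Ω := by
  obtain ⟨⟨ε₁, hε₁, h1⟩, h2⟩ := hD X Y Φ Ω h e
  have hfr : IsCompact (frontier Ω) :=
    (compact_closure h.bd).of_isClosed_subset isClosed_frontier frontier_subset_closure
  obtain ⟨m, hm, hlow⟩ := exists_lower hfr (h.cont.mono frontier_subset_closure) h.nz
  obtain ⟨Ψ, hΨ, hclose⟩ := h2 (min ε (min ε₁ m)) (lt_min hε (lt_min hε₁ hm))
  refine ⟨Ψ, hΨ, fun x hx => lt_of_lt_of_le (hclose x hx) (min_le_left _ _), ?_, ?_⟩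
  · let _ : MeasurableSpace X := borel X
    have : BorelSpace X := ⟨rfl⟩
    refine (hI X Measure.addHaar Ψ Ω h.op h.bd hΨ ?_).1
    intro x hx hz
    have h3 := lt_of_lt_of_le (hclose x (frontier_subset_closure hx))
      ((min_le_right _ _).trans (min_le_right _ _))
    rw [hz, map_zero, zero_sub, norm_neg] at h3
    exact absurd (hlow x hx) (not_le.2 h3)
  · exact h1 Ψ hΨ fun x hx => lt_of_lt_of_le (hclose x hx)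
      ((min_le_right _ _).trans (min_le_left _ _))

end DA3

open DA3

theorem t_A3 (hA : S_APX.{u}) (_hS : S_SARD.{u}) (hI : S_CNTINT.{u}) (_hC : S_CNTHOM.{u})
    (hD : S_DEG.{u}) : S_A3.{u} := by
  intro X₁ Y₁ X₂ Y₂ _ _ _ _ _ _ _ _ _ _ _ _ Φ₁ Φ₂ Ω₁ Ω₂ ho1 hb1 hc1 ho2 hb2 hc2 hz _ _
  have hop : IsOpen (Ω₁ ×ˢ Ω₂) := ho1.prod ho2
  have hbd : Bornology.IsBounded (Ω₁ ×ˢ Ω₂) := hb1.prod hb2
  have hcont : ContinuousOn (pm Φ₁ Φ₂) (closure (Ω₁ ×ˢ Ω₂)) := pm_cont hc1 hc2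
  show adeg (pm Φ₁ Φ₂) (Ω₁ ×ˢ Ω₂) = adeg Φ₁ Ω₁ * adeg Φ₂ Ω₂
  by_cases h1 : ∀ x ∈ closure Ω₁, Φ₁ x ≠ 0
  · rw [adeg_no_zero hD ho1 hb1 hc1 h1, zero_mul]
    refine adeg_no_zero hD hop hbd hcont ?_
    intro p hp h0
    rw [closure_prod_eq] at hp
    exact h1 _ hp.1 (Prod.mk_eq_zero.1 h0).1
  by_cases h2 : ∀ x ∈ closure Ω₂, Φ₂ x ≠ 0
  · rw [adeg_no_zero hD ho2 hb2 hc2 h2, mul_zero]
    refine adeg_no_zero hD hop hbd hcont ?_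
    intro p hp h0
    rw [closure_prod_eq] at hp
    exact h2 _ hp.2 (Prod.mk_eq_zero.1 h0).2
  push Not at h1 h2
  obtain ⟨x₁, hx₁, hx₁0⟩ := h1
  obtain ⟨x₂, hx₂, hx₂0⟩ := h2
  have had1 : Adm Φ₁ Ω₁ := by
    refine ⟨ho1, hb1, hc1, fun x hx h0 => ?_⟩
    have h3 := (hz x (frontier_subset_closure hx) x₂ hx₂ h0 hx₂0).1
    rw [ho1.frontier_eq] at hx
    exact hx.2 h3
  have had2 : Adm Φ₂ Ω₂ := by
    refine ⟨ho2, hb2, hc2, fun x hx h0 => ?_⟩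
    have h3 := (hz x₁ hx₁ x (frontier_subset_closure hx) hx₁0 h0).2
    rw [ho2.frontier_eq] at hx
    exact hx.2 h3
  have had : Adm (pm Φ₁ Φ₂) (Ω₁ ×ˢ Ω₂) := by
    refine ⟨hop, hbd, hcont, fun p hp h0 => ?_⟩
    rw [hop.frontier_eq, closure_prod_eq] at hp
    have h3 := Prod.mk_eq_zero.1 h0
    exact hp.2 (hz _ hp.1.1 _ hp.1.2 h3.1 h3.2)
  by_cases hd1 : Module.finrank ℝ X₁ = Module.finrank ℝ Y₁
  swap
  · rw [adeg_ne_dim Φ₁ Ω₁ hd1, zero_mul]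
    rcases lt_or_gt_of_ne hd1 with h | h
    · exact mismatch hA hD had hb1 hb2 hc1 hc2 (Or.inl h)
    · by_cases hd2 : Module.finrank ℝ X₂ < Module.finrank ℝ Y₂
      · exact mismatch hA hD had hb1 hb2 hc1 hc2 (Or.inr hd2)
      · apply adeg_ne_dim
        rw [Module.finrank_prod, Module.finrank_prod]
        omega
  by_cases hd2 : Module.finrank ℝ X₂ = Module.finrank ℝ Y₂
  swap
  · rw [adeg_ne_dim Φ₂ Ω₂ hd2, mul_zero]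
    apply adeg_ne_dim
    rw [Module.finrank_prod, Module.finrank_prod]
    omega
  obtain ⟨e₁⟩ := exists_equiv hd1
  obtain ⟨e₂⟩ := exists_equiv hd2
  obtain ⟨⟨ε, hε, h3⟩, -⟩ := hD (X₁ × X₂) (Y₁ × Y₂) _ _ had (e₁.prodCongr e₂)
  obtain ⟨Ψ₁, hr1, hcl1, hf1, hk1⟩ := approx hI hD had1 e₁ ε hε
  obtain ⟨Ψ₂, hr2, hcl2, hf2, hk2⟩ := approx hI hD had2 e₂ ε hε
  rw [← h3 (pm Ψ₁ Ψ₂) (reg_prod hr1 hr2), ← hk1, ← hk2,
    cnt_prod hr1.smooth hr2.smooth hf1 hf2, Int.natAbs_mul]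
  intro p hp
  rw [closure_prod_eq] at hp
  have h5 : (e₁.prodCongr e₂) (pm Ψ₁ Ψ₂ p) - pm Φ₁ Φ₂ p =
      (e₁ (Ψ₁ p.1) - Φ₁ p.1, e₂ (Ψ₂ p.2) - Φ₂ p.2) := rfl
  rw [h5, Prod.norm_mk]
  exact max_lt (hcl1 _ hp.1) (hcl2 _ hp.2)

end Pool.Agent.H963.CJ
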