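import Pool.Agent.H963.CJ.DegDef

/-!
# Absolute degree: invariance under linear changes of coordinates
-/

set_option autoImplicit false

open MeasureTheory Set Filter Topology Metric
open scoped ContDiff

namespace Pool.Agent.H963.CJ

universe u

namespace DA4

section one

variable {X : Type*} [NormedAddCommGroup X] [NormedSpace ℝ X]
  {Y : Type*} [NormedAddCommGroup Y] [NormedSpace ℝ Y]
  {Y' : Type*} [NormedAddCommGroup Y'] [NormedSpace ℝ Y']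
  {X' : Type*} [NormedAddCommGroup X'] [NormedSpace ℝ X']

theorem adeg_zero {Φ : X → Y} {Ω : Set X} (h : IsEmpty (X ≃L[ℝ] Y)) : adeg Φ Ω = 0 := by
  unfold adeg
  rw [dif_neg]
  rintro ⟨d, e, _⟩
  exact h.false e

theorem adm_left {Φ : X → Y} {Ω : Set X} (L : Y ≃L[ℝ] Y') (h : Adm Φ Ω) :
    Adm (fun x => L (Φ x)) Ω where
  op := h.op
  bd := h.bd
  cont := L.continuous.comp_continuousOn h.cont
  nz := fun x hx h0 => h.nz x hx (by
    have h1 : L (Φ x) = 0 := h0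
    exact (map_eq_zero_iff L L.injective).1 h1)

theorem cl_pre (L : X' ≃L[ℝ] X) (Ω : Set X) : closure (L ⁻¹' Ω) = L ⁻¹' closure Ω :=
  (L.toHomeomorph.preimage_closure Ω).symm

theorem fr_pre (L : X' ≃L[ℝ] X) (Ω : Set X) : frontier (L ⁻¹' Ω) = L ⁻¹' frontier Ω :=
  (L.toHomeomorph.preimage_frontier Ω).symm

theorem adm_right {Φ : X → Y} {Ω : Set X} (L : X' ≃L[ℝ] X) (h : Adm Φ Ω) :
    Adm (fun x => Φ (L x)) (L ⁻¹' Ω) where
  op := h.op.preimage L.continuous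
  bd := by
    have h1 := (L.symm : X →L[ℝ] X').lipschitz.isBounded_image h.bd
    have h2 : L ⁻¹' Ω = (L.symm : X →L[ℝ] X') '' Ω := by
      ext x
      simp only [mem_preimage, mem_image]
      constructor
      · intro hx
        exact ⟨L x, hx, L.symm_apply_apply x⟩
      · rintro ⟨y, hy, rfl⟩
        have : L ((L.symm : X →L[ℝ] X') y) = y := L.apply_symm_apply y
        rw [this]
        exact hy
    rw [h2]
    exact h1
  cont := by
    rw [cl_pre]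
    exact h.cont.comp L.continuous.continuousOn fun x hx => hx
  nz := by
    rw [fr_pre]
    exact fun x hx => h.nz _ hx

/-- the conjugate map -/
def cj (L : X' ≃L[ℝ] X) (Ψ : X → X) : X' → X' := fun x => L.symm (Ψ (L x))

theorem fderiv_cj (L : X' ≃L[ℝ] X) {Ψ : X → X} (h : ContDiff ℝ 1 Ψ) (x : X') :
    fderiv ℝ (cj L Ψ) x =
      ((L.symm : X →L[ℝ] X').comp ((fderiv ℝ Ψ (L x)).comp (L : X' →L[ℝ] X))) := by
  have h1 : HasFDerivAt Ψ (fderiv ℝ Ψ (L x)) (L x) :=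
    (h.differentiable (by norm_num) (L x)).hasFDerivAt
  have h2 : HasFDerivAt (fun y => Ψ (L y)) ((fderiv ℝ Ψ (L x)).comp (L : X' →L[ℝ] X)) x :=
    h1.comp x L.hasFDerivAt
  exact ((L.symm : X →L[ℝ] X').hasFDerivAt.comp x h2).fderiv

theorem det_cj (L : X' ≃L[ℝ] X) {Ψ : X → X} (h : ContDiff ℝ 1 Ψ) (x : X') :
    (fderiv ℝ (cj L Ψ) x).det = (fderiv ℝ Ψ (L x)).det := by
  rw [fderiv_cj L h]
  have h1 := LinearMap.det_conj ((fderiv ℝ Ψ (L x) : X →L[ℝ] X) : X →ₗ[ℝ] X)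
    L.symm.toLinearEquiv
  exact h1

theorem reg_cj (L : X' ≃L[ℝ] X) {Ψ : X → X} {Ω : Set X} (h : Reg Ψ Ω) :
    Reg (cj L Ψ) (L ⁻¹' Ω) where
  smooth := L.symm.contDiff.comp (h.smooth.comp L.contDiff)
  nd := by
    intro x hx h0
    rw [cl_pre] at hx
    rw [det_cj L h.smooth]
    refine h.nd _ hx ?_
    have h1 : L.symm (Ψ (L x)) = 0 := h0
    exact (map_eq_zero_iff L.symm L.symm.injective).1 h1

theorem cnt_cj (L : X' ≃L[ℝ] X) {Ψ : X → X} {Ω : Set X} (h : Reg Ψ Ω) :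
    cnt (cj L Ψ) (L ⁻¹' Ω) = cnt Ψ Ω := by
  unfold cnt
  rw [← finsum_comp_equiv L.toEquiv]
  refine finsum_congr fun x => ?_
  have h1 : (x ∈ {x | x ∈ L ⁻¹' Ω ∧ cj L Ψ x = 0}) ↔
      (L.toEquiv x ∈ {x | x ∈ Ω ∧ Ψ x = 0}) := by
    have h2 : cj L Ψ x = 0 ↔ Ψ (L x) = 0 := map_eq_zero_iff L.symm L.symm.injective
    have h3 : L.toEquiv x = L x := rfl
    rw [h3]
    simp only [mem_ofPred_eq, mem_preimage, h2]
  rw [det_cj L h.smooth]
  exact finsum_congr_Prop (propext h1) fun _ => rfl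

end one

end DA4

open DA4 in
theorem t_A4 (hD : S_DEG.{u}) : S_A4.{u} := by
  constructor
  · intro X Y Y' _ _ _ _ _ _ _ _ _ Φ Ω L hΦ
    rcases isEmpty_or_nonempty (X ≃L[ℝ] Y) with h | ⟨⟨e⟩⟩
    · rw [adeg_zero h, adeg_zero]
      exact ⟨fun e => h.false (e.trans L.symm)⟩
    · obtain ⟨⟨ε, hε, h1⟩, h2⟩ := hD X Y Φ Ω hΦ e
      obtain ⟨⟨ε', hε', h1'⟩, _⟩ := hD X Y' _ Ω (adm_left L hΦ) (e.trans L)
      obtain ⟨Ψ, hR, hΨ⟩ := h2 (min ε (ε' / (‖(L : Y →L[ℝ] Y')‖ + 1)))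
        (lt_min hε (by positivity))
      rw [← h1 Ψ hR fun x hx => (hΨ x hx).trans_le (min_le_left _ _)]
      refine (h1' Ψ hR fun x hx => ?_).symm
      have h3 := (hΨ x hx).trans_le (min_le_right _ _)
      have h4 : (e.trans L) (Ψ x) - L (Φ x) = (L : Y →L[ℝ] Y') (e (Ψ x) - Φ x) := by
        rw [map_sub]
        rfl
      rw [h4]
      have h5 : 0 < ‖(L : Y →L[ℝ] Y')‖ + 1 := by positivity
      calc ‖(L : Y →L[ℝ] Y') (e (Ψ x) - Φ x)‖ ≤ ‖(L : Y →L[ℝ] Y')‖ * ‖e (Ψ x) - Φ x‖ :=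
            (L : Y →L[ℝ] Y').le_opNorm _
        _ ≤ (‖(L : Y →L[ℝ] Y')‖ + 1) * ‖e (Ψ x) - Φ x‖ := by
            refine mul_le_mul_of_nonneg_right ?_ (norm_nonneg _)
            linarith
        _ < ε' := by
            rw [lt_div_iff₀ h5] at h3
            linarith
  · intro X X' Y _ _ _ _ _ _ _ _ _ Φ Ω L hΦ
    rcases isEmpty_or_nonempty (X ≃L[ℝ] Y) with h | ⟨⟨e⟩⟩
    · rw [adeg_zero h, adeg_zero]
      exact ⟨fun e => h.false (L.symm.trans e)⟩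
    · obtain ⟨⟨ε, hε, h1⟩, h2⟩ := hD X Y Φ Ω hΦ e
      obtain ⟨⟨ε', hε', h1'⟩, _⟩ := hD X' Y _ _ (adm_right L hΦ) (L.trans e)
      obtain ⟨Ψ, hR, hΨ⟩ := h2 (min ε ε') (lt_min hε hε')
      rw [← h1 Ψ hR fun x hx => (hΨ x hx).trans_le (min_le_left _ _), ← cnt_cj L hR]
      refine (h1' (cj L Ψ) (reg_cj L hR) fun x hx => ?_).symm
      rw [cl_pre] at hx
      have h3 := (hΨ (L x) hx).trans_le (min_le_right _ _)
      have h4 : (L.trans e) (cj L Ψ x) = e (Ψ (L x)) := by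
        change e (L (L.symm (Ψ (L x)))) = _
        rw [L.apply_symm_apply]
      rw [h4]
      exact h3

end Pool.Agent.H963.CJ
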