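import Pool.Agent.H963.CJ.DegDef

/-!
# Absolute degree, A5: a unique nondegenerate zero has absolute degree one
-/

set_option autoImplicit false
set_option linter.unusedSectionVars false

open MeasureTheory Set Filter Topology Metric
open scoped ContDiff

universe u

namespace Pool.Agent.H963.CJ.DA5

variable {X : Type u} [NormedAddCommGroup X] [NormedSpace ℝ X] [FiniteDimensional ℝ X]

lemma fderiv_shift (a x : X) : (fderiv ℝ (fun x : X => x - a) x).det = 1 := by
  rw [fderiv_sub_const, fderiv_fun_id]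
  simp [ContinuousLinearMap.det]

lemma reg_shift (a : X) (Ω : Set X) : Reg (fun x : X => x - a) Ω := by
  refine ⟨contDiff_id.sub contDiff_const, fun x _ _ => ?_⟩
  rw [fderiv_shift]
  exact one_ne_zero

lemma cnt_shift (a : X) {Ω : Set X} (ha : a ∈ Ω) : cnt (fun x : X => x - a) Ω = 1 := by
  unfold cnt
  have h1 : {x : X | x ∈ Ω ∧ x - a = 0} = {a} := by
    ext x
    rw [mem_ofPred_eq, mem_singleton_iff]
    constructor
    · rintro ⟨-, h⟩
      exact sub_eq_zero.1 h
    · rintro rfl
      exact ⟨ha, sub_self _⟩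
  rw [h1, finsum_mem_singleton, fderiv_shift, sign_one]
  rfl

end Pool.Agent.H963.CJ.DA5

namespace Pool.Agent.H963.CJ

open Pool.Agent.H963.CJ.DA5

theorem t_A5 (hC : S_CNTHOM.{u}) (hD : S_DEG.{u}) (h1 : S_A1.{u}) (h2 : S_A2.{u}) : S_A5.{u} := by
  intro X Y _ _ _ _ _ _ Φ Ω a A hop hbd hcont ha hΦa huniq hder hbij
  -- the isomorphism
  let e : X ≃L[ℝ] Y := (LinearEquiv.ofBijective (A : X →ₗ[ℝ] Y) hbij).toContinuousLinearEquiv
  have he : ∀ x, e x = A x := fun x => rfl
  set M : ℝ := ‖(e.symm : Y →L[ℝ] X)‖ + 1 with hM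
  have hM0 : 0 < M := by positivity
  have hlow : ∀ x : X, ‖x‖ ≤ M * ‖A x‖ := by
    intro x
    have h3 : ‖e.symm (e x)‖ ≤ ‖(e.symm : Y →L[ℝ] X)‖ * ‖e x‖ :=
      (e.symm : Y →L[ℝ] X).le_opNorm (e x)
    rw [e.symm_apply_apply, he] at h3
    refine h3.trans (mul_le_mul_of_nonneg_right ?_ (norm_nonneg _))
    rw [hM]
    linarith
  -- a small ball
  have hlit := hder.isLittleO.def (show (0 : ℝ) < 1 / (2 * M) by positivity)
  have hΩ : Ω ∈ 𝓝 a := hop.mem_nhds ha
  obtain ⟨ρ, hρ, hball⟩ := Metric.mem_nhds_iff.1 (Filter.inter_mem hlit hΩ)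
  set r : ℝ := ρ / 2 with hr
  have hr0 : 0 < r := by positivity
  have hsub : closedBall a r ⊆ ball a ρ := closedBall_subset_ball (by rw [hr]; linarith)
  have hest : ∀ x ∈ closedBall a r, ‖Φ x - A (x - a)‖ ≤ 1 / (2 * M) * ‖x - a‖ := by
    intro x hx
    have h3 := (hball (hsub hx)).1
    rw [mem_ofPred_eq] at h3
    rwa [hΦa, sub_zero] at h3
  have hbΩ : ball a r ⊆ Ω := fun x hx => (hball (hsub (ball_subset_closedBall hx))).2
  have hcl : closure (ball a r) ⊆ closedBall a r := closure_ball_subset_closedBall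
  have hfr : ∀ x ∈ frontier (ball a r), ‖x - a‖ = r := by
    intro x hx
    have h3 := frontier_ball_subset_sphere hx
    rwa [mem_sphere_iff_norm] at h3
  have hnz : ∀ t ∈ Icc (0 : ℝ) 1, ∀ x ∈ frontier (ball a r),
      A (x - a) + t • (Φ x - A (x - a)) ≠ 0 := by
    intro t ht x hx h0
    have h3 := hfr x hx
    have h4 : x ∈ closedBall a r := by
      rw [mem_closedBall_iff_norm, h3]
    have h5 := hest x h4
    have h6 := hlow (x - a)
    have h7 : A (x - a) = -(t • (Φ x - A (x - a))) := eq_neg_of_add_eq_zero_left h0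
    have h8 : ‖A (x - a)‖ ≤ ‖Φ x - A (x - a)‖ := by
      rw [h7, norm_neg, norm_smul, Real.norm_of_nonneg ht.1]
      rw [← h7]
      exact mul_le_of_le_one_left (norm_nonneg _) ht.2
    have h9 : ‖x - a‖ ≤ M * (1 / (2 * M) * ‖x - a‖) :=
      h6.trans (mul_le_mul_of_nonneg_left (h8.trans h5) hM0.le)
    have h10 : M * (1 / (2 * M) * ‖x - a‖) = ‖x - a‖ / 2 := by
      field_simp
    rw [h10, h3] at h9
    linarith
  -- excision
  have e1 : adeg Φ Ω = adeg Φ (ball a r) := by
    refine h2 X Y Φ Ω (ball a r) hop hbd hcont isOpen_ball hbΩ fun x hx hx0 => ?_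
    rw [huniq x hx hx0]
    exact mem_ball_self hr0
  -- homotopy
  have e2 := h1 X Y (fun t x => A (x - a) + t • (Φ x - A (x - a))) (ball a r) isOpen_ball
    isBounded_ball (by
      have hA : Continuous fun p : ℝ × X => A (p.2 - a) :=
        A.continuous.comp (continuous_snd.sub continuous_const)
      have hΦ : ContinuousOn (fun p : ℝ × X => Φ p.2) (Icc (0 : ℝ) 1 ×ˢ closure (ball a r)) :=
        hcont.comp continuous_snd.continuousOn fun p hp => closure_mono hbΩ hp.2
      exact hA.continuousOn.add (continuous_fst.continuousOn.smul (hΦ.sub hA.continuousOn))) hnz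
  have e3 : (fun x : X => A (x - a) + (0 : ℝ) • (Φ x - A (x - a))) = fun x => A (x - a) := by
    funext x
    rw [zero_smul, add_zero]
  have e4 : (fun x : X => A (x - a) + (1 : ℝ) • (Φ x - A (x - a))) = Φ := by
    funext x
    rw [one_smul, add_sub_cancel]
  rw [e3, e4] at e2
  rw [e1, ← e2]
  -- the affine map
  have hadm : Adm (fun x : X => A (x - a)) (ball a r) := by
    refine ⟨isOpen_ball, isBounded_ball,
      (A.continuous.comp (continuous_id.sub continuous_const)).continuousOn, fun x hx h0 => ?_⟩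
    have h3 := hnz 0 ⟨le_rfl, zero_le_one⟩ x hx
    rw [zero_smul, add_zero] at h3
    exact h3 h0
  obtain ⟨ε, hε, h3⟩ := (hD X Y (fun x : X => A (x - a)) (ball a r) hadm e).1
  have h4 := h3 (fun x : X => x - a) (reg_shift a _) (fun x _ => by
    rw [he, sub_self, norm_zero]
    exact hε)
  rw [← h4, cnt_shift a (mem_ball_self hr0)]
  rfl

end Pool.Agent.H963.CJ
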