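import Pool.Agent.H963.CJ.DegDef

/-!
# Project CJ, task A6: several nondegenerate zeros of the same sign (helper161)
-/

set_option autoImplicit false
set_option linter.unusedSectionVars false
set_option linter.unusedVariables false

open MeasureTheory Set Filter Topology Metric
open scoped ContDiff

namespace Pool.Agent.H963.CJ

universe u

namespace DA6

variable {V : Type u} [NormedAddCommGroup V] [NormedSpace ℝ V] [FiniteDimensional ℝ V]

theorem lower (B : V →L[ℝ] V) (hB : B.det ≠ 0) : ∃ c > 0, ∀ v, c * ‖v‖ ≤ ‖B v‖ := by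
  obtain ⟨C, hC, hb⟩ := ((B.toContinuousLinearEquivOfDetNeZero hB).symm : V →L[ℝ] V).bound
  refine ⟨C⁻¹, inv_pos.2 hC, fun v => ?_⟩
  have h1 := hb (B v)
  have h2 : ((B.toContinuousLinearEquivOfDetNeZero hB).symm : V →L[ℝ] V) (B v) = v := by
    have h3 : B v = (B.toContinuousLinearEquivOfDetNeZero hB) v := by
      rw [ContinuousLinearMap.toContinuousLinearEquivOfDetNeZero_apply]
    rw [h3]
    exact ContinuousLinearEquiv.symm_apply_apply _ _
  rw [h2] at h1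
  rw [inv_mul_le_iff₀ hC]
  exact h1

theorem isol (f : V → V) (B : V →L[ℝ] V) (z : V) (hf : HasFDerivAt f B z) (hB : B.det ≠ 0) :
    ∀ᶠ x in 𝓝[≠] z, f x ≠ 0 := by
  obtain ⟨c, hc, h⟩ := lower B hB
  refine hf.eventually_ne ⟨⟨c⁻¹, (inv_pos.2 hc).le⟩, B.antilipschitz_of_bound fun v => ?_⟩
  have h1 := h v
  rwa [← le_inv_mul_iff₀ hc] at h1

theorem fin_zeros (f : V → V) (K : Set V) (hK : IsCompact K) (hc : ContinuousOn f K)
    (B : V → V →L[ℝ] V)
    (hB : ∀ x ∈ K, f x = 0 → HasFDerivAt f (B x) x ∧ (B x).det ≠ 0) :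
    {x | x ∈ K ∧ f x = 0}.Finite := by
  refine hK.induction_on (p := fun s => {x | x ∈ s ∧ f x = 0}.Finite) ?_ ?_ ?_ ?_
  · simp
  · intro s t hst ht
    exact ht.subset fun x hx => ⟨hst hx.1, hx.2⟩
  · intro s t hs ht
    refine (hs.union ht).subset fun x hx => ?_
    rcases hx.1 with h | h
    · exact Or.inl ⟨h, hx.2⟩
    · exact Or.inr ⟨h, hx.2⟩
  · intro x hx
    by_cases h0 : f x = 0
    · have h1 := isol f (B x) x (hB x hx h0).1 (hB x hx h0).2
      rw [eventually_nhdsWithin_iff] at h1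
      refine ⟨{y | y ∈ ({x} : Set V)ᶜ → f y ≠ 0}, mem_nhdsWithin_of_mem_nhds h1, ?_⟩
      refine (finite_singleton x).subset fun y hy => ?_
      by_contra h2
      exact hy.1 h2 hy.2
    · refine ⟨{y | f y ≠ 0}, (hc x hx).eventually_ne h0, ?_⟩
      refine finite_empty.subset fun y hy => ?_
      exact hy.1 hy.2

/-- the count of a map close to an affine one -/
theorem loc_cnt (hC : S_CNTHOM.{u}) (Ψ Φ : V → V) (z : V) (B : V →L[ℝ] V) (r c : ℝ)
    (hr : 0 < r) (hc : 0 < c) (hB : B.det ≠ 0) (hB' : ∀ v, c * ‖v‖ ≤ ‖B v‖)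
    (hR : Reg Ψ (ball z r))
    (h1 : ∀ x ∈ closedBall z r, ‖Φ x - B (x - z)‖ ≤ c / 2 * ‖x - z‖)
    (h2 : ∀ x ∈ closedBall z r, ‖Ψ x - Φ x‖ < c / 2 * r) :
    cnt Ψ (ball z r) = ((SignType.sign B.det : SignType) : ℤ) := by
  have hder : ∀ x, HasFDerivAt (fun x => B (x - z)) B x := by
    intro x
    have := (B.hasFDerivAt (x := x - z)).comp x ((hasFDerivAt_id x).sub_const z)
    rw [ContinuousLinearMap.comp_id] at this
    exact this
  have hfd : ∀ x, fderiv ℝ (fun x => B (x - z)) x = B := fun x => (hder x).fderiv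
  have hR1 : Reg (fun x => B (x - z)) (ball z r) := by
    refine ⟨B.contDiff.comp (contDiff_id.sub contDiff_const), fun x _ _ => ?_⟩
    rw [hfd]
    exact hB
  rw [hC V Ψ (fun x => B (x - z)) (ball z r) isOpen_ball isBounded_ball hR hR1]
  · unfold cnt
    have h3 : {x | x ∈ ball z r ∧ B (x - z) = 0} = {z} := by
      ext x
      simp only [mem_ofPred_eq, mem_singleton_iff]
      constructor
      · rintro ⟨_, hx⟩
        have h4 := hB' (x - z)
        rw [hx, norm_zero] at h4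
        have h5 : ‖x - z‖ ≤ 0 := by
          by_contra h6
          push Not at h6
          have := mul_pos hc h6
          linarith
        exact sub_eq_zero.1 (norm_le_zero_iff.1 h5)
      · rintro rfl
        exact ⟨mem_ball_self hr, by simp⟩
    rw [h3, finsum_mem_singleton, hfd]
  · intro x hx t ht
    have hx' : ‖x - z‖ = r := by
      have := frontier_ball_subset_sphere hx
      rwa [mem_sphere_iff_norm] at this
    have hxc : x ∈ closedBall z r := by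
      rw [mem_closedBall_iff_norm, hx']
    intro h0
    have h3 := h1 x hxc
    have h4 := h2 x hxc
    have h5 := hB' (x - z)
    rw [hx'] at h3 h5
    have h6 : B (x - z) = (1 - t) • (B (x - z) - Ψ x) := by
      have : Ψ x = -(t • (B (x - z) - Ψ x)) := eq_neg_of_add_eq_zero_left h0
      calc B (x - z) = (B (x - z) - Ψ x) + Ψ x := by abel
        _ = (B (x - z) - Ψ x) + -(t • (B (x - z) - Ψ x)) := by rw [← this]
        _ = (1 - t) • (B (x - z) - Ψ x) := by rw [sub_smul, one_smul, ← sub_eq_add_neg]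
    have h7 : ‖B (x - z)‖ ≤ ‖B (x - z) - Ψ x‖ := by
      conv_lhs => rw [h6]
      rw [norm_smul]
      have h8 : ‖(1 - t : ℝ)‖ ≤ 1 := by
        rw [Real.norm_eq_abs, abs_le]
        constructor <;> linarith [ht.1, ht.2]
      calc ‖(1 - t : ℝ)‖ * ‖B (x - z) - Ψ x‖ ≤ 1 * ‖B (x - z) - Ψ x‖ :=
            mul_le_mul_of_nonneg_right h8 (norm_nonneg _)
        _ = _ := one_mul _
    have h9 : ‖B (x - z) - Ψ x‖ ≤ ‖Φ x - B (x - z)‖ + ‖Ψ x - Φ x‖ := by
      have : B (x - z) - Ψ x = -(Φ x - B (x - z)) + -(Ψ x - Φ x) := by abel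
      rw [this]
      refine (norm_add_le _ _).trans ?_
      rw [norm_neg, norm_neg]
    have : c * r < c * r := by
      calc c * r ≤ ‖B (x - z)‖ := h5
        _ ≤ ‖Φ x - B (x - z)‖ + ‖Ψ x - Φ x‖ := h7.trans h9
        _ < c / 2 * r + c / 2 * r := by linarith
        _ = c * r := by ring
    exact lt_irrefl _ this

/-- the count over a finite disjoint union -/
theorem cnt_split (Ψ : V → V) (Ω Z : Set V) (r : ℝ) (hZ : Z.Finite)
    (hfin : {x | x ∈ Ω ∧ Ψ x = 0}.Finite) (hsub : ∀ z ∈ Z, ball z r ⊆ Ω)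
    (hdis : ∀ z ∈ Z, ∀ z' ∈ Z, z' ≠ z → 2 * r < dist z z')
    (hz : ∀ x ∈ Ω, Ψ x = 0 → ∃ z ∈ Z, x ∈ ball z r) :
    cnt Ψ Ω = ∑ᶠ z ∈ Z, cnt Ψ (ball z r) := by
  unfold cnt
  have h1 : {x | x ∈ Ω ∧ Ψ x = 0} = ⋃ z ∈ Z, {x | x ∈ ball z r ∧ Ψ x = 0} := by
    ext x
    simp only [mem_ofPred_eq, mem_iUnion, exists_prop]
    constructor
    · rintro ⟨h2, h3⟩
      obtain ⟨z, h4, h5⟩ := hz x h2 h3
      exact ⟨z, h4, h5, h3⟩
    · rintro ⟨z, h4, h5, h3⟩
      exact ⟨hsub z h4 h5, h3⟩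
  rw [h1, finsum_mem_biUnion]
  · intro z hz z' hz' hne
    refine Set.disjoint_left.2 fun x hx hx' => ?_
    have h2 := hdis z hz z' hz' hne.symm
    have h3 : dist x z < r := hx.1
    have h4 : dist x z' < r := hx'.1
    have h5 := dist_triangle z x z'
    rw [dist_comm z x] at h5
    linarith
  · exact hZ
  · intro z hz
    exact hfin.subset fun x hx => ⟨hsub z hz hx.1, hx.2⟩

/-- the radius -/
theorem radius (Φ : V → V) (Ω Z : Set V) (hΩ : IsOpen Ω) (hZ : Z.Finite) (hZΩ : Z ⊆ Ω)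
    (B : V → V →L[ℝ] V) (c : V → ℝ) (hc : ∀ z ∈ Z, 0 < c z) (h0 : ∀ z ∈ Z, Φ z = 0)
    (hd : ∀ z ∈ Z, HasFDerivAt Φ (B z) z) :
    ∃ r > 0, ∀ z ∈ Z, closedBall z r ⊆ Ω ∧
      (∀ x ∈ closedBall z r, ‖Φ x - B z (x - z)‖ ≤ c z / 2 * ‖x - z‖) ∧
      ∀ z' ∈ Z, z' ≠ z → 2 * r < dist z z' := by
  have key : ∀ᶠ r in 𝓝[>] (0 : ℝ), ∀ z ∈ Z, closedBall z r ⊆ Ω ∧
      (∀ x ∈ closedBall z r, ‖Φ x - B z (x - z)‖ ≤ c z / 2 * ‖x - z‖) ∧
      ∀ z' ∈ Z, z' ≠ z → 2 * r < dist z z' := by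
    rw [eventually_all_finite hZ]
    intro z hz
    have small : ∀ ρ > 0, ∀ᶠ r in 𝓝[>] (0 : ℝ), r < ρ := fun ρ hρ =>
      mem_nhdsWithin_of_mem_nhds (Iio_mem_nhds hρ)
    have e1 : ∀ᶠ r in 𝓝[>] (0 : ℝ), closedBall z r ⊆ Ω := by
      obtain ⟨ρ, hρ, h⟩ := Metric.isOpen_iff.1 hΩ z (hZΩ hz)
      filter_upwards [small ρ hρ] with r hr
      exact (closedBall_subset_ball hr).trans h
    have e2 : ∀ᶠ r in 𝓝[>] (0 : ℝ),
        ∀ x ∈ closedBall z r, ‖Φ x - B z (x - z)‖ ≤ c z / 2 * ‖x - z‖ := by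
      have h1 := (hd z hz).isLittleO.def (half_pos (hc z hz))
      obtain ⟨ρ, hρ, h⟩ := Metric.eventually_nhds_iff_ball.1 h1
      filter_upwards [small ρ hρ] with r hr
      intro x hx
      have h2 := h x (closedBall_subset_ball hr hx)
      rwa [h0 z hz, sub_zero] at h2
    have e3 : ∀ᶠ r in 𝓝[>] (0 : ℝ), ∀ z' ∈ Z, z' ≠ z → 2 * r < dist z z' := by
      rw [eventually_all_finite hZ]
      intro z' _
      by_cases hne : z' = z
      · exact Eventually.of_forall fun r h => absurd hne h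
      · filter_upwards [small (dist z z' / 2) (half_pos (dist_pos.2 (Ne.symm hne)))] with r hr
        intro _
        linarith
    filter_upwards [e1, e2, e3] with r h1 h2 h3
    exact ⟨h1, h2, h3⟩
  obtain ⟨r, hr, h⟩ := ((eventually_mem_nhdsWithin (a := (0 : ℝ)) (s := Ioi 0)).and key).exists
  exact ⟨r, hr, h⟩

/-- the main count, for maps `V → V` -/
theorem count (hC : S_CNTHOM.{u}) (Φ : V → V) (Ω : Set V) (hΩ : IsOpen Ω)
    (hb : Bornology.IsBounded Ω) (hcont : ContinuousOn Φ (closure Ω))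
    (hfr : ∀ x ∈ frontier Ω, Φ x ≠ 0) (B : V → V →L[ℝ] V)
    (hd : ∀ x ∈ Ω, Φ x = 0 → HasFDerivAt Φ (B x) x)
    (hs : ∀ x ∈ Ω, ∀ y ∈ Ω, Φ x = 0 → Φ y = 0 → 0 < (B x).det * (B y).det)
    (a b : V) (ha : a ∈ Ω) (hb' : b ∈ Ω) (ha0 : Φ a = 0) (hb0 : Φ b = 0) (hab : a ≠ b) :
    ∃ δ > 0, ∀ Ψ : V → V, Reg Ψ Ω → (∀ x ∈ closure Ω, ‖Ψ x - Φ x‖ < δ) →
      2 ≤ (cnt Ψ Ω).natAbs := by
  have hK : IsCompact (closure Ω) := hb.isCompact_closure
  have hin : ∀ x ∈ closure Ω, Φ x = 0 → x ∈ Ω := by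
    intro x hx h0
    by_contra h
    exact hfr x (by rw [hΩ.frontier_eq]; exact ⟨hx, h⟩) h0
  have hdet : ∀ x ∈ Ω, Φ x = 0 → (B x).det ≠ 0 := by
    intro x hx h0 h
    have := hs x hx x hx h0 h0
    rw [h, mul_zero] at this
    exact lt_irrefl _ this
  set Z : Set V := {x | x ∈ Ω ∧ Φ x = 0} with hZdef
  have hZ : Z.Finite := by
    refine (fin_zeros Φ (closure Ω) hK hcont B fun x hx h0 =>
      ⟨hd x (hin x hx h0) h0, hdet x (hin x hx h0) h0⟩).subset fun x hx => ?_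
    exact ⟨subset_closure hx.1, hx.2⟩
  have hlow : ∀ z, ∃ c > 0, z ∈ Z → ∀ v, c * ‖v‖ ≤ ‖B z v‖ := by
    intro z
    by_cases hz : z ∈ Z
    · obtain ⟨c, hc, h⟩ := lower (B z) (hdet z hz.1 hz.2)
      exact ⟨c, hc, fun _ => h⟩
    · exact ⟨1, one_pos, fun h => absurd h hz⟩
  choose c hc hlow' using hlow
  obtain ⟨r, hr, hrad⟩ := radius Φ Ω Z hΩ hZ (fun z hz => hz.1) B c (fun z _ => hc z)
    (fun z hz => hz.2) (fun z hz => hd z hz.1 hz.2)
  -- the lower bound away from the zeros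
  set C : Set V := closure Ω \ ⋃ z ∈ Z, ball z r with hCdef
  have hCc : IsCompact C := hK.diff (isOpen_biUnion fun z _ => isOpen_ball)
  have hCn : ∀ x ∈ C, Φ x ≠ 0 := by
    intro x hx h0
    exact hx.2 (mem_biUnion (show x ∈ Z from ⟨hin x hx.1 h0, h0⟩) (mem_ball_self hr))
  obtain ⟨δ₁, hδ₁, hlb⟩ : ∃ δ > 0, ∀ x ∈ C, δ ≤ ‖Φ x‖ := by
    rcases C.eq_empty_or_nonempty with hemp | hne
    · exact ⟨1, one_pos, fun x hx => absurd hx (by rw [hemp]; exact notMem_empty x)⟩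
    · obtain ⟨x₀, hx₀, hmin⟩ := hCc.exists_isMinOn hne
        ((hcont.mono sdiff_subset).norm)
      exact ⟨‖Φ x₀‖, norm_pos_iff.2 (hCn x₀ hx₀), fun x hx => hmin hx⟩
  obtain ⟨δ₂, hδ₂, hlb2⟩ : ∃ δ > 0, ∀ z ∈ Z, δ ≤ c z / 2 * r := by
    have h1 : ∀ᶠ δ in 𝓝[>] (0 : ℝ), ∀ z ∈ Z, δ ≤ c z / 2 * r := by
      rw [eventually_all_finite hZ]
      intro z _
      exact mem_nhdsWithin_of_mem_nhds (Iic_mem_nhds (mul_pos (half_pos (hc z)) hr))
    obtain ⟨δ, h2, h3⟩ := ((eventually_mem_nhdsWithin (a := (0 : ℝ)) (s := Ioi 0)).and h1).exists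
    exact ⟨δ, h2, h3⟩
  refine ⟨min δ₁ δ₂, lt_min hδ₁ hδ₂, fun Ψ hR hclose => ?_⟩
  have hΨC : ∀ x ∈ C, Ψ x ≠ 0 := by
    intro x hx h0
    have h1 := hclose x hx.1
    rw [h0, zero_sub, norm_neg] at h1
    have h2 := hlb x hx
    have h3 := min_le_left δ₁ δ₂
    linarith
  have hball : ∀ z ∈ Z, ball z r ⊆ Ω := fun z hz => ball_subset_closedBall.trans (hrad z hz).1
  have hzero : ∀ x ∈ closure Ω, Ψ x = 0 → ∃ z ∈ Z, x ∈ ball z r := by
    intro x hx h0
    by_contra h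
    push Not at h
    refine hΨC x ⟨hx, ?_⟩ h0
    simp only [mem_iUnion, not_exists]
    exact h
  have hfinΨ : {x | x ∈ Ω ∧ Ψ x = 0}.Finite := by
    refine (fin_zeros Ψ (closure Ω) hK hR.smooth.continuous.continuousOn (fun x => fderiv ℝ Ψ x)
      fun x hx h0 => ⟨?_, hR.nd x hx h0⟩).subset fun x hx => ⟨subset_closure hx.1, hx.2⟩
    exact (hR.smooth.differentiable one_ne_zero x).hasFDerivAt
  have hsplit := cnt_split Ψ Ω Z r hZ hfinΨ hball (fun z hz z' hz' => (hrad z hz).2.2 z' hz')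
    (fun x hx h0 => hzero x (subset_closure hx) h0)
  have hloc : ∀ z ∈ Z, cnt Ψ (ball z r) = ((SignType.sign (B a).det : SignType) : ℤ) := by
    intro z hz
    rw [loc_cnt hC Ψ Φ z (B z) r (c z) hr (hc z) (hdet z hz.1 hz.2) (hlow' z hz)
      ⟨hR.smooth, fun x hx h0 => hR.nd x (closure_mono (hball z hz) hx) h0⟩ (hrad z hz).2.1]
    · have h1 := hs z hz.1 a ha hz.2 ha0
      congr 1
      rcases lt_or_gt_of_ne (hdet a ha ha0) with h2 | h2
      · have h3 : (B z).det < 0 := by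
          by_contra h4
          push Not at h4
          have := mul_nonpos_of_nonneg_of_nonpos h4 h2.le
          linarith
        rw [sign_neg h2, sign_neg h3]
      · have h3 : 0 < (B z).det := by
          by_contra h4
          push Not at h4
          have := mul_nonpos_of_nonpos_of_nonneg h4 h2.le
          linarith
        rw [sign_pos h2, sign_pos h3]
    · intro x hx
      have h1 := hclose x (subset_closure ((hrad z hz).1 hx))
      have h2 := hlb2 z hz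
      have h3 := min_le_right δ₁ δ₂
      linarith
  rw [hsplit, finsum_mem_congr rfl hloc, finsum_mem_eq_finite_toFinset_sum _ hZ, Finset.sum_const,
    nsmul_eq_mul, Int.natAbs_mul, Int.natAbs_natCast]
  have h1 : (((SignType.sign (B a).det : SignType) : ℤ)).natAbs = 1 := by
    rcases lt_or_gt_of_ne (hdet a ha ha0) with h2 | h2
    · rw [sign_neg h2]; rfl
    · rw [sign_pos h2]; rfl
  rw [h1, mul_one]
  have h2 : 1 < hZ.toFinset.card := Finset.one_lt_card.2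
    ⟨a, hZ.mem_toFinset.2 ⟨ha, ha0⟩, b, hZ.mem_toFinset.2 ⟨hb', hb0⟩, hab⟩
  exact h2

end DA6

/-- **A6.** -/
theorem t_A6 (hA : S_APX.{u}) (hS : S_SARD.{u}) (hI : S_CNTINT.{u}) (hC : S_CNTHOM.{u})
    (hD : S_DEG.{u}) : S_A6.{u} := by
  intro X Y _ _ _ _ _ _ Φ Ω A e hAdm hd hs a ha b hb ha0 hb0 hab
  obtain ⟨⟨ε, hε, h1⟩, h2⟩ := hD X Y Φ Ω hAdm e
  have h0iff : ∀ x, e.symm (Φ x) = 0 ↔ Φ x = 0 := by
    intro x
    constructor
    · intro h
      have := congrArg e h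
      rwa [ContinuousLinearEquiv.apply_symm_apply, map_zero] at this
    · intro h
      rw [h, map_zero]
  obtain ⟨δ, hδ, h3⟩ := DA6.count hC (fun x => e.symm (Φ x)) Ω hAdm.op hAdm.bd
    (e.symm.continuous.comp_continuousOn hAdm.cont)
    (fun x hx h => hAdm.nz x hx ((h0iff x).1 h))
    (fun x => (e.symm : Y →L[ℝ] X).comp (A x))
    (fun x hx h => ((e.symm : Y →L[ℝ] X).hasFDerivAt).comp x (hd x hx ((h0iff x).1 h)))
    (fun x hx y hy hx0 hy0 => hs x hx y hy ((h0iff x).1 hx0) ((h0iff y).1 hy0))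
    a b ha hb ((h0iff a).2 ha0) ((h0iff b).2 hb0) hab
  obtain ⟨K, hK, hKb⟩ := (e.symm : Y →L[ℝ] X).bound
  obtain ⟨Ψ, hR, hΨ⟩ := h2 (min ε (δ / K)) (lt_min hε (div_pos hδ hK))
  rw [← h1 Ψ hR fun x hx => lt_of_lt_of_le (hΨ x hx) (min_le_left _ _)]
  refine h3 Ψ hR fun x hx => ?_
  have h4 : Ψ x - e.symm (Φ x) = (e.symm : Y →L[ℝ] X) (e (Ψ x) - Φ x) := by
    rw [map_sub]
    congr 1
    exact (ContinuousLinearEquiv.symm_apply_apply e (Ψ x)).symm
  have h5 := hKb (e (Ψ x) - Φ x)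
  have h6 := lt_of_lt_of_le (hΨ x hx) (min_le_right ε (δ / K))
  show ‖Ψ x - e.symm (Φ x)‖ < δ
  rw [h4]
  calc _ ≤ K * ‖e (Ψ x) - Φ x‖ := h5
    _ < K * (δ / K) := mul_lt_mul_of_pos_left h6 hK
    _ = δ := mul_div_cancel₀ _ hK.ne'

end Pool.Agent.H963.CJ
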