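import Pool.Agent.H963.CJ.DegDef

/-!
# A map of nonzero degree has a zero (A7; written by helper97)
-/

set_option autoImplicit false

open MeasureTheory Set Filter Topology Metric

namespace Pool.Agent.H963.CJ

universe u

namespace DA7

lemma cnt_eq_zero {V : Type*} [NormedAddCommGroup V] [NormedSpace ℝ V] {Ψ : V → V} {Ω : Set V}
    (h : ∀ x ∈ Ω, Ψ x ≠ 0) : cnt Ψ Ω = 0 := by
  unfold cnt
  have h1 : {x | x ∈ Ω ∧ Ψ x = 0} = ∅ := by
    ext x
    simp only [mem_ofPred_eq, mem_empty_iff_false, iff_false, not_and]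
    exact h x
  rw [h1]
  exact finsum_mem_empty

lemma exists_equiv {X Y : Type*} [NormedAddCommGroup X] [NormedSpace ℝ X]
    [NormedAddCommGroup Y] [NormedSpace ℝ Y] {Φ : X → Y} {Ω : Set X} (h : adeg Φ Ω ≠ 0) :
    Nonempty (X ≃L[ℝ] Y) := by
  by_contra hne
  refine h ?_
  unfold adeg
  rw [dif_neg]
  rintro ⟨d, e, -⟩
  exact hne ⟨e⟩

lemma exists_lower {X Y : Type*} [NormedAddCommGroup X] [NormedSpace ℝ X] [FiniteDimensional ℝ X]
    [NormedAddCommGroup Y] [NormedSpace ℝ Y] {Φ : X → Y} {K : Set X} (hK : IsCompact K)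
    (hc : ContinuousOn Φ K) (h : ∀ x ∈ K, Φ x ≠ 0) : ∃ m > 0, ∀ x ∈ K, m ≤ ‖Φ x‖ := by
  rcases K.eq_empty_or_nonempty with h0 | h0
  · exact ⟨1, one_pos, fun x hx => by rw [h0] at hx; exact hx.elim⟩
  · obtain ⟨a, ha, hmin⟩ := hK.exists_isMinOn h0 hc.norm
    exact ⟨‖Φ a‖, norm_pos_iff.2 (h a ha), fun x hx => hmin hx⟩

end DA7

open DA7

theorem t_A7 (hD : S_DEG.{u}) : S_A7.{u} := by
  intro X Y _ _ _ _ _ _ Φ Ω hA hdeg
  by_contra hz
  push Not at hz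
  obtain ⟨e⟩ := exists_equiv hdeg
  obtain ⟨⟨ε, hε, h1⟩, h2⟩ := hD X Y Φ Ω hA e
  have hK : IsCompact (closure Ω) := hA.bd.isCompact_closure
  have hnz : ∀ x ∈ closure Ω, Φ x ≠ 0 := by
    intro x hx
    by_cases hxΩ : x ∈ Ω
    · exact hz x hxΩ
    · refine hA.nz x ⟨hx, ?_⟩
      rwa [hA.op.interior_eq]
  obtain ⟨m, hm, hlow⟩ := exists_lower hK hA.cont hnz
  obtain ⟨Ψ, hΨ, hclose⟩ := h2 (min ε m) (lt_min hε hm)
  have h3 := h1 Ψ hΨ fun x hx => (hclose x hx).trans_le (min_le_left _ _)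
  have h4 : ∀ x ∈ Ω, Ψ x ≠ 0 := by
    intro x hx h0
    have hx' := subset_closure hx
    have h5 := (hclose x hx').trans_le (min_le_right _ _)
    rw [h0, map_zero, zero_sub, norm_neg] at h5
    exact absurd (hlow x hx') (not_le.2 h5)
  rw [cnt_eq_zero h4, Int.natAbs_zero] at h3
  exact hdeg h3.symm

end Pool.Agent.H963.CJ
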