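import Pool.Agent.H963.CJ.DegDef

set_option autoImplicit false

open MeasureTheory Set Filter Topology Metric
open scoped ContDiff

namespace Pool.Agent.H963.CJ

universe u

namespace DCNTHOM

theorem integral_pos {V : Type*} [NormedAddCommGroup V] [NormedSpace ℝ V] [FiniteDimensional ℝ V]
    [MeasurableSpace V] [BorelSpace V] (μ : Measure V) [μ.IsAddHaarMeasure]
    (Θ : V → V) (hΘ : ContDiff ℝ 1 Θ) (hΘ0 : ∀ y, 0 ≤ (fderiv ℝ Θ y).det)
    (η : ℝ) (hΘη : ∀ y, η ≤ ‖y‖ → (fderiv ℝ Θ y).det = 0) (hΘp : 0 < (fderiv ℝ Θ 0).det) :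
    0 < ∫ y, (fderiv ℝ Θ y).det ∂μ := by
  have hc : Continuous fun y => (fderiv ℝ Θ y).det :=
    ContinuousLinearMap.continuous_det.comp (hΘ.continuous_fderiv (by norm_num))
  refine hc.integral_pos_of_hasCompactSupport_nonneg_nonzero ?_ hΘ0 hΘp.ne'
  apply HasCompactSupport.of_support_subset_isCompact (isCompact_closedBall (0 : V) η)
  intro y hy
  by_contra hcon
  apply hy
  apply hΘη
  rw [mem_closedBall, dist_zero_right, not_le] at hcon
  exact hcon.le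

end DCNTHOM

open Pool.Agent.H244.Deg in
theorem t_CNTHOM (hI : S_CNTINT.{u}) : S_CNTHOM.{u} := by
  intro V _ _ _ Ψ₀ Ψ₁ Ω hΩ hb h0 h1 hadm
  rcases Nat.eq_zero_or_pos (Module.finrank ℝ V) with hN | hN
  · have : Subsingleton V := Module.finrank_zero_iff.mp hN
    have h : Ψ₀ = Ψ₁ := funext fun x => Subsingleton.elim _ _
    rw [h]
  let _ : MeasurableSpace V := borel V
  have : BorelSpace V := ⟨rfl⟩
  let μ : Measure V := Measure.addHaar
  have c0 := h0.smooth.continuous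
  have c1 := h1.smooth.continuous
  have hfc : IsCompact (frontier Ω) := hb.isCompact_closure.of_isClosed_subset isClosed_frontier
    frontier_subset_closure
  obtain ⟨η₀, hη₀, hη₀'⟩ := pos_away (hfc.prod (isCompact_Icc (a := (0 : ℝ)) (b := 1)))
    (Φ := fun p : V × ℝ => Ψ₀ p.1 + p.2 • (Ψ₁ p.1 - Ψ₀ p.1)) (by fun_prop)
    (fun p hp => hadm p.1 hp.1 p.2 hp.2)
  have hf0 : ∀ x ∈ frontier Ω, Ψ₀ x ≠ 0 := fun x hx => by
    have := hadm x hx 0 (by simp)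
    simpa using this
  have hf1 : ∀ x ∈ frontier Ω, Ψ₁ x ≠ 0 := fun x hx => by
    have := hadm x hx 1 (by simp)
    simpa using this
  obtain ⟨-, η₁, hη₁, H0⟩ := hI V μ Ψ₀ Ω hΩ hb h0 hf0
  obtain ⟨-, η₂, hη₂, H1⟩ := hI V μ Ψ₁ Ω hΩ hb h1 hf1
  set η := min η₀ (min η₁ η₂) with hηdef
  have hη : 0 < η := by
    rw [hηdef, lt_min_iff, lt_min_iff]
    exact ⟨hη₀, hη₁, hη₂⟩
  have l0 : η ≤ η₀ := min_le_left _ _
  have l1 : η ≤ η₁ := (min_le_right _ _).trans (min_le_left _ _)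
  have l2 : η ≤ η₂ := (min_le_right _ _).trans (min_le_right _ _)
  obtain ⟨Θ, hΘ, hΘ0, hΘη, hΘp⟩ := exists_theta (V := V) hη
  have hinv := hom_inv μ hN hΩ hb h0.smooth h1.smooth (η := η)
    (fun x hx t ht => lt_of_le_of_lt l0 (hη₀' (x, t) ⟨hx, ht⟩)) hΘ hΘη
  rw [H0 η hη l1 Θ hΘ hΘη, H1 η hη l2 Θ hΘ hΘη] at hinv
  have hJp := DCNTHOM.integral_pos μ Θ hΘ hΘ0 η hΘη hΘp
  have := mul_right_cancel₀ hJp.ne' hinv
  exact_mod_cast this

end Pool.Agent.H963.CJ
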