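import Pool.Agent.H963.CJ.DegDef

/-!
# The signed number of the zeros as an integral (CNTINT; written by helper97)
-/

set_option autoImplicit false
set_option linter.unusedSectionVars false

open MeasureTheory Set Filter Topology Metric

namespace Pool.Agent.H963.CJ

universe u

namespace DCNTINT

variable {V : Type*} [NormedAddCommGroup V] [NormedSpace ℝ V] [FiniteDimensional ℝ V]

/-- a `C¹` map is injective near a nondegenerate point -/
lemma inj_near {Φ : V → V} (hΦ : ContDiff ℝ 1 Φ) {a : V} (hd : (fderiv ℝ Φ a).det ≠ 0) :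
    ∃ U ∈ 𝓝 a, InjOn Φ U := by
  have hker : LinearMap.ker (fderiv ℝ Φ a : V →ₗ[ℝ] V) = ⊥ := by
    by_contra hne
    have : ¬ IsUnit (LinearMap.det (fderiv ℝ Φ a : V →ₗ[ℝ] V)) → False := fun h => h
      (isUnit_iff_ne_zero.mpr hd)
    have h2 : IsUnit (fderiv ℝ Φ a : V →ₗ[ℝ] V) := by
      by_contra h3
      exact this fun h4 => h3 ((LinearMap.isUnit_iff_isUnit_det _).mpr h4)
    have h3 := (LinearMap.isUnit_iff_ker_eq_bot _).mp h2
    exact hne h3
  set e := ContinuousLinearEquiv.ofBijective (fderiv ℝ Φ a) hker (by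
    rw [LinearMap.range_eq_top]
    exact LinearMap.injective_iff_surjective.mp (LinearMap.ker_eq_bot.mp hker)) with he
  have hst : HasStrictFDerivAt Φ (e : V →L[ℝ] V) a := by
    have h1 := (hΦ.contDiffAt (x := a)).hasStrictFDerivAt (by norm_num)
    have h2 : (e : V →L[ℝ] V) = fderiv ℝ Φ a := by
      ext v; rfl
    rw [h2]; exact h1
  set P := hst.toOpenPartialHomeomorph Φ with hP
  have hPa : a ∈ P.source := hst.mem_toOpenPartialHomeomorph_source
  exact ⟨P.source, P.open_source.mem_nhds hPa, P.injOn⟩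

lemma sign_cast (d : ℝ) (hd : d ≠ 0) : (((SignType.sign d : SignType) : ℤ) : ℝ) = d / |d| := by
  rcases lt_or_gt_of_ne hd with h | h
  · rw [sign_neg h, abs_of_neg h, div_neg, div_self hd]
    simp
  · rw [sign_pos h, abs_of_pos h, div_self hd]
    simp

end DCNTINT

open DCNTINT

theorem t_CNTINT : S_CNTINT.{u} := by
  intro V _ _ _ _ _ μ _ Ψ Ω hΩ hb hreg hfr
  classical
  have c1 : Continuous Ψ := hreg.smooth.continuous
  have cd : Continuous fun x => (fderiv ℝ Ψ x).det :=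
    ContinuousLinearMap.continuous_det.comp (hreg.smooth.continuous_fderiv (by norm_num))
  have hcl : ∀ x ∈ closure Ω, Ψ x = 0 → x ∈ Ω := by
    intro x hx h0
    by_contra hxΩ
    refine hfr x ?_ h0
    rw [hΩ.frontier_eq]
    exact ⟨hx, hxΩ⟩
  -- finiteness
  have hZc : IsCompact (closure Ω ∩ {x | Ψ x = 0}) :=
    hb.isCompact_closure.inter_right (isClosed_eq c1 continuous_const)
  have hfin : {x | x ∈ Ω ∧ Ψ x = 0}.Finite := by
    have h1 : ∀ x ∈ closure Ω ∩ {x | Ψ x = 0}, ∃ U ∈ 𝓝 x, InjOn Ψ U := fun x hx =>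
      inj_near hreg.smooth (hreg.nd x hx.1 hx.2)
    choose! U hU hUi using h1
    obtain ⟨t, ht, hcov⟩ := hZc.elim_nhds_subcover U hU
    refine t.finite_toSet.subset fun x hx => ?_
    have hx' : x ∈ closure Ω ∩ {x | Ψ x = 0} := ⟨subset_closure hx.1, hx.2⟩
    obtain ⟨y, hy, hxy⟩ := mem_iUnion₂.1 (hcov hx')
    have hy' := ht y hy
    have h2 : x = y := hUi y hy' hxy (mem_of_mem_nhds (hU y hy')) (hx.2.trans hy'.2.symm)
    rw [h2]
    exact hy
  refine ⟨hfin, ?_⟩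
  set Z : Set V := {x | x ∈ Ω ∧ Ψ x = 0} with hZ
  obtain ⟨S, hS, hSd⟩ := hfin.t2_separation
  have hloc : ∀ x ∈ Z, ∃ W ⊆ (Ω ∩ {y | 0 < (fderiv ℝ Ψ x).det * (fderiv ℝ Ψ y).det}) ∩ S x,
      IsOpen W ∧ x ∈ W ∧ ∃ η > 0, ∀ ρ : V → ℝ, (∀ y, η ≤ ‖y‖ → ρ y = 0) →
      ∫ x in W, |(fderiv ℝ Ψ x).det| * ρ (Ψ x) ∂μ = ∫ y, ρ y ∂μ := by
    intro x hx
    have hd := hreg.nd x (subset_closure hx.1) hx.2
    refine Pool.Agent.H244.Deg.local_zero μ hreg.smooth hx.2 hd ?_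
    refine Filter.inter_mem (Filter.inter_mem (hΩ.mem_nhds hx.1) ?_) ((hS x).2.mem_nhds (hS x).1)
    refine (isOpen_lt continuous_const (continuous_const.mul cd)).mem_nhds ?_
    show 0 < (fderiv ℝ Ψ x).det * (fderiv ℝ Ψ x).det
    exact mul_self_pos.mpr hd
  choose! W hWU hWo hxW η hη hWint using hloc
  -- away from the zeros
  have hC : IsCompact (closure Ω \ ⋃ x ∈ Z, W x) :=
    hb.isCompact_closure.diff (isOpen_biUnion hWo)
  obtain ⟨η', hη', hlow⟩ := Pool.Agent.H244.Deg.pos_away hC c1 (fun x hx h0 =>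
    hx.2 (mem_iUnion₂.2 ⟨x, ⟨hcl x hx.1 h0, h0⟩, hxW x ⟨hcl x hx.1 h0, h0⟩⟩))
  have hev : ∀ᶠ r in 𝓝[>] (0 : ℝ), (0 < r ∧ r ≤ η') ∧ ∀ x ∈ Z, r ≤ η x := by
    refine Filter.Eventually.and (Ioc_mem_nhdsGT hη') ?_
    rw [Filter.eventually_all_finite hfin]
    intro x hx
    filter_upwards [Ioc_mem_nhdsGT (hη x hx)] with r hr
    exact hr.2
  obtain ⟨η₀, ⟨hη₀, hη₀'⟩, hη₀x⟩ := hev.exists
  refine ⟨η₀, hη₀, ?_⟩
  intro r hr hrle Θ hΘ hΘ0
  have cΘ : Continuous fun x => (fderiv ℝ Θ x).det :=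
    ContinuousLinearMap.continuous_det.comp (hΘ.continuous_fderiv (by norm_num))
  have hfc : Continuous fun x => (fderiv ℝ Θ (Ψ x)).det * (fderiv ℝ Ψ x).det :=
    (cΘ.comp c1).mul cd
  have hint : IntegrableOn (fun x => (fderiv ℝ Θ (Ψ x)).det * (fderiv ℝ Ψ x).det) Ω μ :=
    (hfc.continuousOn.integrableOn_compact hb.isCompact_closure).mono_set subset_closure
  have hsub : ⋃ x ∈ hfin.toFinset, W x ⊆ Ω := by
    intro y hy
    obtain ⟨x, hx, hyx⟩ := mem_iUnion₂.1 hy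
    exact (hWU x (hfin.mem_toFinset.1 hx) hyx).1.1
  rw [setIntegral_eq_of_subset_of_forall_sdiff_eq_zero hΩ.measurableSet hsub (fun x hx => ?_),
    integral_biUnion_finset, cnt, finsum_mem_eq_finite_toFinset_sum _ hfin, Int.cast_sum,
    Finset.sum_mul]
  · refine Finset.sum_congr rfl fun x hx => ?_
    have hxZ : x ∈ Z := hfin.mem_toFinset.1 hx
    have hd := hreg.nd x (subset_closure hxZ.1) hxZ.2
    rw [sign_cast _ hd, ← hWint x hxZ (fun y => (fderiv ℝ Θ y).det)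
      (fun y hy => hΘ0 y ((hrle.trans (hη₀x x hxZ)).trans hy)), ← integral_const_mul]
    refine setIntegral_congr_fun (hWo x hxZ).measurableSet fun y hy => ?_
    show (fderiv ℝ Θ (Ψ y)).det * (fderiv ℝ Ψ y).det =
        (fderiv ℝ Ψ x).det / |(fderiv ℝ Ψ x).det| *
          (|(fderiv ℝ Ψ y).det| * (fderiv ℝ Θ (Ψ y)).det)
    have h1 := Pool.Agent.H244.Deg.sgn_lemma (hWU x hxZ hy).1.2
    conv_lhs => rw [h1]
    ring
  · intro x hx
    exact (hWo x (hfin.mem_toFinset.1 hx)).measurableSet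
  · intro x hx y hy hxy
    exact (hSd (hfin.mem_toFinset.1 hx) (hfin.mem_toFinset.1 hy) hxy).mono
      (fun z hz => (hWU x (hfin.mem_toFinset.1 hx) hz).2)
      (fun z hz => (hWU y (hfin.mem_toFinset.1 hy) hz).2)
  · intro x hx
    exact hint.mono_set fun y hy => (hWU x (hfin.mem_toFinset.1 hx) hy).1.1
  · have h1 : x ∈ closure Ω \ ⋃ x ∈ Z, W x := by
      refine ⟨subset_closure hx.1, fun h => hx.2 ?_⟩
      obtain ⟨y, hy, hxy⟩ := mem_iUnion₂.1 h
      exact mem_iUnion₂.2 ⟨y, hfin.mem_toFinset.2 hy, hxy⟩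
    rw [hΘ0 _ ((hrle.trans hη₀').trans (hlow x h1).le), zero_mul]

end Pool.Agent.H963.CJ
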