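import Pool.Agent.H963.CJ.DegDef

/-!
# The absolute degree is well defined
-/

set_option autoImplicit false
set_option linter.unusedSectionVars false

open MeasureTheory Set Filter Topology Metric
open scoped ContDiff

namespace Pool.Agent.H963.CJ

universe u

namespace DDEG

variable {X Y : Type u} [NormedAddCommGroup X] [NormedSpace ℝ X] [FiniteDimensional ℝ X]
  [NormedAddCommGroup Y] [NormedSpace ℝ Y] [FiniteDimensional ℝ Y]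

theorem compact_closure {Φ : X → Y} {Ω : Set X} (h : Adm Φ Ω) : IsCompact (closure Ω) :=
  h.bd.isCompact_closure

/-- a lower bound on the frontier -/
theorem exists_lower {Φ : X → Y} {Ω : Set X} (h : Adm Φ Ω) :
    ∃ m : ℝ, 0 < m ∧ ∀ x ∈ frontier Ω, m ≤ ‖Φ x‖ := by
  have hc : IsCompact (frontier Ω) :=
    (compact_closure h).of_isClosed_subset isClosed_frontier frontier_subset_closure
  have hcont : ContinuousOn (fun x => ‖Φ x‖) (frontier Ω) :=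
    (h.cont.mono frontier_subset_closure).norm
  exact hc.exists_forall_le' hcont fun x hx => norm_pos_iff.2 (h.nz x hx)

/-- regular approximations exist -/
theorem exists_reg (hA : S_APX.{u}) (hS : S_SARD.{u}) {Φ : X → Y} {Ω : Set X} (h : Adm Φ Ω)
    (e : X ≃L[ℝ] Y) {ε : ℝ} (hε : 0 < ε) :
    ∃ Ψ : X → X, Reg Ψ Ω ∧ ∀ x ∈ closure Ω, ‖e (Ψ x) - Φ x‖ < ε := by
  obtain ⟨c, hc⟩ : ∃ c : ℝ, c = ‖(e : X →L[ℝ] Y)‖ + 1 := ⟨_, rfl⟩
  have hc1 : ‖(e : X →L[ℝ] Y)‖ < c := by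
    rw [hc]
    exact lt_add_one _
  have hc0 : 0 < c := lt_of_le_of_lt (norm_nonneg _) hc1
  obtain ⟨δ, hδ⟩ : ∃ δ : ℝ, δ = ε / (2 * c) := ⟨_, rfl⟩
  have hδ0 : 0 < δ := by
    rw [hδ]
    positivity
  obtain ⟨Ψ₁, hΨ₁, hΨ₁'⟩ := hA X X (closure Ω) (fun x => e.symm (Φ x)) (compact_closure h)
    (e.symm.continuous.comp_continuousOn h.cont) δ hδ0
  obtain ⟨y, hy, hreg⟩ := hS X Ψ₁ Ω hΨ₁ δ hδ0
  refine ⟨fun x => Ψ₁ x - y, hreg, fun x hx => ?_⟩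
  have h1 := hΨ₁' x hx
  have h2 : e (Ψ₁ x - y) - Φ x = (e : X →L[ℝ] Y) ((Ψ₁ x - e.symm (Φ x)) - y) := by
    show e (Ψ₁ x - y) - Φ x = e ((Ψ₁ x - e.symm (Φ x)) - y)
    rw [map_sub, map_sub, map_sub, e.apply_symm_apply]
    abel
  rw [h2]
  have h3 : ‖(Ψ₁ x - e.symm (Φ x)) - y‖ < 2 * δ := by
    have := norm_sub_le (Ψ₁ x - e.symm (Φ x)) y
    linarith
  calc ‖(e : X →L[ℝ] Y) ((Ψ₁ x - e.symm (Φ x)) - y)‖
      ≤ ‖(e : X →L[ℝ] Y)‖ * ‖(Ψ₁ x - e.symm (Φ x)) - y‖ := ContinuousLinearMap.le_opNorm _ _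
    _ ≤ c * ‖(Ψ₁ x - e.symm (Φ x)) - y‖ := mul_le_mul_of_nonneg_right hc1.le (norm_nonneg _)
    _ < c * (2 * δ) := mul_lt_mul_of_pos_left h3 hc0
    _ = ε := by
        rw [hδ]
        field_simp

/-- close regular maps have the same count -/
theorem cnt_eq (hC : S_CNTHOM.{u}) {Φ : X → Y} {Ω : Set X} (h : Adm Φ Ω) (e : X ≃L[ℝ] Y) {m : ℝ}
    (hm : ∀ x ∈ frontier Ω, m ≤ ‖Φ x‖) {Ψ₀ Ψ₁ : X → X} (h0 : Reg Ψ₀ Ω) (h1 : Reg Ψ₁ Ω)
    (h0' : ∀ x ∈ closure Ω, ‖e (Ψ₀ x) - Φ x‖ < m) (h1' : ∀ x ∈ closure Ω, ‖e (Ψ₁ x) - Φ x‖ < m) :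
    cnt Ψ₀ Ω = cnt Ψ₁ Ω := by
  refine hC X Ψ₀ Ψ₁ Ω h.op h.bd h0 h1 fun x hx t ht hzero => ?_
  have hxc := frontier_subset_closure hx
  have a0 := h0' x hxc
  have a1 := h1' x hxc
  have am := hm x hx
  have e1 : e (Ψ₀ x + t • (Ψ₁ x - Ψ₀ x)) = 0 := by rw [hzero, map_zero]
  rw [map_add, map_smul, map_sub] at e1
  have e2 : -Φ x = (1 - t) • (e (Ψ₀ x) - Φ x) + t • (e (Ψ₁ x) - Φ x) := by
    have : (1 - t) • (e (Ψ₀ x) - Φ x) + t • (e (Ψ₁ x) - Φ x) =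
        (e (Ψ₀ x) + t • (e (Ψ₁ x) - e (Ψ₀ x))) - Φ x := by
      module
    rw [this, e1, zero_sub]
  have e3 : ‖Φ x‖ < m := by
    rw [← norm_neg, e2]
    have t0 := ht.1
    have t1 := ht.2
    have e4 : ‖(1 - t) • (e (Ψ₀ x) - Φ x) + t • (e (Ψ₁ x) - Φ x)‖ ≤
        (1 - t) * ‖e (Ψ₀ x) - Φ x‖ + t * ‖e (Ψ₁ x) - Φ x‖ := by
      refine (norm_add_le _ _).trans (le_of_eq ?_)
      rw [norm_smul, norm_smul, Real.norm_eq_abs, Real.norm_eq_abs, abs_of_nonneg t0,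
        abs_of_nonneg (by linarith : 0 ≤ 1 - t)]
    refine e4.trans_lt ?_
    rcases eq_or_lt_of_le t0 with ht0 | ht0
    · rw [← ht0]
      linarith
    · nlinarith [mul_lt_mul_of_pos_left a1 ht0,
        mul_le_mul_of_nonneg_left a0.le (by linarith : 0 ≤ 1 - t)]
  linarith

/-- linear changes of coordinates in the target -/
theorem reg_comp {Ψ : X → X} {Ω : Set X} (h : Reg Ψ Ω) (A : X ≃L[ℝ] X) :
    Reg (fun x => A (Ψ x)) Ω ∧ (cnt (fun x => A (Ψ x)) Ω).natAbs = (cnt Ψ Ω).natAbs := by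
  obtain ⟨D, hD⟩ : ∃ D : ℝ, D = (A : X →L[ℝ] X).det := ⟨_, rfl⟩
  have hD0 : D ≠ 0 := by
    rw [hD]
    exact (LinearEquiv.isUnit_det' A.toLinearEquiv).ne_zero
  have hdet : ∀ x, (fderiv ℝ (fun x => A (Ψ x)) x).det = D * (fderiv ℝ Ψ x).det := by
    intro x
    have h1 : fderiv ℝ (fun x => A (Ψ x)) x = (A : X →L[ℝ] X).comp (fderiv ℝ Ψ x) :=
      A.comp_fderiv
    rw [h1, hD]
    exact LinearMap.det_comp _ _
  have hz : ∀ x, A (Ψ x) = 0 ↔ Ψ x = 0 := fun x => A.map_eq_zero_iff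
  refine ⟨⟨A.contDiff.comp h.smooth, fun x hx hx0 => ?_⟩, ?_⟩
  · rw [hdet]
    exact mul_ne_zero hD0 (h.nd x hx ((hz x).1 hx0))
  · have hcnt : cnt (fun x => A (Ψ x)) Ω = ((SignType.sign D : SignType) : ℤ) • cnt Ψ Ω := by
      unfold cnt
      rw [smul_finsum]
      refine finsum_congr fun x => ?_
      rw [smul_finsum]
      have hset : (x ∈ {x | x ∈ Ω ∧ A (Ψ x) = 0}) = (x ∈ {x | x ∈ Ω ∧ Ψ x = 0}) := by
        simp only [mem_ofPred_eq, hz]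
      rw [finsum_congr_Prop hset fun _ => rfl]
      refine finsum_congr fun _ => ?_
      rw [hdet, sign_mul, smul_eq_mul]
      push_cast
      rfl
    rw [hcnt, smul_eq_mul, Int.natAbs_mul]
    rcases lt_or_gt_of_ne hD0 with hneg | hpos
    · rw [sign_neg hneg]
      simp
    · rw [sign_pos hpos]
      simp

end DDEG

theorem t_DEG (hA : S_APX.{u}) (hS : S_SARD.{u}) (hC : S_CNTHOM.{u}) : S_DEG.{u} := by
  intro X Y _ _ _ _ _ _ Φ Ω hadm e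
  refine ⟨?_, fun ε hε => DDEG.exists_reg hA hS hadm e hε⟩
  obtain ⟨m, hm0, hm⟩ := DDEG.exists_lower hadm
  have hex : ∃ d, HasDeg Φ Ω d := by
    obtain ⟨Ψ₀, h0, h0'⟩ := DDEG.exists_reg hA hS hadm e hm0
    exact ⟨(cnt Ψ₀ Ω).natAbs, e, m, hm0, fun Ψ hΨ hΨ' => by
      rw [DDEG.cnt_eq hC hadm e hm hΨ h0 hΨ' h0']⟩
  have hdeg : HasDeg Φ Ω (adeg Φ Ω) := by
    unfold adeg
    rw [dif_pos hex]
    exact Classical.choose_spec hex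
  obtain ⟨e', ε', hε', hdeg'⟩ := hdeg
  refine ⟨m, hm0, fun Ψ hΨ hΨ' => ?_⟩
  obtain ⟨Ψ₂, h2, h2'⟩ := DDEG.exists_reg hA hS hadm e' (lt_min hε' hm0)
  have k1 := hdeg' Ψ₂ h2 fun x hx => (h2' x hx).trans_le (min_le_left _ _)
  obtain ⟨k2, k3⟩ := DDEG.reg_comp hΨ (e.trans e'.symm)
  have k4 : cnt (fun x => (e.trans e'.symm) (Ψ x)) Ω = cnt Ψ₂ Ω := by
    refine DDEG.cnt_eq hC hadm e' hm k2 h2 (fun x hx => ?_)
      fun x hx => (h2' x hx).trans_le (min_le_right _ _)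
    rw [ContinuousLinearEquiv.trans_apply, e'.apply_symm_apply]
    exact hΨ' x hx
  rw [← k3, k4, k1]

end Pool.Agent.H963.CJ
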