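import Pool.Agent.H963.CJ.DegDef

/-!
# SARD: after a small translation the zeros of a `C¹` map are nondegenerate
-/

set_option autoImplicit false

open MeasureTheory Set Filter Topology Metric
open scoped ContDiff

namespace Pool.Agent.H963.CJ

universe u

namespace DSARD

/-- a measure-zero set misses a point of every ball around `0` -/
theorem exists_notMem {V : Type*} [NormedAddCommGroup V] [NormedSpace ℝ V] [FiniteDimensional ℝ V]
    [MeasurableSpace V] [BorelSpace V] (s : Set V) (hs : (Measure.addHaar : Measure V) s = 0) {δ : ℝ} (hδ : 0 < δ) :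
    ∃ y : V, ‖y‖ < δ ∧ y ∉ s := by
  by_contra hne
  push Not at hne
  have h1 : ball (0 : V) δ ⊆ s := fun y hy => hne y (by simpa using hy)
  have h2 : (0 : ENNReal) < (Measure.addHaar : Measure V) (ball (0 : V) δ) := measure_ball_pos _ _ hδ
  exact absurd (lt_of_lt_of_le h2 (measure_mono h1)) (by rw [hs]; exact lt_irrefl _)

end DSARD

theorem t_SARD : S_SARD.{u} := by
  intro V _ _ _ Ψ Ω hΨ δ hδ
  let _ : MeasurableSpace V := borel V
  have : BorelSpace V := ⟨rfl⟩
  have h0 : (Measure.addHaar : Measure V) (Ψ '' {x | (fderiv ℝ Ψ x).det = 0}) = 0 :=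
    addHaar_image_eq_zero_of_det_fderivWithin_eq_zero _
      (f' := fun x => fderiv ℝ Ψ x)
      (fun x _ => ((hΨ.differentiable one_ne_zero) x).hasFDerivAt.hasFDerivWithinAt) fun x hx => hx
  obtain ⟨y, hy, hys⟩ := DSARD.exists_notMem _ h0 hδ
  refine ⟨y, hy, hΨ.sub contDiff_const, fun x _ hx hdet => hys ⟨x, ?_, ?_⟩⟩
  · rw [fderiv_sub_const] at hdet
    exact hdet
  · exact sub_eq_zero.mp hx

end Pool.Agent.H963.CJ
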