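import Pool.Agent.H963.CJ.MDef

/-!
# C2: orbit segments starting in the unstable and ending in the stable cone (by helper894)
-/

set_option autoImplicit false
set_option linter.unusedSectionVars false

open Set Filter Topology Metric
open scoped Manifold ContDiff

namespace Pool.Agent.H963.CJ

open Pool.Agent.H721R2 Pool.Agent.H789R2.AN Pool.Agent.TH289 Pool.Agent.H244.Dyn
  Pool.Agent.H244.Loc

universe u v w

namespace MC2

section trans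

variable {E : Type*} [NormedAddCommGroup E] [NormedSpace ℝ E] [FiniteDimensional ℝ E]
  {M : Type*} [MetricSpace M] [CompactSpace M] [ChartedSpace E M] [IsManifold 𝓘(ℝ, E) 1 M]
  {F : Type*} [NormedAddCommGroup F] [NormedSpace ℝ F]
  {e : M → F} (he : ContMDiff 𝓘(ℝ, E) 𝓘(ℝ, F) 1 e) (hinj : ∀ x, Function.Injective (dm E e x))
  {t : Finset M} {ρ : M → ℝ} {R ρ₀ : ℝ} (hG : GCh E t ρ R ρ₀)

include he hinj hG

theorem A_bd {j : M} (hj : j ∈ t) : ∃ L : ℝ, 0 ≤ L ∧ ∀ z, dist z j ≤ 2 * ρ j → ∀ w : E,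
    ‖w‖ ≤ L * ‖fderiv ℝ (hatMap e j) (extChartAt 𝓘(ℝ, E) j z) w‖ ∧
    ‖fderiv ℝ (hatMap e j) (extChartAt 𝓘(ℝ, E) j z) w‖ ≤ L * ‖w‖ := by
  have hsub : closedBall j (2 * ρ j) ⊆ (extChartAt 𝓘(ℝ, E) j).source := fun z hz =>
    hG.src j hj z hz
  set s : Set E := extChartAt 𝓘(ℝ, E) j '' closedBall j (2 * ρ j) with hs
  have hst : s ⊆ (extChartAt 𝓘(ℝ, E) j).target := by
    rintro _ ⟨z, hz, rfl⟩
    exact (extChartAt 𝓘(ℝ, E) j).map_source (hsub hz)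
  have hc : IsCompact s := by
    refine (isClosed_closedBall.isCompact).image_of_continuousOn ?_
    exact (continuousOn_extChartAt j).mono hsub
  obtain ⟨m, hm0, hm⟩ := A_low he hinj hst hc
  obtain ⟨B, hB⟩ := hc.exists_bound_of_continuousOn (A_cont he hst)
  refine ⟨max m |B|, le_max_of_le_left hm0, fun z hz w => ?_⟩
  have hy : extChartAt 𝓘(ℝ, E) j z ∈ s := ⟨z, hz, rfl⟩
  constructor
  · exact (hm _ hy w).trans (mul_le_mul_of_nonneg_right (le_max_left _ _) (norm_nonneg _))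
  · refine (ContinuousLinearMap.le_opNorm _ w).trans ?_
    exact mul_le_mul_of_nonneg_right (((hB _ hy).trans (le_abs_self B)).trans (le_max_right _ _))
      (norm_nonneg _)

/-- the transition maps -/
theorem trans_D {j z j' : M} (hj : Gw t ρ j z) (hj' : Gw t ρ j' z) (v : E) :
    fderiv ℝ (rep id j j') (extChartAt 𝓘(ℝ, E) j z) (dm E (extChartAt 𝓘(ℝ, E) j) z v) =
      dm E (extChartAt 𝓘(ℝ, E) j') z v := by
  have h1 := rep_fderiv (E := E) (G := (id : M → M)) contMDiff_id (j := j) (j' := j') (x := z)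
    (hG.src j hj.1 z hj.2) (hG.src j' hj'.1 z hj'.2) v
  rw [h1]
  congr 1
  show mfderiv 𝓘(ℝ, E) 𝓘(ℝ, E) id z v = v
  rw [mfderiv_id]
  rfl

theorem trans_bd : ∃ L : ℝ, 1 ≤ L ∧ ∀ j z j', Gw t ρ j z → Gw t ρ j' z → ∀ w : E,
    ‖fderiv ℝ (rep id j j') (extChartAt 𝓘(ℝ, E) j z) w‖ ≤ L * ‖w‖ ∧
    ‖w‖ ≤ L * ‖fderiv ℝ (rep id j j') (extChartAt 𝓘(ℝ, E) j z) w‖ := by
  have h1 : ∀ j : M, ∃ L : ℝ, 0 ≤ L ∧ (j ∈ t → ∀ z, dist z j ≤ 2 * ρ j → ∀ w : E,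
      ‖w‖ ≤ L * ‖fderiv ℝ (hatMap e j) (extChartAt 𝓘(ℝ, E) j z) w‖ ∧
      ‖fderiv ℝ (hatMap e j) (extChartAt 𝓘(ℝ, E) j z) w‖ ≤ L * ‖w‖) := by
    intro j
    by_cases hj : j ∈ t
    · obtain ⟨L, h0, h⟩ := A_bd he hinj hG hj
      exact ⟨L, h0, fun _ => h⟩
    · exact ⟨0, le_rfl, fun h => absurd h hj⟩
  choose L hL0 hL using h1
  obtain ⟨L₀, hL₀⟩ : ∃ L₀, L₀ = ∑ j ∈ t, L j := ⟨_, rfl⟩
  have hle : ∀ j ∈ t, L j ≤ L₀ := by
    intro j hj
    rw [hL₀]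
    exact Finset.single_le_sum (f := L) (fun i _ => hL0 i) hj
  have hL₀0 : 0 ≤ L₀ := by
    rw [hL₀]
    exact Finset.sum_nonneg fun i _ => hL0 i
  refine ⟨1 + L₀ * L₀, by nlinarith, fun j z j' hj hj' w => ?_⟩
  have hz : z ∈ (extChartAt 𝓘(ℝ, E) j).source := hG.src j hj.1 z hj.2
  have hz' : z ∈ (extChartAt 𝓘(ℝ, E) j').source := hG.src j' hj'.1 z hj'.2
  have hy := (extChartAt 𝓘(ℝ, E) j).map_source hz
  have hy' := (extChartAt 𝓘(ℝ, E) j').map_source hz'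
  obtain ⟨v, hv⟩ := exists_D he hinj hy w
  rw [(extChartAt 𝓘(ℝ, E) j).left_inv hz] at hv
  have e1 := A_D (e := e) he hy v
  rw [(extChartAt 𝓘(ℝ, E) j).left_inv hz, hv] at e1
  have e2 := A_D (e := e) he hy' v
  rw [(extChartAt 𝓘(ℝ, E) j').left_inv hz'] at e2
  have e3 := trans_D he hinj hG hj hj' v
  rw [hv] at e3
  rw [e3]
  obtain ⟨w', hw'⟩ : ∃ w', w' = dm E (extChartAt 𝓘(ℝ, E) j') z v := ⟨_, rfl⟩
  rw [← hw'] at e2 ⊢
  have a1 := hL j hj.1 z hj.2 w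
  have a2 := hL j' hj'.1 z hj'.2 w'
  rw [e1] at a1
  rw [e2] at a2
  have hn := norm_nonneg (dm E e z v)
  constructor
  · calc ‖w'‖ ≤ L j' * ‖dm E e z v‖ := a2.1
      _ ≤ L₀ * (L₀ * ‖w‖) := by
          refine mul_le_mul (hle j' hj'.1) (a1.2.trans ?_) hn hL₀0
          exact mul_le_mul_of_nonneg_right (hle j hj.1) (norm_nonneg _)
      _ ≤ (1 + L₀ * L₀) * ‖w‖ := by nlinarith [norm_nonneg w]
  · calc ‖w‖ ≤ L j * ‖dm E e z v‖ := a1.1
      _ ≤ L₀ * (L₀ * ‖w'‖) := by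
          refine mul_le_mul (hle j hj.1) (a2.2.trans ?_) hn hL₀0
          exact mul_le_mul_of_nonneg_right (hle j' hj'.1) (norm_nonneg _)
      _ ≤ (1 + L₀ * L₀) * ‖w'‖ := by nlinarith [norm_nonneg w']

theorem trans_P (π : M → E →L[ℝ] E) {j z j' : M} (hj : Gw t ρ j z) (hj' : Gw t ρ j' z) (w : E) :
    fderiv ℝ (rep id j j') (extChartAt 𝓘(ℝ, E) j z) (Pj π j (extChartAt 𝓘(ℝ, E) j z) w) =
      Pj π j' (extChartAt 𝓘(ℝ, E) j' z)
        (fderiv ℝ (rep id j j') (extChartAt 𝓘(ℝ, E) j z) w) := by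
  have hz : z ∈ (extChartAt 𝓘(ℝ, E) j).source := hG.src j hj.1 z hj.2
  have hz' : z ∈ (extChartAt 𝓘(ℝ, E) j').source := hG.src j' hj'.1 z hj'.2
  have hy := (extChartAt 𝓘(ℝ, E) j).map_source hz
  have hy' := (extChartAt 𝓘(ℝ, E) j').map_source hz'
  obtain ⟨v, hv⟩ := exists_D he hinj hy w
  have e1 := Pj_D he hinj π hy v
  rw [(extChartAt 𝓘(ℝ, E) j).left_inv hz] at hv e1
  have e2 := Pj_D he hinj π hy' v
  rw [(extChartAt 𝓘(ℝ, E) j').left_inv hz'] at e2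
  rw [← hv, e1, trans_D he hinj hG hj hj', trans_D he hinj hG hj hj', e2]

end trans

/-- the estimate for the change of the chart -/
theorem est {E : Type*} [NormedAddCommGroup E] [NormedSpace ℝ E] (D P P' : E →L[ℝ] E)
    (hDP : ∀ w, D (P w) = P' (D w)) {L K α ν : ℝ} (hL1 : 1 ≤ L) (hα : 0 ≤ α) (hν : 0 ≤ ν)
    (hD1 : ∀ w, ‖D w‖ ≤ L * ‖w‖) (hD2 : ∀ w, ‖w‖ ≤ L * ‖D w‖) (hP' : ‖P'‖ ≤ K)
    {v v' : E} (h1 : ‖v' - D v‖ ≤ ν * ‖v‖) (h2 : ‖v' - P' v'‖ ≤ α * ‖v'‖) :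
    ‖v - P v‖ ≤ (L * (α * (L + ν)) + L * ((1 + K) * ν)) * ‖v‖ := by
  have hv' : ‖v'‖ ≤ (L + ν) * ‖v‖ := by
    calc ‖v'‖ = ‖(v' - D v) + D v‖ := by rw [sub_add_cancel]
      _ ≤ ‖v' - D v‖ + ‖D v‖ := norm_add_le _ _
      _ ≤ ν * ‖v‖ + L * ‖v‖ := add_le_add h1 (hD1 v)
      _ = (L + ν) * ‖v‖ := by ring
  have h3 : D (v - P v) = (v' - P' v') - ((v' - D v) - P' (v' - D v)) := by
    rw [map_sub, hDP, map_sub]
    abel
  have h4 : ‖(v' - D v) - P' (v' - D v)‖ ≤ (1 + K) * (ν * ‖v‖) := by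
    have h5 : ‖P' (v' - D v)‖ ≤ K * (ν * ‖v‖) := by
      refine (P'.le_opNorm _).trans ?_
      exact mul_le_mul hP' h1 (norm_nonneg _) ((norm_nonneg _).trans hP')
    calc ‖(v' - D v) - P' (v' - D v)‖ ≤ ‖v' - D v‖ + ‖P' (v' - D v)‖ := norm_sub_le _ _
      _ ≤ ν * ‖v‖ + K * (ν * ‖v‖) := add_le_add h1 h5
      _ = _ := by ring
  have h6 : ‖D (v - P v)‖ ≤ α * ((L + ν) * ‖v‖) + (1 + K) * (ν * ‖v‖) := by
    rw [h3]
    refine (norm_sub_le _ _).trans (add_le_add (h2.trans ?_) h4)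
    exact mul_le_mul_of_nonneg_left hv' hα
  calc ‖v - P v‖ ≤ L * ‖D (v - P v)‖ := hD2 _
    _ ≤ L * (α * ((L + ν) * ‖v‖) + (1 + K) * (ν * ‖v‖)) :=
        mul_le_mul_of_nonneg_left h6 (by linarith)
    _ = _ := by ring

end MC2

open MC2 in
theorem t_C2 (hg : S_G2.{u}) (ha : S_M1a.{u, v, w}) (hc : S_M1c.{u, v}) : S_C2.{u, v, w} := by
  intro E _ _ _ M _ _ _ _ F _ _ e he hinj f Es Eu C a b Ls Lu hA π hπ t ρ R ρ₀ hG
  obtain ⟨K, l, hK, hl0, hl1, hGC⟩ := ha E M F e he hinj f Es Eu C a b Ls Lu hA π hπ t ρ R ρ₀ hG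
  obtain ⟨Cs, hCs, hG2⟩ := hg K l hK hl0 hl1
  obtain ⟨L, hL1, hL⟩ := trans_bd he hinj hG
  have hL0 : 0 < L := by linarith
  have hCs0 : 0 < Cs := by linarith
  have hK0 : 0 < 1 + K := by linarith
  -- the constants
  obtain ⟨ν, hν⟩ : ∃ ν : ℝ, ν = 1 / (8 * Cs * L * (1 + K)) := ⟨_, rfl⟩
  obtain ⟨α, hα⟩ : ∃ α : ℝ, α = 1 / (16 * Cs * L ^ 2) := ⟨_, rfl⟩
  have hν0 : 0 < ν := by rw [hν]; positivity
  have hα0 : 0 < α := by rw [hα]; positivity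
  have hν2 : L * ((1 + K) * ν) = 1 / (8 * Cs) := by
    rw [hν]
    field_simp
  have hν1 : ν ≤ 1 / (8 * Cs) := by
    rw [← hν2, ← mul_assoc]
    have h1 : 1 ≤ L * (1 + K) := by nlinarith
    nlinarith
  have hν3 : ν ≤ L := by
    have h1 : 1 / (8 * Cs) ≤ 1 := by
      rw [div_le_one (by positivity)]
      linarith
    linarith
  have hα1 : L * (α * (L + ν)) ≤ 1 / (8 * Cs) := by
    calc L * (α * (L + ν)) ≤ L * (α * (L + L)) := by gcongr
      _ = 1 / (8 * Cs) := by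
        rw [hα]
        field_simp
        ring
  have hα2 : α ≤ 1 / (8 * Cs) := by
    refine le_trans ?_ hα1
    have h1 : 1 ≤ L * (L + ν) := by nlinarith
    nlinarith
  obtain ⟨β, hβ⟩ : ∃ β : ℝ, β = 1 / (4 * Cs) := ⟨_, rfl⟩
  have hβ0 : 0 < β := by rw [hβ]; positivity
  have hβ2 : 1 / (8 * Cs) + 1 / (8 * Cs) = β := by
    rw [hβ]
    field_simp
    ring
  have hsum : Cs * (ν + β) ≤ 1 / 2 := by
    have h1 : Cs * (ν + β) ≤ Cs * (1 / (8 * Cs) + 1 / (4 * Cs)) := by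
      rw [← hβ]
      gcongr
    have h2 : Cs * (1 / (8 * Cs) + 1 / (4 * Cs)) = 3 / 8 := by
      field_simp
      norm_num
    linarith
  obtain ⟨r, hr, hM1⟩ := hc E M f hA.smooth t ρ R ρ₀ hG ν hν0
  obtain ⟨r', hr', hM2⟩ := hc E M id contMDiff_id t ρ R ρ₀ hG ν hν0
  obtain ⟨δ, hδ, hc1⟩ := hG.c1 (min r r') (lt_min hr hr')
  refine ⟨δ / 2, by positivity, α, hα0, ?_⟩
  intro N p q j j' hj hj' hclose h0 hN
  -- the charts
  have hex : ∀ i : ℕ, ∃ J : M, Gw t ρ J (f^[i] q) ∧ (i = 0 → J = j) := by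
    intro i
    rcases Nat.eq_zero_or_pos i with h | h
    · subst h
      exact ⟨j, hj, fun _ => rfl⟩
    · obtain ⟨J, hJ, hd⟩ := hG.cover (f^[i] q)
      refine ⟨J, ⟨hJ, ?_⟩, fun h' => absurd h' (by omega)⟩
      have h1 := hG.ρ₀_le J hJ
      have h2 := hG.ρ₀_pos
      linarith
  choose J hJ hJ0 using hex
  have hJ00 : J 0 = j := hJ0 0 rfl
  obtain ⟨c, hcdef⟩ : ∃ c : ℕ → E, c = fun i => extChartAt 𝓘(ℝ, E) (J i) (f^[i] q) := ⟨_, rfl⟩
  obtain ⟨x, hxdef⟩ : ∃ x : ℕ → E, x = fun i => extChartAt 𝓘(ℝ, E) (J i) (f^[i] p) := ⟨_, rfl⟩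
  have hci : ∀ i, c i = extChartAt 𝓘(ℝ, E) (J i) (f^[i] q) := fun i => by rw [hcdef]
  have hxi : ∀ i, x i = extChartAt 𝓘(ℝ, E) (J i) (f^[i] p) := fun i => by rw [hxdef]
  have hgc := hGC (fun i => f^[i] q) J (fun i => Function.iterate_succ_apply' f i q) hJ
  -- closeness
  have hcl : ∀ i ≤ N, f^[i] p ∈ (extChartAt 𝓘(ℝ, E) (J i)).source ∧ dist (x i) (c i) < min r r' := by
    intro i hi
    rw [hci, hxi]
    exact hc1 (J i) (hJ i).1 (f^[i] q) (hJ i).2 (f^[i] p) ((hclose i hi).trans_lt (by linarith))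
  -- the maximum
  obtain ⟨i₀, hi₀, hmax⟩ : ∃ i₀ ∈ Finset.range (N + 1), ∀ i ∈ Finset.range (N + 1),
      ‖x i - c i‖ ≤ ‖x i₀ - c i₀‖ :=
    Finset.exists_max_image _ _ ⟨0, Finset.mem_range.2 (Nat.succ_pos N)⟩
  obtain ⟨V, hV⟩ : ∃ V : ℝ, V = ‖x i₀ - c i₀‖ := ⟨_, rfl⟩
  rw [← hV] at hmax
  have hV0 : 0 ≤ V := by rw [hV]; exact norm_nonneg _
  have hVi : ∀ i ≤ N, ‖x i - c i‖ ≤ V := fun i hi => hmax i (Finset.mem_range.2 (by omega))
  have key := hG2 E _ _ hgc N c x (fun i => x (i + 1)) (fun _ => 0) (ν * V) (β * V)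
    (by positivity) (by positivity) (fun i _ => ⟨le_rfl, zero_le_one⟩) ?_
    (fun i _ => by rw [sub_zero, one_smul]) (fun i _ => by rw [sub_zero, one_smul]) ?_ ?_
  · -- conclusion
    have hi₀' : i₀ ≤ N := by
      have := Finset.mem_range.1 hi₀
      omega
    have h1 := key i₀ hi₀'
    rw [← hV] at h1
    have h2 : V ≤ 1 / 2 * V := by
      calc V ≤ Cs * (ν * V + β * V) := h1
        _ = Cs * (ν + β) * V := by ring
        _ ≤ 1 / 2 * V := mul_le_mul_of_nonneg_right hsum hV0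
    have h3 : V = 0 := by linarith
    have h4 : x 0 = c 0 := by
      have h5 := hVi 0 (Nat.zero_le N)
      rw [h3] at h5
      exact sub_eq_zero.1 (norm_le_zero_iff.1 h5)
    rw [hxi, hci] at h4
    have h5 := (hcl 0 (Nat.zero_le N)).1
    have h6 := hG.src (J 0) (hJ 0).1 _ (hJ 0).2
    have h7 : f^[0] p = f^[0] q := (extChartAt 𝓘(ℝ, E) (J 0)).injOn h5 h6 h4
    exact h7
  · -- the linear approximation
    intro i hi
    obtain ⟨hs, hd⟩ := hcl i hi.le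
    have h1 := hM1 (J i) (f^[i] q) (J (i + 1)) (hJ i)
      (by
        have h := hJ (i + 1)
        rwa [Function.iterate_succ_apply'] at h) (x i) (by
        rw [mem_closedBall, ← hci]
        exact (hd.trans_le (min_le_left _ _)).le)
    have h2 := h1.2.2
    rw [← hci] at h2
    have e1 : rep f (J i) (J (i + 1)) (x i) = x (i + 1) := by
      rw [hxi, hxi]
      unfold rep
      rw [(extChartAt 𝓘(ℝ, E) (J i)).left_inv hs, Function.iterate_succ_apply']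
    have e2 : extChartAt 𝓘(ℝ, E) (J (i + 1)) (f (f^[i] q)) = c (i + 1) := by
      rw [hci, Function.iterate_succ_apply']
    rw [e1, e2] at h2
    rw [← hci]
    exact h2.trans (mul_le_mul_of_nonneg_left (hVi i hi.le) hν0.le)
  · -- the beginning
    have h1 : ‖Pj π (J 0) (extChartAt 𝓘(ℝ, E) (J 0) (f^[0] q)) (x 0 - c 0)‖ ≤
        α * ‖x 0 - c 0‖ := by
      rw [hxi, hci, hJ00]
      exact h0
    refine h1.trans ?_
    refine mul_le_mul ?_ (hVi 0 (Nat.zero_le N)) (norm_nonneg _) hβ0.le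
    have : 0 < 1 / (8 * Cs) := by positivity
    linarith
  · -- the end
    obtain ⟨hs, hd⟩ := hcl N le_rfl
    have h1 := hM2 (J N) (f^[N] q) j' (hJ N) hj' (x N) (by
        rw [mem_closedBall, ← hci]
        exact (hd.trans_le (min_le_right _ _)).le)
    have h2 := h1.2.2
    have e1 : rep id (J N) j' (x N) = extChartAt 𝓘(ℝ, E) j' (f^[N] p) := by
      rw [hxi]
      unfold rep
      rw [(extChartAt 𝓘(ℝ, E) (J N)).left_inv hs]
      rfl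
    rw [e1, ← hci, id] at h2
    -- the bound for the projection in the chart at `j'`
    have hP' : ‖Pj π j' (extChartAt 𝓘(ℝ, E) j' (f^[N] q))‖ ≤ K := by
      have hex2 : ∀ i : ℕ, ∃ J' : M, Gw t ρ J' (f^[i] (f^[N] q)) ∧ (i = 0 → J' = j') := by
        intro i
        rcases Nat.eq_zero_or_pos i with h | h
        · subst h
          exact ⟨j', hj', fun _ => rfl⟩
        · obtain ⟨J', hJ', hd⟩ := hG.cover (f^[i] (f^[N] q))
          refine ⟨J', ⟨hJ', ?_⟩, fun h' => absurd h' (by omega)⟩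
          have h1 := hG.ρ₀_le J' hJ'
          have h2 := hG.ρ₀_pos
          linarith
      choose J' hJ' hJ0' using hex2
      have h3 := (hGC (fun i => f^[i] (f^[N] q)) J'
        (fun i => Function.iterate_succ_apply' f i _) hJ').bd 0
      rw [hJ0' 0 rfl] at h3
      exact h3
    have h4 := est (fderiv ℝ (rep id (J N) j') (c N)) (Pj π (J N) (c N))
      (Pj π j' (extChartAt 𝓘(ℝ, E) j' (f^[N] q))) (by
        intro w
        rw [hci]
        exact trans_P he hinj hG π (hJ N) hj' w) hL1 hα0.le hν0.le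
      (fun w => by rw [hci]; exact (hL (J N) (f^[N] q) j' (hJ N) hj' w).1)
      (fun w => by rw [hci]; exact (hL (J N) (f^[N] q) j' (hJ N) hj' w).2) hP'
      (v := x N - c N) (v' := extChartAt 𝓘(ℝ, E) j' (f^[N] p) - extChartAt 𝓘(ℝ, E) j' (f^[N] q))
      h2 hN
    rw [← hci]
    refine h4.trans ?_
    rw [hν2]
    refine mul_le_mul ?_ (hVi N le_rfl) (norm_nonneg _) hβ0.le
    rw [← hβ2]
    exact add_le_add hα1 le_rfl

end Pool.Agent.H963.CJ
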