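import Pool.Agent.H963.CJ.MDef

/-!
# CHART (helper721): finite families of charts with uniform sizes
-/

set_option autoImplicit false
set_option linter.unusedSectionVars false

open Set Filter Topology Metric
open scoped Manifold ContDiff

namespace Pool.Agent.H963.CJ

open Pool.Agent.H721R2 Pool.Agent.H789R2.AN Pool.Agent.TH289 Pool.Agent.H244.Dyn
  Pool.Agent.H244.Loc

universe u v w

theorem t_CHART : S_CHART.{u, v} := by
  intro E _ _ _ M _ _ _ _
  have h1 : ∀ x : M, ∃ ρ > 0, closedBall x (2 * ρ) ⊆ (extChartAt 𝓘(ℝ, E) x).source := fun x => by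
    obtain ⟨ρ, hρ, h⟩ := Metric.nhds_basis_closedBall.mem_iff.mp
      (extChartAt_source_mem_nhds (I := 𝓘(ℝ, E)) x)
    exact ⟨ρ / 2, half_pos hρ, by rwa [mul_div_cancel₀ ρ two_ne_zero]⟩
  choose ρ hρ hρs using h1
  obtain ⟨t, -, ht⟩ := isCompact_univ.elim_nhds_subcover (fun x : M => ball x (ρ x))
    (fun x _ => ball_mem_nhds x (hρ x))
  have h2 : ∀ z : M, ∃ x ∈ t, z ∈ ball x (ρ x) := fun z => by
    have := ht (mem_univ z)
    simpa using this
  have hK : ∀ x : M, IsCompact (closedBall x (2 * ρ x)) := fun x => isClosed_closedBall.isCompact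
  have hψ : ∀ x : M, ContinuousOn (extChartAt 𝓘(ℝ, E) x) (extChartAt 𝓘(ℝ, E) x).source :=
    fun x => continuousOn_extChartAt x
  have hK' : ∀ x : M, IsCompact (extChartAt 𝓘(ℝ, E) x '' closedBall x (2 * ρ x)) := fun x =>
    (hK x).image_of_continuousOn ((hψ x).mono (hρs x))
  have hKt : ∀ x : M, extChartAt 𝓘(ℝ, E) x '' closedBall x (2 * ρ x) ⊆
      (extChartAt 𝓘(ℝ, E) x).target := by
    rintro x _ ⟨z, hz, rfl⟩
    exact (extChartAt 𝓘(ℝ, E) x).map_source (hρs x hz)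
  obtain ⟨R, hR, hRt⟩ := fin_min t (fun x δ =>
      cthickening δ (extChartAt 𝓘(ℝ, E) x '' closedBall x (2 * ρ x)) ⊆
        (extChartAt 𝓘(ℝ, E) x).target)
    (fun a δ δ' hle _ h => (cthickening_mono hle _).trans h) (fun x _ => by
      obtain ⟨δ, hδ, h⟩ := (hK' x).exists_cthickening_subset_open (isOpen_extChartAt_target x)
        (hKt x)
      exact ⟨δ, hδ, h⟩)
  obtain ⟨ρ₀, hρ₀, hρt⟩ := fin_min t (fun x δ => δ ≤ ρ x)
    (fun a δ δ' hle _ h => hle.trans h) (fun x _ => ⟨ρ x, hρ x, le_rfl⟩)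
  refine ⟨t, ρ, R, ρ₀, hR, hρ₀, hρt, fun z => ?_, fun j _ z hz => hρs j hz, fun j hj z hz => ?_,
    fun ε hε => ?_, fun ε hε => ?_⟩
  · obtain ⟨x, hx, hz⟩ := h2 z
    exact ⟨x, hx, (mem_ball.1 hz).le⟩
  · exact (closedBall_subset_cthickening (mem_image_of_mem _ (mem_closedBall.2 hz)) R).trans
      (hRt j hj)
  · obtain ⟨δ, hδ, h⟩ := fin_min t (fun x δ => ∀ z ∈ closedBall x (2 * ρ x), ∀ p, dist p z < δ →
        p ∈ (extChartAt 𝓘(ℝ, E) x).source ∧
        dist (extChartAt 𝓘(ℝ, E) x p) (extChartAt 𝓘(ℝ, E) x z) < ε)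
      (fun a δ δ' hle _ h z hz p hp => h z hz p (hp.trans_le hle)) (fun x _ =>
        unif_near (hK x) (isOpen_extChartAt_source x) (hρs x) (hψ x) hε)
    exact ⟨δ, hδ, fun j hj z hz p hp => h j hj z hz p hp⟩
  · obtain ⟨δ, hδ, h⟩ := fin_min t (fun x δ => ∀ z ∈ closedBall x (2 * ρ x),
        ∀ y, dist y (extChartAt 𝓘(ℝ, E) x z) < δ →
        dist ((extChartAt 𝓘(ℝ, E) x).symm y) z < ε)
      (fun a δ δ' hle _ h z hz p hp => h z hz p (hp.trans_le hle)) (fun x _ => by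
        obtain ⟨δ, hδ, h⟩ := unif_near (hK' x) (isOpen_extChartAt_target x) (hKt x)
          (continuousOn_extChartAt_symm x) hε
        refine ⟨δ, hδ, fun z hz y hy => ?_⟩
        have := (h _ (mem_image_of_mem _ hz) y hy).2
        rwa [(extChartAt 𝓘(ℝ, E) x).left_inv (hρs x hz)] at this)
    refine ⟨min (δ / 2) R, lt_min (half_pos hδ) hR, min_le_right _ _, fun j hj z hz y hy => ?_⟩
    apply h j hj z hz
    rw [mem_closedBall] at hy
    have := min_le_left (δ / 2) R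
    linarith

end Pool.Agent.H963.CJ
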