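import Pool.Agent.H963.CJ.MDef2

/-!
# No orbit starting on a small sphere in the unstable (stable) disc stays close
-/

set_option autoImplicit false
set_option linter.unusedSectionVars false

open Set Filter Topology Metric
open scoped Manifold ContDiff

namespace Pool.Agent.H963.CJ

open Pool.Agent.H721R2 Pool.Agent.H789R2.AN Pool.Agent.TH289 Pool.Agent.H244.Dyn
  Pool.Agent.H244.Loc

universe u v w

namespace MEXIT

/-- the limit of a sequence of bad orbits -/
theorem limit (E : Type u) [NormedAddCommGroup E] [NormedSpace ℝ E] [FiniteDimensional ℝ E]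
    (M : Type v) [MetricSpace M] [CompactSpace M] [ChartedSpace E M] [IsManifold 𝓘(ℝ, E) 1 M]
    (t : Finset M) (ρ : M → ℝ) (R ρ₀ : ℝ) (ch : GCh E t ρ R ρ₀) (h : M → M) (hh : Continuous h)
    (κ0 η1 : ℝ) (h0 : 0 < η1) (hR : η1 ≤ R) (a j : M) (hj : Gw t ρ j a) (s : ℕ)
    (B₀ : E →L[ℝ] (Fin s → ℝ))
    (hcon : ∀ (T : ℕ) (δ : ℝ), 0 < δ → ∃ x, dist x a < δ ∧ ∃ B : E →L[ℝ] (Fin s → ℝ), ‖B - B₀‖ < δ ∧
      ∃ p ∈ (ps E j).source, dist (ps E j p) (ps E j x) = η1 ∧ B (ps E j p - ps E j x) = 0 ∧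
        ∀ n ≤ T, dist (h^[n] p) (h^[n] x) ≤ κ0) :
    ∃ p ∈ (ps E j).source, dist (ps E j p) (ps E j a) = η1 ∧ B₀ (ps E j p - ps E j a) = 0 ∧
      ∀ n : ℕ, dist (h^[n] p) (h^[n] a) ≤ κ0 := by
  have : ProperSpace E := FiniteDimensional.proper ℝ E
  have hδ : ∀ n : ℕ, (0 : ℝ) < 1 / ((n : ℝ) + 1) := fun n => by positivity
  choose x hx B hB p hps hpd hBp hκ using fun n : ℕ => hcon n (1 / ((n : ℝ) + 1)) (hδ n)
  have hlim : Tendsto (fun n : ℕ => (1 : ℝ) / ((n : ℝ) + 1)) atTop (𝓝 0) :=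
    tendsto_one_div_add_atTop_nhds_zero_nat
  have hxa : Tendsto x atTop (𝓝 a) := by
    rw [tendsto_iff_dist_tendsto_zero]
    exact squeeze_zero (fun n => dist_nonneg) (fun n => (hx n).le) hlim
  have hBB : Tendsto B atTop (𝓝 B₀) := by
    rw [tendsto_iff_dist_tendsto_zero]
    refine squeeze_zero (fun n => dist_nonneg) (fun n => ?_) hlim
    rw [dist_eq_norm]
    exact (hB n).le
  have hasrc : a ∈ (ps E j).source := ch.src j hj.1 a hj.2
  have hpsx : Tendsto (fun n => ps E j (x n)) atTop (𝓝 (ps E j a)) := by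
    have hc : ContinuousAt (extChartAt 𝓘(ℝ, E) j) a := continuousAt_extChartAt' hasrc
    exact hc.tendsto.comp hxa
  -- a convergent subsequence of the chart images
  have hbd : ∃ᶠ n in atTop, ps E j (p n) ∈ closedBall (ps E j a) (η1 + 1) := by
    apply Eventually.frequently
    have h1 : ∀ᶠ n in atTop, dist (ps E j (x n)) (ps E j a) < 1 := by
      have := (tendsto_iff_dist_tendsto_zero.1 hpsx).eventually (gt_mem_nhds (zero_lt_one' ℝ))
      exact this
    filter_upwards [h1] with n hn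
    rw [mem_closedBall]
    have := dist_triangle (ps E j (p n)) (ps E j (x n)) (ps E j a)
    rw [hpd n] at this
    linarith
  obtain ⟨y, -, φ, hφ, hy⟩ := (isCompact_closedBall (ps E j a) (η1 + 1)).tendsto_subseq' hbd
  have hφt : Tendsto φ atTop atTop := hφ.tendsto_atTop
  have hpsx' := hpsx.comp hφt
  have hdist : dist y (ps E j a) = η1 := by
    have h1 : Tendsto (fun n => dist (ps E j (p (φ n))) (ps E j (x (φ n)))) atTop
        (𝓝 (dist y (ps E j a))) := hy.dist hpsx'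
    have h2 : Tendsto (fun n => dist (ps E j (p (φ n))) (ps E j (x (φ n)))) atTop (𝓝 η1) := by
      simp only [hpd]
      exact tendsto_const_nhds
    exact tendsto_nhds_unique h1 h2
  have hytgt : y ∈ (ps E j).target := by
    apply ch.tgt j hj.1 a hj.2
    rw [mem_closedBall, hdist]
    exact hR
  have hpp : Tendsto (fun n => p (φ n)) atTop (𝓝 ((ps E j).symm y)) := by
    have hc : ContinuousAt (extChartAt 𝓘(ℝ, E) j).symm y := continuousAt_extChartAt_symm'' hytgt
    have h1 : Tendsto (fun n => (ps E j).symm (ps E j (p (φ n)))) atTop (𝓝 ((ps E j).symm y)) :=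
      hc.tendsto.comp hy
    refine h1.congr (fun n => ?_)
    exact (ps E j).left_inv (hps (φ n))
  refine ⟨(ps E j).symm y, (ps E j).map_target hytgt, ?_, ?_, ?_⟩
  · rw [(ps E j).right_inv hytgt]; exact hdist
  · rw [(ps E j).right_inv hytgt]
    have hcont : Continuous (fun q : (E →L[ℝ] (Fin s → ℝ)) × E => q.1 q.2) :=
      isBoundedBilinearMap_apply.continuous
    have h1 : Tendsto (fun n => B (φ n) (ps E j (p (φ n)) - ps E j (x (φ n)))) atTop
        (𝓝 (B₀ (y - ps E j a))) :=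
      (hcont.tendsto (B₀, y - ps E j a)).comp ((hBB.comp hφt).prodMk_nhds (hy.sub hpsx'))
    simp only [hBp] at h1
    exact (tendsto_nhds_unique h1 tendsto_const_nhds)
  · intro n
    have hn : Continuous (h^[n]) := hh.iterate n
    have h1 : Tendsto (fun m => dist (h^[n] (p (φ m))) (h^[n] (x (φ m)))) atTop
        (𝓝 (dist (h^[n] ((ps E j).symm y)) (h^[n] a))) :=
      ((hn.tendsto _).comp hpp).dist ((hn.tendsto _).comp (hxa.comp hφt))
    refine le_of_tendsto h1 ?_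
    filter_upwards [hφt.eventually_ge_atTop n] with m hm
    exact hκ (φ m) n hm

end MEXIT

theorem t_EXIT (h3 : S_T3.{v}) (hc : S_CONE.{u, v, w}) : S_EXIT.{u, v, w} := by
  intro E _ _ _ M _ _ _ _ F _ _ e f Es Eu π t ρ R ρ₀ k κf κ0 fc
  obtain ⟨C, a', b', Ls, Lu, hA⟩ := fc.hf
  obtain ⟨κ1, hκ1, hcone⟩ := hc E M F e fc.he fc.hinj f Es Eu C a' b' Ls Lu hA π fc.hπ t ρ R ρ₀ fc.ch (1 / 2)
    (by norm_num)
  obtain ⟨δ3, hδ3, hT3⟩ := h3 M f κf fc.taf k κ0 fc.kk κ1 hκ1
  obtain ⟨δ, hδ, hδR, hc2⟩ := fc.ch.c2 δ3 hδ3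
  refine ⟨δ, hδ, ?_⟩
  intro η1 h0 h1 a j ha hj
  have key : ∀ p ∈ (ps E j).source, dist (ps E j p) (ps E j a) = η1 → dist p a ≤ δ3 := by
    intro p hp hd
    have := hc2 j hj.1 a hj.2 (ps E j p) (by rw [mem_closedBall, hd]; exact h1)
    rw [(ps E j).left_inv hp] at this
    exact this.le
  constructor
  · intro s B₀ hB₀
    by_contra hcon
    push Not at hcon
    obtain ⟨p, hp, hd, hB, hn⟩ := MEXIT.limit E M t ρ R ρ₀ fc.ch f f.continuous κ0 η1 h0 (h1.trans hδR) a j hj s B₀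
      (fun T δ hδ => hcon T δ hδ)
    have h4 := (hT3 a p ha (key p hp hd)).1 hn
    have h5 := (hcone p a j hj).2 h4
    rw [hB₀ _ hB, sub_zero] at h5
    rw [← dist_eq_norm, hd] at h5
    linarith
  · intro s B₀ hB₀
    by_contra hcon
    push Not at hcon
    obtain ⟨p, hp, hd, hB, hn⟩ := MEXIT.limit E M t ρ R ρ₀ fc.ch f.symm f.symm.continuous κ0 η1 h0 (h1.trans hδR) a j
      hj s B₀ (fun T δ hδ => hcon T δ hδ)
    have h4 := (hT3 a p ha (key p hp hd)).2 hn
    have h5 := (hcone p a j hj).1 h4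
    rw [hB₀ _ hB] at h5
    rw [← dist_eq_norm, hd] at h5
    linarith

end Pool.Agent.H963.CJ
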