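import Pool.Agent.H963.CJ.MDef2

set_option autoImplicit false
set_option linter.unusedSectionVars false

open Set Filter Topology Metric
open scoped Manifold ContDiff

namespace Pool.Agent.H963.CJ

open Pool.Agent.H721R2 Pool.Agent.H789R2.AN Pool.Agent.TH289 Pool.Agent.H244.Dyn
  Pool.Agent.H244.Loc

universe u v w

namespace MEXITN

/-- limits along an ultrafilter exist in compact sets -/
theorem exists_lim {X : Type*} [TopologicalSpace X] {s : Set X} (hs : IsCompact s) (U : Ultrafilter ℕ)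
    (q : ℕ → X) (hq : ∀ᶠ i in (U : Filter ℕ), q i ∈ s) : ∃ a ∈ s, Tendsto q U (𝓝 a) := by
  obtain ⟨a, has, ha⟩ := hs.ultrafilter_le_nhds (U.map q) (by
    rw [le_principal_iff]
    exact hq)
  exact ⟨a, has, ha⟩

section core

variable {E : Type u} [NormedAddCommGroup E] [NormedSpace ℝ E] [FiniteDimensional ℝ E]
  {M : Type v} [MetricSpace M] [CompactSpace M] [ChartedSpace E M] [IsManifold 𝓘(ℝ, E) 1 M]

/-- the limit of a sequence of counterexamples -/
theorem core {t : Finset M} {ρ : M → ℝ} {R ρ₀ : ℝ} (ch : GCh E t ρ R ρ₀) (π : M → E →L[ℝ] E)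
    (hPj : ∀ (j : M) (s : Set E), s ⊆ (ps E j).target → IsCompact s → ContinuousOn (Pj π j) s)
    (η1 : ℝ) (hη : η1 ≤ R / 2) (c κ0 : ℝ) (S : M → M) (hS : Continuous S) (U : Ultrafilter ℕ)
    (hU : (U : Filter ℕ) ≤ atTop) (q p j : ℕ → M) (hGw : ∀ i, Gw t ρ (j i) (q i))
    (hp : ∀ i, p i ∈ (ps E (j i)).source)
    (hd : ∀ i, dist (ps E (j i) (p i)) (ps E (j i) (q i)) = η1)
    (hP : ∀ i, Pj π (j i) (ps E (j i) (q i)) (ps E (j i) (p i) - ps E (j i) (q i)) =
      c • (ps E (j i) (p i) - ps E (j i) (q i)))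
    (hS2 : ∀ i, ∀ n ≤ i, dist (S^[n] (p i)) (S^[n] (q i)) ≤ κ0) :
    ∃ (j₀ a p' : M), Tendsto q U (𝓝 a) ∧ Gw t ρ j₀ a ∧ p' = (ps E j₀).symm (ps E j₀ p') ∧
      dist (ps E j₀ p') (ps E j₀ a) = η1 ∧
      Pj π j₀ (ps E j₀ a) (ps E j₀ p' - ps E j₀ a) = c • (ps E j₀ p' - ps E j₀ a) ∧
      ∀ n, dist (S^[n] p') (S^[n] a) ≤ κ0 := by
  obtain ⟨a, -, hqa⟩ := exists_lim isCompact_univ U q (Eventually.of_forall fun i => mem_univ _)
  -- the chart is constant
  have hj : ∃ j₀ ∈ t, ∀ᶠ i in (U : Filter ℕ), j i = j₀ := by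
    have h1 : (⋃ b ∈ (t : Set M), {i | j i = b}) ∈ U := by
      have h2 : (⋃ b ∈ (t : Set M), {i | j i = b}) = univ := by
        rw [eq_univ_iff_forall]
        intro i
        exact mem_biUnion (hGw i).1 rfl
      rw [h2]
      exact Filter.univ_mem
    obtain ⟨b, hb, hb'⟩ := (Ultrafilter.finite_biUnion_mem_iff t.finite_toSet).mp h1
    exact ⟨b, hb, hb'⟩
  obtain ⟨j₀, hj₀, hjj⟩ := hj
  have ha : dist a j₀ ≤ 2 * ρ j₀ := by
    refine le_of_tendsto (hqa.dist tendsto_const_nhds) ?_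
    filter_upwards [hjj] with i hi
    rw [← hi]
    exact (hGw i).2
  have hasrc : a ∈ (ps E j₀).source := ch.src j₀ hj₀ a ha
  have hψ : Tendsto (fun i => ps E j₀ (q i)) U (𝓝 (ps E j₀ a)) :=
    (continuousAt_extChartAt' (I := 𝓘(ℝ, E)) hasrc).tendsto.comp hqa
  have hR := ch.R_pos
  have hyR : ∀ᶠ i in (U : Filter ℕ), ps E j₀ (p i) ∈ closedBall (ps E j₀ a) R := by
    have h1 : ∀ᶠ i in (U : Filter ℕ), dist (ps E j₀ (q i)) (ps E j₀ a) < R / 2 :=
      (Metric.tendsto_nhds.mp hψ) (R / 2) (half_pos hR)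
    filter_upwards [h1, hjj] with i h1 hi
    have h2 := hd i
    rw [hi] at h2
    rw [mem_closedBall]
    have h3 := dist_triangle (ps E j₀ (p i)) (ps E j₀ (q i)) (ps E j₀ a)
    linarith
  have : ProperSpace E := FiniteDimensional.proper ℝ E
  obtain ⟨y₀, hy₀, hy⟩ := exists_lim (isCompact_closedBall (ps E j₀ a) R) U (fun i => ps E j₀ (p i)) hyR
  have hy₀t : y₀ ∈ (ps E j₀).target := ch.tgt j₀ hj₀ a ha hy₀
  have hright : ps E j₀ ((ps E j₀).symm y₀) = y₀ := (ps E j₀).right_inv hy₀t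
  have hpt : Tendsto p U (𝓝 ((ps E j₀).symm y₀)) := by
    have h1 := (continuousAt_extChartAt_symm'' (I := 𝓘(ℝ, E)) hy₀t).tendsto.comp hy
    refine h1.congr' ?_
    filter_upwards [hjj] with i hi
    have h2 := hp i
    rw [hi] at h2
    exact (ps E j₀).left_inv h2
  refine ⟨j₀, a, (ps E j₀).symm y₀, hqa, ⟨hj₀, ha⟩, ?_, ?_, ?_, ?_⟩
  · rw [hright]
  · rw [hright]
    refine tendsto_nhds_unique (hy.dist hψ) (tendsto_const_nhds.congr' ?_)
    filter_upwards [hjj] with i hi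
    have h2 := hd i
    rw [hi] at h2
    exact h2.symm
  · rw [hright]
    have hPc : ContinuousAt (Pj π j₀) (ps E j₀ a) :=
      (hPj j₀ _ (ch.tgt j₀ hj₀ a ha) (isCompact_closedBall _ _)).continuousAt
        (closedBall_mem_nhds _ hR)
    have h1 : Tendsto (fun i => Pj π j₀ (ps E j₀ (q i))) U (𝓝 (Pj π j₀ (ps E j₀ a))) :=
      hPc.tendsto.comp hψ
    have h2 : Tendsto (fun i => Pj π j₀ (ps E j₀ (q i)) (ps E j₀ (p i) - ps E j₀ (q i))) U
        (𝓝 (Pj π j₀ (ps E j₀ a) (y₀ - ps E j₀ a))) :=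
      ((isBoundedBilinearMap_apply (𝕜 := ℝ) (E := E) (F := E)).continuous.tendsto _).comp
        (h1.prodMk_nhds (hy.sub hψ))
    have h3 : Tendsto (fun i => c • (ps E j₀ (p i) - ps E j₀ (q i))) U (𝓝 (c • (y₀ - ps E j₀ a))) :=
      (hy.sub hψ).const_smul c
    refine tendsto_nhds_unique h2 (h3.congr' ?_)
    filter_upwards [hjj] with i hi
    have h4 := hP i
    rw [hi] at h4
    exact h4.symm
  · intro n
    have hc : Continuous S^[n] := hS.iterate n
    have h1 : Tendsto (fun i => dist (S^[n] (p i)) (S^[n] (q i))) U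
        (𝓝 (dist (S^[n] ((ps E j₀).symm y₀)) (S^[n] a))) :=
      ((hc.tendsto _).comp hpt).dist ((hc.tendsto _).comp hqa)
    refine le_of_tendsto h1 ?_
    filter_upwards [hU (eventually_ge_atTop n)] with i hi
    exact hS2 i n hi

end core

end MEXITN

open MEXITN in
theorem t_EXITN (h2 : S_T2.{v}) (h3 : S_T3.{v}) (hc : S_CONE.{u, v, w}) : S_EXITN.{u, v, w} := by
  intro E _ _ _ M _ _ _ _ F _ _ e f Es Eu π t ρ R ρ₀ k κf κ0 hF
  obtain ⟨C, a₀, b₀, Ls, Lu, hA⟩ := hF.hf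
  obtain ⟨κ1, hκ1, hcone⟩ := hc E M F e hF.he hF.hinj f Es Eu C a₀ b₀ Ls Lu hA π hF.hπ t ρ R ρ₀ hF.ch
    (1 / 2) (by norm_num)
  obtain ⟨δ3, hδ3, ht3⟩ := h3 M f κf hF.taf k κ0 hF.kk κ1 hκ1
  obtain ⟨δ2, hδ2, hδR, hc2⟩ := hF.ch.c2 δ3 hδ3
  have hR := hF.ch.R_pos
  have hPj : ∀ (j : M) (s : Set E), s ⊆ (ps E j).target → IsCompact s → ContinuousOn (Pj π j) s :=
    fun j s hs hsc => Pj_cont hF.he hF.hinj hA hF.hπ hs hsc
  refine ⟨min δ2 (R / 2), lt_min hδ2 (half_pos hR), ?_⟩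
  intro η1 hη1 hηle a
  have hη2 : η1 ≤ δ2 := hηle.trans (min_le_left _ _)
  have hηR : η1 ≤ R / 2 := hηle.trans (min_le_right _ _)
  set U : Ultrafilter ℕ := Ultrafilter.of atTop with hUdef
  have hU : (U : Filter ℕ) ≤ atTop := Ultrafilter.of_le atTop
  constructor
  · by_contra hcon
    push Not at hcon
    choose N hN j p hGw hp hd hP hn using hcon
    obtain ⟨j₀, a', p', hlim, hG, hp', hd', hP', horb⟩ := core hF.ch π hPj η1 hηR 1 κ0 f.symm f.symm.continuous U hU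
      (fun i => f^[N i] a) p j hGw hp hd (fun i => by rw [one_smul]; exact hP i) hn
    have hNU : Tendsto N U atTop := by
      have : Tendsto N atTop atTop := tendsto_atTop_mono hN tendsto_id
      exact this.mono_left hU
    have hsg : Sg k a' := h2 M f κf hF.taf k κ0 hF.kk a a' (Or.inl (MapClusterPt.of_comp hNU hlim.mapClusterPt))
    have hclose : dist p' a' ≤ δ3 := by
      rw [hp']
      exact (hc2 j₀ hG.1 a' hG.2 _ (by rw [mem_closedBall, hd']; exact hη2)).le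
    have h4 := (ht3 a' p' hsg hclose).2 horb
    have h5 := (hcone p' a' j₀ hG).1 h4
    change ‖Pj π j₀ (ps E j₀ a') (ps E j₀ p' - ps E j₀ a')‖ ≤ 1 / 2 * ‖ps E j₀ p' - ps E j₀ a'‖ at h5
    rw [hP', one_smul, ← dist_eq_norm, hd'] at h5
    linarith
  · by_contra hcon
    push Not at hcon
    choose N hN j p hGw hp hd hP hn using hcon
    obtain ⟨j₀, a', p', hlim, hG, hp', hd', hP', horb⟩ := core hF.ch π hPj η1 hηR 0 κ0 f f.continuous U hU
      (fun i => f.symm^[N i] a) p j hGw hp hd (fun i => by rw [zero_smul]; exact hP i) hn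
    have hNU : Tendsto N U atTop := by
      have : Tendsto N atTop atTop := tendsto_atTop_mono hN tendsto_id
      exact this.mono_left hU
    have hsg : Sg k a' := h2 M f κf hF.taf k κ0 hF.kk a a' (Or.inr (MapClusterPt.of_comp hNU hlim.mapClusterPt))
    have hclose : dist p' a' ≤ δ3 := by
      rw [hp']
      exact (hc2 j₀ hG.1 a' hG.2 _ (by rw [mem_closedBall, hd']; exact hη2)).le
    have h4 := (ht3 a' p' hsg hclose).1 horb
    have h5 := (hcone p' a' j₀ hG).2 h4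
    change ‖(ps E j₀ p' - ps E j₀ a') - Pj π j₀ (ps E j₀ a') (ps E j₀ p' - ps E j₀ a')‖ ≤
      1 / 2 * ‖ps E j₀ p' - ps E j₀ a'‖ at h5
    rw [hP', zero_smul, sub_zero, ← dist_eq_norm, hd'] at h5
    linarith

end Pool.Agent.H963.CJ
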