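import Pool.Agent.H963.CJ.MDef2

/-!
# The hypotheses of `S_SIGN` about the linearisation hold near given end points
-/

set_option autoImplicit false
set_option linter.unusedSectionVars false

open Set Filter Topology Metric
open scoped Manifold ContDiff

namespace Pool.Agent.H963.CJ

open Pool.Agent.H721R2 Pool.Agent.H789R2.AN Pool.Agent.TH289 Pool.Agent.H244.Dyn
  Pool.Agent.H244.Loc

universe u v w

namespace MHYP

section lin

variable {E G : Type*} [NormedAddCommGroup E] [NormedSpace ℝ E] [FiniteDimensional ℝ E]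
  [NormedAddCommGroup G] [NormedSpace ℝ G]

/-- The estimate at an end point. -/
theorem end_est {P : E → E →L[ℝ] E} {y₀ : E} (hP : ContinuousAt P y₀)
    {B₀ : E →L[ℝ] G} (hPP : ∀ v, P y₀ (P y₀ v) = P y₀ v)
    (hB : ∀ v, B₀ v = 0 ↔ P y₀ v = 0) {θ : ℝ} (hθ : 0 < θ) :
    ∃ δ > 0, ∀ B : E →L[ℝ] G, ‖B - B₀‖ < δ → ∀ y, dist y y₀ < δ → ∀ v w, P y v = v → P y w = 0 →
      ∀ τ ∈ Icc (0 : ℝ) 1, B (v + τ • w) = 0 → ‖v‖ ≤ θ * ‖w‖ := by
  set L : E →L[ℝ] G × E := B₀.prod (ContinuousLinearMap.id ℝ E - P y₀) with hL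
  have hker : LinearMap.ker (L : E →ₗ[ℝ] G × E) = ⊥ := by
    rw [LinearMap.ker_eq_bot']
    intro v hv
    have h1 : (B₀ v, v - P y₀ v) = (0, 0) := hv
    rw [Prod.mk.injEq] at h1
    have h2 := (hB v).mp h1.1
    have h3 := h1.2
    rw [h2, sub_zero] at h3
    exact h3
  obtain ⟨K, hK, hKL⟩ := LinearMap.exists_antilipschitzWith (L : E →ₗ[ℝ] G × E) hker
  have hK0 : (0 : ℝ) < K := by exact_mod_cast hK
  have hKv : ∀ v, ‖v‖ ≤ K * (‖B₀ v‖ + ‖v - P y₀ v‖) := by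
    intro v
    have h := hKL.le_mul_dist v 0
    rw [dist_zero_right, map_zero, dist_zero_right] at h
    refine h.trans (mul_le_mul_of_nonneg_left ?_ hK0.le)
    show ‖(B₀ v, v - P y₀ v)‖ ≤ _
    rw [Prod.norm_def]
    exact max_le (le_add_of_nonneg_right (norm_nonneg _)) (le_add_of_nonneg_left (norm_nonneg _))
  set η : ℝ := min (1 / (4 * K)) (θ / (2 * K * (‖B₀‖ + 1))) with hη
  have hη0 : 0 < η := lt_min (by positivity) (by positivity)
  have hη1 : K * (2 * η) ≤ 1 / 2 := by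
    have h1 : η ≤ 1 / (4 * K) := min_le_left _ _
    have h2 : (K : ℝ) * (2 * (1 / (4 * K))) = 1 / 2 := by field_simp; norm_num
    rw [← h2]
    gcongr
  have hη2 : 2 * K * ((‖B₀‖ + 1) * η) ≤ θ := by
    have h1 : η ≤ θ / (2 * K * (‖B₀‖ + 1)) := min_le_right _ _
    have h2 : 2 * (K : ℝ) * ((‖B₀‖ + 1) * (θ / (2 * K * (‖B₀‖ + 1)))) = θ := by
      have : ‖B₀‖ + 1 ≠ 0 := by positivity
      field_simp
    calc 2 * (K : ℝ) * ((‖B₀‖ + 1) * η) ≤ 2 * (K : ℝ) * ((‖B₀‖ + 1) *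
        (θ / (2 * K * (‖B₀‖ + 1)))) := by gcongr
      _ = θ := h2
  obtain ⟨δ₁, hδ₁, hcont⟩ := Metric.continuousAt_iff.mp hP η hη0
  refine ⟨min δ₁ η, lt_min hδ₁ hη0, fun B hBB y hy v w hv hw τ hτ h0 => ?_⟩
  have hPy : ‖P y - P y₀‖ ≤ η := by
    rw [← dist_eq_norm]; exact (hcont (hy.trans_le (min_le_left _ _))).le
  have hBη : ‖B - B₀‖ ≤ η := (hBB.trans_le (min_le_right _ _)).le
  -- the contracted part
  have h1 : ‖v - P y₀ v‖ ≤ η * ‖v‖ := by
    have e : v - P y₀ v = (P y - P y₀) v := by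
      rw [sub_apply, hv]
    rw [e]
    exact ((P y - P y₀).le_opNorm v).trans (mul_le_mul_of_nonneg_right hPy (norm_nonneg _))
  have h2 : ‖B₀ v‖ ≤ ‖B v‖ + η * ‖v‖ := by
    have e : B₀ v = B v - (B - B₀) v := by
      rw [sub_apply]; abel
    calc ‖B₀ v‖ = ‖B v - (B - B₀) v‖ := by rw [← e]
      _ ≤ ‖B v‖ + ‖(B - B₀) v‖ := norm_sub_le _ _
      _ ≤ ‖B v‖ + η * ‖v‖ := by
        gcongr
        exact ((B - B₀).le_opNorm v).trans (mul_le_mul_of_nonneg_right hBη (norm_nonneg _))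
  have h3 : ‖v‖ ≤ 2 * K * ‖B v‖ := by
    have := hKv v
    have h4 : K * (‖B₀ v‖ + ‖v - P y₀ v‖) ≤ K * (‖B v‖ + 2 * η * ‖v‖) :=
      mul_le_mul_of_nonneg_left (by linarith) hK0.le
    have h5 : K * (‖B v‖ + 2 * η * ‖v‖) = K * ‖B v‖ + K * (2 * η) * ‖v‖ := by ring
    have h6 : K * (2 * η) * ‖v‖ ≤ 1 / 2 * ‖v‖ := by gcongr
    linarith
  -- the expanded part
  have h4 : ‖B₀ w‖ ≤ ‖B₀‖ * (η * ‖w‖) := by
    have e0 : B₀ (w - P y₀ w) = 0 := (hB _).mpr (by rw [map_sub, hPP, sub_self])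
    have e1 : B₀ w = B₀ (P y₀ w) := by
      rw [map_sub, sub_eq_zero] at e0; exact e0
    have e2 : P y₀ w = -((P y - P y₀) w) := by
      rw [sub_apply, hw, zero_sub, neg_neg]
    rw [e1]
    refine (B₀.le_opNorm _).trans (mul_le_mul_of_nonneg_left ?_ (norm_nonneg _))
    rw [e2, norm_neg]
    exact ((P y - P y₀).le_opNorm w).trans (mul_le_mul_of_nonneg_right hPy (norm_nonneg _))
  have h5 : ‖B w‖ ≤ (‖B₀‖ + 1) * η * ‖w‖ := by
    have e : B w = B₀ w + (B - B₀) w := by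
      rw [sub_apply]; abel
    calc ‖B w‖ = ‖B₀ w + (B - B₀) w‖ := by rw [← e]
      _ ≤ ‖B₀ w‖ + ‖(B - B₀) w‖ := norm_add_le _ _
      _ ≤ ‖B₀‖ * (η * ‖w‖) + η * ‖w‖ := by
        gcongr
        exact ((B - B₀).le_opNorm w).trans (mul_le_mul_of_nonneg_right hBη (norm_nonneg _))
      _ = (‖B₀‖ + 1) * η * ‖w‖ := by ring
  have h6 : ‖B v‖ ≤ ‖B w‖ := by
    rw [map_add, map_smul] at h0
    have e : B v = -(τ • B w) := eq_neg_of_add_eq_zero_left h0
    rw [e, norm_neg, norm_smul, Real.norm_of_nonneg hτ.1]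
    calc τ * ‖B w‖ ≤ 1 * ‖B w‖ := mul_le_mul_of_nonneg_right hτ.2 (norm_nonneg _)
      _ = ‖B w‖ := one_mul _
  calc ‖v‖ ≤ 2 * K * ‖B v‖ := h3
    _ ≤ 2 * K * ((‖B₀‖ + 1) * η * ‖w‖) := by
      gcongr
      exact h6.trans h5
    _ = 2 * K * ((‖B₀‖ + 1) * η) * ‖w‖ := by ring
    _ ≤ θ * ‖w‖ := by gcongr

end lin

section man

variable {E : Type*} [NormedAddCommGroup E] [NormedSpace ℝ E] [FiniteDimensional ℝ E]
  {M : Type*} [MetricSpace M] [CompactSpace M] [ChartedSpace E M] [IsManifold 𝓘(ℝ, E) 1 M]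
  {F : Type*} [NormedAddCommGroup F] [NormedSpace ℝ F]

/-- The estimate for tangent vectors. -/
theorem tan_est {e : M → F} {f : M ≃ₜ M} {Es Eu : M → Submodule ℝ E} {C a b Ls Lu : ℝ}
    (h : EAnosov e f Es Eu C a b Ls Lu) (N : ℕ) (p : ℕ → M) (v : ℕ → E) {τ : ℝ}
    (hτ : τ ∈ Icc (0 : ℝ) 1) (hp : ∀ i < N, p (i + 1) = f (p i))
    (hv : ∀ i < N, v (i + 1) = τ • dg E f (p i) (v i)) (h0 : v 0 ∈ Es (p 0)) :
    ‖dm E e (p N) (v N)‖ ≤ C * ‖dm E e (p 0) (v 0)‖ := by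
  have key : ∀ k ≤ N, p k = f^[k] (p 0) ∧ v k = τ ^ k • dg E (f^[k]) (p 0) (v 0) := by
    intro k
    induction k with
    | zero =>
      intro _
      refine ⟨rfl, ?_⟩
      rw [pow_zero, one_smul]
      show v 0 = mfderiv 𝓘(ℝ, E) 𝓘(ℝ, E) id (p 0) (v 0)
      rw [mfderiv_id]; rfl
    | succ k ih =>
      intro hk
      obtain ⟨ih1, ih2⟩ := ih (by omega)
      refine ⟨?_, ?_⟩
      · rw [hp k (by omega), ih1, Function.iterate_succ_apply']
      · rw [hv k (by omega), ih2, ih1, map_smul, smul_smul]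
        have : f^[k + 1] = f ∘ f^[k] := Function.iterate_succ' _ _
        rw [this, dg_comp _ _ (iter_smooth f h.smooth k) h.smooth, pow_succ']
  obtain ⟨k1, k2⟩ := key N le_rfl
  rw [k1, k2, map_smul, norm_smul]
  have h3 : ‖τ ^ N‖ ≤ 1 := by
    rw [norm_pow, Real.norm_of_nonneg hτ.1]
    exact pow_le_one₀ hτ.1 hτ.2
  have hC : 0 ≤ C := zero_le_one.trans h.C_pos
  have ha : a ^ N ≤ 1 := pow_le_one₀ h.a_pos.le h.a_lt.le
  calc ‖τ ^ N‖ * ‖dm E e (f^[N] (p 0)) (dg E (f^[N]) (p 0) (v 0))‖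
      ≤ 1 * (C * a ^ N * ‖dm E e (p 0) (v 0)‖) := by
        apply mul_le_mul h3 (h.hS N _ _ h0) (norm_nonneg _) zero_le_one
    _ ≤ 1 * (C * 1 * ‖dm E e (p 0) (v 0)‖) := by gcongr
    _ = C * ‖dm E e (p 0) (v 0)‖ := by ring

/-- The norms are uniformly comparable. -/
theorem cmp {e : M → F} (he : ContMDiff 𝓘(ℝ, E) 𝓘(ℝ, F) 1 e)
    (hinj : ∀ x, Function.Injective (dm E e x)) {t : Finset M} {ρ : M → ℝ} {R ρ₀ : ℝ}
    (hc : GCh E t ρ R ρ₀) : ∃ m : ℝ, 1 ≤ m ∧ ∀ j ∈ t, ∀ z, dist z j ≤ 2 * ρ j →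
      ∀ y ∈ closedBall (ps E j z) R, ∀ w, ‖w‖ ≤ m * ‖fderiv ℝ (hatMap e j) y w‖ ∧
        ‖fderiv ℝ (hatMap e j) y w‖ ≤ m * ‖w‖ := by
  have hloc : ∀ j ∈ t, ∃ m : ℝ, 0 ≤ m ∧ ∀ z, dist z j ≤ 2 * ρ j →
      ∀ y ∈ closedBall (ps E j z) R, ∀ w, ‖w‖ ≤ m * ‖fderiv ℝ (hatMap e j) y w‖ ∧
        ‖fderiv ℝ (hatMap e j) y w‖ ≤ m * ‖w‖ := by
    intro j hj
    set S : Set M := closedBall j (2 * ρ j) with hS
    have hSc : IsCompact S := isClosed_closedBall.isCompact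
    have hSs : S ⊆ (extChartAt 𝓘(ℝ, E) j).source := fun z hz => hc.src j hj z hz
    set T : Set E := extChartAt 𝓘(ℝ, E) j '' S with hT
    have hTc : IsCompact T :=
      hSc.image_of_continuousOn ((continuousOn_extChartAt j).mono hSs)
    set Kj : Set E := (fun q : E × E => q.1 + q.2) '' (T ×ˢ closedBall (0 : E) R) with hKj
    have hKc : IsCompact Kj :=
      (hTc.prod (isCompact_closedBall (0 : E) R)).image continuous_add
    have hKt : Kj ⊆ (extChartAt 𝓘(ℝ, E) j).target := by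
      rintro _ ⟨⟨q1, q2⟩, ⟨⟨z, hz, rfl⟩, hq2⟩, rfl⟩
      apply hc.tgt j hj z hz
      show extChartAt 𝓘(ℝ, E) j z + q2 ∈ closedBall (extChartAt 𝓘(ℝ, E) j z) R
      rw [mem_closedBall, dist_eq_norm, add_sub_cancel_left]
      have : q2 ∈ closedBall (0 : E) R := hq2
      rwa [mem_closedBall, dist_zero_right] at this
    obtain ⟨m1, hm1, hlow⟩ := A_low he hinj hKt hKc
    obtain ⟨m2, hup⟩ := hKc.exists_bound_of_continuousOn (A_cont he hKt)
    refine ⟨max m1 m2, hm1.trans (le_max_left _ _), fun z hz y hy w => ?_⟩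
    have hyK : y ∈ Kj := by
      refine ⟨(extChartAt 𝓘(ℝ, E) j z, y - extChartAt 𝓘(ℝ, E) j z), ⟨⟨z, hz, rfl⟩, ?_⟩, ?_⟩
      · show y - extChartAt 𝓘(ℝ, E) j z ∈ closedBall (0 : E) R
        rw [mem_closedBall, dist_zero_right, ← dist_eq_norm]
        exact hy
      · show extChartAt 𝓘(ℝ, E) j z + (y - extChartAt 𝓘(ℝ, E) j z) = y
        abel
    refine ⟨(hlow y hyK w).trans (mul_le_mul_of_nonneg_right (le_max_left _ _) (norm_nonneg _)), ?_⟩
    refine ((fderiv ℝ (hatMap e j) y).le_opNorm w).trans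
      (mul_le_mul_of_nonneg_right ?_ (norm_nonneg _))
    exact (hup y hyK).trans (le_max_right _ _)
  choose! mf hmf0 hmf using hloc
  refine ⟨1 + ∑ j ∈ t, mf j, le_add_of_nonneg_right (Finset.sum_nonneg hmf0), ?_⟩
  intro j hj z hz y hy w
  have hle : mf j ≤ 1 + ∑ j ∈ t, mf j := by
    have := Finset.single_le_sum hmf0 hj
    linarith
  obtain ⟨h1, h2⟩ := hmf j hj z hz y hy w
  exact ⟨h1.trans (mul_le_mul_of_nonneg_right hle (norm_nonneg _)),
    h2.trans (mul_le_mul_of_nonneg_right hle (norm_nonneg _))⟩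

/-- The estimates for a chain. -/
theorem chain_est {e : M → F} (he : ContMDiff 𝓘(ℝ, E) 𝓘(ℝ, F) 1 e)
    (hinj : ∀ x, Function.Injective (dm E e x)) {f : M ≃ₜ M} {Es Eu : M → Submodule ℝ E}
    {C a b Ls Lu : ℝ} (h : EAnosov e f Es Eu C a b Ls Lu) {π : M → E →L[ℝ] E}
    (hπ : IsPi π Es Eu) {m : ℝ} (hm : 1 ≤ m) {N : ℕ} {j : ℕ → M} {y : ℕ → E}
    (hmy : ∀ i ≤ N, ∀ w, ‖w‖ ≤ m * ‖fderiv ℝ (hatMap e (j i)) (y i) w‖ ∧
        ‖fderiv ℝ (hatMap e (j i)) (y i) w‖ ≤ m * ‖w‖)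
    (htar : ∀ i ≤ N, y i ∈ (extChartAt 𝓘(ℝ, E) (j i)).target)
    (hsrc : ∀ i < N, f ((ps E (j i)).symm (y i)) ∈ (ps E (j (i + 1))).source)
    (horb : ∀ i < N, y (i + 1) = rep f (j i) (j (i + 1)) (y i)) {τ : ℝ}
    (hτ : τ ∈ Icc (0 : ℝ) 1) (ws wu : ℕ → E) (hws : ∀ i ≤ N, Pj π (j i) (y i) (ws i) = ws i)
    (hwu : ∀ i ≤ N, Pj π (j i) (y i) (wu i) = 0)
    (hs : ∀ i < N, ws (i + 1) = τ • fderiv ℝ (rep f (j i) (j (i + 1))) (y i) (ws i))
    (hu : ∀ i < N, fderiv ℝ (rep f (j i) (j (i + 1))) (y i) (wu i) = τ • wu (i + 1)) :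
    ‖ws N‖ ≤ m * (C * (m * ‖ws 0‖)) ∧ ‖wu 0‖ ≤ m * (C * (m * ‖wu N‖)) := by
  set p : ℕ → M := fun i => (extChartAt 𝓘(ℝ, E) (j i)).symm (y i) with hp
  have hpf : ∀ i < N, p (i + 1) = f (p i) := by
    intro i hi
    show (extChartAt 𝓘(ℝ, E) (j (i + 1))).symm (y (i + 1)) = _
    rw [horb i hi]
    exact (extChartAt 𝓘(ℝ, E) (j (i + 1))).left_inv (hsrc i hi)
  have hstep : ∀ i < N, ∀ v, fderiv ℝ (rep f (j i) (j (i + 1))) (y i)
      (dm E (extChartAt 𝓘(ℝ, E) (j i)) (p i) v) =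
      dm E (extChartAt 𝓘(ℝ, E) (j (i + 1))) (p (i + 1)) (dg E f (p i) v) := by
    intro i hi v
    have h1 := rep_fderiv h.smooth (j := j i) (j' := j (i + 1))
      ((extChartAt 𝓘(ℝ, E) (j i)).map_target (htar i hi.le)) (hsrc i hi) v
    rw [(extChartAt 𝓘(ℝ, E) (j i)).right_inv (htar i hi.le)] at h1
    rw [hpf i hi]
    exact h1
  have hDs : ∀ i, ∃ v, i ≤ N → dm E (extChartAt 𝓘(ℝ, E) (j i)) (p i) v = ws i := by
    intro i
    by_cases hi : i ≤ N
    · obtain ⟨v, hv⟩ := exists_D he hinj (htar i hi) (ws i)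
      exact ⟨v, fun _ => hv⟩
    · exact ⟨0, fun h => absurd h hi⟩
  have hDu : ∀ i, ∃ v, i ≤ N → dm E (extChartAt 𝓘(ℝ, E) (j i)) (p i) v = wu i := by
    intro i
    by_cases hi : i ≤ N
    · obtain ⟨v, hv⟩ := exists_D he hinj (htar i hi) (wu i)
      exact ⟨v, fun _ => hv⟩
    · exact ⟨0, fun h => absurd h hi⟩
  choose vs hvs using hDs
  choose vu hvu using hDu
  have hDinj : ∀ i ≤ N, Function.Injective (dm E (extChartAt 𝓘(ℝ, E) (j i)) (p i)) :=
    fun i hi => Dc_inj he hinj ((extChartAt 𝓘(ℝ, E) (j i)).map_target (htar i hi))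
  have hC0 : 0 ≤ C := zero_le_one.trans h.C_pos
  have hm0 : 0 ≤ m := zero_le_one.trans hm
  have hA : ∀ i ≤ N, ∀ v, fderiv ℝ (hatMap e (j i)) (y i)
      (dm E (extChartAt 𝓘(ℝ, E) (j i)) (p i) v) = dm E e (p i) v :=
    fun i hi v => A_D he (htar i hi) v
  constructor
  · have hmem : vs 0 ∈ Es (p 0) := by
      apply Pj_fix he hinj hπ (htar 0 (Nat.zero_le _)) (vs 0)
      have h1 := hvs 0 (Nat.zero_le _)
      show Pj π (j 0) (y 0) (dm E (extChartAt 𝓘(ℝ, E) (j 0)) (p 0) (vs 0)) =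
        dm E (extChartAt 𝓘(ℝ, E) (j 0)) (p 0) (vs 0)
      rw [h1]
      exact hws 0 (Nat.zero_le _)
    have hrec : ∀ i < N, vs (i + 1) = τ • dg E f (p i) (vs i) := by
      intro i hi
      apply hDinj (i + 1) hi
      rw [hvs (i + 1) hi, hs i hi, ← hvs i hi.le, hstep i hi, map_smul]
    have h1 := tan_est h N p vs hτ hpf hrec hmem
    rw [← hA N le_rfl, ← hA 0 (Nat.zero_le _), hvs N le_rfl, hvs 0 (Nat.zero_le _)] at h1
    refine ((hmy N le_rfl (ws N)).1).trans (mul_le_mul_of_nonneg_left (h1.trans ?_) hm0)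
    exact mul_le_mul_of_nonneg_left (hmy 0 (Nat.zero_le _) (ws 0)).2 hC0
  · have hmem : vu N ∈ Eu (p N) := by
      apply Pj_ker he hinj hπ (htar N le_rfl) (vu N)
      have h1 := hvu N le_rfl
      show Pj π (j N) (y N) (dm E (extChartAt 𝓘(ℝ, E) (j N)) (p N) (vu N)) = 0
      rw [h1]
      exact hwu N le_rfl
    have hrec : ∀ i < N, dg E f (p i) (vu i) = τ • vu (i + 1) := by
      intro i hi
      apply hDinj (i + 1) hi
      rw [← hstep i hi, hvu i hi.le, hu i hi, map_smul, hvu (i + 1) hi]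
    have h1 := tan_est h.symm N (fun k => p (N - k)) (fun k => vu (N - k)) hτ
      (fun k hk => by
        have e1 : N - k = (N - (k + 1)) + 1 := by omega
        have h2 := hpf (N - (k + 1)) (by omega)
        show p (N - (k + 1)) = f.symm (p (N - k))
        rw [e1, h2, Homeomorph.symm_apply_apply])
      (fun k hk => by
        have e1 : N - k = (N - (k + 1)) + 1 := by omega
        have h2 := hpf (N - (k + 1)) (by omega)
        have h3 := hrec (N - (k + 1)) (by omega)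
        have h4 := dg_inv (E₀ := E) f f.symm h.smooth h.smooth' (fun x => f.symm_apply_apply x)
          (p (N - (k + 1))) (vu (N - (k + 1)))
        show vu (N - (k + 1)) = τ • dg E f.symm (p (N - k)) (vu (N - k))
        rw [h3, map_smul, ← h2, ← e1] at h4
        exact h4.symm)
      (by simpa using hmem)
    simp only [Nat.sub_self, Nat.sub_zero] at h1
    rw [← hA N le_rfl, ← hA 0 (Nat.zero_le _), hvu N le_rfl, hvu 0 (Nat.zero_le _)] at h1
    refine ((hmy 0 (Nat.zero_le _) (wu 0)).1).trans (mul_le_mul_of_nonneg_left (h1.trans ?_) hm0)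
    exact mul_le_mul_of_nonneg_left (hmy N le_rfl (wu N)).2 hC0

end man

end MHYP

open MHYP in
theorem t_HYP (_ha : S_M1a.{u, v, w}) : S_HYP.{u, v, w} := by
  intro E _ _ _ M _ _ _ _ F _ _ e he hinj f Es Eu C₁ a₁ b₁ Ls Lu h π hπ t ρ R ρ₀ hc s w a b ja jb
    B₀ C₀ hga hgb hB₀ hC₀
  obtain ⟨m, hm, hcmp⟩ := cmp he hinj hc
  have hC1 : 1 ≤ C₁ := h.C_pos
  set K : ℝ := m * C₁ * m with hK
  have hK1 : 1 ≤ K := by
    have h1 : 1 ≤ m * C₁ := one_le_mul_of_one_le_of_one_le hm hC1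
    exact one_le_mul_of_one_le_of_one_le h1 hm
  set θ : ℝ := 1 / (2 * K) with hθ
  have hθ0 : 0 < θ := by positivity
  have hθK : θ * K = 1 / 2 := by
    rw [hθ]; field_simp
  have hta := hc.tgt ja hga.1 a hga.2
  have htb := hc.tgt jb hgb.1 b hgb.2
  have hyat : ps E ja a ∈ (extChartAt 𝓘(ℝ, E) ja).target := hta (mem_closedBall_self hc.R_pos.le)
  have hybt : ps E jb b ∈ (extChartAt 𝓘(ℝ, E) jb).target := htb (mem_closedBall_self hc.R_pos.le)
  have hPa : ContinuousAt (Pj π ja) (ps E ja a) :=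
    (Pj_cont he hinj h hπ hta (isCompact_closedBall _ _)).continuousAt
      (closedBall_mem_nhds _ hc.R_pos)
  have hPb : ContinuousAt (Pj π jb) (ps E jb b) :=
    (Pj_cont he hinj h hπ htb (isCompact_closedBall _ _)).continuousAt
      (closedBall_mem_nhds _ hc.R_pos)
  obtain ⟨δ₁, hδ₁, hend1⟩ := end_est hPa (B₀ := B₀) (fun v => Pj_proj he hinj hπ hyat v) hB₀ hθ0
  have hQb : ContinuousAt (fun y => ContinuousLinearMap.id ℝ E - Pj π jb y) (ps E jb b) :=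
    continuousAt_const.sub hPb
  obtain ⟨δ₂, hδ₂, hend2⟩ := end_est hQb (B₀ := C₀)
    (fun v => by
      show (v - Pj π jb (ps E jb b) v) - Pj π jb (ps E jb b) (v - Pj π jb (ps E jb b) v) =
        v - Pj π jb (ps E jb b) v
      rw [map_sub, Pj_proj he hinj hπ hybt v, sub_self, sub_zero])
    (fun v => by
      show C₀ v = 0 ↔ v - Pj π jb (ps E jb b) v = 0
      rw [hC₀ v, sub_eq_zero]
      exact eq_comm) hθ0
  refine ⟨min δ₁ δ₂, lt_min hδ₁ hδ₂, fun B C hB hC => ⟨?_, ?_, ?_⟩⟩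
  · intro y hy v hv hBv
    have h1 := hend1 B (hB.trans_le (min_le_left _ _)) y (hy.trans_le (min_le_left _ _)) v 0 hv
      (map_zero _) 0 ⟨le_rfl, zero_le_one⟩ (by rw [smul_zero, add_zero]; exact hBv)
    rw [norm_zero, mul_zero] at h1
    exact norm_le_zero_iff.mp h1
  · intro y hy v hv hCv
    have h1 := hend2 C (hC.trans_le (min_le_right _ _)) y (hy.trans_le (min_le_right _ _)) v 0
      (by show v - Pj π jb y v = v; rw [hv, sub_zero])
      (map_zero _) 0 ⟨le_rfl, zero_le_one⟩ (by rw [smul_zero, add_zero]; exact hCv)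
    rw [norm_zero, mul_zero] at h1
    exact norm_le_zero_iff.mp h1
  · intro N j y hjt hj0 hjN hyz hsrc horb hy0 hyN τ hτ ws wu hws hwu hs hu hBw hCw
    have htar : ∀ i ≤ N, y i ∈ (extChartAt 𝓘(ℝ, E) (j i)).target := by
      intro i hi
      obtain ⟨z, hz, hyi⟩ := hyz i hi
      exact hc.tgt _ hz.1 z hz.2 hyi
    have hmy : ∀ i ≤ N, ∀ w, ‖w‖ ≤ m * ‖fderiv ℝ (hatMap e (j i)) (y i) w‖ ∧
        ‖fderiv ℝ (hatMap e (j i)) (y i) w‖ ≤ m * ‖w‖ := by
      intro i hi w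
      obtain ⟨z, hz, hyi⟩ := hyz i hi
      exact hcmp _ hz.1 z hz.2 _ hyi w
    obtain ⟨e1, e2⟩ := chain_est he hinj h hπ hm hmy htar hsrc horb hτ ws wu hws hwu hs hu
    have e3 : ‖ws 0‖ ≤ θ * ‖wu 0‖ := by
      have h1 := hws 0 (Nat.zero_le _)
      have h2 := hwu 0 (Nat.zero_le _)
      rw [hj0] at h1 h2
      exact hend1 B (hB.trans_le (min_le_left _ _)) (y 0) (hy0.trans_le (min_le_left _ _))
        (ws 0) (wu 0) h1 h2 τ hτ hBw
    have e4 : ‖wu N‖ ≤ θ * ‖ws N‖ := by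
      have h1 := hws N le_rfl
      have h2 := hwu N le_rfl
      rw [hjN] at h1 h2
      refine hend2 C (hC.trans_le (min_le_right _ _)) (y N) (hyN.trans_le (min_le_right _ _))
        (wu N) (ws N) ?_ ?_ τ hτ (by rw [add_comm]; exact hCw)
      · show wu N - Pj π jb (y N) (wu N) = wu N
        rw [h2, sub_zero]
      · show ws N - Pj π jb (y N) (ws N) = 0
        rw [h1, sub_self]
    have e1' : ‖ws N‖ ≤ K * ‖ws 0‖ := by
      rw [hK]; linarith [e1]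
    have e2' : ‖wu 0‖ ≤ K * ‖wu N‖ := by
      rw [hK]; linarith [e2]
    have hn0 := norm_nonneg (ws 0)
    have g1 : ‖ws 0‖ ≤ 1 / 2 * ‖wu N‖ := by
      calc ‖ws 0‖ ≤ θ * ‖wu 0‖ := e3
        _ ≤ θ * (K * ‖wu N‖) := by gcongr
        _ = (θ * K) * ‖wu N‖ := by ring
        _ = 1 / 2 * ‖wu N‖ := by rw [hθK]
    have g2 : ‖wu N‖ ≤ 1 / 2 * ‖ws 0‖ := by
      calc ‖wu N‖ ≤ θ * ‖ws N‖ := e4
        _ ≤ θ * (K * ‖ws 0‖) := by gcongr
        _ = (θ * K) * ‖ws 0‖ := by ring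
        _ = 1 / 2 * ‖ws 0‖ := by rw [hθK]
    have z1 : ws 0 = 0 := norm_le_zero_iff.mp (by linarith)
    have z2 : wu N = 0 := norm_le_zero_iff.mp (by rw [z1, norm_zero] at g2; linarith)
    have zs : ∀ i ≤ N, ws i = 0 := by
      intro i
      induction i with
      | zero => exact fun _ => z1
      | succ i ih =>
        intro hi
        rw [hs i hi, ih (by omega), map_zero, smul_zero]
    have zu : ∀ k ≤ N, wu (N - k) = 0 := by
      intro k
      induction k with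
      | zero => exact fun _ => z2
      | succ k ih =>
        intro hk
        have h1 := ih (by omega)
        have h2 := hu (N - (k + 1)) (by omega)
        have h3 : N - (k + 1) + 1 = N - k := by omega
        rw [h3, h1, smul_zero] at h2
        have hsr := hsrc (N - (k + 1)) (by omega)
        have hin := rep_inj he hinj h (htar (N - (k + 1)) (by omega)) hsr
        rw [h3] at hin
        exact hin (h2.trans (map_zero _).symm)
    intro i hi
    refine ⟨zs i hi, ?_⟩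
    have := zu (N - i) (by omega)
    have h4 : N - (N - i) = i := by omega
    rwa [h4] at this

end Pool.Agent.H963.CJ
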