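import Pool.Agent.H963.CJ.MDef

/-!
# The derivative cocycle of an Anosov diffeomorphism in charts is hyperbolic (helper376)
-/

set_option autoImplicit false
set_option linter.unusedSectionVars false

open Set Filter Topology Metric
open scoped Manifold ContDiff

namespace Pool.Agent.H963.CJ.MM1a

open Pool.Agent.H721R2 Pool.Agent.H789R2.AN Pool.Agent.TH289 Pool.Agent.H244.Dyn
  Pool.Agent.H244.Loc Pool.Agent.H963.CJ

/-- constants for a finite family -/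
theorem fin_max {α : Type*} (t : Finset α) (Q : α → ℝ → Prop)
    (hmono : ∀ a δ δ', δ ≤ δ' → Q a δ → Q a δ') (h : ∀ a ∈ t, ∃ δ, Q a δ) :
    ∃ δ ≥ 1, ∀ a ∈ t, Q a δ := by
  classical
  induction t using Finset.induction_on with
  | empty => exact ⟨1, le_rfl, fun a ha => absurd ha (Finset.notMem_empty a)⟩
  | insert b t hb ih =>
    obtain ⟨δ₁, h1, h1'⟩ := ih fun a ha => h a (Finset.mem_insert_of_mem ha)
    obtain ⟨δ₂, h2⟩ := h b (Finset.mem_insert_self b t)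
    refine ⟨max δ₁ δ₂, h1.trans (le_max_left _ _), fun a ha => ?_⟩
    rcases Finset.mem_insert.mp ha with rfl | ha
    · exact hmono _ _ _ (le_max_right _ _) h2
    · exact hmono _ _ _ (le_max_left _ _) (h1' a ha)

variable {E : Type*} [NormedAddCommGroup E] [NormedSpace ℝ E] [FiniteDimensional ℝ E]
  {M : Type*} [MetricSpace M] [CompactSpace M] [ChartedSpace E M] [IsManifold 𝓘(ℝ, E) 1 M]
  {F : Type*} [NormedAddCommGroup F] [NormedSpace ℝ F]

/-- the norms in the charts -/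
theorem comp_norm {e : M → F} (he : ContMDiff 𝓘(ℝ, E) 𝓘(ℝ, F) 1 e)
    (hinj : ∀ x, Function.Injective (dm E e x)) {t : Finset M} {ρ : M → ℝ} {R ρ₀ : ℝ}
    (hG : GCh E t ρ R ρ₀) :
    ∃ m ≥ (1 : ℝ), ∀ j z, Gw t ρ j z → ∀ w : E,
      ‖w‖ ≤ m * ‖fderiv ℝ (hatMap e j) (extChartAt 𝓘(ℝ, E) j z) w‖ ∧
      ‖fderiv ℝ (hatMap e j) (extChartAt 𝓘(ℝ, E) j z) w‖ ≤ m * ‖w‖ := by
  have key : ∃ m ≥ (1 : ℝ), ∀ j ∈ t, 0 ≤ m ∧ ∀ z, dist z j ≤ 2 * ρ j → ∀ w : E,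
      ‖w‖ ≤ m * ‖fderiv ℝ (hatMap e j) (extChartAt 𝓘(ℝ, E) j z) w‖ ∧
      ‖fderiv ℝ (hatMap e j) (extChartAt 𝓘(ℝ, E) j z) w‖ ≤ m * ‖w‖ := by
    refine fin_max t (fun j m => 0 ≤ m ∧ ∀ z, dist z j ≤ 2 * ρ j → ∀ w : E,
      ‖w‖ ≤ m * ‖fderiv ℝ (hatMap e j) (extChartAt 𝓘(ℝ, E) j z) w‖ ∧
      ‖fderiv ℝ (hatMap e j) (extChartAt 𝓘(ℝ, E) j z) w‖ ≤ m * ‖w‖) ?_ ?_
    · rintro j δ δ' hδ ⟨h1, h2⟩
      refine ⟨h1.trans hδ, fun z hz w => ?_⟩
      obtain ⟨h3, h4⟩ := h2 z hz w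
      exact ⟨h3.trans (mul_le_mul_of_nonneg_right hδ (norm_nonneg _)),
        h4.trans (mul_le_mul_of_nonneg_right hδ (norm_nonneg _))⟩
    · intro j hj
      have hs : extChartAt 𝓘(ℝ, E) j '' closedBall j (2 * ρ j) ⊆ (extChartAt 𝓘(ℝ, E) j).target := by
        rintro _ ⟨z, hz, rfl⟩
        exact (extChartAt 𝓘(ℝ, E) j).map_source (hG.src j hj z hz)
      have hc : IsCompact (extChartAt 𝓘(ℝ, E) j '' closedBall j (2 * ρ j)) :=
        isClosed_closedBall.isCompact.image_of_continuousOn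
          ((continuousOn_extChartAt j).mono fun z hz => hG.src j hj z hz)
      obtain ⟨m, hm0, hm⟩ := A_low he hinj hs hc
      obtain ⟨K, hK⟩ := hc.exists_bound_of_continuousOn (A_cont he hs)
      refine ⟨max m K, hm0.trans (le_max_left _ _), fun z hz w => ⟨?_, ?_⟩⟩
      · exact (hm _ ⟨z, hz, rfl⟩ w).trans
          (mul_le_mul_of_nonneg_right (le_max_left _ _) (norm_nonneg _))
      · refine (ContinuousLinearMap.le_opNorm _ _).trans
          (mul_le_mul_of_nonneg_right ?_ (norm_nonneg _))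
        exact (hK _ ⟨z, hz, rfl⟩).trans (le_max_right _ _)
  obtain ⟨m, hm, h⟩ := key
  exact ⟨m, hm, fun j z hz => (h j hz.1).2 z hz.2⟩

/-- the products of the derivatives -/
theorem Pr_D {g : M ≃ₜ M} (hg : ContMDiff 𝓘(ℝ, E) 𝓘(ℝ, E) 1 g) {z j : ℕ → M}
    (hz : ∀ i, z (i + 1) = g (z i)) (hs : ∀ i, z i ∈ (extChartAt 𝓘(ℝ, E) (j i)).source)
    (i : ℕ) (v : E) (k : ℕ) :
    z (i + k) = g^[k] (z i) ∧
    Pr (fun i => fderiv ℝ (rep g (j i) (j (i + 1))) (extChartAt 𝓘(ℝ, E) (j i) (z i))) i k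
      (dm E (extChartAt 𝓘(ℝ, E) (j i)) (z i) v) =
      dm E (extChartAt 𝓘(ℝ, E) (j (i + k))) (z (i + k)) (dg E (g^[k]) (z i) v) := by
  induction k with
  | zero =>
    refine ⟨rfl, ?_⟩
    have h1 : dg E (g^[0]) (z i) v = v := by
      show mfderiv 𝓘(ℝ, E) 𝓘(ℝ, E) id (z i) v = v
      rw [mfderiv_id]; rfl
    rw [h1]
    rfl
  | succ k ih =>
    have e1 : z (i + (k + 1)) = g^[k + 1] (z i) := by
      rw [← add_assoc, hz, ih.1, Function.iterate_succ_apply']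
    refine ⟨e1, ?_⟩
    show fderiv ℝ (rep g (j (i + k)) (j (i + k + 1))) (extChartAt 𝓘(ℝ, E) (j (i + k)) (z (i + k)))
      (Pr (fun i => fderiv ℝ (rep g (j i) (j (i + 1))) (extChartAt 𝓘(ℝ, E) (j i) (z i))) i k
      (dm E (extChartAt 𝓘(ℝ, E) (j i)) (z i) v)) = _
    rw [ih.2, rep_fderiv hg (hs (i + k)) (by rw [← hz]; exact hs (i + k + 1))]
    have e2 : g^[k + 1] = g ∘ g^[k] := Function.iterate_succ' _ _
    have e3 : dg E (g^[k + 1]) (z i) v = dg E g (z (i + k)) (dg E (g^[k]) (z i) v) := by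
      rw [e2, dg_comp _ _ (iter_smooth g hg k) hg, ih.1]
    rw [e3, ← hz]
    rfl

end Pool.Agent.H963.CJ.MM1a

namespace Pool.Agent.H963.CJ

open Pool.Agent.H721R2 Pool.Agent.H789R2.AN Pool.Agent.TH289 Pool.Agent.H244.Dyn
  Pool.Agent.H244.Loc

universe u v w

theorem t_M1a : S_M1a.{u, v, w} := by
  intro E _ _ _ M _ _ _ _ F _ _ e he hinj g Es Eu C a b Ls Lu h π hπ t ρ R ρ₀ hG
  obtain ⟨m, hm, hcmp⟩ := MM1a.comp_norm he hinj hG
  obtain ⟨K, hK, hang⟩ := h.angle he hinj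
  have hC := h.C_pos
  have hm0 : 0 < m := by linarith
  have hK0 : 0 < K := by linarith
  have hC0 : 0 < C := by linarith
  have hmm : 1 ≤ m * m := by nlinarith
  have hB1 : m * m * C ≤ m * m * K * C := by
    have h1 : m * m * 1 ≤ m * m * K := mul_le_mul_of_nonneg_left hK (by positivity)
    rw [mul_one] at h1
    exact mul_le_mul_of_nonneg_right h1 hC0.le
  have hB2 : m * m * K ≤ m * m * K * C := le_mul_of_one_le_right (by positivity) hC
  refine ⟨m * m * K * C, max a b, ?_, lt_max_of_lt_left h.a_pos, max_lt h.a_lt h.b_lt,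
    fun z j hz hj => ?_⟩
  · have h1 : 1 ≤ m * m * K := by nlinarith
    nlinarith
  have hs : ∀ i, z i ∈ (extChartAt 𝓘(ℝ, E) (j i)).source := fun i =>
    hG.src (j i) (hj i).1 (z i) (hj i).2
  have ht : ∀ i, extChartAt 𝓘(ℝ, E) (j i) (z i) ∈ (extChartAt 𝓘(ℝ, E) (j i)).target := fun i =>
    (extChartAt 𝓘(ℝ, E) (j i)).map_source (hs i)
  have hl : ∀ i, (extChartAt 𝓘(ℝ, E) (j i)).symm (extChartAt 𝓘(ℝ, E) (j i) (z i)) = z i := fun i =>
    (extChartAt 𝓘(ℝ, E) (j i)).left_inv (hs i)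
  have hgs : ∀ i, g ((extChartAt 𝓘(ℝ, E) (j i)).symm (extChartAt 𝓘(ℝ, E) (j i) (z i))) ∈
      (extChartAt 𝓘(ℝ, E) (j (i + 1))).source := by
    intro i
    rw [hl, ← hz]
    exact hs (i + 1)
  have hrep : ∀ i, rep g (j i) (j (i + 1)) (extChartAt 𝓘(ℝ, E) (j i) (z i)) =
      extChartAt 𝓘(ℝ, E) (j (i + 1)) (z (i + 1)) := by
    intro i
    unfold rep
    rw [hl, ← hz]
  -- the norm of the image of a vector of the tangent space
  have hn1 : ∀ i v, ‖dm E (extChartAt 𝓘(ℝ, E) (j i)) (z i) v‖ ≤ m * ‖dm E e (z i) v‖ := by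
    intro i v
    have h1 := (hcmp (j i) (z i) (hj i) (dm E (extChartAt 𝓘(ℝ, E) (j i)) (z i) v)).1
    have h2 := A_D he (ht i) v
    rw [hl] at h2
    rwa [h2] at h1
  have hn2 : ∀ i v, ‖dm E e (z i) v‖ ≤ m * ‖dm E (extChartAt 𝓘(ℝ, E) (j i)) (z i) v‖ := by
    intro i v
    have h1 := (hcmp (j i) (z i) (hj i) (dm E (extChartAt 𝓘(ℝ, E) (j i)) (z i) v)).2
    have h2 := A_D he (ht i) v
    rw [hl] at h2
    rwa [h2] at h1
  have hD : ∀ i w, ∃ v, dm E (extChartAt 𝓘(ℝ, E) (j i)) (z i) v = w := by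
    intro i w
    obtain ⟨v, hv⟩ := exists_D he hinj (ht i) w
    rw [hl] at hv
    exact ⟨v, hv⟩
  have hPD : ∀ i v, Pj π (j i) (extChartAt 𝓘(ℝ, E) (j i) (z i))
      (dm E (extChartAt 𝓘(ℝ, E) (j i)) (z i) v) =
      dm E (extChartAt 𝓘(ℝ, E) (j i)) (z i) (π (z i) v) := by
    intro i v
    have h1 := Pj_D he hinj π (ht i) v
    rwa [hl] at h1
  refine ⟨?_, lt_max_of_lt_left h.a_pos, max_lt h.a_lt h.b_lt, ?_, ?_, ?_, ?_, ?_, ?_⟩
  · have h1 : 1 ≤ m * m * K := by nlinarith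
    nlinarith
  · exact fun i => rep_inj he hinj h (ht i) (hgs i)
  · intro i
    ext w
    exact Pj_proj he hinj hπ (ht i) w
  · intro i
    refine ContinuousLinearMap.opNorm_le_bound _ (by positivity) fun w => ?_
    obtain ⟨v, rfl⟩ := hD i w
    show ‖Pj π (j i) (extChartAt 𝓘(ℝ, E) (j i) (z i))
      (dm E (extChartAt 𝓘(ℝ, E) (j i)) (z i) v)‖ ≤ _
    rw [hPD]
    have h1 := (hang (z i) _ (hπ.ms (z i) v) _ (hπ.mu (z i) v)).1
    rw [add_sub_cancel] at h1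
    calc ‖dm E (extChartAt 𝓘(ℝ, E) (j i)) (z i) (π (z i) v)‖
        ≤ m * ‖dm E e (z i) (π (z i) v)‖ := hn1 i _
      _ ≤ m * (K * (m * ‖dm E (extChartAt 𝓘(ℝ, E) (j i)) (z i) v‖)) := by
          refine mul_le_mul_of_nonneg_left (h1.trans ?_) hm0.le
          exact mul_le_mul_of_nonneg_left (hn2 i v) hK0.le
      _ = m * m * K * ‖dm E (extChartAt 𝓘(ℝ, E) (j i)) (z i) v‖ := by ring
      _ ≤ _ := mul_le_mul_of_nonneg_right hB2 (norm_nonneg _)
  · intro i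
    have h1 := Pj_inv he hinj h hπ (ht i) (hgs i)
    rw [hrep] at h1
    exact h1
  · intro i k v hv
    obtain ⟨v, rfl⟩ := hD i v
    have hv' : v ∈ Es (z i) := by
      have h1 : Pj π (j i) (extChartAt 𝓘(ℝ, E) (j i) (z i))
        (dm E (extChartAt 𝓘(ℝ, E) (j i)) (z i) v) =
        dm E (extChartAt 𝓘(ℝ, E) (j i)) (z i) v := hv
      rw [hPD] at h1
      rw [← Dc_inj he hinj (hs i) h1]
      exact hπ.ms _ _
    obtain ⟨e1, e2⟩ := MM1a.Pr_D h.smooth hz hs i v k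
    rw [e2]
    have h3 := h.hS k (z i) v hv'
    rw [← e1] at h3
    have h4 : a ^ k ≤ max a b ^ k := pow_le_pow_left₀ h.a_pos.le (le_max_left _ _) k
    have h5 : 0 ≤ a ^ k := pow_nonneg h.a_pos.le k
    calc ‖dm E (extChartAt 𝓘(ℝ, E) (j (i + k))) (z (i + k)) (dg E (g^[k]) (z i) v)‖
        ≤ m * ‖dm E e (z (i + k)) (dg E (g^[k]) (z i) v)‖ := hn1 _ _
      _ ≤ m * (C * a ^ k * (m * ‖dm E (extChartAt 𝓘(ℝ, E) (j i)) (z i) v‖)) := by
          refine mul_le_mul_of_nonneg_left (h3.trans ?_) hm0.le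
          exact mul_le_mul_of_nonneg_left (hn2 i v) (by positivity)
      _ = (m * m * C) * a ^ k * ‖dm E (extChartAt 𝓘(ℝ, E) (j i)) (z i) v‖ := by ring
      _ ≤ (m * m * K * C) * max a b ^ k * ‖dm E (extChartAt 𝓘(ℝ, E) (j i)) (z i) v‖ := by
          refine mul_le_mul_of_nonneg_right ?_ (norm_nonneg _)
          exact mul_le_mul hB1 h4 h5 (by positivity)
  · intro i k v hv
    obtain ⟨v, rfl⟩ := hD i v
    have hv' : v ∈ Eu (z i) := by
      have h1 : Pj π (j i) (extChartAt 𝓘(ℝ, E) (j i) (z i))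
        (dm E (extChartAt 𝓘(ℝ, E) (j i)) (z i) v) = 0 := hv
      rw [hPD] at h1
      have h2 := Dc_inj he hinj (hs i) (h1.trans (map_zero _).symm)
      have h3 := hπ.mu (z i) v
      rwa [h2, sub_zero] at h3
    obtain ⟨e1, e2⟩ := MM1a.Pr_D h.smooth hz hs i v k
    rw [e2]
    have h3 := h.hU' k (g^[k] (z i)) _ (h.mapU k (z i) v hv')
    rw [dg_inv (g^[k]) (g.symm^[k]) (iter_smooth g h.smooth k) (iter_smooth _ h.smooth' k)
      (iter_left g k), iter_left, ← e1] at h3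
    have h4 : b ^ k ≤ max a b ^ k := pow_le_pow_left₀ h.b_pos.le (le_max_right _ _) k
    have h5 : 0 ≤ b ^ k := pow_nonneg h.b_pos.le k
    calc ‖dm E (extChartAt 𝓘(ℝ, E) (j i)) (z i) v‖
        ≤ m * ‖dm E e (z i) v‖ := hn1 _ _
      _ ≤ m * (C * b ^ k * (m * ‖dm E (extChartAt 𝓘(ℝ, E) (j (i + k))) (z (i + k))
          (dg E (g^[k]) (z i) v)‖)) := by
          refine mul_le_mul_of_nonneg_left (h3.trans ?_) hm0.le
          exact mul_le_mul_of_nonneg_left (hn2 _ _) (by positivity)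
      _ = (m * m * C) * b ^ k * ‖dm E (extChartAt 𝓘(ℝ, E) (j (i + k))) (z (i + k))
          (dg E (g^[k]) (z i) v)‖ := by ring
      _ ≤ (m * m * K * C) * max a b ^ k * ‖dm E (extChartAt 𝓘(ℝ, E) (j (i + k))) (z (i + k))
          (dg E (g^[k]) (z i) v)‖ := by
          refine mul_le_mul_of_nonneg_right ?_ (norm_nonneg _)
          exact mul_le_mul hB1 h4 h5 (by positivity)

end Pool.Agent.H963.CJ
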