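import Pool.Agent.H963.CJ.MDef

/-!
# Part M1b: uniform linear approximation of the maps `C⁰`-close to a `C¹` map, in good charts (helper263)
-/

set_option autoImplicit false
set_option linter.unusedSectionVars false

open Set Filter Topology Metric
open scoped Manifold ContDiff

universe u v w

namespace Pool.Agent.H963.CJ.MM1b

open Pool.Agent.H721R2 Pool.Agent.H789R2.AN Pool.Agent.TH289 Pool.Agent.H244.Dyn
  Pool.Agent.H244.Loc

variable {E : Type u} [NormedAddCommGroup E] [NormedSpace ℝ E] [FiniteDimensional ℝ E]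
  {M : Type v} [MetricSpace M] [CompactSpace M] [ChartedSpace E M] [IsManifold 𝓘(ℝ, E) 1 M]

variable (E) in
/-- the set on which `rep g j j'` is defined -/
def OO (g : M → M) (j j' : M) : Set E :=
  {y | y ∈ (extChartAt 𝓘(ℝ, E) j).target ∧
    g ((extChartAt 𝓘(ℝ, E) j).symm y) ∈ (extChartAt 𝓘(ℝ, E) j').source}

theorem cont_gs {g : M → M} (hg : ContMDiff 𝓘(ℝ, E) 𝓘(ℝ, E) 1 g) (j : M) :
    ContinuousOn (fun y => g ((extChartAt 𝓘(ℝ, E) j).symm y)) (extChartAt 𝓘(ℝ, E) j).target :=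
  hg.continuous.comp_continuousOn (continuousOn_extChartAt_symm j)

theorem OO_open {g : M → M} (hg : ContMDiff 𝓘(ℝ, E) 𝓘(ℝ, E) 1 g) (j j' : M) :
    IsOpen (OO E g j j') :=
  (cont_gs hg j).isOpen_inter_preimage (isOpen_extChartAt_target j) (isOpen_extChartAt_source j')

theorem rep_cd {g : M → M} (hg : ContMDiff 𝓘(ℝ, E) 𝓘(ℝ, E) 1 g) (j j' : M) :
    ContDiffOn ℝ 1 (rep g j j') (OO E g j j') := fun _ hy =>
  (rep_contDiffAt hg hy.1 hy.2).contDiffWithinAt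

variable (E) in
/-- the compact set of the points in the charts -/
def Kc (ρ : M → ℝ) (g : M → M) (j j' : M) : Set E :=
  (extChartAt 𝓘(ℝ, E) j) '' {z | dist z j ≤ 2 * ρ j ∧ dist (g z) j' ≤ 2 * ρ j'}

theorem Kc_compact {g : M → M} (hg : ContMDiff 𝓘(ℝ, E) 𝓘(ℝ, E) 1 g) {t : Finset M} {ρ : M → ℝ}
    {R ρ₀ : ℝ} (hG : GCh E t ρ R ρ₀) {j : M} (hj : j ∈ t) (j' : M) :
    IsCompact (Kc E ρ g j j') := by
  have h1 : IsClosed {z | dist z j ≤ 2 * ρ j ∧ dist (g z) j' ≤ 2 * ρ j'} :=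
    (isClosed_le (continuous_id.dist continuous_const) continuous_const).inter
      (isClosed_le (hg.continuous.dist continuous_const) continuous_const)
  exact h1.isCompact.image_of_continuousOn
    ((continuousOn_extChartAt j).mono fun z hz => hG.src j hj z hz.1)

theorem Kc_sub {g : M → M} {t : Finset M} {ρ : M → ℝ}
    {R ρ₀ : ℝ} (hG : GCh E t ρ R ρ₀) {j j' : M} (hj : j ∈ t) (hj' : j' ∈ t) :
    Kc E ρ g j j' ⊆ OO E g j j' := by
  rintro _ ⟨z, hz, rfl⟩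
  have hs := hG.src j hj z hz.1
  refine ⟨(extChartAt 𝓘(ℝ, E) j).map_source hs, ?_⟩
  rw [(extChartAt 𝓘(ℝ, E) j).left_inv hs]
  exact hG.src j' hj' _ hz.2

/-- linear approximation at one pair of charts -/
theorem lin {g : M → M} (hg : ContMDiff 𝓘(ℝ, E) 𝓘(ℝ, E) 1 g) {j j' : M} {K : Set E}
    (hK : IsCompact K) (hKO : K ⊆ OO E g j j') {ν : ℝ} (hν : 0 < ν) {R1 : ℝ} (hR1 : 0 < R1) :
    ∃ δ > 0, cthickening δ K ⊆ OO E g j j' ∧ ∀ z ∈ K, ∀ y ∈ closedBall z δ,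
      ‖rep g j j' y - rep g j j' z - fderiv ℝ (rep g j j') z (y - z)‖ ≤ ν * ‖y - z‖ ∧
      dist (rep g j j' y) (rep g j j' z) ≤ R1 := by
  have hO := OO_open hg j j'
  have hcd := rep_cd hg j j'
  obtain ⟨δ₁, hδ₁, h1⟩ := hK.exists_cthickening_subset_open hO hKO
  obtain ⟨δ₂, hδ₂, h2⟩ := unif_near hK hO hKO
    (hcd.continuousOn_fderiv_of_isOpen hO le_rfl) hν
  obtain ⟨δ₃, hδ₃, h3⟩ := unif_near hK hO hKO hcd.continuousOn hR1
  refine ⟨min δ₁ (min (δ₂ / 2) (δ₃ / 2)), by positivity,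
    (cthickening_mono (min_le_left _ _) _).trans h1, fun z hz y hy => ⟨?_, ?_⟩⟩
  · have hle : min δ₁ (min (δ₂ / 2) (δ₃ / 2)) ≤ δ₂ / 2 :=
      (min_le_right _ _).trans (min_le_left _ _)
    have hball : ∀ x ∈ closedBall z (δ₂ / 2), x ∈ OO E g j j' ∧
        ‖fderiv ℝ (rep g j j') x - fderiv ℝ (rep g j j') z‖ ≤ ν := by
      intro x hx
      rw [mem_closedBall] at hx
      obtain ⟨a, b⟩ := h2 z hz x (by linarith)
      rw [dist_eq_norm] at b
      exact ⟨a, b.le⟩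
    have hd : ∀ x ∈ closedBall z (δ₂ / 2), HasFDerivWithinAt (rep g j j')
        (fderiv ℝ (rep g j j') x) (closedBall z (δ₂ / 2)) x := by
      intro x hx
      have hx' := (hball x hx).1
      exact (((rep_contDiffAt hg hx'.1 hx'.2).differentiableAt (by norm_num)).hasFDerivAt).hasFDerivWithinAt
    exact (convex_closedBall z (δ₂ / 2)).norm_image_sub_le_of_norm_hasFDerivWithin_le' hd
      (fun x hx => (hball x hx).2) (mem_closedBall_self (by positivity))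
      (closedBall_subset_closedBall hle hy)
  · have hle : min δ₁ (min (δ₂ / 2) (δ₃ / 2)) ≤ δ₃ / 2 :=
      (min_le_right _ _).trans (min_le_right _ _)
    rw [mem_closedBall] at hy
    exact (h3 z hz y (by linarith)).2.le

end Pool.Agent.H963.CJ.MM1b

namespace Pool.Agent.H963.CJ

open Pool.Agent.H721R2 Pool.Agent.H789R2.AN Pool.Agent.TH289 Pool.Agent.H244.Dyn
  Pool.Agent.H244.Loc

theorem t_M1b : S_M1b.{u, v} := by
  intro E _ _ _ M _ _ _ _ g hg t ρ R ρ₀ hG ν hν R1 hR1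
  -- the radius
  obtain ⟨r₁, hr₁, h1⟩ := fin_min (t ×ˢ t) (fun p δ =>
      cthickening δ (MM1b.Kc E ρ g p.1 p.2) ⊆ MM1b.OO E g p.1 p.2 ∧
      ∀ z ∈ MM1b.Kc E ρ g p.1 p.2, ∀ y ∈ closedBall z δ,
      ‖rep g p.1 p.2 y - rep g p.1 p.2 z - fderiv ℝ (rep g p.1 p.2) z (y - z)‖ ≤
        ν / 2 * ‖y - z‖ ∧ dist (rep g p.1 p.2 y) (rep g p.1 p.2 z) ≤ R1 / 2)
    (fun p δ δ' hle _ h => ⟨(cthickening_mono hle _).trans h.1, fun z hz y hy =>
      h.2 z hz y (closedBall_subset_closedBall hle hy)⟩)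
    (fun p hp => by
      obtain ⟨hp1, hp2⟩ := Finset.mem_product.1 hp
      exact MM1b.lin hg (MM1b.Kc_compact hg hG hp1 p.2) (MM1b.Kc_sub hG hp1 hp2)
        (by positivity) (by positivity))
  obtain ⟨r, hr⟩ : ∃ r, r = min r₁ R1 := ⟨_, rfl⟩
  have hr0 : 0 < r := by rw [hr]; exact lt_min hr₁ hR1
  have hrr : r ≤ r₁ := by rw [hr]; exact min_le_left _ _
  have hrR : r ≤ R1 := by rw [hr]; exact min_le_right _ _
  -- the distance of the maps
  obtain ⟨ε0, hε0, h2⟩ := fin_min (t ×ˢ t) (fun p δ =>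
      ∀ y ∈ cthickening r (MM1b.Kc E ρ g p.1 p.2), ∀ q : M,
        dist q (g ((extChartAt 𝓘(ℝ, E) p.1).symm y)) < δ →
        q ∈ (extChartAt 𝓘(ℝ, E) p.2).source ∧
        dist (extChartAt 𝓘(ℝ, E) p.2 q) (rep g p.1 p.2 y) < min (ν / 2 * r) (R1 / 2))
    (fun p δ δ' hle _ h y hy q hq => h y hy q (hq.trans_le hle))
    (fun p hp => by
      obtain ⟨hp1, hp2⟩ := Finset.mem_product.1 hp
      have hsub : cthickening r (MM1b.Kc E ρ g p.1 p.2) ⊆ MM1b.OO E g p.1 p.2 :=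
        (cthickening_mono hrr _).trans (h1 p hp).1
      have hc : IsCompact ((fun y => g ((extChartAt 𝓘(ℝ, E) p.1).symm y)) ''
          cthickening r (MM1b.Kc E ρ g p.1 p.2)) :=
        ((MM1b.Kc_compact hg hG hp1 p.2).cthickening).image_of_continuousOn
          ((MM1b.cont_gs hg p.1).mono fun y hy => (hsub hy).1)
      obtain ⟨δ, hδ, h⟩ := unif_near hc (isOpen_extChartAt_source (I := 𝓘(ℝ, E)) p.2)
        (by
          rintro _ ⟨y, hy, rfl⟩
          exact (hsub hy).2) (continuousOn_extChartAt (I := 𝓘(ℝ, E)) p.2)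
        (ε := min (ν / 2 * r) (R1 / 2)) (by positivity)
      exact ⟨δ, hδ, fun y hy q hq => h _ (mem_image_of_mem _ hy) q hq⟩)
  refine ⟨r, hr0, hrR, ε0, hε0, fun f hf j z j' hj hj' y hy => ?_⟩
  have hp : (j, j') ∈ t ×ˢ t := Finset.mem_product.2 ⟨hj.1, hj'.1⟩
  have hs := hG.src j hj.1 z hj.2
  have hz : extChartAt 𝓘(ℝ, E) j z ∈ MM1b.Kc E ρ g j j' := ⟨z, ⟨hj.2, hj'.2⟩, rfl⟩
  have hyt : y ∈ cthickening r (MM1b.Kc E ρ g j j') := closedBall_subset_cthickening hz r hy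
  have hyO : y ∈ MM1b.OO E g j j' := (h1 (j, j') hp).1 (cthickening_mono hrr _ hyt)
  obtain ⟨a1, a2⟩ := (h1 (j, j') hp).2 _ hz y (closedBall_subset_closedBall hrr hy)
  obtain ⟨b1, b2⟩ := h2 (j, j') hp y hyt (f ((extChartAt 𝓘(ℝ, E) j).symm y)) (hf _)
  have hrz : rep g j j' (extChartAt 𝓘(ℝ, E) j z) = extChartAt 𝓘(ℝ, E) j' (g z) := by
    unfold rep
    rw [(extChartAt 𝓘(ℝ, E) j).left_inv hs]
  simp only at a1 a2 b1 b2
  rw [hrz] at a1 a2
  have hrf : dist (rep f j j' y) (rep g j j' y) < min (ν / 2 * r) (R1 / 2) := b2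
  have c1 := hrf.trans_le (min_le_left _ _)
  have c2 := hrf.trans_le (min_le_right _ _)
  have hyr : ‖y - extChartAt 𝓘(ℝ, E) j z‖ ≤ r := by
    rw [← dist_eq_norm]
    exact hy
  refine ⟨hyO.1, b1, ?_, ?_⟩
  · have := dist_triangle (rep f j j' y) (rep g j j' y) (extChartAt 𝓘(ℝ, E) j' (g z))
    linarith
  · have e : rep f j j' y - extChartAt 𝓘(ℝ, E) j' (g z) -
        fderiv ℝ (rep g j j') (extChartAt 𝓘(ℝ, E) j z) (y - extChartAt 𝓘(ℝ, E) j z) =
        (rep f j j' y - rep g j j' y) + (rep g j j' y - extChartAt 𝓘(ℝ, E) j' (g z) -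
        fderiv ℝ (rep g j j') (extChartAt 𝓘(ℝ, E) j z) (y - extChartAt 𝓘(ℝ, E) j z)) := by
      abel
    rw [e]
    refine (norm_add_le _ _).trans ?_
    rw [← dist_eq_norm (rep f j j' y) (rep g j j' y)]
    have h3 : ν / 2 * ‖y - extChartAt 𝓘(ℝ, E) j z‖ ≤ ν / 2 * r := by gcongr
    linarith

end Pool.Agent.H963.CJ
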