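import Pool.Agent.H963.CJ.MDef

/-!
# M1c: uniform linear approximation of a `C¹` map in good charts
-/

set_option autoImplicit false
set_option linter.unusedSectionVars false

open Set Filter Topology Metric
open scoped Manifold ContDiff

universe u v w

namespace Pool.Agent.H963.CJ

open Pool.Agent.H721R2 Pool.Agent.H789R2.AN Pool.Agent.TH289 Pool.Agent.H244.Dyn
  Pool.Agent.H244.Loc

namespace MM1c

variable {E : Type*} [NormedAddCommGroup E] [NormedSpace ℝ E] [FiniteDimensional ℝ E]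
  {M : Type*} [MetricSpace M] [CompactSpace M] [ChartedSpace E M] [IsManifold 𝓘(ℝ, E) 1 M]

/-- The domain of the representation. -/
def dom (E : Type*) [NormedAddCommGroup E] [NormedSpace ℝ E] {M : Type*} [MetricSpace M]
    [ChartedSpace E M] (g : M → M) (j j' : M) : Set E :=
  (extChartAt 𝓘(ℝ, E) j).target ∩ (extChartAt 𝓘(ℝ, E) j).symm ⁻¹'
    (g ⁻¹' (extChartAt 𝓘(ℝ, E) j').source)

theorem dom_open {g : M → M} (hg : Continuous g) (j j' : M) : IsOpen (dom E g j j') :=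
  (continuousOn_extChartAt_symm j).isOpen_inter_preimage (isOpen_extChartAt_target j)
    ((isOpen_extChartAt_source j').preimage hg)

theorem fderiv_cont {g : M → M} (hg : ContMDiff 𝓘(ℝ, E) 𝓘(ℝ, E) 1 g) (j j' : M) :
    ContinuousOn (fun y => fderiv ℝ (rep (E := E) g j j') y) (dom E g j j') := by
  intro y hy
  have hc : ContDiffAt ℝ 1 (rep g j j') y := rep_contDiffAt hg hy.1 hy.2
  have h : ContinuousAt (fderiv ℝ (rep g j j')) y :=
    (hc.fderiv_right (m := 0) (by norm_num)).continuousAt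
  exact h.continuousWithinAt

/-- The compact set of the points at which both charts are good, in the chart. -/
def kk (E : Type*) [NormedAddCommGroup E] [NormedSpace ℝ E] {M : Type*} [MetricSpace M]
    [ChartedSpace E M] (g : M → M) (j j' : M) (r r' : ℝ) : Set E :=
  extChartAt 𝓘(ℝ, E) j '' (closedBall j r ∩ g ⁻¹' closedBall j' r')

theorem kk_compact {g : M → M} (hg : Continuous g) (j j' : M) {r r' : ℝ}
    (h : closedBall j r ⊆ (extChartAt 𝓘(ℝ, E) j).source) : IsCompact (kk E g j j' r r') := by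
  have h1 : IsCompact (closedBall j r ∩ g ⁻¹' closedBall j' r') :=
    (isClosed_closedBall.isCompact).inter_right (isClosed_closedBall.preimage hg)
  exact h1.image_of_continuousOn
    ((continuousOn_extChartAt j).mono (inter_subset_left.trans h))

theorem kk_sub {g : M → M} (j j' : M) {r r' : ℝ}
    (h : closedBall j r ⊆ (extChartAt 𝓘(ℝ, E) j).source)
    (h' : closedBall j' r' ⊆ (extChartAt 𝓘(ℝ, E) j').source) :
    kk E g j j' r r' ⊆ dom E g j j' := by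
  rintro _ ⟨z, ⟨hz, hz'⟩, rfl⟩
  refine ⟨(extChartAt 𝓘(ℝ, E) j).map_source (h hz), ?_⟩
  show g ((extChartAt 𝓘(ℝ, E) j).symm (extChartAt 𝓘(ℝ, E) j z)) ∈ (extChartAt 𝓘(ℝ, E) j').source
  rw [(extChartAt 𝓘(ℝ, E) j).left_inv (h hz)]
  exact h' hz'

/-- The statement for one pair of charts. -/
def Q (E : Type*) [NormedAddCommGroup E] [NormedSpace ℝ E] {M : Type*} [MetricSpace M]
    [ChartedSpace E M] (g : M → M) (ρ : M → ℝ) (ν : ℝ) (j j' : M) (δ : ℝ) : Prop :=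
  ∀ z, dist z j ≤ 2 * ρ j → dist (g z) j' ≤ 2 * ρ j' →
    ∀ y ∈ closedBall (extChartAt 𝓘(ℝ, E) j z) δ,
      y ∈ (extChartAt 𝓘(ℝ, E) j).target ∧
      g ((extChartAt 𝓘(ℝ, E) j).symm y) ∈ (extChartAt 𝓘(ℝ, E) j').source ∧
      ‖extChartAt 𝓘(ℝ, E) j' (g ((extChartAt 𝓘(ℝ, E) j).symm y)) -
        extChartAt 𝓘(ℝ, E) j' (g z) -
        fderiv ℝ (fun y => extChartAt 𝓘(ℝ, E) j' (g ((extChartAt 𝓘(ℝ, E) j).symm y)))
          (extChartAt 𝓘(ℝ, E) j z) (y - extChartAt 𝓘(ℝ, E) j z)‖ ≤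
      ν * ‖y - extChartAt 𝓘(ℝ, E) j z‖

theorem pair {g : M → M} (hg : ContMDiff 𝓘(ℝ, E) 𝓘(ℝ, E) 1 g) (ρ : M → ℝ) {ν : ℝ} (hν : 0 < ν)
    {j j' : M} (h : closedBall j (2 * ρ j) ⊆ (extChartAt 𝓘(ℝ, E) j).source)
    (h' : closedBall j' (2 * ρ j') ⊆ (extChartAt 𝓘(ℝ, E) j').source) :
    ∃ δ > 0, Q E g ρ ν j j' δ := by
  obtain ⟨δ, hδ, hu⟩ := unif_near (kk_compact hg.continuous j j' (r' := 2 * ρ j') h)
    (dom_open hg.continuous j j') (kk_sub j j' h h') (fderiv_cont hg j j') hν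
  refine ⟨δ / 2, half_pos hδ, fun z hz hz' y hy => ?_⟩
  set y₀ := extChartAt 𝓘(ℝ, E) j z with hy₀
  have hK : y₀ ∈ kk E g j j' (2 * ρ j) (2 * ρ j') := mem_image_of_mem _ ⟨hz, hz'⟩
  have hyb : y ∈ ball y₀ δ := by
    rw [mem_ball]
    rw [mem_closedBall] at hy
    linarith
  have hyd := (hu y₀ hK y hyb).1
  refine ⟨hyd.1, hyd.2, ?_⟩
  have hinv : (extChartAt 𝓘(ℝ, E) j).symm y₀ = z := (extChartAt 𝓘(ℝ, E) j).left_inv (h hz)
  have hv : rep (E := E) g j j' y₀ = extChartAt 𝓘(ℝ, E) j' (g z) := by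
    show extChartAt 𝓘(ℝ, E) j' (g ((extChartAt 𝓘(ℝ, E) j).symm y₀)) = _
    rw [hinv]
  have hmv := (convex_ball y₀ δ).norm_image_sub_le_of_norm_hasFDerivWithin_le'
    (f := rep (E := E) g j j') (f' := fun x => fderiv ℝ (rep (E := E) g j j') x)
    (φ := fderiv ℝ (rep (E := E) g j j') y₀) (C := ν)
    (fun x hx => (((rep_contDiffAt hg (hu y₀ hK x hx).1.1 (hu y₀ hK x hx).1.2).differentiableAt
      (by norm_num)).hasFDerivAt).hasFDerivWithinAt)
    (fun x hx => by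
      have := (hu y₀ hK x hx).2
      rw [dist_eq_norm] at this
      exact this.le)
    (mem_ball_self hδ) hyb
  rw [hv] at hmv
  exact hmv

end MM1c

theorem t_M1c : S_M1c.{u, v} := by
  intro E _ _ _ M _ _ _ _ g hg t ρ R ρ₀ hG ν hν
  have hs : ∀ j ∈ t, closedBall j (2 * ρ j) ⊆ (extChartAt 𝓘(ℝ, E) j).source := fun j hj z hz =>
    hG.src j hj z hz
  obtain ⟨δ, hδ, hQ⟩ := fin_min (t ×ˢ t) (fun a δ => MM1c.Q E g ρ ν a.1 a.2 δ)
    (fun a δ δ' hle _ hq z hz hz' y hy => hq z hz hz' y (closedBall_subset_closedBall hle hy))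
    (fun a ha => by
      rw [Finset.mem_product] at ha
      exact MM1c.pair hg ρ hν (hs _ ha.1) (hs _ ha.2))
  exact ⟨δ, hδ, fun j z j' hj hj' y hy =>
    hQ (j, j') (Finset.mem_product.mpr ⟨hj.1, hj'.1⟩) z hj.2 hj'.2 y hy⟩

end Pool.Agent.H963.CJ
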