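import Pool.Agent.H963.CJ.MDef

/-!
# Points of a fibre are doubly asymptotic (`S_T1`)
-/

set_option autoImplicit false
set_option linter.unusedSectionVars false

open Set Filter Topology Metric
open scoped Manifold ContDiff

namespace Pool.Agent.H963.CJ

open Pool.Agent.H721R2 Pool.Agent.H789R2.AN Pool.Agent.TH289 Pool.Agent.H244.Dyn
  Pool.Agent.H244.Loc

universe u v w

namespace MT1

variable {M : Type*} [MetricSpace M]

/-- closed shadowing of one return -/
theorem ret {f : M ≃ₜ M} {κf : ℝ} (hf : TA f κf) [CompactSpace M] {η : ℝ} (hη : 0 < η) :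
    ∃ δ > 0, ∀ (x : M) (m : ℕ), dist (f^[m + 1] x) x ≤ δ →
      ∃ q : Fin (m + 1) → M, (∀ i, q (finRotate (m + 1) i) = f (q i)) ∧
        ∀ i : Fin (m + 1), dist (q i) (f^[i] x) ≤ η := by
  obtain ⟨δ, hδ, h⟩ := closed_shadow hf hη
  refine ⟨δ, hδ, fun x m hx => ?_⟩
  apply h (ι := Fin (m + 1)) (σ := finRotate (m + 1)) (p := fun i : Fin (m + 1) => f^[i] x)
  intro i
  rcases lt_or_eq_of_le (Nat.lt_succ_iff.1 i.2) with hi | hi
  · have h1 : finRotate (m + 1) i = ⟨i + 1, by omega⟩ := by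
      have := finRotate_of_lt (n := m) hi
      exact this
    have h2 : f^[((finRotate (m + 1) i : Fin (m + 1)) : ℕ)] x = f (f^[(i : ℕ)] x) := by
      rw [h1]
      exact Function.iterate_succ_apply' f i x
    show dist (f (f^[(i : ℕ)] x)) (f^[((finRotate (m + 1) i : Fin (m + 1)) : ℕ)] x) ≤ δ
    rw [h2, dist_self]
    exact hδ.le
  · have h0 : i = Fin.last m := Fin.ext hi
    have h1 : finRotate (m + 1) i = 0 := by rw [h0]; exact finRotate_last
    show dist (f (f^[(i : ℕ)] x)) (f^[((finRotate (m + 1) i : Fin (m + 1)) : ℕ)] x) ≤ δ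
    rw [h1, hi, ← Function.iterate_succ_apply' f m x]
    exact hx

theorem q_iter [CompactSpace M] {f : M ≃ₜ M} {m : ℕ} {q : Fin (m + 1) → M}
    (hq : ∀ i, q (finRotate (m + 1) i) = f (q i)) :
    ob f (q 0) = fun n : ℤ => q (((finRotate (m + 1)) ^ n) 0) := by
  apply orb_ext (ob_orb f (q 0)) (closed_orb hq 0)
  simp [ob_zero]

theorem q_per [CompactSpace M] {f : M ≃ₜ M} {m : ℕ} {q : Fin (m + 1) → M}
    (hq : ∀ i, q (finRotate (m + 1) i) = f (q i)) : q 0 ∈ Function.periodicPts f := by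
  refine ⟨orderOf (finRotate (m + 1)), orderOf_pos _, ?_⟩
  have h1 := orb_nat (closed_orb hq 0) 0 (orderOf (finRotate (m + 1)))
  simp only [zero_add, zpow_natCast, zpow_zero, Equiv.Perm.coe_one, id_eq] at h1
  rw [pow_orderOf_eq_one, Equiv.Perm.coe_one, id_eq] at h1
  exact h1.symm

theorem fwd_iter {f : M ≃ₜ M} {k : M → M} {κ0 : ℝ} (hk : KK f k κ0) {x w : M} (h : k x = k w)
    (n : ℕ) : k (f^[n] x) = k (f^[n] w) := by
  induction n with
  | zero => exact h
  | succ n ih =>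
    rw [Function.iterate_succ_apply', Function.iterate_succ_apply']
    exact hk.fwd _ _ ih

theorem bwd_iter {f : M ≃ₜ M} {k : M → M} {κ0 : ℝ} (hk : KK f k κ0) {x w : M} (h : k x = k w)
    (n : ℕ) : k (f.symm^[n] x) = k (f.symm^[n] w) := by
  induction n with
  | zero => exact h
  | succ n ih =>
    rw [Function.iterate_succ_apply', Function.iterate_succ_apply']
    exact hk.bwd _ _ ih

/-- two simultaneously returning points of a fibre are close -/
theorem ret_close {f : M ≃ₜ M} {κf : ℝ} (hf : TA f κf) [CompactSpace M] {k : M → M} {κ0 : ℝ}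
    (hk : KK f k κ0) {η : ℝ} (hη : 0 < η) :
    ∃ δ > 0, ∀ (x w : M) (m : ℕ), k x = k w → dist (f^[m + 1] x) x ≤ δ →
      dist (f^[m + 1] w) w ≤ δ → dist x w ≤ 2 * η := by
  have hκ := hk.pos
  obtain ⟨δ, hδ, h⟩ := ret hf (η := min η (κ0 / 2)) (lt_min hη (half_pos hκ))
  refine ⟨δ, hδ, fun x w m hxw hx hw => ?_⟩
  obtain ⟨q, hq, hqd⟩ := h x m hx
  obtain ⟨q', hq', hqd'⟩ := h w m hw
  have hm1 := min_le_left η (κ0 / 2)
  have hm2 := min_le_right η (κ0 / 2)
  have hclose : ∀ i : Fin (m + 1), dist (q i) (q' i) ≤ 2 * κ0 := by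
    intro i
    have h1 := hk.near _ _ (fwd_iter hk hxw i)
    have h2 := hqd i
    have h3 := hqd' i
    have h4 := dist_triangle4 (q i) (f^[(i : ℕ)] x) (f^[(i : ℕ)] w) (q' i)
    rw [dist_comm (f^[(i : ℕ)] w) (q' i)] at h4
    linarith
  have hkk : k (q 0) = k (q' 0) := by
    apply hk.sep
    intro n
    rw [q_iter hq, q_iter hq']
    exact hclose _
  have hqq : q 0 = q' 0 := hk.per _ _ (q_per hq) (q_per hq') hkk
  have h1 : dist (q 0) x ≤ min η (κ0 / 2) := hqd 0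
  have h2 : dist (q' 0) w ≤ min η (κ0 / 2) := hqd' 0
  have h3 := dist_triangle_left x w (q 0)
  rw [← hqq] at h2
  linarith

/-- a sequence of pairs in a compact space -/
theorem pairs [CompactSpace M] (u : ℕ → M × M) {ε δ : ℝ} (hδ : 0 < δ)
    (h : ∀ n n', n < n' → dist (u n) (u n') ≤ δ →
      dist (u n).1 (u n).2 < ε ∨ dist (u n').1 (u n').2 < ε) :
    ∃ N, ∀ n ≥ N, dist (u n).1 (u n).2 < ε := by
  by_contra hcon
  push Not at hcon
  have hfr : ∃ᶠ n in atTop, ε ≤ dist (u n).1 (u n).2 := by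
    rw [frequently_atTop]
    intro a
    obtain ⟨n, hn, hn'⟩ := hcon a
    exact ⟨n, hn, hn'⟩
  obtain ⟨φ, hφ, hφ'⟩ := extraction_of_frequently_atTop hfr
  obtain ⟨a, ψ, hψ, hψ'⟩ := CompactSpace.tendsto_subseq (fun n => u (φ n))
  have hC := hψ'.cauchySeq
  obtain ⟨N, hN⟩ := Metric.cauchySeq_iff.1 hC δ hδ
  have h1 := hN N le_rfl (N + 1) (Nat.le_succ N)
  have h2 : φ (ψ N) < φ (ψ (N + 1)) := hφ (hψ (Nat.lt_succ_self N))
  rcases h _ _ h2 h1.le with h3 | h3
  · exact absurd h3 (not_lt.2 (hφ' (ψ N)))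
  · exact absurd h3 (not_lt.2 (hφ' (ψ (N + 1))))

end MT1

open MT1 in
theorem t_T1 : S_T1.{v} := by
  intro M _ _ f κf hf k κ0 hk x w hxw ε hε
  obtain ⟨δ, hδ, hret⟩ := ret_close hf hk (η := ε / 3) (by positivity)
  have hpair : ∀ (a b a' b' : M), dist (a, b) (a', b') ≤ δ → dist a a' ≤ δ ∧ dist b b' ≤ δ := by
    intro a b a' b' h
    rw [Prod.dist_eq] at h
    exact ⟨(le_max_left _ _).trans h, (le_max_right _ _).trans h⟩
  -- forward
  obtain ⟨N₁, hN₁⟩ := pairs (fun n => (f^[n] x, f^[n] w)) hδ (ε := ε) (fun n n' hnn' hd => by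
    left
    obtain ⟨h1, h2⟩ := hpair _ _ _ _ hd
    obtain ⟨m, rfl⟩ : ∃ m, n' = m + 1 + n := ⟨n' - n - 1, by omega⟩
    rw [Function.iterate_add_apply f (m + 1) n] at h1 h2
    have h3 := hret (f^[n] x) (f^[n] w) m (fwd_iter hk hxw n) (by rwa [dist_comm])
      (by rwa [dist_comm])
    show dist (f^[n] x) (f^[n] w) < ε
    linarith)
  -- backward
  obtain ⟨N₂, hN₂⟩ := pairs (fun n => (f.symm^[n] x, f.symm^[n] w)) hδ (ε := ε)
    (fun n n' hnn' hd => by
      right
      obtain ⟨h1, h2⟩ := hpair _ _ _ _ hd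
      obtain ⟨m, rfl⟩ : ∃ m, n' = m + 1 + n := ⟨n' - n - 1, by omega⟩
      have key : ∀ y : M, f^[m + 1] (f.symm^[m + 1 + n] y) = f.symm^[n] y := by
        intro y
        rw [Function.iterate_add_apply f.symm (m + 1) n]
        have hli : Function.LeftInverse f f.symm := f.apply_symm_apply
        exact (hli.iterate (m + 1)) (f.symm^[n] y)
      have h3 := hret (f.symm^[m + 1 + n] x) (f.symm^[m + 1 + n] w) m (bwd_iter hk hxw _)
        (by rw [key]; exact h1) (by rw [key]; exact h2)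
      show dist (f.symm^[m + 1 + n] x) (f.symm^[m + 1 + n] w) < ε
      linarith)
  refine ⟨max N₁ N₂, fun n hn => ⟨hN₁ n (le_of_max_le_left hn), hN₂ n (le_of_max_le_right hn)⟩⟩

end Pool.Agent.H963.CJ
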