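import Pool.Agent.H963.CJ.MDef

/-!
# Injectivity of the semiconjugacy, T2: fibres through limit points are points
-/

set_option autoImplicit false
set_option linter.unusedSectionVars false

open Set Filter Topology Metric
open scoped Manifold ContDiff

universe u v w

namespace Pool.Agent.H963.CJ.MT2

open Pool.Agent.H721R2 Pool.Agent.H789R2.AN Pool.Agent.TH289 Pool.Agent.H244.Dyn
  Pool.Agent.H244.Loc Pool.Agent.H963.CJ

variable {M : Type v} [MetricSpace M]

/-- two close closed pseudo-orbits are very close -/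
theorem closed_pair [CompactSpace M] {f : M ≃ₜ M} {κf : ℝ} (hTA : TA f κf) {k : M → M} {κ0 : ℝ}
    (hK : KK f k κ0) {η : ℝ} (hη : 0 < η) :
    ∃ δ > 0, ∀ {ι : Type} [Finite ι] {σ : Equiv.Perm ι} {c d : ι → M},
      (∀ i, dist (f (c i)) (c (σ i)) ≤ δ) → (∀ i, dist (f (d i)) (d (σ i)) ≤ δ) →
      (∀ i, dist (c i) (d i) ≤ κ0) → ∀ i, dist (c i) (d i) ≤ η := by
  have hκ0 := hK.pos
  obtain ⟨δ, hδ, hsh⟩ := closed_shadow hTA (η := min (η / 2) (κ0 / 2))
    (lt_min (by positivity) (by positivity))
  refine ⟨δ, hδ, fun {ι _ σ c d} hc hd hcd i => ?_⟩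
  obtain ⟨p, hp1, hp2⟩ := hsh hc
  obtain ⟨q, hq1, hq2⟩ := hsh hd
  have h1 := min_le_left (η / 2) (κ0 / 2)
  have h2 := min_le_right (η / 2) (κ0 / 2)
  have hper : ∀ p : ι → M, (∀ i, p (σ i) = f (p i)) → p i ∈ Function.periodicPts f := by
    intro p hp
    refine ⟨orderOf σ, orderOf_pos σ, ?_⟩
    have h3 := orb_nat (closed_orb hp i) 0 (orderOf σ)
    simp only [zero_add, zpow_natCast, zpow_zero, pow_orderOf_eq_one, Equiv.Perm.coe_one,
      id_eq] at h3
    exact h3.symm
  have hob : ∀ p : ι → M, (∀ i, p (σ i) = f (p i)) → ∀ n : ℤ, ob f (p i) n = p ((σ ^ n) i) := by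
    intro p hp n
    have h3 : ob f (p i) = fun n : ℤ => p ((σ ^ n) i) :=
      orb_ext (ob_orb f (p i)) (closed_orb hp i) (by
        rw [ob_zero]
        simp)
    rw [h3]
  have hkk : k (p i) = k (q i) := by
    refine hK.sep _ _ fun n => ?_
    rw [hob p hp1, hob q hq1]
    have h3 := hp2 ((σ ^ n) i)
    have h4 := hq2 ((σ ^ n) i)
    have h5 := hcd ((σ ^ n) i)
    have h6 := dist_triangle (p ((σ ^ n) i)) (c ((σ ^ n) i)) (q ((σ ^ n) i))
    have h7 := dist_triangle (c ((σ ^ n) i)) (d ((σ ^ n) i)) (q ((σ ^ n) i))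
    rw [dist_comm (d ((σ ^ n) i))] at h7
    linarith
  have hpq := hK.per _ _ (hper p hp1) (hper q hq1) hkk
  have h3 := hp2 i
  have h4 := hq2 i
  rw [hpq] at h3
  have h5 := dist_triangle_left (c i) (d i) (q i)
  linarith

theorem iter_fwd {f : M ≃ₜ M} {k : M → M} {κ0 : ℝ} (hK : KK f k κ0) (n : ℕ) {x y : M}
    (h : k x = k y) : k (f^[n] x) = k (f^[n] y) := by
  induction n with
  | zero => exact h
  | succ n ih =>
    rw [Function.iterate_succ_apply', Function.iterate_succ_apply']
    exact hK.fwd _ _ ih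

theorem iter_bwd {f : M ≃ₜ M} {k : M → M} {κ0 : ℝ} (hK : KK f k κ0) (n : ℕ) {x y : M}
    (h : k x = k y) : k (f.symm^[n] x) = k (f.symm^[n] y) := by
  induction n with
  | zero => exact h
  | succ n ih =>
    rw [Function.iterate_succ_apply', Function.iterate_succ_apply']
    exact hK.bwd _ _ ih

theorem iter_inv (f : M ≃ₜ M) (n : ℕ) (x : M) : f^[n] (f.symm^[n] x) = x :=
  (Function.LeftInverse.iterate (fun y => f.apply_symm_apply y) n) x

theorem iter_comm (f : M ≃ₜ M) (n m : ℕ) (x : M) :
    f^[n] (f.symm^[m] x) = f.symm^[m] (f^[n] x) := by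
  have h : Function.Commute f f.symm := fun y => by
    rw [f.apply_symm_apply, f.symm_apply_apply]
  exact (h.iterate_iterate n m) x

/-- the main argument -/
theorem main [CompactSpace M] (h1 : S_T1.{v}) {f : M ≃ₜ M} {κf : ℝ} (hTA : TA f κf) {k : M → M}
    {κ0 : ℝ} (hK : KK f k κ0) {a : M}
    (hrec : ∀ δ > 0, ∀ L₀ : ℕ, ∃ (y : M) (L : ℕ), L₀ ≤ L ∧ dist y a < δ ∧ dist (f^[L] y) a < δ) :
    Sg k a := by
  intro b hba
  have hall : ∀ η > 0, dist a b ≤ η := by
    intro η hη
    obtain ⟨δ, hδ, hpair⟩ := closed_pair hTA hK hη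
    obtain ⟨N, hN⟩ := h1 M f κf hTA k κ0 hK a b hba.symm (δ / 2) (half_pos hδ)
    set m : ℕ := max N 1 with hm
    have hm1 : 1 ≤ m := le_max_right _ _
    have hmN : N ≤ m := le_max_left _ _
    obtain ⟨hfm, hbm⟩ := hN m hmN
    obtain ⟨δ₁, hδ₁, huc₁⟩ := Metric.uniformContinuous_iff.mp
      (CompactSpace.uniformContinuous_of_continuous (f.continuous.iterate m)) _ (half_pos hδ)
    obtain ⟨δ₂, hδ₂, huc₂⟩ := Metric.uniformContinuous_iff.mp
      (CompactSpace.uniformContinuous_of_continuous (f.symm.continuous.iterate m)) _ (half_pos hδ)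
    obtain ⟨y, L, hL, hy1, hy2⟩ := hrec (min δ₁ δ₂) (lt_min hδ₁ hδ₂) (2 * m + 1)
    obtain ⟨l, rfl⟩ : ∃ l, L = l + 1 := ⟨L - 1, by omega⟩
    -- the closed sequences
    let s : M → ℕ → M := fun z i => if i < 2 * m then f^[i] (f.symm^[m] z) else
      f^[i] (f.symm^[m] y)
    have hclose : ∀ z, dist (f^[m] a) (f^[m] z) ≤ δ / 2 →
        dist (f.symm^[m] a) (f.symm^[m] z) ≤ δ / 2 → ∀ i : Fin (l + 1),
        dist (f (s z i.val)) (s z (finRotate (l + 1) i).val) ≤ δ := by
      intro z hz1 hz2 i
      rcases lt_or_eq_of_le (Nat.le_of_lt_succ i.2) with hi | hi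
      · have hval : (finRotate (l + 1) i).val = i.val + 1 := by
          rw [finRotate_apply, Fin.val_add_one, if_neg]
          intro h
          rw [h, Fin.val_last] at hi
          exact lt_irrefl _ hi
        rw [hval]
        by_cases h3 : i.val + 1 < 2 * m
        · have e1 : s z i.val = f^[i.val] (f.symm^[m] z) := if_pos (by omega)
          have e2 : s z (i.val + 1) = f^[i.val + 1] (f.symm^[m] z) := if_pos h3
          rw [e1, e2, Function.iterate_succ_apply', dist_self]
          exact hδ.le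
        · have e2 : s z (i.val + 1) = f^[i.val + 1] (f.symm^[m] y) := if_neg h3
          by_cases h4 : i.val < 2 * m
          · have e1 : s z i.val = f^[i.val] (f.symm^[m] z) := if_pos h4
            rw [e1, e2, ← Function.iterate_succ_apply' f]
            have e3 : i.val + 1 = m + m := by omega
            have e4 : i.val.succ = m + m := e3
            rw [e3, e4, Function.iterate_add_apply, Function.iterate_add_apply, iter_inv, iter_inv]
            have h5 := huc₁ (hy1.trans_le (min_le_left _ _))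
            have h6 := dist_triangle_left (f^[m] z) (f^[m] y) (f^[m] a)
            rw [dist_comm] at h5
            linarith
          · have e1 : s z i.val = f^[i.val] (f.symm^[m] y) := if_neg h4
            rw [e1, e2, Function.iterate_succ_apply', dist_self]
            exact hδ.le
      · have hval : (finRotate (l + 1) i).val = 0 := by
          rw [finRotate_apply, Fin.val_add_one, if_pos]
          exact Fin.ext (by rw [Fin.val_last]; exact hi)
        rw [hval, hi]
        have e1 : s z l = f^[l] (f.symm^[m] y) := if_neg (by omega)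
        have e2 : s z 0 = f.symm^[m] z := if_pos (by omega)
        rw [e1, e2, ← Function.iterate_succ_apply' f, iter_comm]
        have h5 := huc₂ (hy2.trans_le (min_le_right _ _))
        have h6 := dist_triangle (f.symm^[m] (f^[l + 1] y)) (f.symm^[m] a) (f.symm^[m] z)
        have h7 : dist (f.symm^[m] (f^[l.succ] y)) (f.symm^[m] z) =
          dist (f.symm^[m] (f^[l + 1] y)) (f.symm^[m] z) := rfl
        rw [h7]
        linarith
    have ha := hclose a (by rw [dist_self]; positivity) (by rw [dist_self]; positivity)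
    have hb := hclose b hfm.le hbm.le
    have hnear : ∀ i : Fin (l + 1), dist (s a i.val) (s b i.val) ≤ κ0 := by
      intro i
      by_cases h4 : i.val < 2 * m
      · have e1 : s a i.val = f^[i.val] (f.symm^[m] a) := if_pos h4
        have e2 : s b i.val = f^[i.val] (f.symm^[m] b) := if_pos h4
        rw [e1, e2]
        exact hK.near _ _ (iter_fwd hK _ (iter_bwd hK _ hba.symm))
      · have e1 : s a i.val = f^[i.val] (f.symm^[m] y) := if_neg h4
        have e2 : s b i.val = f^[i.val] (f.symm^[m] y) := if_neg h4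
        rw [e1, e2, dist_self]
        exact hK.pos.le
    have h8 := hpair (ι := Fin (l + 1)) (σ := finRotate (l + 1)) (c := fun i => s a i.val)
      (d := fun i => s b i.val) ha hb hnear ⟨m, by omega⟩
    have e1 : s a m = f^[m] (f.symm^[m] a) := if_pos (by omega)
    have e2 : s b m = f^[m] (f.symm^[m] b) := if_pos (by omega)
    change dist (s a m) (s b m) ≤ η at h8
    rw [e1, e2, iter_inv, iter_inv] at h8
    exact h8
  have h0 : dist a b ≤ 0 := le_of_forall_pos_le_add fun ε hε => by
    rw [zero_add]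
    exact hall ε hε
  exact (dist_le_zero.1 h0).symm

end Pool.Agent.H963.CJ.MT2

namespace Pool.Agent.H963.CJ

open Pool.Agent.H721R2 Pool.Agent.H789R2.AN Pool.Agent.TH289 Pool.Agent.H244.Dyn
  Pool.Agent.H244.Loc

open Pool.Agent.H963.CJ.MT2 in
theorem t_T2 (h1 : S_T1.{v}) : S_T2.{v} := by
  intro M _ _ f κf hTA k κ0 hK x a hcl
  refine main h1 hTA hK fun δ hδ L₀ => ?_
  rcases hcl with h | h
  · have hfr := Filter.frequently_atTop.1 (h.frequently (ball_mem_nhds a hδ))
    obtain ⟨n, -, hn⟩ := hfr 0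
    obtain ⟨n', hn', hn''⟩ := hfr (n + L₀)
    refine ⟨f^[n] x, n' - n, by omega, hn, ?_⟩
    rw [← Function.iterate_add_apply]
    have e : n' - n + n = n' := by omega
    rw [e]
    exact hn''
  · have hfr := Filter.frequently_atTop.1 (h.frequently (ball_mem_nhds a hδ))
    obtain ⟨n, -, hn⟩ := hfr 0
    obtain ⟨n', hn', hn''⟩ := hfr (n + L₀)
    refine ⟨f.symm^[n'] x, n' - n, by omega, hn'', ?_⟩
    have e : n' = (n' - n) + n := by omega
    have e2 : f.symm^[n'] x = f.symm^[n' - n] (f.symm^[n] x) := by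
      rw [← Function.iterate_add_apply, ← e]
    rw [e2, iter_inv]
    exact hn

end Pool.Agent.H963.CJ
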