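import Pool.Agent.H963.CJ.MDef

/-!
# Project CJ, task T3: close at scale `κ0` implies close at scale `κ1` (helper161)
-/

set_option autoImplicit false
set_option linter.unusedSectionVars false
set_option linter.unusedVariables false

open Set Filter Topology Metric
open scoped Manifold ContDiff

namespace Pool.Agent.H963.CJ

open Pool.Agent.H721R2 Pool.Agent.H789R2.AN Pool.Agent.TH289 Pool.Agent.H244.Dyn
  Pool.Agent.H244.Loc

universe u v w

namespace MT3

variable {M : Type v} [MetricSpace M]

theorem key {f : M ≃ₜ M} {k : M → M} {κ0 : ℝ} (hk : KK f k κ0) {η δs : ℝ}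
    (hη0 : η ≤ κ0) (sh : ∀ x : ℤ → M, (∀ n, dist (f (x n)) (x (n + 1)) ≤ δs) →
      ∃ y : ℤ → M, Orb f y ∧ ∀ n, dist (y n) (x n) ≤ η) {a : M} (ha : Sg k a) {x : ℤ → M}
    (hx : ∀ n, dist (f (x n)) (x (n + 1)) ≤ δs) (hxa : ∀ n, dist (x n) (ob f a n) ≤ κ0) (n : ℤ) :
    dist (ob f a n) (x n) ≤ η := by
  obtain ⟨y, hy, hyx⟩ := sh x hx
  have h1 : y = ob f (y 0) := orb_ext hy (ob_orb f (y 0)) rfl
  have h2 : k (y 0) = k a := by
    refine hk.sep _ _ fun n => ?_
    rw [← h1]
    calc dist (y n) (ob f a n) ≤ dist (y n) (x n) + dist (x n) (ob f a n) := dist_triangle _ _ _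
      _ ≤ κ0 + κ0 := add_le_add ((hyx n).trans hη0) (hxa n)
      _ = 2 * κ0 := by ring
  have h3 := ha _ h2
  rw [h3] at h1
  rw [← h1]
  exact hyx n

theorem ob_nat (f : M ≃ₜ M) (x : M) (n : ℕ) : ob f x (n : ℤ) = f^[n] x := rfl

theorem ob_neg (f : M ≃ₜ M) (x : M) (n : ℕ) : ob f x (-(n : ℤ)) = f.symm^[n] x := by
  have := orb_neg (ob_orb f x) 0 n
  rw [zero_sub] at this
  exact this

end MT3

theorem t_T3 : S_T3.{v} := by
  intro M _ _ f κf hTA k κ0 hk κ1 hκ1
  obtain ⟨δs, hδs, sh⟩ := hTA.sh (min κ1 κ0) (lt_min hκ1 hk.pos)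
  have huc : UniformContinuous f := CompactSpace.uniformContinuous_of_continuous f.continuous
  obtain ⟨δ1, hδ1, h1⟩ := Metric.uniformContinuous_iff.1 huc δs hδs
  refine ⟨min (δ1 / 2) (min δs κ1), lt_min (half_pos hδ1) (lt_min hδs hκ1), fun a p ha hpa => ?_⟩
  have hp1 : dist p a < δ1 := lt_of_le_of_lt (hpa.trans (min_le_left _ _)) (half_lt_self hδ1)
  have hp2 : dist p a ≤ δs := hpa.trans ((min_le_right _ _).trans (min_le_left _ _))
  have hp3 : dist p a ≤ κ1 := hpa.trans ((min_le_right _ _).trans (min_le_right _ _))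
  constructor
  · intro hf n
    set x : ℤ → M := fun n => if n ≤ 0 then ob f a n else ob f p n with hx
    have hps : ∀ n, dist (f (x n)) (x (n + 1)) ≤ δs := by
      intro n
      rcases lt_trichotomy n 0 with h | h | h
      · have e1 : x n = ob f a n := if_pos h.le
        have e2 : x (n + 1) = ob f a (n + 1) := if_pos (by omega)
        rw [e1, e2, ob_orb f a n, dist_self]
        exact hδs.le
      · subst h
        have e1 : x 0 = a := if_pos le_rfl
        have e2 : x (0 + 1) = f p := if_neg (by omega)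
        rw [e1, e2, dist_comm]
        exact (h1 hp1).le
      · have e1 : x n = ob f p n := if_neg (by omega)
        have e2 : x (n + 1) = ob f p (n + 1) := if_neg (by omega)
        rw [e1, e2, ob_orb f p n, dist_self]
        exact hδs.le
    have hxa : ∀ n, dist (x n) (ob f a n) ≤ κ0 := by
      intro n
      by_cases h : n ≤ 0
      · have e1 : x n = ob f a n := if_pos h
        rw [e1, dist_self]
        exact hk.pos.le
      · have e1 : x n = ob f p n := if_neg h
        obtain ⟨m, rfl⟩ := Int.eq_ofNat_of_zero_le (show 0 ≤ n by omega)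
        rw [e1]
        exact hf m
    rcases Nat.eq_zero_or_pos n with h0 | h0
    · subst h0
      exact hp3
    · have h2 := MT3.key hk (min_le_right κ1 κ0) sh ha hps hxa (n : ℤ)
      have e1 : x (n : ℤ) = f^[n] p := if_neg (by omega)
      rw [e1, MT3.ob_nat, dist_comm] at h2
      exact h2.trans (min_le_left _ _)
  · intro hf n
    set x : ℤ → M := fun n => if 0 ≤ n then ob f a n else ob f p n with hx
    have hps : ∀ n, dist (f (x n)) (x (n + 1)) ≤ δs := by
      intro n
      rcases lt_trichotomy n (-1) with h | h | h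
      · have e1 : x n = ob f p n := if_neg (by omega)
        have e2 : x (n + 1) = ob f p (n + 1) := if_neg (by omega)
        rw [e1, e2, ob_orb f p n, dist_self]
        exact hδs.le
      · subst h
        have e1 : x (-1) = ob f p (-1) := if_neg (by omega)
        have e2 : x (-1 + 1) = a := if_pos (by omega)
        have e3 : f (ob f p (-1)) = p := by
          have := ob_orb f p (-1)
          rw [← this]
          rfl
        rw [e1, e2, e3]
        exact hp2
      · have e1 : x n = ob f a n := if_pos (by omega)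
        have e2 : x (n + 1) = ob f a (n + 1) := if_pos (by omega)
        rw [e1, e2, ob_orb f a n, dist_self]
        exact hδs.le
    have hxa : ∀ n, dist (x n) (ob f a n) ≤ κ0 := by
      intro n
      by_cases h : 0 ≤ n
      · have e1 : x n = ob f a n := if_pos h
        rw [e1, dist_self]
        exact hk.pos.le
      · have e1 : x n = ob f p n := if_neg h
        obtain ⟨m, hm⟩ := Int.eq_ofNat_of_zero_le (show 0 ≤ -n by omega)
        have e2 : n = -(m : ℤ) := by omega
        rw [e1, e2, MT3.ob_neg, MT3.ob_neg]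
        exact hf m
    rcases Nat.eq_zero_or_pos n with h0 | h0
    · subst h0
      exact hp3
    · have h2 := MT3.key hk (min_le_right κ1 κ0) sh ha hps hxa (-(n : ℤ))
      have e1 : x (-(n : ℤ)) = ob f p (-(n : ℤ)) := if_neg (by omega)
      rw [e1, MT3.ob_neg, MT3.ob_neg, dist_comm] at h2
      exact h2.trans (min_le_left _ _)

end Pool.Agent.H963.CJ
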