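import Pool.Agent.H963.CJ.MDef2

/-!
# Uniqueness for long boundary problems on an orbit with singleton fibre
-/

set_option autoImplicit false
set_option linter.unusedSectionVars false

open Set Filter Topology Metric
open scoped Manifold ContDiff

namespace Pool.Agent.H963.CJ

open Pool.Agent.H721R2 Pool.Agent.H789R2.AN Pool.Agent.TH289 Pool.Agent.H244.Dyn
  Pool.Agent.H244.Loc

universe u v w

namespace MUNIQ

/-- limits along an ultrafilter in a compact space -/
theorem ulim {M : Type*} [TopologicalSpace M] [CompactSpace M] (U : Ultrafilter ℕ) (x : ℕ → M) :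
    ∃ a, Tendsto x U (𝓝 a) := by
  obtain ⟨a, -, ha⟩ := (isCompact_univ (X := M)).ultrafilter_le_nhds (U.map x)
    (by simp)
  exact ⟨a, ha⟩

/-- a bounded sequence of natural numbers is constant along an ultrafilter -/
theorem uconst (U : Ultrafilter ℕ) (m : ℕ → ℕ) {B : ℕ} (h : ∀ᶠ i in (U : Filter ℕ), m i ≤ B) :
    ∃ c, ∀ᶠ i in (U : Filter ℕ), m i = c := by
  have h1 : ∀ᶠ i in (U : Filter ℕ), ∃ c ∈ Set.Iic B, m i = c := by
    filter_upwards [h] with i hi
    exact ⟨m i, hi, rfl⟩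
  rw [Ultrafilter.eventually_exists_mem_iff (Set.finite_Iic B)] at h1
  obtain ⟨c, -, hc⟩ := h1
  exact ⟨c, hc⟩

theorem utop (U : Ultrafilter ℕ) (m : ℕ → ℕ)
    (h : ¬ ∃ B, ∀ᶠ i in (U : Filter ℕ), m i ≤ B) : Tendsto m U atTop := by
  rw [Filter.tendsto_atTop]
  intro B
  by_contra hB
  apply h
  refine ⟨B, ?_⟩
  rw [← Ultrafilter.eventually_not] at hB
  filter_upwards [hB] with i hi
  omega

section side

variable {E : Type u} [NormedAddCommGroup E] [NormedSpace ℝ E] [FiniteDimensional ℝ E]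
  {M : Type v} [MetricSpace M] [CompactSpace M] [ChartedSpace E M] [IsManifold 𝓘(ℝ, E) 1 M]

/-- one end: the solutions converge to the base point -/
theorem side {t : Finset M} {ρ : M → ℝ} {R ρ₀ : ℝ} (hG : GCh E t ρ R ρ₀) {k : M → M}
    {κ0 κc δ3 : ℝ} {g : M → M} (hg : Continuous g) (L : M → E → E →L[ℝ] E)
    (hL : ∀ j ∈ t, ∀ z, dist z j ≤ 2 * ρ j → ContinuousOn (L j) (closedBall (ps E j z) R))
    (hδ3 : 0 < δ3)
    (hT3 : ∀ a p, Sg k a → dist p a ≤ δ3 → (∀ n : ℕ, dist (g^[n] p) (g^[n] a) ≤ κ0) →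
      ∀ n : ℕ, dist (g^[n] p) (g^[n] a) ≤ κc)
    (hcone : ∀ p q j, Gw t ρ j q → (∀ n : ℕ, dist (g^[n] p) (g^[n] q) ≤ κc) →
      ‖(ps E j p - ps E j q) - L j (ps E j q) (ps E j p - ps E j q)‖ ≤
        1 / 2 * ‖ps E j p - ps E j q‖) :
    ∃ η' > 0, ∀ (U : Ultrafilter ℕ) (x p j : ℕ → M) (N : ℕ → ℕ) (x₀ : M), Tendsto N U atTop →
      Tendsto x U (𝓝 x₀) → Sg k x₀ → (∀ i, Gw t ρ (j i) (x i)) →
      (∀ i, p i ∈ (ps E (j i)).source) →
      (∀ i, dist (ps E (j i) (p i)) (ps E (j i) (x i)) ≤ η') →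
      (∀ i, L (j i) (ps E (j i) (x i)) (ps E (j i) (p i) - ps E (j i) (x i)) = 0) →
      (∀ i, ∀ n ≤ N i, dist (g^[n] (p i)) (g^[n] (x i)) ≤ κ0) → Tendsto p U (𝓝 x₀) := by
  obtain ⟨δ1, hδ1, hc1⟩ := hG.c1 1 one_pos
  obtain ⟨η', hη', -, hc2⟩ := hG.c2 (min δ3 (δ1 / 2)) (lt_min hδ3 (half_pos hδ1))
  refine ⟨η', hη', fun U x p j N x₀ hN hx hx₀ hj hp hd hLp hclose => ?_⟩
  obtain ⟨p₀, hp₀⟩ := ulim U p
  have hpx : ∀ i, dist (p i) (x i) ≤ min δ3 (δ1 / 2) := by
    intro i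
    have h1 := hc2 (j i) (hj i).1 (x i) (hj i).2 (ps E (j i) (p i)) (mem_closedBall.2 (hd i))
    rw [(ps E (j i)).left_inv (hp i)] at h1
    exact h1.le
  have hp0x0 : dist p₀ x₀ ≤ min δ3 (δ1 / 2) := le_of_tendsto' (hp₀.dist hx) hpx
  have hcl : ∀ n : ℕ, dist (g^[n] p₀) (g^[n] x₀) ≤ κ0 := by
    intro n
    have h1 : Tendsto (fun i => dist (g^[n] (p i)) (g^[n] (x i))) U
        (𝓝 (dist (g^[n] p₀) (g^[n] x₀))) :=
      (((hg.iterate n).tendsto p₀).comp hp₀).dist (((hg.iterate n).tendsto x₀).comp hx)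
    refine le_of_tendsto h1 ?_
    filter_upwards [hN.eventually_ge_atTop n] with i hi
    exact hclose i n hi
  have hcl' := hT3 x₀ p₀ hx₀ (hp0x0.trans (min_le_left _ _)) hcl
  -- the chart is constant
  obtain ⟨j₀, hj₀t, hj₀⟩ : ∃ j₀ ∈ (t : Set M), ∀ᶠ i in (U : Filter ℕ), j i = j₀ := by
    have h1 : ∀ᶠ i in (U : Filter ℕ), ∃ c ∈ (t : Set M), j i = c :=
      Eventually.of_forall fun i => ⟨j i, (hj i).1, rfl⟩
    rw [Ultrafilter.eventually_exists_mem_iff (Finset.finite_toSet t)] at h1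
    exact h1
  have hj₀t' : j₀ ∈ t := hj₀t
  have hGw : Gw t ρ j₀ x₀ := by
    refine ⟨hj₀t', ?_⟩
    refine le_of_tendsto (hx.dist tendsto_const_nhds) ?_
    filter_upwards [hj₀] with i hi
    rw [← hi]
    exact (hj i).2
  have hx₀s : x₀ ∈ (ps E j₀).source := hG.src j₀ hj₀t' x₀ hGw.2
  have hp₀s : p₀ ∈ (ps E j₀).source := by
    refine (hc1 j₀ hj₀t' x₀ hGw.2 p₀ ?_).1
    have h1 := hp0x0.trans (min_le_right _ _)
    linarith
  have hψx : ContinuousAt (ps E j₀) x₀ := continuousAt_extChartAt' hx₀s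
  have hψp : ContinuousAt (ps E j₀) p₀ := continuousAt_extChartAt' hp₀s
  have t1 : Tendsto (fun i => ps E j₀ (x i)) U (𝓝 (ps E j₀ x₀)) := hψx.tendsto.comp hx
  have t2 : Tendsto (fun i => ps E j₀ (p i)) U (𝓝 (ps E j₀ p₀)) := hψp.tendsto.comp hp₀
  have hLc : ContinuousAt (L j₀) (ps E j₀ x₀) :=
    (hL j₀ hj₀t' x₀ hGw.2).continuousAt (closedBall_mem_nhds _ hG.R_pos)
  have t3 : Tendsto (fun i => L j₀ (ps E j₀ (x i))) U (𝓝 (L j₀ (ps E j₀ x₀))) :=
    hLc.tendsto.comp t1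
  have t4 : Tendsto (fun i => L j₀ (ps E j₀ (x i)) (ps E j₀ (p i) - ps E j₀ (x i))) U
      (𝓝 (L j₀ (ps E j₀ x₀) (ps E j₀ p₀ - ps E j₀ x₀))) :=
    ((isBoundedBilinearMap_apply (𝕜 := ℝ) (E := E) (F := E)).continuous.continuousAt.tendsto
      (x := (L j₀ (ps E j₀ x₀), ps E j₀ p₀ - ps E j₀ x₀))).comp (t3.prodMk_nhds (t2.sub t1))
  have hL0 : L j₀ (ps E j₀ x₀) (ps E j₀ p₀ - ps E j₀ x₀) = 0 := by
    refine tendsto_nhds_unique t4 (tendsto_const_nhds.congr' ?_)
    filter_upwards [hj₀] with i hi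
    rw [← hi]
    exact (hLp i).symm
  have h1 := hcone p₀ x₀ j₀ hGw hcl'
  rw [hL0, sub_zero] at h1
  have h2 : ‖ps E j₀ p₀ - ps E j₀ x₀‖ = 0 := by
    have := norm_nonneg (ps E j₀ p₀ - ps E j₀ x₀)
    linarith
  rw [norm_eq_zero, sub_eq_zero] at h2
  have h3 : p₀ = x₀ := (ps E j₀).injOn hp₀s hx₀s h2
  rw [← h3]
  exact hp₀

end side

theorem iter_back {M : Type*} [TopologicalSpace M] (f : M ≃ₜ M) (x : M) {n N : ℕ} (h : n ≤ N) :
    f.symm^[n] (f^[N] x) = f^[N - n] x := by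
  obtain ⟨m, rfl⟩ := Nat.exists_eq_add_of_le h
  rw [Nat.add_sub_cancel_left, Function.iterate_add_apply]
  exact Function.LeftInverse.iterate (fun y => f.symm_apply_apply y) n _

theorem iter_fwd {M : Type*} [TopologicalSpace M] (f : M ≃ₜ M) (x : M) {n N : ℕ} (h : n ≤ N) :
    f^[n] (f.symm^[N] x) = f.symm^[N - n] x := by
  obtain ⟨m, rfl⟩ := Nat.exists_eq_add_of_le h
  rw [Nat.add_sub_cancel_left, Function.iterate_add_apply]
  exact Function.LeftInverse.iterate (fun y => f.apply_symm_apply y) n _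

section core

variable {M : Type v} [MetricSpace M] [CompactSpace M]

/-- the middle: solutions are close to the orbit everywhere -/
theorem core {f : M ≃ₜ M} {k : M → M} {κ0 : ℝ} (hk : KK f k κ0) (U : Ultrafilter ℕ)
    (a p : ℕ → M) (N m : ℕ → ℕ) (hm : ∀ i, m i ≤ N i) (a₀ b₀ : M) (ha : Tendsto a U (𝓝 a₀))
    (hb : Tendsto (fun i => f^[N i] (a i)) U (𝓝 b₀)) (hpa : Tendsto p U (𝓝 a₀))
    (hpb : Tendsto (fun i => f^[N i] (p i)) U (𝓝 b₀))
    (hmid : ∀ c, Tendsto m U atTop → Tendsto (fun i => N i - m i) U atTop →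
      Tendsto (fun i => f^[m i] (a i)) U (𝓝 c) → Sg k c)
    (hclose : ∀ i, ∀ n ≤ N i, dist (f^[n] (p i)) (f^[n] (a i)) ≤ κ0) {κ1 : ℝ} (hκ1 : 0 < κ1)
    (hviol : ∀ i, κ1 < dist (f^[m i] (p i)) (f^[m i] (a i))) : False := by
  -- a limit of the distances
  have fin : ∀ c, Tendsto (fun i => f^[m i] (p i)) U (𝓝 c) →
      Tendsto (fun i => f^[m i] (a i)) U (𝓝 c) → False := by
    intro c h1 h2
    have h3 := h1.dist h2
    rw [dist_self] at h3
    have h4 : κ1 ≤ 0 := ge_of_tendsto' h3 fun i => (hviol i).le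
    linarith
  by_cases h1 : ∃ B, ∀ᶠ i in (U : Filter ℕ), m i ≤ B
  · obtain ⟨B, hB⟩ := h1
    obtain ⟨c, hc⟩ := uconst U m hB
    refine fin (f^[c] a₀) ?_ ?_
    · refine (((f.continuous.iterate c).tendsto a₀).comp hpa).congr' ?_
      filter_upwards [hc] with i hi
      rw [hi]
      rfl
    · refine (((f.continuous.iterate c).tendsto a₀).comp ha).congr' ?_
      filter_upwards [hc] with i hi
      rw [hi]
      rfl
  by_cases h2 : ∃ B, ∀ᶠ i in (U : Filter ℕ), N i - m i ≤ B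
  · obtain ⟨B, hB⟩ := h2
    obtain ⟨c, hc⟩ := uconst U (fun i => N i - m i) hB
    have key : ∀ (x : M) (i : ℕ), N i - m i = c → f.symm^[c] (f^[N i] x) = f^[m i] x := by
      intro x i hi
      have h3 := hm i
      rw [iter_back f x (by omega)]
      congr 1
      omega
    refine fin (f.symm^[c] b₀) ?_ ?_
    · refine (((f.symm.continuous.iterate c).tendsto b₀).comp hpb).congr' ?_
      filter_upwards [hc] with i hi
      exact key (p i) i hi
    · refine (((f.symm.continuous.iterate c).tendsto b₀).comp hb).congr' ?_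
      filter_upwards [hc] with i hi
      exact key (a i) i hi
  have hmt := utop U m h1
  have hNt := utop U (fun i => N i - m i) h2
  obtain ⟨q, hq⟩ := ulim U (fun i => f^[m i] (p i))
  obtain ⟨c, hc⟩ := ulim U (fun i => f^[m i] (a i))
  have hS := hmid c hmt hNt hc
  have hkq : k q = k c := by
    apply hk.sep
    intro n
    have hpos := hk.pos
    have h3 : dist (ob f q n) (ob f c n) ≤ κ0 := by
      rcases n with n | n
      · change dist (f^[n] q) (f^[n] c) ≤ κ0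
        refine le_of_tendsto ((((f.continuous.iterate n).tendsto q).comp hq).dist
          (((f.continuous.iterate n).tendsto c).comp hc)) ?_
        filter_upwards [hNt.eventually_ge_atTop n] with i hi
        have h5 := hm i
        have h4 := hclose i (n + m i) (by omega)
        rw [Function.iterate_add_apply, Function.iterate_add_apply] at h4
        exact h4
      · change dist (f.symm^[n + 1] q) (f.symm^[n + 1] c) ≤ κ0
        refine le_of_tendsto ((((f.symm.continuous.iterate (n + 1)).tendsto q).comp hq).dist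
          (((f.symm.continuous.iterate (n + 1)).tendsto c).comp hc)) ?_
        filter_upwards [hmt.eventually_ge_atTop (n + 1)] with i hi
        change dist (f.symm^[n + 1] (f^[m i] (p i))) (f.symm^[n + 1] (f^[m i] (a i))) ≤ κ0
        rw [iter_back f _ hi, iter_back f _ hi]
        have h5 := hm i
        exact hclose i (m i - (n + 1)) (by omega)
    linarith
  have hqc : q = c := hS q hkq
  subst hqc
  exact fin q hq hc

end core

end MUNIQ

open MUNIQ

theorem t_UNIQ (h2 : S_T2.{v}) (h3 : S_T3.{v}) (hc : S_CONE.{u, v, w}) (h4 : S_C2.{u, v, w}) :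
    S_UNIQ.{u, v, w} := by
  intro E _ _ _ M _ _ _ _ F _ _ e f Es Eu π t ρ R ρ₀ k κf κ0 hF
  obtain ⟨C, a₁, b₁, Ls, Lu, hA⟩ := hF.hf
  obtain ⟨κ1, hκ1, α, hα, hC2⟩ := h4 E M F e hF.he hF.hinj f Es Eu C a₁ b₁ Ls Lu hA π hF.hπ t ρ R ρ₀
    hF.ch
  obtain ⟨κc, hκc, hcone⟩ := hc E M F e hF.he hF.hinj f Es Eu C a₁ b₁ Ls Lu hA π hF.hπ t ρ R ρ₀
    hF.ch (1 / 2) (by norm_num)
  obtain ⟨δ3, hδ3, hT3⟩ := h3 M f κf hF.taf k κ0 hF.kk κc hκc
  have hT2 := h2 M f κf hF.taf k κ0 hF.kk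
  have hPc : ∀ j ∈ t, ∀ z, dist z j ≤ 2 * ρ j → ContinuousOn (Pj π j) (closedBall (ps E j z) R) :=
    fun j hj z hz => Pj_cont hF.he hF.hinj hA hF.hπ (hF.ch.tgt j hj z hz)
      (isCompact_closedBall _ _)
  obtain ⟨η1', hη1', hside1⟩ := side hF.ch (g := f) f.continuous (fun j => Pj π j) hPc hδ3
    (fun a p ha hd => (hT3 a p ha hd).1) (fun p q j hj hn => (hcone p q j hj).2 hn)
  obtain ⟨η2', hη2', hside2⟩ := side hF.ch (g := f.symm) f.symm.continuous
    (fun j y => 1 - Pj π j y) (fun j hj z hz => continuousOn_const.sub (hPc j hj z hz)) hδ3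
    (fun a p ha hd => (hT3 a p ha hd).2) (fun p q j hj hn => by
      have h5 := (hcone p q j hj).1 hn
      change ‖(ps E j p - ps E j q) - ((ps E j p - ps E j q) -
        Pj π j (ps E j q) (ps E j p - ps E j q))‖ ≤ _
      rw [sub_sub_cancel]
      exact h5)
  -- the common part
  have main : ∀ η1, η1 ≤ min η1' η2' → ∀ (A : ℕ → M), (∀ (U : Ultrafilter ℕ) (N : ℕ → ℕ) (x : M),
      Tendsto N U atTop → (Tendsto (fun i => A (N i)) U (𝓝 x) → Sg k x) ∧
      (Tendsto (fun i => f^[N i] (A (N i))) U (𝓝 x) → Sg k x) ∧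
      ∀ m : ℕ → ℕ, (∀ i, m i ≤ N i) → Tendsto m U atTop → Tendsto (fun i => N i - m i) U atTop →
        Tendsto (fun i => f^[m i] (A (N i))) U (𝓝 x) → Sg k x) →
      ∃ n0 : ℕ, ∀ N ≥ n0, Uq E f π t ρ κ0 η1 N (A N) := by
    intro η1 hη1 A hSg
    by_contra hcon
    push Not at hcon
    choose N hN hNU using hcon
    unfold Uq at hNU
    push Not at hNU
    choose j j' p hj hj' hps hps' hd hd' hP hP' hclose hpA using hNU
    have hviol : ∀ i, ∃ m ≤ N i, κ1 < dist (f^[m] (p i)) (f^[m] (A (N i))) := by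
      intro i
      by_contra hcon
      push Not at hcon
      apply hpA i
      refine hC2 (N i) (p i) (A (N i)) (j i) (j' i) (hj i) (hj' i) hcon ?_ ?_
      · have h5 := hP i
        change Pj π (j i) (ps E (j i) (A (N i))) (ps E (j i) (p i) - ps E (j i) (A (N i))) = 0 at h5
        rw [h5, norm_zero]
        positivity
      · have h5 := hP' i
        change Pj π (j' i) (ps E (j' i) (f^[N i] (A (N i))))
          (ps E (j' i) (f^[N i] (p i)) - ps E (j' i) (f^[N i] (A (N i)))) =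
          ps E (j' i) (f^[N i] (p i)) - ps E (j' i) (f^[N i] (A (N i))) at h5
        rw [h5, sub_self, norm_zero]
        positivity
    choose m hm hviol using hviol
    let U : Ultrafilter ℕ := hyperfilter ℕ
    have hU : (U : Filter ℕ) ≤ atTop := Nat.hyperfilter_le_atTop
    have hNt : Tendsto N U atTop := (tendsto_atTop_mono hN tendsto_id).mono_left hU
    obtain ⟨a₀, ha₀⟩ := ulim U (fun i => A (N i))
    obtain ⟨b₀, hb₀⟩ := ulim U (fun i => f^[N i] (A (N i)))
    have hSa := (hSg U N a₀ hNt).1 ha₀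
    have hSb := (hSg U N b₀ hNt).2.1 hb₀
    have hpa : Tendsto p U (𝓝 a₀) := hside1 U (fun i => A (N i)) p j N a₀ hNt ha₀ hSa hj hps
      (fun i => (hd i).trans (hη1.trans (min_le_left _ _))) hP hclose
    have hpb : Tendsto (fun i => f^[N i] (p i)) U (𝓝 b₀) := by
      refine hside2 U (fun i => f^[N i] (A (N i))) (fun i => f^[N i] (p i)) j' N b₀ hNt hb₀ hSb hj'
        hps' (fun i => (hd' i).trans (hη1.trans (min_le_right _ _))) (fun i => ?_)
        (fun i n hn => ?_)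
      · change (ps E (j' i) (f^[N i] (p i)) - ps E (j' i) (f^[N i] (A (N i)))) -
          Pj π (j' i) (ps E (j' i) (f^[N i] (A (N i))))
            (ps E (j' i) (f^[N i] (p i)) - ps E (j' i) (f^[N i] (A (N i)))) = 0
        rw [hP' i, sub_self]
      · rw [iter_back f _ hn, iter_back f _ hn]
        exact hclose i (N i - n) (Nat.sub_le _ _)
    exact core hF.kk U (fun i => A (N i)) p N m hm a₀ b₀ ha₀ hb₀ hpa hpb
      (fun c hmt hNm hmc => (hSg U N c hNt).2.2 m hm hmt hNm hmc) hclose hκ1 hviol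
  refine ⟨min η1' η2', lt_min hη1' hη2', fun η1 _ hη1 a ha => ⟨?_, ?_⟩⟩
  · refine main η1 hη1 (fun _ => a) fun U N x hN => ⟨fun hx => ?_, fun hx => ?_,
      fun m _ hmt _ hx => ?_⟩
    · have hxa : x = a := tendsto_nhds_unique hx tendsto_const_nhds
      rw [hxa]
      exact ha
    · exact hT2 a x (Or.inl (MapClusterPt.of_comp hN hx.mapClusterPt))
    · exact hT2 a x (Or.inl (MapClusterPt.of_comp hmt hx.mapClusterPt))
  · refine main η1 hη1 (fun N => f.symm^[N] a) fun U N x hN => ⟨fun hx => ?_, fun hx => ?_,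
      fun m hm _ hNm hx => ?_⟩
    · exact hT2 a x (Or.inr (MapClusterPt.of_comp hN hx.mapClusterPt))
    · have hxa : x = a := by
        refine tendsto_nhds_unique hx (tendsto_const_nhds.congr fun i => ?_)
        rw [iter_fwd f a le_rfl, Nat.sub_self]
        rfl
      rw [hxa]
      exact ha
    · have hx' : Tendsto ((fun n : ℕ => f.symm^[n] a) ∘ fun i => N i - m i) U (𝓝 x) := by
        refine hx.congr fun i => ?_
        change f^[m i] (f.symm^[N i] a) = f.symm^[N i - m i] a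
        rw [iter_fwd f a (hm i)]
      exact hT2 a x (Or.inr (MapClusterPt.of_comp hNm hx'.mapClusterPt))

end Pool.Agent.H963.CJ
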