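import Pool.Agent.H963.CJ.MDef3

/-!
# ADM: boundary problems are admissible (by helper385)
-/

set_option autoImplicit false
set_option linter.unusedSectionVars false

open Set Filter Topology Metric
open scoped Manifold ContDiff

namespace Pool.Agent.H963.CJ

open Pool.Agent.H721R2 Pool.Agent.H789R2.AN Pool.Agent.TH289 Pool.Agent.H244.Dyn
  Pool.Agent.H244.Loc

universe u v w

namespace NADM

variable {E : Type u} [NormedAddCommGroup E] [NormedSpace ℝ E]

theorem box_eq (N : ℕ) (D : ℕ → Set E) :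
    Box N D = Set.pi Set.univ (fun i : Fin (N + 1) => D i) := by
  ext y
  simp [Box]

theorem closure_box (N : ℕ) (D : ℕ → Set E) {y : Fin (N + 1) → E} (hy : y ∈ closure (Box N D))
    (i : Fin (N + 1)) : y i ∈ closure (D i) := by
  rw [box_eq, closure_pi_set] at hy
  exact hy i (Set.mem_univ _)

theorem bvp_cont {s w : ℕ} (N : ℕ) (F : ℕ → E → E) (D : ℕ → Set E) (bm : E → (Fin s → ℝ))
    (bp : E → (Fin w → ℝ)) (hF : ∀ i < N, ContinuousOn (F i) (closure (D i)))
    (hbm : ContinuousOn bm (closure (D 0))) (hbp : ContinuousOn bp (closure (D N))) :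
    ContinuousOn (Bvp N F bm bp) (closure (Box N D)) := by
  have hproj : ∀ i : Fin (N + 1), ContinuousOn (fun y : Fin (N + 1) → E => y i)
      (closure (Box N D)) := fun i => (continuous_apply i).continuousOn
  have hmaps : ∀ i : Fin (N + 1), MapsTo (fun y : Fin (N + 1) → E => y i)
      (closure (Box N D)) (closure (D i)) := fun i y hy => closure_box N D hy i
  refine ContinuousOn.prodMk ?_ (ContinuousOn.prodMk ?_ ?_)
  · refine continuousOn_pi.2 fun i => ?_
    refine (hproj i.succ).sub ?_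
    exact ContinuousOn.comp (hF i i.2) (hproj i.castSucc) (hmaps i.castSucc)
  · exact ContinuousOn.comp hbm (hproj 0) (hmaps 0)
  · exact ContinuousOn.comp hbp (hproj (Fin.last N)) (hmaps (Fin.last N))

end NADM

theorem t_ADM : S_ADM.{u} := by
  intro K l Cs hG2 E _ _ _ A P hGC N s w c F D r ε1 ε2 bm bp hCH hbm hbp hend
  have hcl : ∀ i ≤ N, closure (D i) ⊆ closedBall (c i) r := fun i hi =>
    closure_minimal (hCH.sub i hi) isClosed_closedBall
  refine ⟨?_, ?_, ?_, ?_⟩
  · rw [NADM.box_eq]
    exact isOpen_set_pi Set.finite_univ fun i _ => hCH.op i (Nat.lt_succ_iff.1 i.2)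
  · rw [NADM.box_eq]
    refine Bornology.IsBounded.pi fun i => ?_
    exact isBounded_closedBall.subset (hCH.sub i (Nat.lt_succ_iff.1 i.2))
  · exact NADM.bvp_cont N F D bm bp
      (fun i hi => (hCH.cont i hi).mono (hcl i hi.le)) hbm hbp
  · intro x hx h0
    have hxc : x ∈ closure (Box N D) := hx.1
    have hop : IsOpen (Box N D) := by
      rw [NADM.box_eq]
      exact isOpen_set_pi Set.finite_univ fun i _ => hCH.op i (Nat.lt_succ_iff.1 i.2)
    have hxn : x ∉ Box N D := by
      intro hxb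
      exact hx.2 (hop.interior_eq.symm ▸ hxb)
    apply hxn
    obtain ⟨y, hy⟩ : ∃ y : ℕ → E, ∀ i : Fin (N + 1), y i = x i := by
      refine ⟨fun i => if h : i < N + 1 then x ⟨i, h⟩ else 0, fun i => ?_⟩
      simp [i.2]
    have hyc : ∀ i ≤ N, y i ∈ closure (D i) := by
      intro i hi
      have h1 := NADM.closure_box N D hxc ⟨i, Nat.lt_succ_iff.2 hi⟩
      rw [← hy] at h1
      exact h1
    have hyF : ∀ i < N, y (i + 1) = F i (y i) := by
      intro i hi
      have h1 := congrFun (congrArg Prod.fst h0) ⟨i, hi⟩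
      have h2 : x (Fin.succ ⟨i, hi⟩) - F i (x (Fin.castSucc ⟨i, hi⟩)) = 0 := h1
      rw [← hy, ← hy] at h2
      exact sub_eq_zero.1 h2
    have hym : bm (y 0) = 0 := by
      have h1 : bm (x 0) = 0 := congrArg (fun p => p.2.1) h0
      rw [← hy] at h1
      exact h1
    have hyp : bp (y N) = 0 := by
      have h1 : bp (x (Fin.last N)) = 0 := congrArg (fun p => p.2.2) h0
      rw [← hy] at h1
      exact h1
    obtain ⟨hD0, hDN⟩ := hend y hyc hyF hym hyp
    have hest := hG2 E A P hGC N c y (fun i => F i (y i)) (fun _ => 0) ε1 ε2 hCH.e1 hCH.e2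
      (fun i _ => ⟨le_rfl, zero_le_one⟩)
      (fun i hi => hCH.lin i hi (y i) (hcl i hi.le (hyc i hi.le)))
      (fun i hi => by rw [hyF i hi, sub_zero, one_smul])
      (fun i hi => by rw [hyF i hi, sub_zero, one_smul])
      (hCH.d0 _ (hyc 0 (Nat.zero_le _))) (hCH.dN _ (hyc N le_rfl))
    intro i
    rw [← hy]
    have hiN : (i : ℕ) ≤ N := Nat.lt_succ_iff.1 i.2
    rcases Nat.eq_zero_or_pos (i : ℕ) with h | h
    · rw [h]
      exact hD0
    · rcases hiN.eq_or_lt with h' | h'
      · rw [h']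
        exact hDN
      · rw [hCH.mid i h h', mem_ball, dist_eq_norm]
        exact (hest i hiN).trans_lt hCH.small

end Pool.Agent.H963.CJ
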