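import Pool.Agent.H963.CJ.MDef3

/-!
# The chain of `f` along an orbit satisfies the abstract hypotheses
-/

set_option autoImplicit false
set_option linter.unusedSectionVars false

open Set Filter Topology Metric
open scoped Manifold ContDiff

namespace Pool.Agent.H963.CJ

open Pool.Agent.H721R2 Pool.Agent.H789R2.AN Pool.Agent.TH289 Pool.Agent.H244.Dyn
  Pool.Agent.H244.Loc

universe u v w

namespace NCHX

variable {E : Type u} [NormedAddCommGroup E] [NormedSpace ℝ E] [FiniteDimensional ℝ E]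
  {M : Type v} [MetricSpace M] [CompactSpace M] [ChartedSpace E M] [IsManifold 𝓘(ℝ, E) 1 M]
  {F : Type w} [NormedAddCommGroup F] [NormedSpace ℝ F]
  {e : M → F} {f g : M ≃ₜ M} {k : M → M} {Es Eu : M → Submodule ℝ E}
  {π π' : M → E →L[ℝ] E} {t : Finset M} {ρ : M → ℝ}
  {R ρ₀ κf κ0 K l Cs r ε1 ε2 η2 : ℝ}

theorem gw_of_gd (h : Ctx E e f g k Es Eu π π' t ρ R ρ₀ κf κ0 K l Cs r ε1 ε2 η2) {j z : M}
    (hg : Gd t ρ j z) : Gw t ρ j z := by
  have h1 := h.fc.ch.ρ₀_le j hg.1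
  have h2 := h.fc.ch.ρ₀_pos
  exact ⟨hg.1, hg.2.trans (by linarith)⟩

theorem kf_iter (h : Ctx E e f g k Es Eu π π' t ρ R ρ₀ κf κ0 K l Cs r ε1 ε2 η2) (x : M) (i : ℕ) :
    g (k (f^[i] x)) = k (f^[i + 1] x) := by
  rw [Function.iterate_succ_apply', h.kf]

theorem step' (h : Ctx E e f g k Es Eu π π' t ρ R ρ₀ κf κ0 K l Cs r ε1 ε2 η2) {x : M}
    {j : ℕ → M} (hj : ∀ i, Gd t ρ (j i) (k (f^[i] x))) (i : ℕ) :
    ∀ y ∈ closedBall (cx E f k x j i) r,
      y ∈ (ps E (j i)).target ∧ f ((ps E (j i)).symm y) ∈ (ps E (j (i + 1))).source ∧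
      ‖Fx E f j i y - cx E f k x j (i + 1) -
        fderiv ℝ (rep g (j i) (j (i + 1))) (cx E f k x j i) (y - cx E f k x j i)‖ ≤ ε1 := by
  intro y hy
  have h1 : Gd t ρ (j (i + 1)) (g (k (f^[i] x))) := by
    rw [kf_iter h]
    exact hj (i + 1)
  obtain ⟨a1, a2, -, a4⟩ := h.step (k (f^[i] x)) (j i) (j (i + 1)) (hj i) h1 y hy
  rw [kf_iter h] at a4
  exact ⟨a1, a2, a4⟩

theorem cont' (h : Ctx E e f g k Es Eu π π' t ρ R ρ₀ κf κ0 K l Cs r ε1 ε2 η2) {x : M}
    {j : ℕ → M} (hj : ∀ i, Gd t ρ (j i) (k (f^[i] x))) (i : ℕ) :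
    ContinuousOn (Fx E f j i) (closedBall (cx E f k x j i) r) := by
  have h1 : ContinuousOn (ps E (j i)).symm (closedBall (cx E f k x j i) r) :=
    (continuousOn_extChartAt_symm (I := 𝓘(ℝ, E)) (j i)).mono fun y hy => (step' h hj i y hy).1
  have h2 : ContinuousOn (fun y => f ((ps E (j i)).symm y)) (closedBall (cx E f k x j i) r) :=
    f.continuous.comp_continuousOn h1
  exact (continuousOn_extChartAt (I := 𝓘(ℝ, E)) (j (i + 1))).comp h2
    fun y hy => (step' h hj i y hy).2.1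

end NCHX

open NCHX in
theorem t_CHX : S_CHX.{u, v, w} := by
  intro E _ _ _ M _ _ _ _ F _ _ e f g k Es Eu π π' t ρ R ρ₀ κf κ0 K l Cs r ε1 ε2 η2 h x j hj
  refine ⟨h.gc (fun i => k (f^[i] x)) j (fun i => (kf_iter h x i).symm)
    (fun i => gw_of_gd h (hj i)), ?_⟩
  intro η1 hη1 hη2 N hN
  have hr := h.r_pos
  have hr2 : 0 < r / 2 := by linarith
  have hc0 : cx E f k x j 0 = ps E (j 0) (k x) := rfl
  have hD0 : Dx E f k x j r η1 N 0 = ball (ps E (j 0) x) η1 := by
    unfold Dx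
    rw [if_pos rfl]
  have hDN : Dx E f k x j r η1 N N = ball (ps E (j N) (f^[N] x)) η1 := by
    unfold Dx
    rw [if_neg hN.ne', if_pos rfl]
  have hDi : ∀ i, i ≠ 0 → i ≠ N → Dx E f k x j r η1 N i = ball (cx E f k x j i) (r / 2) := by
    intro i h0 h1
    unfold Dx
    rw [if_neg h0, if_neg h1]
  have hcl : ∀ p : E, closure (ball p η1) ⊆ closedBall p η2 := fun p =>
    closure_ball_subset_closedBall.trans (closedBall_subset_closedBall hη2)
  have hkb0 := h.kb x (j 0) (hj 0)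
  have hkbN := h.kb (f^[N] x) (j N) (hj N)
  refine ⟨h.r_pos, h.e1, h.e2, h.small, ?_, ?_, ?_, ?_, ?_, ?_, ?_, ?_⟩
  · intro i _
    unfold Dx
    split_ifs <;> exact isOpen_ball
  · intro i _
    unfold Dx
    split_ifs
    · exact ⟨_, mem_ball_self hη1⟩
    · exact ⟨_, mem_ball_self hη1⟩
    · exact ⟨_, mem_ball_self hr2⟩
  · intro i _ y hy
    rw [mem_closedBall]
    rcases eq_or_ne i 0 with h0 | h0
    · subst h0
      rw [hD0] at hy
      have h1 := (hkb0 y (hcl _ (subset_closure hy))).1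
      rw [hc0]
      linarith
    · rcases eq_or_ne i N with h1 | h1
      · subst h1
        rw [hDN] at hy
        have h2 := (hkbN y (hcl _ (subset_closure hy))).1
        have h3 : cx E f k x j i = ps E (j i) (k (f^[i] x)) := rfl
        rw [h3]
        linarith
      · rw [hDi i h0 h1, mem_ball] at hy
        linarith
  · intro i h0 h1
    exact hDi i h0.ne' h1.ne
  · intro i _
    exact cont' h hj i
  · intro i _ y hy
    exact (step' h hj i y hy).2.2
  · intro y hy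
    rw [hD0] at hy
    exact (hkb0 y (hcl _ hy)).2.1
  · intro y hy
    rw [hDN] at hy
    exact (hkbN y (hcl _ hy)).2.2

end Pool.Agent.H963.CJ
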