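import Pool.Agent.H963.CJ.MDef3

/-!
# CMPL: the left degree is locally constant (helper627)
-/

set_option autoImplicit false
set_option linter.unusedSectionVars false

open Set Filter Topology Metric
open scoped Manifold ContDiff

namespace Pool.Agent.H963.CJ.NCMPL

open Pool.Agent.H721R2 Pool.Agent.H789R2.AN Pool.Agent.TH289 Pool.Agent.H244.Dyn
  Pool.Agent.H244.Loc Pool.Agent.H963.CJ

universe u v w

section trans

variable {X : Type u} [NormedAddCommGroup X] [NormedSpace ℝ X]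
  {Y : Type u} [NormedAddCommGroup Y] [NormedSpace ℝ Y]

theorem closure_tr (Ω : Set X) (v : X) :
    closure {y : X | y + v ∈ Ω} = {y : X | y + v ∈ closure Ω} :=
  ((Homeomorph.addRight v).preimage_closure Ω).symm

theorem cnt_tr (Ψ : X → X) (Ω : Set X) (v : X) :
    cnt (fun y => Ψ (y + v)) {y : X | y + v ∈ Ω} = cnt Ψ Ω := by
  unfold cnt
  refine finsum_mem_eq_of_bijOn (fun y => y + v) ⟨?_, ?_, ?_⟩ ?_
  · intro y hy
    exact hy
  · intro a _ b _ h
    exact add_right_cancel h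
  · intro y hy
    refine ⟨y - v, ?_, sub_add_cancel y v⟩
    show (y - v + v ∈ Ω) ∧ Ψ (y - v + v) = 0
    rw [sub_add_cancel]
    exact hy
  · intro y _
    rw [fderiv_comp_add_right]

theorem reg_tr {Ψ : X → X} {Ω : Set X} (h : Reg Ψ Ω) (v : X) :
    Reg (fun y => Ψ (y + v)) {y : X | y + v ∈ Ω} := by
  refine ⟨h.smooth.comp (contDiff_id.add contDiff_const), ?_⟩
  intro y hy h0
  rw [closure_tr] at hy
  rw [fderiv_comp_add_right]
  exact h.nd _ hy h0

theorem hasDeg_tr {Φ : X → Y} {Ω : Set X} (v : X) {d : ℕ}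
    (h : HasDeg (fun y => Φ (y + v)) {y : X | y + v ∈ Ω} d) : HasDeg Φ Ω d := by
  obtain ⟨e, ε, hε, h1⟩ := h
  refine ⟨e, ε, hε, fun Ψ hΨ hc => ?_⟩
  rw [← cnt_tr Ψ Ω v]
  refine h1 _ (reg_tr hΨ v) fun y hy => ?_
  rw [closure_tr] at hy
  exact hc _ hy

theorem hasDeg_tr_iff {Φ : X → Y} {Ω : Set X} (v : X) {d : ℕ} :
    HasDeg (fun y => Φ (y + v)) {y : X | y + v ∈ Ω} d ↔ HasDeg Φ Ω d := by
  refine ⟨hasDeg_tr v, fun h => ?_⟩
  refine hasDeg_tr (-v) ?_
  have e1 : (fun y => Φ (y + -v + v)) = Φ := by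
    funext y
    rw [neg_add_cancel_right]
  have e2 : {y : X | y + -v ∈ {y : X | y + v ∈ Ω}} = Ω := by
    ext y
    show y + -v + v ∈ Ω ↔ _
    rw [neg_add_cancel_right]
  rw [e1, e2]
  exact h

/-- translation invariance of the degree -/
theorem adeg_tr (Φ : X → Y) (Ω : Set X) (v : X) :
    adeg (fun y => Φ (y + v)) {y : X | y + v ∈ Ω} = adeg Φ Ω := by
  have h1 : HasDeg (fun y => Φ (y + v)) {y : X | y + v ∈ Ω} = HasDeg Φ Ω := by
    funext d
    exact propext (hasDeg_tr_iff v)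
  unfold adeg
  rw [h1]

/-- stability of the degree -/
theorem stab [FiniteDimensional ℝ X] [FiniteDimensional ℝ Y] (hA1 : S_A1.{u}) {Φ : X → Y}
    {Ω : Set X} (h : Adm Φ Ω) : ∃ m > 0, ∀ (Φ' : X → Y) (Ω' : Set X) (v : X),
      Ω = {y : X | y + v ∈ Ω'} → ContinuousOn (fun y => Φ' (y + v)) (closure Ω) →
      (∀ y ∈ closure Ω, ‖Φ' (y + v) - Φ y‖ < m) → Adm Φ' Ω' ∧ adeg Φ' Ω' = adeg Φ Ω := by
  have := FiniteDimensional.proper ℝ X
  have hcomp : IsCompact (frontier Ω) :=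
    (Metric.isCompact_of_isClosed_isBounded isClosed_closure h.bd.closure).of_isClosed_subset
      isClosed_frontier frontier_subset_closure
  obtain ⟨m, hm, hm'⟩ : ∃ m > 0, ∀ y ∈ frontier Ω, m ≤ ‖Φ y‖ := by
    rcases (frontier Ω).eq_empty_or_nonempty with h0 | h0
    · exact ⟨1, one_pos, fun y hy => by rw [h0] at hy; exact absurd hy (notMem_empty y)⟩
    · obtain ⟨y0, hy0, hmin⟩ := hcomp.exists_isMinOn h0
        ((h.cont.mono frontier_subset_closure).norm)
      exact ⟨‖Φ y0‖, norm_pos_iff.2 (h.nz y0 hy0), fun y hy => hmin hy⟩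
  refine ⟨m, hm, fun Φ' Ω' v hΩ hc hcl => ?_⟩
  have hne : ∀ t ∈ Icc (0 : ℝ) 1, ∀ y ∈ frontier Ω, Φ y + t • (Φ' (y + v) - Φ y) ≠ 0 := by
    intro t ht y hy h0
    have h1 := hcl y (frontier_subset_closure hy)
    have h2 := hm' y hy
    have h3 : Φ y = -(t • (Φ' (y + v) - Φ y)) := eq_neg_of_add_eq_zero_left h0
    have h4 : ‖Φ y‖ ≤ ‖Φ' (y + v) - Φ y‖ := by
      rw [h3, norm_neg, norm_smul, Real.norm_eq_abs, abs_of_nonneg ht.1]
      conv_rhs => rw [← h3]
      exact mul_le_of_le_one_left (norm_nonneg _) ht.2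
    linarith
  have hΩ' : Ω' = {y : X | y + -v ∈ Ω} := by
    ext y
    rw [hΩ]
    show _ ↔ y + -v + v ∈ Ω'
    rw [neg_add_cancel_right]
  have hcl' : closure Ω' = {y : X | y + -v ∈ closure Ω} := by
    rw [hΩ', closure_tr]
  refine ⟨⟨?_, ?_, ?_, ?_⟩, ?_⟩
  · rw [hΩ']
    exact h.op.preimage (continuous_id.add continuous_const)
  · rw [hΩ']
    obtain ⟨C, hC⟩ := h.bd.subset_closedBall (0 : X)
    refine (isBounded_closedBall (x := (0 : X)) (r := C + ‖v‖)).subset fun y hy => ?_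
    have h1 := hC hy
    rw [mem_closedBall_zero_iff] at h1 ⊢
    calc ‖y‖ = ‖(y + -v) + v‖ := by rw [neg_add_cancel_right]
      _ ≤ ‖y + -v‖ + ‖v‖ := norm_add_le _ _
      _ ≤ C + ‖v‖ := by linarith
  · rw [hcl']
    have h1 : ContinuousOn (fun y : X => y + -v) {y : X | y + -v ∈ closure Ω} :=
      (continuous_id.add continuous_const).continuousOn
    have h2 := hc.comp h1 (fun y hy => hy)
    refine h2.congr fun y _ => ?_
    show Φ' y = Φ' (y + -v + v)
    rw [neg_add_cancel_right]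
  · intro y hy h0
    have h1 : y + -v ∈ frontier Ω := by
      rw [hΩ'] at hy
      have h2 := (Homeomorph.addRight (-v)).preimage_frontier Ω
      have h3 : y ∈ (Homeomorph.addRight (-v)) ⁻¹' frontier Ω := by
        rw [h2]
        exact hy
      exact h3
    refine hne 1 ⟨zero_le_one, le_rfl⟩ _ h1 ?_
    rw [one_smul, neg_add_cancel_right, h0]
    abel
  · have h1 := hA1 X Y (fun t y => Φ y + t • (Φ' (y + v) - Φ y)) Ω h.op h.bd ?_ hne
    · have e0 : (fun y => Φ y + (0 : ℝ) • (Φ' (y + v) - Φ y)) = Φ := by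
        funext y
        rw [zero_smul, add_zero]
      have e1 : (fun y => Φ y + (1 : ℝ) • (Φ' (y + v) - Φ y)) = fun y => Φ' (y + v) := by
        funext y
        rw [one_smul]
        abel
      rw [e0, e1] at h1
      rw [h1]
      conv_rhs => rw [hΩ]
      exact (adeg_tr Φ' Ω' v).symm
    · have c1 : ContinuousOn (fun p : ℝ × X => Φ p.2) (Icc (0 : ℝ) 1 ×ˢ closure Ω) :=
        h.cont.comp continuousOn_snd fun p hp => hp.2
      have c2 : ContinuousOn (fun p : ℝ × X => Φ' (p.2 + v)) (Icc (0 : ℝ) 1 ×ˢ closure Ω) :=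
        hc.comp continuousOn_snd fun p hp => hp.2
      exact c1.add (continuousOn_fst.smul (c2.sub c1))

end trans

section lin

variable {E : Type u} [NormedAddCommGroup E] [NormedSpace ℝ E] [FiniteDimensional ℝ E]

/-- two surjective operators with the same kernel -/
theorem exists_L {w w' : ℕ} (β : E →L[ℝ] (Fin w → ℝ)) (β' : E →L[ℝ] (Fin w' → ℝ))
    (hβ : Function.Surjective β) (hβ' : Function.Surjective β') (hk : ∀ v, β v = 0 ↔ β' v = 0) :
    ∃ L : (Fin w → ℝ) ≃L[ℝ] (Fin w' → ℝ), ∀ v, L (β v) = β' v := by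
  have hker : LinearMap.ker (β : E →ₗ[ℝ] (Fin w → ℝ)) = LinearMap.ker (β' : E →ₗ[ℝ] (Fin w' → ℝ)) := by
    ext v
    exact hk v
  let L₀ : (Fin w → ℝ) ≃ₗ[ℝ] (Fin w' → ℝ) :=
    ((β : E →ₗ[ℝ] (Fin w → ℝ)).quotKerEquivOfSurjective hβ).symm.trans
      ((Submodule.quotEquivOfEq _ _ hker).trans
        ((β' : E →ₗ[ℝ] (Fin w' → ℝ)).quotKerEquivOfSurjective hβ'))
  refine ⟨L₀.toContinuousLinearEquiv, fun v => ?_⟩
  show ((β' : E →ₗ[ℝ] (Fin w' → ℝ)).quotKerEquivOfSurjective hβ')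
    ((Submodule.quotEquivOfEq _ _ hker)
      (((β : E →ₗ[ℝ] (Fin w → ℝ)).quotKerEquivOfSurjective hβ).symm
        ((β : E →ₗ[ℝ] (Fin w → ℝ)) v))) = β' v
  rw [LinearMap.quotKerEquivOfSurjective_symm_apply, Submodule.quotEquivOfEq_mk,
    LinearMap.quotKerEquivOfSurjective_apply_mk]
  rfl

/-- the boundary operator may be replaced by one with the same kernel -/
theorem adeg_beta (hA4 : S_A4.{u}) {T s w w' : ℕ} (F : ℕ → E → E) (bm : E → (Fin s → ℝ))
    (β : E →L[ℝ] (Fin w → ℝ)) (β' : E →L[ℝ] (Fin w' → ℝ)) (G : E → E)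
    (hβ : Function.Surjective β) (hβ' : Function.Surjective β') (hk : ∀ v, β v = 0 ↔ β' v = 0)
    (Ω : Set (Fin (T + 1) → E)) (h : Adm (Bvp T F bm (fun y => β (G y))) Ω) :
    adeg (Bvp T F bm (fun y => β' (G y))) Ω = adeg (Bvp T F bm (fun y => β (G y))) Ω := by
  obtain ⟨L, hL⟩ := exists_L β β' hβ hβ' hk
  have h1 := hA4.1 (Fin (T + 1) → E) ((Fin T → E) × (Fin s → ℝ) × (Fin w → ℝ))
    ((Fin T → E) × (Fin s → ℝ) × (Fin w' → ℝ)) (Bvp T F bm (fun y => β (G y))) Ω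
    ((ContinuousLinearEquiv.refl ℝ (Fin T → E)).prodCongr
      ((ContinuousLinearEquiv.refl ℝ (Fin s → ℝ)).prodCongr L)) h
  rw [← h1]
  congr 1
  funext y
  show ((fun i : Fin T => y i.succ - F i (y i.castSucc)), bm (y 0), β' (G (y (Fin.last T)))) =
    ((fun i : Fin T => y i.succ - F i (y i.castSucc)), bm (y 0), L (β (G (y (Fin.last T)))))
  rw [hL]

/-- operators close to `β₀ (1 - P₀)` -/
theorem beta_near {w : ℕ} (β₀ : E →L[ℝ] (Fin w → ℝ)) (P₀ : E →L[ℝ] E) (hP₀ : P₀ * P₀ = P₀)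
    (h0 : ∀ v, β₀ v = 0 ↔ P₀ v = v) (hs : Function.Surjective β₀) :
    ∃ δ > 0, ∀ P : E →L[ℝ] E, P * P = P → ‖P - P₀‖ < δ →
      Function.Surjective (β₀.comp (1 - P)) ∧ ∀ v, (β₀.comp (1 - P)) v = 0 ↔ P v = v := by
  obtain ⟨σ, hσ⟩ := (β₀ : E →ₗ[ℝ] (Fin w → ℝ)).exists_rightInverse_of_surjective
    (LinearMap.range_eq_top.2 hs)
  let σ' : (Fin w → ℝ) →L[ℝ] E := LinearMap.toContinuousLinearMap σ
  have hσ' : ∀ x, β₀ (σ' x) = x := fun x => LinearMap.congr_fun hσ x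
  have hβP : ∀ v, β₀ (P₀ v) = 0 := by
    intro v
    rw [h0]
    exact ContinuousLinearMap.ext_iff.1 hP₀ v
  have hcont : Continuous fun P : E →L[ℝ] E => (β₀.comp (1 - P)).comp σ' := by
    fun_prop
  have h1 : (β₀.comp (1 - P₀)).comp σ' = 1 := by
    refine ContinuousLinearMap.ext fun x => ?_
    show β₀ (σ' x - P₀ (σ' x)) = x
    rw [map_sub, hβP, sub_zero, hσ']
  have h2 : ∀ᶠ P in 𝓝 P₀, IsUnit ((β₀.comp (1 - P)).comp σ' : (Fin w → ℝ) →L[ℝ] (Fin w → ℝ)) := by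
    refine hcont.continuousAt.eventually ?_
    show ∀ᶠ y in 𝓝 ((β₀.comp (1 - P₀)).comp σ'), IsUnit y
    rw [h1]
    exact Units.nhds (1 : ((Fin w → ℝ) →L[ℝ] (Fin w → ℝ))ˣ)
  obtain ⟨δ, hδ, h3⟩ := Metric.eventually_nhds_iff.1 h2
  refine ⟨min δ 1, lt_min hδ one_pos, fun P hP hlt => ⟨?_, fun v => ⟨fun hv => ?_, fun hv => ?_⟩⟩⟩
  · obtain ⟨U, hU⟩ := h3 (y := P) (by rw [dist_eq_norm]; exact hlt.trans_le (min_le_left _ _))
    intro x
    refine ⟨σ' ((U⁻¹ : ((Fin w → ℝ) →L[ℝ] (Fin w → ℝ))ˣ).val x), ?_⟩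
    have h4 : (U * U⁻¹).val x = x := by
      rw [mul_inv_cancel]
      rfl
    rw [Units.val_mul, hU] at h4
    exact h4
  · have e1 : P₀ (v - P v) = v - P v := (h0 _).1 hv
    have e2 : P (v - P v) = 0 := by
      rw [map_sub]
      have : P (P v) = P v := ContinuousLinearMap.ext_iff.1 hP v
      rw [this, sub_self]
    have e3 : v - P v = -((P - P₀) (v - P v)) := by
      show v - P v = -(P (v - P v) - P₀ (v - P v))
      rw [e1, e2, zero_sub, neg_neg]
    have e4 : ‖v - P v‖ ≤ ‖P - P₀‖ * ‖v - P v‖ := by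
      conv_lhs => rw [e3, norm_neg]
      exact (P - P₀).le_opNorm _
    have e5 : ‖P - P₀‖ < 1 := hlt.trans_le (min_le_right _ _)
    have e6 : ‖v - P v‖ = 0 := by
      by_contra hne
      have e7 : 0 < ‖v - P v‖ := lt_of_le_of_ne (norm_nonneg _) (Ne.symm hne)
      nlinarith
    exact (sub_eq_zero.1 (norm_eq_zero.1 e6)).symm
  · show β₀ (v - P v) = 0
    rw [hv, sub_self, map_zero]

theorem closure_box (N : ℕ) (D : ℕ → Set E) {y : Fin (N + 1) → E} (hy : y ∈ closure (Box N D))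
    (i : Fin (N + 1)) : y i ∈ closure (D i) := by
  have h1 : Box N D = Set.pi univ (fun i : Fin (N + 1) => D i) := by
    ext z
    simp [Box]
  rw [h1, closure_pi_set] at hy
  exact hy i (mem_univ i)

theorem box_open (N : ℕ) (D : ℕ → Set E) (h : ∀ i ≤ N, IsOpen (D i)) : IsOpen (Box N D) := by
  have h1 : Box N D = Set.pi univ (fun i : Fin (N + 1) => D i) := by
    ext z
    simp [Box]
  rw [h1]
  exact isOpen_set_pi finite_univ fun i _ => h i (Nat.lt_succ_iff.1 i.2)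

theorem box_bdd (N : ℕ) (D : ℕ → Set E) (h : ∀ i ≤ N, Bornology.IsBounded (D i)) :
    Bornology.IsBounded (Box N D) := by
  have h1 : Box N D = Set.pi univ (fun i : Fin (N + 1) => D i) := by
    ext z
    simp [Box]
  rw [h1]
  exact Bornology.IsBounded.pi fun i => h i (Nat.lt_succ_iff.1 i.2)

/-- the family of all boundary problems, on a fixed domain -/
noncomputable def Fam {T s w : ℕ} (F : ℕ → E → E) (p₀ : E) (β₀ : E →L[ℝ] (Fin w → ℝ))
    (θ : (Fin (T + 1) → E) × (E →L[ℝ] (Fin s → ℝ)) × (E →L[ℝ] E) × E) (y : Fin (T + 1) → E) :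
    (Fin T → E) × (Fin s → ℝ) × (Fin w → ℝ) :=
  (fun i => (y i.succ + θ.1 i.succ) - F i (y i.castSucc + θ.1 i.castSucc), θ.2.1 (y 0 - p₀),
    β₀ (θ.2.2.1 (F T (y (Fin.last T) + θ.1 (Fin.last T)) - θ.2.2.2)))

theorem fam_cont {T s w : ℕ} (F : ℕ → E → E) (p₀ : E) (β₀ : E →L[ℝ] (Fin w → ℝ)) (c : ℕ → E)
    (r : ℝ) (hF : ∀ i ≤ T, ContinuousOn (F i) (closedBall (c i) r)) :
    ContinuousOn (fun q : ((Fin (T + 1) → E) × (E →L[ℝ] (Fin s → ℝ)) × (E →L[ℝ] E) × E) ×
      (Fin (T + 1) → E) => Fam F p₀ β₀ q.1 q.2)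
      ({θ | ∀ i, ‖θ.1 i‖ ≤ r / 2} ×ˢ {y | ∀ i : Fin (T + 1), y i ∈ closedBall (c i) (r / 2)}) := by
  have hmap : ∀ i : Fin (T + 1), MapsTo (fun q : ((Fin (T + 1) → E) × (E →L[ℝ] (Fin s → ℝ)) ×
      (E →L[ℝ] E) × E) × (Fin (T + 1) → E) => q.2 i + q.1.1 i)
      ({θ | ∀ i, ‖θ.1 i‖ ≤ r / 2} ×ˢ {y | ∀ i : Fin (T + 1), y i ∈ closedBall (c i) (r / 2)})
      (closedBall (c i) r) := by
    rintro i ⟨θ, y⟩ ⟨h1, h2⟩
    have h3 := h1 i
    have h4 := h2 i
    rw [mem_closedBall, dist_eq_norm] at h4 ⊢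
    have h5 : y i + θ.1 i - c i = (y i - c i) + θ.1 i := by abel
    show ‖y i + θ.1 i - c i‖ ≤ r
    rw [h5]
    exact (norm_add_le _ _).trans (by linarith)
  have hc : ∀ i : Fin (T + 1), Continuous (fun q : ((Fin (T + 1) → E) × (E →L[ℝ] (Fin s → ℝ)) ×
      (E →L[ℝ] E) × E) × (Fin (T + 1) → E) => q.2 i + q.1.1 i) := by
    intro i
    fun_prop
  have hFc : ∀ i : Fin (T + 1), ContinuousOn (fun q : ((Fin (T + 1) → E) ×
      (E →L[ℝ] (Fin s → ℝ)) × (E →L[ℝ] E) × E) × (Fin (T + 1) → E) => F i (q.2 i + q.1.1 i))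
      ({θ | ∀ i, ‖θ.1 i‖ ≤ r / 2} ×ˢ {y | ∀ i : Fin (T + 1), y i ∈ closedBall (c i) (r / 2)}) :=
    fun i => (hF i (Nat.lt_succ_iff.1 i.2)).comp (hc i).continuousOn (hmap i)
  unfold Fam
  refine ContinuousOn.prodMk ?_ (ContinuousOn.prodMk ?_ ?_)
  · refine continuousOn_pi.2 fun i => ?_
    have h1 := hFc i.castSucc
    exact (hc i.succ).continuousOn.sub h1
  · have : Continuous (fun q : ((Fin (T + 1) → E) × (E →L[ℝ] (Fin s → ℝ)) ×
      (E →L[ℝ] E) × E) × (Fin (T + 1) → E) => q.1.2.1 (q.2 0 - p₀)) := by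
      fun_prop
    exact this.continuousOn
  · have h1 := hFc (Fin.last T)
    have h2 : ContinuousOn (fun q : ((Fin (T + 1) → E) × (E →L[ℝ] (Fin s → ℝ)) ×
      (E →L[ℝ] E) × E) × (Fin (T + 1) → E) => q.1.2.2.1 (F T (q.2 (Fin.last T) +
        q.1.1 (Fin.last T)) - q.1.2.2.2))
      ({θ | ∀ i, ‖θ.1 i‖ ≤ r / 2} ×ˢ {y | ∀ i : Fin (T + 1), y i ∈ closedBall (c i) (r / 2)}) := by
      refine ContinuousOn.clm_apply ?_ (ContinuousOn.sub h1 ?_)
      · exact (by fun_prop : Continuous (fun q : ((Fin (T + 1) → E) × (E →L[ℝ] (Fin s → ℝ)) ×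
          (E →L[ℝ] E) × E) × (Fin (T + 1) → E) => q.1.2.2.1)).continuousOn
      · exact (by fun_prop : Continuous (fun q : ((Fin (T + 1) → E) × (E →L[ℝ] (Fin s → ℝ)) ×
          (E →L[ℝ] E) × E) × (Fin (T + 1) → E) => q.1.2.2.2)).continuousOn
    exact β₀.continuous.comp_continuousOn h2

end lin

section man

variable {E : Type u} [NormedAddCommGroup E] [NormedSpace ℝ E]
  [FiniteDimensional ℝ E] {M : Type v} [MetricSpace M] [CompactSpace M] [ChartedSpace E M]
  [IsManifold 𝓘(ℝ, E) 1 M] {F : Type w} [NormedAddCommGroup F] [NormedSpace ℝ F] {e : M → F}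
  {f g : M ≃ₜ M} {k : M → M} {Es Eu : M → Submodule ℝ E} {π π' : M → E →L[ℝ] E} {t : Finset M}
  {ρ : M → ℝ} {R ρ₀ κf κ0 K l Cs r ε1 ε2 η2 : ℝ}

theorem k_iter (h : Ctx E e f g k Es Eu π π' t ρ R ρ₀ κf κ0 K l Cs r ε1 ε2 η2) (a : M) (i : ℕ) :
    g (k (f^[i] a)) = k (f^[i + 1] a) := by
  rw [Function.iterate_succ_apply', h.kf]

/-- an orbit segment in the tube is the orbit of a point which stays close to that of `a` -/
theorem orbit_close (h : Ctx E e f g k Es Eu π π' t ρ R ρ₀ κf κ0 K l Cs r ε1 ε2 η2) {a : M}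
    {j : ℕ → M} (T : ℕ) (hj : ∀ i ≤ T, Gd t ρ (j i) (k (f^[i] a))) {y : ℕ → E}
    (hy : ∀ i ≤ T, y i ∈ closedBall (cx E f k a j i) r)
    (hs : ∀ i < T, y (i + 1) = Fx E f j i (y i)) : ∀ i ≤ T,
    f^[i] ((ps E (j 0)).symm (y 0)) = (ps E (j i)).symm (y i) ∧
      dist (f^[i] ((ps E (j 0)).symm (y 0))) (f^[i] a) ≤ κ0 := by
  have h1 : ∀ i ≤ T, f^[i] ((ps E (j 0)).symm (y 0)) = (ps E (j i)).symm (y i) := by
    intro i
    induction i with
    | zero => intro _; rfl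
    | succ i ih =>
      intro hi
      have h2 := ih (by omega)
      have h3 := h.step (k (f^[i] a)) (j i) (j (i + 1)) (hj i (by omega))
        (by rw [k_iter h]; exact hj (i + 1) hi) (y i) (hy i (by omega))
      rw [Function.iterate_succ_apply', h2, hs i (by omega)]
      exact ((ps E (j (i + 1))).left_inv h3.2.1).symm
  intro i hi
  refine ⟨h1 i hi, ?_⟩
  have h2 := h.tube _ _ (hj i hi) (y i) (hy i hi)
  have h3 := h.kr (f^[i] a) (j i) (hj i hi)
  have h4 : f^[i] a ∈ (ps E (j i)).source := by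
    have h5 := h.kgd _ _ (hj i hi)
    exact h.fc.ch.src _ h5.1 _ h5.2
  have h5 := h.tube _ _ (hj i hi) (ps E (j i) (f^[i] a)) (by
    rw [mem_closedBall]
    have := h.r_pos
    linarith)
  rw [(ps E (j i)).left_inv h4] at h5
  rw [h1 i hi]
  calc dist ((ps E (j i)).symm (y i)) (f^[i] a) ≤
      dist ((ps E (j i)).symm (y i)) (k (f^[i] a)) + dist (f^[i] a) (k (f^[i] a)) :=
        dist_triangle_right _ _ _
    _ ≤ κ0 := by linarith

theorem adm_left (hx : S_CHX.{u, v, w})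
    (h : Ctx E e f g k Es Eu π π' t ρ R ρ₀ κf κ0 K l Cs r ε1 ε2 η2) {η1 : ℝ} (hη : 0 < η1)
    (hη2 : η1 ≤ η2) {a : M} {T : ℕ} {j : ℕ → M} (hj : ∀ i, Gd t ρ (j i) (k (f^[i] a))) {s w : ℕ}
    {B₀ : E →L[ℝ] (Fin s → ℝ)} {βu₀ : E →L[ℝ] (Fin w → ℝ)}
    (hβ : ∀ v, βu₀ v = 0 ↔ Pj π' (j (T + 1)) (cx E f k a j (T + 1)) v = v)
    (hexit : ∀ p ∈ (ps E (j 0)).source, dist (ps E (j 0) p) (ps E (j 0) a) = η1 →
      B₀ (ps E (j 0) p - ps E (j 0) a) = 0 → ∃ n ≤ T, κ0 < dist (f^[n] p) (f^[n] a)) :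
    Adm (Bvp T (Fx E f j) (fun y => B₀ (y - ps E (j 0) a))
      (fun y => βu₀ (Fx E f j T y - cx E f k a j (T + 1)))) (Box T (Dl E f k a j r η1)) ∧
    (∀ i ≤ T, ContinuousOn (Fx E f j i) (closedBall (cx E f k a j i) r)) ∧
    ∀ y ∈ closure (Box T (Dl E f k a j r η1)), ∀ i : Fin (T + 1),
      y i ∈ closedBall (cx E f k a j i) (r / 2) := by
  obtain ⟨hgc, hch'⟩ := hx E M F e f g k Es Eu π π' t ρ R ρ₀ κf κ0 K l Cs r ε1 ε2 η2 h a j hj
  have hch := hch' η1 hη hη2 (T + 1) (Nat.succ_pos T)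
  have hr := h.r_pos
  have hcont : ∀ i ≤ T, ContinuousOn (Fx E f j i) (closedBall (cx E f k a j i) r) :=
    fun i hi => hch.cont i (by omega)
  have hcb : ∀ y ∈ closure (Box T (Dl E f k a j r η1)), ∀ i : Fin (T + 1),
      y i ∈ closedBall (cx E f k a j i) (r / 2) ∧
        (i = 0 → y i ∈ closedBall (ps E (j 0) a) η1) := by
    intro y hy i
    have h1 := closure_box T _ hy i
    unfold Dl at h1
    by_cases hi : (i : ℕ) = 0
    · rw [if_pos hi, closure_ball _ hη.ne'] at h1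
      refine ⟨?_, fun _ => h1⟩
      have h2 := (h.kb a (j 0) (hj 0) (y i) (closedBall_subset_closedBall hη2 h1)).1
      have h3 : cx E f k a j i = ps E (j 0) (k a) := by
        rw [hi]
        rfl
      rw [h3, mem_closedBall]
      exact h2.le
    · rw [if_neg hi] at h1
      rw [closure_ball _ (by linarith : r / 2 ≠ 0)] at h1
      refine ⟨h1, fun h2 => ?_⟩
      exact absurd (by rw [h2]; rfl) hi
  have hop : IsOpen (Box T (Dl E f k a j r η1)) := by
    refine box_open _ _ fun i _ => ?_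
    unfold Dl
    split_ifs <;> exact isOpen_ball
  refine ⟨⟨hop, ?_, ?_, ?_⟩, hcont, fun y hy i => (hcb y hy i).1⟩
  · refine box_bdd _ _ fun i _ => ?_
    unfold Dl
    split_ifs <;> exact isBounded_ball
  · have hmap : ∀ i : Fin (T + 1), MapsTo (fun y : Fin (T + 1) → E => y i)
        (closure (Box T (Dl E f k a j r η1))) (closedBall (cx E f k a j i) r) := by
      intro i y hy
      exact closedBall_subset_closedBall (by linarith) (hcb y hy i).1
    have hFc : ∀ i : Fin (T + 1), ContinuousOn (fun y : Fin (T + 1) → E => Fx E f j i (y i))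
        (closure (Box T (Dl E f k a j r η1))) :=
      fun i => (hcont i (Nat.lt_succ_iff.1 i.2)).comp (continuous_apply i).continuousOn (hmap i)
    unfold Bvp
    refine ContinuousOn.prodMk ?_ (ContinuousOn.prodMk ?_ ?_)
    · refine continuousOn_pi.2 fun i => ?_
      exact (continuous_apply i.succ).continuousOn.sub (hFc i.castSucc)
    · exact (B₀.continuous.comp ((continuous_apply 0).sub continuous_const)).continuousOn
    · exact βu₀.continuous.comp_continuousOn ((hFc (Fin.last T)).sub continuousOn_const)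
  · intro y hy h0
    have hyc : y ∈ closure (Box T (Dl E f k a j r η1)) := frontier_subset_closure hy
    have hnot : y ∉ Box T (Dl E f k a j r η1) := by
      rw [hop.frontier_eq] at hy
      exact hy.2
    apply hnot
    have e1 : ∀ i : Fin T, y i.succ = Fx E f j i (y i.castSucc) := fun i =>
      sub_eq_zero.1 (congrFun (congrArg Prod.fst h0) i)
    have e2 : B₀ (y 0 - ps E (j 0) a) = 0 := congrArg (fun q => q.2.1) h0
    have e3 : βu₀ (Fx E f j T (y (Fin.last T)) - cx E f k a j (T + 1)) = 0 :=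
      congrArg (fun q => q.2.2) h0
    obtain ⟨z, hz⟩ : ∃ z : ℕ → E, z = fun i => if hi : i < T + 1 then y ⟨i, hi⟩ else
      Fx E f j T (y (Fin.last T)) := ⟨_, rfl⟩
    have hz1 : ∀ i : Fin (T + 1), z i = y i := by
      intro i
      rw [hz]
      exact dif_pos i.2
    have hz2 : z (T + 1) = Fx E f j T (y (Fin.last T)) := by
      rw [hz]
      exact dif_neg (lt_irrefl _)
    have hz3 : ∀ i < T + 1, z (i + 1) = Fx E f j i (z i) := by
      intro i hi
      have h4 : z i = y ⟨i, hi⟩ := hz1 ⟨i, hi⟩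
      rcases Nat.lt_succ_iff_lt_or_eq.1 hi with h5 | h5
      · have h6 : z (i + 1) = y ⟨i + 1, by omega⟩ := hz1 ⟨i + 1, by omega⟩
        rw [h4, h6]
        exact e1 ⟨i, h5⟩
      · subst h5
        rw [hz2, h4]
        rfl
    have hzb : ∀ i < T + 1, z i ∈ closedBall (cx E f k a j i) (r / 2) := by
      intro i hi
      rw [hz1 ⟨i, hi⟩]
      exact (hcb y hyc ⟨i, hi⟩).1
    have hz10 : z 0 = y 0 := hz1 0
    have hz0 : z 0 ∈ closedBall (ps E (j 0) a) η1 := by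
      rw [hz10]
      exact (hcb y hyc 0).2 rfl
    have hg := h.g2 E _ _ hgc (T + 1) (cx E f k a j) z (fun i => z (i + 1)) (fun _ => 0) ε1 ε2
      h.e1 h.e2 (fun i _ => ⟨le_rfl, zero_le_one⟩) (by
        intro i hi
        show ‖z (i + 1) - _ - _‖ ≤ ε1
        rw [hz3 i hi]
        exact hch.lin i hi (z i) (closedBall_subset_closedBall (by linarith) (hzb i hi)))
      (by
        intro i hi
        rw [sub_zero, one_smul])
      (by
        intro i hi
        rw [sub_zero, one_smul])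
      (hch.d0 (z 0) (by
        have h5 : Dx E f k a j r η1 (T + 1) 0 = ball (ps E (j 0) a) η1 := if_pos rfl
        rw [h5, closure_ball _ hη.ne']
        exact hz0))
      (by
        rw [hz2]
        have h5 := (hβ _).1 e3
        rw [h5, sub_self, norm_zero]
        exact h.e2)
    intro i
    have hi := Nat.lt_succ_iff.1 i.2
    unfold Dl
    by_cases hi0 : (i : ℕ) = 0
    · rw [if_pos hi0]
      have hi0' : i = 0 := Fin.ext hi0
      rw [hi0', ← hz1 0]
      rw [mem_ball]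
      refine lt_of_le_of_ne (mem_closedBall.1 hz0) fun heq => ?_
      have h6 := orbit_close h T (fun i _ => hj i) (y := z)
        (fun i hi => closedBall_subset_closedBall (by linarith) (hzb i (by omega)))
        (fun i hi => hz3 i (by omega))
      have h7 := h.step (k a) (j 0) (j 1) (hj 0) (by
        have := k_iter h a 0
        rw [Function.iterate_zero_apply] at this
        rw [this]
        exact hj 1) (z 0) (closedBall_subset_closedBall (by linarith) (hzb 0 (by omega)))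
      have h8 : ps E (j 0) ((ps E (j 0)).symm (z 0)) = z 0 := (ps E (j 0)).right_inv h7.1
      obtain ⟨n, hn, hlt⟩ := hexit ((ps E (j 0)).symm (z 0)) ((ps E (j 0)).map_target h7.1)
        (by rw [h8]; exact heq) (by rw [h8, hz10]; exact e2)
      have h9 := (h6 n hn).2
      linarith
    · rw [if_neg hi0, mem_ball, dist_eq_norm, ← hz1 i]
      exact lt_of_le_of_lt (hg i (by omega)) h.small

theorem LD_congr {s w : ℕ} {x : M} {j j' : ℕ → M} {η1 : ℝ} {T : ℕ}
    (hjj : ∀ i ≤ T + 1, j' i = j i) (B : E →L[ℝ] (Fin s → ℝ)) (βu : E →L[ℝ] (Fin w → ℝ)) :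
    LD E f k x j' r η1 T B βu = LD E f k x j r η1 T B βu := by
  have hF : ∀ i ≤ T, Fx E f j' i = Fx E f j i := by
    intro i hi
    unfold Fx
    rw [hjj i (by omega), hjj (i + 1) (by omega)]
  have hc : ∀ i ≤ T + 1, cx E f k x j' i = cx E f k x j i := by
    intro i hi
    unfold cx
    rw [hjj i hi]
  unfold LD
  congr 1
  · funext y
    unfold Bvp
    refine Prod.ext ?_ (Prod.ext ?_ ?_)
    · funext i
      show y i.succ - Fx E f j' i (y i.castSucc) = y i.succ - Fx E f j i (y i.castSucc)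
      rw [hF i (by omega)]
    · show B (y 0 - ps E (j' 0) x) = B (y 0 - ps E (j 0) x)
      rw [hjj 0 (by omega)]
    · show βu (Fx E f j' T (y (Fin.last T)) - cx E f k x j' (T + 1)) =
        βu (Fx E f j T (y (Fin.last T)) - cx E f k x j (T + 1))
      rw [hF T le_rfl, hc (T + 1) le_rfl]
  · ext y
    have : ∀ i : Fin (T + 1), Dl E f k x j' r η1 i = Dl E f k x j r η1 i := by
      intro i
      unfold Dl
      rw [hjj 0 (by omega), hc i (by omega)]
    constructor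
    · intro h i
      rw [← this i]
      exact h i
    · intro h i
      rw [this i]
      exact h i

theorem cx_cont (h : Ctx E e f g k Es Eu π π' t ρ R ρ₀ κf κ0 K l Cs r ε1 ε2 η2) {a : M}
    {j : ℕ → M} {i : ℕ} (hj : Gd t ρ (j i) (k (f^[i] a))) :
    ContinuousAt (fun x => cx E f k x j i) a := by
  have h1 : k (f^[i] a) ∈ (ps E (j i)).source := by
    refine h.fc.ch.src _ hj.1 _ ?_
    have h2 := h.fc.ch.ρ₀_le _ hj.1
    have h3 := h.fc.ch.ρ₀_pos
    have := hj.2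
    linarith
  have h2 : ContinuousAt (fun x => k (f^[i] x)) a :=
    (h.fc.kk.cont.comp (f.continuous.iterate i)).continuousAt
  exact ContinuousAt.comp (f := fun x => k (f^[i] x)) (g := ps E (j i))
    (continuousAt_extChartAt' h1) h2

end man

end Pool.Agent.H963.CJ.NCMPL

namespace Pool.Agent.H963.CJ

open Pool.Agent.H721R2 Pool.Agent.H789R2.AN Pool.Agent.TH289 Pool.Agent.H244.Dyn
  Pool.Agent.H244.Loc

universe u v w

open NCMPL in
theorem t_CMPL (h1 : S_A1.{u}) (h2 : S_A2.{u}) (h4 : S_A4.{u}) (hx : S_CHX.{u, v, w}) :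
    S_CMPL.{u, v, w} := by
  intro E _ _ _ M _ _ _ _ F _ _ e f g k Es Eu π π' t ρ R ρ₀ κf κ0 K l Cs r ε1 ε2 η2 h η1 hη hη2
    a T j hj s w B₀ βu₀ hβ hβs hexit
  obtain ⟨hadm, hFc, hcb⟩ := adm_left hx h hη hη2 hj hβ hexit
  obtain ⟨m, hm, hstab⟩ := stab h1 hadm
  have hr := h.r_pos
  have hR := h.fc.ch.R_pos
  have hprop := FiniteDimensional.proper ℝ (Fin (T + 1) → E)
  obtain ⟨P₀, hP₀d⟩ : ∃ P₀ : E →L[ℝ] E, P₀ = Pj π' (j (T + 1)) (cx E f k a j (T + 1)) := ⟨_, rfl⟩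
  have hP₀ : P₀ * P₀ = P₀ := by
    rw [hP₀d]
    exact (hx E M F e f g k Es Eu π π' t ρ R ρ₀ κf κ0 K l Cs r ε1 ε2 η2 h a j hj).1.proj (T + 1)
  rw [← hP₀d] at hβ
  obtain ⟨δ1, hδ1, hnear⟩ := beta_near βu₀ P₀ hP₀ hβ hβs
  have hβP : ∀ v, βu₀ (P₀ v) = 0 := by
    intro v
    rw [hβ]
    exact ContinuousLinearMap.ext_iff.1 hP₀ v
  -- the parameters
  obtain ⟨th, hth⟩ : ∃ th : M × (E →L[ℝ] (Fin s → ℝ)) → (Fin (T + 1) → E) ×
      (E →L[ℝ] (Fin s → ℝ)) × (E →L[ℝ] E) × E, th = fun q : M × (E →L[ℝ] (Fin s → ℝ)) =>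
    (fun i : Fin (T + 1) => if (i : ℕ) = 0 then ps E (j 0) q.1 - ps E (j 0) a else
      cx E f k q.1 j i - cx E f k a j i, q.2,
      1 - Pj π' (j (T + 1)) (cx E f k q.1 j (T + 1)), cx E f k q.1 j (T + 1)) := ⟨_, rfl⟩
  have hcx : ∀ i, ContinuousAt (fun x => cx E f k x j i) a := fun i => cx_cont h (hj i)
  have hfst : ContinuousAt (fun q : M × (E →L[ℝ] (Fin s → ℝ)) => q.1) (a, B₀) := continuousAt_fst
  have hcx' : ∀ i, ContinuousAt (fun q : M × (E →L[ℝ] (Fin s → ℝ)) => cx E f k q.1 j i) (a, B₀) :=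
    fun i => ContinuousAt.comp (f := fun q : M × (E →L[ℝ] (Fin s → ℝ)) => q.1)
      (g := fun x => cx E f k x j i) (hcx i) hfst
  have hpsa : a ∈ (ps E (j 0)).source := by
    have h5 := h.kgd a (j 0) (hj 0)
    exact h.fc.ch.src _ h5.1 _ h5.2
  have hps : ContinuousAt (fun x => ps E (j 0) x) a := continuousAt_extChartAt' hpsa
  have hps' : ContinuousAt (fun q : M × (E →L[ℝ] (Fin s → ℝ)) => ps E (j 0) q.1) (a, B₀) :=
    ContinuousAt.comp (f := fun q : M × (E →L[ℝ] (Fin s → ℝ)) => q.1)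
      (g := fun x => ps E (j 0) x) hps hfst
  have hPc : ContinuousAt (fun x => Pj π' (j (T + 1)) (cx E f k x j (T + 1))) a := by
    have h5 : dist (k (f^[T + 1] a)) (j (T + 1)) ≤ 2 * ρ (j (T + 1)) := by
      have h6 := h.fc.ch.ρ₀_le _ (hj (T + 1)).1
      have h7 := h.fc.ch.ρ₀_pos
      have := (hj (T + 1)).2
      linarith
    have h6 : ContinuousAt (Pj π' (j (T + 1))) (cx E f k a j (T + 1)) :=
      (h.pc _ (hj (T + 1)).1 _ h5).continuousAt (closedBall_mem_nhds _ hR)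
    exact ContinuousAt.comp (f := fun x => cx E f k x j (T + 1)) (g := Pj π' (j (T + 1))) h6
      (hcx (T + 1))
  have hPc' : ContinuousAt (fun q : M × (E →L[ℝ] (Fin s → ℝ)) =>
      Pj π' (j (T + 1)) (cx E f k q.1 j (T + 1))) (a, B₀) :=
    ContinuousAt.comp (f := fun q : M × (E →L[ℝ] (Fin s → ℝ)) => q.1)
      (g := fun x => Pj π' (j (T + 1)) (cx E f k x j (T + 1))) hPc hfst
  have hthc : ContinuousAt th (a, B₀) := by
    rw [hth]
    refine ContinuousAt.prodMk ?_ (ContinuousAt.prodMk continuousAt_snd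
      (ContinuousAt.prodMk ?_ (hcx' (T + 1))))
    · refine continuousAt_pi.2 fun i => ?_
      by_cases hi : (i : ℕ) = 0
      · simp only [if_pos hi]
        exact hps'.sub continuousAt_const
      · simp only [if_neg hi]
        exact (hcx' i).sub continuousAt_const
    · exact continuousAt_const.sub hPc'
  -- the closeness
  have hcompact : IsCompact (closure (Box T (Dl E f k a j r η1))) :=
    Metric.isCompact_of_isClosed_isBounded isClosed_closure hadm.bd.closure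
  have hfam := fam_cont (s := s) (Fx E f j) (ps E (j 0) a) βu₀ (cx E f k a j) r hFc
  have hfam' : ContinuousOn (Function.uncurry (fun θ y => Fam (s := s) (T := T) (Fx E f j)
      (ps E (j 0) a) βu₀ θ y)) ({θ | ∀ i, ‖θ.1 i‖ ≤ r / 2} ×ˢ
        closure (Box T (Dl E f k a j r η1))) :=
    hfam.mono fun q hq => ⟨hq.1, hcb q.2 hq.2⟩
  have hth0 : ∀ i, (th (a, B₀)).1 i = 0 := by
    intro i
    rw [hth]
    show (if (i : ℕ) = 0 then ps E (j 0) a - ps E (j 0) a else
      cx E f k a j i - cx E f k a j i) = 0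
    split_ifs <;> exact sub_self _
  have hq0 : th (a, B₀) ∈ {θ : (Fin (T + 1) → E) × (E →L[ℝ] (Fin s → ℝ)) × (E →L[ℝ] E) × E |
      ∀ i, ‖θ.1 i‖ ≤ r / 2} := by
    intro i
    rw [hth0, norm_zero]
    linarith
  obtain ⟨V, hV, hV'⟩ := hcompact.mem_uniformity_of_prod hfam' hq0 (Metric.dist_mem_uniformity hm)
  have hS : {θ : (Fin (T + 1) → E) × (E →L[ℝ] (Fin s → ℝ)) × (E →L[ℝ] E) × E |
      ∀ i, ‖θ.1 i‖ ≤ r / 2} ∈ 𝓝 (th (a, B₀)) := by
    have h5 : ∀ i : Fin (T + 1), ∀ᶠ θ in 𝓝 (th (a, B₀)), ‖θ.1 i‖ < r / 2 := by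
      intro i
      have h6 : Continuous fun θ : (Fin (T + 1) → E) × (E →L[ℝ] (Fin s → ℝ)) × (E →L[ℝ] E) × E =>
          ‖θ.1 i‖ := by fun_prop
      refine h6.continuousAt.eventually_lt continuousAt_const ?_
      rw [hth0, norm_zero]
      linarith
    filter_upwards [eventually_all.2 h5] with θ hθ i
    exact (hθ i).le
  rw [nhdsWithin_eq_nhds.2 hS] at hV
  have hev : ∀ᶠ q in 𝓝 (a, B₀), th q ∈ V ∧ (∀ i, ‖(th q).1 i‖ ≤ r / 2) ∧
      ‖Pj π' (j (T + 1)) (cx E f k q.1 j (T + 1)) - P₀‖ < δ1 := by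
    refine (hthc.eventually hV).and ((hthc.eventually hS).and ?_)
    have h5 : ContinuousAt (fun q : M × (E →L[ℝ] (Fin s → ℝ)) =>
      ‖Pj π' (j (T + 1)) (cx E f k q.1 j (T + 1)) - P₀‖) (a, B₀) :=
      (hPc'.sub continuousAt_const).norm
    refine h5.eventually_lt continuousAt_const ?_
    show ‖Pj π' (j (T + 1)) (cx E f k a j (T + 1)) - P₀‖ < δ1
    rw [← hP₀d, sub_self, norm_zero]
    exact hδ1
  obtain ⟨δ, hδ, hball⟩ := Metric.eventually_nhds_iff.1 hev
  refine ⟨δ, hδ, fun x hxa j' hjj hj' B hB w' βu hβu hβus => ?_⟩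
  rw [LD_congr hjj]
  obtain ⟨hV1, hV2, hV3⟩ := hball (y := (x, B)) (by
    rw [Prod.dist_eq]
    refine max_lt hxa ?_
    rw [dist_eq_norm]
    exact hB)
  obtain ⟨P, hPd⟩ : ∃ P : E →L[ℝ] E, P = Pj π' (j (T + 1)) (cx E f k x j (T + 1)) := ⟨_, rfl⟩
  have hcx1 : cx E f k x j' (T + 1) = cx E f k x j (T + 1) := by
    unfold cx
    rw [hjj (T + 1) le_rfl]
  have hP : P * P = P := by
    have h5 := (hx E M F e f g k Es Eu π π' t ρ R ρ₀ κf κ0 K l Cs r ε1 ε2 η2 h x j' hj').1.proj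
      (T + 1)
    rw [hcx1, hjj (T + 1) le_rfl] at h5
    rw [hPd]
    exact h5
  rw [hcx1, hjj (T + 1) le_rfl, ← hPd] at hβu
  rw [← hPd] at hV3
  obtain ⟨hsur, hker⟩ := hnear P hP hV3
  obtain ⟨v, hv⟩ : ∃ v : Fin (T + 1) → E, v = (th (x, B)).1 := ⟨_, rfl⟩
  have hvi : ∀ i : Fin (T + 1), v i = if (i : ℕ) = 0 then ps E (j 0) x - ps E (j 0) a else
      cx E f k x j i - cx E f k a j i := by
    intro i
    rw [hv, hth]
  have hfamx : ∀ y : Fin (T + 1) → E, Bvp T (Fx E f j) (fun y => B (y - ps E (j 0) x))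
      (fun y => (βu₀.comp (1 - P)) (Fx E f j T y - cx E f k x j (T + 1))) (y + v) =
      Fam (Fx E f j) (ps E (j 0) a) βu₀ (th (x, B)) y := by
    intro y
    unfold Bvp Fam
    refine Prod.ext ?_ (Prod.ext ?_ ?_)
    · rw [← hv]
      rfl
    · show B ((y + v) 0 - ps E (j 0) x) = (th (x, B)).2.1 (y 0 - ps E (j 0) a)
      have h5 : (th (x, B)).2.1 = B := by rw [hth]
      have h6 : v 0 = ps E (j 0) x - ps E (j 0) a := by
        rw [hvi 0]
        exact if_pos rfl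
      rw [h5, Pi.add_apply, h6]
      congr 1
      abel
    · show βu₀ ((1 - P) (Fx E f j T ((y + v) (Fin.last T)) - cx E f k x j (T + 1))) =
        βu₀ ((th (x, B)).2.2.1 (Fx E f j T (y (Fin.last T) + (th (x, B)).1 (Fin.last T)) -
          (th (x, B)).2.2.2))
      have h5 : (th (x, B)).2.2.1 = 1 - P := by rw [hth, hPd]
      have h6 : (th (x, B)).2.2.2 = cx E f k x j (T + 1) := by rw [hth]
      rw [h5, h6, ← hv]
      rfl
  have hfam0 : ∀ y : Fin (T + 1) → E, Fam (Fx E f j) (ps E (j 0) a) βu₀ (th (a, B₀)) y =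
      Bvp T (Fx E f j) (fun y => B₀ (y - ps E (j 0) a))
        (fun y => βu₀ (Fx E f j T y - cx E f k a j (T + 1))) y := by
    intro y
    unfold Bvp Fam
    refine Prod.ext ?_ (Prod.ext ?_ ?_)
    · funext i
      show y i.succ + (th (a, B₀)).1 i.succ - Fx E f j i (y i.castSucc +
        (th (a, B₀)).1 i.castSucc) = y i.succ - Fx E f j i (y i.castSucc)
      rw [hth0, hth0, add_zero, add_zero]
    · show (th (a, B₀)).2.1 (y 0 - ps E (j 0) a) = B₀ (y 0 - ps E (j 0) a)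
      have h5 : (th (a, B₀)).2.1 = B₀ := by rw [hth]
      rw [h5]
    · show βu₀ ((th (a, B₀)).2.2.1 (Fx E f j T (y (Fin.last T) + (th (a, B₀)).1 (Fin.last T)) -
          (th (a, B₀)).2.2.2)) = βu₀ (Fx E f j T (y (Fin.last T)) - cx E f k a j (T + 1))
      have h5 : (th (a, B₀)).2.2.1 = 1 - P₀ := by rw [hth, hP₀d]
      have h6 : (th (a, B₀)).2.2.2 = cx E f k a j (T + 1) := by rw [hth]
      rw [h5, h6, hth0, add_zero]
      show βu₀ ((Fx E f j T (y (Fin.last T)) - cx E f k a j (T + 1)) -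
        P₀ (Fx E f j T (y (Fin.last T)) - cx E f k a j (T + 1))) = _
      rw [map_sub, hβP, sub_zero]
  have hst := hstab (Bvp T (Fx E f j) (fun y => B (y - ps E (j 0) x))
      (fun y => (βu₀.comp (1 - P)) (Fx E f j T y - cx E f k x j (T + 1))))
      (Box T (Dl E f k x j r η1)) v ?_ ?_ ?_
  · have h5 := adeg_beta h4 (Fx E f j) (fun y => B (y - ps E (j 0) x)) (βu₀.comp (1 - P)) βu
      (fun y => Fx E f j T y - cx E f k x j (T + 1)) hsur hβus
      (fun v => (hker v).trans (hβu v).symm) (Box T (Dl E f k x j r η1)) hst.1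
    exact h5.trans hst.2
  · ext y
    have h5 : ∀ i : Fin (T + 1), (y i + v i ∈ Dl E f k x j r η1 i ↔
        y i ∈ Dl E f k a j r η1 i) := by
      intro i
      rw [hvi i]
      unfold Dl
      by_cases hi : (i : ℕ) = 0
      · rw [if_pos hi, if_pos hi, if_pos hi, mem_ball, mem_ball, dist_eq_norm, dist_eq_norm]
        have h6 : y i + (ps E (j 0) x - ps E (j 0) a) - ps E (j 0) x = y i - ps E (j 0) a := by
          abel
        rw [h6]
      · rw [if_neg hi, if_neg hi, if_neg hi, mem_ball, mem_ball, dist_eq_norm, dist_eq_norm]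
        have h6 : y i + (cx E f k x j i - cx E f k a j i) - cx E f k x j i =
            y i - cx E f k a j i := by
          abel
        rw [h6]
    constructor
    · intro hy i
      exact (h5 i).2 (hy i)
    · intro hy i
      exact (h5 i).1 (hy i)
  · have h5 : ContinuousOn (fun y : Fin (T + 1) → E => (th (x, B), y))
        (closure (Box T (Dl E f k a j r η1))) := by fun_prop
    have h6 := hfam'.comp h5 (fun y hy => ⟨hV2, hy⟩)
    refine h6.congr fun y _ => ?_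
    exact hfamx y
  · intro y hy
    have h5 := hV' _ hV1 y hy
    rw [← hfam0, hfamx, ← dist_eq_norm]
    exact h5

end Pool.Agent.H963.CJ
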