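import Pool.Agent.H963.CJ.DegDef

/-!
# The degree is locally constant (boxes of balls with moving centres)
-/

set_option autoImplicit false
set_option linter.unusedSectionVars false

open Set Filter Topology Metric

namespace Pool.Agent.H963.CJ

universe u v w

namespace LC

variable {ι : Type} [Fintype ι] {E : Type u} [NormedAddCommGroup E] [NormedSpace ℝ E]

/-- open box -/
def OB (c : ι → E) (R : ι → ℝ) : Set (ι → E) := {y | ∀ i, y i ∈ ball (c i) (R i)}

/-- closed box -/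
def CB (c : ι → E) (R : ι → ℝ) : Set (ι → E) := {y | ∀ i, y i ∈ closedBall (c i) (R i)}

theorem OB_eq (c : ι → E) (R : ι → ℝ) : OB c R = Set.pi univ (fun i => ball (c i) (R i)) := by
  ext y; simp [OB]

theorem CB_eq (c : ι → E) (R : ι → ℝ) : CB c R = Set.pi univ (fun i => closedBall (c i) (R i)) := by
  ext y; simp [CB]

theorem OB_open (c : ι → E) (R : ι → ℝ) : IsOpen (OB c R) := by
  rw [OB_eq]; exact isOpen_set_pi finite_univ (fun i _ => isOpen_ball)

theorem CB_closed (c : ι → E) (R : ι → ℝ) : IsClosed (CB c R) := by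
  rw [CB_eq]; exact isClosed_set_pi (fun i _ => isClosed_closedBall)

theorem CB_compact [FiniteDimensional ℝ E] (c : ι → E) (R : ι → ℝ) : IsCompact (CB c R) := by
  have : ProperSpace E := FiniteDimensional.proper ℝ E
  rw [CB_eq]; exact isCompact_univ_pi (fun i => isCompact_closedBall _ _)

theorem OB_sub_CB (c : ι → E) (R : ι → ℝ) : OB c R ⊆ CB c R :=
  fun _ hy i => ball_subset_closedBall (hy i)

theorem OB_bdd (c : ι → E) (R : ι → ℝ) : Bornology.IsBounded (OB c R) := by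
  rw [OB_eq]; exact Bornology.IsBounded.pi (fun i => isBounded_ball)

theorem closure_OB_sub (c : ι → E) (R : ι → ℝ) : closure (OB c R) ⊆ CB c R :=
  closure_minimal (OB_sub_CB c R) (CB_closed c R)

/-- the degree is locally constant -/
theorem loc_const [FiniteDimensional ℝ E] {Y : Type u} [NormedAddCommGroup Y] [NormedSpace ℝ Y]
    [FiniteDimensional ℝ Y] (h1 : S_A1.{u}) (h2 : S_A2.{u}) {Q : Type*} {l : Filter Q}
    {c : Q → ι → E} {c₀ : ι → E} {R : ι → ℝ} {Ψ : Q → (ι → E) → Y} {Ψ₀ : (ι → E) → Y}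
    (hc : ∀ i, Tendsto (fun q => c q i) l (𝓝 (c₀ i)))
    (hΨ : ∀ y ∈ CB c₀ R, Tendsto (fun z : Q × (ι → E) => Ψ z.1 z.2) (l ×ˢ 𝓝 y) (𝓝 (Ψ₀ y)))
    (hΨ₀ : ∀ y ∈ CB c₀ R, ContinuousAt Ψ₀ y)
    (hΨq : ∀ᶠ q in l, ContinuousOn (Ψ q) (CB (c q) R))
    (hz : ∀ y ∈ CB c₀ R, Ψ₀ y = 0 → y ∈ OB c₀ R) :
    ∀ᶠ q in l, Adm (Ψ q) (OB (c q) R) ∧ adeg (Ψ q) (OB (c q) R) = adeg Ψ₀ (OB c₀ R) := by
  -- the smaller box
  set Z : Set (ι → E) := {y | y ∈ CB c₀ R ∧ Ψ₀ y = 0} with hZ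
  have hΨ₀c : ContinuousOn Ψ₀ (CB c₀ R) := fun y hy => (hΨ₀ y hy).continuousWithinAt
  have hZc : IsCompact Z := by
    have : Z = CB c₀ R ∩ Ψ₀ ⁻¹' {0} := rfl
    rw [this]
    have h3 := hΨ₀c.preimage_isClosed_of_isClosed (CB_closed c₀ R) (isClosed_singleton (x := (0 : Y)))
    exact (CB_compact c₀ R).of_isClosed_subset h3 inter_subset_left
  obtain ⟨n, hn⟩ : ∃ n : ℕ, Z ⊆ OB c₀ (fun i => R i - 1 / ((n : ℝ) + 1)) := by
    apply hZc.elim_directed_cover (fun n : ℕ => OB c₀ (fun i => R i - 1 / ((n : ℝ) + 1)))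
      (fun n => OB_open _ _)
    · intro y hy
      have hy2 := hz y hy.1 hy.2
      rw [mem_iUnion]
      -- finitely many strict inequalities
      have h3 : ∀ i, ∀ᶠ n : ℕ in atTop, dist (y i) (c₀ i) < R i - 1 / ((n : ℝ) + 1) := by
        intro i
        have h4 : Tendsto (fun n : ℕ => R i - 1 / ((n : ℝ) + 1)) atTop (𝓝 (R i - 0)) :=
          tendsto_const_nhds.sub tendsto_one_div_add_atTop_nhds_zero_nat
        rw [sub_zero] at h4
        exact h4.eventually (lt_mem_nhds (hy2 i))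
      have h4 := eventually_all.2 h3
      obtain ⟨n, hn⟩ := h4.exists
      exact ⟨n, fun i => hn i⟩
    · intro a b
      refine ⟨max a b, ?_, ?_⟩
      · intro y hy i
        refine mem_ball.2 (lt_of_lt_of_le (mem_ball.1 (hy i)) ?_)
        have : (a : ℝ) ≤ (max a b : ℕ) := by exact_mod_cast le_max_left a b
        have := one_div_le_one_div_of_le (by positivity : (0:ℝ) < (a : ℝ) + 1)
          (by linarith : (a : ℝ) + 1 ≤ ((max a b : ℕ) : ℝ) + 1)
        linarith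
      · intro y hy i
        refine mem_ball.2 (lt_of_lt_of_le (mem_ball.1 (hy i)) ?_)
        have : (b : ℝ) ≤ (max a b : ℕ) := by exact_mod_cast le_max_right a b
        have := one_div_le_one_div_of_le (by positivity : (0:ℝ) < (b : ℝ) + 1)
          (by linarith : (b : ℝ) + 1 ≤ ((max a b : ℕ) : ℝ) + 1)
        linarith
  set τ : ℝ := 1 / ((n : ℝ) + 1) with hτ
  have hτ0 : 0 < τ := by positivity
  set W : Set (ι → E) := OB c₀ (fun i => R i - τ) with hW
  have hWO : W ⊆ OB c₀ R := fun y hy i =>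
    mem_ball.2 (lt_of_lt_of_le (mem_ball.1 (hy i)) (by linarith))
  have hclW : closure W ⊆ CB c₀ (fun i => R i - τ) := closure_OB_sub _ _
  have hclW2 : closure W ⊆ CB c₀ R := fun y hy i =>
    mem_closedBall.2 ((mem_closedBall.1 (hclW hy i)).trans (by linarith))
  -- the compact set where no zeros are allowed
  have hK : IsCompact (CB c₀ (fun i => R i + 1) \ W) := (CB_compact _ _).diff (OB_open _ _)
  have hA : ∀ᶠ q in l, ∀ y ∈ CB c₀ (fun i => R i + 1) \ W, ¬ (y ∈ CB (c q) R ∧ Ψ q y = 0) := by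
    have h3 : {z : Q × (ι → E) | ¬ (z.2 ∈ CB (c z.1) R ∧ Ψ z.1 z.2 = 0)} ∈
        l ×ˢ 𝓝ˢ (CB c₀ (fun i => R i + 1) \ W) := by
      apply hK.mem_prod_nhdsSet_of_forall
      intro y hy
      by_cases hyB : y ∈ CB c₀ R
      · have hne : Ψ₀ y ≠ 0 := fun h => hy.2 (hn ⟨hyB, h⟩)
        have h4 := (hΨ y hyB).eventually_ne hne
        filter_upwards [h4] with z hz hcon
        exact hz hcon.2
      · have : ∃ i, R i < dist (y i) (c₀ i) := by
          by_contra hcon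
          push Not at hcon
          exact hyB (fun i => hcon i)
        obtain ⟨i, hi⟩ := this
        have h4 : Tendsto (fun z : Q × (ι → E) => dist (z.2 i) (c z.1 i)) (l ×ˢ 𝓝 y)
            (𝓝 (dist (y i) (c₀ i))) := by
          apply Tendsto.dist
          · exact ((continuous_apply i).tendsto y).comp tendsto_snd
          · exact (hc i).comp tendsto_fst
        filter_upwards [h4.eventually (lt_mem_nhds hi)] with z hz hcon
        exact absurd (hcon.1 i) (not_le.2 hz)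
    have h4 := h3
    rw [mem_prod_iff] at h4
    obtain ⟨s, hs, t, ht, hst⟩ := h4
    filter_upwards [hs] with q hq y hy
    have := hst (show (q, y) ∈ s ×ˢ t from ⟨hq, subset_of_mem_nhdsSet ht hy⟩)
    exact this
  -- the difference on the frontier of the smaller box
  have hfrW : IsCompact (frontier W) :=
    (CB_compact c₀ R).of_isClosed_subset isClosed_frontier
      (frontier_subset_closure.trans hclW2)
  have hB : ∀ᶠ q in l, ∀ y ∈ frontier W, ‖Ψ q y - Ψ₀ y‖ < ‖Ψ₀ y‖ := by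
    have h3 : {z : Q × (ι → E) | ‖Ψ z.1 z.2 - Ψ₀ z.2‖ < ‖Ψ₀ z.2‖} ∈ l ×ˢ 𝓝ˢ (frontier W) := by
      apply hfrW.mem_prod_nhdsSet_of_forall
      intro y hy
      have hyB : y ∈ CB c₀ R := hclW2 (frontier_subset_closure hy)
      have hyW : y ∉ W := by
        rw [(OB_open _ _).frontier_eq] at hy
        exact hy.2
      have hne : Ψ₀ y ≠ 0 := fun h => hyW (hn ⟨hyB, h⟩)
      have h4 : Tendsto (fun z : Q × (ι → E) => Ψ₀ z.2) (l ×ˢ 𝓝 y) (𝓝 (Ψ₀ y)) :=
        (hΨ₀ y hyB).tendsto.comp tendsto_snd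
      have h5 := ((hΨ y hyB).sub h4).norm
      rw [sub_self, norm_zero] at h5
      have h6 := h4.norm
      have h7 : (0 : ℝ) < ‖Ψ₀ y‖ := norm_pos_iff.2 hne
      exact h5.eventually_lt h6 h7
    rw [mem_prod_iff] at h3
    obtain ⟨s, hs, t, ht, hst⟩ := h3
    filter_upwards [hs] with q hq y hy
    have := hst (show (q, y) ∈ s ×ˢ t from ⟨hq, subset_of_mem_nhdsSet ht hy⟩)
    exact this
  have hC : ∀ᶠ q in l, ∀ i, dist (c q i) (c₀ i) < min τ 1 := by
    apply eventually_all.2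
    intro i
    have h3 := (hc i).eventually (ball_mem_nhds (c₀ i) (lt_min hτ0 one_pos))
    exact h3
  filter_upwards [hA, hB, hC, hΨq] with q hAq hBq hCq hcont
  have hsub1 : CB (c q) R ⊆ CB c₀ (fun i => R i + 1) := by
    intro y hy i
    have h3 := hCq i
    have h4 := hy i
    rw [mem_closedBall] at h4 ⊢
    have h5 := dist_triangle (y i) (c q i) (c₀ i)
    have h6 := min_le_right τ 1
    linarith
  have hsub2 : W ⊆ OB (c q) R := by
    intro y hy i
    have h3 := hCq i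
    have h4 : dist (y i) (c₀ i) < R i - τ := hy i
    rw [mem_ball]
    have h5 := dist_triangle_right (y i) (c q i) (c₀ i)
    have h6 := min_le_left τ 1
    linarith
  have hzq : ∀ y ∈ CB (c q) R, Ψ q y = 0 → y ∈ W := by
    intro y hy hy0
    by_contra hcon
    exact hAq y ⟨hsub1 hy, hcon⟩ ⟨hy, hy0⟩
  have hadm : Adm (Ψ q) (OB (c q) R) := by
    refine ⟨OB_open _ _, OB_bdd _ _, hcont.mono (closure_OB_sub _ _), ?_⟩
    intro y hy hy0
    rw [(OB_open _ _).frontier_eq] at hy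
    exact hy.2 (hsub2 (hzq y (closure_OB_sub _ _ hy.1) hy0))
  refine ⟨hadm, ?_⟩
  have e1 : adeg (Ψ q) (OB (c q) R) = adeg (Ψ q) W :=
    h2 (ι → E) Y (Ψ q) (OB (c q) R) W (OB_open _ _) (OB_bdd _ _)
      (hcont.mono (closure_OB_sub _ _)) (OB_open _ _) hsub2
      (fun y hy hy0 => hzq y (closure_OB_sub _ _ hy) hy0)
  have e2 : adeg Ψ₀ (OB c₀ R) = adeg Ψ₀ W :=
    h2 (ι → E) Y Ψ₀ (OB c₀ R) W (OB_open _ _) (OB_bdd _ _)
      (hΨ₀c.mono (closure_OB_sub _ _)) (OB_open _ _) hWO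
      (fun y hy hy0 => hn ⟨closure_OB_sub _ _ hy, hy0⟩)
  have hclq : closure W ⊆ CB (c q) R := by
    intro y hy i
    have h3 := hCq i
    have h4 : dist (y i) (c₀ i) ≤ R i - τ := hclW hy i
    rw [mem_closedBall]
    have h5 := dist_triangle_right (y i) (c q i) (c₀ i)
    have h6 := min_le_left τ 1
    linarith
  have e3 : adeg Ψ₀ W = adeg (Ψ q) W := by
    have h3 := h1 (ι → E) Y (fun t y => Ψ₀ y + t • (Ψ q y - Ψ₀ y)) W (OB_open _ _) (OB_bdd _ _)
      (by
        have hs : ContinuousOn (fun p : ℝ × (ι → E) => Ψ₀ p.2) (Icc (0 : ℝ) 1 ×ˢ closure W) :=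
          (hΨ₀c.mono hclW2).comp continuousOn_snd (fun p hp => hp.2)
        have hs2 : ContinuousOn (fun p : ℝ × (ι → E) => Ψ q p.2) (Icc (0 : ℝ) 1 ×ˢ closure W) :=
          (hcont.mono hclq).comp continuousOn_snd (fun p hp => hp.2)
        exact hs.add (continuousOn_fst.smul (hs2.sub hs)))
      (by
        intro t ht y hy h0
        have h4 := hBq y hy
        have h5 : ‖Ψ₀ y‖ = ‖t • (Ψ q y - Ψ₀ y)‖ := by
          rw [← norm_neg, neg_eq_of_add_eq_zero_right h0]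
        rw [norm_smul, Real.norm_eq_abs, abs_of_nonneg ht.1] at h5
        have h6 : t * ‖Ψ q y - Ψ₀ y‖ ≤ 1 * ‖Ψ q y - Ψ₀ y‖ :=
          mul_le_mul_of_nonneg_right ht.2 (norm_nonneg _)
        linarith)
    simp only [zero_smul, add_zero, one_smul, add_sub_cancel] at h3
    exact h3
  rw [e1, e2, e3]

/-- close projections -/
theorem proj_iso [FiniteDimensional ℝ E] {s s' : ℕ} (P₀ P : E →L[ℝ] E) (hP₀ : P₀ * P₀ = P₀)
    (hP : P * P = P) (hd : ‖P₀ - P‖ < 1) (β₀ : E →L[ℝ] (Fin s → ℝ)) (β : E →L[ℝ] (Fin s' → ℝ))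
    (h₀ : ∀ v, β₀ v = 0 ↔ P₀ v = 0) (h₀' : Function.Surjective β₀)
    (h : ∀ v, β v = 0 ↔ P v = 0) (h' : Function.Surjective β) :
    ∃ L : (Fin s → ℝ) ≃L[ℝ] (Fin s' → ℝ), ∀ v, L (β₀ (P v)) = β v := by
  have : CompleteSpace E := FiniteDimensional.complete ℝ E
  have hPP : ∀ v, P (P v) = P v := fun v => congrArg (fun L : E →L[ℝ] E => L v) hP
  have hPP₀ : ∀ v, P₀ (P₀ v) = P₀ v := fun v => congrArg (fun L : E →L[ℝ] E => L v) hP₀
  have hβP₀ : ∀ v, β₀ (P₀ v) = β₀ v := fun v => by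
    have h3 : β₀ (P₀ v - v) = 0 := by rw [h₀, map_sub, hPP₀, sub_self]
    rw [map_sub, sub_eq_zero] at h3
    exact h3
  -- the kernel of `β₀ ∘ P`
  have hker : ∀ v, β₀ (P v) = 0 ↔ P v = 0 := by
    intro v
    constructor
    · intro h3
      rw [h₀] at h3
      by_contra hne
      have h4 : ‖(P₀ - P) (P v)‖ = ‖P v‖ := by
        rw [_root_.sub_apply, h3, hPP, zero_sub, norm_neg]
      have h5 := (P₀ - P).le_opNorm (P v)
      have h6 : 0 < ‖P v‖ := norm_pos_iff.2 hne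
      nlinarith
    · intro h3
      rw [h3, map_zero]
  -- surjectivity
  have hsurj : Function.Surjective (fun v => β₀ (P v)) := by
    intro w
    set U := Units.oneSub (P₀ - P) hd with hU
    have hUv : (U : E →L[ℝ] E) = 1 - (P₀ - P) := rfl
    obtain ⟨z, hz⟩ := h₀' w
    refine ⟨((U⁻¹ : (E →L[ℝ] E)ˣ) : E →L[ℝ] E) z, ?_⟩
    set x := ((U⁻¹ : (E →L[ℝ] E)ˣ) : E →L[ℝ] E) z with hx
    have h3 : (U : E →L[ℝ] E) x = z := by
      have h4 : (U : E →L[ℝ] E) * ((U⁻¹ : (E →L[ℝ] E)ˣ) : E →L[ℝ] E) = 1 := Units.mul_inv U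
      exact congrArg (fun L : E →L[ℝ] E => L z) h4
    rw [hUv] at h3
    have h4 : x - (P₀ x - P x) = z := h3
    have h5 : β₀ (P x) = β₀ (x - (P₀ x - P x)) := by
      rw [map_sub, map_sub, hβP₀]; abel
    show β₀ (P x) = w
    rw [h5, h4, hz]
  -- the isomorphism
  obtain ⟨σ, hσ⟩ := (β₀ ∘L P : E →L[ℝ] (Fin s → ℝ)).toLinearMap.exists_rightInverse_of_surjective
    (LinearMap.range_eq_top.2 hsurj)
  have hσ' : ∀ w, β₀ (P (σ w)) = w := fun w => congrArg (fun L : _ →ₗ[ℝ] _ => L w) hσ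
  set L0 : (Fin s → ℝ) →ₗ[ℝ] (Fin s' → ℝ) := β.toLinearMap.comp σ with hL0
  have hL0v : ∀ v, L0 (β₀ (P v)) = β v := by
    intro v
    have h3 : P (σ (β₀ (P v)) - v) = 0 := by
      rw [← hker, map_sub, map_sub, hσ', sub_self]
    have h4 := (h _).2 h3
    rw [map_sub, sub_eq_zero] at h4
    exact h4
  have hbij : Function.Bijective L0 := by
    constructor
    · rw [injective_iff_map_eq_zero]
      intro w hw
      obtain ⟨v, rfl⟩ := hsurj w
      simp only at hw ⊢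
      rw [hL0v, h] at hw
      rw [hker]; exact hw
    · intro w
      obtain ⟨v, rfl⟩ := h' w
      exact ⟨β₀ (P v), hL0v v⟩
  exact ⟨(LinearEquiv.ofBijective L0 hbij).toContinuousLinearEquiv, fun v => hL0v v⟩

end LC

end Pool.Agent.H963.CJ
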