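import Pool.Agent.H963.CJ.MDef3
import Pool.Agent.H963.CJ.LC

/-!
# The right degree is locally constant (`S_CMPR`)
-/

set_option autoImplicit false
set_option linter.unusedSectionVars false

open Set Filter Topology Metric
open scoped Manifold ContDiff

namespace Pool.Agent.H963.CJ

open Pool.Agent.H721R2 Pool.Agent.H789R2.AN Pool.Agent.TH289 Pool.Agent.H244.Dyn
  Pool.Agent.H244.Loc

universe u v w

namespace NCMPR

variable {E : Type u} [NormedAddCommGroup E] [NormedSpace ℝ E] [FiniteDimensional ℝ E]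
  {M : Type v} [MetricSpace M] [CompactSpace M] [ChartedSpace E M] [IsManifold 𝓘(ℝ, E) 1 M]
  {F : Type w} [NormedAddCommGroup F] [NormedSpace ℝ F] {e : M → F}
  {f g : M ≃ₜ M} {k : M → M} {Es Eu : M → Submodule ℝ E} {π π' : M → E →L[ℝ] E} {t : Finset M}
  {ρ : M → ℝ} {R ρ₀ κf κ0 K l Cs r ε1 ε2 η2 : ℝ}

theorem gd_gw (hC : Ctx E e f g k Es Eu π π' t ρ R ρ₀ κf κ0 K l Cs r ε1 ε2 η2) {j z : M}
    (h : Gd t ρ j z) : Gw t ρ j z := by
  refine ⟨h.1, h.2.trans ?_⟩
  have h1 := hC.fc.ch.ρ₀_le j h.1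
  have h2 := hC.fc.ch.ρ₀_pos
  linarith

theorem gd_src (hC : Ctx E e f g k Es Eu π π' t ρ R ρ₀ κf κ0 K l Cs r ε1 ε2 η2) {j z : M}
    (h : Gd t ρ j z) : z ∈ (ps E j).source :=
  hC.fc.ch.src j h.1 z (gd_gw hC h).2

theorem k_src (hC : Ctx E e f g k Es Eu π π' t ρ R ρ₀ κf κ0 K l Cs r ε1 ε2 η2) {j x : M}
    (h : Gd t ρ j (k x)) : x ∈ (ps E j).source :=
  hC.fc.ch.src j h.1 x (hC.kgd x j h).2

theorem k_orb (hC : Ctx E e f g k Es Eu π π' t ρ R ρ₀ κf κ0 K l Cs r ε1 ε2 η2) (x : M) (i : ℕ) :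
    k (f^[i + 1] x) = g (k (f^[i] x)) := by
  rw [Function.iterate_succ_apply']; exact hC.kf _

theorem gcx (hC : Ctx E e f g k Es Eu π π' t ρ R ρ₀ κf κ0 K l Cs r ε1 ε2 η2) (x : M) (j : ℕ → M)
    (hj : ∀ i, Gd t ρ (j i) (k (f^[i] x))) :
    GC (fun i => fderiv ℝ (rep g (j i) (j (i + 1))) (cx E f k x j i))
      (fun i => Pj π' (j i) (cx E f k x j i)) K l :=
  hC.gc (fun i => k (f^[i] x)) j (fun i => k_orb hC x i) (fun i => gd_gw hC (hj i))

/-- `Ctx.step` along the orbit -/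
theorem stepx (hC : Ctx E e f g k Es Eu π π' t ρ R ρ₀ κf κ0 K l Cs r ε1 ε2 η2) (x : M) (j : ℕ → M)
    (hj : ∀ i, Gd t ρ (j i) (k (f^[i] x))) (i : ℕ) (y : E) (hy : y ∈ closedBall (cx E f k x j i) r) :
    y ∈ (ps E (j i)).target ∧ f ((ps E (j i)).symm y) ∈ (ps E (j (i + 1))).source ∧
    ‖Fx E f j i y - cx E f k x j (i + 1) -
      fderiv ℝ (rep g (j i) (j (i + 1))) (cx E f k x j i) (y - cx E f k x j i)‖ ≤ ε1 := by
  have h := hC.step (k (f^[i] x)) (j i) (j (i + 1)) (hj i)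
    (by rw [← k_orb hC]; exact hj (i + 1)) y hy
  refine ⟨h.1, h.2.1, ?_⟩
  have h2 := h.2.2.2
  rw [← k_orb hC] at h2
  exact h2

/-- the chain maps are continuous -/
theorem Fx_cont (hC : Ctx E e f g k Es Eu π π' t ρ R ρ₀ κf κ0 K l Cs r ε1 ε2 η2) (x : M)
    (j : ℕ → M) (hj : ∀ i, Gd t ρ (j i) (k (f^[i] x))) (i : ℕ) (y : E)
    (hy : y ∈ closedBall (cx E f k x j i) r) : ContinuousAt (Fx E f j i) y := by
  obtain ⟨h1, h2, -⟩ := stepx hC x j hj i y hy
  have h3 : ContinuousAt (ps E (j i)).symm y := continuousAt_extChartAt_symm'' h1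
  have h4 : ContinuousAt (ps E (j (i + 1))) (f ((ps E (j i)).symm y)) :=
    continuousAt_extChartAt' h2
  have h5 : ContinuousAt (fun y => f ((ps E (j i)).symm y)) y :=
    f.continuous.continuousAt.comp h3
  exact ContinuousAt.comp (f := fun y => f ((ps E (j i)).symm y)) (g := ps E (j (i + 1))) h4 h5

/-- centres of the right problem -/
noncomputable def cc (E : Type u) [NormedAddCommGroup E] [NormedSpace ℝ E] [ChartedSpace E M]
    (f k : M → M) (x : M) (j : ℕ → M) (T : ℕ) : Fin (T + 1) → E :=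
  fun i => if (i : ℕ) = T then ps E (j T) (f^[T] x) else cx E f k x j i

/-- radii of the right problem -/
noncomputable def RR (r η1 : ℝ) (T : ℕ) : Fin (T + 1) → ℝ :=
  fun i => if (i : ℕ) = T then η1 else r / 2

theorem Box_Dr (f k : M → M) (x : M) (j : ℕ → M) (r η1 : ℝ) (T : ℕ) :
    Box T (Dr E f k x j r η1 T) = LC.OB (cc E f k x j T) (RR r η1 T) := by
  ext y
  unfold Box LC.OB
  refine forall_congr' fun i => ?_
  unfold Dr cc RR
  by_cases h : (i : ℕ) = T
  · simp only [h, if_true]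
  · simp only [h, if_false]

/-- points of the closed box lie in the tubes -/
theorem CB_tube (hC : Ctx E e f g k Es Eu π π' t ρ R ρ₀ κf κ0 K l Cs r ε1 ε2 η2) (x : M)
    (j : ℕ → M) (hj : ∀ i, Gd t ρ (j i) (k (f^[i] x))) {η1 : ℝ} (hη : η1 ≤ η2) {T : ℕ}
    {y : Fin (T + 1) → E} (hy : y ∈ LC.CB (cc E f k x j T) (RR r η1 T)) (i : Fin (T + 1)) :
    y i ∈ closedBall (cx E f k x j i) (r / 2) := by
  have h := hy i
  unfold cc RR at h
  by_cases hi : (i : ℕ) = T
  · rw [if_pos hi, if_pos hi] at h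
    have h2 := hC.kb (f^[T] x) (j T) (hj T) (y i)
      (closedBall_subset_closedBall hη h)
    have h3 : cx E f k x j i = ps E (j T) (k (f^[T] x)) := by rw [hi]; rfl
    rw [h3, mem_closedBall]
    exact h2.1.le
  · rw [if_neg hi, if_neg hi] at h
    exact h

theorem r_half (hC : Ctx E e f g k Es Eu π π' t ρ R ρ₀ κf κ0 K l Cs r ε1 ε2 η2) (c : E) :
    closedBall c (r / 2) ⊆ closedBall c r :=
  closedBall_subset_closedBall (by linarith [hC.r_pos])

/-- the a-priori estimate -/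
theorem zero_est (hC : Ctx E e f g k Es Eu π π' t ρ R ρ₀ κf κ0 K l Cs r ε1 ε2 η2) (x : M)
    (j : ℕ → M) (hj : ∀ i, Gd t ρ (j i) (k (f^[i] x))) {η1 : ℝ} (hη : η1 ≤ η2) {T : ℕ}
    {y : Fin (T + 1) → E} (hy : y ∈ LC.CB (cc E f k x j T) (RR r η1 T))
    (horb : ∀ i : Fin T, y i.succ = Fx E f j i (y i.castSucc))
    (h0 : Pj π' (j 0) (cx E f k x j 0) (y 0 - cx E f k x j 0) = 0) (i : Fin (T + 1)) :
    ‖y i - cx E f k x j i‖ ≤ Cs * (ε1 + ε2) := by
  set z : ℕ → E := fun i => if h : i < T + 1 then y ⟨i, h⟩ else 0 with hz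
  have hzi : ∀ i (h : i < T + 1), z i = y ⟨i, h⟩ := fun i h => by rw [hz]; simp only; rw [dif_pos h]
  have key := hC.g2 E _ _ (gcx hC x j hj) T (cx E f k x j) z (fun i => z (i + 1)) (fun _ => 0)
    ε1 ε2 hC.e1 hC.e2 (fun _ _ => ⟨le_rfl, zero_le_one⟩)
    (fun i hi => by
      have h1 : z (i + 1) = Fx E f j i (z i) := by
        rw [hzi i (by omega), hzi (i + 1) (by omega)]
        exact horb ⟨i, hi⟩
      have h2 : z i ∈ closedBall (cx E f k x j i) r := by
        rw [hzi i (by omega)]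
        exact r_half hC _ (CB_tube hC x j hj hη hy ⟨i, by omega⟩)
      show ‖z (i + 1) - _ - _‖ ≤ ε1
      rw [h1]
      exact (stepx hC x j hj i (z i) h2).2.2)
    (fun i hi => by simp)
    (fun i hi => by simp)
    (by
      rw [hzi 0 (by omega)]
      have h1 : Pj π' (j 0) (cx E f k x j 0) (y ⟨0, by omega⟩ - cx E f k x j 0) = 0 := h0
      rw [h1, norm_zero]
      exact hC.e2)
    (by
      have h := hy (Fin.last T)
      unfold cc RR at h
      rw [if_pos (Fin.val_last T), if_pos (Fin.val_last T)] at h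
      have h2 := hC.kb (f^[T] x) (j T) (hj T) (y (Fin.last T)) (closedBall_subset_closedBall hη h)
      rw [hzi T (by omega)]
      exact h2.2.2)
  have h1 := key i (by omega)
  rw [hzi i i.2] at h1
  exact h1

/-- no zero ends on the sphere -/
theorem zero_exit (hC : Ctx E e f g k Es Eu π π' t ρ R ρ₀ κf κ0 K l Cs r ε1 ε2 η2) (x : M)
    (j : ℕ → M) (hj : ∀ i, Gd t ρ (j i) (k (f^[i] x))) {η1 : ℝ} (hη : η1 ≤ η2) {T w : ℕ}
    {y : Fin (T + 1) → E} (hy : y ∈ LC.CB (cc E f k x j T) (RR r η1 T))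
    (horb : ∀ i : Fin T, y i.succ = Fx E f j i (y i.castSucc)) (C₀ : E →L[ℝ] (Fin w → ℝ))
    (hexit : ∀ p ∈ (ps E (j T)).source, dist (ps E (j T) p) (ps E (j T) (f^[T] x)) = η1 →
      C₀ (ps E (j T) p - ps E (j T) (f^[T] x)) = 0 →
      ∃ n ≤ T, κ0 < dist (f.symm^[n] p) (f.symm^[n] (f^[T] x)))
    (hC0 : C₀ (y (Fin.last T) - ps E (j T) (f^[T] x)) = 0) :
    dist (y (Fin.last T)) (ps E (j T) (f^[T] x)) ≠ η1 := by
  intro hd
  -- the points of the orbit
  set p : ℕ → M := fun i => if h : i < T + 1 then (ps E (j i)).symm (y ⟨i, h⟩) else x with hp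
  have hpi : ∀ i (h : i < T + 1), p i = (ps E (j i)).symm (y ⟨i, h⟩) :=
    fun i h => by rw [hp]; simp only; rw [dif_pos h]
  have hball : ∀ i (h : i < T + 1), y ⟨i, h⟩ ∈ closedBall (cx E f k x j i) r :=
    fun i h => r_half hC _ (CB_tube hC x j hj hη hy ⟨i, h⟩)
  have hpf : ∀ i, i < T → p (i + 1) = f (p i) := by
    intro i hi
    obtain ⟨-, h2, -⟩ := stepx hC x j hj i _ (hball i (by omega))
    rw [hpi i (by omega), hpi (i + 1) (by omega)]
    have h3 : y ⟨i + 1, by omega⟩ = ps E (j (i + 1)) (f ((ps E (j i)).symm (y ⟨i, by omega⟩))) :=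
      horb ⟨i, hi⟩
    rw [h3]
    exact (ps E (j (i + 1))).left_inv h2
  have hps : ∀ n, n ≤ T → f.symm^[n] (p T) = p (T - n) := by
    intro n
    induction n with
    | zero => intro _; rfl
    | succ n ih =>
      intro hn
      rw [Function.iterate_succ_apply', ih (by omega)]
      have h3 := hpf (T - (n + 1)) (by omega)
      have h4 : T - (n + 1) + 1 = T - n := by omega
      rw [h4] at h3
      rw [h3, Homeomorph.symm_apply_apply]
  have hxs : ∀ n, n ≤ T → f.symm^[n] (f^[T] x) = f^[T - n] x := by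
    intro n
    induction n with
    | zero => intro _; rfl
    | succ n ih =>
      intro hn
      rw [Function.iterate_succ_apply', ih (by omega)]
      have h4 : T - n = T - (n + 1) + 1 := by omega
      rw [h4, Function.iterate_succ_apply', Homeomorph.symm_apply_apply]
  have hclose : ∀ i, i < T + 1 → dist (p i) (f^[i] x) ≤ κ0 := by
    intro i hi
    have h1 := hC.tube (k (f^[i] x)) (j i) (hj i) (y ⟨i, hi⟩) (hball i hi)
    have h2 := hC.tube (k (f^[i] x)) (j i) (hj i) (ps E (j i) (f^[i] x)) (by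
      rw [mem_closedBall]
      have := hC.kr (f^[i] x) (j i) (hj i)
      linarith [hC.r_pos])
    rw [(ps E (j i)).left_inv (k_src hC (hj i))] at h2
    rw [hpi i hi]
    have h3 := dist_triangle_right ((ps E (j i)).symm (y ⟨i, hi⟩)) (f^[i] x) (k (f^[i] x))
    linarith
  have hlast : y (Fin.last T) ∈ (ps E (j T)).target :=
    (stepx hC x j hj T _ (hball T (by omega))).1
  have hpT : p T = (ps E (j T)).symm (y (Fin.last T)) := hpi T (by omega)
  have hψp : ps E (j T) (p T) = y (Fin.last T) := by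
    rw [hpT]; exact (ps E (j T)).right_inv hlast
  obtain ⟨n, hn, hn2⟩ := hexit (p T) (by rw [hpT]; exact (ps E (j T)).map_target hlast)
    (by rw [hψp]; exact hd) (by rw [hψp]; exact hC0)
  rw [hps n hn, hxs n hn] at hn2
  exact absurd (hclose (T - n) (by omega)) (not_le.2 hn2)

/-- the centres depend continuously on the base point -/
theorem cx_tendsto (hC : Ctx E e f g k Es Eu π π' t ρ R ρ₀ κf κ0 K l Cs r ε1 ε2 η2) (x : M)
    (j : ℕ → M) (hj : ∀ i, Gd t ρ (j i) (k (f^[i] x))) (i : ℕ) :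
    Tendsto (fun z => cx E f k z j i) (𝓝 x) (𝓝 (cx E f k x j i)) := by
  have h1 : ContinuousAt (ps E (j i)) (k (f^[i] x)) := continuousAt_extChartAt' (gd_src hC (hj i))
  have h2 : Continuous (fun z => k (f^[i] z)) := hC.fc.kk.cont.comp (f.continuous.iterate i)
  exact ContinuousAt.comp (f := fun z => k (f^[i] z)) (g := ps E (j i)) h1 h2.continuousAt

theorem ps_tendsto (hC : Ctx E e f g k Es Eu π π' t ρ R ρ₀ κf κ0 K l Cs r ε1 ε2 η2) (x : M)
    (j : ℕ → M) (hj : ∀ i, Gd t ρ (j i) (k (f^[i] x))) (i : ℕ) :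
    Tendsto (fun z => ps E (j i) (f^[i] z)) (𝓝 x) (𝓝 (ps E (j i) (f^[i] x))) := by
  have h1 : ContinuousAt (ps E (j i)) (f^[i] x) := continuousAt_extChartAt' (k_src hC (hj i))
  have h2 : Continuous (fun z => f^[i] z) := f.continuous.iterate i
  exact ContinuousAt.comp (f := fun z => f^[i] z) (g := ps E (j i)) h1 h2.continuousAt

theorem Pj_tendsto (hC : Ctx E e f g k Es Eu π π' t ρ R ρ₀ κf κ0 K l Cs r ε1 ε2 η2) (x : M)
    (j : ℕ → M) (hj : ∀ i, Gd t ρ (j i) (k (f^[i] x))) (i : ℕ) :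
    Tendsto (fun z => Pj π' (j i) (cx E f k z j i)) (𝓝 x) (𝓝 (Pj π' (j i) (cx E f k x j i))) := by
  have h1 := hC.pc (j i) (hj i).1 (k (f^[i] x)) (gd_gw hC (hj i)).2
  have h2 : ContinuousAt (Pj π' (j i)) (cx E f k x j i) :=
    h1.continuousAt (closedBall_mem_nhds _ hC.fc.ch.R_pos)
  exact h2.tendsto.comp (cx_tendsto hC x j hj i)

theorem t_apply {X G : Type*} [NormedAddCommGroup G] [NormedSpace ℝ G] {l : Filter X}
    {A : X → E →L[ℝ] G} {v : X → E} {A₀ : E →L[ℝ] G} {v₀ : E} (hA : Tendsto A l (𝓝 A₀))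
    (hv : Tendsto v l (𝓝 v₀)) : Tendsto (fun z => A z (v z)) l (𝓝 (A₀ v₀)) := by
  have h : Continuous (fun p : (E →L[ℝ] G) × E => p.1 p.2) := isBoundedBilinearMap_apply.continuous
  exact (h.tendsto (A₀, v₀)).comp (hA.prodMk_nhds hv)

end NCMPR

open NCMPR in
theorem t_CMPR (h1 : S_A1.{u}) (h2 : S_A2.{u}) (h4 : S_A4.{u}) (hx : S_CHX.{u, v, w}) :
    S_CMPR.{u, v, w} := by
  have _hx := hx
  intro E _ _ _ M _ _ _ _ F _ _ e f g k Es Eu π π' t ρ R ρ₀ κf κ0 K l Cs r ε1 ε2 η2 hC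
    η1 hη1 hη12 b T xb j hb hj s w βs₀ C₀ hβs₀ hβs₀' hexit
  subst hb
  -- the family
  set Ψ : M × (E →L[ℝ] (Fin w → ℝ)) → (Fin (T + 1) → E) →
      (Fin T → E) × (Fin s → ℝ) × (Fin w → ℝ) := fun q =>
    Bvp T (Fx E f j) (fun v => βs₀ (Pj π' (j 0) (cx E f k q.1 j 0) (v - cx E f k q.1 j 0)))
      (fun v => q.2 (v - ps E (j T) (f^[T] q.1))) with hΨdef
  have hP₀ : Pj π' (j 0) (cx E f k xb j 0) * Pj π' (j 0) (cx E f k xb j 0) =
      Pj π' (j 0) (cx E f k xb j 0) := (gcx hC xb j hj).proj 0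
  have hPP₀ : ∀ v, Pj π' (j 0) (cx E f k xb j 0) (Pj π' (j 0) (cx E f k xb j 0) v) =
      Pj π' (j 0) (cx E f k xb j 0) v := fun v => congrArg (fun L : E →L[ℝ] E => L v) hP₀
  have hβP : ∀ v, βs₀ (Pj π' (j 0) (cx E f k xb j 0) v) = βs₀ v := fun v => by
    have h3 : βs₀ (Pj π' (j 0) (cx E f k xb j 0) v - v) = 0 := by
      rw [hβs₀, map_sub, hPP₀, sub_self]
    rw [map_sub, sub_eq_zero] at h3
    exact h3
  have hΨ₀ : Ψ (xb, C₀) = Bvp T (Fx E f j) (fun y => βs₀ (y - cx E f k xb j 0))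
      (fun y => C₀ (y - ps E (j T) (f^[T] xb))) := by
    rw [hΨdef]
    simp only [hβP]
  have hcc : ∀ i, Tendsto (fun q : M × (E →L[ℝ] (Fin w → ℝ)) => cc E f k q.1 j T i)
      (𝓝 (xb, C₀)) (𝓝 (cc E f k xb j T i)) := by
    intro i
    have hfst : Tendsto (fun q : M × (E →L[ℝ] (Fin w → ℝ)) => q.1) (𝓝 (xb, C₀)) (𝓝 xb) :=
      continuous_fst.tendsto _
    unfold cc
    by_cases hi : (i : ℕ) = T
    · simp only [hi, if_true]
      exact (ps_tendsto hC xb j hj T).comp hfst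
    · simp only [hi, if_false]
      exact (cx_tendsto hC xb j hj i).comp hfst
  have hΨt : ∀ y ∈ LC.CB (cc E f k xb j T) (RR r η1 T),
      Tendsto (fun z : (M × (E →L[ℝ] (Fin w → ℝ))) × (Fin (T + 1) → E) => Ψ z.1 z.2)
        (𝓝 (xb, C₀) ×ˢ 𝓝 y) (𝓝 (Ψ (xb, C₀) y)) := by
    intro y hy
    have hfst : Tendsto (fun z : (M × (E →L[ℝ] (Fin w → ℝ))) × (Fin (T + 1) → E) => z.1.1)
        (𝓝 (xb, C₀) ×ˢ 𝓝 y) (𝓝 xb) :=
      (continuous_fst.tendsto (xb, C₀)).comp tendsto_fst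
    have hsnd : Tendsto (fun z : (M × (E →L[ℝ] (Fin w → ℝ))) × (Fin (T + 1) → E) => z.1.2)
        (𝓝 (xb, C₀) ×ˢ 𝓝 y) (𝓝 C₀) :=
      (continuous_snd.tendsto (xb, C₀)).comp tendsto_fst
    have hyi : ∀ i, Tendsto (fun z : (M × (E →L[ℝ] (Fin w → ℝ))) × (Fin (T + 1) → E) => z.2 i)
        (𝓝 (xb, C₀) ×ˢ 𝓝 y) (𝓝 (y i)) :=
      fun i => ((continuous_apply i).tendsto y).comp tendsto_snd
    rw [hΨdef]
    unfold Bvp
    refine Tendsto.prodMk_nhds ?_ (Tendsto.prodMk_nhds ?_ ?_)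
    · rw [tendsto_pi_nhds]
      intro i
      have h5 := Fx_cont hC xb j hj i (y i.castSucc)
        (r_half hC _ (CB_tube hC xb j hj hη12 hy i.castSucc))
      exact (hyi i.succ).sub (h5.tendsto.comp (hyi i.castSucc))
    · have h5 := t_apply ((Pj_tendsto hC xb j hj 0).comp hfst)
        ((hyi 0).sub ((cx_tendsto hC xb j hj 0).comp hfst))
      exact (βs₀.continuous.tendsto _).comp h5
    · exact t_apply hsnd ((hyi (Fin.last T)).sub ((ps_tendsto hC xb j hj T).comp hfst))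
  have hΨc : ∀ y ∈ LC.CB (cc E f k xb j T) (RR r η1 T), ContinuousAt (Ψ (xb, C₀)) y := by
    intro y hy
    have h5 : Tendsto (fun y' : Fin (T + 1) → E =>
        (((xb, C₀) : M × (E →L[ℝ] (Fin w → ℝ))), y')) (𝓝 y) (𝓝 (xb, C₀) ×ˢ 𝓝 y) :=
      tendsto_const_nhds.prodMk tendsto_id
    exact (hΨt y hy).comp h5
  have hnear : ∀ᶠ q : M × (E →L[ℝ] (Fin w → ℝ)) in 𝓝 (xb, C₀), ∀ i : Fin (T + 1),
      dist (cx E f k q.1 j i) (cx E f k xb j i) < r / 2 := by
    apply eventually_all.2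
    intro i
    have hfst : Tendsto (fun q : M × (E →L[ℝ] (Fin w → ℝ)) => q.1) (𝓝 (xb, C₀)) (𝓝 xb) :=
      continuous_fst.tendsto _
    exact ((cx_tendsto hC xb j hj i).comp hfst).eventually
      (ball_mem_nhds _ (half_pos hC.r_pos))
  have hΨq : ∀ᶠ q in 𝓝 (xb, C₀), ContinuousOn (Ψ q) (LC.CB (cc E f k q.1 j T) (RR r η1 T)) := by
    filter_upwards [hnear] with q hq
    intro y hy
    apply ContinuousAt.continuousWithinAt
    have hyi : ∀ i, Tendsto (fun z : Fin (T + 1) → E => z i) (𝓝 y) (𝓝 (y i)) :=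
      fun i => (continuous_apply i).tendsto y
    rw [hΨdef]
    unfold Bvp ContinuousAt
    refine Tendsto.prodMk_nhds ?_ (Tendsto.prodMk_nhds ?_ ?_)
    · rw [tendsto_pi_nhds]
      intro i
      have h6 : y i.castSucc ∈ closedBall (cx E f k q.1 j i) (r / 2) := by
        have h7 := hy i.castSucc
        unfold cc RR at h7
        have h8 : ¬ ((i.castSucc : Fin (T + 1)) : ℕ) = T := by
          rw [Fin.val_castSucc]; omega
        rw [if_neg h8, if_neg h8] at h7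
        exact h7
      have h9 : y i.castSucc ∈ closedBall (cx E f k xb j i) r := by
        have h10 := hq i.castSucc
        rw [mem_closedBall] at h6 ⊢
        have h11 := dist_triangle (y i.castSucc) (cx E f k q.1 j i) (cx E f k xb j i)
        have h12 : dist (cx E f k q.1 j i) (cx E f k xb j i) < r / 2 := h10
        linarith
      have h5 := Fx_cont hC xb j hj i (y i.castSucc) h9
      exact (hyi i.succ).sub (h5.tendsto.comp (hyi i.castSucc))
    · have h5 : Continuous (fun z : Fin (T + 1) → E =>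
          βs₀ (Pj π' (j 0) (cx E f k q.1 j 0) (z 0 - cx E f k q.1 j 0))) :=
        βs₀.continuous.comp ((Pj π' (j 0) (cx E f k q.1 j 0)).continuous.comp
          ((continuous_apply 0).sub continuous_const))
      exact h5.tendsto y
    · have h5 : Continuous (fun z : Fin (T + 1) → E =>
          q.2 (z (Fin.last T) - ps E (j T) (f^[T] q.1))) :=
        q.2.continuous.comp ((continuous_apply _).sub continuous_const)
      exact h5.tendsto y
  have hzero : ∀ y ∈ LC.CB (cc E f k xb j T) (RR r η1 T), Ψ (xb, C₀) y = 0 →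
      y ∈ LC.OB (cc E f k xb j T) (RR r η1 T) := by
    intro y hy hy0
    rw [hΨ₀] at hy0
    have horb : ∀ i : Fin T, y i.succ = Fx E f j i (y i.castSucc) := fun i =>
      sub_eq_zero.1 (congrFun (congrArg (fun z => z.1) hy0) i)
    have hz2 : βs₀ (y 0 - cx E f k xb j 0) = 0 := congrArg (fun z => z.2.1) hy0
    have hz3 : C₀ (y (Fin.last T) - ps E (j T) (f^[T] xb)) = 0 := congrArg (fun z => z.2.2) hy0
    intro i
    by_cases hi : (i : ℕ) = T
    · have h5 : i = Fin.last T := Fin.ext hi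
      subst h5
      have h6 := hy (Fin.last T)
      unfold cc RR at h6 ⊢
      rw [if_pos hi, if_pos hi] at h6 ⊢
      have h7 := zero_exit hC xb j hj hη12 hy horb C₀ hexit hz3
      rw [mem_ball]
      exact lt_of_le_of_ne (mem_closedBall.1 h6) h7
    · have h5 := zero_est hC xb j hj hη12 hy horb ((hβs₀ _).1 hz2) i
      unfold cc RR
      rw [if_neg hi, if_neg hi, mem_ball, dist_eq_norm]
      exact lt_of_le_of_lt h5 hC.small
  have hmain := LC.loc_const h1 h2 hcc hΨt hΨc hΨq hzero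
  have hPclose : ∀ᶠ q : M × (E →L[ℝ] (Fin w → ℝ)) in 𝓝 (xb, C₀),
      ‖Pj π' (j 0) (cx E f k xb j 0) - Pj π' (j 0) (cx E f k q.1 j 0)‖ < 1 := by
    have hfst : Tendsto (fun q : M × (E →L[ℝ] (Fin w → ℝ)) => q.1) (𝓝 (xb, C₀)) (𝓝 xb) :=
      continuous_fst.tendsto _
    have h5 := (((Pj_tendsto hC xb j hj 0).comp hfst).const_sub
      (Pj π' (j 0) (cx E f k xb j 0))).norm
    rw [sub_self, norm_zero] at h5
    exact h5.eventually (gt_mem_nhds one_pos)
  obtain ⟨ε, hε, hball⟩ := Metric.eventually_nhds_iff.1 (hmain.and hPclose)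
  -- from the end point to the starting point
  have hcs : Continuous (f.symm^[T] : M → M) := f.symm.continuous.iterate T
  obtain ⟨δ', hδ', hδ''⟩ := Metric.continuousAt_iff.1 (hcs.continuousAt (x := f^[T] xb)) ε hε
  have hinv : ∀ z : M, f.symm^[T] (f^[T] z) = z := fun z =>
    (Function.LeftInverse.iterate f.symm_apply_apply T) z
  refine ⟨min δ' ε, lt_min hδ' hε, ?_⟩
  intro x hxd j' hjj' hj' C hCd s' βs hβs hβs'
  have hxx : dist x xb < ε := by
    have h5 := hδ'' (lt_of_lt_of_le hxd (min_le_left _ _))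
    rwa [hinv, hinv] at h5
  have hCC : dist C C₀ < ε := by
    rw [dist_eq_norm]; exact lt_of_lt_of_le hCd (min_le_right _ _)
  obtain ⟨⟨hadm, hdeg⟩, hPc⟩ := hball (y := (x, C)) (by
    rw [Prod.dist_eq]; exact max_lt hxx hCC)
  have hj0 : j' 0 = j 0 := hjj' 0 (Nat.zero_le T)
  have hjT : j' T = j T := hjj' T le_rfl
  have hcx : ∀ i ≤ T, cx E f k x j' i = cx E f k x j i := fun i hi => by
    unfold cx; rw [hjj' i hi]
  have hP : Pj π' (j 0) (cx E f k x j 0) * Pj π' (j 0) (cx E f k x j 0) =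
      Pj π' (j 0) (cx E f k x j 0) := by
    have h5 := (gcx hC x j' hj').proj 0
    simp only [hj0, hcx 0 (Nat.zero_le T)] at h5
    exact h5
  rw [hj0, hcx 0 (Nat.zero_le T)] at hβs
  obtain ⟨L, hL⟩ := LC.proj_iso _ _ hP₀ hP hPc βs₀ βs hβs₀ hβs₀' hβs hβs'
  -- the target
  have hY := h4.1 (Fin (T + 1) → E) ((Fin T → E) × (Fin s → ℝ) × (Fin w → ℝ))
    ((Fin T → E) × (Fin s' → ℝ) × (Fin w → ℝ)) (Ψ (x, C)) _
    ((ContinuousLinearEquiv.refl ℝ (Fin T → E)).prodCongr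
      (L.prodCongr (ContinuousLinearEquiv.refl ℝ (Fin w → ℝ)))) hadm
  have hfun : (fun y => ((ContinuousLinearEquiv.refl ℝ (Fin T → E)).prodCongr
      (L.prodCongr (ContinuousLinearEquiv.refl ℝ (Fin w → ℝ)))) (Ψ (x, C) y)) =
      Bvp T (Fx E f j') (fun y => βs (y - cx E f k x j' 0))
        (fun y => C (y - ps E (j' T) (f^[T] x))) := by
    funext y
    refine Prod.ext ?_ (Prod.ext ?_ ?_)
    · funext i
      show y i.succ - Fx E f j i (y i.castSucc) = y i.succ - Fx E f j' i (y i.castSucc)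
      have h5 : Fx E f j' i = Fx E f j i := by
        unfold Fx
        rw [hjj' i (by omega), hjj' (i + 1) (by omega)]
      rw [h5]
    · show L (βs₀ (Pj π' (j 0) (cx E f k x j 0) (y 0 - cx E f k x j 0))) =
        βs (y 0 - cx E f k x j' 0)
      rw [hL, hcx 0 (Nat.zero_le T)]
    · show C (y (Fin.last T) - ps E (j T) (f^[T] x)) = C (y (Fin.last T) - ps E (j' T) (f^[T] x))
      rw [hjT]
  rw [hfun] at hY
  have hbox : LC.OB (cc E f k x j T) (RR r η1 T) = Box T (Dr E f k x j' r η1 T) := by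
    rw [Box_Dr]
    have h5 : cc E f k x j T = cc E f k x j' T := by
      funext i
      unfold cc
      rw [hjT, hcx i (by omega)]
    rw [h5]
  show adeg _ _ = adeg _ _
  rw [← hbox, Box_Dr, ← hΨ₀]
  exact hY.trans hdeg

end Pool.Agent.H963.CJ
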