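import Pool.Agent.H963.CJ.MDef3

/-! # FULL: the full boundary problem with a unique solution has degree one -/

set_option autoImplicit false
set_option linter.all false

open Set Filter Topology Metric
open scoped Manifold ContDiff

namespace Pool.Agent.H963.CJ

open Pool.Agent.H721R2 Pool.Agent.H789R2.AN Pool.Agent.TH289 Pool.Agent.H244.Dyn
  Pool.Agent.H244.Loc

universe u v w

namespace NFULL

section lin

variable {E : Type u} [NormedAddCommGroup E] [NormedSpace ℝ E] [FiniteDimensional ℝ E]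

/-- the ranks of commuting projections along a chain of isomorphisms agree -/
theorem rank_eq {A P : ℕ → E →L[ℝ] E} {N : ℕ} (hinj : ∀ i < N, Function.Injective (A i))
    (hcomm : ∀ i < N, A i * P i = P (i + 1) * A i) : ∀ n ≤ N,
    Module.finrank ℝ (LinearMap.range (P n : E →ₗ[ℝ] E)) =
      Module.finrank ℝ (LinearMap.range (P 0 : E →ₗ[ℝ] E)) := by
  intro n
  induction n with
  | zero => intro _; rfl
  | succ n ih =>
    intro hn
    rw [← ih (by omega)]
    have hi : Function.Injective (A n : E →ₗ[ℝ] E) := hinj n (by omega)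
    have hc := hcomm n (by omega)
    have hsur : Function.Surjective (A n : E →ₗ[ℝ] E) := LinearMap.injective_iff_surjective.1 hi
    have e : LinearMap.range (P (n + 1) : E →ₗ[ℝ] E) =
        (LinearMap.range (P n : E →ₗ[ℝ] E)).map (A n : E →ₗ[ℝ] E) := by
      ext v
      constructor
      · rintro ⟨w, rfl⟩
        obtain ⟨z, rfl⟩ := hsur w
        refine ⟨P n z, ⟨z, rfl⟩, ?_⟩
        exact DFunLike.congr_fun hc z
      · rintro ⟨w, ⟨z, rfl⟩, rfl⟩
        refine ⟨A n z, ?_⟩
        exact (DFunLike.congr_fun hc z).symm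
    rw [e]
    exact (Submodule.equivMapOfInjective _ hi _).finrank_eq.symm

theorem dims {A P : ℕ → E →L[ℝ] E} {N s w : ℕ} (hinj : ∀ i < N, Function.Injective (A i))
    (hcomm : ∀ i < N, A i * P i = P (i + 1) * A i) (hproj : ∀ v, P N (P N v) = P N v)
    {βs : E →L[ℝ] (Fin s → ℝ)} {βu : E →L[ℝ] (Fin w → ℝ)}
    (h1 : ∀ v, βs v = 0 ↔ P 0 v = 0) (hs1 : Function.Surjective βs)
    (h2 : ∀ v, βu v = 0 ↔ P N v = v) (hs2 : Function.Surjective βu) :
    s + w = Module.finrank ℝ E := by
  have a1 := LinearMap.finrank_range_add_finrank_ker (βs : E →ₗ[ℝ] (Fin s → ℝ))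
  have a2 := LinearMap.finrank_range_add_finrank_ker (βu : E →ₗ[ℝ] (Fin w → ℝ))
  have a3 := LinearMap.finrank_range_add_finrank_ker (P 0 : E →ₗ[ℝ] E)
  have b1 : LinearMap.range (βs : E →ₗ[ℝ] (Fin s → ℝ)) = ⊤ := LinearMap.range_eq_top.2 hs1
  have b2 : LinearMap.range (βu : E →ₗ[ℝ] (Fin w → ℝ)) = ⊤ := LinearMap.range_eq_top.2 hs2
  have b3 : LinearMap.ker (βs : E →ₗ[ℝ] (Fin s → ℝ)) = LinearMap.ker (P 0 : E →ₗ[ℝ] E) := by
    ext v
    rw [LinearMap.mem_ker, LinearMap.mem_ker]
    exact h1 v
  have b4 : LinearMap.ker (βu : E →ₗ[ℝ] (Fin w → ℝ)) = LinearMap.range (P N : E →ₗ[ℝ] E) := by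
    ext v
    rw [LinearMap.mem_ker]
    constructor
    · intro hv
      exact ⟨v, (h2 v).1 hv⟩
    · rintro ⟨z, rfl⟩
      exact (h2 _).2 (hproj z)
  have b5 := rank_eq hinj hcomm N le_rfl
  rw [b1, finrank_top, Module.finrank_fintype_fun_eq_card, Fintype.card_fin, b3] at a1
  rw [b2, finrank_top, Module.finrank_fintype_fun_eq_card, Fintype.card_fin, b4, b5] at a2
  omega

theorem box_eq (N : ℕ) (D : ℕ → Set E) :
    Box N D = Set.pi Set.univ (fun i : Fin (N + 1) => D i) := by
  ext y
  unfold Box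
  rw [Set.mem_setOf_eq, Set.mem_univ_pi]

theorem box_open {N : ℕ} {D : ℕ → Set E} (h : ∀ i ≤ N, IsOpen (D i)) : IsOpen (Box N D) := by
  rw [box_eq]
  exact isOpen_set_pi Set.finite_univ fun i _ => h i (Nat.le_of_lt_succ i.2)

theorem box_cl {N : ℕ} {D : ℕ → Set E} {y : Fin (N + 1) → E} (h : y ∈ closure (Box N D))
    (i : Fin (N + 1)) : y i ∈ closure (D i) := by
  rw [box_eq, closure_pi_set] at h
  exact Set.mem_univ_pi.1 h i

theorem box_bdd {N : ℕ} {D : ℕ → Set E} (h : ∀ i ≤ N, Bornology.IsBounded (D i)) :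
    Bornology.IsBounded (Box N D) := by
  rw [box_eq]
  exact Bornology.IsBounded.pi fun i => h i (Nat.le_of_lt_succ i.2)

/-- an extension of a finite sequence -/
theorem ext_seq {N : ℕ} (x : Fin (N + 1) → E) : ∃ y : ℕ → E, ∀ i : Fin (N + 1), y i = x i := by
  refine ⟨fun i => if h : i < N + 1 then x ⟨i, h⟩ else 0, fun i => ?_⟩
  exact dif_pos i.2

theorem bij_of {N s w : ℕ} {L : (Fin (N + 1) → E) →L[ℝ] ((Fin N → E) × (Fin s → ℝ) × (Fin w → ℝ))}
    (hinj : Function.Injective L) (hdim : s + w = Module.finrank ℝ E) : Function.Bijective L := by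
  refine ⟨hinj, ?_⟩
  have e : Module.finrank ℝ (Fin (N + 1) → E) =
      Module.finrank ℝ ((Fin N → E) × (Fin s → ℝ) × (Fin w → ℝ)) := by
    rw [Module.finrank_prod, Module.finrank_prod, Module.finrank_fintype_fun_eq_card,
      Module.finrank_fintype_fun_eq_card, Fintype.card_fin, Fintype.card_fin,
      Module.finrank_pi_fintype, Module.finrank_pi_fintype, Finset.sum_const, Finset.sum_const,
      Finset.card_univ, Finset.card_univ, Fintype.card_fin, Fintype.card_fin, ← hdim]
    simp only [smul_eq_mul]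
    ring
  exact (LinearMap.injective_iff_surjective_of_finrank_eq_finrank
    (f := (L : (Fin (N + 1) → E) →ₗ[ℝ] ((Fin N → E) × (Fin s → ℝ) × (Fin w → ℝ)))) e).1 hinj

end lin

end NFULL

open NFULL in
theorem t_FULL (h5 : S_A5.{u}) (hd : S_DER.{u}) (hh : S_HYP.{u, v, w}) (hx : S_CHX.{u, v, w}) :
    S_FULL.{u, v, w} := by
  intro E _ _ _ M _ _ _ _ F _ _ e f g k Es Eu π π' t ρ R ρ₀ κf κ0 K l Cs r ε1 ε2 η2 hc η1 hη1 hη12
    a N hN hU j hj s w B C hB hB' hC hC'
  obtain ⟨C₁, a₁, b₁, Ls, Lu, hA⟩ := hc.fc.hf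
  have he := hc.fc.he
  have hinj := hc.fc.hinj
  have hπ := hc.fc.hπ
  have hCH := (hx E M F e f g k Es Eu π π' t ρ R ρ₀ κf κ0 K l Cs r ε1 ε2 η2 hc a j hj).2 η1 hη1
    hη12 N hN
  -- the orbit
  have hgw : ∀ i, Gw t ρ (j i) (f^[i] a) := fun i => hc.kgd _ _ (hj i)
  have hsrc : ∀ i, f^[i] a ∈ (ps E (j i)).source := fun i =>
    hc.fc.ch.src _ (hgw i).1 _ (hgw i).2
  set y₀ : ℕ → E := fun i => ps E (j i) (f^[i] a) with hy₀
  have htgt : ∀ i, y₀ i ∈ (ps E (j i)).target := fun i => (ps E (j i)).map_source (hsrc i)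
  have hsymm : ∀ i, (ps E (j i)).symm (y₀ i) = f^[i] a := fun i => (ps E (j i)).left_inv (hsrc i)
  have hstep : ∀ i, f ((ps E (j i)).symm (y₀ i)) = f^[i + 1] a := fun i => by
    rw [hsymm i, Function.iterate_succ_apply']
  have hstep' : ∀ i, f ((ps E (j i)).symm (y₀ i)) ∈ (ps E (j (i + 1))).source := fun i => by
    rw [hstep i]
    exact hsrc (i + 1)
  have hrep : ∀ i, rep f (j i) (j (i + 1)) (y₀ i) = y₀ (i + 1) := fun i => by
    show ps E (j (i + 1)) (f ((ps E (j i)).symm (y₀ i))) = y₀ (i + 1)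
    rw [hstep i]
  -- the orbit of the centres
  have hz : ∀ i, g (k (f^[i] a)) = k (f^[i + 1] a) := fun i => by
    rw [Function.iterate_succ_apply', hc.kf]
  have hgd : ∀ i, Gd t ρ (j (i + 1)) (g (k (f^[i] a))) := fun i => by
    rw [hz i]
    exact hj (i + 1)
  set D : ℕ → Set E := Dx E f k a j r η1 N with hD
  have hD0 : D 0 = ball (y₀ 0) η1 := by
    rw [hD]
    unfold Dx
    rw [if_pos rfl]
    rfl
  have hDN : D N = ball (y₀ N) η1 := by
    rw [hD]
    unfold Dx
    rw [if_neg hN.ne', if_pos rfl]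
  have hclD : ∀ i ≤ N, closure (D i) ⊆ closedBall (cx E f k a j i) r := fun i hi =>
    closure_minimal (hCH.sub i hi) isClosed_closedBall
  -- the derivative
  set A : ℕ → E →L[ℝ] E := fun i => fderiv ℝ (Fx E f j i) (y₀ i) with hAd
  set P : ℕ → E →L[ℝ] E := fun i => Pj π (j i) (y₀ i) with hPd
  have hAinj : ∀ i < N, Function.Injective (A i) := fun i _ =>
    rep_inj he hinj hA (htgt i) (hstep' i)
  have hcomm : ∀ i < N, A i * P i = P (i + 1) * A i := fun i _ => by
    have h1 := Pj_inv he hinj hA hπ (htgt i) (hstep' i)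
    rw [hrep i] at h1
    exact h1
  have hproj : ∀ i v, P i (P i v) = P i v := fun i v => Pj_proj he hinj hπ (htgt i) v
  have hdim : s + w = Module.finrank ℝ E := dims hAinj hcomm (hproj N) hB hB' hC hC'
  set L := BvpD N A B C with hL
  have hL1 : ∀ v, L v = (fun i : Fin N => v i.succ - A i (v i.castSucc), B (v 0),
      C (v (Fin.last N))) := fun v => rfl
  -- injectivity
  have hLinj : Function.Injective L := by
    rw [injective_iff_map_eq_zero]
    intro v hv
    rw [hL1] at hv
    have e1 := congrArg Prod.fst hv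
    have e2 : B (v 0) = 0 := congrArg (fun q => q.2.1) hv
    have e3 : C (v (Fin.last N)) = 0 := congrArg (fun q => q.2.2) hv
    have k1 : ∀ i : Fin N, v i.succ = A i (v i.castSucc) := by
      intro i
      have := congrFun e1 i
      exact sub_eq_zero.1 this
    obtain ⟨V, hV⟩ := ext_seq v
    have hV1 : ∀ i < N, V (i + 1) = A i (V i) := by
      intro i hi
      have h1 := k1 ⟨i, hi⟩
      rw [← hV, ← hV] at h1
      exact h1
    obtain ⟨δ, hδ, hyp⟩ := hh E M F e he hinj f Es Eu C₁ a₁ b₁ Ls Lu hA π hπ t ρ R ρ₀ hc.fc.ch s w a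
      (f^[N] a) (j 0) (j N) B C (hgw 0) (hgw N) hB hC
    obtain ⟨-, -, hyp⟩ := hyp B C (by rw [sub_self, norm_zero]; exact hδ)
      (by rw [sub_self, norm_zero]; exact hδ)
    have h2 := hyp N j y₀ (fun i _ => (hj i).1) rfl rfl
      (fun i _ => ⟨f^[i] a, hgw i, mem_closedBall_self hc.fc.ch.R_pos.le⟩)
      (fun i _ => hstep' i) (fun i _ => (hrep i).symm)
      (by
        show dist (y₀ 0) (y₀ 0) < δ
        rw [dist_self]; exact hδ)
      (by
        show dist (y₀ N) (y₀ N) < δ
        rw [dist_self]; exact hδ)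
      1 ⟨zero_le_one, le_rfl⟩ (fun i => P i (V i)) (fun i => V i - P i (V i))
      (fun i _ => hproj i (V i))
      (fun i _ => by
        show P i (V i - P i (V i)) = 0
        rw [map_sub, hproj i, sub_self])
      (fun i hi => by
        show P (i + 1) (V (i + 1)) = (1 : ℝ) • A i (P i (V i))
        rw [one_smul, hV1 i hi]
        exact (DFunLike.congr_fun (hcomm i hi) (V i)).symm)
      (fun i hi => by
        show A i (V i - P i (V i)) = (1 : ℝ) • (V (i + 1) - P (i + 1) (V (i + 1)))
        rw [one_smul, hV1 i hi, map_sub]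
        congr 1
        exact DFunLike.congr_fun (hcomm i hi) (V i))
      (by
        show B (P 0 (V 0) + (1 : ℝ) • (V 0 - P 0 (V 0))) = 0
        rw [one_smul, add_sub_cancel]
        have := hV 0
        rw [show ((0 : Fin (N + 1)) : ℕ) = 0 from rfl] at this
        rw [this]
        exact e2)
      (by
        show C ((1 : ℝ) • P N (V N) + (V N - P N (V N))) = 0
        rw [one_smul, add_sub_cancel]
        have := hV (Fin.last N)
        rw [Fin.val_last] at this
        rw [this]
        exact e3)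
    funext i
    obtain ⟨h3, h4⟩ := h2 i (Nat.le_of_lt_succ i.2)
    have h5 : V i = P i (V i) + (V i - P i (V i)) := by rw [add_sub_cancel]
    rw [← hV i, h5]
    show P i (V i) + (V i - P i (V i)) = 0
    rw [h4, h3, add_zero]
  have hbij : Function.Bijective L := bij_of hLinj hdim
  unfold FD
  refine h5 _ _ _ _ (fun i : Fin (N + 1) => y₀ i) L (box_open hCH.op) (box_bdd fun i hi =>
    isBounded_closedBall.subset (hCH.sub i hi)) ?_ ?_ ?_ ?_ ?_ hbij
  · -- continuity
    refine ContinuousOn.prodMk ?_ (ContinuousOn.prodMk ?_ ?_)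
    · refine continuousOn_pi.2 fun i => ?_
      have g1 : Continuous (fun y : Fin (N + 1) → E => y i.succ) := continuous_apply _
      have g2 : Continuous (fun y : Fin (N + 1) → E => y i.castSucc) := continuous_apply _
      refine g1.continuousOn.sub ?_
      refine (hCH.cont i i.2).comp g2.continuousOn ?_
      intro y hy
      have h1 := box_cl hy i.castSucc
      exact hclD i i.2.le h1
    · exact (B.continuous.comp ((continuous_apply (0 : Fin (N + 1))).sub
        continuous_const)).continuousOn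
    · exact (C.continuous.comp ((continuous_apply (Fin.last N)).sub
        continuous_const)).continuousOn
  · -- the orbit is in the box
    intro i
    show y₀ i ∈ Dx E f k a j r η1 N i
    unfold Dx
    split_ifs with h0 h1
    · rw [h0]
      exact mem_ball_self hη1
    · rw [h1]
      exact mem_ball_self hη1
    · exact hc.kr _ _ (hj i)
  · -- the orbit is a zero
    refine Prod.ext ?_ (Prod.ext ?_ ?_)
    · funext i
      show y₀ (i + 1) - rep f (j i) (j (i + 1)) (y₀ i) = 0
      rw [hrep i, sub_self]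
    · show B (y₀ 0 - y₀ 0) = 0
      rw [sub_self, map_zero]
    · show C (y₀ N - y₀ N) = 0
      rw [sub_self, map_zero]
  · -- uniqueness
    intro x hx1 hx2
    have e1 := congrArg Prod.fst hx2
    have e2 : B (x 0 - ps E (j 0) a) = 0 := congrArg (fun q => q.2.1) hx2
    have e3 : C (x (Fin.last N) - ps E (j N) (f^[N] a)) = 0 := congrArg (fun q => q.2.2) hx2
    have k1 : ∀ i : Fin N, x i.succ = rep f (j i) (j (i + 1)) (x i.castSucc) := by
      intro i
      have := congrFun e1 i
      exact sub_eq_zero.1 this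
    obtain ⟨Y, hY⟩ := ext_seq x
    have hY1 : ∀ i < N, Y (i + 1) = rep f (j i) (j (i + 1)) (Y i) := by
      intro i hi
      have h1 := k1 ⟨i, hi⟩
      rw [← hY, ← hY] at h1
      exact h1
    have hYD : ∀ i ≤ N, Y i ∈ closure (D i) := by
      intro i hi
      have h1 := box_cl hx1 ⟨i, Nat.lt_succ_of_le hi⟩
      rw [← hY] at h1
      exact h1
    have hYb : ∀ i ≤ N, Y i ∈ closedBall (ps E (j i) (k (f^[i] a))) r := fun i hi =>
      hclD i hi (hYD i hi)
    have hYt : ∀ i ≤ N, Y i ∈ (ps E (j i)).target ∧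
        f ((ps E (j i)).symm (Y i)) ∈ (ps E (j (i + 1))).source := by
      intro i hi
      have h1 := hc.step _ _ _ (hj i) (hgd i) (Y i) (hYb i hi)
      exact ⟨h1.1, h1.2.1⟩
    set p : M := (ps E (j 0)).symm (Y 0) with hp
    have hpi : ∀ i ≤ N, f^[i] p = (ps E (j i)).symm (Y i) := by
      intro i
      induction i with
      | zero => intro _; rfl
      | succ i ih =>
        intro hi
        rw [Function.iterate_succ_apply', ih (by omega), hY1 i (by omega)]
        show _ = (ps E (j (i + 1))).symm (ps E (j (i + 1)) (f ((ps E (j i)).symm (Y i))))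
        rw [(ps E (j (i + 1))).left_inv (hYt i (by omega)).2]
    have hYp : ∀ i ≤ N, ps E (j i) (f^[i] p) = Y i := by
      intro i hi
      rw [hpi i hi]
      exact (ps E (j i)).right_inv (hYt i hi).1
    have hps : ∀ i ≤ N, f^[i] p ∈ (ps E (j i)).source := by
      intro i hi
      rw [hpi i hi]
      exact (ps E (j i)).map_target (hYt i hi).1
    have hd1 : ∀ n ≤ N, dist (f^[n] p) (f^[n] a) ≤ κ0 := by
      intro n hn
      have h1 := hc.tube _ _ (hj n) (Y n) (hYb n hn)
      have h2 := hc.tube _ _ (hj n) (y₀ n) (by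
        rw [mem_closedBall]
        have h3 := hc.kr _ _ (hj n)
        have h4 := hc.r_pos
        show dist (ps E (j n) (f^[n] a)) (ps E (j n) (k (f^[n] a))) ≤ r
        linarith)
      rw [← hpi n hn] at h1
      rw [hsymm n] at h2
      have h3 := dist_triangle_right (f^[n] p) (f^[n] a) (k (f^[n] a))
      linarith
    have hp0 : ps E (j 0) p = Y 0 := hYp 0 (Nat.zero_le _)
    have hx0 : Y 0 = x 0 := hY 0
    have hxN : Y N = x (Fin.last N) := by
      have := hY (Fin.last N)
      rwa [Fin.val_last] at this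
    have hpa : p = a := by
      refine hU (j 0) (j N) p (hgw 0) (hgw N) (hps 0 (Nat.zero_le _)) (hps N le_rfl) ?_ ?_ ?_ ?_ hd1
      · rw [hp0]
        have h1 := hYD 0 (Nat.zero_le _)
        rw [hD0] at h1
        exact closure_ball_subset_closedBall h1
      · rw [hYp N le_rfl]
        have h1 := hYD N le_rfl
        rw [hDN] at h1
        exact closure_ball_subset_closedBall h1
      · rw [hp0, hx0]
        exact (hB _).1 e2
      · rw [hYp N le_rfl, hxN]
        exact (hC _).1 e3
    funext i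
    rw [← hY i, ← hYp i (Nat.le_of_lt_succ i.2), hpa]
  · -- the derivative
    refine hd E s w N (Fx E f j) _ _ y₀ B C ?_ ?_ ?_
    · intro i _
      exact (rep_contDiffAt hA.smooth (htgt i) (hstep' i)).differentiableAt (by norm_num)
    · have g1 : HasFDerivAt (fun y : E => y - ps E (j 0) a) (ContinuousLinearMap.id ℝ E) (y₀ 0) :=
        (hasFDerivAt_id _).sub_const _
      exact HasFDerivAt.comp (g := B) (f := fun y : E => y - ps E (j 0) a) (y₀ 0) B.hasFDerivAt g1
    · have g1 : HasFDerivAt (fun y : E => y - ps E (j N) (f^[N] a)) (ContinuousLinearMap.id ℝ E)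
          (y₀ N) := (hasFDerivAt_id _).sub_const _
      exact HasFDerivAt.comp (g := C) (f := fun y : E => y - ps E (j N) (f^[N] a)) (y₀ N)
        C.hasFDerivAt g1

end Pool.Agent.H963.CJ
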