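import Pool.Agent.H963.CJ.MDef3

/-!
# The semiconjugacy is injective (INJ)
-/

set_option autoImplicit false
set_option linter.unusedSectionVars false

open Set Filter Topology Metric
open scoped Manifold ContDiff

namespace Pool.Agent.H963.CJ

open Pool.Agent.H721R2 Pool.Agent.H789R2.AN Pool.Agent.TH289 Pool.Agent.H244.Dyn
  Pool.Agent.H244.Loc

universe u v w

namespace NINJ

section lin

variable {E : Type u} [NormedAddCommGroup E] [NormedSpace ℝ E] [FiniteDimensional ℝ E]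

/-- a surjective operator with a given kernel -/
theorem exists_beta (Q : E →L[ℝ] E) {n : ℕ}
    (hn : Module.finrank ℝ (LinearMap.range (Q : E →ₗ[ℝ] E)) = n) :
    ∃ β : E →L[ℝ] (Fin n → ℝ), (∀ v, β v = 0 ↔ Q v = 0) ∧ Function.Surjective β := by
  obtain ⟨e⟩ : Nonempty ((LinearMap.range (Q : E →ₗ[ℝ] E)) ≃ₗ[ℝ] (Fin n → ℝ)) :=
    FiniteDimensional.nonempty_linearEquiv_of_finrank_eq (by rw [hn]; simp)
  refine ⟨LinearMap.toContinuousLinearMap
    (e.toLinearMap ∘ₗ (Q : E →ₗ[ℝ] E).rangeRestrict), ?_, ?_⟩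
  · intro v
    rw [LinearMap.coe_toContinuousLinearMap']
    show e ((Q : E →ₗ[ℝ] E).rangeRestrict v) = 0 ↔ Q v = 0
    rw [LinearEquiv.map_eq_zero_iff, ← Subtype.coe_inj]
    rfl
  · rw [LinearMap.coe_toContinuousLinearMap']
    exact e.surjective.comp (LinearMap.surjective_rangeRestrict _)

/-- the rank does not change under conjugation -/
theorem rank_eq {A Q Q' : E →L[ℝ] E} (hA : Function.Injective A) (h : A * Q = Q' * A) :
    Module.finrank ℝ (LinearMap.range (Q' : E →ₗ[ℝ] E)) =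
      Module.finrank ℝ (LinearMap.range (Q : E →ₗ[ℝ] E)) := by
  have hA' : Function.Injective (A : E →ₗ[ℝ] E) := hA
  have hs : Function.Surjective (A : E →ₗ[ℝ] E) := LinearMap.injective_iff_surjective.mp hA'
  have h1 : LinearMap.range (Q' : E →ₗ[ℝ] E) =
      (LinearMap.range (Q : E →ₗ[ℝ] E)).map (A : E →ₗ[ℝ] E) := by
    ext v
    constructor
    · rintro ⟨y, rfl⟩
      obtain ⟨x, rfl⟩ := hs y
      refine ⟨Q x, ⟨x, rfl⟩, ?_⟩
      exact DFunLike.congr_fun h x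
    · rintro ⟨_, ⟨x, rfl⟩, rfl⟩
      exact ⟨A x, (DFunLike.congr_fun h x).symm⟩
  rw [h1]
  exact (Submodule.equivMapOfInjective (A : E →ₗ[ℝ] E) hA' _).finrank_eq.symm

/-- the ranks are constant along a hyperbolic sequence -/
theorem GC_rank {A P : ℕ → E →L[ℝ] E} {K l : ℝ} (h : GC A P K l) (i : ℕ) :
    Module.finrank ℝ (LinearMap.range (P i : E →ₗ[ℝ] E)) =
      Module.finrank ℝ (LinearMap.range (P 0 : E →ₗ[ℝ] E)) ∧
    Module.finrank ℝ (LinearMap.range ((1 - P i : E →L[ℝ] E) : E →ₗ[ℝ] E)) =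
      Module.finrank ℝ (LinearMap.range ((1 - P 0 : E →L[ℝ] E) : E →ₗ[ℝ] E)) := by
  induction i with
  | zero => exact ⟨rfl, rfl⟩
  | succ i ih =>
    refine ⟨(rank_eq (h.inj i) (h.comm i)).trans ih.1, (rank_eq (h.inj i) ?_).trans ih.2⟩
    rw [mul_sub, sub_mul, mul_one, one_mul, h.comm i]

/-- correction of a boundary operator -/
theorem exists_B {Y : Type*} [NormedAddCommGroup Y] [NormedSpace ℝ Y] (B₀ : E →L[ℝ] Y) {v : E}
    (hv : v ≠ 0) {β : ℝ} (h : ‖B₀ v‖ ≤ β * ‖v‖) : ∃ B : E →L[ℝ] Y, ‖B - B₀‖ ≤ β ∧ B v = 0 := by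
  obtain ⟨g, hg, hgv⟩ := exists_dual_vector ℝ v (norm_ne_zero_iff.mpr hv)
  have hv0 : 0 < ‖v‖ := norm_pos_iff.mpr hv
  refine ⟨B₀ - (‖v‖⁻¹ • g).smulRight (B₀ v), ?_, ?_⟩
  · rw [sub_sub_cancel_left, norm_neg, ContinuousLinearMap.norm_smulRight_apply, norm_smul, hg,
      mul_one, norm_inv, norm_norm, inv_mul_le_iff₀ hv0, mul_comm]
    exact h
  · rw [sub_apply, ContinuousLinearMap.smulRight_apply,
      smul_apply, hgv]
    simp [hv0.ne']

/-- a boundary operator is small on vectors almost in the kernel of the projection -/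
theorem B_small {Y : Type*} [NormedAddCommGroup Y] [NormedSpace ℝ Y] (B₀ : E →L[ℝ] Y)
    {Qa : E →L[ℝ] E} (hidem : ∀ v, Qa (Qa v) = Qa v) (hker : ∀ v, Qa v = 0 → B₀ v = 0) {β : ℝ}
    (hβ : 0 < β) : ∃ α > 0, ∀ (Q : E →L[ℝ] E) (v : E), ‖Q - Qa‖ ≤ α → ‖Q v‖ ≤ α * ‖v‖ →
      ‖B₀ v‖ ≤ β * ‖v‖ := by
  refine ⟨β / (2 * (‖B₀‖ + 1)), by positivity, fun Q v h1 h2 => ?_⟩
  have h3 : B₀ v = B₀ (Qa v) := by
    have h4 : B₀ (v - Qa v) = 0 := hker _ (by rw [map_sub, hidem, sub_self])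
    rw [map_sub, sub_eq_zero] at h4
    exact h4
  have h5 : ‖Qa v‖ ≤ 2 * (β / (2 * (‖B₀‖ + 1))) * ‖v‖ := by
    have h6 : Qa v = Q v - (Q - Qa) v := by
      rw [sub_apply]; abel
    rw [h6]
    calc ‖Q v - (Q - Qa) v‖ ≤ ‖Q v‖ + ‖(Q - Qa) v‖ := norm_sub_le _ _
      _ ≤ β / (2 * (‖B₀‖ + 1)) * ‖v‖ + β / (2 * (‖B₀‖ + 1)) * ‖v‖ :=
          add_le_add h2 (((Q - Qa).le_opNorm v).trans
            (mul_le_mul_of_nonneg_right h1 (norm_nonneg v)))
      _ = 2 * (β / (2 * (‖B₀‖ + 1))) * ‖v‖ := by ring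
  rw [h3]
  calc ‖B₀ (Qa v)‖ ≤ ‖B₀‖ * ‖Qa v‖ := B₀.le_opNorm _
    _ ≤ (‖B₀‖ + 1) * (2 * (β / (2 * (‖B₀‖ + 1))) * ‖v‖) := by
        refine mul_le_mul (by linarith) h5 (norm_nonneg _) (by positivity)
    _ = β * ‖v‖ := by
        field_simp

end lin

section man

variable {E : Type u} [NormedAddCommGroup E] [NormedSpace ℝ E] [FiniteDimensional ℝ E]
  {M : Type v} [MetricSpace M] [CompactSpace M] [ChartedSpace E M] [IsManifold 𝓘(ℝ, E) 1 M]
  {F : Type w} [NormedAddCommGroup F] [NormedSpace ℝ F] {e : M → F}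
  {f g : M ≃ₜ M} {k : M → M} {Es Eu : M → Submodule ℝ E} {π π' : M → E →L[ℝ] E} {t : Finset M}
  {ρ : M → ℝ} {R ρ₀ κf κ0 K l Cs r ε1 ε2 η2 : ℝ}

theorem src (H : Ctx E e f g k Es Eu π π' t ρ R ρ₀ κf κ0 K l Cs r ε1 ε2 η2) {z j : M}
    (h : Gd t ρ j (k z)) : z ∈ (ps E j).source :=
  H.fc.ch.src j h.1 z (H.kgd z j h).2

theorem k_iter (H : Ctx E e f g k Es Eu π π' t ρ R ρ₀ κf κ0 K l Cs r ε1 ε2 η2) (x : M) (i : ℕ) :
    k (f^[i + 1] x) = g (k (f^[i] x)) := by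
  rw [Function.iterate_succ_apply', H.kf]

/-- orbit segments in the tube are orbits of points -/
theorem tub (H : Ctx E e f g k Es Eu π π' t ρ R ρ₀ κf κ0 K l Cs r ε1 ε2 η2) {x : M} {j : ℕ → M}
    {L : ℕ} (hj : ∀ i, Gd t ρ (j i) (k (f^[i] x))) {y : ℕ → E}
    (hy : ∀ i ≤ L, y i ∈ closedBall (cx E f k x j i) r)
    (hs : ∀ i < L, y (i + 1) = Fx E f j i (y i)) (i : ℕ) (hi : i ≤ L) :
    f^[i] ((ps E (j 0)).symm (y 0)) = (ps E (j i)).symm (y i) ∧ y i ∈ (ps E (j i)).target ∧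
      dist (f^[i] ((ps E (j 0)).symm (y 0))) (f^[i] x) ≤ κ0 := by
  have hstep : ∀ i ≤ L, y i ∈ (ps E (j i)).target ∧
      f ((ps E (j i)).symm (y i)) ∈ (ps E (j (i + 1))).source := by
    intro i hi
    have h1 := H.step (k (f^[i] x)) (j i) (j (i + 1)) (hj i)
      (by rw [← k_iter H]; exact hj (i + 1)) (y i) (hy i hi)
    exact ⟨h1.1, h1.2.1⟩
  have h1 : ∀ i ≤ L, f^[i] ((ps E (j 0)).symm (y 0)) = (ps E (j i)).symm (y i) := by
    intro i
    induction i with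
    | zero => intro _; rfl
    | succ i ih =>
      intro hi
      rw [Function.iterate_succ_apply', ih (by omega), hs i (by omega)]
      exact ((ps E (j (i + 1))).left_inv (hstep i (by omega)).2).symm
  refine ⟨h1 i hi, (hstep i hi).1, ?_⟩
  rw [h1 i hi]
  have h2 := H.tube (k (f^[i] x)) (j i) (hj i) (y i) (hy i hi)
  have h3 : dist (f^[i] x) (k (f^[i] x)) ≤ κ0 / 2 := by
    have h4 := H.tube (k (f^[i] x)) (j i) (hj i) (ps E (j i) (f^[i] x)) (by
      rw [mem_closedBall]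
      have := H.kr (f^[i] x) (j i) (hj i)
      have := H.r_pos
      linarith)
    rwa [(ps E (j i)).left_inv (src H (hj i))] at h4
  calc dist ((ps E (j i)).symm (y i)) (f^[i] x)
      ≤ dist ((ps E (j i)).symm (y i)) (k (f^[i] x)) + dist (k (f^[i] x)) (f^[i] x) :=
        dist_triangle _ _ _
    _ ≤ κ0 / 2 + κ0 / 2 := by
        rw [dist_comm (k (f^[i] x))]
        exact add_le_add h2 h3
    _ = κ0 := by ring

/-- continuity of the projections and of the charts -/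
theorem P_tendsto (H : Ctx E e f g k Es Eu π π' t ρ R ρ₀ κf κ0 K l Cs r ε1 ε2 η2) {a j : M}
    (h : Gw t ρ j a) : ContinuousAt (ps E j) a ∧
      ContinuousAt (fun z => Pj π j (ps E j z)) a := by
  have hsrc := H.fc.ch.src j h.1 a h.2
  have h1 : ContinuousAt (ps E j) a := continuousAt_extChartAt' (by simpa using hsrc)
  refine ⟨h1, ?_⟩
  obtain ⟨C, a', b', Ls, Lu, hA⟩ := H.fc.hf
  have hc : ContinuousOn (Pj π j) (closedBall (ps E j a) R) :=
    Pool.Agent.H244.Loc.Pj_cont H.fc.he H.fc.hinj hA H.fc.hπ (H.fc.ch.tgt j h.1 a h.2)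
      (isCompact_closedBall _ _)
  have h2 : ContinuousAt (Pj π j) (ps E j a) :=
    hc.continuousAt (closedBall_mem_nhds _ H.fc.ch.R_pos)
  exact ContinuousAt.comp (f := ps E j) h2 h1

theorem P_idem (H : Ctx E e f g k Es Eu π π' t ρ R ρ₀ κf κ0 K l Cs r ε1 ε2 η2) {a j : M}
    (h : Gw t ρ j a) (v : E) :
    Pj π j (ps E j a) (Pj π j (ps E j a) v) = Pj π j (ps E j a) v := by
  have hsrc := H.fc.ch.src j h.1 a h.2
  exact Pj_proj H.fc.he H.fc.hinj H.fc.hπ ((ps E j).map_source hsrc) v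

/-- one end of the orbit segments -/
theorem end0 (H : Ctx E e f g k Es Eu π π' t ρ R ρ₀ κf κ0 K l Cs r ε1 ε2 η2) (z z' : ℕ → M)
    (hne : ∀ n, z' n ≠ z n) (hk : ∀ n, k (z' n) = k (z n))
    (hd : ∀ ε > 0, ∃ N : ℕ, ∀ n ≥ N, dist (z' n) (z n) < ε)
    (hcl : ∀ a, MapClusterPt a atTop z → Sg k a)
    (T : (E →L[ℝ] E) → (E →L[ℝ] E)) (hT : Continuous T)
    (hTi : ∀ P : E →L[ℝ] E, (∀ v, P (P v) = P v) → ∀ v, T P (T P v) = T P v)
    (hcone : ∀ α > 0, ∃ N : ℕ, ∀ n ≥ N, ∀ j, Gw t ρ j (z n) →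
      ‖T (Pj π j (ps E j (z n))) (ps E j (z' n) - ps E j (z n))‖ ≤
        α * ‖ps E j (z' n) - ps E j (z n)‖) :
    ∃ a ja, Gw t ρ ja a ∧ Sg k a ∧ ∀ (s : ℕ) (B₀ : E →L[ℝ] (Fin s → ℝ)),
      (∀ v, T (Pj π ja (ps E ja a)) v = 0 → B₀ v = 0) → ∀ δ > 0, ∀ n0 : ℕ, ∃ n ≥ n0,
        dist (z n) a < δ ∧ Gd t ρ ja (k (z n)) ∧ dist (ps E ja (z' n)) (ps E ja (z n)) < δ ∧
        ∃ B : E →L[ℝ] (Fin s → ℝ), ‖B - B₀‖ < δ ∧ B (ps E ja (z' n) - ps E ja (z n)) = 0 := by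
  obtain ⟨U, hU⟩ : ∃ U : Ultrafilter ℕ, (U : Filter ℕ) ≤ atTop :=
    ⟨hyperfilter ℕ, Nat.hyperfilter_le_atTop⟩
  obtain ⟨a, -, ha⟩ := isCompact_univ.ultrafilter_le_nhds (U.map z) (by simp)
  have hta : Tendsto z U (𝓝 a) := ha
  have hta' : Tendsto z' U (𝓝 a) := by
    refine tendsto_iff_dist_tendsto_zero.mpr ?_
    have h1 : Tendsto (fun n => dist (z' n) (z n)) U (𝓝 0) := by
      rw [Metric.tendsto_nhds]
      intro ε hε
      obtain ⟨N, hN⟩ := hd ε hε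
      filter_upwards [hU (eventually_ge_atTop N)] with n hn
      rw [Real.dist_eq, sub_zero, abs_of_nonneg dist_nonneg]
      exact hN n hn
    have h2 := h1.add (tendsto_iff_dist_tendsto_zero.mp hta)
    rw [add_zero] at h2
    exact squeeze_zero (fun n => dist_nonneg) (fun n => dist_triangle _ (z n) _) h2
  obtain ⟨ja, hjt, hj⟩ : ∃ ja ∈ t, ∀ᶠ n in (U : Filter ℕ), Gd t ρ ja (k (z n)) := by
    have h1 : (⋃ j ∈ (t : Set M), {n | Gd t ρ j (k (z n))}) ∈ U := by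
      have h2 : (⋃ j ∈ (t : Set M), {n | Gd t ρ j (k (z n))}) = Set.univ := by
        rw [Set.eq_univ_iff_forall]
        intro n
        obtain ⟨j, hj, hd⟩ := H.fc.ch.cover (k (z n))
        exact Set.mem_biUnion (x := j) hj ⟨hj, hd⟩
      rw [h2]
      exact Filter.univ_mem
    exact (Ultrafilter.finite_biUnion_mem_iff t.finite_toSet).mp h1
  have hGd : Gd t ρ ja (k a) := by
    refine ⟨hjt, ?_⟩
    have h1 : Tendsto (fun n => dist (k (z n)) ja) U (𝓝 (dist (k a) ja)) :=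
      ((H.fc.kk.cont.tendsto a).comp hta).dist tendsto_const_nhds
    exact le_of_tendsto h1 (hj.mono fun n hn => hn.2)
  have hGw : Gw t ρ ja a := H.kgd a ja hGd
  have hSg : Sg k a := by
    refine hcl a ?_
    have h1 : (𝓝 a ⊓ map z atTop).NeBot := by
      refine NeBot.mono (U.map z).neBot ?_
      exact le_inf ha (map_mono hU)
    exact h1
  obtain ⟨hc1, hc2⟩ := P_tendsto H hGw
  refine ⟨a, ja, hGw, hSg, fun s B₀ hB₀ δ hδ n0 => ?_⟩
  obtain ⟨α, hα, hsmall⟩ := B_small B₀ (hTi _ (P_idem H hGw)) hB₀ (half_pos hδ)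
  obtain ⟨N1, hN1⟩ := hcone α hα
  have ev1 : ∀ᶠ n in (U : Filter ℕ), dist (z n) a < δ := Metric.tendsto_nhds.mp hta δ hδ
  have ev2 : ∀ᶠ n in (U : Filter ℕ), dist (ps E ja (z' n)) (ps E ja (z n)) < δ := by
    have h1 : Tendsto (fun n => dist (ps E ja (z' n)) (ps E ja (z n))) U
        (𝓝 (dist (ps E ja a) (ps E ja a))) :=
      (hc1.tendsto.comp hta').dist (hc1.tendsto.comp hta)
    rw [dist_self] at h1
    exact h1.eventually (gt_mem_nhds hδ)
  have ev3 : ∀ᶠ n in (U : Filter ℕ),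
      dist (T (Pj π ja (ps E ja (z n)))) (T (Pj π ja (ps E ja a))) < α := by
    have h1 : Tendsto (fun n => T (Pj π ja (ps E ja (z n)))) U
        (𝓝 (T (Pj π ja (ps E ja a)))) := (hT.tendsto _).comp (hc2.tendsto.comp hta)
    exact Metric.tendsto_nhds.mp h1 α hα
  have ev4 : ∀ᶠ n in (U : Filter ℕ), n0 ≤ n := hU (eventually_ge_atTop n0)
  have ev5 : ∀ᶠ n in (U : Filter ℕ), N1 ≤ n := hU (eventually_ge_atTop N1)
  obtain ⟨n, e1, e2, e3, e4, e5, e6⟩ := (ev4.and (ev5.and (ev1.and (ev2.and (ev3.and hj))))).exists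
  refine ⟨n, e1, e3, e6, e4, ?_⟩
  have hv : ps E ja (z' n) - ps E ja (z n) ≠ 0 := by
    intro h0
    rw [sub_eq_zero] at h0
    exact hne n ((ps E ja).injOn (src H (by rw [hk]; exact e6)) (src H e6) h0)
  have h1 : ‖B₀ (ps E ja (z' n) - ps E ja (z n))‖ ≤
      δ / 2 * ‖ps E ja (z' n) - ps E ja (z n)‖ := by
    refine hsmall (T (Pj π ja (ps E ja (z n)))) _ ?_ (hN1 n e2 ja (H.kgd _ _ e6))
    rw [← dist_eq_norm]
    exact e5.le
  obtain ⟨B, hB, hB0⟩ := exists_B B₀ hv h1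
  exact ⟨B, by linarith, hB0⟩

/-- the backward end -/
theorem endB (h1 : S_T1.{v}) (h2 : S_T2.{v}) (hc : S_CONE.{u, v, w})
    (H : Ctx E e f g k Es Eu π π' t ρ R ρ₀ κf κ0 K l Cs r ε1 ε2 η2) {x x' : M} (hx : x' ≠ x)
    (hk : k x' = k x) :
    ∃ a ja, Gw t ρ ja a ∧ Sg k a ∧ ∀ (s : ℕ) (B₀ : E →L[ℝ] (Fin s → ℝ)),
      (∀ v, Pj π ja (ps E ja a) v = 0 → B₀ v = 0) → ∀ δ > 0, ∀ n0 : ℕ, ∃ n ≥ n0,
        dist (f.symm^[n] x) a < δ ∧ Gd t ρ ja (k (f.symm^[n] x)) ∧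
        dist (ps E ja (f.symm^[n] x')) (ps E ja (f.symm^[n] x)) < δ ∧
        ∃ B : E →L[ℝ] (Fin s → ℝ), ‖B - B₀‖ < δ ∧
          B (ps E ja (f.symm^[n] x') - ps E ja (f.symm^[n] x)) = 0 := by
  obtain ⟨C, a', b', Ls, Lu, hA⟩ := H.fc.hf
  refine end0 H (fun n => f.symm^[n] x) (fun n => f.symm^[n] x') ?_ ?_ ?_ ?_ (fun P => P)
    continuous_id (fun P hP => hP) ?_
  · intro n h
    exact hx (f.symm.injective.iterate n h)
  · intro n
    induction n with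
    | zero => exact hk
    | succ n ih =>
      show k (f.symm^[n + 1] x') = k (f.symm^[n + 1] x)
      rw [Function.iterate_succ_apply', Function.iterate_succ_apply']
      exact H.fc.kk.bwd _ _ ih
  · intro ε hε
    obtain ⟨N, hN⟩ := h1 M f κf H.fc.taf k κ0 H.fc.kk x' x hk ε hε
    exact ⟨N, fun n hn => (hN n hn).2⟩
  · intro a ha
    exact h2 M f κf H.fc.taf k κ0 H.fc.kk x a (Or.inr ha)
  · intro α hα
    obtain ⟨κ1, hκ1, hcone⟩ := hc E M F e H.fc.he H.fc.hinj f Es Eu C a' b' Ls Lu hA π H.fc.hπ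
      t ρ R ρ₀ H.fc.ch α hα
    obtain ⟨N, hN⟩ := h1 M f κf H.fc.taf k κ0 H.fc.kk x' x hk κ1 hκ1
    refine ⟨N, fun n hn j hj => ?_⟩
    refine (hcone _ _ j hj).1 fun m => ?_
    rw [← Function.iterate_add_apply, ← Function.iterate_add_apply]
    exact (hN (m + n) (by omega)).2.le

/-- the forward end -/
theorem endF (h1 : S_T1.{v}) (h2 : S_T2.{v}) (hc : S_CONE.{u, v, w})
    (H : Ctx E e f g k Es Eu π π' t ρ R ρ₀ κf κ0 K l Cs r ε1 ε2 η2) {x x' : M} (hx : x' ≠ x)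
    (hk : k x' = k x) :
    ∃ a ja, Gw t ρ ja a ∧ Sg k a ∧ ∀ (s : ℕ) (B₀ : E →L[ℝ] (Fin s → ℝ)),
      (∀ v, Pj π ja (ps E ja a) v = v → B₀ v = 0) → ∀ δ > 0, ∀ n0 : ℕ, ∃ n ≥ n0,
        dist (f^[n] x) a < δ ∧ Gd t ρ ja (k (f^[n] x)) ∧
        dist (ps E ja (f^[n] x')) (ps E ja (f^[n] x)) < δ ∧
        ∃ B : E →L[ℝ] (Fin s → ℝ), ‖B - B₀‖ < δ ∧
          B (ps E ja (f^[n] x') - ps E ja (f^[n] x)) = 0 := by
  obtain ⟨C, a', b', Ls, Lu, hA⟩ := H.fc.hf
  have key := end0 H (fun n => f^[n] x) (fun n => f^[n] x') ?_ ?_ ?_ ?_ (fun P => 1 - P)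
    (continuous_const.sub continuous_id) ?_ ?_
  · obtain ⟨a, ja, h3, h4, h5⟩ := key
    refine ⟨a, ja, h3, h4, fun s B₀ hB₀ => h5 s B₀ fun v hv => hB₀ v ?_⟩
    rw [sub_apply, sub_eq_zero] at hv
    exact hv.symm
  · intro n h
    exact hx (f.injective.iterate n h)
  · intro n
    induction n with
    | zero => exact hk
    | succ n ih =>
      show k (f^[n + 1] x') = k (f^[n + 1] x)
      rw [Function.iterate_succ_apply', Function.iterate_succ_apply']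
      exact H.fc.kk.fwd _ _ ih
  · intro ε hε
    obtain ⟨N, hN⟩ := h1 M f κf H.fc.taf k κ0 H.fc.kk x' x hk ε hε
    exact ⟨N, fun n hn => (hN n hn).1⟩
  · intro a ha
    exact h2 M f κf H.fc.taf k κ0 H.fc.kk x a (Or.inl ha)
  · intro P hP v
    simp only [sub_apply, one_apply_eq_self, map_sub, hP]
    abel
  · intro α hα
    obtain ⟨κ1, hκ1, hcone⟩ := hc E M F e H.fc.he H.fc.hinj f Es Eu C a' b' Ls Lu hA π H.fc.hπ
      t ρ R ρ₀ H.fc.ch α hα
    obtain ⟨N, hN⟩ := h1 M f κf H.fc.taf k κ0 H.fc.kk x' x hk κ1 hκ1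
    refine ⟨N, fun n hn j hj => ?_⟩
    refine (hcone _ _ j hj).2 fun m => ?_
    rw [← Function.iterate_add_apply, ← Function.iterate_add_apply]
    exact (hN (m + n) (by omega)).1.le

theorem Dx_zero (x : M) (j : ℕ → M) (r η1 : ℝ) (N : ℕ) :
    Dx E f k x j r η1 N 0 = ball (ps E (j 0) x) η1 := by
  unfold Dx
  rw [if_pos rfl]

theorem Dx_last (x : M) (j : ℕ → M) (r η1 : ℝ) {N : ℕ} (hN : 0 < N) :
    Dx E f k x j r η1 N N = ball (ps E (j N) (f^[N] x)) η1 := by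
  unfold Dx
  rw [if_neg (by omega), if_pos rfl]

theorem Dx_mid (x : M) (j : ℕ → M) (r η1 : ℝ) {N i : ℕ} (h0 : i ≠ 0) (hN : i ≠ N) :
    Dx E f k x j r η1 N i = ball (cx E f k x j i) (r / 2) := by
  unfold Dx
  rw [if_neg h0, if_neg hN]

/-- the closed domains are in the tube -/
theorem in_tube (H : Ctx E e f g k Es Eu π π' t ρ R ρ₀ κf κ0 K l Cs r ε1 ε2 η2) {x : M}
    {j : ℕ → M} (hj : ∀ i, Gd t ρ (j i) (k (f^[i] x))) {η1 : ℝ} (hη2 : η1 ≤ η2) {N i : ℕ} {y : E}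
    (hy : y ∈ closure (Dx E f k x j r η1 N i)) : y ∈ closedBall (cx E f k x j i) r := by
  have hr := H.r_pos
  by_cases h0 : i = 0
  · subst h0
    rw [Dx_zero] at hy
    have h1 := (H.kb x (j 0) (hj 0) y
      (closedBall_subset_closedBall hη2 (closure_ball_subset_closedBall hy))).1
    rw [mem_closedBall]
    show dist y (ps E (j 0) (k x)) ≤ r
    linarith
  · by_cases hN : i = N
    · subst hN
      rw [Dx_last _ _ _ _ (by omega)] at hy
      have h1 := (H.kb (f^[i] x) (j i) (hj i) y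
        (closedBall_subset_closedBall hη2 (closure_ball_subset_closedBall hy))).1
      rw [mem_closedBall]
      show dist y (ps E (j i) (k (f^[i] x))) ≤ r
      linarith
    · rw [Dx_mid _ _ _ _ h0 hN] at hy
      exact closedBall_subset_closedBall (by linarith) (closure_ball_subset_closedBall hy)

/-- no solution of the left problem starts on the frontier -/
theorem exitL (H : Ctx E e f g k Es Eu π π' t ρ R ρ₀ κf κ0 K l Cs r ε1 ε2 η2) {x : M}
    {j : ℕ → M} (hj : ∀ i, Gd t ρ (j i) (k (f^[i] x))) {η1 : ℝ} (hη2 : η1 ≤ η2) {T N s : ℕ}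
    {B : E →L[ℝ] (Fin s → ℝ)}
    (hex : ∀ p ∈ (ps E (j 0)).source, dist (ps E (j 0) p) (ps E (j 0) x) = η1 →
      B (ps E (j 0) p - ps E (j 0) x) = 0 → ∃ n ≤ T, κ0 < dist (f^[n] p) (f^[n] x))
    (y : ℕ → E) (hy : ∀ i ≤ T, y i ∈ closure (Dx E f k x j r η1 N i))
    (hs : ∀ i < T, y (i + 1) = Fx E f j i (y i)) (hb : B (y 0 - ps E (j 0) x) = 0) :
    y 0 ∈ Dx E f k x j r η1 N 0 := by
  have h1 := hy 0 (Nat.zero_le _)
  rw [Dx_zero] at h1 ⊢
  have h2 := closure_ball_subset_closedBall h1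
  rw [mem_closedBall] at h2
  rw [mem_ball]
  rcases h2.lt_or_eq with h3 | h3
  · exact h3
  exfalso
  have key := tub H hj (fun i hi => in_tube H hj hη2 (hy i hi)) hs
  have hr := (ps E (j 0)).right_inv (key 0 (Nat.zero_le _)).2.1
  obtain ⟨n, hn, hlt⟩ := hex ((ps E (j 0)).symm (y 0))
    ((ps E (j 0)).map_target (key 0 (Nat.zero_le _)).2.1) (by rw [hr]; exact h3)
    (by rw [hr]; exact hb)
  exact absurd (key n hn).2.2 (not_le.mpr hlt)

theorem symm_iter (f : M ≃ₜ M) {n T : ℕ} (h : n ≤ T) (z : M) :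
    f.symm^[n] (f^[T] z) = f^[T - n] z := by
  have h1 : T = n + (T - n) := by omega
  conv_lhs => rw [h1, Function.iterate_add_apply]
  exact (Function.LeftInverse.iterate f.symm_apply_apply n) _

/-- no solution of the right problem ends on the frontier -/
theorem exitR (H : Ctx E e f g k Es Eu π π' t ρ R ρ₀ κf κ0 K l Cs r ε1 ε2 η2) {x : M}
    {j : ℕ → M} (hj : ∀ i, Gd t ρ (j i) (k (f^[i] x))) {η1 : ℝ} (hη2 : η1 ≤ η2)
    {L T N w : ℕ} (hL : 0 < L) (hN : N = L + T) (σ : ℕ → ℕ) (hσ : ∀ i, σ i = L + i)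
    {C : E →L[ℝ] (Fin w → ℝ)}
    (hex : ∀ p ∈ (ps E (j N)).source, dist (ps E (j N) p) (ps E (j N) (f^[N] x)) = η1 →
      C (ps E (j N) p - ps E (j N) (f^[N] x)) = 0 →
      ∃ n ≤ T, κ0 < dist (f.symm^[n] p) (f.symm^[n] (f^[N] x)))
    (y : ℕ → E) (hy : ∀ i ≤ T, y i ∈ closure (Dx E f k x j r η1 N (σ i)))
    (hs : ∀ i < T, y (i + 1) = Fx E f j (σ i) (y i))
    (hb : C (y T - ps E (j N) (f^[N] x)) = 0) : y T ∈ Dx E f k x j r η1 N N := by
  obtain rfl : σ = fun i => L + i := funext hσ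
  subst hN
  have h1 := hy T le_rfl
  simp only at h1
  rw [Dx_last _ _ _ _ (by omega)] at h1 ⊢
  have h2 := closure_ball_subset_closedBall h1
  rw [mem_closedBall] at h2
  rw [mem_ball]
  rcases h2.lt_or_eq with h3 | h3
  · exact h3
  exfalso
  have hit : ∀ i, f^[i] (f^[L] x) = f^[L + i] x := by
    intro i
    rw [← Function.iterate_add_apply, add_comm]
  have hj2 : ∀ i, Gd t ρ (j (L + i)) (k (f^[i] (f^[L] x))) := by
    intro i
    rw [hit]
    exact hj (L + i)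
  have key := tub H (x := f^[L] x) (j := fun i => j (L + i)) (L := T) hj2 (y := y) (by
    intro i hi
    have h4 := in_tube H hj hη2 (hy i hi)
    unfold cx at h4 ⊢
    rw [hit]
    exact h4) hs
  obtain ⟨k1, k2, -⟩ := key T le_rfl
  have hr := (ps E (j (L + T))).right_inv k2
  obtain ⟨n, hn, hlt⟩ := hex ((ps E (j (L + T))).symm (y T))
    ((ps E (j (L + T))).map_target k2) (by rw [hr]; exact h3) (by rw [hr]; exact hb)
  rw [← k1, ← hit, symm_iter f hn, symm_iter f hn] at hlt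
  exact absurd (key (T - n) (by omega)).2.2 (not_le.mpr hlt)

theorem LD_eq {x : M} {j : ℕ → M} {η1 : ℝ} {T N s w : ℕ} (hTN : T < N)
    (B : E →L[ℝ] (Fin s → ℝ)) (βu : E →L[ℝ] (Fin w → ℝ)) :
    adeg (Bvp T (Fx E f j) (fun y => B (y - ps E (j 0) x))
      (fun y => βu (Fx E f j T y - cx E f k x j (T + 1)))) (Box T (Dx E f k x j r η1 N)) =
      LD E f k x j r η1 T B βu := by
  unfold LD
  have h1 : Box T (Dx E f k x j r η1 N) = Box T (Dl E f k x j r η1) := by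
    ext y
    refine forall_congr' fun i => ?_
    have h2 : Dx E f k x j r η1 N i = Dl E f k x j r η1 i := by
      have hi : (i : ℕ) ≠ N := by
        have := i.2
        omega
      unfold Dx Dl
      rw [if_neg hi]
    rw [h2]
  rw [h1]

theorem RD_eq {x : M} {j : ℕ → M} {η1 : ℝ} {L T N s w : ℕ} (hL : 0 < L) (hN : N = L + T)
    (σ : ℕ → ℕ) (hσ : ∀ i, σ i = L + i) (βs : E →L[ℝ] (Fin s → ℝ)) (C : E →L[ℝ] (Fin w → ℝ)) :
    adeg (Bvp T (fun i => Fx E f j (σ i)) (fun y => βs (y - cx E f k x j (σ 0)))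
      (fun y => C (y - ps E (j N) (f^[N] x)))) (Box T (fun i => Dx E f k x j r η1 N (σ i))) =
      RD E f k (f^[L] x) (fun i => j (L + i)) r η1 T βs C := by
  obtain rfl : σ = fun i => L + i := funext hσ
  subst hN
  have hit : ∀ i, f^[i] (f^[L] x) = f^[L + i] x := by
    intro i
    rw [← Function.iterate_add_apply, add_comm]
  unfold RD
  have h1 : Box T (fun i => Dx E f k x j r η1 (L + T) (L + i)) =
      Box T (Dr E f k (f^[L] x) (fun i => j (L + i)) r η1 T) := by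
    ext y
    refine forall_congr' fun i => ?_
    have h2 : Dx E f k x j r η1 (L + T) (L + i) =
        Dr E f k (f^[L] x) (fun i => j (L + i)) r η1 T i := by
      unfold Dx Dr
      rw [if_neg (by omega)]
      by_cases hi : (i : ℕ) = T
      · rw [if_pos (by omega), if_pos hi, hit]
      · rw [if_neg (by omega), if_neg hi]
        unfold cx
        rw [hit]
    show y i ∈ Dx E f k x j r η1 (L + T) (L + i) ↔ _
    rw [h2]
  rw [h1]
  simp only [hit]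
  rfl

/-- the degree of the full problem is one -/
theorem deg_one (h3 : S_CUT3.{u}) (hx : S_CHX.{u, v, w}) (ha : S_ADM.{u})
    (H : Ctx E e f g k Es Eu π π' t ρ R ρ₀ κf κ0 K l Cs r ε1 ε2 η2) {η1 : ℝ} (hη : 0 < η1)
    (hη2 : η1 ≤ η2) {T n' T' N : ℕ} (hN : N = T + 1 + (n' + 1 + T')) {X : M} {j : ℕ → M}
    (hj : ∀ i, Gd t ρ (j i) (k (f^[i] X))) {s w : ℕ} {B : E →L[ℝ] (Fin s → ℝ)}
    {C : E →L[ℝ] (Fin w → ℝ)}
    (hexL : ∀ p ∈ (ps E (j 0)).source, dist (ps E (j 0) p) (ps E (j 0) X) = η1 →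
      B (ps E (j 0) p - ps E (j 0) X) = 0 → ∃ n ≤ T, κ0 < dist (f^[n] p) (f^[n] X))
    (hexR : ∀ p ∈ (ps E (j N)).source, dist (ps E (j N) p) (ps E (j N) (f^[N] X)) = η1 →
      C (ps E (j N) p - ps E (j N) (f^[N] X)) = 0 →
      ∃ n ≤ T', κ0 < dist (f.symm^[n] p) (f.symm^[n] (f^[N] X)))
    (hLD : ∀ (w' : ℕ) (βu : E →L[ℝ] (Fin w' → ℝ)),
      (∀ v, βu v = 0 ↔ Pj π' (j (T + 1)) (cx E f k X j (T + 1)) v = v) →
      Function.Surjective βu → LD E f k X j r η1 T B βu = 1)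
    (hRD : ∀ (s' : ℕ) (βs : E →L[ℝ] (Fin s' → ℝ)),
      (∀ v, βs v = 0 ↔ Pj π' (j (T + 1 + (n' + 1))) (cx E f k X j (T + 1 + (n' + 1))) v = 0) →
      Function.Surjective βs → RD E f k (f^[T + 1 + (n' + 1)] X)
        (fun i => j (T + 1 + (n' + 1) + i)) r η1 T' βs C = 1) :
    FD E f k X j r η1 N B C = 1 ∧
      Adm (Bvp N (Fx E f j) (fun y => B (y - ps E (j 0) X))
        (fun y => C (y - ps E (j N) (f^[N] X)))) (Box N (Dx E f k X j r η1 N)) := by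
  obtain ⟨hgc, hch⟩ := hx E M F e f g k Es Eu π π' t ρ R ρ₀ κf κ0 K l Cs r ε1 ε2 η2 H X j hj
  have hCH := hch η1 hη hη2 N (by omega)
  have hcB : Continuous (fun y : E => B (y - ps E (j 0) X)) :=
    B.continuous.comp (continuous_id.sub continuous_const)
  have hcC : Continuous (fun y : E => C (y - ps E (j N) (f^[N] X))) :=
    C.continuous.comp (continuous_id.sub continuous_const)
  constructor
  · -- the degree
    obtain ⟨s', hs'⟩ : ∃ s' : ℕ, s' = Module.finrank ℝ (LinearMap.range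
      ((Pj π' (j 0) (cx E f k X j 0) : E →L[ℝ] E) : E →ₗ[ℝ] E)) := ⟨_, rfl⟩
    obtain ⟨w', hw'⟩ : ∃ w' : ℕ, w' = Module.finrank ℝ (LinearMap.range
      ((1 - Pj π' (j 0) (cx E f k X j 0) : E →L[ℝ] E) : E →ₗ[ℝ] E)) := ⟨_, rfl⟩
    have hS : ∀ i, ∃ β : E →L[ℝ] (Fin s' → ℝ),
        (∀ v, β v = 0 ↔ Pj π' (j i) (cx E f k X j i) v = 0) ∧ Function.Surjective β := by
      intro i
      exact exists_beta _ ((GC_rank hgc i).1.trans hs'.symm)
    have hW : ∀ i, ∃ β : E →L[ℝ] (Fin w' → ℝ),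
        (∀ v, β v = 0 ↔ Pj π' (j i) (cx E f k X j i) v = v) ∧ Function.Surjective β := by
      intro i
      obtain ⟨β, hβ, hβs⟩ := exists_beta _ ((GC_rank hgc i).2.trans hw'.symm)
      refine ⟨β, fun v => (hβ v).trans ?_, hβs⟩
      rw [sub_apply, one_apply_eq_self, sub_eq_zero]
      exact eq_comm
    obtain ⟨βs, hβs1, hβs2⟩ := hS (T + 1)
    obtain ⟨βs', hβs'1, hβs'2⟩ := hS (T + 1 + (n' + 1))
    obtain ⟨βu, hβu1, hβu2⟩ := hW (T + 1)
    obtain ⟨βu', hβu'1, hβu'2⟩ := hW (T + 1 + (n' + 1))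
    subst hN
    have key := h3 K l Cs H.g2 E _ _ hgc T n' T' s w s' w' _ _ _ r ε1 ε2 _ _ βs βs' βu βu' hCH
      hcB.continuousOn hcC.continuousOn hβs1 hβs2 hβu1 hβu2 hβs'1 hβs'2 hβu'1 hβu'2
      (fun y h4 h5 h6 => exitL H hj hη2 hexL y h4 h5 h6)
      (fun y h4 h5 h6 => exitR H hj hη2 (L := T + 1 + (n' + 1)) (T := T') (by omega) (by omega)
        (fun i => T + 1 + (n' + 1 + i)) (fun i => by omega) hexR y h4 h5 h6)
    have e1 := LD_eq (E := E) (f := f) (k := k) (r := r) (x := X) (j := j) (η1 := η1) (T := T)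
      (N := T + 1 + (n' + 1 + T')) (by omega) B βu
    have e2 := RD_eq (E := E) (f := f) (k := k) (r := r) (x := X) (j := j) (η1 := η1)
      (L := T + 1 + (n' + 1)) (T := T') (N := T + 1 + (n' + 1 + T')) (by omega) (by omega)
      (fun i => T + 1 + (n' + 1 + i)) (fun i => by omega) βs' C
    rw [hLD w' βu hβu1 hβu2] at e1
    rw [hRD s' βs' hβs'1 hβs'2] at e2
    unfold FD
    refine key.trans ?_
    rw [e1]
    refine (one_mul _).trans ?_
    exact e2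
  · -- admissibility
    refine ha K l Cs H.g2 E _ _ hgc N s w _ _ _ r ε1 ε2 _ _ hCH hcB.continuousOn
      hcC.continuousOn ?_
    intro y hy hs hb0 hbN
    constructor
    · exact exitL H hj hη2 hexL y (fun i hi => hy i (by omega)) (fun i hi => hs i (by omega)) hb0
    · have h4 := exitR H hj hη2 (L := T + 1 + (n' + 1)) (T := T') (by omega) (by omega)
        (fun i => T + 1 + (n' + 1) + i) (fun i => rfl) hexR
        (fun i => y (T + 1 + (n' + 1) + i))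
        (fun i hi => hy (T + 1 + (n' + 1) + i) (by omega))
        (fun i hi => hs (T + 1 + (n' + 1) + i) (by omega))
      have h5 : T + 1 + (n' + 1) + T' = N := by omega
      simp only [h5] at h4
      exact h4 hbN

end man

end NINJ

open NINJ in
/-- **INJ.** The semiconjugacy is injective. -/
theorem t_INJ (h0 : S_A0.{u}) (h1 : S_T1.{v}) (h2 : S_T2.{v}) (hc : S_CONE.{u, v, w})
    (hl : S_LEFT.{u, v, w}) (hr : S_RIGHT.{u, v, w}) (hxc : S_XC.{u, v, w}) (h3 : S_CUT3.{u})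
    (hx : S_CHX.{u, v, w}) (ha : S_ADM.{u}) : S_INJ.{u, v, w} := by
  intro E _ _ _ M _ _ _ _ F _ _ e f g k Es Eu π π' t ρ R ρ₀ κf κ0 K l Cs r ε1 ε2 η2 H x x' hk
  by_contra hne
  have hne' : x' ≠ x := fun h => hne h.symm
  obtain ⟨a, ja, hGa, hSa, hA⟩ := endB h1 h2 hc H hne' hk.symm
  obtain ⟨b, jb, hGb, hSb, hB⟩ := endF h1 h2 hc H hne' hk.symm
  obtain ⟨ηL, hηL, hLeft⟩ := hl E M F e f g k Es Eu π π' t ρ R ρ₀ κf κ0 K l Cs r ε1 ε2 η2 H
  obtain ⟨ηR, hηR, hRight⟩ := hr E M F e f g k Es Eu π π' t ρ R ρ₀ κf κ0 K l Cs r ε1 ε2 η2 H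
  obtain ⟨s, hs⟩ : ∃ s : ℕ, s = Module.finrank ℝ (LinearMap.range
    ((Pj π ja (ps E ja a) : E →L[ℝ] E) : E →ₗ[ℝ] E)) := ⟨_, rfl⟩
  obtain ⟨w, hw⟩ : ∃ w : ℕ, w = Module.finrank ℝ (LinearMap.range
    ((1 - Pj π jb (ps E jb b) : E →L[ℝ] E) : E →ₗ[ℝ] E)) := ⟨_, rfl⟩
  obtain ⟨B₀, hB₀, hB₀s⟩ := exists_beta _ hs.symm
  obtain ⟨C₀, hC₀', hC₀s⟩ := exists_beta _ hw.symm
  have hC₀ : ∀ v, C₀ v = 0 ↔ Pj π jb (ps E jb b) v = v := by
    intro v
    refine (hC₀' v).trans ?_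
    rw [sub_apply, one_apply_eq_self, sub_eq_zero]
    exact eq_comm
  obtain ⟨δx, hδx, hX⟩ : ∃ δ > 0, s + w = Module.finrank ℝ E →
      ∀ η1, 0 < η1 → η1 < δ → η1 ≤ η2 → ∀ (x x' : M) (N : ℕ) (j : ℕ → M), 0 < N →
      j 0 = ja → j N = jb → dist x a < δ → dist (f^[N] x) b < δ →
      (∀ i, Gd t ρ (j i) (k (f^[i] x))) →
      ∀ (B : E →L[ℝ] (Fin s → ℝ)) (C : E →L[ℝ] (Fin w → ℝ)), ‖B - B₀‖ < δ → ‖C - C₀‖ < δ →
      k x' = k x → x' ≠ x → dist (ps E ja x') (ps E ja x) < η1 →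
      dist (ps E jb (f^[N] x')) (ps E jb (f^[N] x)) < η1 →
      B (ps E ja x' - ps E ja x) = 0 → C (ps E jb (f^[N] x') - ps E jb (f^[N] x)) = 0 →
      Adm (Bvp N (Fx E f j) (fun y => B (y - ps E (j 0) x))
        (fun y => C (y - ps E (j N) (f^[N] x)))) (Box N (Dx E f k x j r η1 N)) →
      2 ≤ FD E f k x j r η1 N B C := by
    by_cases hsw : s + w = Module.finrank ℝ E
    · obtain ⟨δ, hδ, h⟩ := hxc E M F e f g k Es Eu π π' t ρ R ρ₀ κf κ0 K l Cs r ε1 ε2 η2 H a b ja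
        jb s w B₀ C₀ hGa hGb hB₀ hC₀ hsw
      exact ⟨δ, hδ, fun _ => h⟩
    · exact ⟨1, one_pos, fun h => absurd h hsw⟩
  -- the radius
  obtain ⟨η1, hη1, hη1L, hη1R, hη1x, hη12⟩ : ∃ η1 : ℝ, 0 < η1 ∧ η1 ≤ ηL ∧ η1 ≤ ηR ∧ η1 < δx ∧
      η1 ≤ η2 := by
    refine ⟨min (min ηL ηR) (min (δx / 2) η2), ?_, ?_, ?_, ?_, ?_⟩
    · exact lt_min (lt_min hηL hηR) (lt_min (half_pos hδx) H.η2_pos)
    · exact (min_le_left _ _).trans (min_le_left _ _)
    · exact (min_le_left _ _).trans (min_le_right _ _)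
    · exact ((min_le_right _ _).trans (min_le_left _ _)).trans_lt (half_lt_self hδx)
    · exact (min_le_right _ _).trans (min_le_right _ _)
  obtain ⟨T, δL, hδL, hL1, hL2⟩ := hLeft η1 hη1 hη1L hη12 a ja hSa hGa s B₀ hB₀ hB₀s
  obtain ⟨T', δR, hδR, hR1, hR2⟩ := hRight η1 hη1 hη1R hη12 b jb hSb hGb w C₀ hC₀ hC₀s
  obtain ⟨δ, hδ, hδ1, hδ2, hδ3, hδ4⟩ : ∃ δ : ℝ, 0 < δ ∧ δ ≤ δL ∧ δ ≤ δR ∧ δ ≤ δx ∧ δ ≤ η1 := by
    refine ⟨min (min δL δR) (min δx η1), ?_, ?_, ?_, ?_, ?_⟩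
    · exact lt_min (lt_min hδL hδR) (lt_min hδx hη1)
    · exact (min_le_left _ _).trans (min_le_left _ _)
    · exact (min_le_left _ _).trans (min_le_right _ _)
    · exact (min_le_right _ _).trans (min_le_left _ _)
    · exact (min_le_right _ _).trans (min_le_right _ _)
  obtain ⟨n, -, hn1, hn2, hn3, B, hB1, hB2⟩ := hA s B₀ (fun v hv => (hB₀ v).2 hv) δ hδ 0
  obtain ⟨m, hm0, hm1, hm2, hm3, C, hC1, hC2⟩ := hB w C₀ (fun v hv => (hC₀ v).2 hv) δ hδ
    (T + T' + 2)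
  -- the base points
  have hfn : ∀ z : M, f^[n] (f.symm^[n] z) = z := fun z =>
    (Function.LeftInverse.iterate f.apply_symm_apply n) z
  obtain ⟨N, hNe⟩ : ∃ N : ℕ, N = n + m := ⟨_, rfl⟩
  have hfN : ∀ z : M, f^[N] (f.symm^[n] z) = f^[m] z := by
    intro z
    rw [hNe, add_comm, Function.iterate_add_apply, hfn]
  obtain ⟨X, hXe⟩ : ∃ X : M, X = f.symm^[n] x := ⟨_, rfl⟩
  obtain ⟨X', hXe'⟩ : ∃ X' : M, X' = f.symm^[n] x' := ⟨_, rfl⟩
  have hfNX : f^[N] X = f^[m] x := by rw [hXe, hfN]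
  have hfNX' : f^[N] X' = f^[m] x' := by rw [hXe', hfN]
  rw [← hXe] at hn1 hn2 hn3 hB2
  rw [← hXe'] at hn3 hB2
  rw [← hfNX] at hm1 hm2 hm3 hC2
  rw [← hfNX'] at hm3 hC2
  obtain ⟨n', hn'⟩ : ∃ n' : ℕ, N = T + 1 + (n' + 1 + T') := ⟨N - T - T' - 2, by omega⟩
  have hN0 : 0 < N := by omega
  -- the charts
  obtain ⟨j, hj0, hjN, hj⟩ : ∃ j : ℕ → M, j 0 = ja ∧ j N = jb ∧
      ∀ i, Gd t ρ (j i) (k (f^[i] X)) := by
    choose c hc1 hc2 using H.fc.ch.cover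
    refine ⟨fun i => if i = 0 then ja else if i = N then jb else c (k (f^[i] X)), ?_, ?_, ?_⟩
    · simp
    · simp only [if_neg hN0.ne', if_true]
    · intro i
      by_cases h4 : i = 0
      · subst h4
        simpa using hn2
      · by_cases h5 : i = N
        · subst h5
          simpa [h4] using hm2
        · simp only [if_neg h4, if_neg h5]
          exact ⟨hc1 _, hc2 _⟩
  have hkX : k X' = k X := by
    have h4 : ∀ i : ℕ, k (f.symm^[i] x') = k (f.symm^[i] x) := by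
      intro i
      induction i with
      | zero => exact hk.symm
      | succ i ih =>
        rw [Function.iterate_succ_apply', Function.iterate_succ_apply']
        exact H.fc.kk.bwd _ _ ih
    rw [hXe, hXe']
    exact h4 n
  have hXX : X' ≠ X := by
    rw [hXe, hXe']
    exact fun h => hne' (f.symm.injective.iterate n h)
  have hit : ∀ L i, f^[i] (f^[L] X) = f^[L + i] X := by
    intro L i
    rw [← Function.iterate_add_apply, add_comm]
  have hLN : T + 1 + (n' + 1) + T' = N := by omega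
  obtain ⟨hFD, hAdm⟩ := deg_one h3 hx ha H hη1 hη12 hn' hj (B := B) (C := C)
    (by
      intro p hp h4 h5
      rw [hj0] at hp h4 h5
      exact hL1 X (by linarith) B (by linarith) p hp h4 h5)
    (by
      intro p hp h4 h5
      rw [hjN] at hp h4 h5
      exact hR1 (f^[N] X) (by linarith) C (by linarith) p hp h4 h5)
    (by
      intro w' βu h4 h5
      exact hL2 X (by linarith) j hj0 hj B (by linarith) w' βu h4 h5)
    (by
      intro s' βs h4 h5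
      refine hR2 (f^[T + 1 + (n' + 1)] X) ?_ (fun i => j (T + 1 + (n' + 1) + i)) ?_ ?_ C
        (by linarith) s' βs h4 h5
      · rw [hit, hLN]
        linarith
      · rw [hLN]
        exact hjN
      · intro i
        rw [hit]
        exact hj _)
  -- the dimensions
  have hsw : s + w = Module.finrank ℝ E := by
    have h4 := h0 (Fin (N + 1) → E) ((Fin N → E) × (Fin s → ℝ) × (Fin w → ℝ)) _ _
      (by
        have h5 : FD E f k X j r η1 N B C ≠ 0 := by rw [hFD]; exact one_ne_zero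
        exact h5)
    simp only [Module.finrank_pi_fintype, Module.finrank_prod, Finset.sum_const,
      Finset.card_univ, Fintype.card_fin, smul_eq_mul, Module.finrank_self, mul_one] at h4
    nlinarith
  have h4 := hX hsw η1 hη1 hη1x hη12 X X' N j hN0 hj0 hjN (by linarith) (by linarith) hj B C
    (by linarith) (by linarith) hkX hXX (by linarith) (by linarith) hB2 hC2 hAdm
  omega

end Pool.Agent.H963.CJ
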