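import Pool.Agent.H963.CJ.MDef3

/-!
# The left boundary problem at a point with singleton fibre has degree one
-/

set_option autoImplicit false
set_option linter.unusedSectionVars false

open Set Filter Topology Metric
open scoped Manifold ContDiff

namespace Pool.Agent.H963.CJ

open Pool.Agent.H721R2 Pool.Agent.H789R2.AN Pool.Agent.TH289 Pool.Agent.H244.Dyn
  Pool.Agent.H244.Loc

universe u v w

namespace NLA

section op

variable {E : Type*} [NormedAddCommGroup E] [NormedSpace ℝ E] [FiniteDimensional ℝ E]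

/-- an operator onto some `ℝ^w` with a given kernel -/
theorem exop (Q : E →L[ℝ] E) : ∃ (w : ℕ) (C : E →L[ℝ] (Fin w → ℝ)), (∀ v, C v = 0 ↔ Q v = 0) ∧
    Function.Surjective C := by
  let V : Submodule ℝ E := LinearMap.range (Q : E →ₗ[ℝ] E)
  let e : V ≃ₗ[ℝ] (Fin (Module.finrank ℝ V) → ℝ) := (Module.finBasis ℝ V).equivFun
  let q : E →ₗ[ℝ] (Fin (Module.finrank ℝ V) → ℝ) :=
    (e : V →ₗ[ℝ] (Fin (Module.finrank ℝ V) → ℝ)) ∘ₗ ((Q : E →ₗ[ℝ] E).rangeRestrict)
  refine ⟨Module.finrank ℝ V, LinearMap.toContinuousLinearMap q, fun v => ?_, ?_⟩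
  · show e ((Q : E →ₗ[ℝ] E).rangeRestrict v) = 0 ↔ _
    rw [LinearEquiv.map_eq_zero_iff, Subtype.ext_iff]
    rfl
  · show Function.Surjective (fun v => e ((Q : E →ₗ[ℝ] E).rangeRestrict v))
    exact e.surjective.comp (LinearMap.surjective_rangeRestrict (Q : E →ₗ[ℝ] E))

end op

theorem iter_back {M : Type*} [TopologicalSpace M] (f : M ≃ₜ M) (x : M) {n N : ℕ} (h : n ≤ N) :
    f.symm^[n] (f^[N] x) = f^[N - n] x := by
  obtain ⟨m, rfl⟩ := Nat.exists_eq_add_of_le h
  rw [Nat.add_sub_cancel_left, Function.iterate_add_apply]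
  exact Function.LeftInverse.iterate (fun y => f.symm_apply_apply y) n _

section track

variable {E : Type u} [NormedAddCommGroup E] [NormedSpace ℝ E] [FiniteDimensional ℝ E]
  {M : Type v} [MetricSpace M] [CompactSpace M] [ChartedSpace E M] [IsManifold 𝓘(ℝ, E) 1 M]
  {F : Type w} [NormedAddCommGroup F] [NormedSpace ℝ F] {e : M → F}
  {f g : M ≃ₜ M} {k : M → M} {Es Eu : M → Submodule ℝ E} {π π' : M → E →L[ℝ] E} {t : Finset M}
  {ρ : M → ℝ} {R ρ₀ κf κ0 K l Cs r ε1 ε2 η2 : ℝ}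

/-- an orbit segment of the chain in the tube is an orbit segment of `f` -/
theorem track (hC : Ctx E e f g k Es Eu π π' t ρ R ρ₀ κf κ0 K l Cs r ε1 ε2 η2) (x : M)
    (j : ℕ → M) (hj : ∀ i, Gd t ρ (j i) (k (f^[i] x))) (o L : ℕ) (y : ℕ → E)
    (hy : ∀ i ≤ L, y i ∈ closedBall (cx E f k x j (o + i)) r)
    (hs : ∀ i < L, y (i + 1) = Fx E f j (o + i) (y i)) :
    ∃ q : ℕ → M, (∀ i ≤ L, q i ∈ (ps E (j (o + i))).source ∧ ps E (j (o + i)) (q i) = y i ∧
      dist (q i) (f^[o + i] x) ≤ κ0) ∧ ∀ i < L, f (q i) = q (i + 1) := by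
  have hst : ∀ i ≤ L, y i ∈ (ps E (j (o + i))).target ∧
      f ((ps E (j (o + i))).symm (y i)) ∈ (ps E (j (o + i + 1))).source := by
    intro i hi
    have h1 : Gd t ρ (j (o + i + 1)) (g (k (f^[o + i] x))) := by
      rw [← hC.kf, ← Function.iterate_succ_apply' (⇑f) (o + i) x]
      exact hj (o + i + 1)
    have h2 := hC.step (k (f^[o + i] x)) (j (o + i)) (j (o + i + 1)) (hj (o + i)) h1 (y i) (hy i hi)
    exact ⟨h2.1, h2.2.1⟩
  refine ⟨fun i => (ps E (j (o + i))).symm (y i), fun i hi => ⟨?_, ?_, ?_⟩, fun i hi => ?_⟩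
  · exact (ps E (j (o + i))).map_target (hst i hi).1
  · exact (ps E (j (o + i))).right_inv (hst i hi).1
  · have h1 := hC.tube (k (f^[o + i] x)) (j (o + i)) (hj (o + i)) (y i) (hy i hi)
    have h2 : dist (f^[o + i] x) (k (f^[o + i] x)) ≤ κ0 / 2 := by
      have hw := hC.kgd (f^[o + i] x) (j (o + i)) (hj (o + i))
      have hsrc : f^[o + i] x ∈ (ps E (j (o + i))).source :=
        hC.fc.ch.src (j (o + i)) hw.1 _ hw.2
      have hr := hC.kr (f^[o + i] x) (j (o + i)) (hj (o + i))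
      have h3 := hC.tube (k (f^[o + i] x)) (j (o + i)) (hj (o + i))
        (ps E (j (o + i)) (f^[o + i] x)) (by
          rw [mem_closedBall]
          have := hC.r_pos
          linarith)
      rwa [(ps E (j (o + i))).left_inv hsrc] at h3
    have h3 := dist_triangle_right ((ps E (j (o + i))).symm (y i)) (f^[o + i] x)
      (k (f^[o + i] x))
    linarith
  · have h1 : y (i + 1) = ps E (j (o + i + 1)) (f ((ps E (j (o + i))).symm (y i))) := hs i hi
    show f ((ps E (j (o + i))).symm (y i)) = (ps E (j (o + (i + 1)))).symm (y (i + 1))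
    have h2 : o + (i + 1) = o + i + 1 := by omega
    rw [h2, h1]
    exact ((ps E (j (o + i + 1))).left_inv (hst i hi.le).2).symm

theorem iter_of_step {f : M ≃ₜ M} {q : ℕ → M} {L : ℕ} (h : ∀ i < L, f (q i) = q (i + 1)) :
    ∀ i ≤ L, q i = f^[i] (q 0) := by
  intro i
  induction i with
  | zero => intro _; rfl
  | succ i ih =>
    intro hi
    rw [Function.iterate_succ_apply', ← ih (by omega), h i (by omega)]

theorem back_of_step {f : M ≃ₜ M} {q : ℕ → M} {L : ℕ} (h : ∀ i < L, f (q i) = q (i + 1)) :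
    ∀ n ≤ L, f.symm^[n] (q L) = q (L - n) := by
  intro n
  induction n with
  | zero => intro _; rfl
  | succ n ih =>
    intro hn
    rw [Function.iterate_succ_apply', ih (by omega)]
    have h1 := h (L - (n + 1)) (by omega)
    have h2 : L - (n + 1) + 1 = L - n := by omega
    rw [h2] at h1
    rw [← h1, f.symm_apply_apply]

end track

end NLA

open NLA

theorem t_LA (hn : S_EXITN.{u, v, w}) (hu : S_UNIQ.{u, v, w}) (hf : S_FULL.{u, v, w})
    (hx : S_CHX.{u, v, w}) (hc : S_CUT1.{u}) : S_LA.{u, v, w} := by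
  intro E _ _ _ M _ _ _ _ F _ _ e f g k Es Eu π π' t ρ R ρ₀ κf κ0 K l Cs r ε1 ε2 η2 hC
  obtain ⟨ηa, hηa, hEX⟩ := hn E M F e f Es Eu π t ρ R ρ₀ k κf κ0 hC.fc
  obtain ⟨ηb, hηb, hUQ⟩ := hu E M F e f Es Eu π t ρ R ρ₀ k κf κ0 hC.fc
  refine ⟨min ηa ηb, lt_min hηa hηb, fun η1 hη1 hη1' hη2 a ha T j hj hE s w B βu hB hBs hβu hβus => ?_⟩
  obtain ⟨n1, hn1⟩ := (hEX η1 hη1 (hη1'.trans (min_le_left _ _)) a).1
  obtain ⟨n0, hn0⟩ := (hUQ η1 hη1 (hη1'.trans (min_le_right _ _)) a ha).1
  obtain ⟨m', hm1, hm0⟩ : ∃ m' : ℕ, n1 ≤ m' ∧ n0 ≤ m' := ⟨max n1 n0, le_max_left _ _, le_max_right _ _⟩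
  have hUq : Uq E f π t ρ κ0 η1 (T + 1 + m') a := hn0 (T + 1 + m') (by omega)
  obtain ⟨hGC, hCH⟩ := hx E M F e f g k Es Eu π π' t ρ R ρ₀ κf κ0 K l Cs r ε1 ε2 η2 hC a j hj
  have hCHN := hCH η1 hη1 hη2 (T + 1 + m') (by omega)
  -- the operators
  obtain ⟨w'', C, hCk, hCs⟩ := exop
    (1 - Pj π (j (T + 1 + m')) (ps E (j (T + 1 + m')) (f^[T + 1 + m'] a)))
  have hCk' : ∀ v, C v = 0 ↔
      Pj π (j (T + 1 + m')) (ps E (j (T + 1 + m')) (f^[T + 1 + m'] a)) v = v := by
    intro v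
    rw [hCk v]
    show v - Pj π (j (T + 1 + m')) (ps E (j (T + 1 + m')) (f^[T + 1 + m'] a)) v = 0 ↔ _
    rw [sub_eq_zero]
    exact eq_comm
  obtain ⟨s'', βs, hβs, hβss⟩ := exop (Pj π' (j (T + 1)) (cx E f k a j (T + 1)))
  have hFD : FD E f k a j r η1 (T + 1 + m') B C = 1 :=
    hf E M F e f g k Es Eu π π' t ρ R ρ₀ κf κ0 K l Cs r ε1 ε2 η2 hC η1 hη1 hη2 a (T + 1 + m')
      (by omega) hUq j hj s w'' B C hB hBs hCk' hCs
  -- the domains
  have hD0 : Dx E f k a j r η1 (T + 1 + m') 0 = ball (ps E (j 0) a) η1 := if_pos rfl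
  have hDN : Dx E f k a j r η1 (T + 1 + m') (T + 1 + m') =
      ball (ps E (j (T + 1 + m')) (f^[T + 1 + m'] a)) η1 := by
    unfold Dx
    rw [if_neg (by omega), if_pos rfl]
  have hcl : ∀ i ≤ T + 1 + m', closure (Dx E f k a j r η1 (T + 1 + m') i) ⊆
      closedBall (cx E f k a j i) r := fun i hi =>
    closure_minimal (hCHN.sub i hi) isClosed_closedBall
  have hcut := hc K l Cs hC.g2 E _ _ hGC T m' s w'' s'' w (cx E f k a j) (Fx E f j)
    (Dx E f k a j r η1 (T + 1 + m')) r ε1 ε2 (fun y => B (y - ps E (j 0) a))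
    (fun y => C (y - ps E (j (T + 1 + m')) (f^[T + 1 + m'] a))) βs βu hCHN
    (B.continuous.comp (continuous_id.sub continuous_const)).continuousOn
    (C.continuous.comp (continuous_id.sub continuous_const)).continuousOn hβs hβss hβu hβus
    (fun y hy hys hy0 => by
      by_contra hcon
      have hy0c := hy 0 (Nat.zero_le T)
      rw [hD0] at hcon hy0c
      have hdist : dist (y 0) (ps E (j 0) a) = η1 := by
        refine le_antisymm (mem_closedBall.1 (closure_ball_subset_closedBall hy0c)) ?_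
        rw [mem_ball, not_lt] at hcon
        exact hcon
      obtain ⟨q, hq, hqs⟩ := track hC a j hj 0 T y (fun i hi => by
        rw [Nat.zero_add]
        exact hcl i (by omega) (hy i hi)) (fun i hi => by
        rw [Nat.zero_add]
        exact hys i hi)
      have hq0 := hq 0 (Nat.zero_le T)
      have hq01 : q 0 ∈ (ps E (j 0)).source := hq0.1
      have hq02 : ps E (j 0) (q 0) = y 0 := hq0.2.1
      obtain ⟨n, hnT, hn⟩ := hE (q 0) hq01 (by rw [hq02]; exact hdist) (by
        rw [hq02]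
        exact (hB _).1 hy0)
      rw [← iter_of_step hqs n hnT] at hn
      have h5 := (hq n hnT).2.2
      rw [Nat.zero_add] at h5
      linarith)
    (fun y hy hys hyN => by
      by_contra hcon
      have hyNc := hy m' le_rfl
      rw [hDN] at hcon hyNc
      have hdist : dist (y m') (ps E (j (T + 1 + m')) (f^[T + 1 + m'] a)) = η1 := by
        refine le_antisymm (mem_closedBall.1 (closure_ball_subset_closedBall hyNc)) ?_
        rw [mem_ball, not_lt] at hcon
        exact hcon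
      obtain ⟨q, hq, hqs⟩ := track hC a j hj (T + 1) m' y (fun i hi =>
        hcl (T + 1 + i) (by omega) (hy i hi)) hys
      have hqm := hq m' le_rfl
      obtain ⟨n, hnn, hn⟩ := hn1 (T + 1 + m') (by omega) (j (T + 1 + m')) (q m')
        (hC.kgd _ _ (hj (T + 1 + m'))) hqm.1 (by rw [hqm.2.1]; exact hdist) (by
          rw [hqm.2.1]
          exact (hCk' _).1 hyN)
      rw [back_of_step hqs n (by omega), iter_back f a (show n ≤ T + 1 + m' by omega)] at hn
      have h5 := (hq (m' - n) (Nat.sub_le _ _)).2.2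
      have h6 : T + 1 + (m' - n) = T + 1 + m' - n := by omega
      rw [h6] at h5
      linarith)
  have hbox : Box T (Dx E f k a j r η1 (T + 1 + m')) = Box T (Dl E f k a j r η1) := by
    have h1 : ∀ i : Fin (T + 1), Dx E f k a j r η1 (T + 1 + m') i = Dl E f k a j r η1 i := by
      intro i
      have hi := i.2
      unfold Dx Dl
      by_cases h0 : (i : ℕ) = 0
      · rw [if_pos h0, if_pos h0]
      · rw [if_neg h0, if_neg h0, if_neg (by omega)]
    unfold Box
    ext y
    show (∀ i : Fin (T + 1), y i ∈ Dx E f k a j r η1 (T + 1 + m') i) ↔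
      ∀ i : Fin (T + 1), y i ∈ Dl E f k a j r η1 i
    constructor
    · intro h i
      rw [← h1 i]
      exact h i
    · intro h i
      rw [h1 i]
      exact h i
  rw [hbox] at hcut
  unfold FD at hFD
  rw [hcut] at hFD
  exact Nat.eq_one_of_mul_eq_one_right hFD

end Pool.Agent.H963.CJ
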