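import Pool.Agent.H963.CJ.MDef3

/-!
# Left boundary problems near a point with singleton fibre
-/

set_option autoImplicit false
set_option linter.unusedSectionVars false

open Set Filter Topology Metric
open scoped Manifold ContDiff

namespace Pool.Agent.H963.CJ

open Pool.Agent.H721R2 Pool.Agent.H789R2.AN Pool.Agent.TH289 Pool.Agent.H244.Dyn
  Pool.Agent.H244.Loc

universe u v w

namespace NLEFT

theorem fin_min {ι : Type*} [Finite ι] (f : ι → ℝ) (h : ∀ i, 0 < f i) : ∃ δ > 0, ∀ i, δ ≤ f i := by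
  rcases isEmpty_or_nonempty ι with hι | hι
  · exact ⟨1, one_pos, fun i => (hι.false i).elim⟩
  · obtain ⟨i, hi⟩ := Finite.exists_min f
    exact ⟨f i, h i, hi⟩

/-- an operator onto some `ℝ^w` with a given kernel -/
theorem exists_op (E : Type u) [NormedAddCommGroup E] [NormedSpace ℝ E] [FiniteDimensional ℝ E]
    (P : E →L[ℝ] E) : ∃ (w : ℕ) (β : E →L[ℝ] (Fin w → ℝ)), (∀ v, β v = 0 ↔ P v = v) ∧ Function.Surjective β := by
  let V : Submodule ℝ E := LinearMap.ker ((P : E →ₗ[ℝ] E) - LinearMap.id)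
  let b := Module.finBasis ℝ (E ⧸ V)
  let L : E →ₗ[ℝ] (Fin (Module.finrank ℝ (E ⧸ V)) → ℝ) := b.equivFun.toLinearMap.comp V.mkQ
  refine ⟨Module.finrank ℝ (E ⧸ V), LinearMap.toContinuousLinearMap L, ?_, ?_⟩
  · intro v
    have h1 : (LinearMap.toContinuousLinearMap L) v = b.equivFun (V.mkQ v) := rfl
    rw [h1, LinearEquiv.map_eq_zero_iff, Submodule.mkQ_apply, Submodule.Quotient.mk_eq_zero]
    simp only [V, LinearMap.mem_ker, LinearMap.sub_apply, LinearMap.id_apply, sub_eq_zero]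
    exact Iff.rfl
  · exact b.equivFun.surjective.comp (Submodule.mkQ_surjective V)

end NLEFT

theorem t_LEFT (he : S_EXIT.{u, v, w}) (hl : S_LA.{u, v, w}) (hc : S_CMPL.{u, v, w}) : S_LEFT.{u, v, w} := by
  classical
  intro E _ _ _ M _ _ _ _ F _ _ e f g k Es Eu π π' t ρ R ρ₀ κf κ0 K l Cs r ε1 ε2 η2 ctx
  obtain ⟨η₁, hη₁, H1⟩ := he E M F e f Es Eu π t ρ R ρ₀ k κf κ0 ctx.fc
  obtain ⟨η₂, hη₂, H2⟩ := hl E M F e f g k Es Eu π π' t ρ R ρ₀ κf κ0 K l Cs r ε1 ε2 η2 ctx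
  refine ⟨min η₁ η₂, lt_min hη₁ hη₂, ?_⟩
  intro η1 h0 h1 h2 a j0 ha hj0 s B₀ hB₀ hBs
  obtain ⟨T, δ₁, hδ₁, hex⟩ := (H1 η1 h0 (h1.trans (min_le_left _ _)) a j0 ha hj0).1 s B₀ (fun v => (hB₀ v).1)
  have hkc : Continuous k := ctx.fc.kk.cont
  have hexa : ∀ p ∈ (ps E j0).source, dist (ps E j0 p) (ps E j0 a) = η1 → B₀ (ps E j0 p - ps E j0 a) = 0 →
      ∃ n ≤ T, κ0 < dist (f^[n] p) (f^[n] a) := fun p hp hd hB =>
    hex a (by rw [dist_self]; exact hδ₁) B₀ (by rw [sub_self, norm_zero]; exact hδ₁) p hp hd hB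
  -- one family of charts
  have hJ : ∀ J : Fin (T + 2) → t, ∃ δ > 0, ∀ x, dist x a < δ → ∀ j : ℕ → M, j 0 = j0 →
      (∀ i, Gd t ρ (j i) (k (f^[i] x))) → (∀ i : Fin (T + 2), j i = J i) →
      ∀ B : E →L[ℝ] (Fin s → ℝ), ‖B - B₀‖ < δ → ∀ (w : ℕ) (βu : E →L[ℝ] (Fin w → ℝ)),
      (∀ v, βu v = 0 ↔ Pj π' (j (T + 1)) (cx E f k x j (T + 1)) v = v) →
      Function.Surjective βu → LD E f k x j r η1 T B βu = 1 := by
    intro J
    by_cases hJ0 : (J 0 : M) = j0
    swap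
    · exact ⟨1, one_pos, fun x _ j hj _ hji => absurd ((hji 0).symm.trans hj) hJ0⟩
    by_cases hJG : ∀ i : Fin (T + 2), Gd t ρ (J i : M) (k (f^[(i : ℕ)] a))
    · -- extend the family
      have hcov : ∀ i : ℕ, ∃ m, Gd t ρ m (k (f^[i] a)) := by
        intro i
        obtain ⟨m, hm, hd⟩ := ctx.fc.ch.cover (k (f^[i] a))
        exact ⟨m, hm, hd⟩
      choose c hcG using hcov
      let j : ℕ → M := fun i => if h : i < T + 2 then (J ⟨i, h⟩ : M) else c i
      have hjJ : ∀ i (h : i < T + 2), j i = J ⟨i, h⟩ := fun i h => by simp only [j]; rw [dif_pos h]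
      have hjG : ∀ i, Gd t ρ (j i) (k (f^[i] a)) := by
        intro i
        by_cases h : i < T + 2
        · rw [hjJ i h]; exact hJG ⟨i, h⟩
        · have : j i = c i := by simp only [j]; rw [dif_neg h]
          rw [this]; exact hcG i
      have hj0' : j 0 = j0 := by
        rw [hjJ 0 (by omega)]; exact hJ0
      obtain ⟨w, βu₀, hβ, hβs⟩ := NLEFT.exists_op E (Pj π' (j (T + 1)) (cx E f k a j (T + 1)))
      have hLA : LD E f k a j r η1 T B₀ βu₀ = 1 := by
        refine H2 η1 h0 (h1.trans (min_le_right _ _)) h2 a ha T j hjG ?_ s w B₀ βu₀ ?_ hBs hβ hβs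
        · intro p hp hd hP
          rw [hj0'] at hp hd hP
          exact hexa p hp hd ((hB₀ _).2 hP)
        · intro v
          rw [hj0']
          exact hB₀ v
      obtain ⟨δ, hδ, hcm⟩ := hc E M F e f g k Es Eu π π' t ρ R ρ₀ κf κ0 K l Cs r ε1 ε2 η2 ctx η1 h0 h2 a T j hjG
        s w B₀ βu₀ hβ hβs (by
          intro p hp hd hB
          rw [hj0'] at hp hd hB
          exact hexa p hp hd hB)
      refine ⟨δ, hδ, ?_⟩
      intro x hx j' hj'0 hj'G hj'J B hB w' βu hβu hβus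
      rw [hcm x hx j' (fun i hi => by rw [hjJ i (by omega)]; exact hj'J ⟨i, by omega⟩) hj'G B hB w' βu hβu hβus]
      exact hLA
    · push Not at hJG
      obtain ⟨i, hi⟩ := hJG
      have hlt : ρ (J i : M) < dist (k (f^[(i : ℕ)] a)) (J i : M) := by
        by_contra hcon
        exact hi ⟨(J i).2, not_lt.1 hcon⟩
      have hcont : Continuous fun x => dist (k (f^[(i : ℕ)] x)) (J i : M) :=
        (hkc.comp (f.continuous.iterate (i : ℕ))).dist continuous_const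
      have hopen : IsOpen {x | ρ (J i : M) < dist (k (f^[(i : ℕ)] x)) (J i : M)} := isOpen_lt continuous_const hcont
      obtain ⟨δ, hδ, hball⟩ := Metric.isOpen_iff.1 hopen a hlt
      refine ⟨δ, hδ, ?_⟩
      intro x hx j _ hjG hjJ
      exfalso
      have h3 := hball (mem_ball.2 hx)
      have h4 := (hjG i).2
      rw [hjJ i] at h4
      exact absurd h3 (not_lt.2 h4)
  choose δJ hδJ hJp using hJ
  obtain ⟨δ₂, hδ₂, hle⟩ := NLEFT.fin_min δJ hδJ
  refine ⟨T, min δ₁ δ₂, lt_min hδ₁ hδ₂, ?_, ?_⟩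
  · intro x hx B hB p hp hd hBp
    exact hex x (hx.trans_le (min_le_left _ _)) B (hB.trans_le (min_le_left _ _)) p hp hd hBp
  · intro x hx j hj0' hjG B hB w βu hβ hβs
    let J : Fin (T + 2) → t := fun i => ⟨j i, (hjG i).1⟩
    have h5 : min δ₁ δ₂ ≤ δJ J := (min_le_right _ _).trans (hle J)
    exact hJp J x (hx.trans_le h5) j hj0' hjG (fun i => rfl) B (hB.trans_le h5) w βu hβ hβs

end Pool.Agent.H963.CJ
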