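import Pool.Agent.H963.CJ.MDef3

/-!
# RA: the right boundary problem at a point with singleton fibre has degree one
-/

set_option autoImplicit false
set_option linter.unusedSectionVars false

open Set Filter Topology Metric
open scoped Manifold ContDiff

namespace Pool.Agent.H963.CJ

open Pool.Agent.H721R2 Pool.Agent.H789R2.AN Pool.Agent.TH289 Pool.Agent.H244.Dyn
  Pool.Agent.H244.Loc

universe u v w

namespace NRA

/-- an operator onto `ℝ^s` with the kernel of a given operator -/
theorem exists_op {E : Type*} [NormedAddCommGroup E] [NormedSpace ℝ E] [FiniteDimensional ℝ E]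
    (P : E →L[ℝ] E) : ∃ (s : ℕ) (B : E →L[ℝ] (Fin s → ℝ)), (∀ v, B v = 0 ↔ P v = 0) ∧
      Function.Surjective B := by
  classical
  let L0 : E →ₗ[ℝ] E := (P : E →ₗ[ℝ] E)
  let q : (LinearMap.range L0) ≃ₗ[ℝ] (Fin (Module.finrank ℝ (LinearMap.range L0)) → ℝ) :=
    (Module.finBasis ℝ (LinearMap.range L0)).equivFun
  let L : E →ₗ[ℝ] (Fin (Module.finrank ℝ (LinearMap.range L0)) → ℝ) :=
    q.toLinearMap.comp (LinearMap.rangeRestrict L0)
  refine ⟨_, LinearMap.toContinuousLinearMap L, ?_, ?_⟩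
  · intro v
    have h1 : (LinearMap.toContinuousLinearMap L) v = q (LinearMap.rangeRestrict L0 v) := rfl
    rw [h1, LinearEquiv.map_eq_zero_iff]
    constructor
    · intro h
      have h2 := congrArg Subtype.val h
      exact h2
    · intro h
      apply Subtype.ext
      exact h
  · intro z
    obtain ⟨⟨u, v, hv⟩, hu⟩ := q.surjective z
    refine ⟨v, ?_⟩
    have h1 : (LinearMap.toContinuousLinearMap L) v = q (LinearMap.rangeRestrict L0 v) := rfl
    rw [h1, ← hu]
    congr 1
    apply Subtype.ext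
    exact hv

section

variable {E : Type u} [NormedAddCommGroup E] [NormedSpace ℝ E]
  [FiniteDimensional ℝ E] {M : Type v} [MetricSpace M] [CompactSpace M] [ChartedSpace E M]
  [IsManifold 𝓘(ℝ, E) 1 M] {F : Type w} [NormedAddCommGroup F] [NormedSpace ℝ F] {e : M → F}
  {f g : M ≃ₜ M} {k : M → M} {Es Eu : M → Submodule ℝ E} {π π' : M → E →L[ℝ] E} {t : Finset M}
  {ρ : M → ℝ} {R ρ₀ κf κ0 K l Cs r ε1 ε2 η2 : ℝ}

theorem gd_succ (X : Ctx E e f g k Es Eu π π' t ρ R ρ₀ κf κ0 K l Cs r ε1 ε2 η2)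
    {x : M} {j : ℕ → M} (hj : ∀ i, Gd t ρ (j i) (k (f^[i] x))) (i : ℕ) :
    Gd t ρ (j (i + 1)) (g (k (f^[i] x))) := by
  have h1 := hj (i + 1)
  rw [Function.iterate_succ_apply', X.kf] at h1
  exact h1

/-- an orbit of the chain in the tube is an orbit of `f` close to the orbit of `x` -/
theorem orb (X : Ctx E e f g k Es Eu π π' t ρ R ρ₀ κf κ0 K l Cs r ε1 ε2 η2)
    {x : M} {j : ℕ → M} (hj : ∀ i, Gd t ρ (j i) (k (f^[i] x))) {N : ℕ} {y : ℕ → E}
    (hy : ∀ i ≤ N, y i ∈ closedBall (cx E f k x j i) r)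
    (hs : ∀ i < N, y (i + 1) = Fx E f j i (y i)) :
    ∀ i ≤ N, y i ∈ (ps E (j i)).target ∧
      f^[i] ((ps E (j 0)).symm (y 0)) = (ps E (j i)).symm (y i) ∧
      dist (f^[i] ((ps E (j 0)).symm (y 0))) (f^[i] x) ≤ κ0 := by
  have ht : ∀ i ≤ N, y i ∈ (ps E (j i)).target ∧
      f ((ps E (j i)).symm (y i)) ∈ (ps E (j (i + 1))).source := by
    intro i hi
    obtain ⟨h1, h2, -, -⟩ := X.step (k (f^[i] x)) (j i) (j (i + 1)) (hj i) (gd_succ X hj i)
      (y i) (hy i hi)
    exact ⟨h1, h2⟩
  have ho : ∀ i, i ≤ N → f^[i] ((ps E (j 0)).symm (y 0)) = (ps E (j i)).symm (y i) := by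
    intro i
    induction i with
    | zero =>
      intro _
      rfl
    | succ i ih =>
      intro hi
      rw [Function.iterate_succ_apply', ih (by omega), hs i (by omega)]
      exact ((ps E (j (i + 1))).left_inv (ht i (by omega)).2).symm
  intro i hi
  refine ⟨(ht i hi).1, ho i hi, ?_⟩
  rw [ho i hi]
  have h1 : dist ((ps E (j i)).symm (y i)) (k (f^[i] x)) ≤ κ0 / 2 :=
    X.tube (k (f^[i] x)) (j i) (hj i) (y i) (hy i hi)
  have hsrc : f^[i] x ∈ (ps E (j i)).source :=
    X.fc.ch.src (j i) (hj i).1 _ (X.kgd _ _ (hj i)).2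
  have h2 : dist ((ps E (j i)).symm (ps E (j i) (f^[i] x))) (k (f^[i] x)) ≤ κ0 / 2 := by
    apply X.tube (k (f^[i] x)) (j i) (hj i)
    rw [mem_closedBall]
    have h3 := X.kr (f^[i] x) (j i) (hj i)
    have h4 := X.r_pos
    linarith
  rw [(ps E (j i)).left_inv hsrc] at h2
  calc dist ((ps E (j i)).symm (y i)) (f^[i] x)
      ≤ dist ((ps E (j i)).symm (y i)) (k (f^[i] x)) + dist (f^[i] x) (k (f^[i] x)) :=
        dist_triangle_right _ _ _
    _ ≤ κ0 / 2 + κ0 / 2 := add_le_add h1 h2
    _ = κ0 := by ring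

end

end NRA

open NRA in
theorem t_RA (hn : S_EXITN.{u, v, w}) (hu : S_UNIQ.{u, v, w}) (hf : S_FULL.{u, v, w})
    (hx : S_CHX.{u, v, w}) (hc : S_CUT1.{u}) : S_RA.{u, v, w} := by
  intro E _ _ _ M _ _ _ _ F _ _ e f g k Es Eu π π' t ρ R ρ₀ κf κ0 K l Cs r ε1 ε2 η2 X
  obtain ⟨ηa, hηa, hA⟩ := hn E M F e f Es Eu π t ρ R ρ₀ k κf κ0 X.fc
  obtain ⟨ηb, hηb, hB⟩ := hu E M F e f Es Eu π t ρ R ρ₀ k κf κ0 X.fc
  refine ⟨min ηa ηb, lt_min hηa hηb, ?_⟩
  intro η1 hη1 hle hη2 b hb T x j hTx hj hexit s w βs C hβs hβss hC hCs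
  obtain ⟨-, n1, hn1⟩ := hA η1 hη1 (hle.trans (min_le_left _ _)) b
  obtain ⟨-, n0, hn0⟩ := hB η1 hη1 (hle.trans (min_le_right _ _)) b hb
  -- the length of the added part
  obtain ⟨m, hm1, hm0⟩ : ∃ m : ℕ, n1 ≤ m ∧ n0 ≤ m := ⟨max n1 n0, le_max_left _ _, le_max_right _ _⟩
  set N : ℕ := m + 1 + T with hN
  set a : M := f.symm^[N] b with ha
  have hfs : ∀ (n : ℕ) (z : M), f^[n] (f.symm^[n] z) = z := by
    intro n z
    exact Function.LeftInverse.iterate f.apply_symm_apply n z
  have hsf : ∀ (n : ℕ) (z : M), f.symm^[n] (f^[n] z) = z := by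
    intro n z
    exact Function.LeftInverse.iterate f.symm_apply_apply n z
  have hNa : f^[N] a = b := hfs N b
  have hma : f^[m + 1] a = x := by
    have h1 : f^[T] (f^[m + 1] a) = f^[T] x := by
      rw [hTx, ← Function.iterate_add_apply, ← hNa, hN, add_comm T]
    have h2 := congrArg (f.symm^[T]) h1
    rwa [hsf, hsf] at h2
  have hia : ∀ i, f^[m + 1 + i] a = f^[i] x := by
    intro i
    rw [add_comm, Function.iterate_add_apply, hma]
  -- charts
  have hcov : ∀ i, ∃ j0, Gd t ρ j0 (k (f^[i] a)) := by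
    intro i
    obtain ⟨j0, h1, h2⟩ := X.fc.ch.cover (k (f^[i] a))
    exact ⟨j0, h1, h2⟩
  obtain ⟨j', hj', hj's⟩ : ∃ j' : ℕ → M, (∀ i, Gd t ρ (j' i) (k (f^[i] a))) ∧
      ∀ i, j' (m + 1 + i) = j i := by
    choose q hq using hcov
    refine ⟨fun i => if i < m + 1 then q i else j (i - (m + 1)), ?_, ?_⟩
    · intro i
      by_cases hi : i < m + 1
      · simp only [hi, if_true]
        exact hq i
      · simp only [hi, if_false]
        obtain ⟨i', rfl⟩ := Nat.exists_eq_add_of_le (not_lt.mp hi)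
        rw [hia, Nat.add_sub_cancel_left]
        exact hj i'
    · intro i
      have h1 : ¬ (m + 1 + i < m + 1) := by omega
      simp only [h1, if_false, Nat.add_sub_cancel_left]
  have hj'N : j' N = j T := hj's T
  obtain ⟨hGC, hCH⟩ := hx E M F e f g k Es Eu π π' t ρ R ρ₀ κf κ0 K l Cs r ε1 ε2 η2 X a j' hj'
  have hCH1 := hCH η1 hη1 hη2 N (by omega)
  -- the left boundary operator
  obtain ⟨s0, B, hB1, hB2⟩ := exists_op (Pj π (j' 0) (ps E (j' 0) a))
  -- the expanded operator at the cut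
  obtain ⟨w0, βu, hβu1, hβu2⟩ := exists_op (1 - Pj π' (j' (m + 1)) (cx E f k a j' (m + 1)))
  have hβu3 : ∀ v, βu v = 0 ↔ Pj π' (j' (m + 1)) (cx E f k a j' (m + 1)) v = v := by
    intro v
    rw [hβu1]
    show v - Pj π' (j' (m + 1)) (cx E f k a j' (m + 1)) v = 0 ↔ _
    rw [sub_eq_zero]
    exact eq_comm
  have hcx0 : cx E f k a j' (m + 1) = cx E f k x j 0 := by
    show ps E (j' (m + 1)) (k (f^[m + 1] a)) = ps E (j 0) (k (f^[0] x))
    have h1 : j' (m + 1) = j 0 := hj's 0
    rw [h1, hma]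
    rfl
  have hβs3 : ∀ v, βs v = 0 ↔ Pj π' (j' (m + 1)) (cx E f k a j' (m + 1)) v = 0 := by
    intro v
    rw [hβs, hcx0]
    have h1 : j' (m + 1) = j 0 := hj's 0
    rw [h1]
  have hC3 : ∀ v, C v = 0 ↔ Pj π (j' N) (ps E (j' N) (f^[N] a)) v = v := by
    intro v
    rw [hC, hj'N, hNa]
  -- the full problem
  have hfull := hf E M F e f g k Es Eu π π' t ρ R ρ₀ κf κ0 K l Cs r ε1 ε2 η2 X η1 hη1 hη2 a N
    (by omega) (hn0 N (by omega)) j' hj' s0 w B C hB1 hB2 hC3 hCs
  -- the cut
  have hcl : ∀ i ≤ N, closure (Dx E f k a j' r η1 N i) ⊆ closedBall (cx E f k a j' i) r := by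
    intro i hi
    exact closure_minimal (hCH1.sub i hi) isClosed_closedBall
  have hcut := hc K l Cs X.g2 E _ _ hGC m T s0 w s w0 (cx E f k a j') (Fx E f j')
    (Dx E f k a j' r η1 N) r ε1 ε2 (fun y => B (y - ps E (j' 0) a))
    (fun y => C (y - ps E (j' N) (f^[N] a))) βs βu hCH1
    (by fun_prop) (by fun_prop) hβs3 hβss hβu3 hβu2
    (by
      intro y hy hstep h0
      by_contra hcon
      have hD0 : Dx E f k a j' r η1 N 0 = ball (ps E (j' 0) a) η1 := by
        simp only [Dx, if_true]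
      have h1 := hy 0 (Nat.zero_le _)
      rw [hD0] at h1 hcon
      have h2 : dist (y 0) (ps E (j' 0) a) ≤ η1 := by
        have := closure_ball_subset_closedBall h1
        exact mem_closedBall.mp this
      have h3 : dist (y 0) (ps E (j' 0) a) = η1 := by
        apply le_antisymm h2
        rw [mem_ball, not_lt] at hcon
        exact hcon
      have horb := orb X hj' (N := m) (y := y) (fun i hi => hcl i (by omega) (hy i hi)) hstep
      obtain ⟨ht0, -, -⟩ := horb 0 (Nat.zero_le _)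
      have hps : ps E (j' 0) ((ps E (j' 0)).symm (y 0)) = y 0 := (ps E (j' 0)).right_inv ht0
      obtain ⟨n, hn, hlt⟩ := hn1 N (by omega) (j' 0) ((ps E (j' 0)).symm (y 0))
        (X.kgd _ _ (hj' 0)) ((ps E (j' 0)).map_target ht0) (by rw [hps]; exact h3)
        (by
          rw [hps]
          exact (hB1 _).mp h0)
      exact absurd (horb n (hn.trans hm1)).2.2 (not_le.mpr hlt))
    (by
      intro y hy hstep h0
      by_contra hcon
      have hDN : Dx E f k a j' r η1 N (m + 1 + T) = ball (ps E (j T) b) η1 := by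
        have h1 : N ≠ 0 := by omega
        simp only [Dx, ← hN, h1, if_false, if_true]
        rw [hj'N, hNa]
      have h1 := hy T le_rfl
      rw [hDN] at h1 hcon
      have h2 : dist (y T) (ps E (j T) b) ≤ η1 := by
        have := closure_ball_subset_closedBall h1
        exact mem_closedBall.mp this
      have h3 : dist (y T) (ps E (j T) b) = η1 := by
        apply le_antisymm h2
        rw [mem_ball, not_lt] at hcon
        exact hcon
      have hcxi : ∀ i, cx E f k a j' (m + 1 + i) = cx E f k x j i := by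
        intro i
        show ps E (j' (m + 1 + i)) (k (f^[m + 1 + i] a)) = ps E (j i) (k (f^[i] x))
        rw [hj's, hia]
      have hFi : ∀ i, Fx E f j' (m + 1 + i) = Fx E f j i := by
        intro i
        show rep f (j' (m + 1 + i)) (j' (m + 1 + (i + 1))) = rep f (j i) (j (i + 1))
        rw [hj's, hj's]
      have horb := orb X hj (N := T) (y := y)
        (fun i hi => by
          rw [← hcxi]
          exact hcl (m + 1 + i) (by omega) (hy i hi))
        (fun i hi => by rw [hstep i hi, hFi])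
      obtain ⟨htT, hoT, -⟩ := horb T le_rfl
      have hps : ps E (j T) ((ps E (j T)).symm (y T)) = y T := (ps E (j T)).right_inv htT
      have h0' : C (y T - ps E (j T) b) = 0 := by
        have h4 : C (y T - ps E (j' N) (f^[N] a)) = 0 := h0
        rwa [hj'N, hNa] at h4
      obtain ⟨n, hn, hlt⟩ := hexit ((ps E (j T)).symm (y T)) ((ps E (j T)).map_target htT)
        (by rw [hps]; exact h3) (by
          rw [hps]
          exact (hC _).mp h0')
      have e1 : f.symm^[n] ((ps E (j T)).symm (y T)) =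
          f^[T - n] ((ps E (j 0)).symm (y 0)) := by
        rw [← hoT]
        have h5 : T = n + (T - n) := by omega
        conv_lhs => rw [h5, Function.iterate_add_apply]
        exact hsf _ _
      have e2 : f.symm^[n] b = f^[T - n] x := by
        rw [← hTx]
        have h5 : T = n + (T - n) := by omega
        conv_lhs => rw [h5, Function.iterate_add_apply]
        exact hsf _ _
      rw [e1, e2] at hlt
      exact absurd (horb (T - n) (by omega)).2.2 (not_le.mpr hlt))
  -- the right factor is `RD`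
  have hRD : adeg (Bvp T (fun i => Fx E f j' (m + 1 + i))
      (fun y => βs (y - cx E f k a j' (m + 1))) (fun y => C (y - ps E (j' N) (f^[N] a))))
      (Box T (fun i => Dx E f k a j' r η1 N (m + 1 + i))) = RD E f k x j r η1 T βs C := by
    have h1 : (fun i => Fx E f j' (m + 1 + i)) = Fx E f j := by
      funext i
      show rep f (j' (m + 1 + i)) (j' (m + 1 + (i + 1))) = rep f (j i) (j (i + 1))
      rw [hj's, hj's]
    have h2 : (fun y => C (y - ps E (j' N) (f^[N] a))) =
        fun y => C (y - ps E (j T) (f^[T] x)) := by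
      rw [hj'N, hNa, hTx]
    have h3 : (fun i => Dx E f k a j' r η1 N (m + 1 + i)) = Dr E f k x j r η1 T := by
      funext i
      have h4 : m + 1 + i ≠ 0 := by omega
      by_cases hi : i = T
      · subst hi
        have h6 : N ≠ 0 := by omega
        simp only [Dx, Dr, ← hN, h6, if_false, if_true]
        rw [hj'N, hNa, hTx]
      · have h5 : m + 1 + i ≠ N := by omega
        simp only [Dx, Dr, h4, h5, hi, if_false]
        show ball (ps E (j' (m + 1 + i)) (k (f^[m + 1 + i] a))) (r / 2) =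
          ball (ps E (j i) (k (f^[i] x))) (r / 2)
        rw [hj's, hia]
    rw [h1, h2, h3, hcx0]
    rfl
  have hprod : adeg (Bvp (m + 1 + T) (Fx E f j') (fun y => B (y - ps E (j' 0) a))
      (fun y => C (y - ps E (j' N) (f^[N] a)))) (Box (m + 1 + T) (Dx E f k a j' r η1 N)) = 1 :=
    hfull
  rw [hcut, hRD] at hprod
  exact Nat.eq_one_of_mul_eq_one_left hprod

end Pool.Agent.H963.CJ
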