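import Pool.Agent.H963.CJ.MDef3

/-!
# CJ-SURJ: the semiconjugacy is surjective (helper356, for helper963)
-/

set_option autoImplicit false
set_option linter.unusedSectionVars false

open Set Filter Topology Metric
open scoped Manifold ContDiff

namespace Pool.Agent.H963.CJ

open Pool.Agent.H721R2 Pool.Agent.H789R2.AN Pool.Agent.TH289 Pool.Agent.H244.Dyn
  Pool.Agent.H244.Loc

universe u v w

namespace NSURJ

section abstract'

variable {E : Type u} [NormedAddCommGroup E] [NormedSpace ℝ E] [FiniteDimensional ℝ E]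

/-- coordinates with a given kernel -/
theorem exists_beta (P : E →L[ℝ] E) : ∃ (s : ℕ) (β : E →L[ℝ] (Fin s → ℝ)),
    (∀ v, β v = 0 ↔ P v = 0) ∧ Function.Surjective β := by
  set W := LinearMap.range (P : E →ₗ[ℝ] E) with hW
  set e : W ≃ₗ[ℝ] (Fin (Module.finrank ℝ W) → ℝ) := (Module.finBasis ℝ W).equivFun with he
  refine ⟨Module.finrank ℝ W, LinearMap.toContinuousLinearMap
    (e.toLinearMap ∘ₗ (P : E →ₗ[ℝ] E).rangeRestrict), fun v => ?_, ?_⟩
  · show e ((P : E →ₗ[ℝ] E).rangeRestrict v) = 0 ↔ P v = 0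
    rw [LinearEquiv.map_eq_zero_iff]
    constructor
    · intro h
      exact congrArg Subtype.val h
    · intro h
      exact Subtype.ext h
  · intro y
    obtain ⟨v, hv⟩ := (P : E →ₗ[ℝ] E).surjective_rangeRestrict (e.symm y)
    refine ⟨v, ?_⟩
    show e ((P : E →ₗ[ℝ] E).rangeRestrict v) = y
    rw [hv, LinearEquiv.apply_symm_apply]

theorem box_open (n : ℕ) (c : ℕ → E) (r : ℝ) : IsOpen (Box n (fun i => ball (c i) r)) := by
  have h1 : Box n (fun i => ball (c i) r) =
      Set.pi univ (fun i : Fin (n + 1) => ball (c i) r) := by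
    ext y
    exact ⟨fun hy i _ => hy i, fun hy i => hy i (mem_univ i)⟩
  rw [h1]
  exact isOpen_set_pi finite_univ fun i _ => isOpen_ball

theorem box_closure (n : ℕ) (c : ℕ → E) (r : ℝ) {y : Fin (n + 1) → E}
    (hy : y ∈ closure (Box n (fun i => ball (c i) r))) (i : Fin (n + 1)) :
    y i ∈ closedBall (c i) r := by
  have h1 : Box n (fun i => ball (c i) r) ⊆
      Set.pi univ (fun i : Fin (n + 1) => closedBall (c i) r) := by
    intro y hy i _
    exact ball_subset_closedBall (hy i)
  have h2 : IsClosed (Set.pi univ (fun i : Fin (n + 1) => closedBall (c i) r)) :=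
    isClosed_set_pi fun i _ => isClosed_closedBall
  exact closure_minimal h1 h2 hy i (mem_univ i)

theorem box_bounded (n : ℕ) (c : ℕ → E) (r : ℝ) :
    Bornology.IsBounded (Box n (fun i => ball (c i) r)) := by
  have h1 : Box n (fun i => ball (c i) r) ⊆
      Set.pi univ (fun i : Fin (n + 1) => closedBall (c i) r) := by
    intro y hy i _
    exact ball_subset_closedBall (hy i)
  exact (Bornology.IsBounded.pi fun i => isBounded_closedBall).subset h1

/-- the orbit segment in the tube -/
theorem exists_orbit (h7 : S_A7.{u}) (hm : S_MID.{u}) {K l Cs : ℝ} (h2 : G2P.{u} K l Cs)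
    {A P : ℕ → E →L[ℝ] E} (hGC : GC A P K l) (n : ℕ) (c : ℕ → E) (F : ℕ → E → E) {r ε1 : ℝ}
    (hr : 0 < r) (he1 : 0 ≤ ε1) (hsmall : Cs * ε1 < r / 2)
    (hcont : ∀ i ≤ n, ContinuousOn (F i) (closedBall (c i) (r / 2)))
    (hlin : ∀ i ≤ n, ∀ y ∈ closedBall (c i) (r / 2),
      ‖F i y - c (i + 1) - A i (y - c i)‖ ≤ ε1) :
    ∃ y : ℕ → E, (∀ i ≤ n, y i ∈ ball (c i) (r / 2)) ∧ ∀ i < n, y (i + 1) = F i (y i) := by
  obtain ⟨s, βs, hβs, hβs'⟩ := exists_beta (P 0)
  obtain ⟨w, βu, hβu, hβu'⟩ := exists_beta (1 - P (n + 1))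
  have hβu2 : ∀ v, βu v = 0 ↔ P (n + 1) v = v := by
    intro v
    rw [hβu]
    show v - P (n + 1) v = 0 ↔ _
    rw [sub_eq_zero, eq_comm]
  have hdeg := hm K l Cs h2 E A P hGC n s w c F r ε1 βs βu hr he1 hsmall hcont hlin hβs hβs'
    hβu2 hβu'
  set Φ := Bvp n F (fun y => βs (y - c 0)) (fun y => βu (F n y - c (n + 1))) with hΦ
  -- the zeros in the closed box
  have hzero : ∀ y ∈ closure (Box n (fun i => ball (c i) (r / 2))), Φ y = 0 →
      (∀ i : Fin n, y i.succ = F i (y i.castSucc)) ∧
      ∀ i : Fin (n + 1), y i ∈ ball (c i) (r / 2) := by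
    intro y hy h0
    have h01 : ∀ i : Fin n, y i.succ = F i (y i.castSucc) := by
      intro i
      have := congrFun (congrArg Prod.fst h0) i
      exact sub_eq_zero.1 this
    have h02 : P 0 (y 0 - c 0) = 0 := by
      have : βs (y 0 - c 0) = 0 := congrArg (fun p => p.2.1) h0
      exact (hβs _).1 this
    have h03 : P (n + 1) (F n (y (Fin.last n)) - c (n + 1)) =
        F n (y (Fin.last n)) - c (n + 1) := by
      have : βu (F n (y (Fin.last n)) - c (n + 1)) = 0 := congrArg (fun p => p.2.2) h0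
      exact (hβu2 _).1 this
    have hcl := box_closure n c (r / 2) hy
    refine ⟨h01, ?_⟩
    set x : ℕ → E := fun i => if h : i < n + 1 then y ⟨i, h⟩ else F n (y (Fin.last n)) with hx
    have hx1 : ∀ i : Fin (n + 1), x i = y i := by
      intro i
      show (if h : (i : ℕ) < n + 1 then y ⟨i, h⟩ else F n (y (Fin.last n))) = y i
      rw [dif_pos i.2]
    have hx2 : x (n + 1) = F n (y (Fin.last n)) := by
      show (if h : n + 1 < n + 1 then y ⟨n + 1, h⟩ else F n (y (Fin.last n))) = _
      rw [dif_neg (lt_irrefl _)]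
    have hxi : ∀ i (h : i < n + 1), x i = y ⟨i, h⟩ := fun i h => hx1 ⟨i, h⟩
    have hstep : ∀ i < n + 1, x (i + 1) = F i (x i) := by
      intro i hi
      rcases Nat.lt_succ_iff_lt_or_eq.1 hi with h | h
      · rw [hxi i hi, hxi (i + 1) (by omega)]
        exact h01 ⟨i, h⟩
      · subst h
        rw [hx2, hxi i hi]
        rfl
    have hmem : ∀ i < n + 1, x i ∈ closedBall (c i) (r / 2) := by
      intro i hi
      rw [hxi i hi]
      exact hcl ⟨i, hi⟩
    have hest := h2 E A P hGC (n + 1) c x (fun i => x (i + 1)) (fun _ => 0) ε1 0 he1 le_rfl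
      (fun i _ => ⟨le_rfl, zero_le_one⟩)
      (fun i hi => by
        rw [hstep i hi]
        exact hlin i (by omega) _ (hmem i hi))
      (fun i _ => by simp only [sub_zero, one_smul])
      (fun i _ => by simp only [sub_zero, one_smul])
      (by
        have : x 0 = y 0 := hx1 0
        rw [this, h02, norm_zero])
      (by rw [hx2, h03, sub_self, norm_zero])
    intro i
    rw [← hx1 i, mem_ball, dist_eq_norm]
    have := hest i (by have := i.2; omega)
    rw [add_zero] at this
    exact lt_of_le_of_lt this hsmall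
  have hadm : Adm Φ (Box n (fun i => ball (c i) (r / 2))) := by
    refine ⟨box_open n c _, box_bounded n c _, ?_, ?_⟩
    · have hF : ∀ i : ℕ, ∀ (h : i < n + 1), ContinuousOn (fun y : Fin (n + 1) → E =>
          F i (y ⟨i, h⟩)) (closure (Box n (fun i => ball (c i) (r / 2)))) := by
        intro i h
        exact (hcont i (by omega)).comp (continuous_apply _).continuousOn
          (fun y hy => box_closure n c _ hy ⟨i, h⟩)
      refine ContinuousOn.prodMk ?_ (ContinuousOn.prodMk ?_ ?_)
      · refine continuousOn_pi.2 fun i => ?_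
        exact (continuous_apply _).continuousOn.sub (hF i (by omega))
      · exact (βs.continuous.comp ((continuous_apply _).sub continuous_const)).continuousOn
      · exact βu.continuous.comp_continuousOn ((hF n (by omega)).sub continuousOn_const)
    · intro y hy h0
      have h1 := hzero y (frontier_subset_closure hy) h0
      rw [(box_open n c (r / 2)).frontier_eq] at hy
      exact hy.2 h1.2
  obtain ⟨y, hy, hy0⟩ := h7 _ _ Φ _ hadm (by rw [hdeg]; exact one_ne_zero)
  have h1 := hzero y (subset_closure hy) hy0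
  refine ⟨fun i => if h : i < n + 1 then y ⟨i, h⟩ else 0, fun i hi => ?_, fun i hi => ?_⟩
  · simp only
    rw [dif_pos (Nat.lt_succ_of_le hi)]
    exact h1.2 ⟨i, _⟩
  · simp only
    rw [dif_pos (by omega : i < n + 1), dif_pos (by omega : i + 1 < n + 1)]
    exact h1.1 ⟨i, hi⟩

end abstract'

end NSURJ

open NSURJ in
/-- **SURJ.** -/
theorem t_SURJ (h7 : S_A7.{u}) (hm : S_MID.{u}) : S_SURJ.{u, v, w} := by
  intro E _ _ _ M _ _ _ _ F _ _ e f g k Es Eu π π' t ρ R ρ₀ κf κ0 K l Cs r ε1 ε2 η2 hctx z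
  have hκ0 : 0 < κ0 := hctx.fc.kk.pos
  have hCs : Cs * ε1 < r / 2 := by
    have h1 : Cs * ε1 ≤ Cs * (ε1 + ε2) :=
      mul_le_mul_of_nonneg_left (by linarith [hctx.e2]) (by linarith [hctx.Cs1])
    exact lt_of_le_of_lt h1 hctx.small
  have hr2 : ∀ c : E, closedBall c (r / 2) ⊆ closedBall c r := fun c =>
    closedBall_subset_closedBall (by linarith [hctx.r_pos])
  have hGW : ∀ j z, Gd t ρ j z → Gw t ρ j z := by
    rintro j z ⟨h1, h2⟩
    refine ⟨h1, h2.trans ?_⟩
    have : 0 ≤ dist z j := dist_nonneg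
    linarith
  -- approximate solutions
  have hex : ∀ n : ℕ, ∃ q : M, ∀ i : ℕ, i ≤ 2 * n →
      dist (ob f q (-(n : ℤ) + i)) (ob g z (-(n : ℤ) + i)) ≤ κ0 := by
    intro n
    set Z : ℕ → M := fun i => g^[i] (g.symm^[n] z) with hZ
    choose j hj using fun i => hctx.fc.ch.cover (Z i)
    have hGd : ∀ i, Gd t ρ (j i) (Z i) := hj
    have hZs : ∀ i, Z (i + 1) = g (Z i) := fun i => Function.iterate_succ_apply' g i _
    have hGC := hctx.gc Z j hZs fun i => hGW _ _ (hGd i)
    obtain ⟨y, hy1, hy2⟩ := exists_orbit h7 hm hctx.g2 hGC (2 * n)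
      (fun i => ps E (j i) (Z i)) (fun i => rep f (j i) (j (i + 1))) hctx.r_pos hctx.e1 hCs
      (fun i _ => by
        have hst := hctx.step (Z i) (j i) (j (i + 1)) (hGd i) (by rw [← hZs]; exact hGd (i + 1))
        have h1 : ContinuousOn (ps E (j i)).symm (closedBall (ps E (j i) (Z i)) (r / 2)) :=
          (continuousOn_extChartAt_symm (j i)).mono fun y hy => (hst y (hr2 _ hy)).1
        have h2 : ContinuousOn (fun y => f ((ps E (j i)).symm y))
            (closedBall (ps E (j i) (Z i)) (r / 2)) := f.continuous.comp_continuousOn h1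
        exact (continuousOn_extChartAt (j (i + 1))).comp h2
          fun y hy => (hst y (hr2 _ hy)).2.1)
      (fun i _ y hy => by
        have hst := hctx.step (Z i) (j i) (j (i + 1)) (hGd i) (by rw [← hZs]; exact hGd (i + 1))
        have h1 := (hst y (hr2 _ hy)).2.2.2
        rw [← hZs] at h1
        exact h1)
    set p : M := (ps E (j 0)).symm (y 0) with hp
    have hpi : ∀ i, i ≤ 2 * n → f^[i] p = (ps E (j i)).symm (y i) := by
      intro i
      induction i with
      | zero => intro _; rfl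
      | succ i ih =>
        intro hi
        have h1 := ih (by omega)
        have hst := hctx.step (Z i) (j i) (j (i + 1)) (hGd i) (by rw [← hZs]; exact hGd (i + 1))
          (y i) (hr2 _ (ball_subset_closedBall (hy1 i (by omega))))
        rw [Function.iterate_succ_apply', h1, hy2 i (by omega)]
        show _ = (ps E (j (i + 1))).symm (ps E (j (i + 1)) (f ((ps E (j i)).symm (y i))))
        rw [(ps E (j (i + 1))).left_inv hst.2.1]
    have hclose : ∀ i, i ≤ 2 * n → dist (f^[i] p) (Z i) ≤ κ0 := by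
      intro i hi
      rw [hpi i hi]
      have := hctx.tube (Z i) (j i) (hGd i) (y i) (hr2 _ (ball_subset_closedBall (hy1 i hi)))
      linarith
    refine ⟨f^[n] p, fun i hi => ?_⟩
    have hobf : ob f (f^[n] p) (-(n : ℤ) + i) = f^[i] p := by
      rw [orb_nat (ob_orb f _)]
      congr 1
      have h1 := orb_neg (ob_orb f (f^[n] p)) 0 n
      rw [zero_sub] at h1
      rw [h1, ob_zero]
      have h2 : Function.LeftInverse (f.symm : M → M)^[n] f^[n] :=
        Function.LeftInverse.iterate f.symm_apply_apply n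
      exact h2 p
    have hobg : ob g z (-(n : ℤ) + i) = Z i := by
      rw [orb_nat (ob_orb g _)]
      show _ = g^[i] (g.symm^[n] z)
      congr 1
      have h1 := orb_neg (ob_orb g z) 0 n
      rw [zero_sub] at h1
      rw [h1, ob_zero]
    rw [hobf, hobg]
    exact hclose i hi
  choose q hq using hex
  obtain ⟨a, -, φ, hφ, hlim⟩ := isCompact_univ.tendsto_subseq (x := q) (fun n => mem_univ _)
  refine ⟨a, hctx.sepg a z fun m => ?_⟩
  have hcl : Tendsto (fun i => dist (ob f (q (φ i)) m) (ob g z m)) atTop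
      (𝓝 (dist (ob f a m) (ob g z m))) := by
    have h1 : Tendsto (fun i => ob f (q (φ i)) m) atTop (𝓝 (ob f a m)) :=
      ((ob_cont f m).tendsto a).comp hlim
    exact h1.dist tendsto_const_nhds
  refine le_of_tendsto hcl ?_
  filter_upwards [eventually_ge_atTop m.natAbs] with i hi
  have hφi : m.natAbs ≤ φ i := hi.trans (hφ.id_le i)
  have h1 := hq (φ i) (m + φ i).toNat (by omega)
  have h2 : -((φ i : ℕ) : ℤ) + ((m + φ i).toNat : ℤ) = m := by omega
  rw [h2] at h1
  exact h1

end Pool.Agent.H963.CJ
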