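import Pool.Agent.H963.CJ.MDef3

/-!
# Part TB: the context exists for all Anosov `f` close to `g` (helper263)
-/

set_option autoImplicit false
set_option linter.unusedSectionVars false

open Set Filter Topology Metric
open scoped Manifold ContDiff

universe u v w

namespace Pool.Agent.H963.CJ.NTB

open Pool.Agent.H721R2 Pool.Agent.H789R2.AN Pool.Agent.TH289 Pool.Agent.H244.Dyn
  Pool.Agent.H244.Loc

/-- a common period -/
theorem inj_per' {M : Type v} {k : M → M} {f g : M → M}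
    (h : ∀ n : ℕ, 1 ≤ n → BijOn k {x | f^[n] x = x} {x | g^[n] x = x}) {p q : M}
    (hp : p ∈ Function.periodicPts f) (hq : q ∈ Function.periodicPts f) (hpq : k p = k q) :
    p = q := by
  obtain ⟨m, hm, hpm⟩ := hp
  obtain ⟨n, hn, hqn⟩ := hq
  have h1 : f^[m * n] p = p := (hpm.mul_const n : Function.IsPeriodicPt f (m * n) p)
  have h2 : f^[m * n] q = q := (hqn.const_mul m : Function.IsPeriodicPt f (m * n) q)
  exact (h (m * n) (Nat.mul_pos hm hn)).injOn h1 h2 hpq

section dyn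

variable {M : Type v} [MetricSpace M]

theorem orb_k {f g : M ≃ₜ M} {k : M → M} (hkf : ∀ x, k (f x) = g (k x)) (x : M) :
    Orb g (fun n => k (ob f x n)) := by
  intro n
  show k (ob f x (n + 1)) = g (k (ob f x n))
  rw [ob_orb f x n, hkf]

theorem kk_of {f g : M ≃ₜ M} {κ : ℝ} (hTA : TA g κ) {k : M → M} (hk : Continuous k)
    (hkf : ∀ x, k (f x) = g (k x)) {η : ℝ} (hkd : ∀ x, dist (k x) x ≤ η) (hη : η ≤ κ / 16)
    (hbij : ∀ n : ℕ, 1 ≤ n → BijOn k {x | f^[n] x = x} {x | g^[n] x = x}) : KK f k (κ / 8) := by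
  have hκ := hTA.pos
  refine ⟨by positivity, hk, fun x w h => ?_, fun x w h => ?_, fun x w h => ?_, fun x w h => ?_,
    fun p q hp hq h => inj_per' hbij hp hq h⟩
  · rw [hkf, hkf, h]
  · have e : ∀ x, k (f.symm x) = g.symm (k x) := by
      intro x
      have h1 := hkf (f.symm x)
      rw [f.apply_symm_apply] at h1
      rw [h1, g.symm_apply_apply]
    rw [e, e, h]
  · have h1 := hkd x
    have h2 := hkd w
    have h3 := dist_triangle x (k x) w
    rw [dist_comm x (k x)] at h3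
    rw [← h] at h2
    linarith
  · have h1 := hTA.exp _ _ (orb_k hkf x) (orb_k hkf w) (fun n => by
      have e1 := hkd (ob f x n)
      have e2 := hkd (ob f w n)
      have e3 := h n
      have e4 := dist_triangle (k (ob f x n)) (ob f x n) (k (ob f w n))
      have e5 := dist_triangle (ob f x n) (ob f w n) (k (ob f w n))
      rw [dist_comm (ob f w n) (k (ob f w n))] at e5
      linarith)
    exact congrFun h1 0

theorem sepg_of {f g : M ≃ₜ M} {κ : ℝ} (hTA : TA g κ) {k : M → M}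
    (hkf : ∀ x, k (f x) = g (k x)) {η : ℝ} (hkd : ∀ x, dist (k x) x ≤ η) (hη : η ≤ κ / 16)
    (p z : M) (h : ∀ n : ℤ, dist (ob f p n) (ob g z n) ≤ κ / 8) : k p = z := by
  have hκ := hTA.pos
  have h1 := hTA.exp _ _ (orb_k hkf p) (ob_orb g z) (fun n => by
    have e1 := hkd (ob f p n)
    have e3 := h n
    have e4 := dist_triangle (k (ob f p n)) (ob f p n) (ob g z n)
    linarith)
  exact congrFun h1 0

end dyn

section ch

variable {E : Type u} [NormedAddCommGroup E] [NormedSpace ℝ E] [FiniteDimensional ℝ E]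
  {M : Type v} [MetricSpace M] [CompactSpace M] [ChartedSpace E M] [IsManifold 𝓘(ℝ, E) 1 M]

theorem gd_gw {t : Finset M} {ρ : M → ℝ} {j z : M} (h : Gd t ρ j z) : Gw t ρ j z := by
  refine ⟨h.1, ?_⟩
  have h1 := h.2
  have h2 : 0 ≤ dist z j := dist_nonneg
  linarith

/-- the projections are bounded by `K` -/
theorem bd_of {g : M ≃ₜ M} {π' : M → E →L[ℝ] E} {t : Finset M} {ρ : M → ℝ} {R ρ₀ : ℝ}
    (hG : GCh E t ρ R ρ₀) {K l : ℝ}
    (hgc : ∀ z j : ℕ → M, (∀ i, z (i + 1) = g (z i)) → (∀ i, Gw t ρ (j i) (z i)) →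
      GC (fun i => fderiv ℝ (rep g (j i) (j (i + 1))) (extChartAt 𝓘(ℝ, E) (j i) (z i)))
        (fun i => Pj π' (j i) (extChartAt 𝓘(ℝ, E) (j i) (z i))) K l)
    {j z : M} (h : Gw t ρ j z) : ‖Pj π' j (extChartAt 𝓘(ℝ, E) j z)‖ ≤ K := by
  choose J hJt hJ using hG.cover
  have h1 := hgc (fun i => g^[i] z) (fun i => if i = 0 then j else J (g^[i] z))
    (fun i => by rw [Function.iterate_succ_apply'])
    (fun i => by
      by_cases hi : i = 0
      · subst hi
        exact h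
      · simp only [if_neg hi]
        exact gd_gw ⟨hJt _, hJ _⟩)
  exact h1.bd 0

end ch

end Pool.Agent.H963.CJ.NTB

namespace Pool.Agent.H963.CJ

open Pool.Agent.H721R2 Pool.Agent.H789R2.AN Pool.Agent.TH289 Pool.Agent.H244.Dyn
  Pool.Agent.H244.Loc

theorem t_TB (hch : S_CHART.{u, v}) (ha : S_M1a.{u, v, w}) (hb : S_M1b.{u, v})
    (hg2 : S_G2.{u}) : S_TB.{u, v, w} := by
  intro E _ _ _ M _ _ _ _ F _ _ e he hinj g Es' Eu' C' a' b' Ls' Lu' κ hg hTA η0 hη0
  have hκ := hTA.pos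
  obtain ⟨t, ρ, R, ρ₀, hG⟩ := hch E M
  obtain ⟨π', hπ'⟩ := exists_pi (E := E) hg.compl
  obtain ⟨K, l, hK1, hl0, hl1, hgc⟩ := ha E M F e he hinj g Es' Eu' C' a' b' Ls' Lu' hg π' hπ'
    t ρ R ρ₀ hG
  obtain ⟨Cs, hCs1, hG2⟩ := hg2 K l hK1 hl0 hl1
  have hCs0 : 0 < Cs := by linarith
  obtain ⟨κ0, hκ0⟩ : ∃ κ0, κ0 = κ / 8 := ⟨_, rfl⟩
  have hκ0p : 0 < κ0 := by rw [hκ0]; positivity
  obtain ⟨δc, hδc, hδcR, hc2⟩ := hG.c2 (κ0 / 2) (by positivity)
  obtain ⟨ν, hν⟩ : ∃ ν, ν = 1 / (16 * Cs) := ⟨_, rfl⟩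
  have hνp : 0 < ν := by rw [hν]; positivity
  obtain ⟨r, hr, hrδ, ε0, hε0, hstep⟩ := hb E M g hg.smooth t ρ R ρ₀ hG ν hνp δc hδc
  have hrR : r ≤ R := hrδ.trans hδcR
  obtain ⟨ε1, hε1⟩ : ∃ ε1, ε1 = ν * r := ⟨_, rfl⟩
  have hε1p : 0 < ε1 := by rw [hε1]; positivity
  have hsmall : Cs * (ε1 + ε1) < r / 2 := by
    have h1 : Cs * (ε1 + ε1) = r / 8 := by
      rw [hε1, hν]
      field_simp
      ring
    rw [h1]
    linarith
  obtain ⟨η2, hη2⟩ : ∃ η2, η2 = min (r / 8) (ε1 / (4 * (1 + K))) := ⟨_, rfl⟩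
  have hη2p : 0 < η2 := by
    rw [hη2]
    exact lt_min (by positivity) (by positivity)
  have hη2r : η2 ≤ r / 8 := by rw [hη2]; exact min_le_left _ _
  have hη2K : (1 + K) * (2 * η2) ≤ ε1 := by
    have h1 : η2 ≤ ε1 / (4 * (1 + K)) := by rw [hη2]; exact min_le_right _ _
    rw [le_div_iff₀ (by positivity)] at h1
    linarith
  obtain ⟨δ1, hδ1, hc1⟩ := hG.c1 η2 hη2p
  obtain ⟨η, hη⟩ : ∃ η, η = min η0 (min ρ₀ (min (κ / 16) (δ1 / 2))) := ⟨_, rfl⟩
  have hηp : 0 < η := by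
    rw [hη]
    exact lt_min hη0 (lt_min hG.ρ₀_pos (lt_min (by positivity) (by positivity)))
  have hη_0 : η ≤ η0 := by rw [hη]; exact min_le_left _ _
  have hη_ρ : η ≤ ρ₀ := by rw [hη]; exact (min_le_right _ _).trans (min_le_left _ _)
  have hη_κ : η ≤ κ / 16 := by
    rw [hη]
    exact (min_le_right _ _).trans ((min_le_right _ _).trans (min_le_left _ _))
  have hη_δ : η ≤ δ1 / 2 := by
    rw [hη]
    exact (min_le_right _ _).trans ((min_le_right _ _).trans (min_le_right _ _))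
  obtain ⟨ε', hε', hsemi⟩ := Pool.Agent.H244.Main.semi_bij he hinj hg hTA hηp
  refine ⟨min ε' ε0, lt_min hε' hε0, fun f Es Eu C a b Ls Lu κf hf hTAf hfg => ?_⟩
  obtain ⟨k, hk, hkd, hkf, hbij⟩ := hsemi f Es Eu C a b Ls Lu hf
    (fun x => (hfg x).trans_le (min_le_left _ _))
  obtain ⟨π, hπ⟩ := exists_pi (E := E) hf.compl
  have hstep' := hstep f (fun x => (hfg x).trans_le (min_le_right _ _))
  -- closeness of `x` and `k x` in the charts
  have hnear : ∀ x j, Gd t ρ j (k x) →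
      dist (extChartAt 𝓘(ℝ, E) j x) (extChartAt 𝓘(ℝ, E) j (k x)) < η2 := by
    intro x j hj
    refine (hc1 j hj.1 (k x) (NTB.gd_gw hj).2 x ?_).2
    rw [dist_comm]
    have := hkd x
    linarith
  refine ⟨k, π, π', t, ρ, R, ρ₀, κ0, K, l, Cs, r, ε1, ε1, η2, ?_, fun x => (hkd x).trans hη_0,
    hbij⟩
  exact
    { fc :=
        { he := he
          hinj := hinj
          hf := ⟨C, a, b, Ls, Lu, hf⟩
          hπ := hπ
          ch := hG
          taf := hTAf
          kk := by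
            rw [hκ0]
            exact NTB.kk_of hTA hk hkf hkd hη_κ hbij }
      kf := hkf
      gc := hgc
      pc := fun j hj z hz => Pj_cont he hinj hg hπ' (hG.tgt j hj z hz) (isCompact_closedBall _ _)
      g2 := hG2
      Cs1 := hCs1
      r_pos := hr
      rR := hrR
      e1 := hε1p.le
      e2 := hε1p.le
      small := hsmall
      η2_pos := hη2p
      kgd := fun x j hj => by
        refine ⟨hj.1, ?_⟩
        have h1 := hj.2
        have h2 := hkd x
        have h3 := dist_triangle x (k x) j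
        rw [dist_comm x (k x)] at h3
        have h4 := hG.ρ₀_le j hj.1
        linarith
      kr := fun x j hj => by
        have h1 := hnear x j hj
        show dist (extChartAt 𝓘(ℝ, E) j x) (extChartAt 𝓘(ℝ, E) j (k x)) < r / 2
        linarith
      kb := fun x j hj y hy => by
        have h1 := hnear x j hj
        have h2 : dist y (extChartAt 𝓘(ℝ, E) j x) ≤ η2 := hy
        have h3 := dist_triangle y (extChartAt 𝓘(ℝ, E) j x) (extChartAt 𝓘(ℝ, E) j (k x))
        have h4 : dist y (extChartAt 𝓘(ℝ, E) j (k x)) ≤ 2 * η2 := by linarith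
        have h5 : ‖y - extChartAt 𝓘(ℝ, E) j (k x)‖ ≤ 2 * η2 := by
          rw [← dist_eq_norm]
          exact h4
        have hPb := NTB.bd_of hG hgc (NTB.gd_gw hj)
        have h6 : ‖Pj π' j (extChartAt 𝓘(ℝ, E) j (k x)) (y - extChartAt 𝓘(ℝ, E) j (k x))‖ ≤
            K * (2 * η2) := by
          refine (ContinuousLinearMap.le_opNorm _ _).trans ?_
          exact mul_le_mul hPb h5 (norm_nonneg _) (by linarith)
        refine ⟨?_, ?_, ?_⟩
        · show dist y (extChartAt 𝓘(ℝ, E) j (k x)) < r / 2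
          linarith
        · show ‖Pj π' j (extChartAt 𝓘(ℝ, E) j (k x)) (y - extChartAt 𝓘(ℝ, E) j (k x))‖ ≤ ε1
          linarith
        · show ‖(y - extChartAt 𝓘(ℝ, E) j (k x)) -
            Pj π' j (extChartAt 𝓘(ℝ, E) j (k x)) (y - extChartAt 𝓘(ℝ, E) j (k x))‖ ≤ ε1
          refine (norm_sub_le _ _).trans ?_
          linarith
      step := fun z j j' hj hj' y hy => by
        obtain ⟨h1, h2, h3, h4⟩ := hstep' j z j' (NTB.gd_gw hj) (NTB.gd_gw hj') y hy
        refine ⟨h1, h2, h3.trans hδcR, ?_⟩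
        rw [hε1]
        exact h4
      tube := fun z j hj y hy =>
        (hc2 j hj.1 z (NTB.gd_gw hj).2 y (closedBall_subset_closedBall hrδ hy)).le
      sepg := fun p z h => by
        rw [hκ0] at h
        exact NTB.sepg_of hTA hkf hkd hη_κ p z h }

end Pool.Agent.H963.CJ
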