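import Pool.Agent.H963.CJ.MDef3

/-!
# Two points of a fibre: the full degree is at least two
-/

set_option autoImplicit false
set_option linter.unusedSectionVars false

open Set Filter Topology Metric
open scoped Manifold ContDiff

namespace Pool.Agent.H963.CJ

open Pool.Agent.H721R2 Pool.Agent.H789R2.AN Pool.Agent.TH289 Pool.Agent.H244.Dyn
  Pool.Agent.H244.Loc

universe u v w

namespace NXC

/-- extension of a finite sequence -/
noncomputable def ext {E : Type*} [Zero E] (N : ℕ) (y : Fin (N + 1) → E) (i : ℕ) : E :=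
  if h : i < N + 1 then y ⟨i, h⟩ else 0

theorem ext_fin {E : Type*} [Zero E] (N : ℕ) (y : Fin (N + 1) → E) :
    (fun i : Fin (N + 1) => ext N y i) = y := by
  funext i
  unfold ext
  rw [dif_pos i.2]

variable {E : Type*} [NormedAddCommGroup E] [NormedSpace ℝ E]

theorem bvp_zero {s w : ℕ} (N : ℕ) (F : ℕ → E → E) (bm : E → (Fin s → ℝ)) (bp : E → (Fin w → ℝ))
    (y : ℕ → E) : Bvp N F bm bp (fun i : Fin (N + 1) => y i) = 0 ↔
      (∀ i < N, y (i + 1) = F i (y i)) ∧ bm (y 0) = 0 ∧ bp (y N) = 0 := by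
  constructor
  · intro h
    have h1 := congrArg Prod.fst h
    have h2 := congrArg (fun q => q.2.1) h
    have h3 := congrArg (fun q => q.2.2) h
    refine ⟨fun i hi => ?_, h2, ?_⟩
    · have h4 := congrFun h1 ⟨i, hi⟩
      exact sub_eq_zero.mp h4
    · exact h3
  · rintro ⟨h1, h2, h3⟩
    refine Prod.ext ?_ (Prod.ext h2 ?_)
    · funext i
      exact sub_eq_zero.mpr (h1 i i.2)
    · exact h3

theorem mem_box (N : ℕ) (D : ℕ → Set E) (y : ℕ → E) :
    (fun i : Fin (N + 1) => y i) ∈ Box N D ↔ ∀ i ≤ N, y i ∈ D i := by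
  constructor
  · intro h i hi
    exact h ⟨i, Nat.lt_succ_of_le hi⟩
  · intro h i
    exact h i (Nat.le_of_lt_succ i.2)

theorem finrank_eq [FiniteDimensional ℝ E] {N s w : ℕ} (h : s + w = Module.finrank ℝ E) :
    Module.finrank ℝ (Fin (N + 1) → E) =
      Module.finrank ℝ ((Fin N → E) × (Fin s → ℝ) × (Fin w → ℝ)) := by
  rw [Module.finrank_prod, Module.finrank_prod, Module.finrank_pi_fintype,
    Module.finrank_pi_fintype, Module.finrank_fin_fun, Module.finrank_fin_fun]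
  simp only [Finset.sum_const, Finset.card_univ, Fintype.card_fin, smul_eq_mul]
  rw [h]; ring

end NXC

open NXC in
theorem t_XC (h6 : S_A6.{u}) (hs : S_SIGN.{u}) (hd : S_DER.{u}) (hh : S_HYP.{u, v, w})
    (_hx : S_CHX.{u, v, w}) : S_XC.{u, v, w} := by
  intro E _ _ _ M _ _ _ _ F _ _ e f g k Es Eu π π' t ρ R ρ₀ κf κ0 K l Cs r ε1 ε2 η2 hC a b ja jb
    s w B₀ C₀ hga hgb hB₀ hC₀ hsw
  have he := hC.fc.he
  have hinj := hC.fc.hinj
  have hπ := hC.fc.hπ
  have ch := hC.fc.ch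
  obtain ⟨C₁, a₁, b₁, Ls, Lu, hf⟩ := hC.fc.hf
  obtain ⟨δ₀, hδ₀, hyp⟩ := hh E M F e he hinj f Es Eu C₁ a₁ b₁ Ls Lu hf π hπ t ρ R ρ₀ ch s w
    a b ja jb B₀ C₀ hga hgb hB₀ hC₀
  obtain ⟨δc, hδc, hc1⟩ := ch.c1 (δ₀ / 2) (by linarith)
  refine ⟨min (δ₀ / 2) δc, lt_min (by linarith) hδc, ?_⟩
  intro η1 hη1 hη1δ hη12 x x' N j hN hj0 hjN hxa hxb hgd B C hB hCC hkx hne hx0 hxN hBx hCx hadm
  have hBδ : ‖B - B₀‖ < δ₀ := by
    have := hB.trans_le (min_le_left _ _); linarith
  have hCδ : ‖C - C₀‖ < δ₀ := by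
    have := hCC.trans_le (min_le_left _ _); linarith
  obtain ⟨hy1, hy2, hy3⟩ := hyp B C hBδ hCδ
  have hη1' : η1 < δ₀ / 2 := hη1δ.trans_le (min_le_left _ _)
  have hR := ch.R_pos
  have hr := hC.r_pos
  have hrR := hC.rR
  -- good charts
  have hgdw : ∀ i z, Gd t ρ i z → Gw t ρ i z := by
    intro i z hz
    refine ⟨hz.1, hz.2.trans ?_⟩
    have h1 := ch.ρ₀_le _ hz.1
    have h2 := ch.ρ₀_pos
    linarith
  have hkg : ∀ i, g (k (f^[i] x)) = k (f^[i + 1] x) := fun i => by
    rw [← hC.kf, Function.iterate_succ_apply']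
  have htg : ∀ i, closedBall (cx E f k x j i) R ⊆ (extChartAt 𝓘(ℝ, E) (j i)).target := fun i =>
    ch.tgt _ (hgdw _ _ (hgd i)).1 _ (hgdw _ _ (hgd i)).2
  have hst : ∀ i, ∀ y ∈ closedBall (cx E f k x j i) r, y ∈ (extChartAt 𝓘(ℝ, E) (j i)).target ∧
      f ((extChartAt 𝓘(ℝ, E) (j i)).symm y) ∈ (extChartAt 𝓘(ℝ, E) (j (i + 1))).source ∧
      rep f (j i) (j (i + 1)) y ∈ closedBall (cx E f k x j (i + 1)) R := by
    intro i y hy
    have h1 := hC.step (k (f^[i] x)) (j i) (j (i + 1)) (hgd i) (by rw [hkg]; exact hgd (i + 1))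
      y hy
    rw [hkg] at h1
    exact ⟨h1.1, h1.2.1, h1.2.2.1⟩
  -- the domains
  have hDr : ∀ i ≤ N, Dx E f k x j r η1 N i ⊆ closedBall (cx E f k x j i) r := by
    intro i hi y hy
    unfold Dx at hy
    split_ifs at hy with h0 hN'
    · subst h0
      have h1 := (hC.kb x (j 0) (hgd 0) y (ball_subset_closedBall
        (ball_subset_ball hη12 hy))).1
      have h2 : dist y (cx E f k x j 0) < r / 2 := h1
      rw [mem_closedBall]; linarith
    · subst hN'
      have h1 := (hC.kb (f^[i] x) (j i) (hgd i) y (ball_subset_closedBall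
        (ball_subset_ball hη12 hy))).1
      have h2 : dist y (cx E f k x j i) < r / 2 := h1
      rw [mem_closedBall]; linarith
    · rw [mem_ball] at hy
      rw [mem_closedBall]; linarith
  have hDconv : ∀ i, Convex ℝ (Dx E f k x j r η1 N i) := by
    intro i
    unfold Dx
    split_ifs
    · exact convex_ball _ _
    · exact convex_ball _ _
    · exact convex_ball _ _
  have hD0 : ∀ y ∈ Dx E f k x j r η1 N 0, dist y (ps E ja a) < δ₀ := by
    intro y hy
    have h1 : y ∈ ball (ps E (j 0) x) η1 := by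
      have : Dx E f k x j r η1 N 0 = ball (ps E (j 0) x) η1 := by unfold Dx; rw [if_pos rfl]
      rwa [this] at hy
    rw [hj0, mem_ball] at h1
    have h2 := (hc1 ja hga.1 a hga.2 x (hxa.trans_le (min_le_right _ _))).2
    calc dist y (ps E ja a) ≤ dist y (ps E ja x) + dist (ps E ja x) (ps E ja a) :=
          dist_triangle _ _ _
      _ < δ₀ := by
        have h3 : dist (ps E ja x) (ps E ja a) < δ₀ / 2 := h2
        linarith
  have hDN : ∀ y ∈ Dx E f k x j r η1 N N, dist y (ps E jb b) < δ₀ := by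
    intro y hy
    have h1 : y ∈ ball (ps E (j N) (f^[N] x)) η1 := by
      have : Dx E f k x j r η1 N N = ball (ps E (j N) (f^[N] x)) η1 := by
        unfold Dx; rw [if_neg hN.ne', if_pos rfl]
      rwa [this] at hy
    rw [hjN, mem_ball] at h1
    have h2 := (hc1 jb hgb.1 b hgb.2 (f^[N] x) (hxb.trans_le (min_le_right _ _))).2
    calc dist y (ps E jb b) ≤ dist y (ps E jb (f^[N] x)) + dist (ps E jb (f^[N] x)) (ps E jb b) :=
          dist_triangle _ _ _
      _ < δ₀ := by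
        have h3 : dist (ps E jb (f^[N] x)) (ps E jb b) < δ₀ / 2 := h2
        linarith
  have hrsub : ∀ i, closedBall (cx E f k x j i) r ⊆ closedBall (cx E f k x j i) R := fun i =>
    closedBall_subset_closedBall hrR
  -- the signs
  have hsign := hs E N s w (Fx E f j) (fun i => Pj π (j i)) (cx E f k x j) R
    (Dx E f k x j r η1 N) B C hR.le
    (fun i hi => ⟨hDconv i, (hDr i hi).trans (hrsub i)⟩)
    (fun i _ => Pj_cont he hinj hf hπ (htg i) (isCompact_closedBall _ _))
    (fun i _ y hy => by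
      ext v
      exact Pj_proj he hinj hπ (htg i hy) v)
    (fun i hi y hy => by
      obtain ⟨g1, g2, g3⟩ := hst i y (hDr i hi.le hy)
      exact ⟨rep_contDiffAt hf.smooth g1 g2, g3, Pj_inv he hinj hf hπ g1 g2,
        rep_inj he hinj hf g1 g2⟩)
    (fun y hy v hv hBv => hy1 y (hD0 y hy) v (by rw [← hj0]; exact hv) hBv)
    (fun y hy v hv hCv => hy2 y (hDN y hy) v (by rw [← hjN]; exact hv) hCv)
    hsw
    (fun y hyD hyo τ hτ ws wu g1 g2 g3 g4 g5 g6 =>
      hy3 N j y (fun i _ => (hgd i).1) hj0 hjN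
        (fun i hi => ⟨k (f^[i] x), hgdw _ _ (hgd i), hrsub i (hDr i hi (hyD i hi))⟩)
        (fun i hi => (hst i _ (hDr i hi.le (hyD i hi.le))).2.1)
        hyo (hD0 _ (hyD 0 (Nat.zero_le _))) (hDN _ (hyD N le_rfl)) τ hτ ws wu g1 g2 g3 g4 g5 g6)
  -- the orbits
  have hko : ∀ i, k (f^[i] x') = k (f^[i] x) := by
    intro i
    induction i with
    | zero => exact hkx
    | succ i ih =>
      rw [Function.iterate_succ_apply', Function.iterate_succ_apply', hC.kf, hC.kf, ih]
  have horb : ∀ q : M, (∀ i, k (f^[i] q) = k (f^[i] x)) →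
      dist (ps E (j 0) q) (ps E (j 0) x) < η1 →
      dist (ps E (j N) (f^[N] q)) (ps E (j N) (f^[N] x)) < η1 →
      B (ps E (j 0) q - ps E (j 0) x) = 0 →
      C (ps E (j N) (f^[N] q) - ps E (j N) (f^[N] x)) = 0 →
      (fun i : Fin (N + 1) => ps E (j i) (f^[i] q)) ∈ Box N (Dx E f k x j r η1 N) ∧
      Bvp N (Fx E f j) (fun y => B (y - ps E (j 0) x))
        (fun y => C (y - ps E (j N) (f^[N] x))) (fun i : Fin (N + 1) => ps E (j i) (f^[i] q))
        = 0 := by
    intro q hq h0 hN' hBq hCq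
    have hgq : ∀ i, Gd t ρ (j i) (k (f^[i] q)) := fun i => by rw [hq]; exact hgd i
    constructor
    · refine (mem_box N _ (fun i => ps E (j i) (f^[i] q))).mpr fun i hi => ?_
      unfold Dx
      split_ifs with c0 cN
      · subst c0; exact h0
      · subst cN; exact hN'
      · have h1 := hC.kr (f^[i] q) (j i) (hgq i)
        rw [hq] at h1
        exact h1
    · refine (bvp_zero N _ _ _ (fun i => ps E (j i) (f^[i] q))).mpr ⟨fun i _ => ?_, hBq, hCq⟩
      show ps E (j (i + 1)) (f^[i + 1] q) =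
        ps E (j (i + 1)) (f ((extChartAt 𝓘(ℝ, E) (j i)).symm (extChartAt 𝓘(ℝ, E) (j i) (f^[i] q))))
      have hgw := hC.kgd _ _ (hgq i)
      rw [(extChartAt 𝓘(ℝ, E) (j i)).left_inv (ch.src _ hgw.1 _ hgw.2),
        Function.iterate_succ_apply']
  obtain ⟨ax, bx⟩ := horb x (fun _ => rfl) (by rw [dist_self]; exact hη1)
    (by rw [dist_self]; exact hη1) (by rw [sub_self, map_zero]) (by rw [sub_self, map_zero])
  obtain ⟨ax', bx'⟩ := horb x' hko (by rw [hj0]; exact hx0) (by rw [hjN]; exact hxN)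
    (by rw [hj0]; exact hBx) (by rw [hjN]; exact hCx)
  -- the degree
  have en : Nonempty ((Fin (N + 1) → E) ≃L[ℝ] ((Fin N → E) × (Fin s → ℝ) × (Fin w → ℝ))) :=
    FiniteDimensional.nonempty_continuousLinearEquiv_of_finrank_eq (finrank_eq hsw)
  obtain ⟨en⟩ := en
  refine h6 (Fin (N + 1) → E) ((Fin N → E) × (Fin s → ℝ) × (Fin w → ℝ)) _ _
    (fun y => BvpD N (fun i => fderiv ℝ (Fx E f j i) (ext N y i)) B C) en hadm ?_ ?_ _ ax _ ax'
    bx bx' ?_
  · intro y hy _
    have hy' : ∀ i ≤ N, ext N y i ∈ Dx E f k x j r η1 N i := by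
      rw [← mem_box, ext_fin]; exact hy
    have h1 := hd E s w N (Fx E f j) (fun y => B (y - ps E (j 0) x))
      (fun y => C (y - ps E (j N) (f^[N] x))) (ext N y) B C
      (fun i hi => by
        obtain ⟨g1, g2, -⟩ := hst i _ (hDr i hi.le (hy' i hi.le))
        exact (rep_contDiffAt hf.smooth g1 g2).differentiableAt (by norm_num))
      (B.hasFDerivAt.comp _ ((hasFDerivAt_id _).sub_const _))
      (C.hasFDerivAt.comp _ ((hasFDerivAt_id _).sub_const _))
    rw [ext_fin] at h1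
    exact h1
  · intro y hy y' hy' hz hz'
    have g1 : ∀ i ≤ N, ext N y i ∈ Dx E f k x j r η1 N i := by
      rw [← mem_box, ext_fin]; exact hy
    have g1' : ∀ i ≤ N, ext N y' i ∈ Dx E f k x j r η1 N i := by
      rw [← mem_box, ext_fin]; exact hy'
    have g2 := (bvp_zero N (Fx E f j) (fun y => B (y - ps E (j 0) x))
      (fun y => C (y - ps E (j N) (f^[N] x))) (ext N y)).mp (by rw [ext_fin]; exact hz)
    have g2' := (bvp_zero N (Fx E f j) (fun y => B (y - ps E (j 0) x))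
      (fun y => C (y - ps E (j N) (f^[N] x))) (ext N y')).mp (by rw [ext_fin]; exact hz')
    exact hsign (ext N y) (ext N y') g1 g2.1 g1' g2'.1 en
  · intro heq
    have h1 : ps E (j 0) x = ps E (j 0) x' := congrFun heq 0
    have s1 := hC.kgd _ _ (hgd 0)
    have s2 := hC.kgd x' (j 0) (by
      have := hgd 0
      rw [← hko 0] at this
      exact this)
    exact hne ((extChartAt 𝓘(ℝ, E) (j 0)).injOn (ch.src _ s1.1 _ s1.2)
      (ch.src _ s2.1 _ s2.2) h1).symm

end Pool.Agent.H963.CJ
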