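import Pool.Agent.H963.CJ.D_APX
import Pool.Agent.H963.CJ.D_SARD
import Pool.Agent.H963.CJ.D_CNTINT
import Pool.Agent.H963.CJ.D_CNTHOM
import Pool.Agent.H963.CJ.D_DEG
import Pool.Agent.H963.CJ.D_A0
import Pool.Agent.H963.CJ.D_A1
import Pool.Agent.H963.CJ.D_A2
import Pool.Agent.H963.CJ.D_A3
import Pool.Agent.H963.CJ.D_A4
import Pool.Agent.H963.CJ.D_A5
import Pool.Agent.H963.CJ.D_A6
import Pool.Agent.H963.CJ.D_A7
import Pool.Agent.H963.CJ.C_G2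
import Pool.Agent.H963.CJ.C_DER
import Pool.Agent.H963.CJ.C_MID
import Pool.Agent.H963.CJ.C_CUT
import Pool.Agent.H963.CJ.C_CUT1
import Pool.Agent.H963.CJ.C_CUT3
import Pool.Agent.H963.CJ.C_SIGN
import Pool.Agent.H963.CJ.M_T1
import Pool.Agent.H963.CJ.M_T2
import Pool.Agent.H963.CJ.M_T3
import Pool.Agent.H963.CJ.M_CHART
import Pool.Agent.H963.CJ.M_M1a
import Pool.Agent.H963.CJ.M_M1b
import Pool.Agent.H963.CJ.M_M1c
import Pool.Agent.H963.CJ.M_CONE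
import Pool.Agent.H963.CJ.M_C2
import Pool.Agent.H963.CJ.M_EXIT
import Pool.Agent.H963.CJ.M_EXITN
import Pool.Agent.H963.CJ.M_UNIQ
import Pool.Agent.H963.CJ.M_HYP
import Pool.Agent.H963.CJ.N_ADM
import Pool.Agent.H963.CJ.N_CHX
import Pool.Agent.H963.CJ.N_FULL
import Pool.Agent.H963.CJ.N_LA
import Pool.Agent.H963.CJ.N_RA
import Pool.Agent.H963.CJ.N_CMPL
import Pool.Agent.H963.CJ.N_CMPR
import Pool.Agent.H963.CJ.N_LEFT
import Pool.Agent.H963.CJ.N_RIGHT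
import Pool.Agent.H963.CJ.N_XC
import Pool.Agent.H963.CJ.N_INJ
import Pool.Agent.H963.CJ.N_SURJ
import Pool.Agent.H963.CJ.N_TB

/-!
# Assembly: `C⁰`-close Anosov diffeomorphisms are conjugate
-/

set_option autoImplicit false
set_option linter.unusedSectionVars false

open Set Filter Topology Metric
open scoped Manifold ContDiff

namespace Pool.Agent.H963.CJ

open Pool.Agent.H721R2 Pool.Agent.H789R2.AN Pool.Agent.TH289 Pool.Agent.H244.Dyn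
  Pool.Agent.H244.Loc

universe u v w

theorem f_CNTHOM : S_CNTHOM.{u} := t_CNTHOM t_CNTINT
theorem f_DEG : S_DEG.{u} := t_DEG t_APX t_SARD f_CNTHOM
theorem f_A1 : S_A1.{u} := t_A1 f_CNTHOM f_DEG
theorem f_A2 : S_A2.{u} := t_A2 f_CNTHOM f_DEG
theorem f_A3 : S_A3.{u} := t_A3 t_APX t_SARD t_CNTINT f_CNTHOM f_DEG
theorem f_A4 : S_A4.{u} := t_A4 f_DEG
theorem f_A5 : S_A5.{u} := t_A5 f_CNTHOM f_DEG f_A1 f_A2
theorem f_A6 : S_A6.{u} := t_A6 t_APX t_SARD t_CNTINT f_CNTHOM f_DEG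
theorem f_A7 : S_A7.{u} := t_A7 f_DEG
theorem f_MID : S_MID.{u} := t_MID f_A1 f_A5
theorem f_CUT : S_CUT.{u} := t_CUT t_A0 f_A1 f_A3 f_A4
theorem f_CUT1 : S_CUT1.{u} := t_CUT1 f_CUT
theorem f_CUT3 : S_CUT3.{u} := t_CUT3 f_CUT f_MID
theorem f_T2 : S_T2.{v} := t_T2 t_T1
theorem f_CONE : S_CONE.{u, v, w} := t_CONE t_M1a t_M1c
theorem f_C2 : S_C2.{u, v, w} := t_C2 t_G2 t_M1a t_M1c
theorem f_EXIT : S_EXIT.{u, v, w} := t_EXIT t_T3 f_CONE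
theorem f_EXITN : S_EXITN.{u, v, w} := t_EXITN f_T2 t_T3 f_CONE
theorem f_UNIQ : S_UNIQ.{u, v, w} := t_UNIQ f_T2 t_T3 f_CONE f_C2
theorem f_HYP : S_HYP.{u, v, w} := t_HYP t_M1a
theorem f_FULL : S_FULL.{u, v, w} := t_FULL f_A5 t_DER f_HYP t_CHX
theorem f_LA : S_LA.{u, v, w} := t_LA f_EXITN f_UNIQ f_FULL t_CHX f_CUT1
theorem f_RA : S_RA.{u, v, w} := t_RA f_EXITN f_UNIQ f_FULL t_CHX f_CUT1
theorem f_CMPL : S_CMPL.{u, v, w} := t_CMPL f_A1 f_A2 f_A4 t_CHX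
theorem f_CMPR : S_CMPR.{u, v, w} := t_CMPR f_A1 f_A2 f_A4 t_CHX
theorem f_LEFT : S_LEFT.{u, v, w} := t_LEFT f_EXIT f_LA f_CMPL
theorem f_RIGHT : S_RIGHT.{u, v, w} := t_RIGHT f_EXIT f_RA f_CMPR
theorem f_XC : S_XC.{u, v, w} := t_XC f_A6 t_SIGN t_DER f_HYP t_CHX
theorem f_INJ : S_INJ.{u, v, w} :=
  t_INJ t_A0 t_T1 f_T2 f_CONE f_LEFT f_RIGHT f_XC f_CUT3 t_CHX t_ADM
theorem f_SURJ : S_SURJ.{u, v, w} := t_SURJ f_A7 f_MID
theorem f_TB : S_TB.{u, v, w} := t_TB t_CHART t_M1a t_M1b t_G2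

section metric

variable {E : Type u} [NormedAddCommGroup E] [NormedSpace ℝ E] [FiniteDimensional ℝ E]
  {M : Type v} [MetricSpace M] [CompactSpace M] [ChartedSpace E M] [IsManifold 𝓘(ℝ, E) 1 M]
  {F : Type w} [NormedAddCommGroup F] [NormedSpace ℝ F]
  {e : M → F} (he : ContMDiff 𝓘(ℝ, E) 𝓘(ℝ, F) 1 e) (hinj : ∀ x, Function.Injective (dm E e x))

include he hinj

/-- All Anosov diffeomorphisms `C⁰`-close to `g` are conjugate to `g`. -/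
theorem metric_main {g : M ≃ₜ M} {Es' Eu' : M → Submodule ℝ E} {C' a' b' Ls' Lu' : ℝ}
    (hg : EAnosov e g Es' Eu' C' a' b' Ls' Lu') {κ : ℝ} (hTA : TA g κ) {η₀ : ℝ} (hη₀ : 0 < η₀) :
    ∃ ε > 0, ∀ (f : M ≃ₜ M) (Es Eu : M → Submodule ℝ E) (C a b Ls Lu κf : ℝ),
      EAnosov e f Es Eu C a b Ls Lu → TA f κf → (∀ x, dist (f x) (g x) < ε) →
      ∃ k : M ≃ₜ M, (∀ x, dist (k x) x ≤ η₀) ∧ (∀ x, k (f x) = g (k x)) ∧
        ∀ n : ℕ, 1 ≤ n → BijOn k {x | f^[n] x = x} {x | g^[n] x = x} := by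
  obtain ⟨ε, hε, h⟩ := f_TB.{u, v, w} E M F e he hinj g Es' Eu' C' a' b' Ls' Lu' κ hg hTA η₀ hη₀
  refine ⟨ε, hε, fun f Es Eu C a b Ls Lu κf hf hTf hfg => ?_⟩
  obtain ⟨k, π, π', t, ρ, R, ρ₀, κ0, K, l, Cs, r, ε1, ε2, η2, hctx, hkd, hbij⟩ :=
    h f Es Eu C a b Ls Lu κf hf hTf hfg
  have hi : Function.Injective k := fun x x' hx =>
    f_INJ.{u, v, w} E M F e f g k Es Eu π π' t ρ R ρ₀ κf κ0 K l Cs r ε1 ε2 η2 hctx x x' hx
  have hs : Function.Surjective k :=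
    f_SURJ.{u, v, w} E M F e f g k Es Eu π π' t ρ R ρ₀ κf κ0 K l Cs r ε1 ε2 η2 hctx
  have hc : Continuous k := hctx.fc.kk.cont
  refine ⟨hc.homeoOfEquivCompactToT2 (f := Equiv.ofBijective k ⟨hi, hs⟩), ?_, ?_, ?_⟩
  · exact hkd
  · exact hctx.kf
  · exact hbij

end metric

/-- transitivity is invariant under conjugacy -/
theorem trans_conj {M : Type*} [TopologicalSpace M] {f g : M → M} (k : M ≃ₜ M)
    (h : ∀ x, k (f x) = g (k x)) (ht : TopTransitive f) : TopTransitive g := by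
  intro U V hU hUn hV hVn
  obtain ⟨n, y, ⟨x, hx, rfl⟩, hy⟩ := ht (k ⁻¹' U) (k ⁻¹' V) (hU.preimage k.continuous)
    (hUn.preimage k.surjective) (hV.preimage k.continuous) (hVn.preimage k.surjective)
  have hn : ∀ n x, k (f^[n] x) = g^[n] (k x) := by
    intro n
    induction n with
    | zero => intro x; rfl
    | succ n ih =>
      intro x
      rw [Function.iterate_succ_apply', Function.iterate_succ_apply', h, ih]
  refine ⟨n, g^[n] (k x), ⟨k x, hx, rfl⟩, ?_⟩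
  rw [← hn]
  exact hy

section final

variable {E : Type u} [NormedAddCommGroup E] [NormedSpace ℝ E] [FiniteDimensional ℝ E]
  {M : Type v} [TopologicalSpace M] [T2Space M] [CompactSpace M]
  [ChartedSpace E M] [IsManifold 𝓘(ℝ, E) ∞ M]

theorem main (g : Diffeomorph 𝓘(ℝ, E) 𝓘(ℝ, E) M M 1)
    (Es' Eu' : ∀ x : M, Submodule ℝ (TangentSpace 𝓘(ℝ, E) x)) (hg : IsAnosov g Es' Eu')
    (𝒱 : Set (M × M)) (hV : 𝒱 ∈ 𝓝ˢ (diagonal M)) :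
    ∃ 𝒰 ∈ 𝓝ˢ (diagonal M), ∀ (f : Diffeomorph 𝓘(ℝ, E) 𝓘(ℝ, E) M M 1)
      (Es Eu : ∀ x : M, Submodule ℝ (TangentSpace 𝓘(ℝ, E) x)), IsAnosov f Es Eu →
      (∀ x, (f x, g x) ∈ 𝒰) →
      ∃ h : M ≃ₜ M, (∀ x, (x, h x) ∈ 𝒱) ∧ (∀ x, h (f x) = g (h x)) ∧
        (∀ n : ℕ, 1 ≤ n → BijOn h {x | f^[n] x = x} {x | g^[n] x = x}) ∧
        (TopTransitive f ↔ TopTransitive g) := by
  obtain ⟨m, ee, hee, hemb, hinje⟩ :=
    exists_embedding_euclidean_of_compact (I := 𝓘(ℝ, E)) (M := M)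
  let _ : MetricSpace M := hemb.isEmbedding.comapMetricSpace ee
  have hiso : ∀ x y : M, dist x y = ‖ee x - ee y‖ := fun x y => dist_eq_norm (ee x) (ee y)
  have he1 : ContMDiff 𝓘(ℝ, E) (𝓡 m) 1 ee := hee.of_le (by simp)
  have key : ∀ (φ : Diffeomorph 𝓘(ℝ, E) 𝓘(ℝ, E) M M 1)
      (Fs Fu : ∀ x : M, Submodule ℝ (TangentSpace 𝓘(ℝ, E) x)), IsAnosov φ Fs Fu →
      ∃ κ, TA φ.toHomeomorph κ := by
    intro φ Fs Fu hφ
    obtain ⟨N, ⟨S, hS, -, -, -⟩, hN⟩ :=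
      ((exists_sys_ev hiso he1 hinje φ Fs Fu hφ).and (eventually_ge_atTop 1)).exists
    exact exists_TA hN S hS
  obtain ⟨C', a', b', Ls', Lu', hEg⟩ := eanosov_of_isAnosov ee he1 hinje g Es' Eu' hg
  obtain ⟨κ, hTA⟩ := key g Es' Eu' hg
  have hunif : ∀ 𝒲 : Set (M × M), 𝒲 ∈ 𝓝ˢ (diagonal M) → ∃ ε > 0, ∀ x y, dist x y < ε → (x, y) ∈ 𝒲 := by
    intro 𝒲 hW
    rw [nhdsSet_diagonal_eq_uniformity] at hW
    obtain ⟨ε, hε, h⟩ := Metric.mem_uniformity_dist.mp hW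
    exact ⟨ε, hε, fun x y hxy => h hxy⟩
  obtain ⟨η, hη, hηV⟩ := hunif 𝒱 hV
  obtain ⟨ε, hε, hmain⟩ := metric_main he1 hinje hEg hTA (half_pos hη)
  refine ⟨{p | dist p.1 p.2 < ε}, ?_, fun f Es Eu hf hfg => ?_⟩
  · rw [nhdsSet_diagonal_eq_uniformity]
    exact Metric.dist_mem_uniformity hε
  obtain ⟨C, a, b, Ls, Lu, hEf⟩ := eanosov_of_isAnosov ee he1 hinje f Es Eu hf
  obtain ⟨κf, hTf⟩ := key f Es Eu hf
  obtain ⟨k, hkd, hkf, hbij⟩ := hmain f.toHomeomorph Es Eu C a b Ls Lu κf hEf hTf hfg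
  have hkf' : ∀ x, k (f x) = g (k x) := hkf
  refine ⟨k, fun x => ?_, hkf', hbij, ⟨trans_conj k hkf', trans_conj k.symm fun x => ?_⟩⟩
  · apply hηV
    rw [dist_comm]
    exact (hkd x).trans_lt (half_lt_self hη)
  · rw [Homeomorph.symm_apply_eq, hkf', Homeomorph.apply_symm_apply]

end final

end Pool.Agent.H963.CJ
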