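import Pool.Agent.H963.CJ.ChDef

/-!
# The a-priori estimate for perturbed hyperbolic chains
-/

set_option autoImplicit false
set_option linter.unusedSectionVars false

open MeasureTheory Set Filter Topology Metric

namespace Pool.Agent.H963.CJ

universe u

namespace CG2

variable {E : Type u} [NormedAddCommGroup E] [NormedSpace ℝ E] [FiniteDimensional ℝ E]
  {A P : ℕ → E →L[ℝ] E} {K l : ℝ}

theorem Pr_zero (A : ℕ → E →L[ℝ] E) (i : ℕ) (w : E) : Pr A i 0 w = w := rfl

theorem Pr_succ (A : ℕ → E →L[ℝ] E) (i k : ℕ) (w : E) :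
    Pr A i (k + 1) w = A (i + k) (Pr A i k w) := rfl

theorem Pr_shift (A : ℕ → E →L[ℝ] E) (i k : ℕ) (w : E) :
    Pr A (i + 1) k (A i w) = Pr A i (k + 1) w := by
  induction k with
  | zero => rfl
  | succ k ih =>
    rw [Pr_succ, ih, Pr_succ A i (k + 1)]
    have : i + 1 + k = i + (k + 1) := by omega
    rw [this]

theorem Pr_comm (h : GC A P K l) (i k : ℕ) (w : E) :
    Pr A i k (P i w) = P (i + k) (Pr A i k w) := by
  induction k with
  | zero => rfl
  | succ k ih =>
    rw [Pr_succ, Pr_succ, ih]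
    exact DFunLike.congr_fun (h.comm (i + k)) (Pr A i k w)

theorem Pr_inj (h : GC A P K l) (i k : ℕ) : Function.Injective (Pr A i k) := by
  induction k with
  | zero => exact fun a b hab => hab
  | succ k ih => exact fun a b hab => ih (h.inj (i + k) hab)

theorem Pr_surj (h : GC A P K l) (i k : ℕ) : Function.Surjective (Pr A i k) := by
  have h1 : Function.Injective ((Pr A i k : E →L[ℝ] E) : E →ₗ[ℝ] E) := Pr_inj h i k
  exact LinearMap.injective_iff_surjective.1 h1

/-- adapted norm on the contracted spaces -/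
def Sn (A : ℕ → E →L[ℝ] E) (l : ℝ) (i : ℕ) (R : ℝ) (w : E) : Prop :=
  ∀ k, ‖Pr A i k w‖ ≤ R * l ^ k

theorem Sn_base (h : GC A P K l) {i : ℕ} {w : E} (hw : P i w = w) : Sn A l i (K * ‖w‖) w := by
  intro k
  refine (h.s i k w hw).trans (le_of_eq ?_)
  ring

theorem Sn_step {i : ℕ} {R : ℝ} {w : E} (hw : Sn A l i R w) : Sn A l (i + 1) (l * R) (A i w) := by
  intro k
  rw [Pr_shift]
  refine (hw (k + 1)).trans (le_of_eq ?_)
  rw [pow_succ]
  ring

theorem Sn_add {i : ℕ} {R R' : ℝ} {w w' : E} (hw : Sn A l i R w) (hw' : Sn A l i R' w') :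
    Sn A l i (R + R') (w + w') := by
  intro k
  rw [map_add, add_mul]
  exact (norm_add_le _ _).trans (add_le_add (hw k) (hw' k))

theorem Sn_smul {i : ℕ} {R s : ℝ} {w : E} (hs : |s| ≤ 1) (hw : Sn A l i R w) :
    Sn A l i R (s • w) := by
  intro k
  rw [map_smul, norm_smul, Real.norm_eq_abs]
  exact (mul_le_of_le_one_left (norm_nonneg _) hs).trans (hw k)

theorem Sn_mono (hl : 0 < l) {i : ℕ} {R R' : ℝ} {w : E} (hR : R ≤ R') (hw : Sn A l i R w) :
    Sn A l i R' w := fun k => (hw k).trans (mul_le_mul_of_nonneg_right hR (by positivity))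

theorem Sn_norm {i : ℕ} {R : ℝ} {w : E} (hw : Sn A l i R w) : ‖w‖ ≤ R := by
  have := hw 0
  rwa [Pr_zero, pow_zero, mul_one] at this

/-- adapted norm on the expanded spaces -/
def Un (A P : ℕ → E →L[ℝ] E) (l : ℝ) (i : ℕ) (R : ℝ) (w : E) : Prop :=
  ∀ j k, j + k = i → ∃ w', P j w' = 0 ∧ Pr A j k w' = w ∧ ‖w'‖ ≤ R * l ^ k

theorem Un_base (h : GC A P K l) {i : ℕ} {w : E} (hw : P i w = 0) : Un A P l i (K * ‖w‖) w := by
  rintro j k rfl
  obtain ⟨w', hw'⟩ := Pr_surj h j k w
  have h0 : P j w' = 0 := by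
    apply Pr_inj h j k
    rw [Pr_comm h, hw', hw, map_zero]
  refine ⟨w', h0, hw', (h.u j k w' h0).trans (le_of_eq ?_)⟩
  rw [hw']
  ring

theorem Un_step (h : GC A P K l) {i : ℕ} {R : ℝ} {w : E} (hw : Un A P l (i + 1) R (A i w)) :
    Un A P l i (l * R) w := by
  rintro j k rfl
  obtain ⟨w', h0, h1, h2⟩ := hw j (k + 1) (by omega)
  refine ⟨w', h0, h.inj (j + k) h1, h2.trans (le_of_eq ?_)⟩
  rw [pow_succ]
  ring

theorem Un_add {i : ℕ} {R R' : ℝ} {w w' : E} (hw : Un A P l i R w) (hw' : Un A P l i R' w') :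
    Un A P l i (R + R') (w + w') := by
  intro j k hjk
  obtain ⟨a, a0, a1, a2⟩ := hw j k hjk
  obtain ⟨b, b0, b1, b2⟩ := hw' j k hjk
  refine ⟨a + b, by rw [map_add, a0, b0, add_zero], by rw [map_add, a1, b1], ?_⟩
  rw [add_mul]
  exact (norm_add_le _ _).trans (add_le_add a2 b2)

theorem Un_smul {i : ℕ} {R s : ℝ} {w : E} (hs : |s| ≤ 1) (hw : Un A P l i R w) :
    Un A P l i R (s • w) := by
  intro j k hjk
  obtain ⟨a, a0, a1, a2⟩ := hw j k hjk
  refine ⟨s • a, by rw [map_smul, a0, smul_zero], by rw [map_smul, a1], ?_⟩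
  rw [norm_smul, Real.norm_eq_abs]
  exact (mul_le_of_le_one_left (norm_nonneg _) hs).trans a2

theorem Un_mono (hl : 0 < l) {i : ℕ} {R R' : ℝ} {w : E} (hR : R ≤ R') (hw : Un A P l i R w) :
    Un A P l i R' w := by
  intro j k hjk
  obtain ⟨a, a0, a1, a2⟩ := hw j k hjk
  exact ⟨a, a0, a1, a2.trans (mul_le_mul_of_nonneg_right hR (by positivity))⟩

theorem Un_norm {i : ℕ} {R : ℝ} {w : E} (hw : Un A P l i R w) : ‖w‖ ≤ R := by
  obtain ⟨a, _, a1, a2⟩ := hw i 0 rfl
  rw [Pr_zero] at a1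
  rwa [a1, pow_zero, mul_one] at a2

end CG2

open CG2

theorem t_G2 : S_G2.{u} := by
  intro K l hK hl0 hl1
  have h1l : 0 < 1 - l := by linarith
  have hK0 : 0 < K := by linarith
  refine ⟨2 * K + (K * K + K * (1 + K)) / (1 - l), ?_, ?_⟩
  · have : 0 ≤ (K * K + K * (1 + K)) / (1 - l) := by positivity
    show (1 : ℝ) ≤ _
    linarith
  intro E _ _ _ A P h N c x Fx t ε ε' hε hε' ht hlin hs hu h0 hN
  obtain ⟨v, hv⟩ : ∃ v : ℕ → E, ∀ i, v i = x i - c i := ⟨_, fun _ => rfl⟩
  obtain ⟨a, ha⟩ : ∃ a : ℕ → E, ∀ i, a i = P i (v i) := ⟨_, fun _ => rfl⟩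
  obtain ⟨b, hb⟩ : ∃ b : ℕ → E, ∀ i, b i = v i - a i := ⟨_, fun _ => rfl⟩
  obtain ⟨e, he⟩ : ∃ e : ℕ → E, ∀ i, e i = Fx i - c (i + 1) - A i (v i) := ⟨_, fun _ => rfl⟩
  have hPP : ∀ i w, P i (P i w) = P i w := fun i w => DFunLike.congr_fun (h.proj i) w
  have hPA : ∀ i w, A i (P i w) = P (i + 1) (A i w) := fun i w => DFunLike.congr_fun (h.comm i) w
  have hPn : ∀ i w, ‖P i w‖ ≤ K * ‖w‖ := fun i w =>
    ((P i).le_opNorm w).trans (mul_le_mul_of_nonneg_right (h.bd i) (norm_nonneg _))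
  have hen : ∀ i < N, ‖e i‖ ≤ ε := by
    intro i hi
    rw [he, hv]
    exact hlin i hi
  have hFx : ∀ i, Fx i - c (i + 1) = A i (v i) + e i := by
    intro i
    rw [he]
    abel
  have haP : ∀ i, P i (a i) = a i := by
    intro i
    rw [ha, hPP]
  have hbP : ∀ i, P i (b i) = 0 := by
    intro i
    rw [hb, map_sub, haP, ha, sub_self]
  have hta : ∀ i < N, |1 - t i| ≤ 1 := by
    intro i hi
    have := ht i hi
    rw [abs_le]
    constructor <;> linarith [this.1, this.2]
  -- recursions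
  have hrec_a : ∀ i < N, a (i + 1) = (1 - t i) • (A i (a i) + P (i + 1) (e i)) := by
    intro i hi
    have h2 := hs i hi
    rw [← hv, hFx, map_add, ← hPA, ← ha, ← ha] at h2
    exact h2
  have hrec_b : ∀ i < N, A i (b i) = (1 - t i) • b (i + 1) + (-1 : ℝ) • (e i - P (i + 1) (e i)) := by
    intro i hi
    have h2 := hu i hi
    rw [← hv, hFx, map_add, ← hPA, ← ha, ← ha, ← hb] at h2
    rw [← h2, hb, map_sub]
    module
  -- the estimate of the contracted component
  obtain ⟨Ra, hRa⟩ : ∃ R : ℝ, R = K * ε' + K * K * ε / (1 - l) := ⟨_, rfl⟩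
  have hRa1 : l * Ra + K * (K * ε) ≤ Ra := by
    have h3 : K * K * ε / (1 - l) * (1 - l) = K * K * ε := by field_simp
    have h4 : 0 ≤ K * ε' * (1 - l) := by positivity
    have h5 : Ra * (1 - l) = K * ε' * (1 - l) + K * K * ε := by
      rw [hRa, add_mul, h3]
    nlinarith
  have hA : ∀ i, i ≤ N → Sn A l i Ra (a i) := by
    intro i
    induction i with
    | zero =>
      intro _
      refine Sn_mono hl0 ?_ (Sn_base h (haP 0))
      have h3 : ‖a 0‖ ≤ ε' := by
        rw [ha, hv]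
        exact h0
      have h4 : 0 ≤ K * K * ε / (1 - l) := by positivity
      have h5 := mul_le_mul_of_nonneg_left h3 hK0.le
      rw [hRa]
      linarith
    | succ i ih =>
      intro hi
      rw [hrec_a i (by omega)]
      refine Sn_smul (hta i (by omega)) ?_
      refine Sn_mono hl0 ?_ (Sn_add (Sn_step (ih (by omega))) (Sn_base h (hPP (i + 1) (e i))))
      have h3 := (hPn (i + 1) (e i)).trans (mul_le_mul_of_nonneg_left (hen i (by omega)) hK0.le)
      have h4 := mul_le_mul_of_nonneg_left h3 hK0.le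
      linarith
  -- the estimate of the expanded component
  obtain ⟨Rb, hRb⟩ : ∃ R : ℝ, R = K * ε' + K * (1 + K) * ε / (1 - l) := ⟨_, rfl⟩
  have hRb0 : 0 ≤ K * ((1 + K) * ε) := by positivity
  have hRb1 : l * (Rb + K * ((1 + K) * ε)) ≤ Rb := by
    have h3 : K * (1 + K) * ε / (1 - l) * (1 - l) = K * (1 + K) * ε := by field_simp
    have h4 : 0 ≤ K * ε' * (1 - l) := by positivity
    have h5 : Rb * (1 - l) = K * ε' * (1 - l) + K * (1 + K) * ε := by
      rw [hRb, add_mul, h3]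
    nlinarith
  have hB : ∀ k i, i + k = N → Un A P l i Rb (b i) := by
    intro k
    induction k with
    | zero =>
      intro i hi
      have hiN : i = N := hi
      rw [hiN]
      refine Un_mono hl0 ?_ (Un_base h (hbP N))
      have h3 : ‖b N‖ ≤ ε' := by
        rw [hb, ha, hv]
        exact hN
      have h4 : 0 ≤ K * (1 + K) * ε / (1 - l) := by positivity
      have h5 := mul_le_mul_of_nonneg_left h3 hK0.le
      rw [hRb]
      linarith
    | succ k ih =>
      intro i hi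
      have hiN : i < N := by omega
      have h3 := ih (i + 1) (by omega)
      have hP0 : P (i + 1) (e i - P (i + 1) (e i)) = 0 := by
        rw [map_sub, hPP, sub_self]
      have h4 : Un A P l (i + 1) (Rb + K * ‖e i - P (i + 1) (e i)‖) (A i (b i)) := by
        rw [hrec_b i hiN]
        exact Un_add (Un_smul (hta i hiN) h3)
          (Un_smul (by rw [abs_neg, abs_one]) (Un_base h hP0))
      refine Un_mono hl0 ?_ (Un_step h h4)
      refine le_trans ?_ hRb1
      refine mul_le_mul_of_nonneg_left ?_ hl0.le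
      have h5 : ‖e i - P (i + 1) (e i)‖ ≤ (1 + K) * ε := by
        have h6 := norm_sub_le (e i) (P (i + 1) (e i))
        have h7 := (hPn (i + 1) (e i)).trans (mul_le_mul_of_nonneg_left (hen i hiN) hK0.le)
        have h8 := hen i hiN
        linarith
      have h9 := mul_le_mul_of_nonneg_left h5 hK0.le
      linarith
  intro i hi
  have h3 := Sn_norm (hA i hi)
  have h4 := Un_norm (hB (N - i) i (by omega))
  have h5 : x i - c i = a i + b i := by
    rw [hb, ← hv]
    abel
  rw [h5]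
  refine (norm_add_le _ _).trans ((add_le_add h3 h4).trans ?_)
  rw [hRa, hRb]
  have h6 : 0 ≤ (K * K + K * (1 + K)) / (1 - l) * ε' := by positivity
  have h7 : 0 ≤ 2 * K * ε := by positivity
  have h8 : K * K * ε / (1 - l) + K * (1 + K) * ε / (1 - l) =
      (K * K + K * (1 + K)) / (1 - l) * ε := by
    field_simp
  nlinarith

end Pool.Agent.H963.CJ
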