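import Pool.Agent.H963.CJ.DegDef
import Pool.Agent.H244.Triv

/-!
# Two-point boundary problems for chains of maps: definitions and statements

A chain is a sequence of maps `F i : E → E`; its orbits are the sequences `y` with
`y (i + 1) = F i (y i)`.  `Bvp N F bm bp` is the map whose zeros are the orbit segments
`y 0, ..., y N` with `bm (y 0) = 0` and `bp (y N) = 0`.

Each `S_...` is a statement; a task asks for a proof of one of them from the previous ones.
-/

set_option autoImplicit false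
set_option linter.unusedSectionVars false

open MeasureTheory Set Filter Topology Metric
open scoped ContDiff

namespace Pool.Agent.H963.CJ

universe u

section defs

variable {E : Type*} [NormedAddCommGroup E] [NormedSpace ℝ E]

/-- the map of the two-point boundary problem -/
def Bvp {s w : ℕ} (N : ℕ) (F : ℕ → E → E) (bm : E → (Fin s → ℝ)) (bp : E → (Fin w → ℝ))
    (y : Fin (N + 1) → E) : (Fin N → E) × (Fin s → ℝ) × (Fin w → ℝ) :=
  (fun i => y i.succ - F i (y i.castSucc), bm (y 0), bp (y (Fin.last N)))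

/-- the domain -/
def Box (N : ℕ) (D : ℕ → Set E) : Set (Fin (N + 1) → E) := {y | ∀ i : Fin (N + 1), y i ∈ D i}

/-- the derivative of the boundary problem -/
noncomputable def BvpD {s w : ℕ} (N : ℕ) (A : ℕ → E →L[ℝ] E) (Bm : E →L[ℝ] (Fin s → ℝ))
    (Bp : E →L[ℝ] (Fin w → ℝ)) :
    (Fin (N + 1) → E) →L[ℝ] ((Fin N → E) × (Fin s → ℝ) × (Fin w → ℝ)) :=
  (ContinuousLinearMap.pi fun i : Fin N =>
    ContinuousLinearMap.proj (R := ℝ) (φ := fun _ : Fin (N + 1) => E) i.succ -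
      (A i).comp (ContinuousLinearMap.proj (R := ℝ) (φ := fun _ : Fin (N + 1) => E) i.castSucc)).prod
    ((Bm.comp (ContinuousLinearMap.proj (R := ℝ) (φ := fun _ : Fin (N + 1) => E) 0)).prod
      (Bp.comp (ContinuousLinearMap.proj (R := ℝ) (φ := fun _ : Fin (N + 1) => E) (Fin.last N))))

/-- the product `A (i + k - 1) ⋯ A i` -/
def Pr (A : ℕ → E →L[ℝ] E) (i : ℕ) : ℕ → E →L[ℝ] E
  | 0 => 1
  | k + 1 => A (i + k) * Pr A i k

/-- A hyperbolic sequence of invertible linear maps `A i` with projections `P i` onto the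
contracted spaces along the expanded ones. -/
structure GC (A P : ℕ → E →L[ℝ] E) (K l : ℝ) : Prop where
  K_ge : 1 ≤ K
  l_pos : 0 < l
  l_lt : l < 1
  inj : ∀ i, Function.Injective (A i)
  proj : ∀ i, P i * P i = P i
  bd : ∀ i, ‖P i‖ ≤ K
  comm : ∀ i, A i * P i = P (i + 1) * A i
  s : ∀ i k v, P i v = v → ‖Pr A i k v‖ ≤ K * l ^ k * ‖v‖
  u : ∀ i k v, P i v = 0 → ‖v‖ ≤ K * l ^ k * ‖Pr A i k v‖

end defs

/-- The a-priori estimate: `x` is an orbit segment of a perturbation (of size `ε`) of the affine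
hyperbolic chain `y ↦ c (i + 1) + A i (y - c i)`, where at each step the contracted component of
the next point may be made smaller by a factor `1 - t i`, and the expanded component of the image
may be smaller by the factor `1 - t i`; `Fx i` is the image of `x i`. -/
def G2P (K l Cs : ℝ) : Prop := ∀ (E : Type u) [NormedAddCommGroup E] [NormedSpace ℝ E]
  [FiniteDimensional ℝ E] (A P : ℕ → E →L[ℝ] E), GC A P K l → ∀ (N : ℕ) (c x Fx : ℕ → E)
  (t : ℕ → ℝ) (ε ε' : ℝ), 0 ≤ ε → 0 ≤ ε' → (∀ i < N, t i ∈ Icc (0 : ℝ) 1) →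
  (∀ i < N, ‖Fx i - c (i + 1) - A i (x i - c i)‖ ≤ ε) →
  (∀ i < N, P (i + 1) (x (i + 1) - c (i + 1)) = (1 - t i) • P (i + 1) (Fx i - c (i + 1))) →
  (∀ i < N, (Fx i - c (i + 1)) - P (i + 1) (Fx i - c (i + 1)) =
    (1 - t i) • ((x (i + 1) - c (i + 1)) - P (i + 1) (x (i + 1) - c (i + 1)))) →
  ‖P 0 (x 0 - c 0)‖ ≤ ε' → ‖(x N - c N) - P N (x N - c N)‖ ≤ ε' →
  ∀ i ≤ N, ‖x i - c i‖ ≤ Cs * (ε + ε')

/-- **G2.** The a-priori estimate holds with a constant depending on `K, l` only.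
Proof. Let `v i = x i - c i`, `a i = P i (v i)`, `b i = v i - a i`,
`e i = Fx i - c (i + 1) - A i (v i)`.  By `comm`: `a (i+1) = (1 - t i) (A i (a i) + P (i+1) (e i))` and
`A i (b i) = (1 - t i) b (i+1) - (e i - P (i+1) (e i))`.  Variation of constants: `a i` is
`∏ (1 - t) Pr A 0 i (a 0)` plus the sum over `k < i` of `∏ (1 - t) Pr A (k+1) (i-1-k) (P (k+1) (e k))`, so
`‖a i‖ ≤ K ε' + K² ε / (1 - l)`.  For `b`: `A i` is a bijection of `ker P i` onto `ker P (i+1)` (it is
bijective and commutes with the projections), its inverse products are bounded by `K l ^ k` (by `u`),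
and `b i = ∏ (1 - t) (Pr A i (N - i))⁻¹ (b N)` minus the sum over `i ≤ k < N` of
`∏ (1 - t) (Pr A i (k + 1 - i))⁻¹ (e k - P (k+1) (e k))`; so `‖b i‖ ≤ K ε' + K (1 + K) ε / (1 - l)`. -/
def S_G2 : Prop := ∀ K l : ℝ, 1 ≤ K → 0 < l → l < 1 → ∃ Cs ≥ (1 : ℝ), G2P.{u} K l Cs

/-- **DER.** The derivative of the boundary problem. -/
def S_DER : Prop := ∀ (E : Type u) [NormedAddCommGroup E] [NormedSpace ℝ E]
  [FiniteDimensional ℝ E] (s w N : ℕ) (F : ℕ → E → E) (bm : E → (Fin s → ℝ))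
  (bp : E → (Fin w → ℝ)) (y : ℕ → E) (Bm : E →L[ℝ] (Fin s → ℝ)) (Bp : E →L[ℝ] (Fin w → ℝ)),
  (∀ i < N, DifferentiableAt ℝ (F i) (y i)) → HasFDerivAt bm Bm (y 0) →
  HasFDerivAt bp Bp (y N) →
  HasFDerivAt (Bvp N F bm bp) (BvpD N (fun i => fderiv ℝ (F i) (y i)) Bm Bp)
    (fun i : Fin (N + 1) => y i)

/-- **CUT.** Cutting a chain.  The chain `0, ..., m + 1 + m'` is cut between `m` and `m + 1` at the
point `c`, with the projection `P`: the left part `0, ..., m` gets the right boundary condition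
`βu (F m y - c) = 0` (the image of the last point has no expanded component), the right part
`m + 1, ..., m + 1 + m'` gets the left boundary condition `βs (y - c) = 0`.  The last hypothesis is the
admissibility of the homotopy.
Proof. `(βs, βu) : E ≃ ℝ^s' × ℝ^w'` is an isomorphism, `βs = βs ∘ P`, `βu = βu ∘ (1 - P)`.  By `S_A1` the map
`Bvp` is homotopic, on `Box`, through
`t ↦ (the same, but with the m-th component (y (m+1) - F m (y m)) replaced by
P (y (m+1) - c) - (1-t) P (F m (y m) - c) + (1-t) (1-P) (y (m+1) - c) - (1-P) (F m (y m) - c))`,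
to `t = 1`, where this component is `P (y (m+1) - c) - (1-P) (F m (y m) - c)`.  Its two parts only involve
`y (m+1)` and `y m`, so after the linear identifications `Fin (m+1+m'+1) → E ≃ (Fin (m+1) → E) × (Fin (m'+1) → E)`
and `(Fin (m+1+m') → E) × ℝ^s × ℝ^w ≃ ((Fin m → E) × ℝ^s × ℝ^w') × ((Fin m' → E) × ℝ^s' × ℝ^w)`
(using `(βs, βu)` for the `m`-th component, and a sign) the map is the product of the two boundary
problems: `S_A4` and `S_A3`.  If the total dimensions do not match both sides are zero (`S_A0`). -/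
def S_CUT : Prop := ∀ (E : Type u) [NormedAddCommGroup E] [NormedSpace ℝ E]
  [FiniteDimensional ℝ E] (s w s' w' m m' : ℕ) (F : ℕ → E → E) (D : ℕ → Set E)
  (bm : E → (Fin s → ℝ)) (bp : E → (Fin w → ℝ)) (P : E →L[ℝ] E) (βs : E →L[ℝ] (Fin s' → ℝ))
  (βu : E →L[ℝ] (Fin w' → ℝ)) (c : E),
  (∀ i ≤ m + 1 + m', IsOpen (D i) ∧ Bornology.IsBounded (D i) ∧ (D i).Nonempty) →
  (∀ i < m + 1 + m', ContinuousOn (F i) (closure (D i))) → ContinuousOn bm (closure (D 0)) →
  ContinuousOn bp (closure (D (m + 1 + m'))) → P * P = P →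
  (∀ v, βs v = 0 ↔ P v = 0) → Function.Surjective βs →
  (∀ v, βu v = 0 ↔ P v = v) → Function.Surjective βu →
  (∀ t ∈ Icc (0 : ℝ) 1, ∀ y : ℕ → E, (∀ i ≤ m + 1 + m', y i ∈ closure (D i)) →
    (∀ i < m + 1 + m', i ≠ m → y (i + 1) = F i (y i)) → bm (y 0) = 0 →
    bp (y (m + 1 + m')) = 0 → P (y (m + 1) - c) = (1 - t) • P (F m (y m) - c) →
    (F m (y m) - c) - P (F m (y m) - c) = (1 - t) • ((y (m + 1) - c) - P (y (m + 1) - c)) →
    ∀ i ≤ m + 1 + m', y i ∈ D i) →
  adeg (Bvp (m + 1 + m') F bm bp) (Box (m + 1 + m') D) =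
    adeg (Bvp m F bm (fun y => βu (F m y - c))) (Box m D) *
    adeg (Bvp m' (fun i => F (m + 1 + i)) (fun y => βs (y - c)) bp)
      (Box m' (fun i => D (m + 1 + i)))

/-- **MID.** A chain close to an affine hyperbolic chain, with linear boundary conditions adapted to
the splitting, has degree one.
Proof. Linear homotopy of all `F i` (`i ≤ n`) to `y ↦ c (i + 1) + A i (y - c i)`; all the intermediate maps
satisfy the same estimate with `ε1`, so by `G2P` (for the chain of length `n + 1`, where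
`x (n+1) := F n (x n)`; all `t i = 0`, `ε' = 0`) the zeros in the closure of the box satisfy
`‖y i - c i‖ ≤ Cs ε1 < r / 2`.  The affine problem has the unique zero `y = c` and an injective derivative
(`G2P` with `ε = ε' = 0`), and `s + w = finrank E`: `s = rank (P 0)`, `w = finrank E - rank (P (n+1))`, and
the ranks of `P 0` and `P (n+1)` agree because `Pr A 0 (n+1)` is an isomorphism commuting with them.
Then `S_A1`, `S_A5`. -/
def S_MID : Prop := ∀ (K l Cs : ℝ), G2P.{u} K l Cs → ∀ (E : Type u) [NormedAddCommGroup E]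
  [NormedSpace ℝ E] [FiniteDimensional ℝ E] (A P : ℕ → E →L[ℝ] E), GC A P K l →
  ∀ (n s w : ℕ) (c : ℕ → E) (F : ℕ → E → E) (r ε1 : ℝ) (βs : E →L[ℝ] (Fin s → ℝ))
    (βu : E →L[ℝ] (Fin w → ℝ)), 0 < r → 0 ≤ ε1 → Cs * ε1 < r / 2 →
  (∀ i ≤ n, ContinuousOn (F i) (closedBall (c i) (r / 2))) →
  (∀ i ≤ n, ∀ y ∈ closedBall (c i) (r / 2), ‖F i y - c (i + 1) - A i (y - c i)‖ ≤ ε1) →
  (∀ v, βs v = 0 ↔ P 0 v = 0) → Function.Surjective βs →
  (∀ v, βu v = 0 ↔ P (n + 1) v = v) → Function.Surjective βu →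
  adeg (Bvp n F (fun y => βs (y - c 0)) (fun y => βu (F n y - c (n + 1))))
    (Box n (fun i => ball (c i) (r / 2))) = 1

/-- The common hypotheses on a chain of length `N` close to an affine hyperbolic chain, with small
domains `D 0`, `D N` for the end points. -/
structure CH {E : Type*} [NormedAddCommGroup E] [NormedSpace ℝ E] (A P : ℕ → E →L[ℝ] E)
    (Cs : ℝ) (N : ℕ) (c : ℕ → E) (F : ℕ → E → E) (D : ℕ → Set E) (r ε1 ε2 : ℝ) : Prop where
  r_pos : 0 < r
  e1 : 0 ≤ ε1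
  e2 : 0 ≤ ε2
  small : Cs * (ε1 + ε2) < r / 2
  op : ∀ i ≤ N, IsOpen (D i)
  ne : ∀ i ≤ N, (D i).Nonempty
  sub : ∀ i ≤ N, D i ⊆ closedBall (c i) r
  mid : ∀ i, 0 < i → i < N → D i = ball (c i) (r / 2)
  cont : ∀ i < N, ContinuousOn (F i) (closedBall (c i) r)
  lin : ∀ i < N, ∀ y ∈ closedBall (c i) r, ‖F i y - c (i + 1) - A i (y - c i)‖ ≤ ε1
  d0 : ∀ y ∈ closure (D 0), ‖P 0 (y - c 0)‖ ≤ ε2
  dN : ∀ y ∈ closure (D N), ‖(y - c N) - P N (y - c N)‖ ≤ ε2

/-- **CUT1.** One cut. The last two hypotheses say that an orbit segment of the left (right) part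
which satisfies the left (right) boundary condition does not start (end) on the frontier of the
domain of the first (last) point.
Proof: `S_CUT`; the admissibility: a solution `y` of the `t`-system satisfies, by `G2P` (all `t i = 0`
except `t m = t`), `‖y i - c i‖ ≤ Cs (ε1 + ε2) < r / 2`, so `y i ∈ D i` for `0 < i < N`; and `y 0 ∈ D 0`,
`y N ∈ D N` by the last two hypotheses, since the left part and the right part are orbit segments. -/
def S_CUT1 : Prop := ∀ (K l Cs : ℝ), G2P.{u} K l Cs → ∀ (E : Type u) [NormedAddCommGroup E]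
  [NormedSpace ℝ E] [FiniteDimensional ℝ E] (A P : ℕ → E →L[ℝ] E), GC A P K l →
  ∀ (m m' s w s' w' : ℕ) (c : ℕ → E) (F : ℕ → E → E) (D : ℕ → Set E) (r ε1 ε2 : ℝ)
    (bm : E → (Fin s → ℝ)) (bp : E → (Fin w → ℝ)) (βs : E →L[ℝ] (Fin s' → ℝ))
    (βu : E →L[ℝ] (Fin w' → ℝ)),
  CH A P Cs (m + 1 + m') c F D r ε1 ε2 →
  ContinuousOn bm (closure (D 0)) → ContinuousOn bp (closure (D (m + 1 + m'))) →
  (∀ v, βs v = 0 ↔ P (m + 1) v = 0) → Function.Surjective βs →
  (∀ v, βu v = 0 ↔ P (m + 1) v = v) → Function.Surjective βu →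
  (∀ y : ℕ → E, (∀ i ≤ m, y i ∈ closure (D i)) → (∀ i < m, y (i + 1) = F i (y i)) →
    bm (y 0) = 0 → y 0 ∈ D 0) →
  (∀ y : ℕ → E, (∀ i ≤ m', y i ∈ closure (D (m + 1 + i))) →
    (∀ i < m', y (i + 1) = F (m + 1 + i) (y i)) → bp (y m') = 0 → y m' ∈ D (m + 1 + m')) →
  adeg (Bvp (m + 1 + m') F bm bp) (Box (m + 1 + m') D) =
    adeg (Bvp m F bm (fun y => βu (F m y - c (m + 1)))) (Box m D) *
    adeg (Bvp m' (fun i => F (m + 1 + i)) (fun y => βs (y - c (m + 1))) bp)
      (Box m' (fun i => D (m + 1 + i)))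

/-- **CUT3.** Two cuts and a middle part, which does not contribute.  (`βs, βu` are adapted to
`P (m + 1)`, `βs', βu'` to `P (m + 1 + n + 1)`.)
Proof: write the chain as `m + 1 + (n + 1 + m')`.  `S_CUT` between `m` and `m + 1`, then `S_CUT` for the
right part (the chain shifted by `m + 1`, with the left boundary condition `βs (y - c (m+1)) = 0`)
between `n` and `n + 1`; the admissibility is checked as in `S_CUT1` (for the right part `G2P` is used
for the shifted sequences, with `P (y 0 - c 0) = 0`; the domain of its first point is a ball around its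
centre).  The middle factor is `1` by `S_MID`. -/
def S_CUT3 : Prop := ∀ (K l Cs : ℝ), G2P.{u} K l Cs → ∀ (E : Type u) [NormedAddCommGroup E]
  [NormedSpace ℝ E] [FiniteDimensional ℝ E] (A P : ℕ → E →L[ℝ] E), GC A P K l →
  ∀ (m n m' s w s' w' : ℕ) (c : ℕ → E) (F : ℕ → E → E) (D : ℕ → Set E) (r ε1 ε2 : ℝ)
    (bm : E → (Fin s → ℝ)) (bp : E → (Fin w → ℝ)) (βs βs' : E →L[ℝ] (Fin s' → ℝ))
    (βu βu' : E →L[ℝ] (Fin w' → ℝ)),
  CH A P Cs (m + 1 + (n + 1 + m')) c F D r ε1 ε2 →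
  ContinuousOn bm (closure (D 0)) → ContinuousOn bp (closure (D (m + 1 + (n + 1 + m')))) →
  (∀ v, βs v = 0 ↔ P (m + 1) v = 0) → Function.Surjective βs →
  (∀ v, βu v = 0 ↔ P (m + 1) v = v) → Function.Surjective βu →
  (∀ v, βs' v = 0 ↔ P (m + 1 + (n + 1)) v = 0) → Function.Surjective βs' →
  (∀ v, βu' v = 0 ↔ P (m + 1 + (n + 1)) v = v) → Function.Surjective βu' →
  (∀ y : ℕ → E, (∀ i ≤ m, y i ∈ closure (D i)) → (∀ i < m, y (i + 1) = F i (y i)) →
    bm (y 0) = 0 → y 0 ∈ D 0) →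
  (∀ y : ℕ → E, (∀ i ≤ m', y i ∈ closure (D (m + 1 + (n + 1 + i)))) →
    (∀ i < m', y (i + 1) = F (m + 1 + (n + 1 + i)) (y i)) → bp (y m') = 0 →
    y m' ∈ D (m + 1 + (n + 1 + m'))) →
  adeg (Bvp (m + 1 + (n + 1 + m')) F bm bp) (Box (m + 1 + (n + 1 + m')) D) =
    adeg (Bvp m F bm (fun y => βu (F m y - c (m + 1)))) (Box m D) *
    adeg (Bvp m' (fun i => F (m + 1 + (n + 1 + i))) (fun y => βs' (y - c (m + 1 + (n + 1)))) bp)
      (Box m' (fun i => D (m + 1 + (n + 1 + i))))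

/-- **SIGN.** The determinants of the linearisations of the boundary problem at all orbits in the
box have the same sign (and are nonzero).  The splitting `P i` is invariant under the chain, `Bm` is
injective on the contracted space, `Bp` is injective on the expanded space, and (last but one
hypothesis) at every orbit the homotopy which decouples the two bundles has no kernel.
Proof. Exactly as `Pool.Agent.H244.Tube.sign_const` (file `Pool/Agent/H244/Sign.lean`): trivialise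
the projections, `P i x * T i x = T i x * p i` with `p i = P i (c i)` (`Pool.Agent.H244.Tube.triv`, with
`T i (c i) = 1`), let `C i z = (T (i+1) (F i z))⁻¹ (DF i z) (T i z)`, which commutes: `C i z p i = p (i+1) C i z`,
is injective and continuous in `z ∈ D i`.  Reference operator for `y ∈ Box`:
`Q y v = ((p (i+1) v (i+1) - C i (y i) (1 - p i) (v i))ᵢ, Bm (T 0 (y 0) p 0 (v 0)), Bp (T N (y N) (1 - p N) (v N)))`;
it is injective for all `y` in the box, in particular along the segment from `y` to `y'` (convexity),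
so its determinant (after composition with `e.symm`) has constant sign there.  At an orbit `y` the
operator `BvpD`, composed with the `T`'s (whose determinants are positive: they are connected to `1`
along the segment from the centre), is homotopic to `Q y` through
`v ↦ ((p v(i+1) + t (1-p) v(i+1) - t C p v(i) - C (1-p) v(i))ᵢ, Bm T (p v0 + t (1-p) v0), Bp T (t p vN + (1-p) vN))`, whose
kernel is trivial for all `t ∈ [0,1]` by the hypothesis `hH` applied to `ws i = T i (y i) (p i (v i))`,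
`wu i = T i (y i) ((1 - p i) (v i))`.  Injective operators between spaces of the same finite dimension
have nonzero determinant. -/
def S_SIGN : Prop := ∀ (E : Type u) [NormedAddCommGroup E] [NormedSpace ℝ E]
  [FiniteDimensional ℝ E] (N s w : ℕ) (F : ℕ → E → E) (P : ℕ → E → E →L[ℝ] E) (c : ℕ → E) (R : ℝ)
  (D : ℕ → Set E) (Bm : E →L[ℝ] (Fin s → ℝ)) (Bp : E →L[ℝ] (Fin w → ℝ)), 0 ≤ R →
  (∀ i ≤ N, Convex ℝ (D i) ∧ D i ⊆ closedBall (c i) R) →
  (∀ i ≤ N, ContinuousOn (P i) (closedBall (c i) R)) →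
  (∀ i ≤ N, ∀ x ∈ closedBall (c i) R, P i x * P i x = P i x) →
  (∀ i < N, ∀ x ∈ D i, ContDiffAt ℝ 1 (F i) x ∧ F i x ∈ closedBall (c (i + 1)) R ∧
    fderiv ℝ (F i) x * P i x = P (i + 1) (F i x) * fderiv ℝ (F i) x ∧
    Function.Injective (fderiv ℝ (F i) x)) →
  (∀ x ∈ D 0, ∀ v, P 0 x v = v → Bm v = 0 → v = 0) →
  (∀ x ∈ D N, ∀ v, P N x v = 0 → Bp v = 0 → v = 0) →
  s + w = Module.finrank ℝ E →
  (∀ y : ℕ → E, (∀ i ≤ N, y i ∈ D i) → (∀ i < N, y (i + 1) = F i (y i)) →
    ∀ t ∈ Icc (0 : ℝ) 1, ∀ ws wu : ℕ → E, (∀ i ≤ N, P i (y i) (ws i) = ws i) →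
      (∀ i ≤ N, P i (y i) (wu i) = 0) →
      (∀ i < N, ws (i + 1) = t • fderiv ℝ (F i) (y i) (ws i)) →
      (∀ i < N, fderiv ℝ (F i) (y i) (wu i) = t • wu (i + 1)) →
      Bm (ws 0 + t • wu 0) = 0 → Bp (t • ws N + wu N) = 0 → ∀ i ≤ N, ws i = 0 ∧ wu i = 0) →
  ∀ y y' : ℕ → E, (∀ i ≤ N, y i ∈ D i) → (∀ i < N, y (i + 1) = F i (y i)) →
    (∀ i ≤ N, y' i ∈ D i) → (∀ i < N, y' (i + 1) = F i (y' i)) →
    ∀ e : (Fin (N + 1) → E) ≃L[ℝ] ((Fin N → E) × (Fin s → ℝ) × (Fin w → ℝ)),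
    0 < (((e.symm : _ →L[ℝ] _).comp (BvpD N (fun i => fderiv ℝ (F i) (y i)) Bm Bp)) :
        (Fin (N + 1) → E) →L[ℝ] (Fin (N + 1) → E)).det *
      (((e.symm : _ →L[ℝ] _).comp (BvpD N (fun i => fderiv ℝ (F i) (y' i)) Bm Bp)) :
        (Fin (N + 1) → E) →L[ℝ] (Fin (N + 1) → E)).det

end Pool.Agent.H963.CJ
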