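import Pool.Agent.H963.CJ.DegDef

/-!
# Absolute degree: approximation of continuous maps by `C¹` maps on a compact set
-/

set_option autoImplicit false

open Set Filter Topology Metric
open scoped ContDiff

namespace Pool.Agent.H963.CJ

universe u

theorem t_APX : S_APX.{u} := by
  intro V W _ _ _ _ _ _ K Φ hK hΦ ε hε
  have : TietzeExtension.{u, u} W := TietzeExtension.of_tvs ℝ
  obtain ⟨g, hg⟩ := ContinuousMap.exists_restrict_eq hK.isClosed
    (⟨K.domRestrict Φ, continuousOn_iff_continuous_domRestrict.1 hΦ⟩ : C(K, W))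
  have hgK : ∀ x ∈ K, g x = Φ x := fun x hx => congrArg (fun f : C(K, W) => f ⟨x, hx⟩) hg
  have hd := ContinuousMap.dense_setOfPred_contDiff (E := V) (F := W) g
  rw [mem_closure_iff_nhds_basis
    (nhds_basis_uniformity uniformity_basis_dist.compactConvergenceUniformity)] at hd
  obtain ⟨Ψ, hΨ, hΨg⟩ := hd (K, ε) ⟨hK, hε⟩
  refine ⟨Ψ, ?_, fun x hx => ?_⟩
  · have hΨ' : ContDiff ℝ ∞ Ψ := hΨ
    exact hΨ'.of_le (by exact_mod_cast le_top)
  · rw [← hgK x hx, ← dist_eq_norm]
    exact hΨg x hx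

end Pool.Agent.H963.CJ
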