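import Pool.Agent.H244.Deg3

/-!
# Absolute degree of continuous maps: definitions and statements of the API

`adeg Φ Ω` is the absolute value of the Brouwer degree (over `0`) of a continuous map `Φ` from the
closure of a bounded open subset `Ω` of a finite-dimensional space `X` to a finite-dimensional space
`Y`, without zeros on the frontier of `Ω`; it is `0` if the dimensions of `X` and `Y` differ.

Each `S_...` is a statement; a task asks for a proof of one of them from the previous ones.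
-/

set_option autoImplicit false
set_option linter.unusedSectionVars false

open MeasureTheory Set Filter Topology Metric
open scoped ContDiff

namespace Pool.Agent.H963.CJ

universe u

section defs

variable {V : Type*} [NormedAddCommGroup V] [NormedSpace ℝ V]
  {X : Type*} [NormedAddCommGroup X] [NormedSpace ℝ X]
  {Y : Type*} [NormedAddCommGroup Y] [NormedSpace ℝ Y]

/-- the zeros of `Ψ` in `Ω`, counted with the sign of the determinant of the derivative -/
noncomputable def cnt (Ψ : V → V) (Ω : Set V) : ℤ :=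
  ∑ᶠ x ∈ {x | x ∈ Ω ∧ Ψ x = 0}, ((SignType.sign (fderiv ℝ Ψ x).det : SignType) : ℤ)

/-- `Ψ` is `C¹` and its zeros in the closure of `Ω` are nondegenerate -/
structure Reg (Ψ : V → V) (Ω : Set V) : Prop where
  smooth : ContDiff ℝ 1 Ψ
  nd : ∀ x ∈ closure Ω, Ψ x = 0 → (fderiv ℝ Ψ x).det ≠ 0

/-- `Φ` is admissible: continuous on the closure of the bounded open set `Ω`, without zeros on the
frontier -/
structure Adm (Φ : X → Y) (Ω : Set X) : Prop where
  op : IsOpen Ω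
  bd : Bornology.IsBounded Ω
  cont : ContinuousOn Φ (closure Ω)
  nz : ∀ x ∈ frontier Ω, Φ x ≠ 0

/-- `d` is the absolute degree of `Φ` on `Ω` -/
def HasDeg (Φ : X → Y) (Ω : Set X) (d : ℕ) : Prop :=
  ∃ (e : X ≃L[ℝ] Y), ∃ ε > 0, ∀ Ψ : X → X, Reg Ψ Ω → (∀ x ∈ closure Ω, ‖e (Ψ x) - Φ x‖ < ε) →
    (cnt Ψ Ω).natAbs = d

open Classical in
/-- the absolute degree (`0` if the dimensions of `X` and `Y` are different) -/
noncomputable def adeg (Φ : X → Y) (Ω : Set X) : ℕ :=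
  if h : ∃ d, HasDeg Φ Ω d then Classical.choose h else 0

end defs

/-- **APX.** Approximation of continuous maps by `C¹` maps, uniformly on a compact set.
Proof: extend `Φ` to a continuous map with compact support (Tietze, `ContinuousMap`/Dugundji, in
coordinates) and mollify (`ContDiffBump` convolution), or apply Stone-Weierstrass to each
coordinate, or glue constants by a smooth partition of unity
(`SmoothPartitionOfUnity`, `exists_contMDiff...`, e.g. `exists_smooth_forall_mem_convex...`). -/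
def S_APX : Prop := ∀ (V W : Type u) [NormedAddCommGroup V] [NormedSpace ℝ V]
  [FiniteDimensional ℝ V] [NormedAddCommGroup W] [NormedSpace ℝ W] [FiniteDimensional ℝ W]
  (K : Set V) (Φ : V → W), IsCompact K → ContinuousOn Φ K → ∀ ε > 0,
  ∃ Ψ : V → W, ContDiff ℝ 1 Ψ ∧ ∀ x ∈ K, ‖Ψ x - Φ x‖ < ε

/-- **SARD.** After a small translation the zeros of a `C¹` map are nondegenerate.  Proof: the set of
the critical values has measure zero,
`MeasureTheory.addHaar_image_eq_zero_of_det_fderiv_eq_zero`, so its complement is dense. -/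
def S_SARD : Prop := ∀ (V : Type u) [NormedAddCommGroup V] [NormedSpace ℝ V]
  [FiniteDimensional ℝ V] (Ψ : V → V) (Ω : Set V), ContDiff ℝ 1 Ψ → ∀ δ > 0,
  ∃ y : V, ‖y‖ < δ ∧ Reg (fun x => Ψ x - y) Ω

/-- **CNTINT.** The signed number of the zeros is finite and given by an integral.  Proof: the zeros
in the closure of `Ω` are isolated (inverse function theorem) and form a compact set, hence there are
finitely many of them, all in `Ω`; around each of them use `Pool.Agent.H244.Deg.local_zero` (with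
disjoint neighbourhoods contained in `Ω` on which the sign of the determinant is constant), and note
that `‖Ψ‖` has a positive lower bound on the rest of the closure (compare with the proof of
`Pool.Agent.H244.Deg.deg_main`, which does this for one or two zeros). -/
def S_CNTINT : Prop := ∀ (V : Type u) [NormedAddCommGroup V] [NormedSpace ℝ V]
  [FiniteDimensional ℝ V] [MeasurableSpace V] [BorelSpace V] (μ : Measure V) [μ.IsAddHaarMeasure]
  (Ψ : V → V) (Ω : Set V), IsOpen Ω → Bornology.IsBounded Ω → Reg Ψ Ω →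
  (∀ x ∈ frontier Ω, Ψ x ≠ 0) →
  {x | x ∈ Ω ∧ Ψ x = 0}.Finite ∧ ∃ η₀ > 0, ∀ η : ℝ, 0 < η → η ≤ η₀ → ∀ Θ : V → V,
    ContDiff ℝ 1 Θ → (∀ y, η ≤ ‖y‖ → (fderiv ℝ Θ y).det = 0) →
    ∫ x in Ω, (fderiv ℝ Θ (Ψ x)).det * (fderiv ℝ Ψ x).det ∂μ =
      (cnt Ψ Ω : ℝ) * ∫ y, (fderiv ℝ Θ y).det ∂μ

/-- **CNTHOM.** Homotopy invariance of `cnt`.  Proof: `S_CNTINT` (for `μ = addHaar`),
`Pool.Agent.H244.Deg.hom_inv` and `Pool.Agent.H244.Deg.exists_theta` (whose `Θ` has
`∫ det DΘ > 0`, see the proof of `deg_main`); `finrank = 0` separately (`V` is a subsingleton, then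
there is nothing to prove because both maps are equal). -/
def S_CNTHOM : Prop := ∀ (V : Type u) [NormedAddCommGroup V] [NormedSpace ℝ V]
  [FiniteDimensional ℝ V] (Ψ₀ Ψ₁ : V → V) (Ω : Set V), IsOpen Ω → Bornology.IsBounded Ω →
  Reg Ψ₀ Ω → Reg Ψ₁ Ω →
  (∀ x ∈ frontier Ω, ∀ t ∈ Icc (0 : ℝ) 1, Ψ₀ x + t • (Ψ₁ x - Ψ₀ x) ≠ 0) →
  cnt Ψ₀ Ω = cnt Ψ₁ Ω

/-- **DEG.** The degree is well defined, and can be computed with every isomorphism `e : X ≃ Y`.
Proof: let `m > 0` be a lower bound of `‖Φ‖` on the frontier (compact).  If `e Ψ₀, e Ψ₁` are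
`m / 2`-close to `Φ` on the closure, the segment between them has no zero on the frontier, so
`cnt Ψ₀ = cnt Ψ₁` by `S_CNTHOM`; such regular `Ψ` exist by `S_APX` (for `e⁻¹ Φ`) and `S_SARD`.  Another
isomorphism `e'`: if `Ψ` is good for `e` then `A Ψ`, `A = e'⁻¹ e`, is good for `e'`, and
`cnt (A Ψ) = ± cnt Ψ`, because the determinant is multiplied by `det A ≠ 0`. -/
def S_DEG : Prop := ∀ (X Y : Type u) [NormedAddCommGroup X] [NormedSpace ℝ X]
  [FiniteDimensional ℝ X] [NormedAddCommGroup Y] [NormedSpace ℝ Y] [FiniteDimensional ℝ Y]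
  (Φ : X → Y) (Ω : Set X), Adm Φ Ω → ∀ e : X ≃L[ℝ] Y,
  (∃ ε > 0, ∀ Ψ : X → X, Reg Ψ Ω → (∀ x ∈ closure Ω, ‖e (Ψ x) - Φ x‖ < ε) →
    (cnt Ψ Ω).natAbs = adeg Φ Ω) ∧
  ∀ ε > 0, ∃ Ψ : X → X, Reg Ψ Ω ∧ ∀ x ∈ closure Ω, ‖e (Ψ x) - Φ x‖ < ε

/-- **A0.** The degree is zero if the dimensions differ. -/
def S_A0 : Prop := ∀ (X Y : Type u) [NormedAddCommGroup X] [NormedSpace ℝ X]
  [FiniteDimensional ℝ X] [NormedAddCommGroup Y] [NormedSpace ℝ Y] [FiniteDimensional ℝ Y]
  (Φ : X → Y) (Ω : Set X), adeg Φ Ω ≠ 0 → Module.finrank ℝ X = Module.finrank ℝ Y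

/-- **A1.** Homotopy invariance.  (If the dimensions differ both sides are zero.) Proof: it is enough
to show that `t ↦ adeg (H t) Ω` is locally constant on `[0,1]`; `H` is uniformly continuous on the
compact set `[0,1] × closure Ω` and `‖H‖` has a positive lower bound on `[0,1] × frontier Ω`; for
`t, t'` close use `S_DEG` with `Ψ, Ψ'` close to `H t`, `H t'` and `S_CNTHOM`. -/
def S_A1 : Prop := ∀ (X Y : Type u) [NormedAddCommGroup X] [NormedSpace ℝ X]
  [FiniteDimensional ℝ X] [NormedAddCommGroup Y] [NormedSpace ℝ Y] [FiniteDimensional ℝ Y]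
  (H : ℝ → X → Y) (Ω : Set X), IsOpen Ω → Bornology.IsBounded Ω →
  ContinuousOn (fun p : ℝ × X => H p.1 p.2) (Icc (0 : ℝ) 1 ×ˢ closure Ω) →
  (∀ t ∈ Icc (0 : ℝ) 1, ∀ x ∈ frontier Ω, H t x ≠ 0) → adeg (H 0) Ω = adeg (H 1) Ω

/-- **A2.** Excision. Proof: `S_DEG` for both sets; `‖Φ‖` has a positive lower bound on
`closure Ω ∖ Ω'`, so a close regular `Ψ` has no zeros there and `cnt Ψ Ω = cnt Ψ Ω'`.
(If the dimensions differ both sides are zero.) -/
def S_A2 : Prop := ∀ (X Y : Type u) [NormedAddCommGroup X] [NormedSpace ℝ X]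
  [FiniteDimensional ℝ X] [NormedAddCommGroup Y] [NormedSpace ℝ Y] [FiniteDimensional ℝ Y]
  (Φ : X → Y) (Ω Ω' : Set X), IsOpen Ω → Bornology.IsBounded Ω → ContinuousOn Φ (closure Ω) →
  IsOpen Ω' → Ω' ⊆ Ω → (∀ x ∈ closure Ω, Φ x = 0 → x ∈ Ω') → adeg Φ Ω = adeg Φ Ω'

/-- **A3.** Product formula, including the case where the dimensions do not match: then the right
side is zero by definition, and the left side is zero (if `dim X₁ < dim Y₁` then approximate
`Φ₁, Φ₂` by `C¹` maps `Ψ₁, Ψ₂`; the range of `Ψ₁` has measure zero in `Y₁`, so a small translate of `Ψ₁`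
has no zeros, and the translate of `(Ψ₁, Ψ₂)` is `e ∘ Ψ` with a regular `Ψ` without zeros; if
`dim X₁ > dim Y₁` then `dim X₂ < dim Y₂` or the total dimensions differ). If the dimensions match:
choose `e = e₁ × e₂` and regular `Ψ₁, Ψ₂`; then `Ψ₁ × Ψ₂` is regular near the closure, its zeros are the
pairs of zeros and the determinants multiply. -/
def S_A3 : Prop := ∀ (X₁ Y₁ X₂ Y₂ : Type u) [NormedAddCommGroup X₁] [NormedSpace ℝ X₁]
  [FiniteDimensional ℝ X₁] [NormedAddCommGroup Y₁] [NormedSpace ℝ Y₁] [FiniteDimensional ℝ Y₁]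
  [NormedAddCommGroup X₂] [NormedSpace ℝ X₂]
  [FiniteDimensional ℝ X₂] [NormedAddCommGroup Y₂] [NormedSpace ℝ Y₂] [FiniteDimensional ℝ Y₂]
  (Φ₁ : X₁ → Y₁) (Φ₂ : X₂ → Y₂) (Ω₁ : Set X₁) (Ω₂ : Set X₂),
  IsOpen Ω₁ → Bornology.IsBounded Ω₁ → ContinuousOn Φ₁ (closure Ω₁) →
  IsOpen Ω₂ → Bornology.IsBounded Ω₂ → ContinuousOn Φ₂ (closure Ω₂) →
  (∀ x₁ ∈ closure Ω₁, ∀ x₂ ∈ closure Ω₂, Φ₁ x₁ = 0 → Φ₂ x₂ = 0 → x₁ ∈ Ω₁ ∧ x₂ ∈ Ω₂) →
  Ω₁.Nonempty → Ω₂.Nonempty →
  adeg (fun p : X₁ × X₂ => (Φ₁ p.1, Φ₂ p.2)) (Ω₁ ×ˢ Ω₂) = adeg Φ₁ Ω₁ * adeg Φ₂ Ω₂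

/-- **A4.** Linear changes of coordinates.  Proof: immediate from `S_DEG` (for non-admissible `Φ` use the
definition `HasDeg`, which is invariant: conjugate `Ψ`). -/
def S_A4 : Prop := (∀ (X Y Y' : Type u) [NormedAddCommGroup X] [NormedSpace ℝ X]
  [FiniteDimensional ℝ X] [NormedAddCommGroup Y] [NormedSpace ℝ Y] [FiniteDimensional ℝ Y]
  [NormedAddCommGroup Y'] [NormedSpace ℝ Y'] [FiniteDimensional ℝ Y']
  (Φ : X → Y) (Ω : Set X) (L : Y ≃L[ℝ] Y'), Adm Φ Ω → adeg (fun x => L (Φ x)) Ω = adeg Φ Ω) ∧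
  (∀ (X X' Y : Type u) [NormedAddCommGroup X] [NormedSpace ℝ X]
  [FiniteDimensional ℝ X] [NormedAddCommGroup X'] [NormedSpace ℝ X'] [FiniteDimensional ℝ X']
  [NormedAddCommGroup Y] [NormedSpace ℝ Y] [FiniteDimensional ℝ Y]
  (Φ : X → Y) (Ω : Set X) (L : X' ≃L[ℝ] X), Adm Φ Ω →
    adeg (fun x => Φ (L x)) (L ⁻¹' Ω) = adeg Φ Ω)

/-- **A5.** A unique nondegenerate zero has absolute degree one.  Proof: by `S_A2` pass to a small
ball around `a`, where `Φ x = A (x - a) + o(x - a)`, by `S_A1` (linear homotopy) to the affine map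
`x ↦ A (x - a)`, for which `S_DEG` applies with `Ψ = A⁻¹ Φ = id - a`. -/
def S_A5 : Prop := ∀ (X Y : Type u) [NormedAddCommGroup X] [NormedSpace ℝ X]
  [FiniteDimensional ℝ X] [NormedAddCommGroup Y] [NormedSpace ℝ Y] [FiniteDimensional ℝ Y]
  (Φ : X → Y) (Ω : Set X) (a : X) (A : X →L[ℝ] Y), IsOpen Ω → Bornology.IsBounded Ω →
  ContinuousOn Φ (closure Ω) → a ∈ Ω → Φ a = 0 → (∀ x ∈ closure Ω, Φ x = 0 → x = a) →
  HasFDerivAt Φ A a → Function.Bijective A → adeg Φ Ω = 1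

/-- **A6.** Several nondegenerate zeros of the same sign: the absolute degree is at least two.
Proof: the zeros in the closure of `Ω` lie in `Ω`, are isolated and therefore finite in number; by
`S_DEG` take a regular `Ψ` close to `Φ`; in disjoint small balls around the zeros `S_DEG` and the
homotopy to the affine maps (as in `S_A5`, but for the signed count: `cnt Ψ` in the ball is
`sign det (e⁻¹ A x)` by `S_CNTHOM`) show that `cnt Ψ Ω` is the sum of equal signs, so its absolute value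
is the number of the zeros. -/
def S_A6 : Prop := ∀ (X Y : Type u) [NormedAddCommGroup X] [NormedSpace ℝ X]
  [FiniteDimensional ℝ X] [NormedAddCommGroup Y] [NormedSpace ℝ Y] [FiniteDimensional ℝ Y]
  (Φ : X → Y) (Ω : Set X) (A : X → X →L[ℝ] Y) (e : X ≃L[ℝ] Y), Adm Φ Ω →
  (∀ x ∈ Ω, Φ x = 0 → HasFDerivAt Φ (A x) x) →
  (∀ x ∈ Ω, ∀ y ∈ Ω, Φ x = 0 → Φ y = 0 →
    0 < ((e.symm : Y →L[ℝ] X).comp (A x)).det * ((e.symm : Y →L[ℝ] X).comp (A y)).det) →
  ∀ a ∈ Ω, ∀ b ∈ Ω, Φ a = 0 → Φ b = 0 → a ≠ b → 2 ≤ adeg Φ Ω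

/-- **A7.** A map of nonzero degree has a zero. Proof: otherwise `‖Φ‖` has a positive lower bound on
the closure and a close regular `Ψ` has no zeros; `cnt Ψ Ω = 0`. -/
def S_A7 : Prop := ∀ (X Y : Type u) [NormedAddCommGroup X] [NormedSpace ℝ X]
  [FiniteDimensional ℝ X] [NormedAddCommGroup Y] [NormedSpace ℝ Y] [FiniteDimensional ℝ Y]
  (Φ : X → Y) (Ω : Set X), Adm Φ Ω → adeg Φ Ω ≠ 0 → ∃ x ∈ Ω, Φ x = 0

end Pool.Agent.H963.CJ
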