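import Pool.Agent.H963.CJ.Asm

/-!
# `C⁰`-continuous families of Anosov diffeomorphisms
-/

set_option autoImplicit false

open Set Filter Topology
open scoped Manifold ContDiff

namespace Pool.Agent.H963.CJ

open Pool.Agent.H721R2 Pool.Agent.H789R2.AN

universe u v

variable {E : Type u} [NormedAddCommGroup E] [NormedSpace ℝ E] [FiniteDimensional ℝ E]
  {M : Type v} [TopologicalSpace M] [T2Space M] [CompactSpace M]
  [ChartedSpace E M] [IsManifold 𝓘(ℝ, E) ∞ M]

/-- All members of a connected `C⁰`-continuous family of Anosov diffeomorphisms are conjugate. -/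
theorem family {X : Type*} [TopologicalSpace X] [PreconnectedSpace X]
    (φ : X → Diffeomorph 𝓘(ℝ, E) 𝓘(ℝ, E) M M 1)
    (hφ : Continuous fun p : X × M => φ p.1 p.2)
    (hA : ∀ s, ∃ Es Eu : ∀ x : M, Submodule ℝ (TangentSpace 𝓘(ℝ, E) x), IsAnosov (φ s) Es Eu)
    (s s' : X) : ∃ h : M ≃ₜ M, ∀ x, h (φ s x) = φ s' (h x) := by
  have hloc : ∀ t : X, ∀ᶠ t' in 𝓝 t, ∃ h : M ≃ₜ M, ∀ x, h (φ t' x) = φ t (h x) := by
    intro t
    obtain ⟨Es', Eu', hg⟩ := hA t
    obtain ⟨𝒰, hU, hmain⟩ := main (φ t) Es' Eu' hg univ Filter.univ_mem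
    rw [mem_nhdsSet_iff_forall] at hU
    have h1 : ∀ᶠ t' in 𝓝 t, ∀ x ∈ (univ : Set M), (φ t' x, φ t x) ∈ 𝒰 := by
      apply isCompact_univ.eventually_forall_of_forall_eventually
      intro x _
      have hc : Continuous fun p : X × M => (φ p.1 p.2, φ t p.2) :=
        hφ.prodMk ((φ t).continuous.comp continuous_snd)
      have h2 : 𝒰 ∈ 𝓝 ((φ t x, φ t x) : M × M) := hU _ rfl
      exact hc.continuousAt (x := (t, x)) |>.eventually h2
    filter_upwards [h1] with t' ht'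
    obtain ⟨Es, Eu, hf⟩ := hA t'
    obtain ⟨h, -, hh, -⟩ := hmain (φ t') Es Eu hf fun x => ht' x (mem_univ x)
    exact ⟨h, hh⟩
  have hclopen : IsClopen {t : X | ∃ h : M ≃ₜ M, ∀ x, h (φ t x) = φ s' (h x)} := by
    constructor
    · rw [← isOpen_compl_iff, isOpen_iff_mem_nhds]
      intro t ht
      filter_upwards [hloc t] with t' ht'
      rintro ⟨h', hh'⟩
      obtain ⟨h, hh⟩ := ht'
      apply ht
      refine ⟨h.symm.trans h', fun x => ?_⟩
      have h3 : h.symm (φ t x) = φ t' (h.symm x) := by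
        rw [Homeomorph.symm_apply_eq, hh, Homeomorph.apply_symm_apply]
      rw [Homeomorph.trans_apply, Homeomorph.trans_apply, h3, hh']
    · rw [isOpen_iff_mem_nhds]
      rintro t ⟨h', hh'⟩
      filter_upwards [hloc t] with t' ht'
      obtain ⟨h, hh⟩ := ht'
      refine ⟨h.trans h', fun x => ?_⟩
      rw [Homeomorph.trans_apply, Homeomorph.trans_apply, hh, hh']
  have hne : {t : X | ∃ h : M ≃ₜ M, ∀ x, h (φ t x) = φ s' (h x)}.Nonempty :=
    ⟨s', Homeomorph.refl M, fun _ => rfl⟩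
  have h5 : s ∈ {t : X | ∃ h : M ≃ₜ M, ∀ x, h (φ t x) = φ s' (h x)} := by
    rw [hclopen.eq_univ hne]
    exact mem_univ s
  exact h5

end Pool.Agent.H963.CJ
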