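import Pool.Agent.H963.CJ.ChDef
import Pool.Agent.H244.Main

/-!
# Injectivity of the semiconjugacy: definitions and statements on the manifold

Notation in the comments: `ψ j = extChartAt 𝓘(ℝ, E) j`; `z ↦ P` means `Pj π j (ψ j z)`, the projection
onto the stable space of `f` at `z` along the unstable one in the chart at `j`.
-/

set_option autoImplicit false
set_option linter.unusedSectionVars false

open Set Filter Topology Metric
open scoped Manifold ContDiff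

namespace Pool.Agent.H963.CJ

open Pool.Agent.H721R2 Pool.Agent.H789R2.AN Pool.Agent.TH289 Pool.Agent.H244.Dyn
  Pool.Agent.H244.Loc

universe u v w

section charts

variable (E : Type*) [NormedAddCommGroup E] [NormedSpace ℝ E]
  {M : Type*} [MetricSpace M] [ChartedSpace E M]

/-- a finite family of charts with uniform sizes -/
structure GCh (t : Finset M) (ρ : M → ℝ) (R ρ₀ : ℝ) : Prop where
  R_pos : 0 < R
  ρ₀_pos : 0 < ρ₀
  ρ₀_le : ∀ j ∈ t, ρ₀ ≤ ρ j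
  cover : ∀ z, ∃ j ∈ t, dist z j ≤ ρ j
  src : ∀ j ∈ t, ∀ z, dist z j ≤ 2 * ρ j → z ∈ (extChartAt 𝓘(ℝ, E) j).source
  tgt : ∀ j ∈ t, ∀ z, dist z j ≤ 2 * ρ j →
    closedBall (extChartAt 𝓘(ℝ, E) j z) R ⊆ (extChartAt 𝓘(ℝ, E) j).target
  c1 : ∀ ε > 0, ∃ δ > 0, ∀ j ∈ t, ∀ z, dist z j ≤ 2 * ρ j → ∀ p, dist p z < δ →
    p ∈ (extChartAt 𝓘(ℝ, E) j).source ∧
    dist (extChartAt 𝓘(ℝ, E) j p) (extChartAt 𝓘(ℝ, E) j z) < ε
  c2 : ∀ ε > 0, ∃ δ > 0, δ ≤ R ∧ ∀ j ∈ t, ∀ z, dist z j ≤ 2 * ρ j →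
    ∀ y ∈ closedBall (extChartAt 𝓘(ℝ, E) j z) δ, dist ((extChartAt 𝓘(ℝ, E) j).symm y) z < ε

end charts

section metric

variable {M : Type*} [MetricSpace M]

/-- the chart at `j` is good at `z` -/
def Gd (t : Finset M) (ρ : M → ℝ) (j z : M) : Prop := j ∈ t ∧ dist z j ≤ ρ j

/-- the chart at `j` is good near `z`, in the wide sense -/
def Gw (t : Finset M) (ρ : M → ℝ) (j z : M) : Prop := j ∈ t ∧ dist z j ≤ 2 * ρ j

/-- `k` behaves like a semiconjugacy close to the identity; `κ0` is a scale at which the orbits of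
`f` are distinguished only by `k`. -/
structure KK (f : M ≃ₜ M) (k : M → M) (κ0 : ℝ) : Prop where
  pos : 0 < κ0
  cont : Continuous k
  fwd : ∀ x w, k x = k w → k (f x) = k (f w)
  bwd : ∀ x w, k x = k w → k (f.symm x) = k (f.symm w)
  near : ∀ x w, k x = k w → dist x w ≤ κ0
  sep : ∀ x w, (∀ n : ℤ, dist (ob f x n) (ob f w n) ≤ 2 * κ0) → k x = k w
  per : ∀ p q, p ∈ Function.periodicPts f → q ∈ Function.periodicPts f → k p = k q → p = q

/-- the fibre of `k` through `a` is a point -/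
def Sg (k : M → M) (a : M) : Prop := ∀ b, k b = k a → b = a

end metric

/-- **T1.** Two points of a fibre are doubly asymptotic.
Proof (forward part; the backward part is the same for `f.symm`). Otherwise there are `ε > 0` and
`n_i → ∞` with `dist (fⁿ x) (fⁿ w) ≥ ε`, `n = n_i`, and, by compactness, `(fⁿ x, fⁿ w)` converges along
a subsequence to some `(a, b)`, `dist a b ≥ ε`.  Take `n < n'` in the subsequence with both pairs
`δ`-close to `(a, b)`, `m = n' - n ≥ 1`.  The periodic sequences of period `m` which are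
`f^(n+i) x` (resp. `f^(n+i) w`), `0 ≤ i < m`, are `2δ`-pseudo-orbits, hence shadowed within `η'` by periodic
points `p, q` of `f`, `f^m p = p`, `f^m q = q` (shadowing and expansivity of `f`:
`Pool.Agent.H244.Dyn.closed_shadow` with `ι = Fin m`, `σ = finRotate m`).  Since
`k (f^(n+i) x) = k (f^(n+i) w)` (`fwd`), `near` gives `dist (f^(n+i) x) (f^(n+i) w) ≤ κ0`, so the orbits of `p, q`
are `κ0 + 2η' ≤ 2κ0`-close for all times and `k p = k q` by `sep`, so `p = q` by `per`, so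
`dist (fⁿ x) (fⁿ w) ≤ 2η' < ε`, a contradiction. -/
def S_T1 : Prop := ∀ (M : Type v) [MetricSpace M] [CompactSpace M] (f : M ≃ₜ M) (κf : ℝ),
  TA f κf → ∀ (k : M → M) (κ0 : ℝ), KK f k κ0 → ∀ x w, k x = k w → ∀ ε > 0, ∃ N : ℕ, ∀ n ≥ N,
    dist (f^[n] x) (f^[n] w) < ε ∧ dist (f.symm^[n] x) (f.symm^[n] w) < ε

/-- **T2.** The fibres through the limit points of (forward or backward) orbits are points.
Proof. Let `a` be a limit point of the forward orbit of `x` (for the backward orbit use `f.symm`, or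
the same argument), and `k b = k a`, `b ≠ a`, `η' < dist a b / 4`, `2η' ≤ κ0`, and `δ` the shadowing constant of
`η'`. By `S_T1` there is `m` with `f^m a, f^m b` `δ/2`-close and `f^(-m) a, f^(-m) b` `δ/2`-close. Since
`a` is a limit point there are `n < n'`, `n' - n > 2m + 1`, such that `f^n x` and `f^n' x` are so close to `a` that
`f^(n+m) x` is `δ/2`-close to `f^m a` and `f^(n'-m) x` is `δ/2`-close to `f^(-m) a`. The two closed sequences
`f^(-m) a, ..., f^(m-1) a, f^(n+m) x, ..., f^(n'-m-1) x` and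
`f^(-m) b, ..., f^(m-1) b, f^(n+m) x, ..., f^(n'-m-1) x` are `δ`-pseudo-orbits (closed), and they are
`κ0`-close to each other (by `near`, since `k (f^i a) = k (f^i b)`); the periodic points `p, q` shadowing them
have `κ0 + 2η' ≤ 2κ0`-close orbits, so `p = q` by `sep`, `per`; hence `dist a b ≤ 2η'`, a contradiction. -/
def S_T2 : Prop := ∀ (M : Type v) [MetricSpace M] [CompactSpace M] (f : M ≃ₜ M) (κf : ℝ),
  TA f κf → ∀ (k : M → M) (κ0 : ℝ), KK f k κ0 → ∀ x a,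
    (MapClusterPt a atTop (fun n : ℕ => f^[n] x) ∨
      MapClusterPt a atTop (fun n : ℕ => f.symm^[n] x)) → Sg k a

/-- **T3.** If the fibre of `a` is a point, then a point close to `a` whose forward orbit is
`κ0`-close to that of `a` has a forward orbit `κ1`-close to that of `a`, uniformly in `a`; the same
for the backward orbits.
Proof. Let `δ` be the shadowing constant for `η' = min (κ1, κ0)` and `dist (f p) (f a) ≤ δ` (uniform
continuity; jump at one place). The sequence `f^n a` (`n ≤ 0`), `f^n p` (`n ≥ 1`) is a `δ`-pseudo-orbit; let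
`y` be the point whose orbit is `η'`-close to it. Then the orbits of `y` and `a` are `κ0 + η' ≤ 2κ0`-close, so
`k y = k a` and `y = a`. Hence `f^n a` is `η'`-close to `f^n p` for `n ≥ 1`. -/
def S_T3 : Prop := ∀ (M : Type v) [MetricSpace M] [CompactSpace M] (f : M ≃ₜ M) (κf : ℝ),
  TA f κf → ∀ (k : M → M) (κ0 : ℝ), KK f k κ0 → ∀ κ1 > 0, ∃ δ > 0, ∀ a p, Sg k a →
    dist p a ≤ δ →
    ((∀ n : ℕ, dist (f^[n] p) (f^[n] a) ≤ κ0) → ∀ n : ℕ, dist (f^[n] p) (f^[n] a) ≤ κ1) ∧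
    ((∀ n : ℕ, dist (f.symm^[n] p) (f.symm^[n] a) ≤ κ0) →
      ∀ n : ℕ, dist (f.symm^[n] p) (f.symm^[n] a) ≤ κ1)

/-- **CHART.** Finite families of charts with uniform sizes exist.  Proof: as
`Pool.Agent.H244.Loc.exists_charts` (file `Unif.lean`), with `closedBall x (2 * ρ x)` contained in the
source of the chart at `x` and the balls `ball x (ρ x)` for the cover. -/
def S_CHART : Prop := ∀ (E : Type u) [NormedAddCommGroup E] [NormedSpace ℝ E]
  [FiniteDimensional ℝ E] (M : Type v) [MetricSpace M] [CompactSpace M] [ChartedSpace E M]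
  [IsManifold 𝓘(ℝ, E) 1 M],
  ∃ (t : Finset M) (ρ : M → ℝ) (R ρ₀ : ℝ), GCh E t ρ R ρ₀

/-- **M1a.** The derivative cocycle of an Anosov diffeomorphism along an orbit, in good charts, is a
hyperbolic sequence with uniform constants.
Proof. `A i` is injective by `Pj`/`rep_inj`, commutes by `Pj_inv`, `Pj_proj` (file `Ch.lean`); the norms
`‖w‖` in the charts and `‖dm E e z v‖` (`w = D(ψ j) v`) are uniformly comparable: `A_low`, `A_D`, `A_cont`
on the compact sets `closedBall (ψ j z) R` (finitely many charts: use the compact set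
`{ψ j z | dist z j ≤ 2 ρ j}` for each `j ∈ t`), the angle between the bundles is bounded below
(`EAnosov.angle`, used in `Pj_cont`), and `EAnosov.hS`, `EAnosov.hU'`, `rep_fderiv` (chain rule for the
products `Pr`: `Pr A i k (D(ψ) v) = D(ψ) (dg E (g^[k]) v)`) give the estimates. -/
def S_M1a : Prop := ∀ (E : Type u) [NormedAddCommGroup E] [NormedSpace ℝ E]
  [FiniteDimensional ℝ E] (M : Type v) [MetricSpace M] [CompactSpace M] [ChartedSpace E M]
  [IsManifold 𝓘(ℝ, E) 1 M] (F : Type w) [NormedAddCommGroup F] [NormedSpace ℝ F] (e : M → F),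
  ContMDiff 𝓘(ℝ, E) 𝓘(ℝ, F) 1 e → (∀ x, Function.Injective (dm E e x)) →
  ∀ (g : M ≃ₜ M) (Es Eu : M → Submodule ℝ E) (C a b Ls Lu : ℝ),
  EAnosov e g Es Eu C a b Ls Lu → ∀ π : M → E →L[ℝ] E, IsPi π Es Eu →
  ∀ (t : Finset M) (ρ : M → ℝ) (R ρ₀ : ℝ), GCh E t ρ R ρ₀ →
  ∃ K l : ℝ, 1 ≤ K ∧ 0 < l ∧ l < 1 ∧ ∀ z j : ℕ → M, (∀ i, z (i + 1) = g (z i)) →
    (∀ i, Gw t ρ (j i) (z i)) →
    GC (fun i => fderiv ℝ (rep g (j i) (j (i + 1))) (extChartAt 𝓘(ℝ, E) (j i) (z i)))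
      (fun i => Pj π (j i) (extChartAt 𝓘(ℝ, E) (j i) (z i))) K l

/-- **M1b.** Uniform linear approximation of all maps `C⁰`-close to a `C¹` map, in good charts.
Proof: for each of the finitely many pairs `(j, j')` the derivative of `rep g j j'` is uniformly
continuous near the compact set of the `ψ j z` with `dist z j ≤ 2 ρ j`, `dist (g z) j' ≤ 2 ρ j'`, so the
mean value inequality gives `ν r / 2` on balls of radius `r`, for all small `r`; and `rep f - rep g` is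
small if `ε0` is small (uniform continuity of `ψ j'` near the compact `{p | dist p j' ≤ 2 ρ j'}`). -/
def S_M1b : Prop := ∀ (E : Type u) [NormedAddCommGroup E] [NormedSpace ℝ E]
  [FiniteDimensional ℝ E] (M : Type v) [MetricSpace M] [CompactSpace M] [ChartedSpace E M]
  [IsManifold 𝓘(ℝ, E) 1 M] (g : M → M), ContMDiff 𝓘(ℝ, E) 𝓘(ℝ, E) 1 g →
  ∀ (t : Finset M) (ρ : M → ℝ) (R ρ₀ : ℝ), GCh E t ρ R ρ₀ → ∀ ν > 0, ∀ R1 > 0,
  ∃ r > 0, r ≤ R1 ∧ ∃ ε0 > 0, ∀ f : M → M, (∀ x, dist (f x) (g x) < ε0) →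
    ∀ j z j', Gw t ρ j z → Gw t ρ j' (g z) → ∀ y ∈ closedBall (extChartAt 𝓘(ℝ, E) j z) r,
      y ∈ (extChartAt 𝓘(ℝ, E) j).target ∧
      f ((extChartAt 𝓘(ℝ, E) j).symm y) ∈ (extChartAt 𝓘(ℝ, E) j').source ∧
      dist (rep f j j' y) (extChartAt 𝓘(ℝ, E) j' (g z)) ≤ R1 ∧
      ‖rep f j j' y - extChartAt 𝓘(ℝ, E) j' (g z) -
        fderiv ℝ (rep g j j') (extChartAt 𝓘(ℝ, E) j z) (y - extChartAt 𝓘(ℝ, E) j z)‖ ≤ ν * r

/-- **M1c.** The same for the map itself, with an error proportional to the distance. -/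
def S_M1c : Prop := ∀ (E : Type u) [NormedAddCommGroup E] [NormedSpace ℝ E]
  [FiniteDimensional ℝ E] (M : Type v) [MetricSpace M] [CompactSpace M] [ChartedSpace E M]
  [IsManifold 𝓘(ℝ, E) 1 M] (g : M → M), ContMDiff 𝓘(ℝ, E) 𝓘(ℝ, E) 1 g →
  ∀ (t : Finset M) (ρ : M → ℝ) (R ρ₀ : ℝ), GCh E t ρ R ρ₀ → ∀ ν > 0, ∃ r > 0,
    ∀ j z j', Gw t ρ j z → Gw t ρ j' (g z) → ∀ y ∈ closedBall (extChartAt 𝓘(ℝ, E) j z) r,
      y ∈ (extChartAt 𝓘(ℝ, E) j).target ∧
      g ((extChartAt 𝓘(ℝ, E) j).symm y) ∈ (extChartAt 𝓘(ℝ, E) j').source ∧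
      ‖rep g j j' y - extChartAt 𝓘(ℝ, E) j' (g z) -
        fderiv ℝ (rep g j j') (extChartAt 𝓘(ℝ, E) j z) (y - extChartAt 𝓘(ℝ, E) j z)‖ ≤
      ν * ‖y - extChartAt 𝓘(ℝ, E) j z‖

/-- **CONE.** Points whose backward (forward) orbits are close lie in thin unstable (stable) cones
of each other.
Proof (backward closeness; the other statement is this one for `f.symm`, whose projections are
`1 - π`, or the same argument). Choose good charts `j i` for the points `f^(-i) q`, `v i` the difference of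
`f^(-i) p, f^(-i) q` in the chart (`c1`, `c2`), so that `v (i-1) = A (v i) + e`, `‖e‖ ≤ ν ‖v i‖` by `S_M1c`, where
`A` is the derivative of `rep f` at `f^(-i) q`, and the cocycle is hyperbolic by `S_M1a` with constants
`K, l` (for each `n` apply it to the orbit segment from `f^(-n) q` to `q`). Let `V = sup ‖v i‖ < ∞`.
Contracted components: `‖P (v i)‖ ≤ K l^n K V + K² ν V / (1 - l)` for all `n`, so `≤ K₁ ν V`. Expanded
components: `‖(1 - P) (v i)‖ ≤ K ‖(1 - P) (v 0)‖ + K₁ ν V`. So `V ≤ K (1 + K) ‖v 0‖ + 2 K₁ ν V`, thus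
`V ≤ K₂ ‖v 0‖` if `ν` is small, and `‖P (v 0)‖ ≤ K₁ ν K₂ ‖v 0‖ ≤ α ‖v 0‖` if `ν` is small. -/
def S_CONE : Prop := ∀ (E : Type u) [NormedAddCommGroup E] [NormedSpace ℝ E]
  [FiniteDimensional ℝ E] (M : Type v) [MetricSpace M] [CompactSpace M] [ChartedSpace E M]
  [IsManifold 𝓘(ℝ, E) 1 M] (F : Type w) [NormedAddCommGroup F] [NormedSpace ℝ F] (e : M → F),
  ContMDiff 𝓘(ℝ, E) 𝓘(ℝ, F) 1 e → (∀ x, Function.Injective (dm E e x)) →
  ∀ (f : M ≃ₜ M) (Es Eu : M → Submodule ℝ E) (C a b Ls Lu : ℝ),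
  EAnosov e f Es Eu C a b Ls Lu → ∀ π : M → E →L[ℝ] E, IsPi π Es Eu →
  ∀ (t : Finset M) (ρ : M → ℝ) (R ρ₀ : ℝ), GCh E t ρ R ρ₀ → ∀ α > 0, ∃ κ1 > 0, ∀ p q j,
    Gw t ρ j q →
    ((∀ n : ℕ, dist (f.symm^[n] p) (f.symm^[n] q) ≤ κ1) →
      ‖Pj π j (extChartAt 𝓘(ℝ, E) j q) (extChartAt 𝓘(ℝ, E) j p - extChartAt 𝓘(ℝ, E) j q)‖ ≤
        α * ‖extChartAt 𝓘(ℝ, E) j p - extChartAt 𝓘(ℝ, E) j q‖) ∧
    ((∀ n : ℕ, dist (f^[n] p) (f^[n] q) ≤ κ1) →
      ‖(extChartAt 𝓘(ℝ, E) j p - extChartAt 𝓘(ℝ, E) j q) -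
        Pj π j (extChartAt 𝓘(ℝ, E) j q) (extChartAt 𝓘(ℝ, E) j p - extChartAt 𝓘(ℝ, E) j q)‖ ≤
        α * ‖extChartAt 𝓘(ℝ, E) j p - extChartAt 𝓘(ℝ, E) j q‖)

/-- **C2.** Two orbit segments (of any length) which are close, start in the unstable cone and end in
the stable cone of each other coincide.
Proof. Differences `v i` in good charts as for `S_CONE`, `V = max ‖v i‖` over `0 ≤ i ≤ N`, `‖e i‖ ≤ ν V`. By `S_G2`
(all `t i = 0`, `c i` the coordinates of the orbit of `q`, `x i` those of `p`, `Fx i = x (i+1)`):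
`V ≤ Cs (ν V + α V)` up to the constant `1`, so `V = 0` if `Cs (ν + α) < 1`. -/
def S_C2 : Prop := ∀ (E : Type u) [NormedAddCommGroup E] [NormedSpace ℝ E]
  [FiniteDimensional ℝ E] (M : Type v) [MetricSpace M] [CompactSpace M] [ChartedSpace E M]
  [IsManifold 𝓘(ℝ, E) 1 M] (F : Type w) [NormedAddCommGroup F] [NormedSpace ℝ F] (e : M → F),
  ContMDiff 𝓘(ℝ, E) 𝓘(ℝ, F) 1 e → (∀ x, Function.Injective (dm E e x)) →
  ∀ (f : M ≃ₜ M) (Es Eu : M → Submodule ℝ E) (C a b Ls Lu : ℝ),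
  EAnosov e f Es Eu C a b Ls Lu → ∀ π : M → E →L[ℝ] E, IsPi π Es Eu →
  ∀ (t : Finset M) (ρ : M → ℝ) (R ρ₀ : ℝ), GCh E t ρ R ρ₀ → ∃ κ1 > 0, ∃ α > 0, ∀ (N : ℕ) (p q j j'),
    Gw t ρ j q → Gw t ρ j' (f^[N] q) → (∀ n ≤ N, dist (f^[n] p) (f^[n] q) ≤ κ1) →
    ‖Pj π j (extChartAt 𝓘(ℝ, E) j q) (extChartAt 𝓘(ℝ, E) j p - extChartAt 𝓘(ℝ, E) j q)‖ ≤
      α * ‖extChartAt 𝓘(ℝ, E) j p - extChartAt 𝓘(ℝ, E) j q‖ →
    ‖(extChartAt 𝓘(ℝ, E) j' (f^[N] p) - extChartAt 𝓘(ℝ, E) j' (f^[N] q)) -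
      Pj π j' (extChartAt 𝓘(ℝ, E) j' (f^[N] q))
        (extChartAt 𝓘(ℝ, E) j' (f^[N] p) - extChartAt 𝓘(ℝ, E) j' (f^[N] q))‖ ≤
      α * ‖extChartAt 𝓘(ℝ, E) j' (f^[N] p) - extChartAt 𝓘(ℝ, E) j' (f^[N] q)‖ → p = q

end Pool.Agent.H963.CJ
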