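import Pool.Agent.H963.CJ.MDef

/-!
# Injectivity of the semiconjugacy: boundary problems on the manifold
-/

set_option autoImplicit false
set_option linter.unusedSectionVars false

open Set Filter Topology Metric
open scoped Manifold ContDiff

namespace Pool.Agent.H963.CJ

open Pool.Agent.H721R2 Pool.Agent.H789R2.AN Pool.Agent.TH289 Pool.Agent.H244.Dyn
  Pool.Agent.H244.Loc

universe u v w

/-- the chart at `j` -/
noncomputable abbrev ps (E : Type*) [NormedAddCommGroup E] [NormedSpace ℝ E] {M : Type*}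
    [TopologicalSpace M] [ChartedSpace E M] (j : M) : PartialEquiv M E := extChartAt 𝓘(ℝ, E) j

section defs

variable (E : Type u) [NormedAddCommGroup E] [NormedSpace ℝ E] [FiniteDimensional ℝ E]
  {M : Type v} [MetricSpace M] [CompactSpace M] [ChartedSpace E M] [IsManifold 𝓘(ℝ, E) 1 M]
  {F : Type w} [NormedAddCommGroup F] [NormedSpace ℝ F]

/-- The context for `f`: an Anosov diffeomorphism in charts, with a map `k` like in `KK`. -/
structure FCtx (e : M → F) (f : M ≃ₜ M) (Es Eu : M → Submodule ℝ E) (π : M → E →L[ℝ] E)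
    (t : Finset M) (ρ : M → ℝ) (R ρ₀ : ℝ) (k : M → M) (κf κ0 : ℝ) : Prop where
  he : ContMDiff 𝓘(ℝ, E) 𝓘(ℝ, F) 1 e
  hinj : ∀ x, Function.Injective (dm E e x)
  hf : ∃ C a b Ls Lu : ℝ, EAnosov e f Es Eu C a b Ls Lu
  hπ : IsPi π Es Eu
  ch : GCh E t ρ R ρ₀
  taf : TA f κf
  kk : KK f k κ0

/-- Uniqueness of the solution of the boundary problem of length `N` on the orbit of `a` (unstable
end disc at `a`, stable end disc at `f^N a`, radius `η1`) which stays `κ0`-close to the orbit. -/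
def Uq (f : M ≃ₜ M) (π : M → E →L[ℝ] E) (t : Finset M) (ρ : M → ℝ) (κ0 η1 : ℝ) (N : ℕ) (a : M) :
    Prop :=
  ∀ j j' p, Gw t ρ j a → Gw t ρ j' (f^[N] a) → p ∈ (ps E j).source →
    f^[N] p ∈ (ps E j').source → dist (ps E j p) (ps E j a) ≤ η1 →
    dist (ps E j' (f^[N] p)) (ps E j' (f^[N] a)) ≤ η1 →
    Pj π j (ps E j a) (ps E j p - ps E j a) = 0 →
    Pj π j' (ps E j' (f^[N] a)) (ps E j' (f^[N] p) - ps E j' (f^[N] a)) =
      ps E j' (f^[N] p) - ps E j' (f^[N] a) →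
    (∀ n ≤ N, dist (f^[n] p) (f^[n] a) ≤ κ0) → p = a

/-- The full context: `f` Anosov, `k` a semiconjugacy to `g` close to the identity, and the
linearisation of `g` along its orbits; `r` is the radius of the tubes around the orbits of `g`. -/
structure Ctx (e : M → F) (f g : M ≃ₜ M) (k : M → M) (Es Eu : M → Submodule ℝ E)
    (π π' : M → E →L[ℝ] E) (t : Finset M) (ρ : M → ℝ)
    (R ρ₀ κf κ0 K l Cs r ε1 ε2 η2 : ℝ) : Prop where
  fc : FCtx E e f Es Eu π t ρ R ρ₀ k κf κ0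
  kf : ∀ x, k (f x) = g (k x)
  gc : ∀ z j : ℕ → M, (∀ i, z (i + 1) = g (z i)) → (∀ i, Gw t ρ (j i) (z i)) →
    GC (fun i => fderiv ℝ (rep g (j i) (j (i + 1))) (ps E (j i) (z i)))
      (fun i => Pj π' (j i) (ps E (j i) (z i))) K l
  pc : ∀ j ∈ t, ∀ z, dist z j ≤ 2 * ρ j → ContinuousOn (Pj π' j) (closedBall (ps E j z) R)
  g2 : G2P.{u} K l Cs
  Cs1 : 1 ≤ Cs
  r_pos : 0 < r
  rR : r ≤ R
  e1 : 0 ≤ ε1
  e2 : 0 ≤ ε2
  small : Cs * (ε1 + ε2) < r / 2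
  η2_pos : 0 < η2
  kgd : ∀ x j, Gd t ρ j (k x) → Gw t ρ j x
  kr : ∀ x j, Gd t ρ j (k x) → dist (ps E j x) (ps E j (k x)) < r / 2
  kb : ∀ x j, Gd t ρ j (k x) → ∀ y ∈ closedBall (ps E j x) η2, dist y (ps E j (k x)) < r / 2 ∧
    ‖Pj π' j (ps E j (k x)) (y - ps E j (k x))‖ ≤ ε2 ∧
    ‖(y - ps E j (k x)) - Pj π' j (ps E j (k x)) (y - ps E j (k x))‖ ≤ ε2
  step : ∀ z j j', Gd t ρ j z → Gd t ρ j' (g z) → ∀ y ∈ closedBall (ps E j z) r,
    y ∈ (ps E j).target ∧ f ((ps E j).symm y) ∈ (ps E j').source ∧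
    dist (rep f j j' y) (ps E j' (g z)) ≤ R ∧
    ‖rep f j j' y - ps E j' (g z) - fderiv ℝ (rep g j j') (ps E j z) (y - ps E j z)‖ ≤ ε1
  tube : ∀ z j, Gd t ρ j z → ∀ y ∈ closedBall (ps E j z) r, dist ((ps E j).symm y) z ≤ κ0 / 2
  sepg : ∀ p z, (∀ n : ℤ, dist (ob f p n) (ob g z n) ≤ κ0) → k p = z

/-- the chain of `f` in the charts `j i` -/
noncomputable def Fx (f : M → M) (j : ℕ → M) (i : ℕ) : E → E := rep f (j i) (j (i + 1))

/-- the centres of the tube around the `g`-orbit of `k x` -/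
noncomputable def cx (f k : M → M) (x : M) (j : ℕ → M) (i : ℕ) : E := ps E (j i) (k (f^[i] x))

/-- the domains for the chain `0, ..., N` -/
noncomputable def Dx (f k : M → M) (x : M) (j : ℕ → M) (r η1 : ℝ) (N i : ℕ) : Set E :=
  if i = 0 then ball (ps E (j 0) x) η1 else
    if i = N then ball (ps E (j N) (f^[N] x)) η1 else ball (cx E f k x j i) (r / 2)

/-- the domains for a left part -/
noncomputable def Dl (f k : M → M) (x : M) (j : ℕ → M) (r η1 : ℝ) (i : ℕ) : Set E :=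
  if i = 0 then ball (ps E (j 0) x) η1 else ball (cx E f k x j i) (r / 2)

/-- the domains for a right part of length `T` -/
noncomputable def Dr (f k : M → M) (x : M) (j : ℕ → M) (r η1 : ℝ) (T i : ℕ) : Set E :=
  if i = T then ball (ps E (j T) (f^[T] x)) η1 else ball (cx E f k x j i) (r / 2)

/-- the degree of the full boundary problem on the orbit segment `x, ..., f^N x` -/
noncomputable def FD {s w : ℕ} (f k : M → M) (x : M) (j : ℕ → M) (r η1 : ℝ) (N : ℕ)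
    (B : E →L[ℝ] (Fin s → ℝ)) (C : E →L[ℝ] (Fin w → ℝ)) : ℕ :=
  adeg (Bvp N (Fx E f j) (fun y => B (y - ps E (j 0) x)) (fun y => C (y - ps E (j N) (f^[N] x))))
    (Box N (Dx E f k x j r η1 N))

/-- the degree of the left boundary problem on the orbit segment `x, ..., f^T x` -/
noncomputable def LD {s w : ℕ} (f k : M → M) (x : M) (j : ℕ → M) (r η1 : ℝ) (T : ℕ)
    (B : E →L[ℝ] (Fin s → ℝ)) (βu : E →L[ℝ] (Fin w → ℝ)) : ℕ :=
  adeg (Bvp T (Fx E f j) (fun y => B (y - ps E (j 0) x))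
    (fun y => βu (Fx E f j T y - cx E f k x j (T + 1)))) (Box T (Dl E f k x j r η1))

/-- the degree of the right boundary problem on the orbit segment `x, ..., f^T x` -/
noncomputable def RD {s w : ℕ} (f k : M → M) (x : M) (j : ℕ → M) (r η1 : ℝ) (T : ℕ)
    (βs : E →L[ℝ] (Fin s → ℝ)) (C : E →L[ℝ] (Fin w → ℝ)) : ℕ :=
  adeg (Bvp T (Fx E f j) (fun y => βs (y - cx E f k x j 0))
    (fun y => C (y - ps E (j T) (f^[T] x)))) (Box T (Dr E f k x j r η1 T))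

end defs

/-- **EXIT.** Let the fibre of `a` be a point. No orbit which starts on the sphere of radius `η1`
around `x` in the disc `x + ker B`, where `x` is close to `a` and `ker B` is close to the unstable
space, stays `κ0`-close to the orbit of `x` for `T` steps; the same backwards.
Proof (first statement; the second is the same for `f.symm`). Let `κ1` be the constant of `S_CONE` for
`α = 1/2` and `δ3` that of `S_T3` for `κ1`; choose `η̄` (by `c2` of the charts, `η̄ ≤ R / 2`) such that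
`dist (ψ p) (ψ a) ≤ η̄` implies `dist p a ≤ δ3` (for `p ∈ source`, `p = ψ.symm (ψ p)`). Suppose there are no
`T, δ`: then there are `x_n → a`, `B_n → B₀`, `p_n` with `dist (ψ p_n) (ψ x_n) = η1`, `B_n (ψ p_n - ψ x_n) = 0` and
`dist (f^i p_n) (f^i x_n) ≤ κ0` for `i ≤ n`. By compactness `p_n → p` along a subsequence, `ψ p_n → ψ p`
(`p` in the source, since `ψ p_n` stays in a compact part of the target), so
`dist (ψ p) (ψ a) = η1`, `B₀ (ψ p - ψ a) = 0`, hence `P (ψ p - ψ a) = 0`, and `dist (f^i p) (f^i a) ≤ κ0` for all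
`i`. By `S_T3` they are `≤ κ1`, so by `S_CONE` `‖v‖ = ‖v - P v‖ ≤ ‖v‖ / 2` for `v = ψ p - ψ a`: `v = 0`, but
`‖v‖ = η1 > 0`. -/
def S_EXIT : Prop := ∀ (E : Type u) [NormedAddCommGroup E] [NormedSpace ℝ E]
  [FiniteDimensional ℝ E] (M : Type v) [MetricSpace M] [CompactSpace M] [ChartedSpace E M]
  [IsManifold 𝓘(ℝ, E) 1 M] (F : Type w) [NormedAddCommGroup F] [NormedSpace ℝ F] (e : M → F)
  (f : M ≃ₜ M) (Es Eu : M → Submodule ℝ E) (π : M → E →L[ℝ] E) (t : Finset M) (ρ : M → ℝ)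
  (R ρ₀ : ℝ) (k : M → M) (κf κ0 : ℝ), FCtx E e f Es Eu π t ρ R ρ₀ k κf κ0 →
  ∃ η' > 0, ∀ η1, 0 < η1 → η1 ≤ η' → ∀ a j : M, Sg k a → Gw t ρ j a →
    (∀ (s : ℕ) (B₀ : E →L[ℝ] (Fin s → ℝ)), (∀ v, B₀ v = 0 → Pj π j (ps E j a) v = 0) →
      ∃ T : ℕ, ∃ δ > 0, ∀ x, dist x a < δ → ∀ B : E →L[ℝ] (Fin s → ℝ), ‖B - B₀‖ < δ →
        ∀ p ∈ (ps E j).source, dist (ps E j p) (ps E j x) = η1 → B (ps E j p - ps E j x) = 0 →
        ∃ n ≤ T, κ0 < dist (f^[n] p) (f^[n] x)) ∧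
    (∀ (s : ℕ) (B₀ : E →L[ℝ] (Fin s → ℝ)), (∀ v, B₀ v = 0 → Pj π j (ps E j a) v = v) →
      ∃ T : ℕ, ∃ δ > 0, ∀ x, dist x a < δ → ∀ B : E →L[ℝ] (Fin s → ℝ), ‖B - B₀‖ < δ →
        ∀ p ∈ (ps E j).source, dist (ps E j p) (ps E j x) = η1 → B (ps E j p - ps E j x) = 0 →
        ∃ n ≤ T, κ0 < dist (f.symm^[n] p) (f.symm^[n] x))

/-- **EXITN.** The same with a uniform time at all late points of an orbit.
Proof: as `S_EXIT`, by contradiction: points `f^(N_i) a`, `N_i → ∞`, `p_i` with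
`dist (f^(-n) p_i) (f^(-n) f^(N_i) a) ≤ κ0` for `n ≤ i`; pass to the limit (the chart `j` may be taken
constant along a subsequence): `f^(N_i) a → a''`, which is a limit point of an orbit, so `Sg k a''` by
`S_T2`; `p_i → p''`; `Pj π j` is continuous (`Pj_cont`), so `P v = v`, `‖v‖ = η1` for `v = ψ p'' - ψ a''`, the
backward orbits are `κ0`-close, `κ1`-close by `S_T3`, and `‖P v‖ ≤ ‖v‖ / 2` by `S_CONE`, a contradiction. -/
def S_EXITN : Prop := ∀ (E : Type u) [NormedAddCommGroup E] [NormedSpace ℝ E]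
  [FiniteDimensional ℝ E] (M : Type v) [MetricSpace M] [CompactSpace M] [ChartedSpace E M]
  [IsManifold 𝓘(ℝ, E) 1 M] (F : Type w) [NormedAddCommGroup F] [NormedSpace ℝ F] (e : M → F)
  (f : M ≃ₜ M) (Es Eu : M → Submodule ℝ E) (π : M → E →L[ℝ] E) (t : Finset M) (ρ : M → ℝ)
  (R ρ₀ : ℝ) (k : M → M) (κf κ0 : ℝ), FCtx E e f Es Eu π t ρ R ρ₀ k κf κ0 →
  ∃ η' > 0, ∀ η1, 0 < η1 → η1 ≤ η' → ∀ a : M,
    (∃ n1 : ℕ, ∀ N ≥ n1, ∀ j p, Gw t ρ j (f^[N] a) → p ∈ (ps E j).source →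
      dist (ps E j p) (ps E j (f^[N] a)) = η1 →
      Pj π j (ps E j (f^[N] a)) (ps E j p - ps E j (f^[N] a)) = ps E j p - ps E j (f^[N] a) →
      ∃ n ≤ n1, κ0 < dist (f.symm^[n] p) (f.symm^[n] (f^[N] a))) ∧
    (∃ n1 : ℕ, ∀ N ≥ n1, ∀ j p, Gw t ρ j (f.symm^[N] a) → p ∈ (ps E j).source →
      dist (ps E j p) (ps E j (f.symm^[N] a)) = η1 →
      Pj π j (ps E j (f.symm^[N] a)) (ps E j p - ps E j (f.symm^[N] a)) = 0 →
      ∃ n ≤ n1, κ0 < dist (f^[n] p) (f^[n] (f.symm^[N] a)))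

/-- **UNIQ.** If the fibre of `a` is a point, the long boundary problems starting at `a`, and those
ending at `a`, have only the trivial solution close to the orbit.
Proof (starting at `a`). Let `κ1, α` be the constants of `S_C2` (decrease `κ1 ≤ κ0`), `κ1'` that of `S_CONE` for
`α/2`-like constants, `δ3` that of `S_T3`, and `η'` such that `dist (ψ p) (ψ a) ≤ η'` implies `dist p a ≤ δ3`.
Suppose there are `N_i → ∞` and solutions `p_i ≠ a`. If `dist (f^n p_i) (f^n a) ≤ κ1` for all `n ≤ N_i`, then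
`S_C2` gives `p_i = a` (`P v = 0` at the start, `v - P v = 0` at the end). So there is `n_i ≤ N_i` with
`dist (f^(n_i) p_i) (f^(n_i) a) > κ1`. (1) If `n_i` is bounded (along a subsequence), a limit `p` of the `p_i`
satisfies `p ≠ a`, `dist (ψ p) (ψ a) ≤ η1`, `P (ψ p - ψ a) = 0` and its forward orbit is `κ0`-close to that of
`a`; by `S_T3`, `S_CONE` `p = a`: contradiction. (2) If `N_i - n_i` is bounded: the limit of
`(f^(N_i) p_i, f^(N_i) a)` is `(p'', a'')`, `Sg k a''` by `S_T2`, `P v = v`, backward orbits `κ0`-close, so `p'' = a''`,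
contradiction. (3) If both are unbounded: the limit `(q, a')` of `(f^(n_i) p_i, f^(n_i) a)` satisfies
`dist q a' ≥ κ1`, all iterates (positive and negative) are `κ0`-close, so `k q = k a'` by `KK.sep` and
`q = a'` as `Sg k a'` (`S_T2`), a contradiction.
Ending at `a`: the same with the roles of the two ends exchanged. -/
def S_UNIQ : Prop := ∀ (E : Type u) [NormedAddCommGroup E] [NormedSpace ℝ E]
  [FiniteDimensional ℝ E] (M : Type v) [MetricSpace M] [CompactSpace M] [ChartedSpace E M]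
  [IsManifold 𝓘(ℝ, E) 1 M] (F : Type w) [NormedAddCommGroup F] [NormedSpace ℝ F] (e : M → F)
  (f : M ≃ₜ M) (Es Eu : M → Submodule ℝ E) (π : M → E →L[ℝ] E) (t : Finset M) (ρ : M → ℝ)
  (R ρ₀ : ℝ) (k : M → M) (κf κ0 : ℝ), FCtx E e f Es Eu π t ρ R ρ₀ k κf κ0 →
  ∃ η' > 0, ∀ η1, 0 < η1 → η1 ≤ η' → ∀ a : M, Sg k a →
    (∃ n0 : ℕ, ∀ N ≥ n0, Uq E f π t ρ κ0 η1 N a) ∧
    (∃ n0 : ℕ, ∀ N ≥ n0, Uq E f π t ρ κ0 η1 N (f.symm^[N] a))

/-- **HYP.** The hypotheses of `S_SIGN` about the linearisation hold for the chain of `f`, if the end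
points are close to given points `a, b` and the boundary operators are close to operators adapted to
the splitting at `a`, `b`.
Proof: transfer everything to tangent vectors as in the proof of
`Pool.Agent.H244.Loc.exists_chain` (`exists_D`, `Pj_fix`, `Pj_ker`, `rep_fderiv`): `ws i = D(ψ) v i`,
`v i ∈ Es (p i)`, `v (i+1) = τ Df (v i)` and similarly for `wu`, so (`EAnosov.hS`, `hU'`)
`|ws N| ≤ K |ws 0|`, `|wu 0| ≤ K |wu N|` with a uniform `K` (as in `S_M1a`; or use `S_M1a` for `f`). For `δ` small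
(continuity of `Pj π ja` at `ψ a`, `‖B v‖ ≥ m ‖v‖` for `v` in the range of `P` near `a`),
`B (ws 0 + τ wu 0) = 0` implies `‖ws 0‖ ≤ θ ‖wu 0‖`, because `B₀ wu 0` is small relative to `‖wu 0‖`; likewise
`‖wu N‖ ≤ θ ‖ws N‖`; so `‖ws 0‖ ≤ θ K ‖wu N‖ ≤ θ² K ‖ws N‖ ≤ θ² K² ‖ws 0‖`, which gives `ws 0 = 0` if `θ K < 1`, then
all `ws i = 0`, `wu N = 0` and all `wu i = 0`. -/
def S_HYP : Prop := ∀ (E : Type u) [NormedAddCommGroup E] [NormedSpace ℝ E]
  [FiniteDimensional ℝ E] (M : Type v) [MetricSpace M] [CompactSpace M] [ChartedSpace E M]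
  [IsManifold 𝓘(ℝ, E) 1 M] (F : Type w) [NormedAddCommGroup F] [NormedSpace ℝ F] (e : M → F),
  ContMDiff 𝓘(ℝ, E) 𝓘(ℝ, F) 1 e → (∀ x, Function.Injective (dm E e x)) →
  ∀ (f : M ≃ₜ M) (Es Eu : M → Submodule ℝ E) (C₁ a₁ b₁ Ls Lu : ℝ),
  EAnosov e f Es Eu C₁ a₁ b₁ Ls Lu → ∀ π : M → E →L[ℝ] E, IsPi π Es Eu →
  ∀ (t : Finset M) (ρ : M → ℝ) (R ρ₀ : ℝ), GCh E t ρ R ρ₀ →
  ∀ (s w : ℕ) (a b ja jb : M) (B₀ : E →L[ℝ] (Fin s → ℝ)) (C₀ : E →L[ℝ] (Fin w → ℝ)),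
  Gw t ρ ja a → Gw t ρ jb b → (∀ v, B₀ v = 0 ↔ Pj π ja (ps E ja a) v = 0) →
  (∀ v, C₀ v = 0 ↔ Pj π jb (ps E jb b) v = v) →
  ∃ δ > 0, ∀ (B : E →L[ℝ] (Fin s → ℝ)) (C : E →L[ℝ] (Fin w → ℝ)), ‖B - B₀‖ < δ → ‖C - C₀‖ < δ →
    (∀ y, dist y (ps E ja a) < δ → ∀ v, Pj π ja y v = v → B v = 0 → v = 0) ∧
    (∀ y, dist y (ps E jb b) < δ → ∀ v, Pj π jb y v = 0 → C v = 0 → v = 0) ∧
    ∀ (N : ℕ) (j : ℕ → M) (y : ℕ → E), (∀ i ≤ N, j i ∈ t) → j 0 = ja → j N = jb →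
      (∀ i ≤ N, ∃ z, Gw t ρ (j i) z ∧ y i ∈ closedBall (ps E (j i) z) R) →
      (∀ i < N, f ((ps E (j i)).symm (y i)) ∈ (ps E (j (i + 1))).source) →
      (∀ i < N, y (i + 1) = rep f (j i) (j (i + 1)) (y i)) →
      dist (y 0) (ps E ja a) < δ → dist (y N) (ps E jb b) < δ →
      ∀ τ ∈ Icc (0 : ℝ) 1, ∀ ws wu : ℕ → E, (∀ i ≤ N, Pj π (j i) (y i) (ws i) = ws i) →
        (∀ i ≤ N, Pj π (j i) (y i) (wu i) = 0) →
        (∀ i < N, ws (i + 1) = τ • fderiv ℝ (rep f (j i) (j (i + 1))) (y i) (ws i)) →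
        (∀ i < N, fderiv ℝ (rep f (j i) (j (i + 1))) (y i) (wu i) = τ • wu (i + 1)) →
        B (ws 0 + τ • wu 0) = 0 → C (τ • ws N + wu N) = 0 → ∀ i ≤ N, ws i = 0 ∧ wu i = 0

end Pool.Agent.H963.CJ
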