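import Pool.Agent.H963.CJ.MDef2

/-!
# Injectivity of the semiconjugacy: statements about the degrees of the boundary problems
-/

set_option autoImplicit false
set_option linter.unusedSectionVars false

open Set Filter Topology Metric
open scoped Manifold ContDiff

namespace Pool.Agent.H963.CJ

open Pool.Agent.H721R2 Pool.Agent.H789R2.AN Pool.Agent.TH289 Pool.Agent.H244.Dyn
  Pool.Agent.H244.Loc

universe u v w

/-- **ADM.** (Abstract.) A boundary problem is admissible if its solutions in the closed box do not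
start or end on the frontier.  Proof: a zero in the closure of the box is an orbit segment `y`
(extend to `ℕ → E`), so `‖y i - c i‖ ≤ Cs (ε1 + ε2) < r / 2` by `G2P` with all `t i = 0`; thus `y i ∈ D i` for
`0 < i < N`.  (Closure of the box = box of the closures; continuity of `Bvp` from `CH.cont`, `CH.sub`:
`closure (D i) ⊆ closedBall (c i) r`.) -/
def S_ADM : Prop := ∀ (K l Cs : ℝ), G2P.{u} K l Cs → ∀ (E : Type u) [NormedAddCommGroup E]
  [NormedSpace ℝ E] [FiniteDimensional ℝ E] (A P : ℕ → E →L[ℝ] E), GC A P K l →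
  ∀ (N s w : ℕ) (c : ℕ → E) (F : ℕ → E → E) (D : ℕ → Set E) (r ε1 ε2 : ℝ)
    (bm : E → (Fin s → ℝ)) (bp : E → (Fin w → ℝ)),
  CH A P Cs N c F D r ε1 ε2 →
  ContinuousOn bm (closure (D 0)) → ContinuousOn bp (closure (D N)) →
  (∀ y : ℕ → E, (∀ i ≤ N, y i ∈ closure (D i)) → (∀ i < N, y (i + 1) = F i (y i)) →
    bm (y 0) = 0 → bp (y N) = 0 → y 0 ∈ D 0 ∧ y N ∈ D N) →
  Adm (Bvp N F bm bp) (Box N D)

/-- **CHX.** The chain of `f` along an orbit, in good charts for the orbit of `k x`, satisfies the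
abstract hypotheses.
Proof: `Ctx.gc` for `z i = k (f^i x)` (an orbit of `g` by `Ctx.kf`; `Gd` implies `Gw`), and the fields of `CH`
are: `sub`, `d0`, `dN` from `Ctx.kb` (closure of the ball of radius `η1 ≤ η2`), `cont` and `lin` from `Ctx.step`,
`small` etc. -/
def S_CHX : Prop := ∀ (E : Type u) [NormedAddCommGroup E] [NormedSpace ℝ E]
  [FiniteDimensional ℝ E] (M : Type v) [MetricSpace M] [CompactSpace M] [ChartedSpace E M]
  [IsManifold 𝓘(ℝ, E) 1 M] (F : Type w) [NormedAddCommGroup F] [NormedSpace ℝ F] (e : M → F)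
  (f g : M ≃ₜ M) (k : M → M) (Es Eu : M → Submodule ℝ E) (π π' : M → E →L[ℝ] E) (t : Finset M)
  (ρ : M → ℝ) (R ρ₀ κf κ0 K l Cs r ε1 ε2 η2 : ℝ),
  Ctx E e f g k Es Eu π π' t ρ R ρ₀ κf κ0 K l Cs r ε1 ε2 η2 →
  ∀ (x : M) (j : ℕ → M), (∀ i, Gd t ρ (j i) (k (f^[i] x))) →
    GC (fun i => fderiv ℝ (rep g (j i) (j (i + 1))) (cx E f k x j i))
      (fun i => Pj π' (j i) (cx E f k x j i)) K l ∧
    ∀ η1, 0 < η1 → η1 ≤ η2 → ∀ N, 0 < N →
      CH (fun i => fderiv ℝ (rep g (j i) (j (i + 1))) (cx E f k x j i))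
        (fun i => Pj π' (j i) (cx E f k x j i)) Cs N (cx E f k x j) (Fx E f j)
        (Dx E f k x j r η1 N) r ε1 ε2

/-- **FULL.** The full boundary problem with a unique solution has degree one.
Proof: `S_A5`. The orbit `y i = ψ (j i) (f^i a)` is a zero in the box (`Ctx.kr`; for `i = 0, N` it is the
centre). A zero in the closure of the box gives (as in `S_ADM`; or directly) points
`p = (ψ (j 0)).symm (y 0)` with `f^i p = (ψ (j i)).symm (y i)` (by induction, `Ctx.step`), which are `κ0/2`-close to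
`k (f^i a)` (`Ctx.tube`; for `i = 0, N` the closed ball of radius `η1` is inside the tube by `Ctx.kb`), as is
`f^i a` itself, so `p = a` by `Uq` and `y` is the orbit. The derivative of `Bvp` at the orbit is given by
`S_DER` (`rep_contDiffAt`); it is injective: a vector `v` in the kernel satisfies `v (i+1) = D v i`,
`B (v 0) = 0`, `C (v N) = 0`; let `ws i = P v i`, `wu i = v i - P v i` (`Pj_inv`, `Pj_proj`) and apply `S_HYP` with
`τ = 1`, `a`, `b = f^N a`, `B₀ = B`, `C₀ = C`; and the dimensions agree: `s = rank P` at `a`,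
`w = finrank E - rank P` at `f^N a`, and these ranks are equal (`Pj_inv`, `rep_inj` along the orbit). -/
def S_FULL : Prop := ∀ (E : Type u) [NormedAddCommGroup E] [NormedSpace ℝ E]
  [FiniteDimensional ℝ E] (M : Type v) [MetricSpace M] [CompactSpace M] [ChartedSpace E M]
  [IsManifold 𝓘(ℝ, E) 1 M] (F : Type w) [NormedAddCommGroup F] [NormedSpace ℝ F] (e : M → F)
  (f g : M ≃ₜ M) (k : M → M) (Es Eu : M → Submodule ℝ E) (π π' : M → E →L[ℝ] E) (t : Finset M)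
  (ρ : M → ℝ) (R ρ₀ κf κ0 K l Cs r ε1 ε2 η2 : ℝ),
  Ctx E e f g k Es Eu π π' t ρ R ρ₀ κf κ0 K l Cs r ε1 ε2 η2 →
  ∀ η1, 0 < η1 → η1 ≤ η2 → ∀ (a : M) (N : ℕ), 0 < N → Uq E f π t ρ κ0 η1 N a →
  ∀ j : ℕ → M, (∀ i, Gd t ρ (j i) (k (f^[i] a))) →
  ∀ (s w : ℕ) (B : E →L[ℝ] (Fin s → ℝ)) (C : E →L[ℝ] (Fin w → ℝ)),
    (∀ v, B v = 0 ↔ Pj π (j 0) (ps E (j 0) a) v = 0) → Function.Surjective B →
    (∀ v, C v = 0 ↔ Pj π (j N) (ps E (j N) (f^[N] a)) v = v) → Function.Surjective C →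
    FD E f k a j r η1 N B C = 1

/-- **LA.** The left boundary problem at a point `a` whose fibre is a point has degree one.
Proof. Take `m'` larger than the constants `n1` of `S_EXITN` and `n0` of `S_UNIQ` for `a`, `N = T + 1 + m'`,
an operator `C : E → ℝ^w` onto, with kernel the range of `P` at `f^N a`, and `βs` onto with kernel
`ker P'` at the centre `T + 1`. By `S_FULL` `FD = 1`; by `S_CUT1` (with `S_CHX`, `m = T`)
`FD = LD * (right factor)` (the box of the left factor is the same as that with `Dl`), so `LD = 1`. The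
hypotheses of `S_CUT1` on the ends: an orbit segment `y` of the left part with `B (y 0 - ψ a) = 0`, not
starting in the open ball, gives a point `p = (ψ (j 0)).symm (y 0)` with `dist (ψ p) (ψ a) = η1`,
`P (ψ p - ψ a) = 0` and `dist (f^n p) (f^n a) ≤ κ0` for `n ≤ T` (`Ctx.step`, `Ctx.tube`, `Ctx.kr`), contradicting
the exit hypothesis; the right part similarly contradicts `S_EXITN`
(`f.symm^n` of the end point is the `(m' - n)`-th point). -/
def S_LA : Prop := ∀ (E : Type u) [NormedAddCommGroup E] [NormedSpace ℝ E]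
  [FiniteDimensional ℝ E] (M : Type v) [MetricSpace M] [CompactSpace M] [ChartedSpace E M]
  [IsManifold 𝓘(ℝ, E) 1 M] (F : Type w) [NormedAddCommGroup F] [NormedSpace ℝ F] (e : M → F)
  (f g : M ≃ₜ M) (k : M → M) (Es Eu : M → Submodule ℝ E) (π π' : M → E →L[ℝ] E) (t : Finset M)
  (ρ : M → ℝ) (R ρ₀ κf κ0 K l Cs r ε1 ε2 η2 : ℝ),
  Ctx E e f g k Es Eu π π' t ρ R ρ₀ κf κ0 K l Cs r ε1 ε2 η2 →
  ∃ η' > 0, ∀ η1, 0 < η1 → η1 ≤ η' → η1 ≤ η2 → ∀ a : M, Sg k a → ∀ (T : ℕ) (j : ℕ → M),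
    (∀ i, Gd t ρ (j i) (k (f^[i] a))) →
    (∀ p ∈ (ps E (j 0)).source, dist (ps E (j 0) p) (ps E (j 0) a) = η1 →
      Pj π (j 0) (ps E (j 0) a) (ps E (j 0) p - ps E (j 0) a) = 0 →
      ∃ n ≤ T, κ0 < dist (f^[n] p) (f^[n] a)) →
    ∀ (s w : ℕ) (B : E →L[ℝ] (Fin s → ℝ)) (βu : E →L[ℝ] (Fin w → ℝ)),
      (∀ v, B v = 0 ↔ Pj π (j 0) (ps E (j 0) a) v = 0) → Function.Surjective B →
      (∀ v, βu v = 0 ↔ Pj π' (j (T + 1)) (cx E f k a j (T + 1)) v = v) → Function.Surjective βu →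
      LD E f k a j r η1 T B βu = 1

/-- **RA.** The right boundary problem ending at a point `b` whose fibre is a point has degree one.
Proof: as `S_LA`, for the full problem on the orbit segment from `a := f^(-N) b` to `b`,
`N = m + 1 + T`, cut between `m` and `m + 1` (so that the right part starts at `x = f^(-T) b`; take charts
`j' (m + 1 + i) = j i`): second parts of `S_EXITN` and `S_UNIQ`. -/
def S_RA : Prop := ∀ (E : Type u) [NormedAddCommGroup E] [NormedSpace ℝ E]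
  [FiniteDimensional ℝ E] (M : Type v) [MetricSpace M] [CompactSpace M] [ChartedSpace E M]
  [IsManifold 𝓘(ℝ, E) 1 M] (F : Type w) [NormedAddCommGroup F] [NormedSpace ℝ F] (e : M → F)
  (f g : M ≃ₜ M) (k : M → M) (Es Eu : M → Submodule ℝ E) (π π' : M → E →L[ℝ] E) (t : Finset M)
  (ρ : M → ℝ) (R ρ₀ κf κ0 K l Cs r ε1 ε2 η2 : ℝ),
  Ctx E e f g k Es Eu π π' t ρ R ρ₀ κf κ0 K l Cs r ε1 ε2 η2 →
  ∃ η' > 0, ∀ η1, 0 < η1 → η1 ≤ η' → η1 ≤ η2 → ∀ b : M, Sg k b → ∀ (T : ℕ) (x : M) (j : ℕ → M),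
    f^[T] x = b → (∀ i, Gd t ρ (j i) (k (f^[i] x))) →
    (∀ p ∈ (ps E (j T)).source, dist (ps E (j T) p) (ps E (j T) b) = η1 →
      Pj π (j T) (ps E (j T) b) (ps E (j T) p - ps E (j T) b) = ps E (j T) p - ps E (j T) b →
      ∃ n ≤ T, κ0 < dist (f.symm^[n] p) (f.symm^[n] b)) →
    ∀ (s w : ℕ) (βs : E →L[ℝ] (Fin s → ℝ)) (C : E →L[ℝ] (Fin w → ℝ)),
      (∀ v, βs v = 0 ↔ Pj π' (j 0) (cx E f k x j 0) v = 0) → Function.Surjective βs →
      (∀ v, C v = 0 ↔ Pj π (j T) (ps E (j T) b) v = v) → Function.Surjective C →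
      RD E f k x j r η1 T βs C = 1

/-- **CMPL.** The left degree does not change if the base point and the boundary operator move a
little (same charts at the places `0, ..., T + 1`).
Proof. By contradiction: sequences `x_n → a`, `B_n → B₀` with operators `βu_n` adapted to `x_n`. The centres
`cx x_n i` converge to `cx a i` and the projections `Pj π' (j (T+1)) (cx x_n (T+1))` converge (`Ctx.pc`), so
`w_n = w` (ranks of close projections agree) and, by `S_A4` (composition with an isomorphism of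
`ℝ^w`), we may assume `βu_n = βu₀ (1 - P'_n)`, which converges to `βu₀`. Let `Ω'` be the open box with
`ball (ψ a) η1` at the place `0` and the balls of radius `ρ' < r/2` around `cx a i` at the places
`1, ..., T`, with `Cs (ε1 + ε2) < ρ'`. By `G2P` (as in `S_CUT1`; the chain continued by `y (T+1) = F T (y T)`,
whose expanded component is zero) zeros of all the problems in the closures of their boxes satisfy
`‖y i - c i‖ ≤ Cs (ε1 + ε2)`; for large `n` the zeros of the `n`-th problem lie in `Ω'` (at the place `0`: a limit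
of zeros `y_n` is a zero `y` of the problem at `a` in the closed box, so `y 0` is in the open ball by the
exit hypothesis — see the proof of `S_LA`), so by `S_A2` `LD` can be computed on the fixed open set
`Ω' ∩ (the box of x_n)`, and finally on `Ω'` (its closure is in the closed tubes; shrink `ρ'` a little);
the two maps on `Ω'` are uniformly close and the limit map has no zeros on the frontier: `S_A1` with
the linear homotopy. -/
def S_CMPL : Prop := ∀ (E : Type u) [NormedAddCommGroup E] [NormedSpace ℝ E]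
  [FiniteDimensional ℝ E] (M : Type v) [MetricSpace M] [CompactSpace M] [ChartedSpace E M]
  [IsManifold 𝓘(ℝ, E) 1 M] (F : Type w) [NormedAddCommGroup F] [NormedSpace ℝ F] (e : M → F)
  (f g : M ≃ₜ M) (k : M → M) (Es Eu : M → Submodule ℝ E) (π π' : M → E →L[ℝ] E) (t : Finset M)
  (ρ : M → ℝ) (R ρ₀ κf κ0 K l Cs r ε1 ε2 η2 : ℝ),
  Ctx E e f g k Es Eu π π' t ρ R ρ₀ κf κ0 K l Cs r ε1 ε2 η2 →
  ∀ η1, 0 < η1 → η1 ≤ η2 → ∀ (a : M) (T : ℕ) (j : ℕ → M), (∀ i, Gd t ρ (j i) (k (f^[i] a))) →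
    ∀ (s w : ℕ) (B₀ : E →L[ℝ] (Fin s → ℝ)) (βu₀ : E →L[ℝ] (Fin w → ℝ)),
    (∀ v, βu₀ v = 0 ↔ Pj π' (j (T + 1)) (cx E f k a j (T + 1)) v = v) → Function.Surjective βu₀ →
    (∀ p ∈ (ps E (j 0)).source, dist (ps E (j 0) p) (ps E (j 0) a) = η1 →
      B₀ (ps E (j 0) p - ps E (j 0) a) = 0 → ∃ n ≤ T, κ0 < dist (f^[n] p) (f^[n] a)) →
    ∃ δ > 0, ∀ x, dist x a < δ → ∀ j' : ℕ → M, (∀ i ≤ T + 1, j' i = j i) →
      (∀ i, Gd t ρ (j' i) (k (f^[i] x))) → ∀ B : E →L[ℝ] (Fin s → ℝ), ‖B - B₀‖ < δ →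
      ∀ (w' : ℕ) (βu : E →L[ℝ] (Fin w' → ℝ)),
        (∀ v, βu v = 0 ↔ Pj π' (j' (T + 1)) (cx E f k x j' (T + 1)) v = v) →
        Function.Surjective βu → LD E f k x j' r η1 T B βu = LD E f k a j r η1 T B₀ βu₀

/-- **CMPR.** The same for the right degree. -/
def S_CMPR : Prop := ∀ (E : Type u) [NormedAddCommGroup E] [NormedSpace ℝ E]
  [FiniteDimensional ℝ E] (M : Type v) [MetricSpace M] [CompactSpace M] [ChartedSpace E M]
  [IsManifold 𝓘(ℝ, E) 1 M] (F : Type w) [NormedAddCommGroup F] [NormedSpace ℝ F] (e : M → F)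
  (f g : M ≃ₜ M) (k : M → M) (Es Eu : M → Submodule ℝ E) (π π' : M → E →L[ℝ] E) (t : Finset M)
  (ρ : M → ℝ) (R ρ₀ κf κ0 K l Cs r ε1 ε2 η2 : ℝ),
  Ctx E e f g k Es Eu π π' t ρ R ρ₀ κf κ0 K l Cs r ε1 ε2 η2 →
  ∀ η1, 0 < η1 → η1 ≤ η2 → ∀ (b : M) (T : ℕ) (xb : M) (j : ℕ → M), f^[T] xb = b →
    (∀ i, Gd t ρ (j i) (k (f^[i] xb))) →
    ∀ (s w : ℕ) (βs₀ : E →L[ℝ] (Fin s → ℝ)) (C₀ : E →L[ℝ] (Fin w → ℝ)),
    (∀ v, βs₀ v = 0 ↔ Pj π' (j 0) (cx E f k xb j 0) v = 0) → Function.Surjective βs₀ →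
    (∀ p ∈ (ps E (j T)).source, dist (ps E (j T) p) (ps E (j T) b) = η1 →
      C₀ (ps E (j T) p - ps E (j T) b) = 0 → ∃ n ≤ T, κ0 < dist (f.symm^[n] p) (f.symm^[n] b)) →
    ∃ δ > 0, ∀ x, dist (f^[T] x) b < δ → ∀ j' : ℕ → M, (∀ i ≤ T, j' i = j i) →
      (∀ i, Gd t ρ (j' i) (k (f^[i] x))) → ∀ C : E →L[ℝ] (Fin w → ℝ), ‖C - C₀‖ < δ →
      ∀ (s' : ℕ) (βs : E →L[ℝ] (Fin s' → ℝ)),
        (∀ v, βs v = 0 ↔ Pj π' (j' 0) (cx E f k x j' 0) v = 0) →
        Function.Surjective βs → RD E f k x j' r η1 T βs C = RD E f k xb j r η1 T βs₀ C₀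

/-- **LEFT.** Left boundary problems near a point `a` whose fibre is a point: no solutions on the
frontier, and degree one.
Proof. `T, δ₁` from `S_EXIT` (with `B₀`). For each of the finitely many `J : Fin (T + 2) → t` with
`J 0 = j0`: if `J i` is good (`Gd`) at `k (f^i a)` for all `i ≤ T + 1`, extend `J` to `j : ℕ → M` good at all
`k (f^i a)` (`GCh.cover`), take some `βu₀` onto with the right kernel; `S_LA` (its exit hypothesis is the
conclusion of `S_EXIT` for `x = a`, `B = B₀`) gives `LD = 1` at `a` and `S_CMPL` a `δ_J`; otherwise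
`ρ (J i) < dist (k (f^i a)) (J i)` for some `i`, and this remains true for `x` near `a`, so no `x` in some
`δ_J`-neighbourhood admits charts `j` extending `J`. Take the minimum of `δ₁` and the `δ_J`. -/
def S_LEFT : Prop := ∀ (E : Type u) [NormedAddCommGroup E] [NormedSpace ℝ E]
  [FiniteDimensional ℝ E] (M : Type v) [MetricSpace M] [CompactSpace M] [ChartedSpace E M]
  [IsManifold 𝓘(ℝ, E) 1 M] (F : Type w) [NormedAddCommGroup F] [NormedSpace ℝ F] (e : M → F)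
  (f g : M ≃ₜ M) (k : M → M) (Es Eu : M → Submodule ℝ E) (π π' : M → E →L[ℝ] E) (t : Finset M)
  (ρ : M → ℝ) (R ρ₀ κf κ0 K l Cs r ε1 ε2 η2 : ℝ),
  Ctx E e f g k Es Eu π π' t ρ R ρ₀ κf κ0 K l Cs r ε1 ε2 η2 →
  ∃ η' > 0, ∀ η1, 0 < η1 → η1 ≤ η' → η1 ≤ η2 → ∀ a j0 : M, Sg k a → Gw t ρ j0 a →
    ∀ (s : ℕ) (B₀ : E →L[ℝ] (Fin s → ℝ)), (∀ v, B₀ v = 0 ↔ Pj π j0 (ps E j0 a) v = 0) →
    Function.Surjective B₀ → ∃ T : ℕ, ∃ δ > 0,
      (∀ x, dist x a < δ → ∀ B : E →L[ℝ] (Fin s → ℝ), ‖B - B₀‖ < δ → ∀ p ∈ (ps E j0).source,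
        dist (ps E j0 p) (ps E j0 x) = η1 → B (ps E j0 p - ps E j0 x) = 0 →
        ∃ n ≤ T, κ0 < dist (f^[n] p) (f^[n] x)) ∧
      (∀ x, dist x a < δ → ∀ j : ℕ → M, j 0 = j0 → (∀ i, Gd t ρ (j i) (k (f^[i] x))) →
        ∀ B : E →L[ℝ] (Fin s → ℝ), ‖B - B₀‖ < δ → ∀ (w : ℕ) (βu : E →L[ℝ] (Fin w → ℝ)),
        (∀ v, βu v = 0 ↔ Pj π' (j (T + 1)) (cx E f k x j (T + 1)) v = v) →
        Function.Surjective βu → LD E f k x j r η1 T B βu = 1)

/-- **RIGHT.** The same for the right boundary problems ending near `b`. -/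
def S_RIGHT : Prop := ∀ (E : Type u) [NormedAddCommGroup E] [NormedSpace ℝ E]
  [FiniteDimensional ℝ E] (M : Type v) [MetricSpace M] [CompactSpace M] [ChartedSpace E M]
  [IsManifold 𝓘(ℝ, E) 1 M] (F : Type w) [NormedAddCommGroup F] [NormedSpace ℝ F] (e : M → F)
  (f g : M ≃ₜ M) (k : M → M) (Es Eu : M → Submodule ℝ E) (π π' : M → E →L[ℝ] E) (t : Finset M)
  (ρ : M → ℝ) (R ρ₀ κf κ0 K l Cs r ε1 ε2 η2 : ℝ),
  Ctx E e f g k Es Eu π π' t ρ R ρ₀ κf κ0 K l Cs r ε1 ε2 η2 →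
  ∃ η' > 0, ∀ η1, 0 < η1 → η1 ≤ η' → η1 ≤ η2 → ∀ b j0 : M, Sg k b → Gw t ρ j0 b →
    ∀ (w : ℕ) (C₀ : E →L[ℝ] (Fin w → ℝ)), (∀ v, C₀ v = 0 ↔ Pj π j0 (ps E j0 b) v = v) →
    Function.Surjective C₀ → ∃ T : ℕ, ∃ δ > 0,
      (∀ x, dist x b < δ → ∀ C : E →L[ℝ] (Fin w → ℝ), ‖C - C₀‖ < δ → ∀ p ∈ (ps E j0).source,
        dist (ps E j0 p) (ps E j0 x) = η1 → C (ps E j0 p - ps E j0 x) = 0 →
        ∃ n ≤ T, κ0 < dist (f.symm^[n] p) (f.symm^[n] x)) ∧
      (∀ x, dist (f^[T] x) b < δ → ∀ j : ℕ → M, j T = j0 → (∀ i, Gd t ρ (j i) (k (f^[i] x))) →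
        ∀ C : E →L[ℝ] (Fin w → ℝ), ‖C - C₀‖ < δ → ∀ (s : ℕ) (βs : E →L[ℝ] (Fin s → ℝ)),
        (∀ v, βs v = 0 ↔ Pj π' (j 0) (cx E f k x j 0) v = 0) →
        Function.Surjective βs → RD E f k x j r η1 T βs C = 1)

/-- **XC.** Two points of a fibre give two solutions of the same sign: the full degree is at least
two.
Proof: `S_A6` for `Bvp` on the box, with `a, b :=` the orbits of `x` and `x'` in the charts (zeros in the
box by `Ctx.kr`, as `k (f^i x') = k (f^i x)`; for `i = 0, N` by hypothesis); the derivatives at all zeros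
are given by `S_DER`, and their signs agree by `S_SIGN`, applied to `F i = Fx E f j i`,
`P i = Pj π (j i)`, `c i = cx i`, the radius `R`, `D i = Dx i`; its hypotheses: `Ctx.step`, `Ctx.rR`, `Ctx.kb`,
`Pj_cont`, `Pj_proj`, `rep_contDiffAt`, `Pj_inv`, `rep_inj`, and `S_HYP` for the last ones (`η1` and `dist x a`
are small, so the ball `Dx 0` is in the ball of radius `δ_HYP` around `ψ a`). -/
def S_XC : Prop := ∀ (E : Type u) [NormedAddCommGroup E] [NormedSpace ℝ E]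
  [FiniteDimensional ℝ E] (M : Type v) [MetricSpace M] [CompactSpace M] [ChartedSpace E M]
  [IsManifold 𝓘(ℝ, E) 1 M] (F : Type w) [NormedAddCommGroup F] [NormedSpace ℝ F] (e : M → F)
  (f g : M ≃ₜ M) (k : M → M) (Es Eu : M → Submodule ℝ E) (π π' : M → E →L[ℝ] E) (t : Finset M)
  (ρ : M → ℝ) (R ρ₀ κf κ0 K l Cs r ε1 ε2 η2 : ℝ),
  Ctx E e f g k Es Eu π π' t ρ R ρ₀ κf κ0 K l Cs r ε1 ε2 η2 →
  ∀ (a b ja jb : M) (s w : ℕ) (B₀ : E →L[ℝ] (Fin s → ℝ)) (C₀ : E →L[ℝ] (Fin w → ℝ)),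
    Gw t ρ ja a → Gw t ρ jb b → (∀ v, B₀ v = 0 ↔ Pj π ja (ps E ja a) v = 0) →
    (∀ v, C₀ v = 0 ↔ Pj π jb (ps E jb b) v = v) → s + w = Module.finrank ℝ E →
    ∃ δ > 0, ∀ η1, 0 < η1 → η1 < δ → η1 ≤ η2 → ∀ (x x' : M) (N : ℕ) (j : ℕ → M), 0 < N →
      j 0 = ja → j N = jb → dist x a < δ → dist (f^[N] x) b < δ →
      (∀ i, Gd t ρ (j i) (k (f^[i] x))) →
      ∀ (B : E →L[ℝ] (Fin s → ℝ)) (C : E →L[ℝ] (Fin w → ℝ)), ‖B - B₀‖ < δ → ‖C - C₀‖ < δ →
      k x' = k x → x' ≠ x → dist (ps E ja x') (ps E ja x) < η1 →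
      dist (ps E jb (f^[N] x')) (ps E jb (f^[N] x)) < η1 →
      B (ps E ja x' - ps E ja x) = 0 → C (ps E jb (f^[N] x') - ps E jb (f^[N] x)) = 0 →
      Adm (Bvp N (Fx E f j) (fun y => B (y - ps E (j 0) x))
        (fun y => C (y - ps E (j N) (f^[N] x)))) (Box N (Dx E f k x j r η1 N)) →
      2 ≤ FD E f k x j r η1 N B C

/-- **INJ.** `k` is injective.
Proof. Suppose `k x = k x'`, `x ≠ x'`. Choose `n_i → ∞` with `f^(-n_i) x → a` and the same chart `ja ∈ t` good at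
all `k (f^(-n_i) x)` (pigeonhole); then `Gd ja (k a)`, so `Gw ja a` (`Ctx.kgd`), `Sg k a` (`S_T2`). Similarly
`f^(m_i) x → b` with the chart `jb`. Let `s = rank P` at `a` and `B₀ : E → ℝ^s` onto with kernel `ker P`;
`w = finrank E - rank P` at `b` and `C₀` onto with kernel `range P`. (`s + w = finrank E`: the rank of `P` is
invariant along orbits, `Pj_inv`, and `Pj` is continuous, so the ranks at `f^(-n_i) x`, `f^(m_i) x`, `a`, `b`
agree.) Choose `η1` small (`S_LEFT`, `S_RIGHT`, `S_XC`, `η2`), then `T, δ` from `S_LEFT`, `T', δ'` from `S_RIGHT`.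
Let `v = ψ (f^(-n) x') - ψ (f^(-n) x)` for a large `n = n_i` (in the chart `ja`): `v ≠ 0`, and since
`dist (f^(-i) x') (f^(-i) x) → 0` (`S_T1`), `S_CONE` gives `‖P v‖ ≤ α ‖v‖` (`P` at `f^(-n) x`), with `α → 0`, hence
`‖B₀ v‖ ≤ α' ‖v‖` with `α' → 0` (`P` at `f^(-n) x` is close to `P` at `a`). Take a functional `ℓ` with
`ℓ v = 1`, `‖ℓ‖ = 1 / ‖v‖` (Hahn-Banach) and `B = B₀ - ℓ(·) B₀ v`: `B v = 0`, `‖B - B₀‖ ≤ α'`. Similarly `C` at the
other end. Take `N = n_i + m_i'` large, with `T + 1 + (n' + 1 + T') = N`, base point `X = f^(-n) x`, charts `j`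
with `j 0 = ja`, `j N = jb`, good at all `k (f^i X)`. By `S_CUT3` (`S_CHX`; its exit hypotheses follow from
the first parts of `S_LEFT`, `S_RIGHT` as in the proof of `S_LA`) `FD = LD * RD = 1` (the right part is `RD` for
the base point `f^(N - T') X` and the shifted charts). By `S_XC` (`S_ADM` for the admissibility)
`FD ≥ 2`. Contradiction. -/
def S_INJ : Prop := ∀ (E : Type u) [NormedAddCommGroup E] [NormedSpace ℝ E]
  [FiniteDimensional ℝ E] (M : Type v) [MetricSpace M] [CompactSpace M] [ChartedSpace E M]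
  [IsManifold 𝓘(ℝ, E) 1 M] (F : Type w) [NormedAddCommGroup F] [NormedSpace ℝ F] (e : M → F)
  (f g : M ≃ₜ M) (k : M → M) (Es Eu : M → Submodule ℝ E) (π π' : M → E →L[ℝ] E) (t : Finset M)
  (ρ : M → ℝ) (R ρ₀ κf κ0 K l Cs r ε1 ε2 η2 : ℝ),
  Ctx E e f g k Es Eu π π' t ρ R ρ₀ κf κ0 K l Cs r ε1 ε2 η2 →
  ∀ x x' : M, k x = k x' → x = x'

/-- **SURJ.** `k` is surjective.
Proof. Let `z : M`, `n : ℕ`, `z' = g^(-n) z`, charts `j i` good at `g^i z'`. `S_MID` for the chain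
`F i = rep f (j i) (j (i+1))` (`i ≤ 2n`) around `c i = ψ (g^i z')`, with `A`, `P` from `Ctx.gc` and some `βs, βu`, gives
degree one; the problem is admissible (`G2P`), so by `S_A7` it has a zero: a point `p` with
`dist (f^i p) (g^i z') ≤ κ0 / 2` for `i ≤ 2n` (`Ctx.step`, `Ctx.tube`). Let `q_n = f^n p`, and let `q` be a limit
point of the `q_n`: `dist (ob f q m) (ob g z m) ≤ κ0` for all integers `m`; so `k q = z` by `Ctx.sepg`. -/
def S_SURJ : Prop := ∀ (E : Type u) [NormedAddCommGroup E] [NormedSpace ℝ E]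
  [FiniteDimensional ℝ E] (M : Type v) [MetricSpace M] [CompactSpace M] [ChartedSpace E M]
  [IsManifold 𝓘(ℝ, E) 1 M] (F : Type w) [NormedAddCommGroup F] [NormedSpace ℝ F] (e : M → F)
  (f g : M ≃ₜ M) (k : M → M) (Es Eu : M → Submodule ℝ E) (π π' : M → E →L[ℝ] E) (t : Finset M)
  (ρ : M → ℝ) (R ρ₀ κf κ0 K l Cs r ε1 ε2 η2 : ℝ),
  Ctx E e f g k Es Eu π π' t ρ R ρ₀ κf κ0 K l Cs r ε1 ε2 η2 →
  Function.Surjective k

/-- **TB.** The context exists for all Anosov `f` close to `g`.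
Proof. Charts: `S_CHART`; `π'`: `exists_pi`; `K, l`: `S_M1a` for `g`; `Cs`: `S_G2`. `κ0 = κ / 8`. Let `δc ≤ R` be
the constant of `c2` for `κ0 / 2`. `S_M1b` for `ν = 1 / (16 Cs)` and `R1 = min R δc` gives `r ≤ R1` and `ε0`.
`ε1 = ε2 = r / (16 Cs)` (so `Cs (ε1 + ε2) = r / 8`), `η2 = min (r / 8) (ε2 / (4 (1 + K)))`. Let `δ1` be the constant of
`c1` for `η2`, and `η = min (η0, ρ₀, κ/16, δ1/2, κ0/2)`; `Pool.Agent.H244.Main.semi_bij` with this `η` gives `ε'`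
and `k`; `ε = min ε' ε0`.
`KK`: `near` by `2η ≤ κ0`; `sep`: `dist (g^n k x) (g^n k w) ≤ 2 κ0 + 2 η ≤ κ` (`TA.exp`, `k` maps orbits to orbits);
`per`: `Pool.Agent.H244.Main.inj_per`. `sepg`: `κ0 + η ≤ κ`. `kgd`: `η ≤ ρ₀ ≤ ρ j`. `pc`: `Pj_cont`. `gc`: `S_M1a`. -/
def S_TB : Prop := ∀ (E : Type u) [NormedAddCommGroup E] [NormedSpace ℝ E]
  [FiniteDimensional ℝ E] (M : Type v) [MetricSpace M] [CompactSpace M] [ChartedSpace E M]
  [IsManifold 𝓘(ℝ, E) 1 M] (F : Type w) [NormedAddCommGroup F] [NormedSpace ℝ F] (e : M → F),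
  ContMDiff 𝓘(ℝ, E) 𝓘(ℝ, F) 1 e → (∀ x, Function.Injective (dm E e x)) →
  ∀ (g : M ≃ₜ M) (Es' Eu' : M → Submodule ℝ E) (C' a' b' Ls' Lu' κ : ℝ),
  EAnosov e g Es' Eu' C' a' b' Ls' Lu' → TA g κ → ∀ η0 > 0, ∃ ε > 0,
  ∀ (f : M ≃ₜ M) (Es Eu : M → Submodule ℝ E) (C a b Ls Lu κf : ℝ),
  EAnosov e f Es Eu C a b Ls Lu → TA f κf → (∀ x, dist (f x) (g x) < ε) →
  ∃ (k : M → M) (π π' : M → E →L[ℝ] E) (t : Finset M) (ρ : M → ℝ)
    (R ρ₀ κ0 K l Cs r ε1 ε2 η2 : ℝ),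
    Ctx E e f g k Es Eu π π' t ρ R ρ₀ κf κ0 K l Cs r ε1 ε2 η2 ∧ (∀ x, dist (k x) x ≤ η0) ∧
    ∀ n : ℕ, 1 ≤ n → BijOn k {x | f^[n] x = x} {x | g^[n] x = x}

end Pool.Agent.H963.CJ
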