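import Pool.Agent.H963.CJ.MDef

/-!
# Points with close backward orbits lie in thin unstable cones
-/

set_option autoImplicit false
set_option linter.unusedSectionVars false

open Set Filter Topology Metric
open scoped Manifold ContDiff

namespace Pool.Agent.H963.CJ

open Pool.Agent.H721R2 Pool.Agent.H789R2.AN Pool.Agent.TH289 Pool.Agent.H244.Dyn
  Pool.Agent.H244.Loc

universe u v w

namespace MCONE

section seq

variable {E : Type*} [NormedAddCommGroup E] [NormedSpace ℝ E] [FiniteDimensional ℝ E]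
  {A P : ℕ → E →L[ℝ] E} {K l : ℝ}

theorem Pr_zero (A : ℕ → E →L[ℝ] E) (i : ℕ) (w : E) : Pr A i 0 w = w := rfl

theorem Pr_succ (A : ℕ → E →L[ℝ] E) (i k : ℕ) (w : E) :
    Pr A i (k + 1) w = A (i + k) (Pr A i k w) := rfl

theorem Pr_shift (A : ℕ → E →L[ℝ] E) (i k : ℕ) (w : E) :
    Pr A (i + 1) k (A i w) = Pr A i (k + 1) w := by
  induction k with
  | zero => rfl
  | succ k ih =>
    rw [Pr_succ, ih, Pr_succ A i (k + 1)]
    have : i + 1 + k = i + (k + 1) := by omega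
    rw [this]

theorem Pr_comm (h : GC A P K l) (i k : ℕ) (w : E) :
    Pr A i k (P i w) = P (i + k) (Pr A i k w) := by
  induction k with
  | zero => rfl
  | succ k ih =>
    rw [Pr_succ, Pr_succ, ih]
    exact DFunLike.congr_fun (h.comm (i + k)) (Pr A i k w)

theorem Pr_inj (h : GC A P K l) (i k : ℕ) : Function.Injective (Pr A i k) := by
  induction k with
  | zero => exact fun a b hab => hab
  | succ k ih => exact fun a b hab => ih (h.inj (i + k) hab)

theorem Pr_surj (h : GC A P K l) (i k : ℕ) : Function.Surjective (Pr A i k) := by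
  have h1 : Function.Injective ((Pr A i k : E →L[ℝ] E) : E →ₗ[ℝ] E) := Pr_inj h i k
  exact LinearMap.injective_iff_surjective.1 h1

/-- adapted norm on the contracted spaces -/
def Sn (A : ℕ → E →L[ℝ] E) (l : ℝ) (i : ℕ) (R : ℝ) (w : E) : Prop :=
  ∀ k, ‖Pr A i k w‖ ≤ R * l ^ k

theorem Sn_base (h : GC A P K l) {i : ℕ} {w : E} (hw : P i w = w) : Sn A l i (K * ‖w‖) w := by
  intro k
  refine (h.s i k w hw).trans (le_of_eq ?_)
  ring

theorem Sn_step {i : ℕ} {R : ℝ} {w : E} (hw : Sn A l i R w) : Sn A l (i + 1) (l * R) (A i w) := by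
  intro k
  rw [Pr_shift]
  refine (hw (k + 1)).trans (le_of_eq ?_)
  rw [pow_succ]
  ring

theorem Sn_add {i : ℕ} {R R' : ℝ} {w w' : E} (hw : Sn A l i R w) (hw' : Sn A l i R' w') :
    Sn A l i (R + R') (w + w') := by
  intro k
  rw [map_add, add_mul]
  exact (norm_add_le _ _).trans (add_le_add (hw k) (hw' k))

theorem Sn_mono (hl : 0 < l) {i : ℕ} {R R' : ℝ} {w : E} (hR : R ≤ R') (hw : Sn A l i R w) :
    Sn A l i R' w := fun k => (hw k).trans (mul_le_mul_of_nonneg_right hR (by positivity))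

theorem Sn_norm {i : ℕ} {R : ℝ} {w : E} (hw : Sn A l i R w) : ‖w‖ ≤ R := by
  have := hw 0
  rwa [Pr_zero, pow_zero, mul_one] at this

/-- adapted norm on the expanded spaces -/
def Un (A P : ℕ → E →L[ℝ] E) (l : ℝ) (i : ℕ) (R : ℝ) (w : E) : Prop :=
  ∀ j k, j + k = i → ∃ w', P j w' = 0 ∧ Pr A j k w' = w ∧ ‖w'‖ ≤ R * l ^ k

theorem Un_base (h : GC A P K l) {i : ℕ} {w : E} (hw : P i w = 0) : Un A P l i (K * ‖w‖) w := by
  rintro j k rfl
  obtain ⟨w', hw'⟩ := Pr_surj h j k w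
  have h0 : P j w' = 0 := by
    apply Pr_inj h j k
    rw [Pr_comm h, hw', hw, map_zero]
  refine ⟨w', h0, hw', (h.u j k w' h0).trans (le_of_eq ?_)⟩
  rw [hw']
  ring

theorem Un_step (h : GC A P K l) {i : ℕ} {R : ℝ} {w : E} (hw : Un A P l (i + 1) R (A i w)) :
    Un A P l i (l * R) w := by
  rintro j k rfl
  obtain ⟨w', h0, h1, h2⟩ := hw j (k + 1) (by omega)
  refine ⟨w', h0, h.inj (j + k) h1, h2.trans (le_of_eq ?_)⟩
  rw [pow_succ]
  ring

theorem Un_sub {i : ℕ} {R R' : ℝ} {w w' : E} (hw : Un A P l i R w) (hw' : Un A P l i R' w') :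
    Un A P l i (R + R') (w - w') := by
  intro j k hjk
  obtain ⟨a, a0, a1, a2⟩ := hw j k hjk
  obtain ⟨b, b0, b1, b2⟩ := hw' j k hjk
  refine ⟨a - b, by rw [map_sub, a0, b0, sub_zero], by rw [map_sub, a1, b1], ?_⟩
  rw [add_mul]
  exact (norm_sub_le _ _).trans (add_le_add a2 b2)

theorem Un_mono (hl : 0 < l) {i : ℕ} {R R' : ℝ} {w : E} (hR : R ≤ R') (hw : Un A P l i R w) :
    Un A P l i R' w := by
  intro j k hjk
  obtain ⟨a, a0, a1, a2⟩ := hw j k hjk
  exact ⟨a, a0, a1, a2.trans (mul_le_mul_of_nonneg_right hR (by positivity))⟩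

theorem Un_norm {i : ℕ} {R : ℝ} {w : E} (hw : Un A P l i R w) : ‖w‖ ≤ R := by
  obtain ⟨a, _, a1, a2⟩ := hw i 0 rfl
  rw [Pr_zero] at a1
  rwa [a1, pow_zero, mul_one] at a2

/-- the estimates of the two components of an approximate orbit of a hyperbolic sequence -/
theorem comps (h : GC A P K l) {n : ℕ} {v : ℕ → E} {V ε : ℝ} (hε : 0 ≤ ε)
    (hv : ∀ i ≤ n, ‖v i‖ ≤ V) (hlin : ∀ i < n, ‖v (i + 1) - A i (v i)‖ ≤ ε) :
    ∀ i ≤ n, ‖P i (v i)‖ ≤ K * K * V * l ^ i + K * K * ε / (1 - l) ∧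
      ‖v i - P i (v i)‖ ≤ K * ‖v n - P n (v n)‖ + K * (1 + K) * ε / (1 - l) := by
  have hK := h.K_ge
  have hl0 := h.l_pos
  have h1l : 0 < 1 - l := by linarith [h.l_lt]
  have hK0 : 0 < K := by linarith
  have hV : 0 ≤ V := (norm_nonneg _).trans (hv 0 (Nat.zero_le n))
  obtain ⟨a, ha⟩ : ∃ a : ℕ → E, ∀ i, a i = P i (v i) := ⟨_, fun _ => rfl⟩
  obtain ⟨b, hb⟩ : ∃ b : ℕ → E, ∀ i, b i = v i - a i := ⟨_, fun _ => rfl⟩
  obtain ⟨e, he⟩ : ∃ e : ℕ → E, ∀ i, e i = v (i + 1) - A i (v i) := ⟨_, fun _ => rfl⟩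
  have hPP : ∀ i w, P i (P i w) = P i w := fun i w => DFunLike.congr_fun (h.proj i) w
  have hPA : ∀ i w, A i (P i w) = P (i + 1) (A i w) := fun i w => DFunLike.congr_fun (h.comm i) w
  have hPn : ∀ i w, ‖P i w‖ ≤ K * ‖w‖ := fun i w =>
    ((P i).le_opNorm w).trans (mul_le_mul_of_nonneg_right (h.bd i) (norm_nonneg _))
  have hen : ∀ i < n, ‖e i‖ ≤ ε := by
    intro i hi
    rw [he]
    exact hlin i hi
  have hvx : ∀ i, v (i + 1) = A i (v i) + e i := by
    intro i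
    rw [he]
    abel
  have haP : ∀ i, P i (a i) = a i := by
    intro i
    rw [ha, hPP]
  have hbP : ∀ i, P i (b i) = 0 := by
    intro i
    rw [hb, map_sub, haP, ha, sub_self]
  have hrec_a : ∀ i, a (i + 1) = A i (a i) + P (i + 1) (e i) := by
    intro i
    rw [ha (i + 1), hvx, map_add, ← hPA, ← ha]
  have hrec_b : ∀ i, A i (b i) = b (i + 1) - (e i - P (i + 1) (e i)) := by
    intro i
    rw [hb (i + 1), hrec_a, hvx, hb, map_sub]
    abel
  -- the contracted component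
  obtain ⟨Ra, hRa⟩ : ∃ R : ℝ, R = K * K * ε / (1 - l) := ⟨_, rfl⟩
  have hRa0 : 0 ≤ Ra := by
    rw [hRa]
    positivity
  have hRa1 : l * Ra + K * (K * ε) = Ra := by
    rw [hRa]
    field_simp
    ring
  have hA : ∀ i, i ≤ n → Sn A l i (K * K * V * l ^ i + Ra) (a i) := by
    intro i
    induction i with
    | zero =>
      intro _
      refine Sn_mono hl0 ?_ (Sn_base h (haP 0))
      have h3 : ‖a 0‖ ≤ K * V := by
        rw [ha]
        exact (hPn 0 (v 0)).trans (mul_le_mul_of_nonneg_left (hv 0 (Nat.zero_le n)) hK0.le)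
      have h5 := mul_le_mul_of_nonneg_left h3 hK0.le
      rw [pow_zero, mul_one]
      linarith
    | succ i ih =>
      intro hi
      rw [hrec_a i]
      refine Sn_mono hl0 ?_ (Sn_add (Sn_step (ih (by omega))) (Sn_base h (hPP (i + 1) (e i))))
      have h3 := (hPn (i + 1) (e i)).trans (mul_le_mul_of_nonneg_left (hen i (by omega)) hK0.le)
      have h4 := mul_le_mul_of_nonneg_left h3 hK0.le
      have h5 : K * K * V * l ^ (i + 1) + Ra = l * (K * K * V * l ^ i + Ra) + K * (K * ε) := by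
        rw [pow_succ, mul_add, add_assoc, hRa1]
        ring
      rw [h5]
      linarith
  -- the expanded component
  obtain ⟨Rb, hRb⟩ : ∃ R : ℝ, R = K * ‖b n‖ + K * (1 + K) * ε / (1 - l) := ⟨_, rfl⟩
  have hRb0 : 0 ≤ K * ((1 + K) * ε) := by positivity
  have hRb1 : l * (Rb + K * ((1 + K) * ε)) ≤ Rb := by
    have h3 : K * (1 + K) * ε / (1 - l) * (1 - l) = K * (1 + K) * ε := by field_simp
    have h4 : 0 ≤ K * ‖b n‖ * (1 - l) := by positivity
    have h5 : Rb * (1 - l) = K * ‖b n‖ * (1 - l) + K * (1 + K) * ε := by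
      rw [hRb, add_mul, h3]
    nlinarith
  have hB : ∀ k i, i + k = n → Un A P l i Rb (b i) := by
    intro k
    induction k with
    | zero =>
      intro i hi
      have hiN : i = n := hi
      rw [hiN]
      refine Un_mono hl0 ?_ (Un_base h (hbP n))
      have h4 : 0 ≤ K * (1 + K) * ε / (1 - l) := by positivity
      rw [hRb]
      linarith
    | succ k ih =>
      intro i hi
      have hiN : i < n := by omega
      have h3 := ih (i + 1) (by omega)
      have hP0 : P (i + 1) (e i - P (i + 1) (e i)) = 0 := by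
        rw [map_sub, hPP, sub_self]
      have h4 : Un A P l (i + 1) (Rb + K * ‖e i - P (i + 1) (e i)‖) (A i (b i)) := by
        rw [hrec_b i]
        exact Un_sub h3 (Un_base h hP0)
      refine Un_mono hl0 ?_ (Un_step h h4)
      refine le_trans ?_ hRb1
      refine mul_le_mul_of_nonneg_left ?_ hl0.le
      have h5 : ‖e i - P (i + 1) (e i)‖ ≤ (1 + K) * ε := by
        have h6 := norm_sub_le (e i) (P (i + 1) (e i))
        have h7 := (hPn (i + 1) (e i)).trans (mul_le_mul_of_nonneg_left (hen i hiN) hK0.le)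
        have h8 := hen i hiN
        linarith
      have h9 := mul_le_mul_of_nonneg_left h5 hK0.le
      linarith
  intro i hi
  have h3 := Sn_norm (hA i hi)
  have h4 := Un_norm (hB (n - i) i (by omega))
  rw [ha, hRa] at h3
  rw [hb, ha, hRb, hb, ha] at h4
  exact ⟨h3, h4⟩

end seq

/-- the backward part -/
theorem back (ha : S_M1a.{u, v, w}) (hc : S_M1c.{u, v}) (E : Type u) [NormedAddCommGroup E]
    [NormedSpace ℝ E] [FiniteDimensional ℝ E] (M : Type v) [MetricSpace M] [CompactSpace M]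
    [ChartedSpace E M] [IsManifold 𝓘(ℝ, E) 1 M] (F : Type w) [NormedAddCommGroup F]
    [NormedSpace ℝ F] (e : M → F) (he : ContMDiff 𝓘(ℝ, E) 𝓘(ℝ, F) 1 e)
    (hinj : ∀ x, Function.Injective (dm E e x)) (f : M ≃ₜ M) (Es Eu : M → Submodule ℝ E)
    (C a b Ls Lu : ℝ) (h : EAnosov e f Es Eu C a b Ls Lu) (π : M → E →L[ℝ] E)
    (hπ : IsPi π Es Eu) (t : Finset M) (ρ : M → ℝ) (R ρ₀ : ℝ) (hG : GCh E t ρ R ρ₀) (α : ℝ)
    (hα : 0 < α) : ∃ κ1 > 0, ∀ p q j, Gw t ρ j q →
      (∀ n : ℕ, dist (f.symm^[n] p) (f.symm^[n] q) ≤ κ1) →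
      ‖Pj π j (extChartAt 𝓘(ℝ, E) j q) (extChartAt 𝓘(ℝ, E) j p - extChartAt 𝓘(ℝ, E) j q)‖ ≤
        α * ‖extChartAt 𝓘(ℝ, E) j p - extChartAt 𝓘(ℝ, E) j q‖ := by
  obtain ⟨K, l, hK, hl0, hl1, hGC⟩ := ha E M F e he hinj f Es Eu C a b Ls Lu h π hπ t ρ R ρ₀ hG
  have h1l : 0 < 1 - l := by linarith
  have hK0 : 0 < K := by linarith
  obtain ⟨K1, hK1⟩ : ∃ K1 : ℝ, K1 = K * K / (1 - l) := ⟨_, rfl⟩
  obtain ⟨K2, hK2⟩ : ∃ K2 : ℝ, K2 = K * (1 + K) / (1 - l) := ⟨_, rfl⟩
  have hK10 : 0 < K1 := by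
    rw [hK1]
    positivity
  have hK20 : 0 < K2 := by
    rw [hK2]
    positivity
  obtain ⟨ν, hν0, hν1, hν2⟩ : ∃ ν > 0, (K1 + K2) * ν ≤ 1 / 2 ∧
      K1 * ν * (2 * (K * (1 + K))) ≤ α := by
    refine ⟨min (1 / (2 * (K1 + K2))) (α / (K1 * (2 * (K * (1 + K))))),
      lt_min (by positivity) (by positivity), ?_, ?_⟩
    · have h1 := mul_le_mul_of_nonneg_left
        (min_le_left (1 / (2 * (K1 + K2))) (α / (K1 * (2 * (K * (1 + K))))))
        (show 0 ≤ K1 + K2 by linarith)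
      refine h1.trans (le_of_eq ?_)
      field_simp
    · have h1 := mul_le_mul_of_nonneg_left
        (min_le_right (1 / (2 * (K1 + K2))) (α / (K1 * (2 * (K * (1 + K))))))
        (show 0 ≤ K1 * (2 * (K * (1 + K))) by positivity)
      have h2 : K1 * (2 * (K * (1 + K))) * (α / (K1 * (2 * (K * (1 + K))))) = α := by
        field_simp
      rw [h2] at h1
      linarith
  obtain ⟨r, hr, hlin⟩ := hc E M f h.smooth t ρ R ρ₀ hG ν hν0
  obtain ⟨δ, hδ, hc1⟩ := hG.c1 r hr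
  refine ⟨δ / 2, half_pos hδ, fun p q j hj hpq => ?_⟩
  -- the charts
  have hcov : ∀ z : M, ∃ i, Gw t ρ i z := by
    intro z
    obtain ⟨i, hi, hz⟩ := hG.cover z
    have h1 := hG.ρ₀_le i hi
    have h2 := hG.ρ₀_pos
    exact ⟨i, hi, by linarith⟩
  choose J hJ using hcov
  obtain ⟨jj, hjj0, hjj⟩ : ∃ jj : ℕ → M, jj 0 = j ∧ ∀ k, Gw t ρ (jj k) (f.symm^[k] q) := by
    refine ⟨fun k => if k = 0 then j else J (f.symm^[k] q), rfl, fun k => ?_⟩
    by_cases hk : k = 0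
    · subst hk
      exact hj
    · simp only [if_neg hk]
      exact hJ _
  have hnear : ∀ k, f.symm^[k] p ∈ (extChartAt 𝓘(ℝ, E) (jj k)).source ∧
      dist (extChartAt 𝓘(ℝ, E) (jj k) (f.symm^[k] p))
        (extChartAt 𝓘(ℝ, E) (jj k) (f.symm^[k] q)) < r := fun k =>
    hc1 (jj k) (hjj k).1 _ (hjj k).2 _ ((hpq k).trans_lt (half_lt_self hδ))
  obtain ⟨w, hw⟩ : ∃ w : ℕ → E, ∀ k, w k = extChartAt 𝓘(ℝ, E) (jj k) (f.symm^[k] p) -
    extChartAt 𝓘(ℝ, E) (jj k) (f.symm^[k] q) := ⟨_, fun _ => rfl⟩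
  obtain ⟨Q, hQ⟩ : ∃ Q : ℕ → E →L[ℝ] E, ∀ k, Q k = Pj π (jj k)
    (extChartAt 𝓘(ℝ, E) (jj k) (f.symm^[k] q)) := ⟨_, fun _ => rfl⟩
  have hwr : ∀ k, ‖w k‖ ≤ r := by
    intro k
    rw [hw, ← dist_eq_norm]
    exact (hnear k).2.le
  have hbdd : BddAbove (Set.range fun k => ‖w k‖) := ⟨r, by
    rintro _ ⟨k, rfl⟩
    exact hwr k⟩
  obtain ⟨V, hV⟩ : ∃ V : ℝ, V = ⨆ k, ‖w k‖ := ⟨_, rfl⟩
  have hwV : ∀ k, ‖w k‖ ≤ V := fun k => by
    rw [hV]
    exact le_ciSup hbdd k
  have hV0 : 0 ≤ V := (norm_nonneg _).trans (hwV 0)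
  have hback : ∀ (x : M) (i n : ℕ), i ≤ n → f^[i] (f.symm^[n] x) = f.symm^[n - i] x := by
    intro x i n hin
    obtain ⟨m, rfl⟩ := Nat.exists_eq_add_of_le hin
    rw [Nat.add_sub_cancel_left, Function.iterate_add_apply]
    exact Function.LeftInverse.iterate (fun y => f.apply_symm_apply y) i _
  -- the estimates for the segment of length `n`
  have key : ∀ n k, k ≤ n → ‖Q k (w k)‖ ≤ K * K * V * l ^ (n - k) + K * K * (ν * V) / (1 - l) ∧
      ‖w k - Q k (w k)‖ ≤ K * ‖w 0 - Q 0 (w 0)‖ + K * (1 + K) * (ν * V) / (1 - l) := by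
    intro n k hk
    obtain ⟨z, hz⟩ : ∃ z : ℕ → M, ∀ i, z i = f^[i] (f.symm^[n] q) := ⟨_, fun _ => rfl⟩
    obtain ⟨ch, hch, hch'⟩ : ∃ ch : ℕ → M, (∀ i, i ≤ n → ch i = jj (n - i)) ∧
        ∀ i, ¬ i ≤ n → ch i = J (z i) := by
      refine ⟨fun i => if i ≤ n then jj (n - i) else J (z i), fun i hi => ?_, fun i hi => ?_⟩
      · exact if_pos hi
      · exact if_neg hi
    have hzn : ∀ i, i ≤ n → z i = f.symm^[n - i] q := fun i hi => by
      rw [hz]
      exact hback q i n hi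
    have hzs : ∀ i, z (i + 1) = f (z i) := fun i => by
      rw [hz, hz, Function.iterate_succ_apply']
    have hchG : ∀ i, Gw t ρ (ch i) (z i) := by
      intro i
      by_cases hi : i ≤ n
      · rw [hch i hi, hzn i hi]
        exact hjj (n - i)
      · rw [hch' i hi]
        exact hJ _
    have hGC' := hGC z ch hzs hchG
    have hcomp := comps hGC' (n := n) (v := fun i => w (n - i)) (V := V) (ε := ν * V)
      (by positivity) (fun i _ => hwV _) (fun i hi => ?_) (n - k) (Nat.sub_le n k)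
    · have e1 : n - (n - k) = k := by omega
      have e2 : ch (n - k) = jj k := by
        rw [hch _ (Nat.sub_le n k), e1]
      have e3 : z (n - k) = f.symm^[k] q := by
        rw [hzn _ (Nat.sub_le n k), e1]
      have e4 : ch n = jj 0 := by
        rw [hch n le_rfl, Nat.sub_self]
      have e5 : z n = f.symm^[0] q := by
        rw [hzn n le_rfl, Nat.sub_self]
      simp only [e1, e2, e3, e4, e5, Nat.sub_self] at hcomp
      rw [← hQ, ← hQ] at hcomp
      exact hcomp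
    · have hin : i ≤ n := hi.le
      have hi1 : i + 1 ≤ n := hi
      have hsub : n - i = (n - (i + 1)) + 1 := by omega
      have hnr := hnear (n - i)
      have hy : extChartAt 𝓘(ℝ, E) (ch i) (f.symm^[n - i] p) ∈
          closedBall (extChartAt 𝓘(ℝ, E) (ch i) (z i)) r := by
        rw [mem_closedBall, hch i hin, hzn i hin]
        exact hnr.2.le
      have hl := (hlin (ch i) (z i) (ch (i + 1)) (hchG i) (by
        rw [← hzs]
        exact hchG (i + 1)) _ hy).2.2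
      have hsrc : f.symm^[n - i] p ∈ (extChartAt 𝓘(ℝ, E) (ch i)).source := by
        rw [hch i hin]
        exact hnr.1
      have hrep : rep f (ch i) (ch (i + 1)) (extChartAt 𝓘(ℝ, E) (ch i) (f.symm^[n - i] p)) =
          extChartAt 𝓘(ℝ, E) (ch (i + 1)) (f.symm^[n - (i + 1)] p) := by
        unfold rep
        rw [(extChartAt 𝓘(ℝ, E) (ch i)).left_inv hsrc]
        congr 1
        rw [hsub, Function.iterate_succ_apply', f.apply_symm_apply]
      rw [hrep, ← hzs] at hl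
      have e6 : w (n - i) = extChartAt 𝓘(ℝ, E) (ch i) (f.symm^[n - i] p) -
          extChartAt 𝓘(ℝ, E) (ch i) (z i) := by
        rw [hw, hch i hin, hzn i hin]
      have e7 : w (n - (i + 1)) = extChartAt 𝓘(ℝ, E) (ch (i + 1)) (f.symm^[n - (i + 1)] p) -
          extChartAt 𝓘(ℝ, E) (ch (i + 1)) (z (i + 1)) := by
        rw [hw, hch (i + 1) hi1, hzn (i + 1) hi1]
      rw [← e6, ← e7] at hl
      exact hl.trans (mul_le_mul_of_nonneg_left (hwV _) hν0.le)
  have hbQ : ‖Q 0 (w 0)‖ ≤ K * ‖w 0‖ := by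
    -- from the bound of the projections of the constant chain
    obtain ⟨z, hz⟩ : ∃ z : ℕ → M, ∀ i, z i = f^[i] q := ⟨_, fun _ => rfl⟩
    have hzs : ∀ i, z (i + 1) = f (z i) := fun i => by
      rw [hz, hz, Function.iterate_succ_apply']
    obtain ⟨ch, hch0, hch⟩ : ∃ ch : ℕ → M, ch 0 = j ∧ ∀ i, Gw t ρ (ch i) (z i) := by
      refine ⟨fun i => if i = 0 then j else J (z i), rfl, fun i => ?_⟩
      by_cases hi : i = 0
      · subst hi
        rw [hz]
        exact hj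
      · simp only [if_neg hi]
        exact hJ _
    have h1 := (hGC z ch hzs hch).bd 0
    simp only [hch0, hz] at h1
    have h2 : Q 0 = Pj π j (extChartAt 𝓘(ℝ, E) j (f^[0] q)) := by
      rw [hQ, hjj0]
      rfl
    rw [← h2] at h1
    exact ((Q 0).le_opNorm _).trans (mul_le_mul_of_nonneg_right h1 (norm_nonneg _))
  have hs : ∀ k, ‖Q k (w k)‖ ≤ K1 * ν * V := by
    intro k
    have h1 : Tendsto (fun n : ℕ => K * K * V * l ^ n + K * K * (ν * V) / (1 - l)) atTop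
        (𝓝 (K * K * V * 0 + K * K * (ν * V) / (1 - l))) :=
      ((tendsto_pow_atTop_nhds_zero_of_lt_one hl0.le hl1).const_mul _).add_const _
    have h2 : ‖Q k (w k)‖ ≤ K * K * V * 0 + K * K * (ν * V) / (1 - l) := by
      refine ge_of_tendsto' h1 fun n => ?_
      have h3 := (key (n + k) k (Nat.le_add_left k n)).1
      rwa [Nat.add_sub_cancel] at h3
    refine h2.trans (le_of_eq ?_)
    rw [hK1]
    ring
  have hu : ∀ k, ‖w k - Q k (w k)‖ ≤ K * (1 + K) * ‖w 0‖ + K2 * ν * V := by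
    intro k
    have h1 := (key k k le_rfl).2
    have h2 : ‖w 0 - Q 0 (w 0)‖ ≤ (1 + K) * ‖w 0‖ := by
      have := norm_sub_le (w 0) (Q 0 (w 0))
      linarith
    have h3 := mul_le_mul_of_nonneg_left h2 hK0.le
    have h4 : K * (1 + K) * (ν * V) / (1 - l) = K2 * ν * V := by
      rw [hK2]
      ring
    rw [h4] at h1
    linarith
  have hV1 : V ≤ K * (1 + K) * ‖w 0‖ + (K1 + K2) * ν * V := by
    nth_rewrite 1 [hV]
    refine ciSup_le fun k => ?_
    have h1 : w k = Q k (w k) + (w k - Q k (w k)) := by abel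
    have h2 : ‖w k‖ ≤ ‖Q k (w k)‖ + ‖w k - Q k (w k)‖ := by
      nth_rewrite 1 [h1]
      exact norm_add_le _ _
    have h3 := hs k
    have h4 := hu k
    linarith
  have hV2 : V ≤ 2 * (K * (1 + K)) * ‖w 0‖ := by
    have h1 := mul_le_mul_of_nonneg_right hν1 hV0
    linarith
  have h0 := hs 0
  have h1 : K1 * ν * V ≤ α * ‖w 0‖ := by
    have h2 := mul_le_mul_of_nonneg_left hV2 (show 0 ≤ K1 * ν by positivity)
    have h3 := mul_le_mul_of_nonneg_right hν2 (norm_nonneg (w 0))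
    linarith
  have h2 := h0.trans h1
  rw [hQ, hw, hjj0] at h2
  exact h2

end MCONE

open MCONE

theorem t_CONE (ha : S_M1a.{u, v, w}) (hc : S_M1c.{u, v}) : S_CONE.{u, v, w} := by
  intro E _ _ _ M _ _ _ _ F _ _ e he hinj f Es Eu C a b Ls Lu h π hπ t ρ R ρ₀ hG α hα
  obtain ⟨κ, hκ, h1⟩ := back ha hc E M F e he hinj f Es Eu C a b Ls Lu h π hπ t ρ R ρ₀ hG α hα
  have hπ' : IsPi (fun x => 1 - π x) Eu Es := by
    refine ⟨fun x v hv => ?_, fun x v hv => ?_, fun x v => ?_, fun x v => ?_⟩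
    · show v - π x v = v
      rw [hπ.u x v hv, sub_zero]
    · show v - π x v = 0
      rw [hπ.s x v hv, sub_self]
    · exact hπ.mu x v
    · show v - (v - π x v) ∈ Es x
      rw [sub_sub_cancel]
      exact hπ.ms x v
  obtain ⟨κ', hκ', h2⟩ := back ha hc E M F e he hinj f.symm Eu Es C b a Lu Ls h.symm
    (fun x => 1 - π x) hπ' t ρ R ρ₀ hG α hα
  refine ⟨min κ κ', lt_min hκ hκ', fun p q j hj => ⟨fun hpq => ?_, fun hpq => ?_⟩⟩
  · exact h1 p q j hj fun n => (hpq n).trans (min_le_left _ _)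
  · have h3 := h2 p q j hj fun n => by
      rw [Homeomorph.symm_symm]
      exact (hpq n).trans (min_le_right _ _)
    have hq : q ∈ (extChartAt 𝓘(ℝ, E) j).source := hG.src j hj.1 q hj.2
    have hinv : (extChartAt 𝓘(ℝ, E) j).symm (extChartAt 𝓘(ℝ, E) j q) = q :=
      (extChartAt 𝓘(ℝ, E) j).left_inv hq
    have h4 : ∀ v : E, Pj (fun x => 1 - π x) j (extChartAt 𝓘(ℝ, E) j q) v =
        v - Pj π j (extChartAt 𝓘(ℝ, E) j q) v := by
      intro v
      unfold Pj
      rw [hinv]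
      have hD := Dc_inj he hinj hq
      show dm E (extChartAt 𝓘(ℝ, E) j) q ((dm E (extChartAt 𝓘(ℝ, E) j) q).inverse v -
        π q ((dm E (extChartAt 𝓘(ℝ, E) j) q).inverse v)) = v -
        dm E (extChartAt 𝓘(ℝ, E) j) q (π q ((dm E (extChartAt 𝓘(ℝ, E) j) q).inverse v))
      rw [map_sub, inv_right hD]
    rw [h4] at h3
    exact h3

end Pool.Agent.H963.CJ
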