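import Pool.Agent.H963.CJ.MDef3

/-!
# Right boundary problems near a point with singleton fibre
-/

set_option autoImplicit false
set_option linter.unusedSectionVars false

open Set Filter Topology Metric
open scoped Manifold ContDiff

namespace Pool.Agent.H963.CJ

open Pool.Agent.H721R2 Pool.Agent.H789R2.AN Pool.Agent.TH289 Pool.Agent.H244.Dyn
  Pool.Agent.H244.Loc

universe u v w

namespace NRIGHT

/-- a finite family of positive numbers has a positive lower bound -/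
lemma exists_pos_le {ι : Type*} [Finite ι] (d : ι → ℝ) (hd : ∀ i, 0 < d i) :
    ∃ δ > 0, ∀ i, δ ≤ d i := by
  rcases isEmpty_or_nonempty ι with hι | hι
  · exact ⟨1, one_pos, fun i => (hι.false i).elim⟩
  · obtain ⟨i₀, hi₀⟩ := Finite.exists_min d
    exact ⟨d i₀, hd i₀, hi₀⟩

/-- a linear map is `0` exactly where some map onto `ℝ^s` is -/
lemma exists_onto {E : Type*} [NormedAddCommGroup E] [NormedSpace ℝ E] [FiniteDimensional ℝ E]
    (P : E →L[ℝ] E) : ∃ (s : ℕ) (β : E →L[ℝ] (Fin s → ℝ)), (∀ v, β v = 0 ↔ P v = 0) ∧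
      Function.Surjective β := by
  let W : Submodule ℝ E := LinearMap.range (P : E →ₗ[ℝ] E)
  let L : W ≃ₗ[ℝ] (Fin (Module.finrank ℝ W) → ℝ) := (Module.finBasis ℝ W).equivFun
  let β₀ : E →ₗ[ℝ] (Fin (Module.finrank ℝ W) → ℝ) :=
    (L : W →ₗ[ℝ] (Fin (Module.finrank ℝ W) → ℝ)).comp (LinearMap.rangeRestrict (P : E →ₗ[ℝ] E))
  refine ⟨Module.finrank ℝ W, LinearMap.toContinuousLinearMap β₀, fun v => ?_, ?_⟩
  · have h1 : (LinearMap.toContinuousLinearMap β₀) v =
        L (LinearMap.rangeRestrict (P : E →ₗ[ℝ] E) v) := rfl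
    rw [h1, LinearEquiv.map_eq_zero_iff]
    constructor
    · intro h
      exact congrArg Subtype.val h
    · intro h
      exact Subtype.ext h
  · intro z
    obtain ⟨v, hv⟩ := LinearMap.surjective_rangeRestrict (P : E →ₗ[ℝ] E) (L.symm z)
    refine ⟨v, ?_⟩
    have h1 : (LinearMap.toContinuousLinearMap β₀) v =
        L (LinearMap.rangeRestrict (P : E →ₗ[ℝ] E) v) := rfl
    rw [h1, hv, LinearEquiv.apply_symm_apply]

end NRIGHT

open NRIGHT in
theorem t_RIGHT (he : S_EXIT.{u, v, w}) (hr : S_RA.{u, v, w}) (hc : S_CMPR.{u, v, w}) :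
    S_RIGHT.{u, v, w} := by
  intro E _ _ _ M _ _ _ _ F _ _ e f g k Es Eu π π' t ρ R ρ₀ κf κ0 K l Cs r ε1 ε2 η2 hx
  obtain ⟨η1', hη1', hE⟩ := he E M F e f Es Eu π t ρ R ρ₀ k κf κ0 hx.fc
  obtain ⟨η2', hη2', hR⟩ := hr E M F e f g k Es Eu π π' t ρ R ρ₀ κf κ0 K l Cs r ε1 ε2 η2 hx
  refine ⟨min η1' η2', lt_min hη1' hη2', ?_⟩
  intro η1 h0 hle hle2 b j0 hb hj0 w C₀ hC₀ hC₀s
  obtain ⟨T, δ₁, hδ₁, hT⟩ := (hE η1 h0 (hle.trans (min_le_left _ _)) b j0 hb hj0).2 w C₀
    (fun v hv => (hC₀ v).1 hv)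
  have hTb : ∀ p ∈ (ps E j0).source, dist (ps E j0 p) (ps E j0 b) = η1 →
      C₀ (ps E j0 p - ps E j0 b) = 0 → ∃ n ≤ T, κ0 < dist (f.symm^[n] p) (f.symm^[n] b) := by
    intro p hp h1 h2
    exact hT b (by rw [dist_self]; exact hδ₁) C₀ (by rw [sub_self, norm_zero]; exact hδ₁) p hp h1 h2
  -- the base point
  set xb : M := f.symm^[T] b with hxb
  have hxT : f^[T] xb = b := (Function.RightInverse.iterate (f.right_inv) T) b
  have hinv : ∀ x : M, f.symm^[T] (f^[T] x) = x := fun x =>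
    (Function.LeftInverse.iterate (f.left_inv) T) x
  -- the property for a fixed family of charts
  have key : ∀ J : Fin (T + 1) → t, ∃ δ > 0, ∀ x, dist (f^[T] x) b < δ → ∀ j : ℕ → M,
      (∀ i : Fin (T + 1), j i = J i) → j T = j0 → (∀ i, Gd t ρ (j i) (k (f^[i] x))) →
      ∀ C : E →L[ℝ] (Fin w → ℝ), ‖C - C₀‖ < δ → ∀ (s : ℕ) (βs : E →L[ℝ] (Fin s → ℝ)),
      (∀ v, βs v = 0 ↔ Pj π' (j 0) (cx E f k x j 0) v = 0) →
      Function.Surjective βs → RD E f k x j r η1 T βs C = 1 := by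
    intro J
    by_cases hJ0 : (J (Fin.last T) : M) = j0
    · by_cases hJ : ∀ i : Fin (T + 1), dist (k (f^[(i : ℕ)] xb)) (J i : M) ≤ ρ (J i)
      · -- extend `J`
        choose jc hjc1 hjc2 using fun i : ℕ => hx.fc.ch.cover (k (f^[i] xb))
        let j : ℕ → M := fun i => if h : i < T + 1 then (J ⟨i, h⟩ : M) else jc i
        have hjJ : ∀ i : ℕ, ∀ h : i < T + 1, j i = (J ⟨i, h⟩ : M) := fun i h => dif_pos h
        have hjg : ∀ i, Gd t ρ (j i) (k (f^[i] xb)) := by
          intro i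
          by_cases h : i < T + 1
          · rw [hjJ i h]
            exact ⟨(J ⟨i, h⟩).2, hJ ⟨i, h⟩⟩
          · have h1 : j i = jc i := dif_neg h
            rw [h1]
            exact ⟨hjc1 i, hjc2 i⟩
        have hjT : j T = j0 := by
          rw [hjJ T (Nat.lt_succ_self T)]
          exact hJ0
        obtain ⟨s₀, β₀, hβ₀, hβ₀s⟩ := exists_onto (Pj π' (j 0) (cx E f k xb j 0))
        have hRD : RD E f k xb j r η1 T β₀ C₀ = 1 := by
          refine hR η1 h0 (hle.trans (min_le_right _ _)) hle2 b hb T xb j hxT hjg ?_ s₀ w β₀ C₀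
            hβ₀ hβ₀s ?_ hC₀s
          · rw [hjT]
            intro p hp h1 h2
            exact hTb p hp h1 ((hC₀ _).2 h2)
          · rw [hjT]
            exact hC₀
        obtain ⟨δ, hδ, hD⟩ := hc E M F e f g k Es Eu π π' t ρ R ρ₀ κf κ0 K l Cs r ε1 ε2 η2 hx
          η1 h0 hle2 b T xb j hxT hjg s₀ w β₀ C₀ hβ₀ hβ₀s (by rw [hjT]; exact hTb)
        refine ⟨δ, hδ, ?_⟩
        intro x hxd j' hj' _ hg' C hC s βs hβ hβs
        rw [hD x hxd j' (fun i hi => ?_) hg' C hC s βs hβ hβs]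
        · exact hRD
        · rw [hjJ i (Nat.lt_succ_of_le hi)]
          exact hj' ⟨i, Nat.lt_succ_of_le hi⟩
      · push_neg at hJ
        obtain ⟨i, hi⟩ := hJ
        have hcont : Continuous fun y : M => dist (k (f^[(i : ℕ)] (f.symm^[T] y))) (J i : M) :=
          (hx.fc.kk.cont.comp ((f.continuous.iterate i).comp
            (f.symm.continuous.iterate T))).dist continuous_const
        have hop : IsOpen {y : M | ρ (J i) < dist (k (f^[(i : ℕ)] (f.symm^[T] y))) (J i : M)} :=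
          isOpen_lt continuous_const hcont
        obtain ⟨δ, hδ, hsub⟩ := Metric.isOpen_iff.1 hop b hi
        refine ⟨δ, hδ, ?_⟩
        intro x hxd j' hj' _ hg' C hC s βs hβ hβs
        exfalso
        have h1 := hsub (mem_ball.2 hxd)
        rw [mem_setOf_eq, hinv] at h1
        have h2 := (hg' i).2
        rw [hj' i] at h2
        exact absurd h2 (not_le.2 h1)
    · refine ⟨1, one_pos, ?_⟩
      intro x _ j' hj' hjT' _ C _ s βs _ _
      exact absurd ((hj' (Fin.last T)).symm.trans hjT') hJ0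
  choose d hd hdk using key
  obtain ⟨δ, hδ, hδd⟩ := exists_pos_le d hd
  refine ⟨T, min δ₁ δ, lt_min hδ₁ hδ, ?_, ?_⟩
  · intro x hxd C hC p hp h1 h2
    exact hT x (lt_of_lt_of_le hxd (min_le_left _ _)) C (lt_of_lt_of_le hC (min_le_left _ _)) p hp
      h1 h2
  · intro x hxd j hjT hg C hC s βs hβ hβs
    let J : Fin (T + 1) → t := fun i => ⟨j i, (hg i).1⟩
    exact hdk J x (lt_of_lt_of_le hxd ((min_le_right _ _).trans (hδd J))) j (fun i => rfl) hjT hg C
      (lt_of_lt_of_le hC ((min_le_right _ _).trans (hδd J))) s βs hβ hβs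

end Pool.Agent.H963.CJ
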